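import Pool.Agent.Lib.NSqP.Basic

/-!
# FEJ: the Fejer kernel
`∑_{|m|<M} (1-|m|/M) u^m = (1/M) |∑_{j<M} u^j|^2` for `|u| = 1`.
-/

set_option autoImplicit false

namespace Pool.Agent.NSqP

open Real
open Pool.Agent.MP484c84Par (ballG mem_ballG crossG badEdges mem_badEdges CM F)

/-- the Fejer kernel as a function of a unimodular number -/
noncomputable def fejK (M : ℕ) (u : ℂ) : ℝ := ‖∑ j ∈ Finset.range M, u ^ j‖ ^ 2 / M

theorem fejK_nonneg (M : ℕ) (u : ℂ) : 0 ≤ fejK M u := by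
  unfold fejK; positivity

theorem fejK_le (M : ℕ) {u : ℂ} (hu : ‖u‖ = 1) : fejK M u ≤ M := by
  unfold fejK
  rcases Nat.eq_zero_or_pos M with rfl | hM
  · simp
  have hM' : (0 : ℝ) < M := by exact_mod_cast hM
  have h1 : ‖∑ j ∈ Finset.range M, u ^ j‖ ≤ M := by
    refine (norm_sum_le _ _).trans ?_
    simp [norm_pow, hu]
  rw [div_le_iff₀ hM', ← pow_two]
  exact pow_le_pow_left₀ (norm_nonneg _) h1 2

theorem fejK_le_far (M : ℕ) {u : ℂ} (hu : ‖u‖ = 1) (h1 : u ≠ 1) :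
    fejK M u ≤ 4 / (M * ‖u - 1‖ ^ 2) := by
  unfold fejK
  rcases Nat.eq_zero_or_pos M with rfl | hM
  · simp
  have hM' : (0 : ℝ) < M := by exact_mod_cast hM
  have hpos : 0 < ‖u - 1‖ := norm_pos_iff.2 (sub_ne_zero.2 h1)
  have h2 : ‖∑ j ∈ Finset.range M, u ^ j‖ ≤ 2 / ‖u - 1‖ := by
    rw [geom_sum_eq h1, norm_div]
    refine div_le_div_of_nonneg_right ?_ hpos.le
    refine (norm_sub_le _ _).trans ?_
    rw [norm_pow, hu, one_pow, norm_one]; norm_num
  have h3 : ‖∑ j ∈ Finset.range M, u ^ j‖ ^ 2 ≤ 4 / ‖u - 1‖ ^ 2 := by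
    refine (pow_le_pow_left₀ (norm_nonneg _) h2 2).trans (le_of_eq ?_)
    rw [div_pow]; norm_num
  calc ‖∑ j ∈ Finset.range M, u ^ j‖ ^ 2 / M ≤ 4 / ‖u - 1‖ ^ 2 / M :=
        div_le_div_of_nonneg_right h3 hM'.le
    _ = 4 / (M * ‖u - 1‖ ^ 2) := by rw [div_div, mul_comm]

private theorem fej_card (M : ℕ) (m : ℤ) (hm : m ∈ fr M) :
    ((((Finset.range M) ×ˢ (Finset.range M)).filter
      (fun p : ℕ × ℕ => (p.2 : ℤ) - p.1 = m)).card : ℤ) = M - |m| := by
  rw [mem_fr, Int.abs_eq_natAbs] at hm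
  have h1 : (((Finset.range M) ×ˢ (Finset.range M)).filter
      (fun p : ℕ × ℕ => (p.2 : ℤ) - p.1 = m)).card = (Finset.range (M - m.natAbs)).card := by
    refine Finset.card_nbij' (fun p => min p.1 p.2) (fun i => (i + (-m).toNat, i + m.toNat))
      ?_ ?_ ?_ ?_
    · intro p hp
      simp only [Finset.coe_filter, Finset.mem_product, Finset.mem_range, Set.mem_setOf_eq] at hp
      simp only [Finset.coe_range, Set.mem_Iio]
      omega
    · intro i hi
      simp only [Finset.coe_range, Set.mem_Iio] at hi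
      simp only [Finset.coe_filter, Finset.mem_product, Finset.mem_range, Set.mem_setOf_eq]
      omega
    · intro p hp
      simp only [Finset.coe_filter, Finset.mem_product, Finset.mem_range, Set.mem_setOf_eq] at hp
      ext
      · simp only; omega
      · simp only; omega
    · intro i hi
      simp only [Finset.coe_range, Set.mem_Iio] at hi
      simp only
      omega
  rw [h1, Finset.card_range, Int.abs_eq_natAbs]
  omega

theorem fejK_eq (M : ℕ) (hM : 1 ≤ M) {u : ℂ} (hu : ‖u‖ = 1) :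
    ∑ m ∈ fr M, ((1 - |(m : ℝ)| / M : ℝ) : ℂ) * u ^ m = ((fejK M u : ℝ) : ℂ) := by
  have hM' : (M : ℂ) ≠ 0 := by exact_mod_cast (by omega : M ≠ 0)
  have hMr : (M : ℝ) ≠ 0 := by exact_mod_cast (by omega : M ≠ 0)
  have hu0 : u ≠ 0 := by
    rintro rfl
    simp at hu
  have hconj : (starRingEnd ℂ) u = u⁻¹ := by
    rw [Complex.inv_def, Complex.normSq_eq_norm_sq, hu]; simp
  -- the square as a double sum
  have h1 : ((‖∑ j ∈ Finset.range M, u ^ j‖ ^ 2 : ℝ) : ℂ) =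
      ∑ p ∈ (Finset.range M) ×ˢ (Finset.range M), u ^ ((p.2 : ℤ) - p.1) := by
    rw [Complex.ofReal_pow, ← Complex.mul_conj', map_sum, Finset.sum_mul_sum,
      Finset.sum_product_right]
    refine Finset.sum_congr rfl fun i _ => Finset.sum_congr rfl fun j _ => ?_
    rw [map_pow, hconj, zpow_sub₀ hu0, zpow_natCast, zpow_natCast, inv_pow]
    rfl
  have h2 : ∑ p ∈ (Finset.range M) ×ˢ (Finset.range M), u ^ ((p.2 : ℤ) - p.1) =
      ∑ m ∈ fr M, ((M : ℂ) - (|m| : ℤ)) * u ^ m := by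
    rw [← Finset.sum_fiberwise_of_maps_to (g := fun p : ℕ × ℕ => (p.2 : ℤ) - p.1) (t := fr M)]
    · refine Finset.sum_congr rfl fun m hm => ?_
      rw [Finset.sum_congr rfl (g := fun _ => u ^ m), Finset.sum_const, nsmul_eq_mul]
      · congr 1
        have h3 := fej_card M m hm
        have h4 := congrArg (fun z : ℤ => (z : ℂ)) h3
        simp only [Int.cast_natCast, Int.cast_sub] at h4
        exact h4
      · intro p hp
        rw [(Finset.mem_filter.1 hp).2]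
    · intro p hp
      rw [Finset.mem_product, Finset.mem_range, Finset.mem_range] at hp
      rw [mem_fr, abs_lt]
      omega
  unfold fejK
  rw [Complex.ofReal_div, h1, h2, Finset.sum_div]
  refine Finset.sum_congr rfl fun m _ => ?_
  have h3 : ((1 - |(m : ℝ)| / M : ℝ) : ℂ) = ((M : ℂ) - (|m| : ℤ)) / M := by
    rw [show |(m : ℝ)| = ((|m| : ℤ) : ℝ) from Int.cast_abs.symm, Complex.ofReal_sub,
      Complex.ofReal_div, Complex.ofReal_one, Complex.ofReal_intCast, Complex.ofReal_natCast]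
    field_simp
  rw [h3, Complex.ofReal_natCast]
  ring

/-- quadratic form identity: expand the square and use `fejK_eq` with `u i * conj (u j)` -/
theorem fej_quad {ι : Type} (s : Finset ι) (a u : ι → ℂ) (M : ℕ) (hM : 1 ≤ M)
    (hu : ∀ i ∈ s, ‖u i‖ = 1) :
    ∑ m ∈ fr M, (1 - |(m : ℝ)| / M) * ‖∑ i ∈ s, a i * u i ^ m‖ ^ 2 =
      (∑ i ∈ s, ∑ j ∈ s, a i * (starRingEnd ℂ) (a j) *
        ((fejK M (u i * (starRingEnd ℂ) (u j)) : ℝ) : ℂ)).re := by
  have key : ((∑ m ∈ fr M, (1 - |(m : ℝ)| / M) * ‖∑ i ∈ s, a i * u i ^ m‖ ^ 2 : ℝ) : ℂ) =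
      ∑ i ∈ s, ∑ j ∈ s, a i * (starRingEnd ℂ) (a j) *
        ((fejK M (u i * (starRingEnd ℂ) (u j)) : ℝ) : ℂ) := by
    rw [Complex.ofReal_sum]
    have h1 : ∀ m ∈ fr M, (((1 - |(m : ℝ)| / M) * ‖∑ i ∈ s, a i * u i ^ m‖ ^ 2 : ℝ) : ℂ) =
        ∑ i ∈ s, ∑ j ∈ s, a i * (starRingEnd ℂ) (a j) *
          (((1 - |(m : ℝ)| / M : ℝ) : ℂ) * (u i * (starRingEnd ℂ) (u j)) ^ m) := by
      intro m _
      rw [Complex.ofReal_mul, Complex.ofReal_pow, ← Complex.mul_conj', map_sum, Finset.sum_mul_sum,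
        Finset.mul_sum]
      refine Finset.sum_congr rfl fun i _ => ?_
      rw [Finset.mul_sum]
      refine Finset.sum_congr rfl fun j _ => ?_
      rw [map_mul, map_zpow₀, mul_zpow]
      ring
    rw [Finset.sum_congr rfl h1, Finset.sum_comm]
    refine Finset.sum_congr rfl fun i hi => ?_
    rw [Finset.sum_comm]
    refine Finset.sum_congr rfl fun j hj => ?_
    rw [← Finset.mul_sum, fejK_eq M hM]
    rw [norm_mul, hu i hi, one_mul, RCLike.norm_conj, hu j hj]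
  rw [← key, Complex.ofReal_re]

end Pool.Agent.NSqP
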