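import Pool.Agent.Lib.NSqP.Near
import Pool.Agent.Lib.NSqP.Fej

/-!
# LS0: abstract large sieve (only the first paragraph below is needed here)
`LS0`: `∑_{|m|<M} |S(m)|^2 ≤ 2 ∑_{|m|<2M} (1-|m|/2M)|S(m)|^2`, `fej_quad` with `2M`,
`|a_i a_j| ≤ (|a_i|^2+|a_j|^2)/2`, and for fixed `i` the sum of `fejK (2M) (u_i conj u_j)` over `j`
is at most `2M * #near + (4/(2M)) far_sum` with `r = max (1/L) (1/M)` (for `M = 0` everything is 0).
`LSP`: distinct primitive `z, w` of norm at most `L` have `|xi z - xi w| ≥ 1/L`: if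
`crossG z w ≠ 0` then `|xi z - xi w| ≥ |Im (conj (xi z) * xi w)| = |crossG z w|/(|z||w|)`; if
`crossG z w = 0` then `w = -z`.
`LSC`: `z = cont z * z0`, `xi z = xi z0`; group the `z` with the same `z0` (same direction),
Cauchy: `|∑ a_z|^2 ≤ (∑ 1/cont z) (∑ cont z |a_z|^2)`, contents are distinct on one direction.
-/

set_option autoImplicit false

namespace Pool.Agent.NSqP

open Real
open Pool.Agent.MP484c84Par (ballG mem_ballG crossG badEdges mem_badEdges CM F)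

private lemma ls0_chord {a b : ℂ} (ha : ‖a‖ = 1) (hb : ‖b‖ = 1) :
    ‖a * (starRingEnd ℂ) b - 1‖ = ‖b - a‖ := by
  have _ := ha
  have h1 : b * (starRingEnd ℂ) b = 1 := by
    rw [Complex.mul_conj, Complex.normSq_eq_norm_sq, hb]
    norm_num
  have h2 : a * (starRingEnd ℂ) b - 1 = (a - b) * (starRingEnd ℂ) b := by
    rw [sub_mul, h1]
  rw [h2, norm_mul, RCLike.norm_conj, hb, mul_one, norm_sub_rev]

private lemma ls0_row {ι : Type} (s : Finset ι) (u v : ι → ℂ) (w : ℂ) (L : ℝ) (M : ℕ)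
    (hM : 1 ≤ M) (hL : 1 ≤ L) (hw : ‖w‖ = 1) (hu : ∀ i ∈ s, ‖u i‖ = 1)
    (hsep : ∀ i ∈ s, ∀ j ∈ s, i ≠ j → 1 / L ≤ ‖u i - u j‖) (hv : ∀ i ∈ s, ‖v i‖ = 1)
    (hvu : ∀ i ∈ s, ‖v i - 1‖ = ‖u i - w‖) :
    ∑ j ∈ s, fejK (2 * M) (v j) ≤ 88 * (M + L) := by
  classical
  have hM' : (1 : ℝ) ≤ M := by exact_mod_cast hM
  have hM0 : (0 : ℝ) < M := by linarith
  have hL0 : (0 : ℝ) < L := by linarith
  set r : ℝ := 1 / L + 1 / M with hr
  have h1L : 0 < 1 / L := by positivity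
  have h1M : 0 < 1 / (M : ℝ) := by positivity
  have hr0 : 0 < r := by rw [hr]; positivity
  have hrL : 1 / L ≤ r := by rw [hr]; linarith
  have hrM : 1 / (M : ℝ) ≤ r := by rw [hr]; linarith
  have hsplit : ∑ j ∈ s, fejK (2 * M) (v j) =
      ∑ j ∈ s.filter (fun j => ‖u j - w‖ ≤ r), fejK (2 * M) (v j) +
      ∑ j ∈ s.filter (fun j => r < ‖u j - w‖), fejK (2 * M) (v j) := by
    rw [← Finset.sum_filter_add_sum_filter_not s (fun j => ‖u j - w‖ ≤ r)]
    simp only [not_le]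
  have hnear : ∑ j ∈ s.filter (fun j => ‖u j - w‖ ≤ r), fejK (2 * M) (v j) ≤
      10 * M + 8 * L := by
    have h1 : ∑ j ∈ s.filter (fun j => ‖u j - w‖ ≤ r), fejK (2 * M) (v j) ≤
        ∑ j ∈ s.filter (fun j => ‖u j - w‖ ≤ r), (2 * M : ℝ) := by
      refine Finset.sum_le_sum fun j hj => ?_
      have h2 := fejK_le (2 * M) (hv j (Finset.mem_filter.mp hj).1)
      push_cast at h2
      exact h2
    rw [Finset.sum_const, nsmul_eq_mul] at h1
    have h2 := near_count s u w L r hL hr0.le hw hu hsep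
    have h3 : 4 * r * L = 4 + 4 * L / M := by
      rw [hr]
      field_simp
    rw [h3] at h2
    calc _ ≤ _ := h1
      _ ≤ (1 + (4 + 4 * L / M)) * (2 * M) := by
        exact mul_le_mul_of_nonneg_right h2 (by positivity)
      _ = 10 * M + 8 * L := by field_simp; ring
  have hfar : ∑ j ∈ s.filter (fun j => r < ‖u j - w‖), fejK (2 * M) (v j) ≤ 80 * L := by
    have h1 : ∑ j ∈ s.filter (fun j => r < ‖u j - w‖), fejK (2 * M) (v j) ≤
        ∑ j ∈ s.filter (fun j => r < ‖u j - w‖), (2 / M) * (1 / ‖u j - w‖ ^ 2) := by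
      refine Finset.sum_le_sum fun j hj => ?_
      obtain ⟨hj1, hj2⟩ := Finset.mem_filter.mp hj
      have hne : v j ≠ 1 := by
        intro h
        have := hvu j hj1
        rw [h, sub_self, norm_zero] at this
        rw [← this] at hj2
        linarith
      have h2 := fejK_le_far (2 * M) (hv j hj1) hne
      rw [hvu j hj1] at h2
      have h3 : 0 < ‖u j - w‖ := lt_trans hr0 hj2
      refine h2.trans (le_of_eq ?_)
      push_cast
      field_simp
      norm_num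
    rw [← Finset.mul_sum] at h1
    have h2 := far_sum s u w L r hL hrL hw hu hsep
    calc _ ≤ _ := h1
      _ ≤ (2 / M) * (40 * L / r) := mul_le_mul_of_nonneg_left h2 (by positivity)
      _ = 80 * L * ((1 / M) / r) := by field_simp; ring
      _ ≤ 80 * L * 1 := by
        apply mul_le_mul_of_nonneg_left _ (by positivity)
        rw [div_le_one hr0]
        exact hrM
      _ = 80 * L := by ring
  rw [hsplit]
  linarith

theorem LS0 : ∃ C : ℝ, 0 < C ∧ ∀ (ι : Type) (s : Finset ι) (a u : ι → ℂ) (L : ℝ) (M : ℕ), 1 ≤ L →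
    (∀ i ∈ s, ‖u i‖ = 1) → (∀ i ∈ s, ∀ j ∈ s, i ≠ j → 1 / L ≤ ‖u i - u j‖) →
    ∑ m ∈ fr M, ‖∑ i ∈ s, a i * u i ^ m‖ ^ 2 ≤ C * (M + L) * ∑ i ∈ s, ‖a i‖ ^ 2 := by
  refine ⟨176, by norm_num, ?_⟩
  intro ι s a u L M hL hu hsep
  have hA : 0 ≤ ∑ i ∈ s, ‖a i‖ ^ 2 := Finset.sum_nonneg fun i _ => by positivity
  rcases Nat.eq_zero_or_pos M with hM | hM
  · subst hM
    have h1 : fr 0 = ∅ := by
      unfold fr
      simp
    rw [h1, Finset.sum_empty]
    have : (0 : ℝ) ≤ ((0 : ℕ) : ℝ) + L := by push_cast; linarith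
    positivity
  have hM0 : (0 : ℝ) < M := by exact_mod_cast hM
  have hL0 : (0 : ℝ) < L := by linarith
  have hsub : fr M ⊆ fr (2 * M) := by
    intro m hm
    rw [mem_fr] at hm ⊢
    push_cast
    have : (0 : ℤ) < M := by exact_mod_cast hM
    linarith
  have hw : ∀ m ∈ fr (2 * M), 0 ≤ 1 - |(m : ℝ)| / ((2 * M : ℕ) : ℝ) := by
    intro m hm
    rw [mem_fr] at hm
    have h1 : |(m : ℝ)| < ((2 * M : ℕ) : ℝ) := by exact_mod_cast hm
    rw [sub_nonneg, div_le_one (by push_cast; positivity)]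
    exact h1.le
  have hstep1 : ∑ m ∈ fr M, ‖∑ i ∈ s, a i * u i ^ m‖ ^ 2 ≤
      2 * ∑ m ∈ fr (2 * M), (1 - |(m : ℝ)| / ((2 * M : ℕ) : ℝ)) *
        ‖∑ i ∈ s, a i * u i ^ m‖ ^ 2 := by
    calc ∑ m ∈ fr M, ‖∑ i ∈ s, a i * u i ^ m‖ ^ 2
        ≤ ∑ m ∈ fr M, 2 * ((1 - |(m : ℝ)| / ((2 * M : ℕ) : ℝ)) *
          ‖∑ i ∈ s, a i * u i ^ m‖ ^ 2) := by
          refine Finset.sum_le_sum fun m hm => ?_
          rw [mem_fr] at hm
          have h1 : |(m : ℝ)| < (M : ℝ) := by exact_mod_cast hm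
          have h2 : 1 / 2 ≤ 1 - |(m : ℝ)| / ((2 * M : ℕ) : ℝ) := by
            have h3 : |(m : ℝ)| / ((2 * M : ℕ) : ℝ) ≤ 1 / 2 := by
              rw [div_le_iff₀ (by push_cast; positivity)]
              push_cast
              linarith
            linarith
          have h4 : 0 ≤ ‖∑ i ∈ s, a i * u i ^ m‖ ^ 2 := by positivity
          nlinarith
      _ ≤ ∑ m ∈ fr (2 * M), 2 * ((1 - |(m : ℝ)| / ((2 * M : ℕ) : ℝ)) *
          ‖∑ i ∈ s, a i * u i ^ m‖ ^ 2) := by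
          refine Finset.sum_le_sum_of_subset_of_nonneg hsub fun m hm _ => ?_
          have := hw m hm
          positivity
      _ = _ := by rw [Finset.mul_sum]
  have hquad := fej_quad s a u (2 * M) (by omega) hu
  have hrow : ∀ i ∈ s, ∑ j ∈ s, fejK (2 * M) (u i * (starRingEnd ℂ) (u j)) ≤ 88 * (M + L) := by
    intro i hi
    refine ls0_row s u _ (u i) L M hM hL (hu i hi) hu hsep ?_ ?_
    · intro j hj
      rw [norm_mul, RCLike.norm_conj, hu i hi, hu j hj, mul_one]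
    · intro j hj
      exact ls0_chord (hu i hi) (hu j hj)
  have hcol : ∀ j ∈ s, ∑ i ∈ s, fejK (2 * M) (u i * (starRingEnd ℂ) (u j)) ≤ 88 * (M + L) := by
    intro j hj
    refine ls0_row s u _ (u j) L M hM hL (hu j hj) hu hsep ?_ ?_
    · intro i hi
      rw [norm_mul, RCLike.norm_conj, hu i hi, hu j hj, mul_one]
    · intro i hi
      rw [ls0_chord (hu i hi) (hu j hj), norm_sub_rev]
  have hbound : (∑ i ∈ s, ∑ j ∈ s, a i * (starRingEnd ℂ) (a j) *
        ((fejK (2 * M) (u i * (starRingEnd ℂ) (u j)) : ℝ) : ℂ)).re ≤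
        88 * (M + L) * ∑ i ∈ s, ‖a i‖ ^ 2 := by
    calc _ ≤ ‖∑ i ∈ s, ∑ j ∈ s, a i * (starRingEnd ℂ) (a j) *
        ((fejK (2 * M) (u i * (starRingEnd ℂ) (u j)) : ℝ) : ℂ)‖ := Complex.re_le_norm _
      _ ≤ ∑ i ∈ s, ∑ j ∈ s, ‖a i‖ * ‖a j‖ * fejK (2 * M) (u i * (starRingEnd ℂ) (u j)) := by
        refine (norm_sum_le _ _).trans (Finset.sum_le_sum fun i _ => ?_)
        refine (norm_sum_le _ _).trans (Finset.sum_le_sum fun j _ => ?_)
        rw [norm_mul, norm_mul, RCLike.norm_conj, Complex.norm_real, Real.norm_eq_abs,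
          abs_of_nonneg (fejK_nonneg _ _)]
      _ ≤ ∑ i ∈ s, ∑ j ∈ s, (1 / 2 * (‖a i‖ ^ 2 * fejK (2 * M) (u i * (starRingEnd ℂ) (u j))) +
          1 / 2 * (‖a j‖ ^ 2 * fejK (2 * M) (u i * (starRingEnd ℂ) (u j)))) := by
        refine Finset.sum_le_sum fun i _ => Finset.sum_le_sum fun j _ => ?_
        have h1 := fejK_nonneg (2 * M) (u i * (starRingEnd ℂ) (u j))
        have h2 : ‖a i‖ * ‖a j‖ ≤ 1 / 2 * ‖a i‖ ^ 2 + 1 / 2 * ‖a j‖ ^ 2 := by
          nlinarith [sq_nonneg (‖a i‖ - ‖a j‖)]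
        have h3 := mul_le_mul_of_nonneg_right h2 h1
        linarith
      _ = 1 / 2 * ∑ i ∈ s, ‖a i‖ ^ 2 * ∑ j ∈ s, fejK (2 * M) (u i * (starRingEnd ℂ) (u j)) +
          1 / 2 * ∑ j ∈ s, ‖a j‖ ^ 2 * ∑ i ∈ s, fejK (2 * M) (u i * (starRingEnd ℂ) (u j)) := by
        simp only [Finset.sum_add_distrib]
        congr 1
        · rw [Finset.mul_sum]
          refine Finset.sum_congr rfl fun i _ => ?_
          rw [Finset.mul_sum, Finset.mul_sum]
        · rw [Finset.sum_comm, Finset.mul_sum]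
          refine Finset.sum_congr rfl fun i _ => ?_
          rw [Finset.mul_sum, Finset.mul_sum]
      _ ≤ 1 / 2 * ∑ i ∈ s, ‖a i‖ ^ 2 * (88 * (M + L)) +
          1 / 2 * ∑ j ∈ s, ‖a j‖ ^ 2 * (88 * (M + L)) := by
        refine add_le_add ?_ ?_
        · refine mul_le_mul_of_nonneg_left (Finset.sum_le_sum fun i hi => ?_) (by norm_num)
          exact mul_le_mul_of_nonneg_left (hrow i hi) (by positivity)
        · refine mul_le_mul_of_nonneg_left (Finset.sum_le_sum fun i hi => ?_) (by norm_num)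
          exact mul_le_mul_of_nonneg_left (hcol i hi) (by positivity)
      _ = _ := by
        rw [← Finset.sum_mul]
        ring
  rw [hquad] at hstep1
  calc _ ≤ _ := hstep1
    _ ≤ 2 * (88 * (M + L) * ∑ i ∈ s, ‖a i‖ ^ 2) := mul_le_mul_of_nonneg_left hbound (by norm_num)
    _ = _ := by ring

end Pool.Agent.NSqP
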