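import Pool.Agent.Lib.NSqP.Basic

/-!
# LC: lattice points in annuli
`card_ann`: Gauss circle bound by unit squares (or row by row: `2 ⌊√(b - y^2)⌋ + 1` summed over
`y` is `π b + O(√b + 1)`).  `card_ann_le`: for `b ≥ 1` from `card_ann`, and `ann 0 b = ∅` for
`b < 1`.  `sum_dvd`: the bijection `w ↦ κ w` from `ann (a/N κ) (b/N κ)` onto the multiples of `κ`
in `ann a b`.
-/

set_option autoImplicit false

namespace Pool.Agent.NSqP

open Real
open Pool.Agent.MP484c84Par (ballG mem_ballG crossG badEdges mem_badEdges CM F)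

private def lcQ (z : GaussianInt) : Set (ℝ × ℝ) :=
  Set.Ico ((z.re : ℝ) - 1 / 2) ((z.re : ℝ) + 1 / 2) ×ˢ
    Set.Ico ((z.im : ℝ) - 1 / 2) ((z.im : ℝ) + 1 / 2)

private def lcD (r : ℝ) : Set (ℝ × ℝ) := {p | p.1 ^ 2 + p.2 ^ 2 < r ^ 2}

private lemma lcQ_volume (z : GaussianInt) : MeasureTheory.volume (lcQ z) = 1 := by
  unfold lcQ
  rw [MeasureTheory.Measure.volume_eq_prod, MeasureTheory.Measure.prod_prod, Real.volume_Ico,
    Real.volume_Ico]
  ring_nf
  simp

private lemma lcQ_meas (z : GaussianInt) : MeasurableSet (lcQ z) :=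
  measurableSet_Ico.prod measurableSet_Ico

private lemma lcQ_disj {z w : GaussianInt} (h : z ≠ w) : Disjoint (lcQ z) (lcQ w) := by
  rw [Set.disjoint_left]
  rintro p ⟨⟨h1, h2⟩, h3, h4⟩ ⟨⟨h5, h6⟩, h7, h8⟩
  apply h
  have e1 : z.re = w.re := by
    have a1 : (z.re : ℝ) < w.re + 1 := by linarith
    have a2 : (w.re : ℝ) < z.re + 1 := by linarith
    have a3 : z.re < w.re + 1 := by exact_mod_cast a1
    have a4 : w.re < z.re + 1 := by exact_mod_cast a2
    omega
  have e2 : z.im = w.im := by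
    have a1 : (z.im : ℝ) < w.im + 1 := by linarith
    have a2 : (w.im : ℝ) < z.im + 1 := by linarith
    have a3 : z.im < w.im + 1 := by exact_mod_cast a1
    have a4 : w.im < z.im + 1 := by exact_mod_cast a2
    omega
  exact Zsqrtd.ext e1 e2

private lemma lcD_volume {r : ℝ} (hr : 0 ≤ r) :
    MeasureTheory.volume (lcD r) = ENNReal.ofReal (π * r ^ 2) := by
  have hm : MeasurableSet (lcD r) := by
    apply measurableSet_lt <;> fun_prop
  have h1 := Complex.volume_preserving_equiv_real_prod.measure_preimage hm.nullMeasurableSet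
  rw [← h1]
  have h2 : Complex.measurableEquivRealProd ⁻¹' (lcD r) = Metric.ball (0 : ℂ) r := by
    ext w
    simp only [Set.mem_preimage, lcD, Set.mem_ofPred_eq, Complex.measurableEquivRealProd_apply,
      mem_ball_zero_iff]
    have h3 : w.re ^ 2 + w.im ^ 2 = ‖w‖ ^ 2 := by
      rw [← Complex.normSq_eq_norm_sq, Complex.normSq_apply]; ring
    rw [h3]
    constructor
    · intro h; exact lt_of_pow_lt_pow_left₀ 2 hr h
    · intro h; exact pow_lt_pow_left₀ h (norm_nonneg _) (by norm_num)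
  rw [h2, Complex.volume_ball, ENNReal.ofReal_mul pi_pos.le, ENNReal.ofReal_pow hr, mul_comm]
  congr 1
  rw [ENNReal.ofReal, ← NNReal.coe_real_pi, Real.toNNReal_coe]

private lemma lc_union (S : Finset GaussianInt) :
    MeasureTheory.volume (⋃ z ∈ S, lcQ z) = ENNReal.ofReal (S.card : ℝ) := by
  rw [MeasureTheory.measure_biUnion_finset (fun z _ w _ h => lcQ_disj h) (fun z _ => lcQ_meas z)]
  rw [Finset.sum_congr rfl fun z _ => lcQ_volume z]
  simp

private lemma lc_circle {b : ℝ} (hb : 0 ≤ b) :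
    |((ann (-1) b).card : ℝ) - π * b| ≤ 8 * (√b + 1) := by
  have hR : 0 ≤ √b := sqrt_nonneg b
  have hRb : √b ^ 2 = b := sq_sqrt hb
  have hmem : ∀ z : GaussianInt, z ∈ ann (-1) b ↔ (z.re : ℝ) ^ 2 + (z.im : ℝ) ^ 2 ≤ √b ^ 2 := by
    intro z
    rw [mem_ann hb, nN_real, hRb]
    constructor
    · exact fun h => h.2
    · exact fun h => ⟨by nlinarith [sq_nonneg (z.re : ℝ), sq_nonneg (z.im : ℝ)], h⟩
  have hpi := pi_pos
  have hpi4 := pi_le_four
  -- upper bound
  have hup : ((ann (-1) b).card : ℝ) ≤ π * (√b + 1) ^ 2 := by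
    have h1 : (⋃ z ∈ ann (-1) b, lcQ z) ⊆ lcD (√b + 1) := by
      intro p hp
      simp only [Set.mem_iUnion] at hp
      obtain ⟨z, hz, ⟨h1, h2⟩, h3, h4⟩ := hp
      rw [hmem] at hz
      change p.1 ^ 2 + p.2 ^ 2 < (√b + 1) ^ 2
      have hx : |(z.re : ℝ)| ≤ √b := abs_le_of_sq_le_sq (by nlinarith [sq_nonneg (z.im : ℝ)]) hR
      have hy : |(z.im : ℝ)| ≤ √b := abs_le_of_sq_le_sq (by nlinarith [sq_nonneg (z.re : ℝ)]) hR
      set u := p.1 - z.re with hu
      set v := p.2 - z.im with hv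
      have e1 : p.1 = z.re + u := by rw [hu]; ring
      have e2 : p.2 = z.im + v := by rw [hv]; ring
      have hu1 : |u| ≤ 1 / 2 := abs_le.2 ⟨by linarith, by linarith⟩
      have hv1 : |v| ≤ 1 / 2 := abs_le.2 ⟨by linarith, by linarith⟩
      have hu2 : u ^ 2 ≤ 1 / 4 := by rw [← sq_abs]; nlinarith [abs_nonneg u]
      have hv2 : v ^ 2 ≤ 1 / 4 := by rw [← sq_abs]; nlinarith [abs_nonneg v]
      have h5 : (z.re : ℝ) * u ≤ √b * (1 / 2) := by
        calc (z.re : ℝ) * u ≤ |(z.re : ℝ) * u| := le_abs_self _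
          _ = |(z.re : ℝ)| * |u| := abs_mul _ _
          _ ≤ √b * (1 / 2) := mul_le_mul hx hu1 (abs_nonneg _) hR
      have h6 : (z.im : ℝ) * v ≤ √b * (1 / 2) := by
        calc (z.im : ℝ) * v ≤ |(z.im : ℝ) * v| := le_abs_self _
          _ = |(z.im : ℝ)| * |v| := abs_mul _ _
          _ ≤ √b * (1 / 2) := mul_le_mul hy hv1 (abs_nonneg _) hR
      rw [e1, e2]
      nlinarith
    have h2 := MeasureTheory.measure_mono (μ := MeasureTheory.volume) h1
    rw [lc_union, lcD_volume (by linarith)] at h2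
    exact (ENNReal.ofReal_le_ofReal_iff (by positivity)).1 h2
  -- lower bound
  have hlo : 1 ≤ √b → π * (√b - 1) ^ 2 ≤ ((ann (-1) b).card : ℝ) := by
    intro hb1
    have h1 : lcD (√b - 1) ⊆ ⋃ z ∈ ann (-1) b, lcQ z := by
      intro p hp
      change p.1 ^ 2 + p.2 ^ 2 < (√b - 1) ^ 2 at hp
      simp only [Set.mem_iUnion]
      have hx1 := Int.floor_le (p.1 + 1 / 2)
      have hx2 := Int.lt_floor_add_one (p.1 + 1 / 2)
      have hy1 := Int.floor_le (p.2 + 1 / 2)
      have hy2 := Int.lt_floor_add_one (p.2 + 1 / 2)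
      refine ⟨⟨⌊p.1 + 1 / 2⌋, ⌊p.2 + 1 / 2⌋⟩, ?_, ⟨?_, ?_⟩, ?_, ?_⟩
      · rw [hmem]
        change ((⌊p.1 + 1 / 2⌋ : ℤ) : ℝ) ^ 2 + ((⌊p.2 + 1 / 2⌋ : ℤ) : ℝ) ^ 2 ≤ √b ^ 2
        have hx : |p.1| ≤ √b - 1 := abs_le_of_sq_le_sq (by nlinarith [sq_nonneg p.2]) (by linarith)
        have hy : |p.2| ≤ √b - 1 := abs_le_of_sq_le_sq (by nlinarith [sq_nonneg p.1]) (by linarith)
        set x : ℝ := ((⌊p.1 + 1 / 2⌋ : ℤ) : ℝ)
        set y : ℝ := ((⌊p.2 + 1 / 2⌋ : ℤ) : ℝ)
        set u := x - p.1 with hu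
        set v := y - p.2 with hv
        have e1 : x = p.1 + u := by rw [hu]; ring
        have e2 : y = p.2 + v := by rw [hv]; ring
        have hu1 : |u| ≤ 1 / 2 := abs_le.2 ⟨by linarith, by linarith⟩
        have hv1 : |v| ≤ 1 / 2 := abs_le.2 ⟨by linarith, by linarith⟩
        have hu2 : u ^ 2 ≤ 1 / 4 := by rw [← sq_abs]; nlinarith [abs_nonneg u]
        have hv2 : v ^ 2 ≤ 1 / 4 := by rw [← sq_abs]; nlinarith [abs_nonneg v]
        have h5 : p.1 * u ≤ (√b - 1) * (1 / 2) := by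
          calc p.1 * u ≤ |p.1 * u| := le_abs_self _
            _ = |p.1| * |u| := abs_mul _ _
            _ ≤ (√b - 1) * (1 / 2) := mul_le_mul hx hu1 (abs_nonneg _) (by linarith)
        have h6 : p.2 * v ≤ (√b - 1) * (1 / 2) := by
          calc p.2 * v ≤ |p.2 * v| := le_abs_self _
            _ = |p.2| * |v| := abs_mul _ _
            _ ≤ (√b - 1) * (1 / 2) := mul_le_mul hy hv1 (abs_nonneg _) (by linarith)
        rw [e1, e2]
        nlinarith
      · change ((⌊p.1 + 1 / 2⌋ : ℤ) : ℝ) - 1 / 2 ≤ p.1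
        linarith
      · change p.1 < ((⌊p.1 + 1 / 2⌋ : ℤ) : ℝ) + 1 / 2
        linarith
      · change ((⌊p.2 + 1 / 2⌋ : ℤ) : ℝ) - 1 / 2 ≤ p.2
        linarith
      · change p.2 < ((⌊p.2 + 1 / 2⌋ : ℤ) : ℝ) + 1 / 2
        linarith
    have h2 := MeasureTheory.measure_mono (μ := MeasureTheory.volume) h1
    rw [lc_union, lcD_volume (by linarith)] at h2
    exact (ENNReal.ofReal_le_ofReal_iff (Nat.cast_nonneg _)).1 h2
  rw [abs_le]
  constructor
  · rcases le_total 1 √b with h | h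
    · have := hlo h
      nlinarith
    · have h1 : (0 : ℝ) ≤ ((ann (-1) b).card : ℝ) := Nat.cast_nonneg _
      have h2 : b ≤ 1 := by nlinarith
      have h3 : π * b ≤ 4 * 1 := mul_le_mul hpi4 h2 hb (by norm_num)
      linarith
  · nlinarith

theorem card_ann : ∃ C : ℝ, 0 < C ∧ ∀ a b : ℝ, 0 ≤ a → a ≤ b →
    |((ann a b).card : ℝ) - π * (b - a)| ≤ C * (√b + 1) := by
  classical
  refine ⟨16, by norm_num, fun a b ha hab => ?_⟩
  have hb : 0 ≤ b := ha.trans hab
  have h1 : ann (-1) b = ann (-1) a ∪ ann a b := by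
    ext z
    rw [Finset.mem_union, mem_ann hb, mem_ann ha, mem_ann hb]
    have h0 : (0 : ℝ) ≤ nN z := Nat.cast_nonneg _
    constructor
    · rintro ⟨_, h⟩
      rcases le_or_gt (nN z : ℝ) a with h2 | h2
      · exact Or.inl ⟨by linarith, h2⟩
      · exact Or.inr ⟨h2, h⟩
    · rintro (⟨h2, h3⟩ | ⟨h2, h3⟩)
      · exact ⟨h2, h3.trans hab⟩
      · exact ⟨by linarith, h3⟩
  have h2 : Disjoint (ann (-1) a) (ann a b) := by
    rw [Finset.disjoint_left]
    intro z hz hz'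
    rw [mem_ann ha] at hz
    rw [mem_ann hb] at hz'
    linarith [hz.2, hz'.1]
  have h3 : ((ann (-1) b).card : ℝ) = (ann (-1) a).card + (ann a b).card := by
    rw [h1, Finset.card_union_of_disjoint h2]; push_cast; rfl
  have h4 := abs_le.1 (lc_circle hb)
  have h5 := abs_le.1 (lc_circle ha)
  have h6 : √a ≤ √b := sqrt_le_sqrt hab
  rw [abs_le]
  constructor <;> nlinarith [h4.1, h4.2, h5.1, h5.2]

theorem card_ann_le : ∃ C : ℝ, 0 < C ∧ ∀ b : ℝ, 0 ≤ b → ((ann 0 b).card : ℝ) ≤ C * b := by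
  classical
  obtain ⟨C, hC, h⟩ := card_ann
  refine ⟨π + 2 * C, by positivity, fun b hb => ?_⟩
  rcases lt_or_ge b 1 with h1 | h1
  · have h2 : ann 0 b = ∅ := by
      rw [Finset.eq_empty_iff_forall_notMem]
      intro z hz
      rw [mem_ann hb] at hz
      have h3 : (nN z : ℝ) < 1 := lt_of_le_of_lt hz.2 h1
      have h4 : nN z < 1 := by exact_mod_cast h3
      have h5 : nN z = 0 := by omega
      rw [h5] at hz
      simp at hz
    rw [h2]
    simp only [Finset.card_empty, Nat.cast_zero]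
    positivity
  · have h2 := (abs_le.1 (h 0 b le_rfl hb)).2
    have h3 : √b ≤ b := by
      rw [sqrt_le_left (by linarith)]
      nlinarith
    rw [sub_zero] at h2
    nlinarith

open Classical in
theorem sum_dvd {E : Type} [AddCommMonoid E] (h : GaussianInt → E) {κ : GaussianInt} (hκ : κ ≠ 0)
    {a b : ℝ} (ha : 0 ≤ a) (hb : 0 ≤ b) :
    ∑ z ∈ (ann a b).filter (fun z => κ ∣ z), h z =
      ∑ w ∈ ann (a / nN κ) (b / nN κ), h (κ * w) := by
  have hN : (0 : ℝ) < nN κ := by exact_mod_cast nN_pos hκ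
  symm
  refine Finset.sum_nbij (fun w => κ * w) ?_ ?_ ?_ ?_
  · intro w hw
    rw [mem_ann (by positivity)] at hw
    rw [Finset.mem_filter, mem_ann hb, nN_mul]
    push_cast
    rw [div_lt_iff₀ hN, le_div_iff₀ hN] at hw
    exact ⟨⟨by linarith [hw.1], by linarith [hw.2]⟩, dvd_mul_right _ _⟩
  · intro w _ w' _ h1
    exact mul_left_cancel₀ hκ h1
  · intro z hz
    rw [Finset.mem_coe, Finset.mem_filter, mem_ann hb] at hz
    obtain ⟨h1, w, rfl⟩ := hz
    refine ⟨w, ?_, rfl⟩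
    rw [Finset.mem_coe, mem_ann (by positivity), div_lt_iff₀ hN, le_div_iff₀ hN]
    rw [nN_mul] at h1
    push_cast at h1
    exact ⟨by linarith [h1.1], by linarith [h1.2]⟩
  · intro w _
    rfl

open Classical in
/-- number of multiples of `κ` -/
theorem card_dvd {κ : GaussianInt} (hκ : κ ≠ 0) {a b : ℝ} (ha : 0 ≤ a) (hb : 0 ≤ b) :
    ((ann a b).filter (fun z => κ ∣ z)).card = (ann (a / nN κ) (b / nN κ)).card := by
  have h := sum_dvd (fun _ => (1 : ℕ)) hκ ha hb
  rw [Finset.card_eq_sum_ones, h, Finset.card_eq_sum_ones]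

end Pool.Agent.NSqP
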