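import Pool.Agent.Lib.NSqP.LC

/-!
# PC: lower bound for the number of primitive elements
Nonprimitive elements are multiples of a rational prime `p`, `p^2 ≤ b`; by `card_ann` and
`card_dvd` (`κ = p`, `nN κ = p^2`) there are at most `∑_{p ≤ √b} (π (b-a)/p^2 + C (√b/p + 1))` of
them, and `∑ 1/p^2 ≤ 0.4715 < 0.48` (first primes 2, 3, 5, 7 exactly, the rest bounded by the odd
integers `≥ 11`: `∑ 1/n^2 ≤ 1/20`).
-/

set_option autoImplicit false

namespace Pool.Agent.NSqP

open Real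
open Pool.Agent.MP484c84Par (ballG mem_ballG crossG badEdges mem_badEdges CM F)

private theorem prime_sq_aux (k : ℕ) :
    ∑ p ∈ (Finset.range (2 * (k + 5) + 1)).filter Nat.Prime, 1 / (p : ℝ) ^ 2 ≤
      1 / 4 + 1 / 9 + 1 / 25 + 1 / 49 + 1 / 20 - 1 / (4 * ((k : ℝ) + 5)) := by
  induction k with
  | zero =>
    have : (Finset.range (2 * (0 + 5) + 1)).filter Nat.Prime = {2, 3, 5, 7} := by decide
    rw [this]
    norm_num
  | succ k ih =>
    have e : 2 * (k + 1 + 5) + 1 = (2 * (k + 5) + 1 + 1) + 1 := by ring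
    have hnp : ¬ Nat.Prime (2 * (k + 5) + 1 + 1) := by
      intro h
      have h2 : 2 ∣ 2 * (k + 5) + 1 + 1 := ⟨k + 6, by ring⟩
      rcases (Nat.dvd_prime h).1 h2 with h3 | h3 <;> omega
    rw [e, Finset.range_add_one, Finset.filter_insert, if_neg hnp, Finset.range_add_one,
      Finset.filter_insert]
    have hk : (0 : ℝ) ≤ k := Nat.cast_nonneg k
    have key : 1 / ((2 * ((k : ℝ) + 5) + 1) ^ 2) ≤
        1 / (4 * ((k : ℝ) + 5)) - 1 / (4 * ((k : ℝ) + 1 + 5)) := by
      rw [div_sub_div _ _ (by positivity) (by positivity), div_le_div_iff₀ (by positivity)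
        (by positivity)]
      nlinarith [sq_nonneg (k : ℝ)]
    have key0 : 0 ≤ 1 / ((2 * ((k : ℝ) + 5) + 1) ^ 2) := by positivity
    by_cases hp : Nat.Prime (2 * (k + 5) + 1)
    · rw [if_pos hp, Finset.sum_insert (by simp)]
      push_cast
      linarith
    · rw [if_neg hp]
      push_cast
      linarith

private theorem prime_sq (N : ℕ) :
    ∑ p ∈ (Finset.range N).filter Nat.Prime, 1 / (p : ℝ) ^ 2 ≤ 0.48 := by
  have h1 : ∑ p ∈ (Finset.range N).filter Nat.Prime, 1 / (p : ℝ) ^ 2 ≤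
      ∑ p ∈ (Finset.range (2 * (N + 5) + 1)).filter Nat.Prime, 1 / (p : ℝ) ^ 2 := by
    apply Finset.sum_le_sum_of_subset_of_nonneg
    · intro p hp
      rw [Finset.mem_filter, Finset.mem_range] at hp ⊢
      exact ⟨by omega, hp.2⟩
    · intro p _ _
      positivity
  have h2 := prime_sq_aux N
  have h3 : 0 ≤ 1 / (4 * ((N : ℝ) + 5)) := by positivity
  have h4 : (1 : ℝ) / 4 + 1 / 9 + 1 / 25 + 1 / 49 + 1 / 20 ≤ 0.48 := by norm_num
  linarith

private theorem inv_sum (N : ℕ) :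
    ∑ p ∈ (Finset.range (N + 1)).filter Nat.Prime, 1 / (p : ℝ) ≤ 2 * √(N : ℝ) := by
  have h1 : ∑ p ∈ (Finset.range (N + 1)).filter Nat.Prime, 1 / (p : ℝ) ≤
      ∑ p ∈ Finset.range (N + 1), 1 / (p : ℝ) :=
    Finset.sum_le_sum_of_subset_of_nonneg (Finset.filter_subset _ _) (fun _ _ _ => by positivity)
  refine h1.trans ?_
  induction N with
  | zero => simp
  | succ N ih =>
    rw [Finset.sum_range_succ]
    have ih' := ih (Finset.sum_le_sum_of_subset_of_nonneg (Finset.filter_subset _ _)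
      (fun _ _ _ => by positivity))
    set s : ℝ := √(N : ℝ) with hs
    set t : ℝ := √((N + 1 : ℕ) : ℝ) with ht
    have hs0 : 0 ≤ s := Real.sqrt_nonneg _
    have hs2 : s ^ 2 = N := Real.sq_sqrt (Nat.cast_nonneg N)
    have ht2 : t ^ 2 = N + 1 := by
      rw [ht, Real.sq_sqrt (Nat.cast_nonneg _)]; push_cast; ring
    have ht0 : 0 ≤ t := Real.sqrt_nonneg _
    have ht1 : 1 ≤ t := by
      rw [ht, Real.one_le_sqrt]
      push_cast
      linarith [(Nat.cast_nonneg N : (0 : ℝ) ≤ N)]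
    have hst : s ≤ t := by
      apply Real.sqrt_le_sqrt
      push_cast; linarith
    have e : ((N + 1 : ℕ) : ℝ) = t ^ 2 := by rw [ht2]; push_cast; ring
    have h3 : 1 / t ^ 2 ≤ 2 * (t - s) := by
      rw [div_le_iff₀ (by positivity)]
      have h4 : (t - s) * (t + s) = 1 := by
        calc (t - s) * (t + s) = t ^ 2 - s ^ 2 := by ring
          _ = 1 := by rw [ht2, hs2]; ring
      have h5 : 0 ≤ t - s := by linarith
      nlinarith [mul_nonneg h5 (sub_nonneg.2 hst), mul_nonneg h5 (by positivity : 0 ≤ t * (t - 1)),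
        mul_nonneg h5 (mul_nonneg ht0 (sub_nonneg.2 ht1))]
    have e2 : (1 : ℝ) / ((N + 1 : ℕ) : ℝ) = 1 / t ^ 2 := by rw [e]
    linarith

theorem card_pann : ∃ C : ℝ, 0 < C ∧ ∀ a b : ℝ, 0 ≤ a → a ≤ b → 1 ≤ b →
    0.52 * π * (b - a) - C * b ^ ((3 : ℝ) / 4) ≤ ((pann a b).card : ℝ) := by
  classical
  obtain ⟨C, hC0, hC⟩ := card_ann
  refine ⟨6 * C, by positivity, ?_⟩
  intro a b ha hab hb
  have hb0 : 0 < b := by linarith
  have hba : 0 ≤ π * (b - a) := mul_nonneg pi_pos.le (by linarith)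
  set N : ℕ := ⌊√b⌋₊ with hN
  set P : Finset ℕ := (Finset.range (N + 1)).filter Nat.Prime with hP
  -- covering
  have hcov : ann a b ⊆ pann a b ∪ P.biUnion
      (fun p => (ann a b).filter (fun z => ((p : ℤ) : GaussianInt) ∣ z)) := by
    intro z hz
    rw [Finset.mem_union]
    by_cases hpr : Prim z
    · left
      rw [mem_pann hb0.le]
      exact ⟨(mem_ann hb0.le).1 hz, hpr⟩
    · right
      have hz0 : z ≠ 0 := ne_zero_of_mem_ann ha hz
      have hc : Int.gcd z.re z.im ≠ 1 := hpr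
      obtain ⟨p, hp, hpd⟩ := Nat.exists_prime_and_dvd hc
      have hd : ((p : ℤ) : GaussianInt) ∣ z := by
        rw [Zsqrtd.intCast_dvd]
        have h1 : (p : ℤ) ∣ (Int.gcd z.re z.im : ℤ) := Int.natCast_dvd_natCast.2 hpd
        exact ⟨h1.trans (Int.gcd_dvd_left ..), h1.trans (Int.gcd_dvd_right ..)⟩
      rw [Finset.mem_biUnion]
      refine ⟨p, ?_, ?_⟩
      · rw [hP, Finset.mem_filter, Finset.mem_range]
        refine ⟨?_, hp⟩
        obtain ⟨w, hw⟩ := hd
        have hw0 : w ≠ 0 := by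
          rintro rfl
          rw [mul_zero] at hw
          exact hz0 hw
        have h2 : nN z = p ^ 2 * nN w := by
          rw [hw, nN_mul]
          congr 1
          unfold nN
          rw [Zsqrtd.norm_intCast, ← sq, Int.natAbs_pow, Int.natAbs_natCast]
        have h3 : (p : ℝ) ^ 2 ≤ b := by
          have h4 := ((mem_ann hb0.le).1 hz).2
          have h5 : p ^ 2 ≤ nN z := by
            rw [h2]
            exact Nat.le_mul_of_pos_right _ (nN_pos hw0)
          calc (p : ℝ) ^ 2 ≤ (nN z : ℝ) := by exact_mod_cast h5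
            _ ≤ b := h4
        have h6 : (p : ℝ) ≤ √b := Real.le_sqrt_of_sq_le h3
        have h7 : p ≤ N := Nat.le_floor h6
        omega
      · rw [Finset.mem_filter]
        exact ⟨hz, hd⟩
  have h1 : ((ann a b).card : ℝ) ≤ (pann a b).card + ∑ p ∈ P,
      (((ann a b).filter (fun z => ((p : ℤ) : GaussianInt) ∣ z)).card : ℝ) := by
    have := (Finset.card_le_card hcov).trans (Finset.card_union_le _ _)
    have h2 := this.trans (Nat.add_le_add_left Finset.card_biUnion_le _)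
    exact_mod_cast h2
  have h2 : ∀ p ∈ P, (((ann a b).filter (fun z => ((p : ℤ) : GaussianInt) ∣ z)).card : ℝ) ≤
      π * (b - a) * (1 / (p : ℝ) ^ 2) + C * √b * (1 / (p : ℝ)) + C := by
    intro p hp
    rw [hP, Finset.mem_filter] at hp
    have hp0 : (0 : ℝ) < p := by exact_mod_cast hp.2.pos
    have hκ : ((p : ℤ) : GaussianInt) ≠ 0 := by
      intro h
      have := hp.2.ne_zero
      have h5 : (p : ℤ) = 0 := by exact_mod_cast h
      omega
    have hn : (nN ((p : ℤ) : GaussianInt) : ℝ) = (p : ℝ) ^ 2 := by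
      unfold nN
      rw [Zsqrtd.norm_intCast, ← sq, Int.natAbs_pow, Int.natAbs_natCast]
      push_cast
      rfl
    rw [card_dvd hκ ha hb0.le, hn]
    have h3 := (abs_le.1 (hC (a / (p : ℝ) ^ 2) (b / (p : ℝ) ^ 2) (by positivity)
      (by gcongr))).2
    have h4 : √(b / (p : ℝ) ^ 2) = √b * (1 / (p : ℝ)) := by
      rw [Real.sqrt_div hb0.le, Real.sqrt_sq hp0.le]
      ring
    rw [h4] at h3
    have h5 : π * (b / (p : ℝ) ^ 2 - a / (p : ℝ) ^ 2) = π * (b - a) * (1 / (p : ℝ) ^ 2) := by ring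
    rw [h5] at h3
    linarith
  have h3 : ∑ p ∈ P, (((ann a b).filter (fun z => ((p : ℤ) : GaussianInt) ∣ z)).card : ℝ) ≤
      π * (b - a) * 0.48 + C * √b * (2 * √(N : ℝ)) + C * P.card := by
    calc ∑ p ∈ P, (((ann a b).filter (fun z => ((p : ℤ) : GaussianInt) ∣ z)).card : ℝ)
        ≤ ∑ p ∈ P, (π * (b - a) * (1 / (p : ℝ) ^ 2) + C * √b * (1 / (p : ℝ)) + C) :=
          Finset.sum_le_sum h2
      _ = π * (b - a) * ∑ p ∈ P, (1 / (p : ℝ) ^ 2) + C * √b * ∑ p ∈ P, (1 / (p : ℝ)) +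
          C * P.card := by
          rw [Finset.sum_add_distrib, Finset.sum_add_distrib, ← Finset.mul_sum, ← Finset.mul_sum,
            Finset.sum_const, nsmul_eq_mul]
          ring
      _ ≤ _ := by
          have e1 := prime_sq (N + 1)
          have e2 := inv_sum N
          gcongr
  -- the powers of b
  set y : ℝ := b ^ ((1 : ℝ) / 4) with hy
  have hy0 : 0 ≤ y := by positivity
  have hy4 : y ^ 4 = b := by
    rw [hy, ← Real.rpow_natCast, ← Real.rpow_mul hb0.le]
    norm_num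
  have hy3 : b ^ ((3 : ℝ) / 4) = y ^ 3 := by
    rw [hy, ← Real.rpow_natCast, ← Real.rpow_mul hb0.le]
    norm_num
  have hsq : √b = y ^ 2 := by
    rw [← hy4, show y ^ 4 = (y ^ 2) ^ 2 by ring, Real.sqrt_sq (by positivity)]
  have hy1 : 1 ≤ y := by
    rw [hy]
    exact Real.one_le_rpow hb (by norm_num)
  have hNle : (N : ℝ) ≤ y ^ 2 := by
    rw [← hsq]
    exact Nat.floor_le (Real.sqrt_nonneg _)
  have hNs : √(N : ℝ) ≤ y := by
    rw [Real.sqrt_le_left hy0]
    exact hNle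
  have hPc : (P.card : ℝ) ≤ y ^ 2 := by
    have h5 : P ⊆ Finset.Icc 1 N := by
      intro p hp
      rw [hP, Finset.mem_filter, Finset.mem_range] at hp
      rw [Finset.mem_Icc]
      exact ⟨hp.2.pos, by omega⟩
    have h6 := Finset.card_le_card h5
    rw [Nat.card_Icc, Nat.add_sub_cancel] at h6
    calc (P.card : ℝ) ≤ N := by exact_mod_cast h6
      _ ≤ _ := hNle
  have h4 := (abs_le.1 (hC a b ha hab)).1
  rw [hsq] at h3 h4
  rw [hy3]
  have hy23 : y ^ 2 ≤ y ^ 3 := pow_le_pow_right₀ hy1 (by norm_num)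
  have hy13 : 1 ≤ y ^ 3 := one_le_pow₀ hy1
  have h5 : C * y ^ 2 * (2 * √(N : ℝ)) ≤ 2 * C * y ^ 3 := by
    calc C * y ^ 2 * (2 * √(N : ℝ)) ≤ C * y ^ 2 * (2 * y) := by gcongr
      _ = 2 * C * y ^ 3 := by ring
  have h6 : C * P.card ≤ C * y ^ 3 := by
    have : (P.card : ℝ) ≤ y ^ 3 := hPc.trans hy23
    gcongr
  have h7 : C * (y ^ 2 + 1) ≤ 2 * C * y ^ 3 := by
    have : y ^ 2 + 1 ≤ 2 * y ^ 3 := by linarith
    calc C * (y ^ 2 + 1) ≤ C * (2 * y ^ 3) := by gcongr
      _ = _ := by ring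
  have h8 : 0 ≤ C * y ^ 3 := by positivity
  nlinarith [h1, h3, h4, h5, h6, h7, h8]

end Pool.Agent.NSqP
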