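import Pool.Agent.Lib.NSqP.LC
import Pool.Agent.Lib.MP484c84Par.Edges

/-!
# NBC: neighbours
For `u ≠ 0` the `v` with `crossG u v = 1` are `v0 + t u`, `t ∈ ℤ`, so at most
`2 √x/|u| + 1 ≤ 3 √x/|u|` of them have `N v ≤ x` (if `N u ≤ x`).  Sum over `0 < N u ≤ δ x`:
`∑ 1/|u| ≤ C √(δ x)` (dyadic decomposition and `card_ann_le`).
-/

set_option autoImplicit false

namespace Pool.Agent.NSqP

open Real
open Pool.Agent.MP484c84Par (ballG mem_ballG crossG badEdges mem_badEdges CM F dotG edges mem_edges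
  signSet dot_cross)

open Classical in
/-- all determinant one pairs with norms at most `x` -/
noncomputable def allEdges (x : ℕ) : Finset (GaussianInt × GaussianInt) :=
  (ballG x ×ˢ ballG x).filter (fun p => crossG p.1 p.2 = 1)

private lemma nbc_card_Icc (a b : ℝ) (hab : a ≤ b) :
    ((Finset.Icc ⌈a⌉ ⌊b⌋).card : ℝ) ≤ b - a + 1 := by
  rw [Int.card_Icc]
  have h1 : ((⌊b⌋ : ℤ) : ℝ) ≤ b := Int.floor_le b
  have h2 : a ≤ ((⌈a⌉ : ℤ) : ℝ) := Int.le_ceil a
  rcases le_or_gt 0 (⌊b⌋ + 1 - ⌈a⌉) with h | h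
  · have h3 : (((⌊b⌋ + 1 - ⌈a⌉).toNat : ℕ) : ℝ) = (((⌊b⌋ + 1 - ⌈a⌉ : ℤ)) : ℝ) := by
      rw [← Int.cast_natCast, Int.toNat_of_nonneg h]
    rw [h3]
    push_cast
    linarith
  · have h3 : (⌊b⌋ + 1 - ⌈a⌉).toNat = 0 := Int.toNat_of_nonpos h.le
    rw [h3]
    push_cast
    linarith

private lemma nbc_mem_ball {z : GaussianInt} {x : ℕ} : z ∈ ballG x ↔ nN z ≤ x := by
  rw [mem_ballG, ← nN_cast_int]
  exact Nat.cast_le

open Classical in
theorem nb_count (u : GaussianInt) (hu : u ≠ 0) (x : ℕ) (hx : nN u ≤ x) :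
    (((ballG x).filter (fun v => crossG u v = 1)).card : ℝ) ≤ 3 * √((x : ℝ) / nN u) := by
  have hN : 0 < nN u := nN_pos hu
  have hNr : (0 : ℝ) < nN u := by exact_mod_cast hN
  have hxr : (nN u : ℝ) ≤ x := by exact_mod_cast hx
  have hone : 1 ≤ √((x : ℝ) / nN u) := by
    rw [Real.one_le_sqrt, one_le_div hNr]
    exact hxr
  rcases Finset.eq_empty_or_nonempty ((ballG x).filter (fun v => crossG u v = 1)) with h0 | h0
  · rw [h0]
    simp only [Finset.card_empty, Nat.cast_zero]
    positivity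
  obtain ⟨v0, hv0⟩ := h0
  rw [Finset.mem_filter] at hv0
  set R : ℝ := √((x : ℝ) / nN u) with hR
  set m0 : ℝ := (dotG u v0 : ℝ) with hm0
  -- the parameter of a neighbour
  have key : ∀ v ∈ (ballG x).filter (fun v => crossG u v = 1),
      crossG (v - v0) v0 ∈ Finset.Icc ⌈-R - m0 / nN u⌉ ⌊R - m0 / nN u⌋ ∧
        v = v0 + (crossG (v - v0) v0 : GaussianInt) * u := by
    intro v hv
    rw [Finset.mem_filter] at hv
    have e1 := hv0.2
    have e2 := hv.2
    have hv1 : v = v0 + (crossG (v - v0) v0 : GaussianInt) * u := by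
      apply Zsqrtd.ext
      · simp only [Zsqrtd.re_add, Zsqrtd.re_mul, Zsqrtd.re_intCast, Zsqrtd.im_intCast, crossG,
          Zsqrtd.re_sub, Zsqrtd.im_sub] at e1 e2 ⊢
        linear_combination v0.re * (e2 - e1) + (-(v.re - v0.re)) * e1
      · simp only [Zsqrtd.im_add, Zsqrtd.im_mul, Zsqrtd.re_intCast, Zsqrtd.im_intCast, crossG,
          Zsqrtd.re_sub, Zsqrtd.im_sub] at e1 e2 ⊢
        linear_combination v0.im * (e2 - e1) + (-(v.im - v0.im)) * e1
    refine ⟨?_, hv1⟩
    set t : ℤ := crossG (v - v0) v0 with ht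
    -- dot product
    have hd : dotG u v = dotG u v0 + t * nN u := by
      rw [nN_cast_int, Pool.Agent.MP484c84Par.norm_def', hv1]
      simp only [dotG, Zsqrtd.re_add, Zsqrtd.re_mul, Zsqrtd.im_add, Zsqrtd.im_mul,
        Zsqrtd.re_intCast, Zsqrtd.im_intCast]
      ring
    have hdr : (dotG u v : ℝ) = m0 + t * nN u := by
      rw [hd, hm0]; push_cast; ring
    have hsq : (dotG u v : ℝ) ^ 2 ≤ x * nN u := by
      have h1 := dot_cross u v
      rw [hv.2] at h1
      have h2 : (nN v : ℝ) ≤ x := by exact_mod_cast nbc_mem_ball.1 hv.1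
      have h3 : (dotG u v : ℝ) ^ 2 + 1 = (nN u : ℝ) * nN v := by
        have h4 : ((dotG u v ^ 2 + 1 ^ 2 : ℤ) : ℝ) = ((u.norm * v.norm : ℤ) : ℝ) := by
          rw [h1]
        rw [← nN_cast_int, ← nN_cast_int] at h4
        push_cast at h4
        linarith
      nlinarith
    have hRsq : R ^ 2 = (x : ℝ) / nN u := Real.sq_sqrt (by positivity)
    have hR0 : 0 ≤ R := Real.sqrt_nonneg _
    have habs : |(t : ℝ) + m0 / nN u| ≤ R := by
      apply abs_le_of_sq_le_sq _ hR0
      have h5 : (t : ℝ) + m0 / nN u = (dotG u v : ℝ) / nN u := by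
        rw [hdr]; field_simp; ring
      rw [h5, div_pow, hRsq, div_le_div_iff₀ (by positivity) hNr]
      nlinarith
    rw [abs_le] at habs
    rw [Finset.mem_Icc]
    constructor
    · rw [Int.ceil_le]; linarith [habs.1]
    · rw [Int.le_floor]; linarith [habs.2]
  have hcard : ((ballG x).filter (fun v => crossG u v = 1)).card ≤
      (Finset.Icc ⌈-R - m0 / nN u⌉ ⌊R - m0 / nN u⌋).card := by
    apply Finset.card_le_card_of_injOn (fun v => crossG (v - v0) v0)
    · intro v hv
      exact (key v hv).1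
    · intro v hv w hw hvw
      have h1 := (key v hv).2
      have h2 := (key w hw).2
      simp only at hvw
      rw [h1, h2, hvw]
  have hR0 : 0 ≤ R := Real.sqrt_nonneg _
  have h1 := nbc_card_Icc (-R - m0 / nN u) (R - m0 / nN u) (by linarith)
  have h2 : (((ballG x).filter (fun v => crossG u v = 1)).card : ℝ) ≤
      ((Finset.Icc ⌈-R - m0 / nN u⌉ ⌊R - m0 / nN u⌋).card : ℝ) := by exact_mod_cast hcard
  linarith

private lemma nbc_sum : ∃ C : ℝ, 0 < C ∧ ∀ Y : ℝ, 0 ≤ Y →
    ∑ u ∈ ann 0 Y, 1 / √(nN u : ℝ) ≤ C * √Y := by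
  obtain ⟨C, hC, hann⟩ := card_ann_le
  refine ⟨5 * C, by positivity, ?_⟩
  have main : ∀ n : ℕ, ∀ Y : ℝ, 0 ≤ Y → Y < 2 ^ n →
      ∑ u ∈ ann 0 Y, 1 / √(nN u : ℝ) ≤ 5 * C * √Y := by
    intro n
    induction n with
    | zero =>
      intro Y hY hY1
      have h0 : ann 0 Y = ∅ := by
        rw [Finset.eq_empty_iff_forall_notMem]
        intro z hz
        rw [mem_ann hY] at hz
        have h1 : (0 : ℝ) < nN z := hz.1
        have h2 : 0 < nN z := by exact_mod_cast h1
        have h3 : (1 : ℝ) ≤ nN z := by exact_mod_cast h2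
        simp at hY1
        linarith [hz.2]
      rw [h0]
      simp only [Finset.sum_empty]
      positivity
    | succ n ih =>
      intro Y hY hY1
      classical
      rcases eq_or_lt_of_le hY with h0 | hYpos
      · rw [← h0]
        have h1 : ann 0 (0 : ℝ) = ∅ := by
          rw [Finset.eq_empty_iff_forall_notMem]
          intro z hz
          rw [mem_ann le_rfl] at hz
          linarith [hz.1, hz.2]
        rw [h1]
        simp
      have hsplit : ann 0 Y = ann 0 (Y / 2) ∪ (ann 0 Y).filter (fun z => Y / 2 < (nN z : ℝ)) := by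
        ext z
        rw [Finset.mem_union, Finset.mem_filter, mem_ann hY, mem_ann (by linarith)]
        constructor
        · intro h
          rcases le_or_gt (nN z : ℝ) (Y / 2) with h1 | h1
          · exact Or.inl ⟨h.1, h1⟩
          · exact Or.inr ⟨h, h1⟩
        · rintro (h | h)
          · exact ⟨h.1, by linarith [h.2]⟩
          · exact h.1
      have hdis : Disjoint (ann 0 (Y / 2)) ((ann 0 Y).filter (fun z => Y / 2 < (nN z : ℝ))) := by
        rw [Finset.disjoint_left]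
        intro z hz hz'
        rw [mem_ann (by linarith)] at hz
        rw [Finset.mem_filter] at hz'
        linarith [hz.2, hz'.2]
      rw [hsplit, Finset.sum_union hdis]
      have h1 := ih (Y / 2) (by linarith) (by rw [pow_succ] at hY1; linarith)
      have hs : √(Y / 2) = √Y / √2 := Real.sqrt_div hY 2
      have h2 : ∑ u ∈ (ann 0 Y).filter (fun z => Y / 2 < (nN z : ℝ)), 1 / √(nN u : ℝ) ≤
          C * √2 * √Y := by
        have h3 : ∀ u ∈ (ann 0 Y).filter (fun z => Y / 2 < (nN z : ℝ)),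
            1 / √(nN u : ℝ) ≤ √2 / √Y := by
          intro u hu
          rw [Finset.mem_filter] at hu
          have h4 : √(Y / 2) ≤ √(nN u : ℝ) := Real.sqrt_le_sqrt hu.2.le
          have h5 : 0 < √(Y / 2) := Real.sqrt_pos.2 (by linarith)
          calc 1 / √(nN u : ℝ) ≤ 1 / √(Y / 2) := one_div_le_one_div_of_le h5 h4
            _ = √2 / √Y := by rw [hs, one_div_div]
        calc ∑ u ∈ (ann 0 Y).filter (fun z => Y / 2 < (nN z : ℝ)), 1 / √(nN u : ℝ)
            ≤ ∑ _u ∈ (ann 0 Y).filter (fun z => Y / 2 < (nN z : ℝ)), √2 / √Y :=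
              Finset.sum_le_sum h3
          _ = ((ann 0 Y).filter (fun z => Y / 2 < (nN z : ℝ))).card * (√2 / √Y) := by
              rw [Finset.sum_const, nsmul_eq_mul]
          _ ≤ (C * Y) * (√2 / √Y) := by
              apply mul_le_mul_of_nonneg_right _ (by positivity)
              refine le_trans ?_ (hann Y hY)
              exact_mod_cast Finset.card_le_card (Finset.filter_subset _ _)
          _ = C * √2 * √Y := by
              have h6 : Y / √Y = √Y := Real.div_sqrt
              calc (C * Y) * (√2 / √Y) = C * √2 * (Y / √Y) := by ring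
                _ = C * √2 * √Y := by rw [h6]
      have h2s : √2 * √2 = (2 : ℝ) := Real.mul_self_sqrt (by norm_num)
      have h2p : 0 < √(2 : ℝ) := by positivity
      have h2u : √(2 : ℝ) ≤ 1.4143 := by
        rw [Real.sqrt_le_left (by norm_num)]
        norm_num
      have hinv : 1 / √(2 : ℝ) = √2 / 2 := by
        field_simp
        nlinarith
      have h7 : √Y / √2 = √Y * (√2 / 2) := by rw [← hinv]; ring
      rw [hs, h7] at h1
      have hY0 : 0 ≤ √Y := Real.sqrt_nonneg _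
      have h8 : 5 * C * (√Y * (√2 / 2)) + C * √2 * √Y ≤ 5 * C * √Y := by
        have h9 : 5 * (√2 / 2) + √2 ≤ (5 : ℝ) := by nlinarith
        have h10 : 0 ≤ C * √Y := by positivity
        nlinarith
      linarith
  intro Y hY
  obtain ⟨n, hn⟩ := pow_unbounded_of_one_lt Y (one_lt_two : (1 : ℝ) < 2)
  exact main n Y hY hn

private lemma nbc_cross_ne {u v : GaussianInt} (h : crossG u v = 1) : u ≠ 0 := by
  rintro rfl
  simp [crossG] at h

private lemma nbc_first : ∃ C : ℝ, 0 < C ∧ ∀ (x : ℕ) (δ : ℝ), 0 < δ → δ ≤ 1 → ∀ P : Finset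
    (GaussianInt × GaussianInt), (∀ p ∈ P, p.1 ∈ ballG x ∧ p.2 ∈ ballG x ∧ crossG p.1 p.2 = 1 ∧
      (nN p.1 : ℝ) ≤ δ * x) → (P.card : ℝ) ≤ C * √δ * x := by
  classical
  obtain ⟨C, hC, hsum⟩ := nbc_sum
  refine ⟨3 * C, by positivity, ?_⟩
  intro x δ hδ hδ1 P hP
  have hx0 : (0 : ℝ) ≤ x := Nat.cast_nonneg _
  have hmaps : ∀ p ∈ P, p.1 ∈ ann 0 (δ * x) := by
    intro p hp
    obtain ⟨h1, h2, h3, h4⟩ := hP p hp
    rw [mem_ann (by positivity)]
    exact ⟨by exact_mod_cast nN_pos (nbc_cross_ne h3), h4⟩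
  rw [Finset.card_eq_sum_card_fiberwise hmaps]
  push_cast
  have hb : ∀ u ∈ ann 0 (δ * x), ((P.filter (fun p => p.1 = u)).card : ℝ) ≤
      3 * √(x : ℝ) * (1 / √(nN u : ℝ)) := by
    intro u hu
    have hu' := (mem_ann (by positivity)).1 hu
    have hu0 : u ≠ 0 := ne_zero_of_mem_ann le_rfl hu
    have hux : nN u ≤ x := by
      have : (nN u : ℝ) ≤ x := by nlinarith [hu'.2]
      exact_mod_cast this
    have h1 : (P.filter (fun p => p.1 = u)).card ≤
        ((ballG x).filter (fun v => crossG u v = 1)).card := by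
      apply Finset.card_le_card_of_injOn (fun p => p.2)
      · intro p hp
        rw [Finset.mem_coe, Finset.mem_filter] at hp
        obtain ⟨h2, h3⟩ := hp
        obtain ⟨a1, a2, a3, a4⟩ := hP p h2
        rw [Finset.mem_coe, Finset.mem_filter]
        exact ⟨a2, by rw [← h3]; exact a3⟩
      · intro p hp q hq hpq
        rw [Finset.mem_coe, Finset.mem_filter] at hp hq
        exact Prod.ext (hp.2.trans hq.2.symm) hpq
    have h2 := nb_count u hu0 x hux
    calc ((P.filter (fun p => p.1 = u)).card : ℝ)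
        ≤ (((ballG x).filter (fun v => crossG u v = 1)).card : ℝ) := by exact_mod_cast h1
      _ ≤ 3 * √((x : ℝ) / nN u) := h2
      _ = 3 * √(x : ℝ) * (1 / √(nN u : ℝ)) := by
          rw [Real.sqrt_div hx0]; ring
  calc ∑ u ∈ ann 0 (δ * x), ((P.filter (fun p => p.1 = u)).card : ℝ)
      ≤ ∑ u ∈ ann 0 (δ * x), 3 * √(x : ℝ) * (1 / √(nN u : ℝ)) := Finset.sum_le_sum hb
    _ = 3 * √(x : ℝ) * ∑ u ∈ ann 0 (δ * x), 1 / √(nN u : ℝ) := by rw [Finset.mul_sum]
    _ ≤ 3 * √(x : ℝ) * (C * √(δ * x)) := by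
        apply mul_le_mul_of_nonneg_left (hsum _ (by positivity)) (by positivity)
    _ = 3 * C * √δ * x := by
        rw [Real.sqrt_mul hδ.le]
        have : √(x : ℝ) * √(x : ℝ) = x := Real.mul_self_sqrt hx0
        linear_combination (3 * C * √δ) * this

open Classical in
theorem small_edges : ∃ C : ℝ, 0 < C ∧ ∀ (x : ℕ) (δ : ℝ), 0 < δ → δ ≤ 1 →
    (((allEdges x).filter (fun p => (nN p.1 : ℝ) ≤ δ * x)).card : ℝ) ≤ C * √δ * x ∧
    (((allEdges x).filter (fun p => (nN p.2 : ℝ) ≤ δ * x)).card : ℝ) ≤ C * √δ * x := by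
  obtain ⟨C, hC, hfirst⟩ := nbc_first
  refine ⟨C, hC, ?_⟩
  intro x δ hδ hδ1
  constructor
  · apply hfirst x δ hδ hδ1
    intro p hp
    rw [Finset.mem_filter] at hp
    obtain ⟨h1, h2⟩ := hp
    unfold allEdges at h1
    rw [Finset.mem_filter, Finset.mem_product] at h1
    exact ⟨h1.1.1, h1.1.2, h1.2, h2⟩
  · have hneg : ∀ z : GaussianInt, nN (-z) = nN z := by
      intro z
      unfold nN
      rw [Zsqrtd.norm_neg]
    have h1 : ((allEdges x).filter (fun p => (nN p.2 : ℝ) ≤ δ * x)).card ≤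
        (((allEdges x).filter (fun p => (nN p.2 : ℝ) ≤ δ * x)).image
          (fun p => (p.2, -p.1))).card := by
      rw [Finset.card_image_of_injective]
      intro p q hpq
      rw [Prod.ext_iff] at hpq
      exact Prod.ext (neg_injective hpq.2) hpq.1
    refine le_trans (by exact_mod_cast h1) (hfirst x δ hδ hδ1 _ ?_)
    intro p hp
    rw [Finset.mem_image] at hp
    obtain ⟨q, hq, rfl⟩ := hp
    rw [Finset.mem_filter] at hq
    obtain ⟨h2, h3⟩ := hq
    unfold allEdges at h2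
    rw [Finset.mem_filter, Finset.mem_product] at h2
    refine ⟨h2.1.2, ?_, ?_, h3⟩
    · rw [nbc_mem_ball]
      change nN (-q.1) ≤ x
      rw [hneg]
      exact nbc_mem_ball.1 h2.1.1
    · have h4 := h2.2
      simp only [crossG, Zsqrtd.re_neg, Zsqrtd.im_neg] at h4 ⊢
      linarith

theorem card_allEdges : ∃ C : ℝ, 0 < C ∧ ∀ x : ℕ, ((allEdges x).card : ℝ) ≤ C * x := by
  classical
  obtain ⟨C, hC, hfirst⟩ := nbc_first
  refine ⟨C, hC, ?_⟩
  intro x
  have h := hfirst x 1 one_pos le_rfl (allEdges x) (by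
    intro p hp
    unfold allEdges at hp
    rw [Finset.mem_filter, Finset.mem_product] at hp
    refine ⟨hp.1.1, hp.1.2, hp.2, ?_⟩
    rw [one_mul]
    exact_mod_cast nbc_mem_ball.1 hp.1.1)
  rw [Real.sqrt_one, mul_one] at h
  exact h

end Pool.Agent.NSqP
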