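import Pool.Agent.Lib.NSqP.Edg
import Pool.Agent.Lib.NSqP.NbC

/-!
# ALL: the number of all pairs (n, d) is O(x)
For a pair `(n, d)` with `d e = n^2 + 1` there are `u, w` in `ℤ[i]` with `N u = d`, `N w = e`,
`crossG u w = 1`, `dotG u w = n` (reduction of the form `(d, n, e)` of determinant one, by strong
induction on `|n|`); the pair is recovered from `(u, w)`.  So `#prs ≤ #allEdges x ≤ C x`.
-/

set_option autoImplicit false

namespace Pool.Agent.NSqP

open Real
open Pool.Agent.MP484c84Par (ballG mem_ballG crossG badEdges mem_badEdges CM F dotG edges mem_edges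
  signSet norm_def')

/-- reduction of binary quadratic forms of determinant one -/
private lemma all_exists (k : ℕ) : ∀ n d e : ℤ, n.natAbs = k → 0 < d → 0 < e → d * e = n ^ 2 + 1 →
    ∃ u w : GaussianInt, u.norm = d ∧ w.norm = e ∧ crossG u w = 1 ∧ dotG u w = n := by
  induction k using Nat.strong_induction_on with
  | _ k ih =>
    intro n d e hk hd he hde
    by_cases hn : n = 0
    · subst hn
      have h1 : d = 1 := by
        have h2 : d * e = 1 := by linarith
        rcases Int.eq_one_or_neg_one_of_mul_eq_one h2 with h | h
        · exact h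
        · omega
      subst h1
      have h2 : e = 1 := by linarith
      subst h2
      exact ⟨⟨1, 0⟩, ⟨0, 1⟩, by simp [Zsqrtd.norm_def], by simp [Zsqrtd.norm_def],
        by simp [crossG], by simp [dotG]⟩
    · -- the sign of `n`
      obtain ⟨t, ht, htn⟩ : ∃ t : ℤ, t ^ 2 = 1 ∧ 0 < t * n := by
        rcases lt_or_gt_of_ne hn with h | h
        · exact ⟨-1, by norm_num, by linarith⟩
        · exact ⟨1, by norm_num, by linarith⟩
      have hmin : d ≤ t * n ∨ e ≤ t * n := by
        by_contra hc
        push Not at hc
        have h1 : t * n + 1 ≤ d := hc.1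
        have h2 : t * n + 1 ≤ e := hc.2
        have h3 : (t * n + 1) * (t * n + 1) ≤ d * e :=
          mul_le_mul h1 h2 (by linarith) hd.le
        have h4 : (t * n) * (t * n) = n ^ 2 := by
          have : (t * n) * (t * n) = t ^ 2 * n ^ 2 := by ring
          rw [this, ht, one_mul]
        nlinarith
      have habs : (n.natAbs : ℤ) = t * n := by
        have h1 : ((n.natAbs : ℤ)) ^ 2 = (t * n) ^ 2 := by
          rw [Int.natCast_natAbs, sq_abs, mul_pow, ht, one_mul]
        have h2 : (0 : ℤ) ≤ n.natAbs := by positivity
        exact (sq_eq_sq₀ h2 htn.le).1 h1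
      rcases hmin with hm | hm
      · -- reduce with `d`
        set n' : ℤ := n - t * d with hn'
        set e' : ℤ := e - 2 * t * n + d with he'
        have h1 : d * e' = n' ^ 2 + 1 := by
          rw [he', hn']
          linear_combination hde - d ^ 2 * ht
        have h2 : 0 < e' := by
          by_contra hc
          have h3 : d * e' ≤ 0 := mul_nonpos_of_nonneg_of_nonpos hd.le (not_lt.1 hc)
          nlinarith [sq_nonneg n']
        have h3 : n'.natAbs < k := by
          rw [← hk]
          have h4 : ((n'.natAbs : ℤ)) < (n.natAbs : ℤ) := by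
            rw [habs, Int.natCast_natAbs, abs_lt]
            have h5 : t * n' = t * n - d := by
              rw [hn']; linear_combination (-d) * ht
            rcases lt_or_gt_of_ne hn with h | h
            · have h6 : t = -1 := by nlinarith
              subst h6
              constructor <;> linarith
            · have h6 : t = 1 := by nlinarith
              subst h6
              constructor <;> linarith
          exact_mod_cast h4
        obtain ⟨u, w, hu, hw, hc, hdot⟩ := ih _ h3 n' d e' rfl hd h2 h1
        refine ⟨u, w + (t : GaussianInt) * u, hu, ?_, ?_, ?_⟩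
        · rw [norm_def'] at hu hw ⊢
          simp only [dotG] at hdot
          simp only [Zsqrtd.re_add, Zsqrtd.im_add, Zsqrtd.re_mul, Zsqrtd.im_mul, Zsqrtd.re_intCast,
            Zsqrtd.im_intCast]
          have h7 : t ^ 2 * (u.re * u.re + u.im * u.im) = d := by rw [hu, ht, one_mul]
          have h8 : e = e' + 2 * t * n' + d := by
            rw [he', hn']; linear_combination 2 * d * ht
          rw [h8]
          linear_combination hw + 2 * t * hdot + h7
        · simp only [crossG] at hc ⊢
          simp only [Zsqrtd.re_add, Zsqrtd.im_add, Zsqrtd.re_mul, Zsqrtd.im_mul, Zsqrtd.re_intCast,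
            Zsqrtd.im_intCast]
          linear_combination hc
        · rw [norm_def'] at hu
          simp only [dotG] at hdot ⊢
          simp only [Zsqrtd.re_add, Zsqrtd.im_add, Zsqrtd.re_mul, Zsqrtd.im_mul, Zsqrtd.re_intCast,
            Zsqrtd.im_intCast]
          rw [hn'] at hdot
          linear_combination hdot + t * hu
      · -- reduce with `e`
        set n' : ℤ := n - t * e with hn'
        set d' : ℤ := d - 2 * t * n + e with hd'
        have h1 : d' * e = n' ^ 2 + 1 := by
          rw [hd', hn']
          linear_combination hde - e ^ 2 * ht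
        have h2 : 0 < d' := by
          by_contra hc
          have h3 : d' * e ≤ 0 := mul_nonpos_of_nonpos_of_nonneg (not_lt.1 hc) he.le
          nlinarith [sq_nonneg n']
        have h3 : n'.natAbs < k := by
          rw [← hk]
          have h4 : ((n'.natAbs : ℤ)) < (n.natAbs : ℤ) := by
            rw [habs, Int.natCast_natAbs, abs_lt]
            have h5 : t * n' = t * n - e := by
              rw [hn']; linear_combination (-e) * ht
            rcases lt_or_gt_of_ne hn with h | h
            · have h6 : t = -1 := by nlinarith
              subst h6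
              constructor <;> linarith
            · have h6 : t = 1 := by nlinarith
              subst h6
              constructor <;> linarith
          exact_mod_cast h4
        obtain ⟨u, w, hu, hw, hc, hdot⟩ := ih _ h3 n' d' e rfl h2 he h1
        refine ⟨u + (t : GaussianInt) * w, w, ?_, hw, ?_, ?_⟩
        · rw [norm_def'] at hu hw ⊢
          simp only [dotG] at hdot
          simp only [Zsqrtd.re_add, Zsqrtd.im_add, Zsqrtd.re_mul, Zsqrtd.im_mul, Zsqrtd.re_intCast,
            Zsqrtd.im_intCast]
          have h7 : t ^ 2 * (w.re * w.re + w.im * w.im) = e := by rw [hw, ht, one_mul]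
          have h8 : d = d' + 2 * t * n' + e := by
            rw [hd', hn']; linear_combination 2 * e * ht
          rw [h8]
          linear_combination hu + 2 * t * hdot + h7
        · simp only [crossG] at hc ⊢
          simp only [Zsqrtd.re_add, Zsqrtd.im_add, Zsqrtd.re_mul, Zsqrtd.im_mul, Zsqrtd.re_intCast,
            Zsqrtd.im_intCast]
          linear_combination hc
        · rw [norm_def'] at hw
          simp only [dotG] at hdot ⊢
          simp only [Zsqrtd.re_add, Zsqrtd.im_add, Zsqrtd.re_mul, Zsqrtd.im_mul, Zsqrtd.re_intCast,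
            Zsqrtd.im_intCast]
          rw [hn'] at hdot
          linear_combination hdot + t * hw

theorem card_prs_le : ∃ C : ℝ, 0 < C ∧ ∀ (g : ℕ → ℤ) (e : ℤ) (x : ℕ), 1 ≤ x →
    ((prs g e x).card : ℝ) ≤ C * x := by
  classical
  obtain ⟨C, hC, hA⟩ := card_allEdges
  refine ⟨C, hC, fun g e x _ => ?_⟩
  refine le_trans ?_ (hA x)
  -- the preimages
  have hex : ∀ q ∈ prs g e x, ∃ p : GaussianInt × GaussianInt, p ∈ allEdges x ∧
      p.1.norm = (q.2 : ℤ) ∧ dotG p.1 p.2 = (q.1 : ℤ) := by
    intro q hq
    unfold prs at hq
    rw [Finset.mem_filter, Finset.mem_product, Finset.mem_Icc, Finset.mem_Icc] at hq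
    obtain ⟨⟨⟨h1, h2⟩, h3, h4⟩, h5, h6, _⟩ := hq
    obtain ⟨c, hc⟩ := h5
    have hd0 : 0 < q.2 := h3
    have hcx : c ≤ x := by
      rw [hc, Nat.mul_div_cancel_left c hd0] at h6
      exact h6
    have hc0 : 0 < c := by
      rcases Nat.eq_zero_or_pos c with h | h
      · rw [h] at hc; simp at hc
      · exact h
    obtain ⟨u, w, hu, hw, hcr, hdot⟩ := all_exists _ (q.1 : ℤ) (q.2 : ℤ) (c : ℤ) rfl
      (by exact_mod_cast hd0) (by exact_mod_cast hc0) (by exact_mod_cast hc.symm)
    refine ⟨(u, w), ?_, hu, hdot⟩
    unfold allEdges
    rw [Finset.mem_filter, Finset.mem_product, mem_ballG, mem_ballG]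
    refine ⟨⟨?_, ?_⟩, hcr⟩
    · show u.norm ≤ x
      rw [hu]; exact_mod_cast h4
    · show w.norm ≤ x
      rw [hw]; exact_mod_cast hcx
  choose! φ hφ using hex
  have hcard : (prs g e x).card ≤ (allEdges x).card := by
    refine Finset.card_le_card_of_injOn φ (fun q hq => (hφ q hq).1) ?_
    intro q hq q' hq' hqq
    have h1 := hφ q hq
    have h2 := hφ q' hq'
    rw [hqq] at h1
    have e1 : (q.2 : ℤ) = q'.2 := by rw [← h1.2.1, ← h2.2.1]
    have e2 : (q.1 : ℤ) = q'.1 := by rw [← h1.2.2, ← h2.2.2]
    exact Prod.ext (by exact_mod_cast e2) (by exact_mod_cast e1)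
  exact_mod_cast hcard

end Pool.Agent.NSqP
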