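import Pool.Agent.Lib.NSqP.LS0

/-!
# LS: large sieve inequalities
`LS0`: `∑_{|m|<M} |S(m)|^2 ≤ 2 ∑_{|m|<2M} (1-|m|/2M)|S(m)|^2`, `fej_quad` with `2M`,
`|a_i a_j| ≤ (|a_i|^2+|a_j|^2)/2`, and for fixed `i` the sum of `fejK (2M) (u_i conj u_j)` over `j`
is at most `2M * #near + (4/(2M)) far_sum` with `r = max (1/L) (1/M)` (for `M = 0` everything is 0).
`LSP`: distinct primitive `z, w` of norm at most `L` have `|xi z - xi w| ≥ 1/L`: if
`crossG z w ≠ 0` then `|xi z - xi w| ≥ |Im (conj (xi z) * xi w)| = |crossG z w|/(|z||w|)`; if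
`crossG z w = 0` then `w = -z`.
`LSC`: `z = cont z * z0`, `xi z = xi z0`; group the `z` with the same `z0` (same direction),
Cauchy: `|∑ a_z|^2 ≤ (∑ 1/cont z) (∑ cont z |a_z|^2)`, contents are distinct on one direction.
-/

set_option autoImplicit false

namespace Pool.Agent.NSqP

open Real
open Pool.Agent.MP484c84Par (ballG mem_ballG crossG badEdges mem_badEdges CM F)

private lemma ls_xi_re_im (z : GaussianInt) :
    (z : ℂ) = ((z.re : ℝ) : ℂ) + ((z.im : ℝ) : ℂ) * Complex.I := by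
  rw [GaussianInt.toComplex_def]; push_cast; rfl

private lemma ls_norm_sq_le {z : GaussianInt} {L : ℝ} (h : (nN z : ℝ) ≤ L) : ‖(z : ℂ)‖ ^ 2 ≤ L := by
  rw [norm_toC_sq]; exact h

private lemma ls_cross_zero {z w : GaussianInt} (hz : Prim z) (hw : Prim w)
    (h : crossG z w = 0) : w = z ∨ w = -z := by
  unfold Prim cont at hz hw
  unfold crossG at h
  have cz : IsCoprime z.re z.im := Int.isCoprime_iff_gcd_eq_one.2 hz
  have cw : IsCoprime w.re w.im := Int.isCoprime_iff_gcd_eq_one.2 hw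
  have e : z.re * w.im = z.im * w.re := by linarith
  have d1 : z.re ∣ w.re := cz.dvd_of_dvd_mul_left (Dvd.intro _ e)
  have d2 : w.re ∣ z.re := cw.dvd_of_dvd_mul_left (Dvd.intro z.im (by linarith))
  have d3 : z.im ∣ w.im := cz.symm.dvd_of_dvd_mul_left (Dvd.intro _ e.symm)
  have d4 : w.im ∣ z.im := cw.symm.dvd_of_dvd_mul_left (Dvd.intro z.re (by linarith))
  have e1 := Int.natAbs_eq_natAbs_iff.1 (Int.natAbs_eq_of_dvd_dvd d2 d1)
  have e2 := Int.natAbs_eq_natAbs_iff.1 (Int.natAbs_eq_of_dvd_dvd d4 d3)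
  rcases e1 with e1 | e1 <;> rcases e2 with e2 | e2
  · exact Or.inl (Zsqrtd.ext e1 e2)
  · -- re equal, im opposite
    rw [e1, e2] at e
    have e3 : z.re * z.im = 0 := by nlinarith
    rcases mul_eq_zero.1 e3 with e4 | e4
    · right
      refine Zsqrtd.ext ?_ ?_
      · rw [e1, e4]; simp [e4]
      · rw [e2]; simp
    · left
      refine Zsqrtd.ext e1 ?_
      rw [e2, e4]; simp
  · rw [e1, e2] at e
    have e3 : z.re * z.im = 0 := by nlinarith
    rcases mul_eq_zero.1 e3 with e4 | e4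
    · left
      refine Zsqrtd.ext ?_ e2
      rw [e1, e4]; simp
    · right
      refine Zsqrtd.ext ?_ ?_
      · rw [e1]; simp
      · rw [e2, e4]; simp [e4]
  · right
    refine Zsqrtd.ext ?_ ?_
    · rw [e1]; simp
    · rw [e2]; simp

theorem prim_sep {z w : GaussianInt} (hz : Prim z) (hw : Prim w) (hne : z ≠ w) {L : ℝ}
    (hL : 1 ≤ L) (h1 : (nN z : ℝ) ≤ L) (h2 : (nN w : ℝ) ≤ L) : 1 / L ≤ ‖xi z - xi w‖ := by
  have hL0 : 0 < L := by linarith
  have hz0 := prim_ne_zero hz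
  have hw0 := prim_ne_zero hw
  by_cases hc : crossG z w = 0
  · rcases ls_cross_zero hz hw hc with h | h
    · exact absurd h.symm hne
    · have h3 : xi w = - xi z := by
        rw [h]; unfold xi
        rw [GaussianInt.toComplex_neg, norm_neg, neg_div]
      rw [h3, sub_neg_eq_add, ← two_mul, norm_mul, norm_xi hz0, mul_one]
      rw [div_le_iff₀ hL0]
      norm_num
      linarith
  · have hzC : 0 < ‖(z : ℂ)‖ := norm_pos_iff.2 (toC_ne_zero hz0)
    have hwC : 0 < ‖(w : ℂ)‖ := norm_pos_iff.2 (toC_ne_zero hw0)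
    have hi : ((starRingEnd ℂ) (xi z) * xi w).im = (crossG z w : ℝ) / (‖(z : ℂ)‖ * ‖(w : ℂ)‖) := by
      have e1 : (starRingEnd ℂ) (xi z) * xi w =
          ((starRingEnd ℂ) (z : ℂ) * (w : ℂ)) / ((‖(z : ℂ)‖ * ‖(w : ℂ)‖ : ℝ) : ℂ) := by
        unfold xi
        rw [map_div₀, Complex.conj_ofReal]
        push_cast
        rw [div_mul_div_comm]
      rw [e1, Complex.div_ofReal_im]
      congr 1
      rw [Complex.mul_im, Complex.conj_re, Complex.conj_im, ← GaussianInt.intCast_re,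
        ← GaussianInt.intCast_im, ← GaussianInt.intCast_re, ← GaussianInt.intCast_im]
      unfold crossG
      push_cast
      ring
    have h3 : ‖xi z - xi w‖ = ‖(starRingEnd ℂ) (xi z) * xi w - 1‖ := by
      have e1 : (starRingEnd ℂ) (xi z) * xi z = 1 := by
        rw [mul_comm, Complex.mul_conj, Complex.normSq_eq_norm_sq, norm_xi hz0]; simp
      have e2 : (starRingEnd ℂ) (xi z) * xi w - 1 = (starRingEnd ℂ) (xi z) * (xi w - xi z) := by
        rw [mul_sub, e1]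
      rw [e2, norm_mul, Complex.norm_conj, norm_xi hz0, one_mul, norm_sub_rev]
    rw [h3]
    have h4 : |((starRingEnd ℂ) (xi z) * xi w - 1).im| ≤ ‖(starRingEnd ℂ) (xi z) * xi w - 1‖ :=
      Complex.abs_im_le_norm _
    refine le_trans ?_ h4
    rw [Complex.sub_im, Complex.one_im, sub_zero, hi, abs_div, abs_of_pos (mul_pos hzC hwC)]
    have h5 : (1 : ℝ) ≤ |(crossG z w : ℝ)| := by
      have : (1 : ℤ) ≤ |crossG z w| := Int.one_le_abs hc
      exact_mod_cast this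
    have h6 : ‖(z : ℂ)‖ * ‖(w : ℂ)‖ ≤ L := by
      have a1 := ls_norm_sq_le h1
      have a2 := ls_norm_sq_le h2
      nlinarith [sq_nonneg (‖(z : ℂ)‖ - ‖(w : ℂ)‖)]
    rw [div_le_div_iff₀ hL0 (mul_pos hzC hwC)]
    nlinarith [mul_pos hzC hwC]

theorem LSP : ∃ C : ℝ, 0 < C ∧ ∀ (S : Finset GaussianInt) (a : GaussianInt → ℂ) (L : ℝ) (M : ℕ),
    1 ≤ L → (∀ z ∈ S, Prim z ∧ (nN z : ℝ) ≤ L) →
    ∑ m ∈ fr M, ‖∑ z ∈ S, a z * xi z ^ m‖ ^ 2 ≤ C * (M + L) * ∑ z ∈ S, ‖a z‖ ^ 2 := by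
  obtain ⟨C, hC, h⟩ := LS0
  refine ⟨C, hC, fun S a L M hL hS => ?_⟩
  exact h GaussianInt S a xi L M hL (fun z hz => norm_xi (prim_ne_zero (hS z hz).1))
    (fun z hz w hw hne => prim_sep (hS z hz).1 (hS w hw).1 hne hL (hS z hz).2 (hS w hw).2)

/-- the primitive part -/
private def lsP (z : GaussianInt) : GaussianInt := ⟨z.re / cont z, z.im / cont z⟩

private lemma ls_cont_pos {z : GaussianInt} (hz : z ≠ 0) : 0 < cont z := by
  unfold cont
  rw [Int.gcd_pos_iff]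
  by_contra h
  push Not at h
  exact hz (Zsqrtd.ext h.1 h.2)

private lemma ls_dec {z : GaussianInt} : z = ((cont z : ℕ) : GaussianInt) * lsP z := by
  refine Zsqrtd.ext ?_ ?_
  · have : (((cont z : ℕ) : GaussianInt) * lsP z).re = (cont z : ℤ) * (z.re / cont z) := by
      simp [lsP]
    rw [this]
    exact (Int.mul_ediv_cancel' (Int.gcd_dvd_left _ _)).symm
  · have : (((cont z : ℕ) : GaussianInt) * lsP z).im = (cont z : ℤ) * (z.im / cont z) := by
      simp [lsP]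
    rw [this]
    exact (Int.mul_ediv_cancel' (Int.gcd_dvd_right _ _)).symm

private lemma ls_prim {z : GaussianInt} (hz : z ≠ 0) : Prim (lsP z) := by
  unfold Prim
  change Int.gcd (z.re / cont z) (z.im / cont z) = 1
  unfold cont
  exact Int.gcd_ediv_gcd_ediv_gcd (ls_cont_pos hz)

private lemma ls_xi {z : GaussianInt} (hz : z ≠ 0) : xi z = xi (lsP z) := by
  have h1 : xi z = xi ((cont z : ℕ) : GaussianInt) * xi (lsP z) := by
    conv_lhs => rw [ls_dec (z := z)]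
    rw [xi_mul]
  have h2 : xi ((cont z : ℕ) : GaussianInt) = 1 := by
    unfold xi
    have h3 : (((cont z : ℕ) : GaussianInt) : ℂ) = ((cont z : ℕ) : ℂ) := map_natCast _ _
    rw [h3]
    have h4 : ‖((cont z : ℕ) : ℂ)‖ = (cont z : ℝ) := Complex.norm_natCast _
    rw [h4]
    have h5 : ((cont z : ℕ) : ℂ) ≠ 0 := by exact_mod_cast (ls_cont_pos hz).ne'
    push_cast
    exact div_self h5
  rw [h1, h2, one_mul]

private lemma ls_nN {z : GaussianInt} (hz : z ≠ 0) : nN (lsP z) ≤ nN z := by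
  have h1 : nN z = nN ((cont z : ℕ) : GaussianInt) * nN (lsP z) := by
    conv_lhs => rw [ls_dec (z := z)]
    rw [nN_mul]
  rw [h1]
  refine Nat.le_mul_of_pos_left _ ?_
  refine nN_pos ?_
  exact_mod_cast (ls_cont_pos hz).ne'

theorem LSC : ∃ C : ℝ, 0 < C ∧ ∀ (S : Finset GaussianInt) (a : GaussianInt → ℂ) (L B : ℝ) (M : ℕ)
    (R : Finset ℕ), 1 ≤ L → (∀ z ∈ S, z ≠ 0 ∧ (nN z : ℝ) ≤ L ∧ cont z ∈ R) →
    ∑ r ∈ R, 1 / (r : ℝ) ≤ B →
    ∑ m ∈ fr M, ‖∑ z ∈ S, a z * xi z ^ m‖ ^ 2 ≤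
      C * B * (M + L) * ∑ z ∈ S, (cont z : ℝ) * ‖a z‖ ^ 2 := by
  classical
  obtain ⟨C, hC, h⟩ := LSP
  refine ⟨C, hC, fun S a L B M R hL hS hB => ?_⟩
  let a' : GaussianInt → ℂ := fun w => ∑ z ∈ S with lsP z = w, a z
  have e1 : ∀ m : ℤ, ∑ z ∈ S, a z * xi z ^ m = ∑ w ∈ S.image lsP, a' w * xi w ^ m := by
    intro m
    rw [← Finset.sum_fiberwise_of_maps_to (g := lsP) (t := S.image lsP)
      (fun z hz => Finset.mem_image_of_mem _ hz)]
    refine Finset.sum_congr rfl fun w _ => ?_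
    simp only [a']
    rw [Finset.sum_mul]
    refine Finset.sum_congr rfl fun z hz => ?_
    rw [Finset.mem_filter] at hz
    rw [ls_xi (hS z hz.1).1, hz.2]
  have h2 := h (S.image lsP) a' L M hL (by
    intro w hw
    obtain ⟨z, hz, rfl⟩ := Finset.mem_image.1 hw
    have h3 := hS z hz
    refine ⟨ls_prim h3.1, le_trans ?_ h3.2.1⟩
    exact_mod_cast ls_nN h3.1)
  rw [Finset.sum_congr rfl fun m _ => by rw [e1 m]]
  refine h2.trans ?_
  have hML : 0 ≤ C * ((M : ℝ) + L) := by positivity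
  have h4 : ∀ w ∈ S.image lsP, ‖a' w‖ ^ 2 ≤
      B * ∑ z ∈ S with lsP z = w, (cont z : ℝ) * ‖a z‖ ^ 2 := by
    intro w _
    have f1 : ‖a' w‖ ≤ ∑ z ∈ S with lsP z = w, ‖a z‖ := norm_sum_le _ _
    have f2 : (∑ z ∈ S with lsP z = w, ‖a z‖) ^ 2 ≤
        (∑ z ∈ S with lsP z = w, 1 / (cont z : ℝ)) *
          ∑ z ∈ S with lsP z = w, (cont z : ℝ) * ‖a z‖ ^ 2 := by
      refine Finset.sum_sq_le_sum_mul_sum_of_sq_le_mul _ (fun z _ => by positivity)
        (fun z _ => by positivity) ?_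
      intro z hz
      rw [Finset.mem_filter] at hz
      have : (cont z : ℝ) ≠ 0 := by exact_mod_cast (ls_cont_pos (hS z hz.1).1).ne'
      exact le_of_eq (by field_simp)
    have f3 : ∑ z ∈ S with lsP z = w, 1 / (cont z : ℝ) ≤ B := by
      refine le_trans ?_ hB
      have inj : Set.InjOn cont ((S.filter fun z => lsP z = w : Finset GaussianInt) :
          Set GaussianInt) := by
        intro z hz z' hz' hcc
        rw [Finset.mem_coe, Finset.mem_filter] at hz hz'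
        rw [ls_dec (z := z), ls_dec (z := z'), hcc, hz.2, hz'.2]
      rw [← Finset.sum_image (f := fun r : ℕ => 1 / (r : ℝ)) inj]
      refine Finset.sum_le_sum_of_subset_of_nonneg ?_ (fun _ _ _ => by positivity)
      intro r hr
      obtain ⟨z, hz, rfl⟩ := Finset.mem_image.1 hr
      exact (hS z (Finset.mem_filter.1 hz).1).2.2
    calc ‖a' w‖ ^ 2 ≤ (∑ z ∈ S with lsP z = w, ‖a z‖) ^ 2 :=
          pow_le_pow_left₀ (norm_nonneg _) f1 2
      _ ≤ _ := f2
      _ ≤ _ := mul_le_mul_of_nonneg_right f3 (Finset.sum_nonneg fun z _ => by positivity)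
  calc C * ((M : ℝ) + L) * ∑ w ∈ S.image lsP, ‖a' w‖ ^ 2
      ≤ C * ((M : ℝ) + L) * ∑ w ∈ S.image lsP,
          B * ∑ z ∈ S with lsP z = w, (cont z : ℝ) * ‖a z‖ ^ 2 :=
        mul_le_mul_of_nonneg_left (Finset.sum_le_sum h4) hML
    _ = C * B * (M + L) * ∑ z ∈ S, (cont z : ℝ) * ‖a z‖ ^ 2 := by
        rw [← Finset.mul_sum, Finset.sum_fiberwise_of_maps_to
          (fun z hz => Finset.mem_image_of_mem _ hz)]
        ring

end Pool.Agent.NSqP
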