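import Pool.Agent.Lib.NSqP.Basic

/-!
# NEAR: separated points on the unit circle
Arguments relative to `w`: `|e^{ia} - e^{ib}| ≤ |a - b|` and `(2/π)|a| ≤ |e^{ia} - 1|` for
`|a| ≤ π`.  Points pairwise at chord distance `≥ 1/L` have arguments pairwise at distance
`≥ 1/L`, so the map `j ↦ ⌊L * arg (u j / w)⌋` is injective on the points near `w`.
-/

set_option autoImplicit false

namespace Pool.Agent.NSqP

open Real
open Pool.Agent.MP484c84Par (ballG mem_ballG crossG badEdges mem_badEdges CM F)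

/-- the chord is at most the difference of the angles -/
private lemma chord_le (a b : ℝ) :
    ‖Complex.exp (a * Complex.I) - Complex.exp (b * Complex.I)‖ ≤ |a - b| := by
  have h1 : Complex.exp (a * Complex.I) - Complex.exp (b * Complex.I)
      = Complex.exp (b * Complex.I) * (Complex.exp (Complex.I * ((a - b : ℝ) : ℂ)) - 1) := by
    rw [mul_sub, mul_one, ← Complex.exp_add]
    congr 2
    push_cast
    ring
  rw [h1, norm_mul, Complex.norm_exp_ofReal_mul_I, one_mul]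
  exact Real.norm_exp_I_mul_ofReal_sub_one_le

/-- real points separated by `1 / L` in an interval of length `ℓ` -/
private lemma count_interval {ι : Type} (T : Finset ι) (a : ι → ℝ) (L ℓ : ℝ) (hL : 0 < L)
    (hℓ : 0 ≤ ℓ) (hlen : ∀ i ∈ T, ∀ j ∈ T, a i - a j ≤ ℓ)
    (hsep : ∀ i ∈ T, ∀ j ∈ T, i ≠ j → 1 / L ≤ |a i - a j|) :
    (T.card : ℝ) ≤ 1 + ℓ * L := by
  classical
  rcases T.eq_empty_or_nonempty with hT | hT
  · subst hT
    simp only [Finset.card_empty, Nat.cast_zero]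
    positivity
  · obtain ⟨i0, hi0, hmin⟩ := Finset.exists_min_image T a hT
    have hinj : Set.InjOn (fun j => ⌊L * (a j - a i0)⌋₊) (T : Set ι) := by
      intro i hi j hj hij
      by_contra hne
      have hi' : 0 ≤ L * (a i - a i0) := mul_nonneg hL.le (sub_nonneg.2 (hmin i hi))
      have hj' : 0 ≤ L * (a j - a i0) := mul_nonneg hL.le (sub_nonneg.2 (hmin j hj))
      have h1 := Nat.floor_le hi'
      have h2 := Nat.lt_floor_add_one (L * (a i - a i0))
      have h3 := Nat.floor_le hj'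
      have h4 := Nat.lt_floor_add_one (L * (a j - a i0))
      have hij' : (⌊L * (a i - a i0)⌋₊ : ℝ) = (⌊L * (a j - a i0)⌋₊ : ℝ) := by exact_mod_cast hij
      rw [hij'] at h1 h2
      have h5 : |L * (a i - a i0) - L * (a j - a i0)| < 1 := by
        rw [abs_lt]; constructor <;> linarith
      have h6 : L * (a i - a i0) - L * (a j - a i0) = L * (a i - a j) := by ring
      rw [h6, abs_mul, abs_of_pos hL] at h5
      have h7 := hsep i hi j hj hne
      rw [div_le_iff₀ hL] at h7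
      linarith [mul_comm L |a i - a j|]
    have hmaps : ∀ j ∈ T, ⌊L * (a j - a i0)⌋₊ ∈ Finset.range (⌊ℓ * L⌋₊ + 1) := by
      intro j hj
      rw [Finset.mem_range, Nat.lt_add_one_iff]
      apply Nat.floor_le_floor
      rw [mul_comm]
      exact mul_le_mul_of_nonneg_right (hlen j hj i0 hi0) hL.le
    have hcard := Finset.card_le_card_of_injOn _ hmaps hinj
    rw [Finset.card_range] at hcard
    have h8 : (T.card : ℝ) ≤ (⌊ℓ * L⌋₊ : ℝ) + 1 := by exact_mod_cast hcard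
    have h9 : (⌊ℓ * L⌋₊ : ℝ) ≤ ℓ * L := Nat.floor_le (by positivity)
    linarith

open Classical in
/-- number of `1/L`-separated points within chord distance `r` of `w` -/
theorem near_count {ι : Type} (s : Finset ι) (u : ι → ℂ) (w : ℂ) (L r : ℝ) (hL : 1 ≤ L)
    (hr : 0 ≤ r) (hw : ‖w‖ = 1) (hu : ∀ i ∈ s, ‖u i‖ = 1)
    (hsep : ∀ i ∈ s, ∀ j ∈ s, i ≠ j → 1 / L ≤ ‖u i - u j‖) :
    ((s.filter (fun j => ‖u j - w‖ ≤ r)).card : ℝ) ≤ 1 + 4 * r * L := by
  have hL0 : 0 < L := by linarith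
  have hw0 : w ≠ 0 := by intro h; rw [h, norm_zero] at hw; exact zero_ne_one hw
  have hu0 : ∀ i ∈ s, u i ≠ 0 := by
    intro i hi h
    have := hu i hi
    rw [h, norm_zero] at this
    exact zero_ne_one this
  have key : ∀ i ∈ s, u i = w * Complex.exp ((u i / w).arg * Complex.I) := by
    intro i hi
    have h1 := Complex.norm_mul_exp_arg_mul_I (u i / w)
    rw [norm_div, hu i hi, hw, div_one, Complex.ofReal_one, one_mul] at h1
    rw [h1, mul_div_cancel₀ _ hw0]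
  have hA : ∀ i ∈ s.filter (fun j => ‖u j - w‖ ≤ r), |(u i / w).arg| ≤ π / 2 * r := by
    intro i hi
    rw [Finset.mem_filter] at hi
    rw [← Complex.angle_eq_abs_arg (hu0 i hi.1) hw0]
    refine (Complex.angle_le_mul_norm_sub (hu i hi.1) hw).trans ?_
    exact mul_le_mul_of_nonneg_left hi.2 (by positivity)
  have hc := count_interval (s.filter (fun j => ‖u j - w‖ ≤ r)) (fun i => (u i / w).arg) L
    (π * r) hL0 (by positivity) ?_ ?_
  · have hpi : π * r * L ≤ 4 * r * L := by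
      have := Real.pi_le_four
      gcongr
    linarith
  · intro i hi j hj
    have h1 := abs_le.1 (hA i hi)
    have h2 := abs_le.1 (hA j hj)
    have h3 : π * r = π / 2 * r + π / 2 * r := by ring
    rw [h3]
    linarith [h1.2, h2.1]
  · intro i hi j hj hij
    rw [Finset.mem_filter] at hi hj
    refine (hsep i hi.1 j hj.1 hij).trans ?_
    have h1 := chord_le (u i / w).arg (u j / w).arg
    have h0 : ‖u i - u j‖ = ‖Complex.exp ((u i / w).arg * Complex.I)
        - Complex.exp ((u j / w).arg * Complex.I)‖ := by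
      conv_lhs => rw [key i hi.1, key j hj.1, ← mul_sub, norm_mul, hw, one_mul]
    rw [h0]
    exact h1

open Classical in
/-- the sum over the dyadic shells up to `K` -/
private lemma shells {ι : Type} (s : Finset ι) (u : ι → ℂ) (w : ℂ) (L r : ℝ) (hL : 1 ≤ L)
    (hr : 1 / L ≤ r) (hw : ‖w‖ = 1) (hu : ∀ i ∈ s, ‖u i‖ = 1)
    (hsep : ∀ i ∈ s, ∀ j ∈ s, i ≠ j → 1 / L ≤ ‖u i - u j‖) (K : ℕ) :
    ∑ j ∈ s.filter (fun j => r < ‖u j - w‖ ∧ ‖u j - w‖ ≤ 2 ^ K * r), 1 / ‖u j - w‖ ^ 2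
      ≤ (1 - 1 / 2 ^ K) * (18 * (L / r)) := by
  have hL0 : 0 < L := by linarith
  have hr0 : 0 < r := lt_of_lt_of_le (by positivity) hr
  have hrL : 1 ≤ r * L := by rwa [div_le_iff₀ hL0] at hr
  induction K with
  | zero =>
    have : s.filter (fun j => r < ‖u j - w‖ ∧ ‖u j - w‖ ≤ 2 ^ 0 * r) = ∅ := by
      rw [Finset.filter_eq_empty_iff]
      intro j _ h
      rw [pow_zero, one_mul] at h
      linarith [h.1, h.2]
    rw [this]
    simp
  | succ K ih =>
    have h2K : (0 : ℝ) < 2 ^ K := by positivity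
    have h2K1 : (1 : ℝ) ≤ 2 ^ K := one_le_pow₀ (by norm_num)
    have hsub : s.filter (fun j => r < ‖u j - w‖ ∧ ‖u j - w‖ ≤ 2 ^ (K + 1) * r)
        ⊆ s.filter (fun j => r < ‖u j - w‖ ∧ ‖u j - w‖ ≤ 2 ^ K * r)
          ∪ s.filter (fun j => 2 ^ K * r < ‖u j - w‖ ∧ ‖u j - w‖ ≤ 2 ^ (K + 1) * r) := by
      intro j hj
      rw [Finset.mem_union, Finset.mem_filter, Finset.mem_filter]
      rw [Finset.mem_filter] at hj
      rcases le_or_gt ‖u j - w‖ (2 ^ K * r) with h | h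
      · exact Or.inl ⟨hj.1, hj.2.1, h⟩
      · exact Or.inr ⟨hj.1, h, hj.2.2⟩
    have hshell : ∑ j ∈ s.filter (fun j => 2 ^ K * r < ‖u j - w‖ ∧ ‖u j - w‖ ≤ 2 ^ (K + 1) * r),
        1 / ‖u j - w‖ ^ 2 ≤ (1 / 2 ^ (K + 1)) * (18 * (L / r)) := by
      have hcard : ((s.filter (fun j => 2 ^ K * r < ‖u j - w‖
          ∧ ‖u j - w‖ ≤ 2 ^ (K + 1) * r)).card : ℝ) ≤ 1 + 4 * (2 ^ (K + 1) * r) * L := by
        refine le_trans ?_ (near_count s u w L (2 ^ (K + 1) * r) hL (by positivity) hw hu hsep)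
        have hss : s.filter (fun j => 2 ^ K * r < ‖u j - w‖ ∧ ‖u j - w‖ ≤ 2 ^ (K + 1) * r)
            ⊆ s.filter (fun j => ‖u j - w‖ ≤ 2 ^ (K + 1) * r) := by
          intro j hj
          rw [Finset.mem_filter] at hj ⊢
          exact ⟨hj.1, hj.2.2⟩
        exact_mod_cast Finset.card_le_card hss
      have hterm : ∀ j ∈ s.filter (fun j => 2 ^ K * r < ‖u j - w‖
          ∧ ‖u j - w‖ ≤ 2 ^ (K + 1) * r), 1 / ‖u j - w‖ ^ 2 ≤ 1 / (2 ^ K * r) ^ 2 := by
        intro j hj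
        rw [Finset.mem_filter] at hj
        apply one_div_le_one_div_of_le (by positivity)
        have := hj.2.1.le
        gcongr
      refine (Finset.sum_le_card_nsmul _ _ _ hterm).trans ?_
      rw [nsmul_eq_mul]
      have h1 : (1 : ℝ) + 4 * (2 ^ (K + 1) * r) * L ≤ 9 * (2 ^ K * (r * L)) := by
        have h2 : (1 : ℝ) ≤ 2 ^ K * (r * L) := by nlinarith
        have h3 : (4 : ℝ) * (2 ^ (K + 1) * r) * L = 8 * (2 ^ K * (r * L)) := by ring
        rw [h3]
        linarith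
      calc ((s.filter (fun j => 2 ^ K * r < ‖u j - w‖
            ∧ ‖u j - w‖ ≤ 2 ^ (K + 1) * r)).card : ℝ) * (1 / (2 ^ K * r) ^ 2)
          ≤ (9 * (2 ^ K * (r * L))) * (1 / (2 ^ K * r) ^ 2) := by
            apply mul_le_mul_of_nonneg_right (hcard.trans h1) (by positivity)
        _ = (1 / 2 ^ (K + 1)) * (18 * (L / r)) := by
            rw [pow_succ]
            field_simp
            ring
    calc ∑ j ∈ s.filter (fun j => r < ‖u j - w‖ ∧ ‖u j - w‖ ≤ 2 ^ (K + 1) * r),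
          1 / ‖u j - w‖ ^ 2
        ≤ ∑ j ∈ s.filter (fun j => r < ‖u j - w‖ ∧ ‖u j - w‖ ≤ 2 ^ K * r)
          ∪ s.filter (fun j => 2 ^ K * r < ‖u j - w‖ ∧ ‖u j - w‖ ≤ 2 ^ (K + 1) * r),
          1 / ‖u j - w‖ ^ 2 :=
          Finset.sum_le_sum_of_subset_of_nonneg hsub (fun j _ _ => by positivity)
      _ ≤ ∑ j ∈ s.filter (fun j => r < ‖u j - w‖ ∧ ‖u j - w‖ ≤ 2 ^ K * r), 1 / ‖u j - w‖ ^ 2
          + ∑ j ∈ s.filter (fun j => 2 ^ K * r < ‖u j - w‖ ∧ ‖u j - w‖ ≤ 2 ^ (K + 1) * r),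
            1 / ‖u j - w‖ ^ 2 := by
          rw [← Finset.sum_union_inter]
          have : 0 ≤ ∑ j ∈ s.filter (fun j => r < ‖u j - w‖ ∧ ‖u j - w‖ ≤ 2 ^ K * r)
            ∩ s.filter (fun j => 2 ^ K * r < ‖u j - w‖ ∧ ‖u j - w‖ ≤ 2 ^ (K + 1) * r),
            1 / ‖u j - w‖ ^ 2 := Finset.sum_nonneg (fun j _ => by positivity)
          linarith
      _ ≤ (1 - 1 / 2 ^ K) * (18 * (L / r)) + (1 / 2 ^ (K + 1)) * (18 * (L / r)) :=
          add_le_add ih hshell
      _ = (1 - 1 / 2 ^ (K + 1)) * (18 * (L / r)) := by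
          rw [pow_succ]
          field_simp
          ring

open Classical in
/-- the sum of `1 / dist^2` over the far points (dyadic shells `2^k r < dist ≤ 2^(k+1) r` and
`near_count`; every distance is at most `2`) -/
theorem far_sum {ι : Type} (s : Finset ι) (u : ι → ℂ) (w : ℂ) (L r : ℝ) (hL : 1 ≤ L)
    (hr : 1 / L ≤ r) (hw : ‖w‖ = 1) (hu : ∀ i ∈ s, ‖u i‖ = 1)
    (hsep : ∀ i ∈ s, ∀ j ∈ s, i ≠ j → 1 / L ≤ ‖u i - u j‖) :
    ∑ j ∈ s.filter (fun j => r < ‖u j - w‖), 1 / ‖u j - w‖ ^ 2 ≤ 40 * L / r := by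
  have hL0 : 0 < L := by linarith
  have hr0 : 0 < r := lt_of_lt_of_le (by positivity) hr
  obtain ⟨K, hK⟩ := pow_unbounded_of_one_lt (2 / r) (by norm_num : (1 : ℝ) < 2)
  have h2 : 2 ≤ 2 ^ K * r := by
    rw [div_lt_iff₀ hr0] at hK
    exact hK.le
  have hsub : s.filter (fun j => r < ‖u j - w‖)
      ⊆ s.filter (fun j => r < ‖u j - w‖ ∧ ‖u j - w‖ ≤ 2 ^ K * r) := by
    intro j hj
    rw [Finset.mem_filter] at hj ⊢
    refine ⟨hj.1, hj.2, ?_⟩
    refine le_trans ?_ h2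
    have := norm_sub_le (u j) w
    rw [hu j hj.1, hw] at this
    linarith
  refine (Finset.sum_le_sum_of_subset_of_nonneg hsub (fun j _ _ => by positivity)).trans ?_
  refine (shells s u w L r hL hr hw hu hsep K).trans ?_
  have h3 : (0 : ℝ) < L / r := by positivity
  have h4 : (0 : ℝ) < 1 / 2 ^ K := by positivity
  have h5 : 40 * L / r = 40 * (L / r) := by ring
  rw [h5]
  nlinarith

end Pool.Agent.NSqP
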