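import Pool.Agent.Lib.NSqP.PiF
import Pool.Agent.Lib.MP484c84AP.Mertens

/-!
# MER: Mertens for the ranges of blocks
Lower bound: `WR H a b` contains two elements for every prime `p ≡ 1 (mod 4)` with
`e^(a/H) < p < e^(b/H)`; use `MP484c84AP.sum_two_div` with `M = ⌊e^(a/H)⌋`,
`K = ⌈e^(b/H)⌉ - 1` (`log K ≥ b/H - 2 e^(-b/H)`, `log M ≤ a/H`, `log M ≥ (a/H)/3`).
Upper bound: at most two elements for every `p` (`card_norm_le`).
-/

set_option autoImplicit false

namespace Pool.Agent.NSqP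

open Real
open Pool.Agent.MP484c84Par (ballG mem_ballG crossG badEdges mem_badEdges CM F)

private lemma mer_log {s : ℝ} (hs : 1 ≤ s) {m : ℝ} (hm : exp s - 1 ≤ m) :
    s / 2 ≤ log m ∧ log s - 2 / s ≤ log (log m) := by
  have he : (2.7182818283 : ℝ) < exp 1 := Real.exp_one_gt_d9
  have hE : exp 1 ≤ exp s := exp_le_exp.2 hs
  have hm0 : 0 < m := by linarith
  have hs0 : 0 < s := by linarith
  have h1 : s / 2 ≤ log m := by
    rw [le_log_iff_exp_le hm0]
    have ht : exp (s / 2) * exp (s / 2) = exp s := by rw [← exp_add]; congr 1; ring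
    have ht0 : 0 < exp (s / 2) := exp_pos _
    have ht1 : (1.64 : ℝ) ≤ exp (s / 2) := by
      by_contra h
      push Not at h
      nlinarith
    nlinarith
  have h2 : s - 1 ≤ log m := by
    rw [le_log_iff_exp_le hm0]
    have h3 : exp (s - 1) * exp 1 = exp s := by rw [← exp_add]; congr 1; ring
    have h4 : 1 ≤ exp (s - 1) := one_le_exp (by linarith)
    nlinarith
  refine ⟨h1, ?_⟩
  have hl : 0 < log m := by linarith
  have h5 : 1 - (log m / s)⁻¹ ≤ log (log m / s) := one_sub_inv_le_log_of_pos (by positivity)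
  rw [log_div hl.ne' hs0.ne', inv_div] at h5
  have h6 : s / log m ≤ 1 + 2 / s := by
    rw [div_le_iff₀ hl]
    have h7 : 1 ≤ 2 / s * log m := by
      rw [div_mul_eq_mul_div, le_div_iff₀ hs0]; linarith
    nlinarith
  linarith

private lemma mer_mod {z : GaussianInt} (hz : IsPi z) : nN z % 4 = 1 := by
  have h1 : ((nN z : ℕ) : ℤ) = z.norm := nN_cast_int z
  rw [Zsqrtd.norm_def] at h1
  have h2 : nN z % 2 = 1 := by
    rcases hz.2.2.1.eq_two_or_odd with h | h
    · have := hz.2.2.2; omega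
    · exact h
  have h3 : ((nN z : ℕ) : ℤ) = z.re * z.re + z.im * z.im := by rw [h1]; ring
  have h4 : z.re * z.re % 4 = 0 ∨ z.re * z.re % 4 = 1 := by
    have : z.re % 4 = 0 ∨ z.re % 4 = 1 ∨ z.re % 4 = 2 ∨ z.re % 4 = 3 := by omega
    rcases this with h | h | h | h <;> simp [Int.mul_emod, h]
  have h5 : z.im * z.im % 4 = 0 ∨ z.im * z.im % 4 = 1 := by
    have : z.im % 4 = 0 ∨ z.im % 4 = 1 ∨ z.im % 4 = 2 ∨ z.im % 4 = 3 := by omega
    rcases this with h | h | h | h <;> simp [Int.mul_emod, h]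
  omega

open Classical in
private noncomputable def merU (H a b : ℕ) : Finset GaussianInt :=
  (Finset.Ico a b).biUnion (blk H)

private lemma WR_eq {H : ℕ} (hH : 1 ≤ H) (a b : ℕ) :
    WR H a b = ∑ z ∈ merU H a b, 1 / (nN z : ℝ) := by
  classical
  unfold WR merU sv
  rw [Finset.sum_biUnion]
  intro v _ v' _ h
  exact blk_disjoint hH h

private lemma mem_merU {H : ℕ} (hH : 1 ≤ H) {a b : ℕ} {z : GaussianInt} :
    z ∈ merU H a b ↔ IsPi z ∧ exp ((a : ℝ) / H) ≤ (nN z : ℝ) ∧ (nN z : ℝ) < exp ((b : ℝ) / H) := by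
  classical
  have hH0 : (0 : ℝ) < H := by exact_mod_cast hH
  unfold merU
  rw [Finset.mem_biUnion]
  constructor
  · rintro ⟨v, hv, hz⟩
    rw [mem_blk] at hz
    rw [Finset.mem_Ico] at hv
    refine ⟨hz.1, le_trans (exp_le_exp.2 ?_) hz.2.1, lt_of_lt_of_le hz.2.2 (exp_le_exp.2 ?_)⟩
    · gcongr; exact_mod_cast hv.1
    · gcongr; exact_mod_cast hv.2
  · rintro ⟨h1, h2, h3⟩
    have hn : (0 : ℝ) < nN z := by exact_mod_cast nN_pos h1.ne_zero
    have h2' : (a : ℝ) / H ≤ log (nN z) := (le_log_iff_exp_le hn).2 h2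
    have h3' : log (nN z) < (b : ℝ) / H := (log_lt_iff_lt_exp hn).2 h3
    have h4 : (a : ℝ) ≤ H * log (nN z) := by rw [div_le_iff₀ hH0] at h2'; linarith
    have h5 : H * log (nN z) < b := by rw [lt_div_iff₀ hH0] at h3'; linarith
    have h0 : 0 ≤ H * log (nN z) := le_trans (Nat.cast_nonneg _) h4
    refine ⟨⌊H * log (nN z)⌋₊, ?_, ?_⟩
    · rw [Finset.mem_Ico]
      exact ⟨Nat.le_floor h4, (Nat.floor_lt h0).2 h5⟩
    · rw [mem_blk]
      refine ⟨h1, ?_, ?_⟩
      · rw [← le_log_iff_exp_le hn, div_le_iff₀ hH0]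
        have := Nat.floor_le h0
        linarith
      · rw [← log_lt_iff_lt_exp hn, lt_div_iff₀ hH0]
        have := Nat.lt_floor_add_one (H * log (nN z))
        linarith

theorem WR_lower : ∃ C : ℝ, 0 < C ∧ ∀ H a b : ℕ, 1 ≤ H → H ≤ a → a ≤ b →
    log ((b : ℝ) / a) - C * (H / a) ≤ WR H a b := by
  classical
  obtain ⟨C, hC0, hC⟩ := Pool.Agent.MP484c84AP.sum_two_div
  refine ⟨2 * C + 2, by positivity, fun H a b hH hHa hab => ?_⟩
  have hH0 : (0 : ℝ) < H := by exact_mod_cast hH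
  have ha0 : (0 : ℝ) < a := by exact_mod_cast (lt_of_lt_of_le hH hHa)
  have hb0 : (0 : ℝ) < b := lt_of_lt_of_le ha0 (by exact_mod_cast hab)
  have hWR0 : 0 ≤ WR H a b := by
    rw [WR_eq hH]; exact Finset.sum_nonneg fun z _ => by positivity
  rcases Nat.eq_or_lt_of_le hab with hab' | hab'
  · subst hab'
    rw [div_self ha0.ne', log_one]
    have : 0 ≤ (2 * C + 2) * ((H : ℝ) / a) := by positivity
    linarith
  set s : ℝ := (a : ℝ) / H with hs
  set t : ℝ := (b : ℝ) / H with ht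
  have hs1 : 1 ≤ s := by rw [hs, le_div_iff₀ hH0, one_mul]; exact_mod_cast hHa
  have hst : s < t := by
    rw [hs, ht]; gcongr
  have ht1 : 1 ≤ t := by linarith
  have hs0 : 0 < s := by linarith
  have ht0 : 0 < t := by linarith
  have he : (2.7182818283 : ℝ) < exp 1 := Real.exp_one_gt_d9
  have hE : exp 1 ≤ exp s := exp_le_exp.2 hs1
  have hE2 : exp s < exp t := exp_lt_exp.2 hst
  set M : ℕ := ⌊exp s⌋₊ with hM
  set K : ℕ := ⌈exp t⌉₊ - 1 with hK
  have hM2 : 2 ≤ M := Nat.le_floor (by push_cast; linarith)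
  have hMle : (M : ℝ) ≤ exp s := Nat.floor_le (exp_pos _).le
  have hMge : exp s - 1 ≤ M := by have := Nat.lt_floor_add_one (exp s); linarith
  have hceil : 1 ≤ ⌈exp t⌉₊ := Nat.one_le_ceil_iff.2 (exp_pos _)
  have hK1 : K + 1 = ⌈exp t⌉₊ := by omega
  have hKlt : (K : ℝ) < exp t := by
    have := Nat.ceil_lt_add_one (exp_pos t).le
    rw [← hK1] at this; push_cast at this; linarith
  have hKge : exp t - 1 ≤ K := by
    have := Nat.le_ceil (exp t)
    rw [← hK1] at this; push_cast at this; linarith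
  have hMK : M ≤ K := by
    have h1 : (M : ℝ) < exp t := by linarith
    have h2 : M < ⌈exp t⌉₊ := Nat.lt_ceil.2 h1
    omega
  have h1 := hC M K hM2 hMK
  have hM0 : (0 : ℝ) < M := by exact_mod_cast (by omega : 0 < M)
  obtain ⟨hlM, -⟩ := mer_log hs1 hMge
  obtain ⟨hlK, hllK⟩ := mer_log ht1 hKge
  have hlM0 : 0 < log M := by linarith
  have hllM : log (log M) ≤ log s := by
    apply log_le_log hlM0
    rw [log_le_iff_le_exp hM0]; exact hMle
  have herr : C / log M ≤ 2 * C / s := by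
    rw [div_le_div_iff₀ hlM0 hs0]
    nlinarith
  have hratio : log ((b : ℝ) / a) = log t - log s := by
    rw [← log_div ht0.ne' hs0.ne', ht, hs]
    congr 1
    field_simp
  have hHa' : (H : ℝ) / a = 1 / s := by rw [hs]; field_simp
  have h2t : 2 / t ≤ 2 / s := by gcongr
  have hsum : ∑ p ∈ Finset.Ioc M K with p.Prime ∧ p % 4 = 1, 2 / (p : ℝ) ≤ WR H a b := by
    rw [WR_eq hH]
    set P := (Finset.Ioc M K).filter (fun p => p.Prime ∧ p % 4 = 1) with hP
    have h3 : ∑ z ∈ (merU H a b).filter (fun z => nN z ∈ P), 1 / (nN z : ℝ) ≤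
        ∑ z ∈ merU H a b, 1 / (nN z : ℝ) :=
      Finset.sum_le_sum_of_subset_of_nonneg (Finset.filter_subset _ _)
        (fun z _ _ => by positivity)
    refine le_trans ?_ h3
    rw [← Finset.sum_fiberwise_of_maps_to (t := P) (g := nN)
      (fun z hz => (Finset.mem_filter.1 hz).2)]
    refine Finset.sum_le_sum fun p hp => ?_
    have hp' := (Finset.mem_filter.1 hp)
    have hpr := hp'.2
    have hpm := Finset.mem_Ioc.1 hp'.1
    obtain ⟨z, w, hzw, hz, hw, hzn, hwn⟩ := exists_two_pi hpr.1 hpr.2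
    have hpge : exp s ≤ p := by
      have h4 := Nat.lt_floor_add_one (exp s)
      have h5 : ((M : ℝ) + 1) ≤ p := by exact_mod_cast hpm.1
      linarith
    have hplt : (p : ℝ) < exp t := by
      have h5 : (p : ℝ) ≤ K := by exact_mod_cast hpm.2
      linarith
    have hsub : ({z, w} : Finset GaussianInt) ⊆
        ((merU H a b).filter (fun z => nN z ∈ P)).filter (fun z => nN z = p) := by
      intro y hy
      have hy' : y = z ∨ y = w := by simpa using hy
      have hyn : nN y = p := by rcases hy' with h | h <;> rw [h] <;> assumption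
      have hyp : IsPi y := by rcases hy' with h | h <;> rw [h] <;> assumption
      rw [Finset.mem_filter, Finset.mem_filter]
      refine ⟨⟨(mem_merU hH).2 ⟨hyp, ?_, ?_⟩, ?_⟩, hyn⟩
      · rw [hyn]; exact hpge
      · rw [hyn]; exact hplt
      · rw [hyn]; exact hp
    calc 2 / (p : ℝ) = ∑ y ∈ ({z, w} : Finset GaussianInt), 1 / (nN y : ℝ) := by
          rw [Finset.sum_pair hzw, hzn, hwn]; ring
      _ ≤ _ := Finset.sum_le_sum_of_subset_of_nonneg hsub (fun z _ _ => by positivity)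
  rw [abs_le] at h1
  rw [hratio, hHa']
  have h9 : (2 * C + 2) * (1 / s) = 2 * C / s + 2 / s := by ring
  linarith [h1.1]

theorem WR_upper : ∃ C : ℝ, 0 < C ∧ ∀ H a b : ℕ, 1 ≤ H → H ≤ a → a ≤ b →
    WR H a b ≤ log ((b : ℝ) / a) + C * (H / a) := by
  classical
  obtain ⟨C, hC0, hC⟩ := Pool.Agent.MP484c84AP.sum_two_div
  refine ⟨2 * C + 2, by positivity, fun H a b hH hHa hab => ?_⟩
  have hH0 : (0 : ℝ) < H := by exact_mod_cast hH
  have ha0 : (0 : ℝ) < a := by exact_mod_cast (lt_of_lt_of_le hH hHa)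
  have hb0 : (0 : ℝ) < b := lt_of_lt_of_le ha0 (by exact_mod_cast hab)
  set s : ℝ := (a : ℝ) / H with hs
  set t : ℝ := (b : ℝ) / H with ht
  have hs1 : 1 ≤ s := by rw [hs, le_div_iff₀ hH0, one_mul]; exact_mod_cast hHa
  have hst : s ≤ t := by
    rw [hs, ht]; gcongr
  have ht1 : 1 ≤ t := by linarith
  have hs0 : 0 < s := by linarith
  have ht0 : 0 < t := by linarith
  have he : (2.7182818283 : ℝ) < exp 1 := Real.exp_one_gt_d9
  have hE : exp 1 ≤ exp s := exp_le_exp.2 hs1
  have hE2 : exp s ≤ exp t := exp_le_exp.2 hst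
  set M : ℕ := ⌈exp s⌉₊ - 1 with hM
  set K : ℕ := ⌊exp t⌋₊ with hK
  have hceil : 3 ≤ ⌈exp s⌉₊ := by
    have : 2 < ⌈exp s⌉₊ := Nat.lt_ceil.2 (by push_cast; linarith)
    omega
  have hM1 : M + 1 = ⌈exp s⌉₊ := by omega
  have hM2 : 2 ≤ M := by omega
  have hMlt : (M : ℝ) < exp s := by
    have := Nat.ceil_lt_add_one (exp_pos s).le
    rw [← hM1] at this; push_cast at this; linarith
  have hMge : exp s - 1 ≤ M := by
    have := Nat.le_ceil (exp s)
    rw [← hM1] at this; push_cast at this; linarith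
  have hKle : (K : ℝ) ≤ exp t := Nat.floor_le (exp_pos _).le
  have hKge : exp t - 1 ≤ K := by have := Nat.lt_floor_add_one (exp t); linarith
  have hMK : M ≤ K := Nat.le_floor (by linarith)
  have h1 := hC M K hM2 hMK
  have hM0 : (0 : ℝ) < M := by exact_mod_cast (by omega : 0 < M)
  have hK0 : (0 : ℝ) < K := lt_of_lt_of_le hM0 (by exact_mod_cast hMK)
  obtain ⟨hlM, hllM⟩ := mer_log hs1 hMge
  obtain ⟨hlK, -⟩ := mer_log ht1 hKge
  have hlM0 : 0 < log M := by linarith
  have hlK0 : 0 < log K := by linarith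
  have hllK : log (log K) ≤ log t := by
    apply log_le_log hlK0
    rw [log_le_iff_le_exp hK0]; exact hKle
  have herr : C / log M ≤ 2 * C / s := by
    rw [div_le_div_iff₀ hlM0 hs0]
    nlinarith
  have hratio : log ((b : ℝ) / a) = log t - log s := by
    rw [← log_div ht0.ne' hs0.ne', ht, hs]
    congr 1
    field_simp
  have hHa' : (H : ℝ) / a = 1 / s := by rw [hs]; field_simp
  have hsum : WR H a b ≤ ∑ p ∈ Finset.Ioc M K with p.Prime ∧ p % 4 = 1, 2 / (p : ℝ) := by
    rw [WR_eq hH]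
    set P := (Finset.Ioc M K).filter (fun p => p.Prime ∧ p % 4 = 1) with hP
    have hmaps : ∀ z ∈ merU H a b, nN z ∈ P := by
      intro z hz
      rw [mem_merU hH] at hz
      rw [hP, Finset.mem_filter, Finset.mem_Ioc]
      refine ⟨⟨?_, ?_⟩, hz.1.2.2.1, mer_mod hz.1⟩
      · have : (M : ℝ) < nN z := lt_of_lt_of_le hMlt hz.2.1
        exact_mod_cast this
      · exact Nat.le_floor hz.2.2.le
    rw [← Finset.sum_fiberwise_of_maps_to hmaps]
    refine Finset.sum_le_sum fun p hp => ?_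
    have hp' := (Finset.mem_filter.1 hp)
    have hp0 : (0 : ℝ) < p := by exact_mod_cast hp'.2.1.pos
    have hcard : ((merU H a b).filter (fun z => nN z = p)).card ≤ 2 := by
      apply card_norm_le _ p
      intro z hz
      rw [Finset.mem_filter, mem_merU hH] at hz
      exact ⟨hz.1.1, hz.2⟩
    calc ∑ z ∈ (merU H a b).filter (fun z => nN z = p), 1 / (nN z : ℝ)
        = ∑ z ∈ (merU H a b).filter (fun z => nN z = p), 1 / (p : ℝ) := by
          refine Finset.sum_congr rfl fun z hz => ?_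
          rw [(Finset.mem_filter.1 hz).2]
      _ = ((merU H a b).filter (fun z => nN z = p)).card * (1 / (p : ℝ)) := by
          rw [Finset.sum_const, nsmul_eq_mul]
      _ ≤ 2 * (1 / (p : ℝ)) := by
          gcongr
          exact_mod_cast hcard
      _ = 2 / (p : ℝ) := by ring
  rw [abs_le] at h1
  rw [hratio, hHa']
  have h9 : (2 * C + 2) * (1 / s) = 2 * C / s + 2 / s := by ring
  linarith [h1.2]

end Pool.Agent.NSqP
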