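import Pool.Agent.Lib.NSqP.Basic

/-!
# PAR: the choice of the ranges (independent of `x`)
Purely numerical.  With a natural number `k ≥ 8/κ`, a large natural number `m` and `M = 2 m` put
`r_0 = 4 M`, `r_1 = 2^(4 M)`, `r_(j+2) = 2^(5 r_j)`, `α_j = (1 - 2^(-j-1))/k`, `H_j = 2^(r_j)`,
`a_j = H_j k 2^(j+7) r_j`, `b_j = H_j r_(j+1)`.
-/

set_option autoImplicit false

namespace Pool.Agent.NSqP

open Real
open Pool.Agent.MP484c84Par (ballG mem_ballG crossG badEdges mem_badEdges CM F)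

/-- the recursion for the ranges -/
private def rr (M : ℕ) : ℕ → ℕ
  | 0 => 4 * M
  | 1 => 2 ^ (4 * M)
  | (j + 2) => 2 ^ (5 * rr M j)

private theorem rr_inv (M : ℕ) (hM : 2 ≤ M) (j : ℕ) :
    (2 ^ (M * 4 ^ j) * rr M j ≤ rr M (j + 1) ∧ M * 4 ^ (j + 1) ≤ rr M j) ∧
    (2 ^ (M * 4 ^ (j + 1)) * rr M (j + 1) ≤ rr M (j + 2) ∧
      M * 4 ^ (j + 2) ≤ rr M (j + 1)) := by
  induction j with
  | zero =>
    refine ⟨⟨?_, ?_⟩, ⟨?_, ?_⟩⟩
    · change 2 ^ (M * 4 ^ 0) * (4 * M) ≤ 2 ^ (4 * M)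
      rw [pow_zero, mul_one]
      calc 2 ^ M * (4 * M) ≤ 2 ^ M * 2 ^ (3 * M) := by
            apply Nat.mul_le_mul_left
            calc 4 * M ≤ 4 * 2 ^ M := Nat.mul_le_mul_left _ (Nat.lt_two_pow_self).le
              _ = 2 ^ (M + 2) := by rw [pow_add]; ring
              _ ≤ 2 ^ (3 * M) := Nat.pow_le_pow_right (by norm_num) (by omega)
        _ = 2 ^ (4 * M) := by rw [← pow_add]; congr 1; ring
    · change M * 4 ^ (0 + 1) ≤ 4 * M
      rw [zero_add, pow_one, mul_comm]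
    · change 2 ^ (M * 4 ^ (0 + 1)) * 2 ^ (4 * M) ≤ 2 ^ (5 * (4 * M))
      rw [← pow_add]
      refine Nat.pow_le_pow_right (by norm_num) ?_
      rw [zero_add, pow_one]
      omega
    · change M * 4 ^ (0 + 2) ≤ 2 ^ (4 * M)
      calc M * 4 ^ (0 + 2) ≤ 2 ^ M * 4 ^ (0 + 2) :=
            Nat.mul_le_mul_right _ (Nat.lt_two_pow_self).le
        _ = 2 ^ (M + 4) := by rw [pow_add 2 M 4]; norm_num
        _ ≤ 2 ^ (4 * M) := Nat.pow_le_pow_right (by norm_num) (by omega)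
  | succ i ih =>
    obtain ⟨⟨h1, h2⟩, h3, h4⟩ := ih
    have h6 : 4 ≤ 2 ^ (M * 4 ^ i) := by
      calc 4 = 2 ^ 2 := by norm_num
        _ ≤ 2 ^ (M * 4 ^ i) := Nat.pow_le_pow_right (by norm_num)
            (hM.trans (Nat.le_mul_of_pos_right M (pow_pos (by norm_num) _)))
    have h7 : 4 ≤ 2 ^ (M * 4 ^ (i + 1)) := by
      calc 4 = 2 ^ 2 := by norm_num
        _ ≤ 2 ^ (M * 4 ^ (i + 1)) := Nat.pow_le_pow_right (by norm_num)
            (hM.trans (Nat.le_mul_of_pos_right M (pow_pos (by norm_num) _)))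
    refine ⟨⟨h3, h4⟩, ?_, ?_⟩
    · change 2 ^ (M * 4 ^ (i + 2)) * 2 ^ (5 * rr M i) ≤ 2 ^ (5 * rr M (i + 1))
      rw [← pow_add]
      refine Nat.pow_le_pow_right (by norm_num) ?_
      have h5 : 4 * rr M i ≤ rr M (i + 1) := (Nat.mul_le_mul_right _ h6).trans h1
      omega
    · have h5 : 4 * rr M (i + 1) ≤ rr M (i + 2) := (Nat.mul_le_mul_right _ h7).trans h3
      have e : M * 4 ^ (i + 1 + 2) = 4 * (M * 4 ^ (i + 2)) := by
        rw [show i + 1 + 2 = (i + 2) + 1 by ring, pow_succ]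
        ring
      rw [e]
      change 4 * (M * 4 ^ (i + 2)) ≤ rr M (i + 2)
      omega

private theorem two_pow_le_exp (n : ℕ) : (2 : ℝ) ^ n ≤ exp n := by
  have h1 : (2 : ℝ) ≤ exp 1 := by
    have := exp_one_gt_d9
    linarith
  have h2 : exp (n : ℝ) = exp 1 ^ n := by
    rw [← exp_nat_mul, mul_one]
  rw [h2]
  exact pow_le_pow_left₀ (by norm_num) h1 n

private theorem geo_sum (J : ℕ) : ∑ j ∈ Finset.range J, (1 / 4 : ℝ) ^ j ≤ 4 / 3 := by
  have h : ∀ J : ℕ, ∑ j ∈ Finset.range J, (1 / 4 : ℝ) ^ j = 4 / 3 * (1 - (1 / 4) ^ J) := by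
    intro J
    induction J with
    | zero => simp
    | succ J ih =>
      rw [Finset.sum_range_succ, ih, pow_succ]
      ring
  rw [h]
  have : (0 : ℝ) < (1 / 4) ^ J := by positivity
  linarith

private theorem sum_le_geo (f : ℕ → ℝ) (c : ℝ) (hc : 0 ≤ c)
    (hf : ∀ j, f j ≤ c * (1 / 4) ^ j) (J : ℕ) : ∑ j ∈ Finset.range J, f j ≤ c * (4 / 3) := by
  calc ∑ j ∈ Finset.range J, f j ≤ ∑ j ∈ Finset.range J, c * (1 / 4 : ℝ) ^ j :=
        Finset.sum_le_sum fun j _ => hf j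
    _ = c * ∑ j ∈ Finset.range J, (1 / 4 : ℝ) ^ j := by rw [Finset.mul_sum]
    _ ≤ c * (4 / 3) := mul_le_mul_of_nonneg_left (geo_sum J) hc

theorem PAR (κ ε P0 : ℝ) (hκ : 0 < κ) (hκ1 : κ ≤ 1) (hε : 0 < ε) (hP : 1 ≤ P0) :
    ∃ (H a b : ℕ → ℕ) (α : ℕ → ℝ), (∀ j, 1 ≤ H j) ∧ (∀ j, a j < b j) ∧
      (∀ j, P0 ≤ (a j : ℝ) / H j) ∧ (∀ j, (H j : ℝ) ≤ exp ((a j : ℝ) / H j)) ∧
      (∀ j, 0 < α j ∧ α j ≤ κ / 8) ∧ (∀ j, α j < α (j + 1)) ∧
      (∀ j, (a j : ℝ) / H j ≤ (a (j + 1) : ℝ) / H (j + 1)) ∧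
      (∀ j, 4 * log (11 * ((b (j + 1) : ℝ) / H (j + 1))) ≤ (α (j + 1) - α j) * ((a j : ℝ) / H j)) ∧
      Filter.Tendsto (fun j => (a j : ℝ) / H j) Filter.atTop Filter.atTop ∧
      (∀ j, 2 ≤ log ((b j : ℝ) / a j)) ∧
      (∀ J : ℕ, ∑ j ∈ Finset.range J, (1 / log ((b j : ℝ) / a j) + 1 / H j) ≤ ε) ∧
      ((b 0 : ℝ) - a 0) ^ 2 * exp (-(2 * α 0) * (a 0 / H 0)) ≤ ε ∧
      (∀ J : ℕ, ∑ j ∈ Finset.range J, ((b (j + 1) : ℝ) - a (j + 1)) ^ 2 * ((b j : ℝ) - a j) *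
        exp (2 * α j * (b j / H j) - (α (j + 1) - α j) * (a (j + 1) / H (j + 1))) ≤ ε) := by
  -- the parameters
  obtain ⟨k, hk⟩ := exists_nat_ge (8 / κ)
  have hk0 : (0 : ℝ) < k := lt_of_lt_of_le (by positivity) hk
  have hk1 : 1 ≤ k := by
    have : 0 < k := by exact_mod_cast hk0
    omega
  have hk1R : (1 : ℝ) ≤ k := by exact_mod_cast hk1
  have hkκ : 1 / (k : ℝ) ≤ κ / 8 := by
    rw [div_le_div_iff₀ hk0 (by norm_num)]
    rw [div_le_iff₀ hκ] at hk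
    linarith
  obtain ⟨m, hm⟩ := exists_nat_ge (max ((k : ℝ) + 8) (max (4 / ε) P0))
  have hmk : k + 8 ≤ m := by
    have : ((k : ℝ) + 8) ≤ m := (le_max_left _ _).trans hm
    exact_mod_cast this
  have hmε : 4 / ε ≤ m := (le_max_left _ _).trans ((le_max_right _ _).trans hm)
  have hmP : P0 ≤ m := (le_max_right _ _).trans ((le_max_right _ _).trans hm)
  have hm0 : (0 : ℝ) < m := by linarith
  have hεm : 4 / (m : ℝ) ≤ ε := by
    rw [div_le_iff₀ hε] at hmε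
    rw [div_le_iff₀ hm0]
    linarith
  -- the recursion
  obtain ⟨r, hr⟩ : ∃ r : ℕ → ℕ, r = rr (2 * m) := ⟨_, rfl⟩
  have hr0 : r 0 = 8 * m := by
    rw [hr]
    change 4 * (2 * m) = 8 * m
    ring
  have hr1 : r 1 = 2 ^ (r 0) := by
    rw [hr]
    rfl
  have hr2 : ∀ j, r (j + 2) = 2 ^ (5 * r j) := by
    intro j
    rw [hr]
    rfl
  have hA : ∀ j, 2 ^ (2 * m * 4 ^ j) * r j ≤ r (j + 1) := by
    intro j
    rw [hr]
    exact (rr_inv (2 * m) (by omega) j).1.1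
  have hB : ∀ j, 2 * m * 4 ^ (j + 1) ≤ r j := by
    intro j
    rw [hr]
    exact (rr_inv (2 * m) (by omega) j).1.2
  clear hr
  have h4pos : ∀ j : ℕ, 1 ≤ 4 ^ j := fun j => Nat.one_le_pow _ _ (by norm_num)
  have h4j : ∀ j : ℕ, j < 4 ^ j := fun j => Nat.lt_pow_self (by norm_num)
  have hmj : ∀ j, m * 4 ^ j ≤ r j := by
    intro j
    have h1 := hB j
    rw [pow_succ] at h1
    have h2 : m * 4 ^ j ≤ 2 * m * (4 ^ j * 4) := by
      have : 2 * m * (4 ^ j * 4) = 8 * (m * 4 ^ j) := by ring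
      omega
    exact h2.trans h1
  have hr_pos : ∀ j, 1 ≤ r j := by
    intro j
    have h1 := hmj j
    have h2 : 1 * 1 ≤ m * 4 ^ j := Nat.mul_le_mul (by omega) (h4pos j)
    omega
  have hr_mono : ∀ j, r j ≤ r (j + 1) := by
    intro j
    exact (Nat.le_mul_of_pos_left _ (pow_pos (by norm_num) _)).trans (hA j)
  have hpq : ∀ j, 2 ^ (m * 4 ^ j) * (k * 2 ^ (j + 7) * r j) ≤ r (j + 1) := by
    intro j
    have h1 : k * 2 ^ (j + 7) ≤ 2 ^ (m * 4 ^ j) := by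
      calc k * 2 ^ (j + 7) ≤ 2 ^ k * 2 ^ (j + 7) :=
            Nat.mul_le_mul_right _ (Nat.lt_two_pow_self).le
        _ = 2 ^ (k + (j + 7)) := by rw [← pow_add]
        _ ≤ 2 ^ (m * 4 ^ j) := by
            refine Nat.pow_le_pow_right (by norm_num) ?_
            have h2 : (k + 8) * 4 ^ j ≤ m * 4 ^ j := Nat.mul_le_mul_right _ hmk
            have h3 : k + 7 ≤ (k + 7) * 4 ^ j := Nat.le_mul_of_pos_right _ (h4pos j)
            have h5 : (k + 8) * 4 ^ j = (k + 7) * 4 ^ j + 4 ^ j := by ring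
            have h6 := h4j j
            omega
    calc 2 ^ (m * 4 ^ j) * (k * 2 ^ (j + 7) * r j)
        ≤ 2 ^ (m * 4 ^ j) * (2 ^ (m * 4 ^ j) * r j) :=
          Nat.mul_le_mul_left _ (Nat.mul_le_mul_right _ h1)
      _ = 2 ^ (2 * m * 4 ^ j) * r j := by
          rw [← mul_assoc, ← pow_add]
          congr 2
          ring
      _ ≤ r (j + 1) := hA j
  -- the sequences
  have hH0 : ∀ j, (0 : ℝ) < ((2 ^ (r j) : ℕ) : ℝ) := fun j => by positivity
  have haH : ∀ j, ((2 ^ (r j) * (k * 2 ^ (j + 7) * r j) : ℕ) : ℝ) / ((2 ^ (r j) : ℕ) : ℝ) =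
      (k : ℝ) * 2 ^ (j + 7) * r j := by
    intro j
    rw [Nat.cast_mul, mul_div_assoc, mul_comm, div_mul_cancel₀ _ (hH0 j).ne']
    push_cast
    ring
  have hbH : ∀ j, ((2 ^ (r j) * r (j + 1) : ℕ) : ℝ) / ((2 ^ (r j) : ℕ) : ℝ) = r (j + 1) := by
    intro j
    rw [Nat.cast_mul, mul_div_assoc, mul_comm, div_mul_cancel₀ _ (hH0 j).ne']
  have hδ : ∀ j : ℕ, (1 / (k : ℝ)) * (1 - (1 / 2) ^ (j + 1 + 1)) -
      (1 / (k : ℝ)) * (1 - (1 / 2) ^ (j + 1)) = (1 / k) * (1 / 2) ^ (j + 2) := by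
    intro j
    rw [pow_succ]
    ring
  have hδp : ∀ (j : ℕ) (x : ℝ), (1 / (k : ℝ)) * (1 / 2) ^ (j + 2) * ((k : ℝ) * 2 ^ (j + 7) * x) =
      32 * x := by
    intro j x
    have e1 : (1 / 2 : ℝ) ^ (j + 2) * 2 ^ (j + 7) = 32 := by
      rw [show j + 7 = (j + 2) + 5 by ring, pow_add (2 : ℝ) (j + 2) 5, ← mul_assoc, ← mul_pow]
      norm_num
    have e2 : (1 / (k : ℝ)) * (1 / 2) ^ (j + 2) * ((k : ℝ) * 2 ^ (j + 7) * x) =
        ((1 / (k : ℝ)) * k) * ((1 / 2 : ℝ) ^ (j + 2) * 2 ^ (j + 7)) * x := by ring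
    rw [e2, e1, one_div, inv_mul_cancel₀ hk0.ne', one_mul]
  have hlog2 : (1 / 2 : ℝ) ≤ log 2 := by
    have := log_two_gt_d9
    linarith
  have ha_pos : ∀ j, (0 : ℝ) < ((2 ^ (r j) * (k * 2 ^ (j + 7) * r j) : ℕ) : ℝ) := by
    intro j
    have h1 := hr_pos j
    have h2 : 0 < 2 ^ (r j) * (k * 2 ^ (j + 7) * r j) := by positivity
    exact_mod_cast h2
  have hlog : ∀ j, (m : ℝ) * 4 ^ j / 2 ≤ log (((2 ^ (r j) * r (j + 1) : ℕ) : ℝ) /
      ((2 ^ (r j) * (k * 2 ^ (j + 7) * r j) : ℕ) : ℝ)) := by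
    intro j
    have h1 : (2 : ℝ) ^ (m * 4 ^ j) ≤ ((2 ^ (r j) * r (j + 1) : ℕ) : ℝ) /
        ((2 ^ (r j) * (k * 2 ^ (j + 7) * r j) : ℕ) : ℝ) := by
      rw [le_div_iff₀ (ha_pos j)]
      have h2 : 2 ^ (m * 4 ^ j) * (2 ^ (r j) * (k * 2 ^ (j + 7) * r j)) ≤
          2 ^ (r j) * r (j + 1) := by
        calc 2 ^ (m * 4 ^ j) * (2 ^ (r j) * (k * 2 ^ (j + 7) * r j))
            = 2 ^ (r j) * (2 ^ (m * 4 ^ j) * (k * 2 ^ (j + 7) * r j)) := by ring
          _ ≤ 2 ^ (r j) * r (j + 1) := Nat.mul_le_mul_left _ (hpq j)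
      exact_mod_cast h2
    have h3 := log_le_log (by positivity) h1
    rw [log_pow] at h3
    refine le_trans ?_ h3
    push_cast
    have h4 : (0 : ℝ) ≤ (m : ℝ) * 4 ^ j := by positivity
    have h5 := mul_le_mul_of_nonneg_left hlog2 h4
    linarith
  have hmjR : ∀ j, (m : ℝ) * 4 ^ j ≤ (r j : ℝ) := by
    intro j
    exact_mod_cast hmj j
  have hrR1 : ∀ j, (1 : ℝ) ≤ r j := fun j => by exact_mod_cast hr_pos j
  have hinv : ∀ j : ℕ, 1 / ((m : ℝ) * 4 ^ j) = (1 / m) * (1 / 4) ^ j := by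
    intro j
    rw [one_div_pow, one_div_mul_one_div]
  have hexpr : ∀ j, exp (-(r j : ℝ)) ≤ (1 / m) * (1 / 4) ^ j := by
    intro j
    rw [← hinv, exp_neg, ← one_div]
    apply one_div_le_one_div_of_le (by positivity)
    have h1 := add_one_le_exp (r j : ℝ)
    have h2 := hmjR j
    linarith
  refine ⟨fun j => 2 ^ (r j), fun j => 2 ^ (r j) * (k * 2 ^ (j + 7) * r j),
    fun j => 2 ^ (r j) * r (j + 1), fun j => (1 / (k : ℝ)) * (1 - (1 / 2) ^ (j + 1)),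
    ?_, ?_, ?_, ?_, ?_, ?_, ?_, ?_, ?_, ?_, ?_, ?_, ?_⟩
  · intro j
    exact Nat.one_le_two_pow
  · intro j
    refine Nat.mul_lt_mul_of_pos_left ?_ (pow_pos (by norm_num) _)
    refine lt_of_lt_of_le ?_ (hpq j)
    have h1 : 0 < k * 2 ^ (j + 7) * r j := by
      have := hr_pos j
      positivity
    have h2 : 1 < 2 ^ (m * 4 ^ j) := Nat.one_lt_two_pow (by
      have := h4pos j
      have : 0 < m * 4 ^ j := Nat.mul_pos (by omega) (by omega)
      omega)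
    exact (Nat.lt_mul_iff_one_lt_left h1).2 h2
  · intro j
    dsimp only
    rw [haH]
    have h1 := hmjR j
    have h2 : (m : ℝ) ≤ m * 4 ^ j := le_mul_of_one_le_right hm0.le (one_le_pow₀ (by norm_num))
    have h3 : (1 : ℝ) ≤ k * 2 ^ (j + 7) :=
      one_le_mul_of_one_le_of_one_le hk1R (one_le_pow₀ (by norm_num))
    have h4 : (r j : ℝ) ≤ (k : ℝ) * 2 ^ (j + 7) * r j :=
      le_mul_of_one_le_left (by linarith [hrR1 j]) h3
    linarith
  · intro j
    dsimp only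
    rw [haH]
    have h3 : (1 : ℝ) ≤ k * 2 ^ (j + 7) :=
      one_le_mul_of_one_le_of_one_le hk1R (one_le_pow₀ (by norm_num))
    have h4 : (r j : ℝ) ≤ (k : ℝ) * 2 ^ (j + 7) * r j :=
      le_mul_of_one_le_left (by linarith [hrR1 j]) h3
    have h5 := two_pow_le_exp (r j)
    push_cast
    exact h5.trans (exp_le_exp.2 h4)
  · intro j
    dsimp only
    have h1 : (1 / 2 : ℝ) ^ (j + 1) ≤ 1 / 2 := by
      rw [pow_succ]
      have : (1 / 2 : ℝ) ^ j ≤ 1 := pow_le_one₀ (by norm_num) (by norm_num)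
      linarith
    have h2 : (0 : ℝ) < (1 / 2) ^ (j + 1) := by positivity
    have h3 : (0 : ℝ) < 1 / k := by positivity
    constructor
    · exact mul_pos h3 (by linarith)
    · calc 1 / (k : ℝ) * (1 - (1 / 2) ^ (j + 1)) ≤ 1 / (k : ℝ) * 1 :=
            mul_le_mul_of_nonneg_left (by linarith) h3.le
        _ ≤ κ / 8 := by rw [mul_one]; exact hkκ
  · intro j
    dsimp only
    have h1 := hδ j
    have h2 : (0 : ℝ) < (1 / k) * (1 / 2) ^ (j + 2) := by positivity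
    linarith
  · intro j
    dsimp only
    rw [haH, haH]
    have h1 : (r j : ℝ) ≤ r (j + 1) := by exact_mod_cast hr_mono j
    have h2 : (2 : ℝ) ^ (j + 7) ≤ 2 ^ (j + 1 + 7) :=
      pow_le_pow_right₀ (by norm_num) (by omega)
    have h3 := hrR1 j
    gcongr
  · intro j
    dsimp only
    rw [haH, hbH (j + 1), hδ, hδp, hr2]
    have h1 : log (11 * ((2 ^ (5 * r j) : ℕ) : ℝ)) ≤ 3 + 5 * r j := by
      rw [log_mul (by norm_num) (by positivity)]
      have h2 : log 11 ≤ 3 := by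
        rw [log_le_iff_le_exp (by norm_num)]
        have h3 : (2.7 : ℝ) ≤ exp 1 := by
          have := exp_one_gt_d9
          linarith
        have h4 : exp 3 = exp 1 ^ 3 := by
          rw [← exp_nat_mul]
          norm_num
        rw [h4]
        calc (11 : ℝ) ≤ 2.7 ^ 3 := by norm_num
          _ ≤ exp 1 ^ 3 := pow_le_pow_left₀ (by norm_num) h3 3
      have h5 : log ((2 ^ (5 * r j) : ℕ) : ℝ) ≤ 5 * r j := by
        have h6 := two_pow_le_exp (5 * r j)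
        have h7 := log_le_log (by positivity) h6
        rw [log_exp] at h7
        push_cast at h7 ⊢
        exact h7
      linarith
    have h2 := hrR1 j
    linarith
  · refine Filter.tendsto_atTop_mono (fun j => ?_) tendsto_natCast_atTop_atTop
    dsimp only
    rw [haH]
    have h3 : (1 : ℝ) ≤ k * 2 ^ (j + 7) :=
      one_le_mul_of_one_le_of_one_le hk1R (one_le_pow₀ (by norm_num))
    have h4 : (r j : ℝ) ≤ (k : ℝ) * 2 ^ (j + 7) * r j :=
      le_mul_of_one_le_left (by linarith [hrR1 j]) h3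
    have h5 : j ≤ r j := by
      have h6 := h4j j
      have h7 := hmj j
      have h8 : 4 ^ j ≤ m * 4 ^ j := Nat.le_mul_of_pos_left _ (by omega)
      omega
    have h9 : (j : ℝ) ≤ r j := by exact_mod_cast h5
    linarith
  · intro j
    dsimp only
    have h1 := hlog j
    have h2 : (m : ℝ) ≤ m * 4 ^ j := le_mul_of_one_le_right hm0.le (one_le_pow₀ (by norm_num))
    have h3 : (8 : ℝ) ≤ m := by
      have : 8 ≤ m := by omega
      exact_mod_cast this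
    linarith
  · intro J
    dsimp only
    have h1 := sum_le_geo (fun j => 1 / log (((2 ^ (r j) * r (j + 1) : ℕ) : ℝ) /
      ((2 ^ (r j) * (k * 2 ^ (j + 7) * r j) : ℕ) : ℝ)) + 1 / ((2 ^ (r j) : ℕ) : ℝ)) (3 / m)
      (by positivity) (fun j => ?_) J
    · refine h1.trans (le_trans (le_of_eq ?_) hεm)
      ring
    · have h2 : 1 / log (((2 ^ (r j) * r (j + 1) : ℕ) : ℝ) /
          ((2 ^ (r j) * (k * 2 ^ (j + 7) * r j) : ℕ) : ℝ)) ≤ 1 / ((m : ℝ) * 4 ^ j / 2) :=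
        one_div_le_one_div_of_le (by positivity) (hlog j)
      have h3 : 1 / ((2 ^ (r j) : ℕ) : ℝ) ≤ 1 / ((m : ℝ) * 4 ^ j) := by
        apply one_div_le_one_div_of_le (by positivity)
        have h4 : r j ≤ 2 ^ (r j) := (Nat.lt_two_pow_self).le
        have h5 : (r j : ℝ) ≤ ((2 ^ (r j) : ℕ) : ℝ) := by exact_mod_cast h4
        exact (hmjR j).trans h5
      have h4 : 1 / ((m : ℝ) * 4 ^ j / 2) = 2 * (1 / ((m : ℝ) * 4 ^ j)) := by
        rw [one_div_div, mul_one_div]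
      rw [h4] at h2
      have h5 := hinv j
      calc _ ≤ 2 * (1 / ((m : ℝ) * 4 ^ j)) + 1 / ((m : ℝ) * 4 ^ j) := add_le_add h2 h3
        _ = 3 / m * (1 / 4) ^ j := by rw [h5]; ring
  · dsimp only
    rw [haH]
    have h1 : (0 : ℝ) ≤ ((2 ^ (r 0) * r (0 + 1) : ℕ) : ℝ) -
        ((2 ^ (r 0) * (k * 2 ^ (0 + 7) * r 0) : ℕ) : ℝ) := by
      rw [sub_nonneg]
      have h2 : 2 ^ (r 0) * (k * 2 ^ (0 + 7) * r 0) ≤ 2 ^ (r 0) * r (0 + 1) := by
        refine Nat.mul_le_mul_left _ ?_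
        exact (Nat.le_mul_of_pos_left _ (pow_pos (by norm_num) _)).trans (hpq 0)
      exact_mod_cast h2
    have h2 : ((2 ^ (r 0) * r (0 + 1) : ℕ) : ℝ) -
        ((2 ^ (r 0) * (k * 2 ^ (0 + 7) * r 0) : ℕ) : ℝ) ≤ exp (2 * r 0) := by
      have h3 : ((2 ^ (r 0) * r (0 + 1) : ℕ) : ℝ) ≤ exp (2 * r 0) := by
        rw [zero_add, hr1]
        push_cast
        have h4 := two_pow_le_exp (r 0)
        calc (2 : ℝ) ^ (r 0) * 2 ^ (r 0) ≤ exp (r 0) * exp (r 0) :=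
              mul_le_mul h4 h4 (by positivity) (exp_pos _).le
          _ = exp (2 * r 0) := by rw [← exp_add]; ring_nf
      have h5 := ha_pos 0
      linarith
    have h3 : (((2 ^ (r 0) * r (0 + 1) : ℕ) : ℝ) -
        ((2 ^ (r 0) * (k * 2 ^ (0 + 7) * r 0) : ℕ) : ℝ)) ^ 2 ≤ exp (4 * r 0) := by
      calc _ ≤ (exp (2 * r 0)) ^ 2 := pow_le_pow_left₀ h1 h2 2
        _ = exp (4 * r 0) := by rw [← exp_nat_mul]; push_cast; ring_nf
    have h4 : -(2 * (1 / (k : ℝ) * (1 - (1 / 2) ^ (0 + 1)))) * ((k : ℝ) * 2 ^ (0 + 7) * r 0) =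
        -128 * r 0 := by
      have : -(2 * (1 / (k : ℝ) * (1 - (1 / 2) ^ (0 + 1)))) * ((k : ℝ) * 2 ^ (0 + 7) * r 0) =
        -128 * r 0 * (1 / (k : ℝ) * k) := by ring
      rw [this, one_div, inv_mul_cancel₀ hk0.ne', mul_one]
    rw [h4]
    have h5 : exp (4 * r 0) * exp (-128 * r 0) ≤ exp (-(r 0 : ℝ)) := by
      rw [← exp_add]
      apply exp_le_exp.2
      have := hrR1 0
      linarith
    have h6 := hexpr 0
    rw [pow_zero, mul_one] at h6
    have h7 : (1 / m : ℝ) ≤ 4 / m := by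
      gcongr
      norm_num
    calc _ ≤ exp (4 * r 0) * exp (-128 * r 0) := mul_le_mul_of_nonneg_right h3 (exp_pos _).le
      _ ≤ ε := h5.trans (h6.trans (h7.trans hεm))
  · intro J
    dsimp only
    refine (sum_le_geo _ (1 / m) (by positivity) (fun j => ?_) J).trans ?_
    swap
    · have h7 : (1 / m : ℝ) * (4 / 3) ≤ 4 / m := by
        rw [one_div_mul_eq_div]
        gcongr
        norm_num
      exact h7.trans hεm
    rw [hbH, haH, hδ]
    have hab : ∀ j, (0 : ℝ) ≤ ((2 ^ (r j) * r (j + 1) : ℕ) : ℝ) -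
        ((2 ^ (r j) * (k * 2 ^ (j + 7) * r j) : ℕ) : ℝ) := by
      intro j
      rw [sub_nonneg]
      have h2 : 2 ^ (r j) * (k * 2 ^ (j + 7) * r j) ≤ 2 ^ (r j) * r (j + 1) := by
        refine Nat.mul_le_mul_left _ ?_
        exact (Nat.le_mul_of_pos_left _ (pow_pos (by norm_num) _)).trans (hpq j)
      exact_mod_cast h2
    have hmono : (r j : ℝ) ≤ r (j + 1) := by exact_mod_cast hr_mono j
    -- the second factor
    have hb1 : ((2 ^ (r j) * r (j + 1) : ℕ) : ℝ) -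
        ((2 ^ (r j) * (k * 2 ^ (j + 7) * r j) : ℕ) : ℝ) ≤ exp (2 * r (j + 1)) := by
      have h3 : ((2 ^ (r j) * r (j + 1) : ℕ) : ℝ) ≤ exp (2 * r (j + 1)) := by
        push_cast
        have h4 := two_pow_le_exp (r j)
        have h5 := add_one_le_exp (r (j + 1) : ℝ)
        have h6 : (2 : ℝ) ^ (r j) ≤ exp (r (j + 1)) := h4.trans (exp_le_exp.2 hmono)
        calc (2 : ℝ) ^ (r j) * r (j + 1) ≤ exp (r (j + 1)) * exp (r (j + 1)) :=
              mul_le_mul h6 (by linarith) (by positivity) (exp_pos _).le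
          _ = exp (2 * r (j + 1)) := by rw [← exp_add]; ring_nf
      have h5 := ha_pos j
      linarith
    have hb2 : ((2 ^ (r (j + 1)) * r (j + 1 + 1) : ℕ) : ℝ) -
        ((2 ^ (r (j + 1)) * (k * 2 ^ (j + 1 + 7) * r (j + 1)) : ℕ) : ℝ) ≤
          exp (6 * r (j + 1)) := by
      have h3 : ((2 ^ (r (j + 1)) * r (j + 1 + 1) : ℕ) : ℝ) ≤ exp (6 * r (j + 1)) := by
        have e1 : r (j + 1 + 1) = 2 ^ (5 * r j) := hr2 j
        rw [e1]
        have h4 := two_pow_le_exp (r (j + 1))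
        have h5 := two_pow_le_exp (5 * r j)
        have h6 : (2 : ℝ) ^ (5 * r j) ≤ exp (5 * r (j + 1)) := by
          refine h5.trans (exp_le_exp.2 ?_)
          push_cast
          linarith
        push_cast
        calc (2 : ℝ) ^ (r (j + 1)) * 2 ^ (5 * r j) ≤ exp (r (j + 1)) * exp (5 * r (j + 1)) :=
              mul_le_mul h4 h6 (by positivity) (exp_pos _).le
          _ = exp (6 * r (j + 1)) := by rw [← exp_add]; ring_nf
      have h5 := ha_pos (j + 1)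
      linarith
    have hb3 : (((2 ^ (r (j + 1)) * r (j + 1 + 1) : ℕ) : ℝ) -
        ((2 ^ (r (j + 1)) * (k * 2 ^ (j + 1 + 7) * r (j + 1)) : ℕ) : ℝ)) ^ 2 ≤
          exp (12 * r (j + 1)) := by
      calc _ ≤ (exp (6 * r (j + 1))) ^ 2 := pow_le_pow_left₀ (hab (j + 1)) hb2 2
        _ = exp (12 * r (j + 1)) := by rw [← exp_nat_mul]; push_cast; ring_nf
    -- the exponent
    have he : 2 * (1 / (k : ℝ) * (1 - (1 / 2) ^ (j + 1))) * r (j + 1) -
        1 / k * (1 / 2) ^ (j + 2) * ((k : ℝ) * 2 ^ (j + 1 + 7) * r (j + 1)) ≤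
          -62 * r (j + 1) := by
      have h1 : 1 / (k : ℝ) * (1 / 2) ^ (j + 2) * ((k : ℝ) * 2 ^ (j + 1 + 7) * r (j + 1)) =
          64 * r (j + 1) := by
        have h2 := hδp j (2 * r (j + 1))
        have h3 : (k : ℝ) * 2 ^ (j + 1 + 7) * r (j + 1) =
            (k : ℝ) * 2 ^ (j + 7) * (2 * r (j + 1)) := by
          rw [show j + 1 + 7 = (j + 7) + 1 by ring, pow_succ]
          ring
        rw [h3, h2]
        ring
      have h2 : 1 / (k : ℝ) * (1 - (1 / 2) ^ (j + 1)) ≤ 1 := by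
        have h3 : (0 : ℝ) < (1 / 2) ^ (j + 1) := by positivity
        have h4 : 1 / (k : ℝ) ≤ 1 := by
          rw [div_le_one hk0]
          exact hk1R
        have h5 : (0 : ℝ) < 1 / k := by positivity
        calc 1 / (k : ℝ) * (1 - (1 / 2) ^ (j + 1)) ≤ 1 / (k : ℝ) * 1 :=
              mul_le_mul_of_nonneg_left (by linarith) h5.le
          _ ≤ 1 := by rw [mul_one]; exact h4
      have h3 := hrR1 (j + 1)
      have h4 : 1 / (k : ℝ) * (1 - (1 / 2) ^ (j + 1)) * r (j + 1) ≤ 1 * r (j + 1) :=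
        mul_le_mul_of_nonneg_right h2 (by linarith)
      rw [h1]
      linarith
    have h8 : (1 / m : ℝ) * (1 / 4) ^ (j + 1) ≤ 1 / m * (1 / 4) ^ j := by
      have : (1 / 4 : ℝ) ^ (j + 1) ≤ (1 / 4) ^ j := by
        rw [pow_succ]
        have : (0 : ℝ) < (1 / 4) ^ j := by positivity
        linarith
      exact mul_le_mul_of_nonneg_left this (by positivity)
    calc _ ≤ exp (12 * r (j + 1)) * exp (2 * r (j + 1)) * exp (-62 * r (j + 1)) := by
          refine mul_le_mul (mul_le_mul hb3 hb1 (hab j) (exp_pos _).le) (exp_le_exp.2 he)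
            (exp_pos _).le (by positivity)
      _ = exp (-48 * r (j + 1)) := by
          rw [← exp_add, ← exp_add]
          ring_nf
      _ ≤ exp (-(r (j + 1) : ℝ)) := by
          apply exp_le_exp.2
          have := hrR1 (j + 1)
          linarith
      _ ≤ (1 / m) * (1 / 4) ^ (j + 1) := hexpr (j + 1)
      _ ≤ 1 / m * (1 / 4) ^ j := h8

end Pool.Agent.NSqP
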