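import Pool.Agent.Lib.NSqP.LS
import Pool.Agent.Lib.NSqP.LC

/-!
# ST1: the first range
Cauchy in `v`: `|∑_v P_v R_v|^2 ≤ (b-a) ∑_v |P_v|^2 |R_v|^2 ≤ (b-a) ∑_v e^(2(1-α)v/H) |R_v|^2`
on the set, and `∑_{|m|<M} |R_v|^2 ≤ C (M + x e^(-v/H)) #Wset ≤ C' x^2 e^(-2v/H)` by `LSP`
(with `L = x e^(-v/H) ≥ 1`), `card_ann_le`, since `M ≤ x e^(-b/H)`.
-/

set_option autoImplicit false

namespace Pool.Agent.NSqP

open Real
open Pool.Agent.MP484c84Par (ballG mem_ballG crossG badEdges mem_badEdges CM F)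

/-- mean square of the cofactor polynomial -/
private theorem st1_mean : ∃ C : ℝ, 0 < C ∧ ∀ f : GaussianInt → ℂ, CMC f →
    ∀ (H v M : ℕ) (x : ℝ), 1 ≤ x * exp (-((v : ℝ) / H)) →
      (M : ℝ) ≤ x * exp (-((v : ℝ) / H)) →
      ∑ m ∈ fr M, ‖Rb f H v x m‖ ^ 2 ≤ C * (x * exp (-((v : ℝ) / H))) ^ 2 := by
  obtain ⟨C₁, hC₁, h1⟩ := LSP
  obtain ⟨C₂, hC₂, h2⟩ := card_ann_le
  refine ⟨2 * C₁ * C₂, by positivity, fun f hf H v M x hL hM => ?_⟩
  have hx : 0 ≤ x := by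
    by_contra h
    push Not at h
    have := mul_neg_of_neg_of_pos h (exp_pos (-((v : ℝ) / H)))
    linarith
  have h3 := h1 (Wset H v x) f (x * exp (-((v : ℝ) / H))) M hL (fun z hz => by
    rw [mem_Wset hx] at hz
    exact ⟨hz.1.2, hz.1.1.2⟩)
  have h4 : ∑ z ∈ Wset H v x, ‖f z‖ ^ 2 ≤ C₂ * (x * exp (-((v : ℝ) / H))) := by
    have h5 : ∑ z ∈ Wset H v x, ‖f z‖ ^ 2 ≤ ∑ z ∈ Wset H v x, (1 : ℝ) := by
      refine Finset.sum_le_sum fun z hz => ?_
      rw [mem_Wset hx] at hz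
      have h6 := hf.le z (prim_ne_zero hz.1.2)
      exact pow_le_one₀ (norm_nonneg _) h6
    have h7 : (Wset H v x).card ≤ (ann 0 (x * exp (-((v : ℝ) / H)))).card := by
      refine Finset.card_le_card fun z hz => ?_
      rw [mem_Wset hx] at hz
      rw [mem_ann (by positivity)]
      refine ⟨lt_of_le_of_lt ?_ hz.1.1.1, hz.1.1.2⟩
      positivity
    have h8 := h2 (x * exp (-((v : ℝ) / H))) (by positivity)
    have h9 : ((Wset H v x).card : ℝ) ≤ ((ann 0 (x * exp (-((v : ℝ) / H)))).card : ℝ) := by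
      exact_mod_cast h7
    rw [Finset.sum_const, nsmul_eq_mul, mul_one] at h5
    linarith
  calc ∑ m ∈ fr M, ‖Rb f H v x m‖ ^ 2
      ≤ C₁ * (M + x * exp (-((v : ℝ) / H))) * ∑ z ∈ Wset H v x, ‖f z‖ ^ 2 := h3
    _ ≤ C₁ * (x * exp (-((v : ℝ) / H)) + x * exp (-((v : ℝ) / H))) *
        (C₂ * (x * exp (-((v : ℝ) / H)))) := by
        refine mul_le_mul ?_ h4 (Finset.sum_nonneg fun z _ => by positivity) (by positivity)
        exact mul_le_mul_of_nonneg_left (by linarith) hC₁.le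
    _ = 2 * C₁ * C₂ * (x * exp (-((v : ℝ) / H))) ^ 2 := by ring

open Classical in
theorem ST1 : ∃ C : ℝ, 0 < C ∧ ∀ f : GaussianInt → ℂ, CMC f → ∀ (H a b M : ℕ) (x α : ℝ), 1 ≤ H →
    a < b → 0 < α → α ≤ 1 / 2 → exp ((b : ℝ) / H) ≤ x → (M : ℝ) * exp ((b : ℝ) / H) ≤ x →
    ∑ m ∈ (fr M).filter (fun m => ∀ v ∈ Finset.Ico a b, ‖Pb f H v m‖ ≤ exp ((1 - α) * (v / H))),
        ‖∑ v ∈ Finset.Ico a b, Pb f H v m * Rb f H v x m‖ ^ 2 ≤
      C * ((b : ℝ) - a) ^ 2 * exp (-(2 * α) * (a / H)) * x ^ 2 := by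
  obtain ⟨C, hC, hmean⟩ := st1_mean
  refine ⟨C, hC, fun f hf H a b M x α hH hab hα hα2 hx hMx => ?_⟩
  have hH0 : (0 : ℝ) < H := by exact_mod_cast hH
  have hcard : ((Finset.Ico a b).card : ℝ) = (b : ℝ) - a := by
    rw [Nat.card_Ico, Nat.cast_sub hab.le]
  have hba : (0 : ℝ) ≤ (b : ℝ) - a := by
    have : (a : ℝ) < b := by exact_mod_cast hab
    linarith
  -- the mean squares
  have hR : ∀ v ∈ Finset.Ico a b, ∑ m ∈ fr M, ‖Rb f H v x m‖ ^ 2 ≤
      C * (x * exp (-((v : ℝ) / H))) ^ 2 := by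
    intro v hv
    rw [Finset.mem_Ico] at hv
    have hvb : (v : ℝ) / H ≤ (b : ℝ) / H := by
      have : (v : ℝ) ≤ b := by exact_mod_cast hv.2.le
      gcongr
    have e1 : exp (-((b : ℝ) / H)) ≤ exp (-((v : ℝ) / H)) := exp_le_exp.2 (by linarith)
    have hx0 : 0 < x := lt_of_lt_of_le (exp_pos _) hx
    have e2 : 1 ≤ x * exp (-((b : ℝ) / H)) := by
      rw [exp_neg, ← div_eq_mul_inv, le_div_iff₀ (exp_pos _), one_mul]
      exact hx
    have e3 : (M : ℝ) ≤ x * exp (-((b : ℝ) / H)) := by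
      rw [exp_neg, ← div_eq_mul_inv, le_div_iff₀ (exp_pos _)]
      exact hMx
    have e4 : x * exp (-((b : ℝ) / H)) ≤ x * exp (-((v : ℝ) / H)) :=
      mul_le_mul_of_nonneg_left e1 hx0.le
    exact hmean f hf H v M x (e2.trans e4) (e3.trans e4)
  -- Cauchy
  have hcs : ∀ m ∈ (fr M).filter (fun m => ∀ v ∈ Finset.Ico a b,
      ‖Pb f H v m‖ ≤ exp ((1 - α) * (v / H))),
      ‖∑ v ∈ Finset.Ico a b, Pb f H v m * Rb f H v x m‖ ^ 2 ≤
        ((b : ℝ) - a) * ∑ v ∈ Finset.Ico a b,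
          exp (2 * ((1 - α) * (v / H))) * ‖Rb f H v x m‖ ^ 2 := by
    intro m hm
    rw [Finset.mem_filter] at hm
    have h1 : ‖∑ v ∈ Finset.Ico a b, Pb f H v m * Rb f H v x m‖ ≤
        ∑ v ∈ Finset.Ico a b, exp ((1 - α) * (v / H)) * ‖Rb f H v x m‖ := by
      refine (norm_sum_le _ _).trans (Finset.sum_le_sum fun v hv => ?_)
      rw [norm_mul]
      exact mul_le_mul_of_nonneg_right (hm.2 v hv) (norm_nonneg _)
    have h2 := sq_sum_le_card_mul_sum_sq (s := Finset.Ico a b)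
      (f := fun v : ℕ => exp ((1 - α) * (v / H)) * ‖Rb f H v x m‖)
    rw [hcard] at h2
    calc ‖∑ v ∈ Finset.Ico a b, Pb f H v m * Rb f H v x m‖ ^ 2
        ≤ (∑ v ∈ Finset.Ico a b, exp ((1 - α) * (v / H)) * ‖Rb f H v x m‖) ^ 2 :=
          pow_le_pow_left₀ (norm_nonneg _) h1 2
      _ ≤ _ := h2
      _ = ((b : ℝ) - a) * ∑ v ∈ Finset.Ico a b,
          exp (2 * ((1 - α) * (v / H))) * ‖Rb f H v x m‖ ^ 2 := by
          congr 1
          refine Finset.sum_congr rfl fun v _ => ?_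
          rw [mul_pow, ← exp_nat_mul]
          norm_num
  calc ∑ m ∈ (fr M).filter (fun m => ∀ v ∈ Finset.Ico a b,
        ‖Pb f H v m‖ ≤ exp ((1 - α) * (v / H))),
        ‖∑ v ∈ Finset.Ico a b, Pb f H v m * Rb f H v x m‖ ^ 2
      ≤ ∑ m ∈ (fr M).filter (fun m => ∀ v ∈ Finset.Ico a b,
        ‖Pb f H v m‖ ≤ exp ((1 - α) * (v / H))), ((b : ℝ) - a) * ∑ v ∈ Finset.Ico a b,
          exp (2 * ((1 - α) * (v / H))) * ‖Rb f H v x m‖ ^ 2 := Finset.sum_le_sum hcs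
    _ ≤ ∑ m ∈ fr M, ((b : ℝ) - a) * ∑ v ∈ Finset.Ico a b,
          exp (2 * ((1 - α) * (v / H))) * ‖Rb f H v x m‖ ^ 2 := by
        refine Finset.sum_le_sum_of_subset_of_nonneg (Finset.filter_subset _ _) fun m _ _ => ?_
        exact mul_nonneg hba (Finset.sum_nonneg fun v _ => by positivity)
    _ = ((b : ℝ) - a) * ∑ v ∈ Finset.Ico a b,
          exp (2 * ((1 - α) * (v / H))) * ∑ m ∈ fr M, ‖Rb f H v x m‖ ^ 2 := by
        rw [← Finset.mul_sum, Finset.sum_comm]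
        congr 1
        refine Finset.sum_congr rfl fun v _ => ?_
        rw [Finset.mul_sum]
    _ ≤ ((b : ℝ) - a) * ∑ v ∈ Finset.Ico a b, C * exp (-(2 * α) * (a / H)) * x ^ 2 := by
        refine mul_le_mul_of_nonneg_left (Finset.sum_le_sum fun v hv => ?_) hba
        have h1 := hR v hv
        rw [Finset.mem_Ico] at hv
        have hav : (a : ℝ) / H ≤ (v : ℝ) / H := by
          have : (a : ℝ) ≤ v := by exact_mod_cast hv.1
          gcongr
        calc exp (2 * ((1 - α) * (v / H))) * ∑ m ∈ fr M, ‖Rb f H v x m‖ ^ 2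
            ≤ exp (2 * ((1 - α) * (v / H))) * (C * (x * exp (-((v : ℝ) / H))) ^ 2) :=
              mul_le_mul_of_nonneg_left h1 (exp_pos _).le
          _ = C * (exp (2 * ((1 - α) * (v / H))) * exp (-((v : ℝ) / H)) ^ 2) * x ^ 2 := by ring
          _ = C * exp (-(2 * α) * (v / H)) * x ^ 2 := by
              rw [← exp_nat_mul, ← exp_add]
              congr 3
              push_cast
              ring
          _ ≤ C * exp (-(2 * α) * (a / H)) * x ^ 2 := by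
              have h2 : exp (-(2 * α) * (v / H)) ≤ exp (-(2 * α) * (a / H)) := by
                apply exp_le_exp.2
                nlinarith
              have h3 : C * exp (-(2 * α) * (v / H)) ≤ C * exp (-(2 * α) * (a / H)) :=
                mul_le_mul_of_nonneg_left h2 hC.le
              exact mul_le_mul_of_nonneg_right h3 (sq_nonneg x)
    _ = C * ((b : ℝ) - a) ^ 2 * exp (-(2 * α) * (a / H)) * x ^ 2 := by
        rw [Finset.sum_const, nsmul_eq_mul, hcard]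
        ring

end Pool.Agent.NSqP
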