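import Pool.Agent.Lib.NSqP.Mom

/-!
# STJ: the step from one range to the next
For `v ∈ [a,b)`, `v' ∈ [a',b')` put `ℓ = ⌈(v/H)/(v'/H')⌉`, `E = e^(ℓ v'/H')`, so
`e^(v/H) ≤ E ≤ e^(v/H + v'/H')`.  On the set some `v'` has `1 ≤ |P_{v'}| e^(-(1-α')v'/H')`, so
`∑ |R_v|^2 ≤ ∑_{v'} E^(-2(1-α')) ∑_m |P_{v'}|^(2ℓ) |R_v|^2 ≤ ∑_{v'} E^(-2(1-α')) C (2ℓ)! 2 L^2` by
`MOM` with `Y = x e^(-v/H) ≥ 1`, `L = x e^(-v/H) E e^(ℓ/H') ≥ x ≥ M`.
`(2ℓ)! e^(2ℓ) ≤ (2eℓ)^(2ℓ) ≤ e^((α-α') v/H)` by the hypothesis on `log (11 b/H)`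
(`ℓ ≤ 2 (v/H)/(a'/H')`).  Finally multiply by `|P_v|^2 ≤ e^(2(1-α)v/H)` and Cauchy in `v`.
-/

set_option autoImplicit false

namespace Pool.Agent.NSqP

open Real
open Pool.Agent.MP484c84Par (ballG mem_ballG crossG badEdges mem_badEdges CM F)

private lemma stj_fact (l : ℕ) (t s B δ : ℝ) (hs : 1 ≤ s) (hst : s ≤ t)
    (hl : (l : ℝ) ≤ 2 * t / s) (htB : t ≤ B) (h : 4 * log (11 * B) ≤ δ * s) :
    (Nat.factorial (2 * l) : ℝ) * exp (2 * l) ≤ exp (δ * t) := by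
  have ht1 : 1 ≤ t := hs.trans hst
  have hB : 0 < 11 * B := by linarith
  have hs0 : 0 < s := by linarith
  have h1 : (Nat.factorial (2 * l) : ℝ) ≤ ((2 * l : ℕ) : ℝ) ^ (2 * l) := by
    exact_mod_cast Nat.factorial_le_pow (2 * l)
  have h2 : exp (2 * (l : ℝ)) = exp 1 ^ (2 * l) := by
    rw [← Real.exp_nat_mul]; push_cast; ring_nf
  have hlt : (l : ℝ) ≤ 2 * t := by
    refine hl.trans ?_
    rw [div_le_iff₀ hs0]
    nlinarith
  have h3 : ((2 * l : ℕ) : ℝ) * exp 1 ≤ 11 * B := by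
    have he : exp 1 < 2.7182818286 := Real.exp_one_lt_d9
    have he0 : 0 < exp 1 := Real.exp_pos 1
    push_cast
    have h4 : 2 * (l : ℝ) * exp 1 ≤ 2 * (2 * t) * exp 1 := by
      have : (0 : ℝ) ≤ l := Nat.cast_nonneg l
      nlinarith
    nlinarith
  have h4 : (Nat.factorial (2 * l) : ℝ) * exp (2 * l) ≤ (11 * B) ^ (2 * l) := by
    calc (Nat.factorial (2 * l) : ℝ) * exp (2 * l)
        ≤ ((2 * l : ℕ) : ℝ) ^ (2 * l) * exp 1 ^ (2 * l) := by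
          rw [h2]; gcongr
      _ = (((2 * l : ℕ) : ℝ) * exp 1) ^ (2 * l) := by rw [mul_pow]
      _ ≤ (11 * B) ^ (2 * l) := by gcongr
  refine h4.trans ?_
  have h5 : (11 * B) ^ (2 * l) = exp ((2 * l : ℕ) * log (11 * B)) := by
    rw [Real.exp_nat_mul, Real.exp_log hB]
  rw [h5]
  apply Real.exp_le_exp.2
  have hlog0 : 0 ≤ log (11 * B) := Real.log_nonneg (by linarith)
  push_cast
  calc 2 * (l : ℝ) * log (11 * B) ≤ 2 * (2 * t / s) * log (11 * B) := by gcongr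
    _ = (t / s) * (4 * log (11 * B)) := by ring
    _ ≤ (t / s) * (δ * s) := by
        have : 0 ≤ t / s := by positivity
        gcongr
    _ = δ * t := by field_simp

/-- the estimate for one pair `(v, v')` -/
private lemma stj_pair {C : ℝ} (hC : 0 < C) (f : GaussianInt → ℂ) (hf : CMC f)
    (hM : ∀ (H v M ℓ : ℕ) (Y : ℝ)
    (S : Finset GaussianInt) (r : GaussianInt → ℂ), 1 ≤ H → 1 ≤ Y →
    (∀ w ∈ S, Prim w ∧ (nN w : ℝ) ≤ Y ∧ ‖r w‖ ≤ 1) →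
    ∑ m ∈ fr M, ‖Pb f H v m‖ ^ (2 * ℓ) * ‖∑ w ∈ S, r w * xi w ^ m‖ ^ 2 ≤
      C * (Nat.factorial (2 * ℓ) : ℝ) * (M + Y * exp (ℓ * (((v : ℝ) + 1) / H))) *
        (Y * exp (ℓ * (((v : ℝ) + 1) / H))))
    (H' a' b' H a b M : ℕ) (x α' α : ℝ) (hH' : 1 ≤ H') (hH : 1 ≤ H)
    (hα' : 0 < α') (hαα : α' < α) (hHa' : H' ≤ a')
    (haa : (a' : ℝ) / H' ≤ (a : ℝ) / H)
    (hlog : 4 * log (11 * ((b : ℝ) / H)) ≤ (α - α') * ((a' : ℝ) / H'))
    (hbx : exp ((b : ℝ) / H) ≤ x) (hMx : (M : ℝ) ≤ x)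
    (v v' : ℕ) (hv : v ∈ Finset.Ico a b) (hv' : v' ∈ Finset.Ico a' b') :
    exp (2 * ((1 - α) * (v / H))) *
      ∑ m ∈ fr M, (‖Pb f H' v' m‖ * exp (-((1 - α') * (v' / H')))) ^
        (2 * ⌈((v : ℝ) / H) / ((v' : ℝ) / H')⌉₊) * ‖Rb f H v x m‖ ^ 2 ≤
    2 * C * exp (2 * α' * (b' / H') - (α - α') * (a / H)) * x ^ 2 := by
  rw [Finset.mem_Ico] at hv hv'
  set l := ⌈((v : ℝ) / H) / ((v' : ℝ) / H')⌉₊ with hl
  have hH0 : (0 : ℝ) < H := by exact_mod_cast hH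
  have hH0' : (0 : ℝ) < H' := by exact_mod_cast hH'
  set t : ℝ := (v : ℝ) / H with ht
  set u : ℝ := (v' : ℝ) / H' with hu
  set s : ℝ := (a' : ℝ) / H' with hs
  have hs1 : 1 ≤ s := by
    rw [hs, le_div_iff₀ hH0', one_mul]; exact_mod_cast hHa'
  have hsu : s ≤ u := by
    rw [hs, hu]; gcongr; exact_mod_cast hv'.1
  have hat : (a : ℝ) / H ≤ t := by
    rw [ht]; gcongr; exact_mod_cast hv.1
  have hst : s ≤ t := haa.trans hat
  have htb : t ≤ (b : ℝ) / H := by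
    rw [ht]; gcongr; exact_mod_cast hv.2.le
  have hub : u ≤ (b' : ℝ) / H' := by
    rw [hu]; gcongr; exact_mod_cast hv'.2.le
  have hu0 : 0 < u := by linarith
  have ht0 : 0 < t := by linarith
  have hx0 : 0 < x := (Real.exp_pos _).trans_le hbx
  -- bounds on l
  have hl1 : t ≤ l * u := by
    have := Nat.le_ceil (t / u)
    rw [div_le_iff₀ hu0] at this
    exact this
  have hl2 : (l : ℝ) * u ≤ t + u := by
    have := (Nat.ceil_lt_add_one (a := t / u) (by positivity)).le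
    calc (l : ℝ) * u ≤ (t / u + 1) * u := by gcongr
      _ = t + u := by field_simp
  have hl3 : (l : ℝ) ≤ 2 * t / s := by
    have h1 := (Nat.ceil_lt_add_one (a := t / u) (by positivity)).le
    have h2 : t / u ≤ t / s := by gcongr
    have h3 : 1 ≤ t / s := by rw [le_div_iff₀ (by linarith)]; linarith
    calc (l : ℝ) ≤ t / u + 1 := h1
      _ ≤ t / s + t / s := by linarith
      _ = 2 * t / s := by ring
  have hfac := stj_fact l t s ((b : ℝ) / H) (α - α') hs1 hst hl3 htb hlog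
  -- the moment bound
  set Y : ℝ := x * exp (-t) with hY
  have hY1 : 1 ≤ Y := by
    have : exp t ≤ x := (Real.exp_le_exp.2 htb).trans hbx
    calc (1 : ℝ) = exp t * exp (-t) := by rw [← Real.exp_add]; simp
      _ ≤ x * exp (-t) := by gcongr
  have hmom := hM H' v' M l Y (Wset H v x) f hH' hY1 (by
    intro w hw
    rw [mem_Wset hx0.le] at hw
    exact ⟨hw.1.2, hw.1.1.2, hf.le w (prim_ne_zero hw.1.2)⟩)
  set L : ℝ := Y * exp (l * (((v' : ℝ) + 1) / H')) with hL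
  have hLx : x ≤ L := by
    have h1 : t ≤ l * (((v' : ℝ) + 1) / H') := by
      refine hl1.trans ?_
      have : u ≤ ((v' : ℝ) + 1) / H' := by rw [hu]; gcongr; linarith
      gcongr
    calc x = x * exp (-t) * exp t := by rw [mul_assoc, ← Real.exp_add]; simp
      _ ≤ Y * exp (l * (((v' : ℝ) + 1) / H')) := by rw [hY]; gcongr
  have hL0 : 0 < L := hx0.trans_le hLx
  have hL2 : L ≤ x * exp (-t) * exp (l * u) * exp l := by
    rw [hL, hY, mul_assoc, mul_assoc, mul_assoc, ← Real.exp_add (l * u)]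
    gcongr
    have : ((v' : ℝ) + 1) / H' ≤ u + 1 := by
      rw [hu, add_div]
      have : (1 : ℝ) / H' ≤ 1 := by
        rw [div_le_one hH0']; exact_mod_cast hH'
      linarith
    calc (l : ℝ) * (((v' : ℝ) + 1) / H') ≤ l * (u + 1) := by gcongr
      _ = l * u + l := by ring
  -- rewrite the sum
  have hsum : ∑ m ∈ fr M, (‖Pb f H' v' m‖ * exp (-((1 - α') * u))) ^ (2 * l) *
      ‖Rb f H v x m‖ ^ 2 = exp (-(2 * (1 - α') * (l * u))) *
      ∑ m ∈ fr M, ‖Pb f H' v' m‖ ^ (2 * l) * ‖∑ w ∈ Wset H v x, f w * xi w ^ m‖ ^ 2 := by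
    rw [Finset.mul_sum]
    refine Finset.sum_congr rfl fun m _ => ?_
    rw [mul_pow, ← Real.exp_nat_mul]
    have : ((2 * l : ℕ) : ℝ) * -((1 - α') * u) = -(2 * (1 - α') * (l * u)) := by
      push_cast; ring
    rw [this]
    unfold Rb
    ring
  rw [hsum]
  have hmom2 : ∑ m ∈ fr M, ‖Pb f H' v' m‖ ^ (2 * l) * ‖∑ w ∈ Wset H v x, f w * xi w ^ m‖ ^ 2 ≤
      2 * C * (Nat.factorial (2 * l) : ℝ) * (x * exp (-t) * exp (l * u) * exp l) ^ 2 := by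
    refine hmom.trans ?_
    have h1 : (M : ℝ) + L ≤ 2 * L := by linarith
    calc C * (Nat.factorial (2 * l) : ℝ) * (M + L) * L
        ≤ C * (Nat.factorial (2 * l) : ℝ) * (2 * L) * L := by gcongr
      _ = 2 * C * (Nat.factorial (2 * l) : ℝ) * L ^ 2 := by ring
      _ ≤ _ := by gcongr
  calc exp (2 * ((1 - α) * t)) * (exp (-(2 * (1 - α') * (l * u))) *
      ∑ m ∈ fr M, ‖Pb f H' v' m‖ ^ (2 * l) * ‖∑ w ∈ Wset H v x, f w * xi w ^ m‖ ^ 2)
      ≤ exp (2 * ((1 - α) * t)) * (exp (-(2 * (1 - α') * (l * u))) *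
        (2 * C * (Nat.factorial (2 * l) : ℝ) * (x * exp (-t) * exp (l * u) * exp l) ^ 2)) := by
        gcongr
    _ = 2 * C * x ^ 2 * ((Nat.factorial (2 * l) : ℝ) * exp (2 * l)) *
        exp (2 * ((1 - α) * t) + -(2 * (1 - α') * (l * u)) + 2 * (-t) + 2 * (l * u)) := by
        have e1 : exp (2 * (l : ℝ)) = exp l ^ 2 := by
          rw [← Real.exp_nat_mul]; norm_num
        have e2 : exp (2 * (-t)) = exp (-t) ^ 2 := by
          rw [← Real.exp_nat_mul]; norm_num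
        have e3 : exp (2 * ((l : ℝ) * u)) = exp (l * u) ^ 2 := by
          rw [← Real.exp_nat_mul]; norm_num
        rw [Real.exp_add, Real.exp_add, Real.exp_add, e1, e2, e3]
        ring
    _ ≤ 2 * C * x ^ 2 * exp ((α - α') * t) *
        exp (2 * ((1 - α) * t) + -(2 * (1 - α') * (l * u)) + 2 * (-t) + 2 * (l * u)) := by
        gcongr
    _ = 2 * C * x ^ 2 * exp ((α - α') * t + (-(2 * α * t) + 2 * α' * (l * u))) := by
        rw [mul_assoc, ← Real.exp_add]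
        congr 2
        ring
    _ ≤ 2 * C * x ^ 2 * exp (2 * α' * (b' / H') - (α - α') * (a / H)) := by
        gcongr
        have h1 : 2 * α' * (l * u) ≤ 2 * α' * (t + u) := by gcongr
        have h2 : 2 * α' * u ≤ 2 * α' * ((b' : ℝ) / H') := by gcongr
        have h3 : (α - α') * ((a : ℝ) / H) ≤ (α - α') * t := by
          have : 0 ≤ α - α' := by linarith
          gcongr
        linarith
    _ = _ := by ring

open Classical in
theorem STJ : ∃ C : ℝ, 0 < C ∧ ∀ f : GaussianInt → ℂ, CMC f → ∀ (H' a' b' H a b M : ℕ)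
    (x α' α : ℝ), 1 ≤ H' → 1 ≤ H → a' < b' → a < b → 0 < α' → α' < α → α ≤ 1 / 2 → H' ≤ a' →
    (a' : ℝ) / H' ≤ (a : ℝ) / H → 4 * log (11 * ((b : ℝ) / H)) ≤ (α - α') * ((a' : ℝ) / H') →
    exp ((b : ℝ) / H) ≤ x → (M : ℝ) ≤ x →
    ∑ m ∈ (fr M).filter (fun m =>
        (∃ v ∈ Finset.Ico a' b', exp ((1 - α') * (v / H')) < ‖Pb f H' v m‖) ∧
        ∀ v ∈ Finset.Ico a b, ‖Pb f H v m‖ ≤ exp ((1 - α) * (v / H))),
        ‖∑ v ∈ Finset.Ico a b, Pb f H v m * Rb f H v x m‖ ^ 2 ≤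
      C * ((b : ℝ) - a) ^ 2 * ((b' : ℝ) - a') *
        exp (2 * α' * (b' / H') - (α - α') * (a / H)) * x ^ 2 := by
  obtain ⟨C, hC, hM⟩ := MOM
  refine ⟨2 * C, by positivity, ?_⟩
  intro f hf H' a' b' H a b M x α' α hH' hH hab' hab hα' hαα hα hHa' haa hlog hbx hMx
  have hpair := stj_pair hC f hf (hM f hf) H' a' b' H a b M x α' α hH' hH hα' hαα hHa' haa hlog
    hbx hMx
  set G := (fr M).filter (fun m =>
        (∃ v ∈ Finset.Ico a' b', exp ((1 - α') * (v / H')) < ‖Pb f H' v m‖) ∧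
        ∀ v ∈ Finset.Ico a b, ‖Pb f H v m‖ ≤ exp ((1 - α) * (v / H))) with hG
  set D : ℝ := 2 * C * exp (2 * α' * (b' / H') - (α - α') * (a / H)) * x ^ 2 with hD
  have hcard : ((Finset.Ico a b).card : ℝ) = (b : ℝ) - a := by
    rw [Nat.card_Ico, Nat.cast_sub hab.le]
  have hcard' : ((Finset.Ico a' b').card : ℝ) = (b' : ℝ) - a' := by
    rw [Nat.card_Ico, Nat.cast_sub hab'.le]
  have hba : (0 : ℝ) ≤ (b : ℝ) - a := by rw [← hcard]; positivity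
  -- pointwise Cauchy
  have hpt : ∀ m ∈ G, ‖∑ v ∈ Finset.Ico a b, Pb f H v m * Rb f H v x m‖ ^ 2 ≤
      ((b : ℝ) - a) * ∑ v ∈ Finset.Ico a b,
        exp (2 * ((1 - α) * (v / H))) * ‖Rb f H v x m‖ ^ 2 := by
    intro m hm
    rw [hG, Finset.mem_filter] at hm
    calc ‖∑ v ∈ Finset.Ico a b, Pb f H v m * Rb f H v x m‖ ^ 2
        ≤ (∑ v ∈ Finset.Ico a b, ‖Pb f H v m * Rb f H v x m‖) ^ 2 := by
          gcongr; exact norm_sum_le _ _
      _ ≤ (Finset.Ico a b).card * ∑ v ∈ Finset.Ico a b, ‖Pb f H v m * Rb f H v x m‖ ^ 2 :=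
          sq_sum_le_card_mul_sum_sq
      _ ≤ ((b : ℝ) - a) * ∑ v ∈ Finset.Ico a b,
        exp (2 * ((1 - α) * (v / H))) * ‖Rb f H v x m‖ ^ 2 := by
          rw [hcard]
          gcongr with v hv
          rw [norm_mul, mul_pow]
          have h1 := hm.2.2 v hv
          have h2 : exp (2 * ((1 - α) * ((v : ℝ) / H))) = exp ((1 - α) * (v / H)) ^ 2 := by
            rw [← Real.exp_nat_mul]; norm_num
          rw [h2]
          gcongr
  -- the sum over `m` for one `v`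
  have hRv : ∀ v ∈ Finset.Ico a b, ∑ m ∈ G, ‖Rb f H v x m‖ ^ 2 ≤
      ∑ v' ∈ Finset.Ico a' b', ∑ m ∈ fr M,
        (‖Pb f H' v' m‖ * exp (-((1 - α') * (v' / H')))) ^
        (2 * ⌈((v : ℝ) / H) / ((v' : ℝ) / H')⌉₊) * ‖Rb f H v x m‖ ^ 2 := by
    intro v hv
    rw [Finset.sum_comm]
    have h1 : ∑ m ∈ G, ‖Rb f H v x m‖ ^ 2 ≤ ∑ m ∈ G, ∑ v' ∈ Finset.Ico a' b',
        (‖Pb f H' v' m‖ * exp (-((1 - α') * (v' / H')))) ^
        (2 * ⌈((v : ℝ) / H) / ((v' : ℝ) / H')⌉₊) * ‖Rb f H v x m‖ ^ 2 := by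
      refine Finset.sum_le_sum fun m hm => ?_
      rw [hG, Finset.mem_filter] at hm
      obtain ⟨v', hv', hlt⟩ := hm.2.1
      have h2 : (1 : ℝ) ≤ ‖Pb f H' v' m‖ * exp (-((1 - α') * ((v' : ℝ) / H'))) := by
        calc (1 : ℝ) = exp ((1 - α') * ((v' : ℝ) / H')) * exp (-((1 - α') * ((v' : ℝ) / H'))) := by
              rw [← Real.exp_add]; simp
          _ ≤ _ := by gcongr
      have h3 : (1 : ℝ) ≤ (‖Pb f H' v' m‖ * exp (-((1 - α') * ((v' : ℝ) / H')))) ^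
        (2 * ⌈((v : ℝ) / H) / ((v' : ℝ) / H')⌉₊) := one_le_pow₀ h2
      calc ‖Rb f H v x m‖ ^ 2 = 1 * ‖Rb f H v x m‖ ^ 2 := (one_mul _).symm
        _ ≤ (‖Pb f H' v' m‖ * exp (-((1 - α') * ((v' : ℝ) / H')))) ^
        (2 * ⌈((v : ℝ) / H) / ((v' : ℝ) / H')⌉₊) * ‖Rb f H v x m‖ ^ 2 := by gcongr
        _ ≤ _ := Finset.single_le_sum (f := fun v' : ℕ =>
            (‖Pb f H' v' m‖ * exp (-((1 - α') * ((v' : ℝ) / H')))) ^
            (2 * ⌈((v : ℝ) / H) / ((v' : ℝ) / H')⌉₊) * ‖Rb f H v x m‖ ^ 2)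
            (fun i _ => by positivity) hv'
    refine h1.trans ?_
    refine Finset.sum_le_sum_of_subset_of_nonneg (Finset.filter_subset _ _) ?_
    intro m _ _
    exact Finset.sum_nonneg fun i _ => by positivity
  calc ∑ m ∈ G, ‖∑ v ∈ Finset.Ico a b, Pb f H v m * Rb f H v x m‖ ^ 2
      ≤ ∑ m ∈ G, ((b : ℝ) - a) * ∑ v ∈ Finset.Ico a b,
        exp (2 * ((1 - α) * (v / H))) * ‖Rb f H v x m‖ ^ 2 := Finset.sum_le_sum hpt
    _ = ((b : ℝ) - a) * ∑ v ∈ Finset.Ico a b,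
        exp (2 * ((1 - α) * (v / H))) * ∑ m ∈ G, ‖Rb f H v x m‖ ^ 2 := by
        rw [← Finset.mul_sum, Finset.sum_comm]
        congr 1
        refine Finset.sum_congr rfl fun v _ => ?_
        rw [Finset.mul_sum]
    _ ≤ ((b : ℝ) - a) * ∑ v ∈ Finset.Ico a b, ∑ v' ∈ Finset.Ico a' b', D := by
        gcongr with v hv
        refine (mul_le_mul_of_nonneg_left (hRv v hv) (Real.exp_pos _).le).trans ?_
        rw [Finset.mul_sum]
        exact Finset.sum_le_sum fun v' hv' => hpair v v' hv hv'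
    _ = ((b : ℝ) - a) * (((b : ℝ) - a) * (((b' : ℝ) - a') * D)) := by
        rw [Finset.sum_const, Finset.sum_const, nsmul_eq_mul, nsmul_eq_mul, hcard, hcard']
    _ = _ := by rw [hD]; ring

end Pool.Agent.NSqP
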