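import Pool.Agent.Lib.NSqP.Mom

/-!
# UB: the exceptional set is small
For `v ∈ [a,b)` put `ℓ = ⌈log x / (v/H)⌉ ≤ log x/(a/H) + 1`, `E = e^(ℓ v/H) ∈ [x, x e^(v/H)]`.
`#{m : |P_v| > e^((1-α)v/H)} ≤ E^(-2(1-α)) ∑ |P_v|^(2ℓ) ≤ E^(-2(1-α)) C (2ℓ)! 2 L^2` by `MOM` with
`S = {1}`, `Y = 1`, `L = E e^(ℓ/H) ≥ x ≥ M`; `(2ℓ)! e^(2ℓ) ≤ (2eℓ)^(2ℓ)`, `2e < 6`.
-/

set_option autoImplicit false

namespace Pool.Agent.NSqP

open Real
open Pool.Agent.MP484c84Par (ballG mem_ballG crossG badEdges mem_badEdges CM F)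

/-- `(2ℓ)! e^(2ℓ) ≤ exp (2ℓ log (6ℓ))` -/
private lemma fact_exp_le (ℓ : ℕ) (hℓ : 1 ≤ ℓ) :
    (Nat.factorial (2 * ℓ) : ℝ) * exp (2 * ℓ) ≤ exp (2 * ℓ * log (6 * ℓ)) := by
  have hℓ0 : (0 : ℝ) < ℓ := by exact_mod_cast hℓ
  have h1 : (Nat.factorial (2 * ℓ) : ℝ) ≤ ((2 * ℓ : ℕ) : ℝ) ^ (2 * ℓ) := by
    exact_mod_cast Nat.factorial_le_pow (2 * ℓ)
  have h2 : exp (2 * (ℓ : ℝ)) = exp 1 ^ (2 * ℓ) := by
    rw [← exp_nat_mul]; push_cast; ring_nf
  have h3 : exp (2 * (ℓ : ℝ) * log (6 * ℓ)) = (6 * (ℓ : ℝ)) ^ (2 * ℓ) := by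
    rw [mul_comm, exp_mul, exp_log (by positivity)]
    rw [show (2 * (ℓ : ℝ)) = ((2 * ℓ : ℕ) : ℝ) by push_cast; ring, rpow_natCast]
  rw [h2, h3]
  calc (Nat.factorial (2 * ℓ) : ℝ) * exp 1 ^ (2 * ℓ)
      ≤ ((2 * ℓ : ℕ) : ℝ) ^ (2 * ℓ) * exp 1 ^ (2 * ℓ) := by gcongr
    _ = (((2 * ℓ : ℕ) : ℝ) * exp 1) ^ (2 * ℓ) := by rw [mul_pow]
    _ ≤ (6 * (ℓ : ℝ)) ^ (2 * ℓ) := by
        have h5 := exp_one_lt_d9
        refine pow_le_pow_left₀ (by positivity) ?_ _
        push_cast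
        nlinarith

open Classical in
theorem UB : ∃ C : ℝ, 0 < C ∧ ∀ f : GaussianInt → ℂ, CMC f → ∀ (H a b M : ℕ) (x α : ℝ), 1 ≤ H →
    a < b → 0 < α → α ≤ 1 / 2 → H ≤ a → exp ((b : ℝ) / H) ≤ x → (M : ℝ) ≤ x →
    (((fr M).filter (fun m =>
        ∃ v ∈ Finset.Ico a b, exp ((1 - α) * (v / H)) < ‖Pb f H v m‖)).card : ℝ) ≤
      C * ((b : ℝ) - a) * exp (2 * α * (log x + b / H) +
        2 * (log x / (a / H) + 1) * log (6 * (log x + 1))) := by
  obtain ⟨C, hC, hM⟩ := MOM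
  refine ⟨2 * C, by positivity, fun f hf H a b M x α hH hab hα hα2 hHa hx hMx => ?_⟩
  have hH0 : (0 : ℝ) < H := by exact_mod_cast hH
  have haH : 1 ≤ (a : ℝ) / H := by
    rw [le_div_iff₀ hH0, one_mul]
    exact_mod_cast hHa
  have hx0 : 0 < x := (exp_pos _).trans_le hx
  have hlogx : (b : ℝ) / H ≤ log x := (le_log_iff_exp_le hx0).2 hx
  have hlog1 : 0 < log x := by
    have : (a : ℝ) / H ≤ (b : ℝ) / H := by
      have : (a : ℝ) ≤ b := by exact_mod_cast hab.le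
      gcongr
    linarith
  set T : ℝ := 2 * α * (log x + b / H) + 2 * (log x / (a / H) + 1) * log (6 * (log x + 1))
    with hT
  have key : ∀ v ∈ Finset.Ico a b,
      (((fr M).filter (fun m => exp ((1 - α) * (v / H)) < ‖Pb f H v m‖)).card : ℝ) ≤
        2 * C * exp T := by
    intro v hv
    rw [Finset.mem_Ico] at hv
    have hav : (a : ℝ) / H ≤ (v : ℝ) / H := by
      have : (a : ℝ) ≤ v := by exact_mod_cast hv.1
      gcongr
    have hvb : (v : ℝ) / H ≤ (b : ℝ) / H := by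
      have : (v : ℝ) ≤ b := by exact_mod_cast hv.2.le
      gcongr
    set t : ℝ := (v : ℝ) / H with ht
    have ht1 : 1 ≤ t := haH.trans hav
    have ht0 : 0 < t := by linarith
    set ℓ : ℕ := ⌈log x / t⌉₊ with hℓ
    have hℓ1 : 1 ≤ ℓ := Nat.one_le_iff_ne_zero.2 (by
      have : 0 < ℓ := Nat.ceil_pos.2 (by positivity)
      omega)
    have hℓlow : log x ≤ ℓ * t := by
      have := Nat.le_ceil (log x / t)
      rwa [div_le_iff₀ ht0] at this
    have hℓup : (ℓ : ℝ) < log x / t + 1 := Nat.ceil_lt_add_one (by positivity)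
    have hℓt : (ℓ : ℝ) * t ≤ log x + b / H := by
      have h1 : (ℓ : ℝ) * t ≤ (log x / t + 1) * t := by gcongr
      rw [add_mul, div_mul_cancel₀ _ ht0.ne', one_mul] at h1
      linarith
    have hℓa : (ℓ : ℝ) ≤ log x / (a / H) + 1 := by
      have : log x / t ≤ log x / (a / H) := by gcongr
      linarith
    have hℓx : (ℓ : ℝ) ≤ log x + 1 := by
      have : log x / t ≤ log x := div_le_self hlog1.le ht1
      linarith
    -- the moment
    have hmom := hM f hf H v M ℓ 1 {1} (fun _ => 1) hH le_rfl (by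
      intro w hw
      rw [Finset.mem_singleton] at hw
      subst hw
      refine ⟨by simp [Prim, cont], by rw [nN_one]; simp, by simp⟩)
    have hone : ∀ m : ℤ, ‖∑ w ∈ ({1} : Finset GaussianInt), xi w ^ m‖ ^ 2 = 1 := by
      intro m
      rw [Finset.sum_singleton, norm_xi_zpow one_ne_zero, one_pow]
    simp only [one_mul, hone, mul_one] at hmom
    set L : ℝ := exp (ℓ * (((v : ℝ) + 1) / H)) with hL
    have hLE : L ≤ exp (ℓ * t) * exp ℓ := by
      rw [hL, ← exp_add, exp_le_exp, ht]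
      have h1 : (ℓ : ℝ) * (((v : ℝ) + 1) / H) = ℓ * (v / H) + ℓ * (1 / H) := by ring
      rw [h1]
      have h2 : (1 : ℝ) / H ≤ 1 := by
        rw [div_le_one hH0]; exact_mod_cast hH
      nlinarith
    have hLx : x ≤ L := by
      have h1 : x = exp (log x) := (exp_log hx0).symm
      rw [h1, hL, exp_le_exp]
      refine hℓlow.trans ?_
      rw [ht]
      gcongr
      linarith
    -- Markov
    set s := (fr M).filter (fun m => exp ((1 - α) * t) < ‖Pb f H v m‖) with hs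
    have hmar : (s.card : ℝ) * exp (2 * ℓ * ((1 - α) * t)) ≤
        ∑ m ∈ fr M, ‖Pb f H v m‖ ^ (2 * ℓ) := by
      calc (s.card : ℝ) * exp (2 * ℓ * ((1 - α) * t))
          = ∑ _m ∈ s, exp (2 * ℓ * ((1 - α) * t)) := by
            rw [Finset.sum_const, nsmul_eq_mul]
        _ ≤ ∑ m ∈ s, ‖Pb f H v m‖ ^ (2 * ℓ) := by
            refine Finset.sum_le_sum fun m hm => ?_
            rw [hs, Finset.mem_filter] at hm
            have h1 : exp (2 * ℓ * ((1 - α) * t)) = exp ((1 - α) * t) ^ (2 * ℓ) := by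
              rw [← exp_nat_mul]; push_cast; ring_nf
            rw [h1]
            exact pow_le_pow_left₀ (exp_pos _).le hm.2.le _
        _ ≤ _ := Finset.sum_le_sum_of_subset_of_nonneg (Finset.filter_subset _ _)
            fun m _ _ => by positivity
    have hbig : ∑ m ∈ fr M, ‖Pb f H v m‖ ^ (2 * ℓ) ≤
        2 * C * ((Nat.factorial (2 * ℓ) : ℝ) * exp (2 * ℓ)) * exp (2 * (ℓ * t)) := by
      calc ∑ m ∈ fr M, ‖Pb f H v m‖ ^ (2 * ℓ)
          ≤ C * (Nat.factorial (2 * ℓ) : ℝ) * (M + L) * L := hmom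
        _ ≤ C * (Nat.factorial (2 * ℓ) : ℝ) * (L + L) * L := by
            have := hMx.trans hLx
            gcongr
        _ = 2 * C * (Nat.factorial (2 * ℓ) : ℝ) * (L * L) := by ring
        _ ≤ 2 * C * (Nat.factorial (2 * ℓ) : ℝ) *
            ((exp (ℓ * t) * exp ℓ) * (exp (ℓ * t) * exp ℓ)) := by gcongr
        _ = _ := by
            rw [show (2 * (ℓ : ℝ)) = ℓ + ℓ by ring, exp_add,
              show (2 * ((ℓ : ℝ) * t)) = ℓ * t + ℓ * t by ring, exp_add]
            ring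
    have hfin : (s.card : ℝ) * exp (2 * ℓ * ((1 - α) * t)) ≤
        (2 * C * exp T) * exp (2 * ℓ * ((1 - α) * t)) := by
      refine (hmar.trans hbig).trans ?_
      have h1 := fact_exp_le ℓ hℓ1
      have h2 : exp (2 * ℓ * log (6 * ℓ)) ≤
          exp (2 * (log x / (a / H) + 1) * log (6 * (log x + 1))) := by
        rw [exp_le_exp]
        have hℓ1' : (1 : ℝ) ≤ ℓ := by exact_mod_cast hℓ1
        have h3 : log (6 * ℓ) ≤ log (6 * (log x + 1)) := by
          apply log_le_log (by positivity)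
          linarith
        have h4 : 0 ≤ log (6 * (ℓ : ℝ)) := log_nonneg (by linarith)
        have h5 : (2 * (ℓ : ℝ)) ≤ 2 * (log x / (a / H) + 1) := by linarith
        calc 2 * (ℓ : ℝ) * log (6 * ℓ) ≤ 2 * ℓ * log (6 * (log x + 1)) := by gcongr
          _ ≤ _ := by
            have : 0 ≤ log (6 * (log x + 1)) := h4.trans h3
            gcongr
      have h6 : exp (2 * (ℓ * t)) ≤ exp (2 * α * (log x + b / H)) *
          exp (2 * ℓ * ((1 - α) * t)) := by
        rw [← exp_add, exp_le_exp]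
        nlinarith
      calc 2 * C * ((Nat.factorial (2 * ℓ) : ℝ) * exp (2 * ℓ)) * exp (2 * (ℓ * t))
          ≤ 2 * C * exp (2 * (log x / (a / H) + 1) * log (6 * (log x + 1))) *
            (exp (2 * α * (log x + b / H)) * exp (2 * ℓ * ((1 - α) * t))) := by
            have := h1.trans h2
            gcongr
        _ = _ := by
            rw [hT, exp_add]
            ring
    exact le_of_mul_le_mul_right hfin (exp_pos _)
  calc (((fr M).filter (fun m =>
        ∃ v ∈ Finset.Ico a b, exp ((1 - α) * (v / H)) < ‖Pb f H v m‖)).card : ℝ)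
      ≤ (((Finset.Ico a b).biUnion fun v =>
          (fr M).filter (fun m => exp ((1 - α) * (v / H)) < ‖Pb f H v m‖)).card : ℝ) := by
        gcongr
        intro m hm
        rw [Finset.mem_filter] at hm
        obtain ⟨hm1, v, hv, hm2⟩ := hm
        rw [Finset.mem_biUnion]
        exact ⟨v, hv, Finset.mem_filter.2 ⟨hm1, hm2⟩⟩
    _ ≤ ∑ v ∈ Finset.Ico a b,
          (((fr M).filter (fun m => exp ((1 - α) * (v / H)) < ‖Pb f H v m‖)).card : ℝ) := by
        exact_mod_cast Finset.card_biUnion_le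
    _ ≤ ∑ _v ∈ Finset.Ico a b, 2 * C * exp T := Finset.sum_le_sum key
    _ = 2 * C * ((b : ℝ) - a) * exp T := by
        rw [Finset.sum_const, Nat.card_Ico, nsmul_eq_mul, Nat.cast_sub hab.le]
        ring

end Pool.Agent.NSqP
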