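import Pool.Agent.Lib.NSqP.Dec
import Pool.Agent.Lib.NSqP.St1
import Pool.Agent.Lib.NSqP.StJ
import Pool.Agent.Lib.NSqP.Ub
import Pool.Agent.Lib.NSqP.Par
import Pool.Agent.Lib.NSqP.Mer

/-!
# MRT: Matomaki-Radziwill theorem for narrow sectors, in the frequency form
Take the sequences of `PAR` for `(κ, ε', P0)`, `P0 ≥ 2C` (`C` of `WR_lower`), `A ≥ e^(b_0/H_0)`.
For large `x` let `J ≥ 1` be the first index with `a_J/H_J ≥ (16/κ) log log x`; then
`b_j/H_j ≤ (log x)^(1/2)` for `1 ≤ j ≤ J`, so `e^(8 b_j/H_j) ≤ x`; `W_j ≥ ½ log (b_j/a_j) ≥ 1`.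
`U` = set of `UB` for the range `J`.  For `m ∉ U` let `j ≤ J` be minimal with
`|P_v(m)| ≤ e^((1-α_j)v/H_j)` for all `v` of range `j`; `‖Z‖^2 ≤ 2‖E_j‖^2 + 2‖(1/W_j)∑ P R‖^2`,
sum with `DEC`, `ST1` (`j = 0`), `STJ` (`j ≥ 1`, ranges `j-1, j`).
-/

set_option autoImplicit false

namespace Pool.Agent.NSqP

open Real
open Pool.Agent.MP484c84Par (ballG mem_ballG crossG badEdges mem_badEdges CM F)

/-- the conditions on `y = log x` -/
private lemma large_y (κ A0 B0 CU : ℝ) (hκ : 0 < κ) : ∀ᶠ y : ℝ in Filter.atTop,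
    64 ≤ y ∧ A0 ≤ 16 / κ * log y ∧ B0 ≤ sqrt y ∧ log (6 * (y + 1)) ≤ 2 * log y ∧
      CU + 2 * sqrt y + 5 * log y ≤ κ / 2 * y := by
  have h1 : ∀ᶠ y : ℝ in Filter.atTop, 64 ≤ y := Filter.eventually_ge_atTop 64
  have h2 : ∀ᶠ y : ℝ in Filter.atTop, A0 / (16 / κ) ≤ log y :=
    tendsto_log_atTop.eventually_ge_atTop _
  have h3 : ∀ᶠ y : ℝ in Filter.atTop, max B0 (16 / κ) ≤ sqrt y :=
    tendsto_sqrt_atTop.eventually_ge_atTop _
  have h4 : ∀ᶠ y : ℝ in Filter.atTop, ‖log y‖ ≤ κ / 40 * ‖y‖ :=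
    isLittleO_log_id_atTop.bound (by positivity)
  have h5 : ∀ᶠ y : ℝ in Filter.atTop, CU / (κ / 8) ≤ y := Filter.eventually_ge_atTop _
  filter_upwards [h1, h2, h3, h4, h5] with y h1 h2 h3 h4 h5
  have hy : 0 < y := by linarith
  refine ⟨h1, ?_, (le_max_left _ _).trans h3, ?_, ?_⟩
  · rw [div_le_iff₀ (by positivity)] at h2
    linarith
  · have h6 : (2 : ℝ) * log y = log (y ^ 2) := by rw [log_pow]; push_cast; ring
    rw [h6]
    apply log_le_log (by positivity)
    nlinarith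
  · rw [div_le_iff₀ (by positivity)] at h5
    have h6 : 16 / κ ≤ sqrt y := (le_max_right _ _).trans h3
    have h7 : 16 ≤ sqrt y * κ := by rwa [div_le_iff₀ hκ] at h6
    have h8 : sqrt y * sqrt y = y := mul_self_sqrt hy.le
    have h9 : log y ≤ κ / 40 * y := by
      rw [norm_of_nonneg hy.le] at h4
      exact (le_abs_self _).trans h4
    have h10 : 16 * sqrt y ≤ κ * y := by
      have := mul_le_mul_of_nonneg_right h7 (sqrt_nonneg y)
      nlinarith
    have h11 : 0 < κ * y := by positivity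
    linarith

theorem MRT (κ ε : ℝ) (hκ : 0 < κ) (hκ1 : κ ≤ 1) (hε : 0 < ε) :
    ∃ A : ℕ, 1 ≤ A ∧ ∃ x0 : ℝ, ∀ x : ℝ, x0 ≤ x → ∀ f : GaussianInt → ℂ, CMC f →
      ∃ U : Finset ℤ, U ⊆ fr ⌊x / A⌋₊ ∧ (U.card : ℝ) ≤ x ^ κ ∧
        ∑ m ∈ fr ⌊x / A⌋₊ \ U, ‖Zs f (x / 2) x m‖ ^ 2 ≤ ε * x ^ 2 := by
  classical
  obtain ⟨CD, hCD, hDEC⟩ := DEC
  obtain ⟨C1, hC1, hST1⟩ := ST1
  obtain ⟨CJ, hCJ, hSTJ⟩ := STJ
  obtain ⟨CU, hCU, hUB⟩ := UB
  obtain ⟨CW, hCW, hWR⟩ := WR_lower
  set ε' : ℝ := ε / (4 * CD + 2 * C1 + 2 * CJ) with hε'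
  have hε'0 : 0 < ε' := by positivity
  obtain ⟨H, a, b, α, hH, hab, hP, hHe, hα, hαm, haH, hlog, htend, hlog2, hsum1, hsum2, hsum3⟩ :=
    PAR κ ε' (max 1 CW) hκ hκ1 hε'0 (le_max_left _ _)
  -- simple consequences
  have hH0 : ∀ j, (0 : ℝ) < H j := fun j => by exact_mod_cast hH j
  have haH1 : ∀ j, 1 ≤ (a j : ℝ) / H j := fun j => (le_max_left _ _).trans (hP j)
  have hHa : ∀ j, H j ≤ a j := fun j => by
    have h1 := haH1 j
    rw [le_div_iff₀ (hH0 j), one_mul] at h1
    exact_mod_cast h1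
  have ha0 : ∀ j, (0 : ℝ) < a j := fun j => by
    have : 0 < a j := lt_of_lt_of_le (hH j) (hHa j)
    exact_mod_cast this
  have habR : ∀ j, (a j : ℝ) < b j := fun j => by exact_mod_cast hab j
  have habH : ∀ j, (a j : ℝ) / H j < (b j : ℝ) / H j := fun j => by
    have := habR j
    have := hH0 j
    gcongr
  have hα2 : ∀ j, α j ≤ 1 / 2 := fun j => by linarith [(hα j).2]
  have hW : ∀ j, log ((b j : ℝ) / a j) / 2 ≤ WR (H j) (a j) (b j) := fun j => by
    have h1 := hWR (H j) (a j) (b j) (hH j) (hHa j) (hab j).le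
    have h2 : CW * ((H j : ℝ) / a j) ≤ 1 := by
      have h3 : CW ≤ (a j : ℝ) / H j := (le_max_right _ _).trans (hP j)
      rw [le_div_iff₀ (hH0 j)] at h3
      rw [← mul_div_assoc, div_le_one (ha0 j)]
      exact h3
    have h3 := hlog2 j
    linarith
  have hW1 : ∀ j, 1 ≤ WR (H j) (a j) (b j) := fun j => by
    have h1 := hW j
    have h2 := hlog2 j
    linarith
  -- the constant A
  refine ⟨⌈exp ((b 0 : ℝ) / H 0)⌉₊, Nat.one_le_iff_ne_zero.2
    (Nat.ceil_pos.2 (exp_pos _)).ne', ?_⟩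
  set A : ℕ := ⌈exp ((b 0 : ℝ) / H 0)⌉₊ with hA
  have hAexp : exp ((b 0 : ℝ) / H 0) ≤ A := Nat.le_ceil _
  have hA0 : (0 : ℝ) < A := (exp_pos _).trans_le hAexp
  have hA1 : (1 : ℝ) ≤ A := by
    have : 0 < A := Nat.ceil_pos.2 (exp_pos _)
    exact_mod_cast this
  -- large x
  obtain ⟨x0, hx0⟩ := Filter.eventually_atTop.1
    (tendsto_log_atTop.eventually (large_y κ ((a 0 : ℝ) / H 0) ((b 0 : ℝ) / H 0) (log CU) hκ))
  refine ⟨max x0 1, fun x hx f hf => ?_⟩
  obtain ⟨hy64, hA0', hB0', hl6, hexp⟩ := hx0 x ((le_max_left _ _).trans hx)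
  have hxpos : 0 < x := lt_of_lt_of_le one_pos ((le_max_right _ _).trans hx)
  set y : ℝ := log x with hy
  have hy0 : 0 < y := by linarith
  have hly : 0 < log y := log_pos (by linarith)
  have hxy : exp y = x := exp_log hxpos
  set M : ℕ := ⌊x / A⌋₊ with hM
  have hMA : (M : ℝ) ≤ x / A := Nat.floor_le (by positivity)
  have hMx : (M : ℝ) ≤ x := hMA.trans (div_le_self hxpos.le hA1)
  have hMb : (M : ℝ) * exp ((b 0 : ℝ) / H 0) ≤ x := by
    calc (M : ℝ) * exp ((b 0 : ℝ) / H 0) ≤ x / A * A := by gcongr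
      _ = x := div_mul_cancel₀ _ hA0.ne'
  -- the index J
  have hexJ : ∃ j, 1 ≤ j ∧ 16 / κ * log y ≤ (a j : ℝ) / H j :=
    ((Filter.eventually_ge_atTop 1).and (htend.eventually_ge_atTop _)).exists
  set J : ℕ := Nat.find hexJ with hJ
  have hJspec := Nat.find_spec hexJ
  rw [← hJ] at hJspec
  have hJmin : ∀ i, i < J → (a i : ℝ) / H i ≤ 16 / κ * log y := by
    intro i hi
    rcases Nat.eq_zero_or_pos i with rfl | hi0
    · exact hA0'
    · have h1 := Nat.find_min hexJ hi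
      by_contra hcon
      exact h1 ⟨hi0, (not_le.1 hcon).le⟩
  have hbound : ∀ j, j ≤ J → (b j : ℝ) / H j ≤ sqrt y := by
    intro j hj
    rcases Nat.eq_zero_or_pos j with rfl | hj0
    · exact hB0'
    · obtain ⟨i, rfl⟩ : ∃ i, j = i + 1 := ⟨j - 1, by omega⟩
      have h1 := hlog i
      have h2 := hJmin i (by omega)
      have h3 : (α (i + 1) - α i) * ((a i : ℝ) / H i) ≤ κ / 8 * (16 / κ * log y) := by
        have h4 : α (i + 1) - α i ≤ κ / 8 := by
          have := (hα (i + 1)).2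
          have := (hα i).1
          linarith
        have h5 : 0 ≤ (a i : ℝ) / H i := by linarith [haH1 i]
        have h6 : (0 : ℝ) ≤ κ / 8 := by positivity
        exact mul_le_mul h4 h2 h5 h6
      have h4 : κ / 8 * (16 / κ * log y) = 2 * log y := by
        field_simp
        ring
      have hb0 : 0 < (b (i + 1) : ℝ) / H (i + 1) := by
        linarith [haH1 (i + 1), habH (i + 1)]
      have h5 : log (11 * ((b (i + 1) : ℝ) / H (i + 1))) ≤ log (sqrt y) := by
        rw [log_sqrt hy0.le]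
        linarith
      have h6 := (log_le_log_iff (by positivity) (sqrt_pos.2 hy0)).1 h5
      linarith
  have hsqrt8 : 8 * sqrt y ≤ y := by
    have h1 : (8 : ℝ) ≤ sqrt y := by
      apply le_sqrt_of_sq_le
      linarith
    have h2 : sqrt y * sqrt y = y := mul_self_sqrt hy0.le
    nlinarith
  have hexp8 : ∀ j, j ≤ J → exp (8 * ((b j : ℝ) / H j)) ≤ x := by
    intro j hj
    rw [← hxy, exp_le_exp]
    have := hbound j hj
    linarith
  have hexp1 : ∀ j, j ≤ J → exp ((b j : ℝ) / H j) ≤ x := by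
    intro j hj
    refine le_trans ?_ (hexp8 j hj)
    rw [exp_le_exp]
    linarith [haH1 j, habH j]
  -- the exceptional set
  let P : ℕ → ℤ → Prop := fun j m => ∀ v ∈ Finset.Ico (a j) (b j),
    ‖Pb f (H j) v m‖ ≤ exp ((1 - α j) * (v / H j))
  set U : Finset ℤ := (fr M).filter (fun m => ∃ v ∈ Finset.Ico (a J) (b J),
    exp ((1 - α J) * (v / H J)) < ‖Pb f (H J) v m‖) with hU
  have hUP : ∀ m, m ∈ fr M \ U → P J m := by
    intro m hm v hv
    rw [Finset.mem_sdiff, hU, Finset.mem_filter, not_and] at hm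
    by_contra hcon
    exact hm.2 hm.1 ⟨v, hv, not_le.1 hcon⟩
  refine ⟨U, Finset.filter_subset _ _, ?_, ?_⟩
  · -- cardinality
    have h1 := hUB f hf (H J) (a J) (b J) M x (α J) (hH J) (hab J) (hα J).1 (hα2 J) (hHa J)
      (hexp1 J le_rfl) hMx
    have hβ := hbound J le_rfl
    have hαJ := hα J
    have hs0 : 0 ≤ sqrt y := sqrt_nonneg y
    have h2 : (b J : ℝ) - a J ≤ exp (sqrt y + log y) := by
      have h3 : (b J : ℝ) = H J * ((b J : ℝ) / H J) := by
        rw [mul_div_cancel₀]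
        exact (hH0 J).ne'
      have h4 : (H J : ℝ) ≤ exp (sqrt y) := by
        refine (hHe J).trans ?_
        rw [exp_le_exp]
        exact (habH J).le.trans hβ
      have h5 : (b J : ℝ) / H J ≤ exp (log y) := by
        rw [exp_log hy0]
        linarith [haH1 J]
      have h6 : 0 ≤ (b J : ℝ) / H J := by positivity
      rw [exp_add]
      calc (b J : ℝ) - a J ≤ b J := by linarith [ha0 J]
        _ = H J * ((b J : ℝ) / H J) := h3
        _ ≤ exp (sqrt y) * exp (log y) := by gcongr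
    have h3 : 2 * α J * (y + b J / H J) ≤ κ / 4 * y + sqrt y := by
      have h4 : 2 * α J ≤ κ / 4 := by linarith [hαJ.2]
      have h5 : 0 ≤ y + (b J : ℝ) / H J := by positivity
      calc 2 * α J * (y + b J / H J) ≤ κ / 4 * (y + b J / H J) := by gcongr
        _ ≤ κ / 4 * (y + sqrt y) := by gcongr
        _ ≤ κ / 4 * y + sqrt y := by nlinarith
    have h4 : 2 * (y / (a J / H J) + 1) * log (6 * (y + 1)) ≤ κ / 4 * y + 4 * log y := by
      have h5 : y / ((a J : ℝ) / H J) ≤ y / (16 / κ * log y) := by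
        have := hJspec.2
        gcongr
      have h6 : 0 ≤ y / ((a J : ℝ) / H J) + 1 := by positivity
      calc 2 * (y / (a J / H J) + 1) * log (6 * (y + 1))
          ≤ 2 * (y / (a J / H J) + 1) * (2 * log y) := by gcongr
        _ ≤ 2 * (y / (16 / κ * log y) + 1) * (2 * log y) := by gcongr
        _ = κ / 4 * y + 4 * log y := by
            field_simp
            ring
    refine h1.trans ?_
    have hCUe : CU = exp (log CU) := (exp_log hCU).symm
    have hab0 : 0 ≤ (b J : ℝ) - a J := by linarith [habR J]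
    calc CU * ((b J : ℝ) - a J) * exp (2 * α J * (y + b J / H J) +
          2 * (y / (a J / H J) + 1) * log (6 * (y + 1)))
        ≤ exp (log CU) * exp (sqrt y + log y) *
          exp ((κ / 4 * y + sqrt y) + (κ / 4 * y + 4 * log y)) := by
          rw [← hCUe]
          gcongr
      _ = exp (log CU + 2 * sqrt y + 5 * log y + κ / 2 * y) := by
          rw [← exp_add, ← exp_add]
          congr 1
          ring
      _ ≤ exp (y * κ) := by
          rw [exp_le_exp]
          linarith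
      _ = x ^ κ := by rw [rpow_def_of_pos hxpos]
  · -- the sum
    let g : ℤ → ℝ := fun m => ‖Zs f (x / 2) x m‖ ^ 2
    let jm : ℤ → ℕ := fun m => if h : ∃ j, P j m then Nat.find h else 0
    have hjm : ∀ m ∈ fr M \ U, jm m ∈ Finset.range (J + 1) := by
      intro m hm
      have h1 : ∃ j, P j m := ⟨J, hUP m hm⟩
      simp only [jm, dif_pos h1, Finset.mem_range]
      exact Nat.lt_succ_of_le (Nat.find_min' h1 (hUP m hm))
    have hjm1 : ∀ m ∈ fr M \ U, P (jm m) m := by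
      intro m hm
      have h1 : ∃ j, P j m := ⟨J, hUP m hm⟩
      simp only [jm, dif_pos h1]
      exact Nat.find_spec h1
    have hjm2 : ∀ m ∈ fr M \ U, ∀ i, i < jm m → ¬ P i m := by
      intro m hm i hi
      have h1 : ∃ j, P j m := ⟨J, hUP m hm⟩
      simp only [jm, dif_pos h1] at hi
      exact Nat.find_min h1 hi
    -- the pieces
    let E : ℕ → ℝ := fun j => CD * x ^ 2 * (1 / WR (H j) (a j) (b j) + 1 / H j)
    let Sj : ℕ → ℤ → ℂ := fun j m => ∑ v ∈ Finset.Ico (a j) (b j), Pb f (H j) v m * Rb f (H j) v x m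
    have hpiece : ∀ j, j ≤ J → ∑ m ∈ (fr M \ U).filter (fun m => jm m = j), g m ≤
        2 * E j + 2 * ∑ m ∈ (fr M \ U).filter (fun m => jm m = j), ‖Sj j m‖ ^ 2 := by
      intro j hj
      have h1 := hDEC f hf (H j) (a j) (b j) M x (hH j) (hHe j) (hab j) (hW1 j) (hexp8 j hj) hMx
      have h2 : ∀ m : ℤ, g m ≤ 2 * ‖Zs f (x / 2) x m -
          (1 / (WR (H j) (a j) (b j) : ℂ)) * Sj j m‖ ^ 2 + 2 * ‖Sj j m‖ ^ 2 := by
        intro m
        have h3 : ‖(1 / (WR (H j) (a j) (b j) : ℂ)) * Sj j m‖ ≤ ‖Sj j m‖ := by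
          rw [norm_mul, norm_div, norm_one, Complex.norm_real,
            norm_of_nonneg (by linarith [hW1 j])]
          have h4 : 1 / WR (H j) (a j) (b j) ≤ 1 := by
            rw [div_le_one (by linarith [hW1 j])]
            exact hW1 j
          calc 1 / WR (H j) (a j) (b j) * ‖Sj j m‖ ≤ 1 * ‖Sj j m‖ := by gcongr
            _ = _ := one_mul _
        have h4 : ‖Zs f (x / 2) x m‖ ≤ ‖Zs f (x / 2) x m -
            (1 / (WR (H j) (a j) (b j) : ℂ)) * Sj j m‖ + ‖Sj j m‖ := by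
          have h5 := norm_add_le (Zs f (x / 2) x m -
            (1 / (WR (H j) (a j) (b j) : ℂ)) * Sj j m) ((1 / (WR (H j) (a j) (b j) : ℂ)) * Sj j m)
          rw [sub_add_cancel] at h5
          linarith
        change ‖Zs f (x / 2) x m‖ ^ 2 ≤ _
        have h5 : 0 ≤ ‖Zs f (x / 2) x m‖ := norm_nonneg _
        nlinarith [sq_nonneg (‖Zs f (x / 2) x m -
            (1 / (WR (H j) (a j) (b j) : ℂ)) * Sj j m‖ - ‖Sj j m‖),
          pow_le_pow_left₀ h5 h4 2]
      calc ∑ m ∈ (fr M \ U).filter (fun m => jm m = j), g m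
          ≤ ∑ m ∈ (fr M \ U).filter (fun m => jm m = j), (2 * ‖Zs f (x / 2) x m -
          (1 / (WR (H j) (a j) (b j) : ℂ)) * Sj j m‖ ^ 2 + 2 * ‖Sj j m‖ ^ 2) :=
            Finset.sum_le_sum fun m _ => h2 m
        _ = 2 * ∑ m ∈ (fr M \ U).filter (fun m => jm m = j), ‖Zs f (x / 2) x m -
          (1 / (WR (H j) (a j) (b j) : ℂ)) * Sj j m‖ ^ 2 +
            2 * ∑ m ∈ (fr M \ U).filter (fun m => jm m = j), ‖Sj j m‖ ^ 2 := by
            rw [Finset.sum_add_distrib, ← Finset.mul_sum, ← Finset.mul_sum]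
        _ ≤ _ := by
            gcongr
            refine le_trans ?_ h1
            refine Finset.sum_le_sum_of_subset_of_nonneg
              ((Finset.filter_subset _ _).trans Finset.sdiff_subset) fun m _ _ => by positivity
    have hzero : ∑ m ∈ (fr M \ U).filter (fun m => jm m = 0), ‖Sj 0 m‖ ^ 2 ≤
        C1 * ((b 0 : ℝ) - a 0) ^ 2 * exp (-(2 * α 0) * (a 0 / H 0)) * x ^ 2 := by
      refine le_trans ?_ (hST1 f hf (H 0) (a 0) (b 0) M x (α 0) (hH 0) (hab 0) (hα 0).1 (hα2 0)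
        (hexp1 0 (Nat.zero_le _)) hMb)
      refine Finset.sum_le_sum_of_subset_of_nonneg ?_ fun m _ _ => by positivity
      intro m hm
      rw [Finset.mem_filter] at hm ⊢
      refine ⟨(Finset.mem_sdiff.1 hm.1).1, ?_⟩
      have h1 := hjm1 m hm.1
      rw [hm.2] at h1
      exact h1
    have hsucc : ∀ i, i + 1 ≤ J →
        ∑ m ∈ (fr M \ U).filter (fun m => jm m = i + 1), ‖Sj (i + 1) m‖ ^ 2 ≤
        CJ * ((b (i + 1) : ℝ) - a (i + 1)) ^ 2 * ((b i : ℝ) - a i) *
        exp (2 * α i * (b i / H i) - (α (i + 1) - α i) * (a (i + 1) / H (i + 1))) * x ^ 2 := by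
      intro i hi
      refine le_trans ?_ (hSTJ f hf (H i) (a i) (b i) (H (i + 1)) (a (i + 1)) (b (i + 1)) M x
        (α i) (α (i + 1)) (hH i) (hH (i + 1)) (hab i) (hab (i + 1)) (hα i).1 (hαm i)
        (hα2 (i + 1)) (hHa i) (haH i) (hlog i) (hexp1 (i + 1) hi) hMx)
      refine Finset.sum_le_sum_of_subset_of_nonneg ?_ fun m _ _ => by positivity
      intro m hm
      rw [Finset.mem_filter] at hm ⊢
      refine ⟨(Finset.mem_sdiff.1 hm.1).1, ?_, ?_⟩
      · have h1 := hjm2 m hm.1 i (by omega)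
        by_contra hcon
        push Not at hcon
        exact h1 hcon
      · have h1 := hjm1 m hm.1
        rw [hm.2] at h1
        exact h1
    -- summing up
    have hfib : ∑ m ∈ fr M \ U, g m =
        ∑ j ∈ Finset.range (J + 1), ∑ m ∈ (fr M \ U).filter (fun m => jm m = j), g m :=
      (Finset.sum_fiberwise_of_maps_to hjm g).symm
    have hE : ∑ j ∈ Finset.range (J + 1), 2 * E j ≤ 4 * CD * ε' * x ^ 2 := by
      have h1 : ∀ j ∈ Finset.range (J + 1), 2 * E j ≤
          4 * CD * x ^ 2 * (1 / log ((b j : ℝ) / a j) + 1 / H j) := by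
        intro j _
        have h2 : 1 / WR (H j) (a j) (b j) ≤ 2 * (1 / log ((b j : ℝ) / a j)) := by
          have h3 := hW j
          have h4 : 0 < log ((b j : ℝ) / a j) := by linarith [hlog2 j]
          calc 1 / WR (H j) (a j) (b j) ≤ 1 / (log ((b j : ℝ) / a j) / 2) := by gcongr
            _ = _ := by field_simp
        have h3 : (0 : ℝ) ≤ 1 / H j := by positivity
        change 2 * (CD * x ^ 2 * (1 / WR (H j) (a j) (b j) + 1 / H j)) ≤ _
        calc 2 * (CD * x ^ 2 * (1 / WR (H j) (a j) (b j) + 1 / H j))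
            ≤ 2 * (CD * x ^ 2 * (2 * (1 / log ((b j : ℝ) / a j)) + 2 * (1 / H j))) := by
              gcongr
              linarith
          _ = _ := by ring
      calc ∑ j ∈ Finset.range (J + 1), 2 * E j
          ≤ ∑ j ∈ Finset.range (J + 1), 4 * CD * x ^ 2 * (1 / log ((b j : ℝ) / a j) + 1 / H j) :=
            Finset.sum_le_sum h1
        _ = 4 * CD * x ^ 2 * ∑ j ∈ Finset.range (J + 1), (1 / log ((b j : ℝ) / a j) + 1 / H j) := by
            rw [Finset.mul_sum]
        _ ≤ 4 * CD * x ^ 2 * ε' := by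
            have := hsum1 (J + 1)
            gcongr
        _ = _ := by ring
    have hS : ∑ j ∈ Finset.range (J + 1),
        2 * ∑ m ∈ (fr M \ U).filter (fun m => jm m = j), ‖Sj j m‖ ^ 2 ≤
        2 * CJ * ε' * x ^ 2 + 2 * C1 * ε' * x ^ 2 := by
      rw [Finset.sum_range_succ']
      have h1 : ∑ i ∈ Finset.range J,
          2 * ∑ m ∈ (fr M \ U).filter (fun m => jm m = i + 1), ‖Sj (i + 1) m‖ ^ 2 ≤
          2 * CJ * ε' * x ^ 2 := by
        calc _ ≤ ∑ i ∈ Finset.range J, 2 * (CJ * ((b (i + 1) : ℝ) - a (i + 1)) ^ 2 *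
              ((b i : ℝ) - a i) *
              exp (2 * α i * (b i / H i) - (α (i + 1) - α i) * (a (i + 1) / H (i + 1))) *
              x ^ 2) := by
              refine Finset.sum_le_sum fun i hi => ?_
              have := hsucc i (Finset.mem_range.1 hi)
              gcongr
          _ = 2 * CJ * x ^ 2 * ∑ i ∈ Finset.range J, ((b (i + 1) : ℝ) - a (i + 1)) ^ 2 *
              ((b i : ℝ) - a i) *
              exp (2 * α i * (b i / H i) - (α (i + 1) - α i) * (a (i + 1) / H (i + 1))) := by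
              rw [Finset.mul_sum]
              refine Finset.sum_congr rfl fun i _ => ?_
              ring
          _ ≤ 2 * CJ * x ^ 2 * ε' := by
              have := hsum3 J
              gcongr
          _ = _ := by ring
      have h2 : 2 * ∑ m ∈ (fr M \ U).filter (fun m => jm m = 0), ‖Sj 0 m‖ ^ 2 ≤
          2 * C1 * ε' * x ^ 2 := by
        calc 2 * ∑ m ∈ (fr M \ U).filter (fun m => jm m = 0), ‖Sj 0 m‖ ^ 2
            ≤ 2 * (C1 * ((b 0 : ℝ) - a 0) ^ 2 * exp (-(2 * α 0) * (a 0 / H 0)) * x ^ 2) := by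
              gcongr
          _ = 2 * C1 * x ^ 2 * (((b 0 : ℝ) - a 0) ^ 2 * exp (-(2 * α 0) * (a 0 / H 0))) := by ring
          _ ≤ 2 * C1 * x ^ 2 * ε' := by gcongr
          _ = _ := by ring
      linarith
    change ∑ m ∈ fr M \ U, g m ≤ ε * x ^ 2
    rw [hfib]
    calc ∑ j ∈ Finset.range (J + 1), ∑ m ∈ (fr M \ U).filter (fun m => jm m = j), g m
        ≤ ∑ j ∈ Finset.range (J + 1), (2 * E j +
          2 * ∑ m ∈ (fr M \ U).filter (fun m => jm m = j), ‖Sj j m‖ ^ 2) := by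
          refine Finset.sum_le_sum fun j hj => hpiece j ?_
          rw [Finset.mem_range] at hj
          omega
      _ ≤ 4 * CD * ε' * x ^ 2 + (2 * CJ * ε' * x ^ 2 + 2 * C1 * ε' * x ^ 2) := by
          rw [Finset.sum_add_distrib]
          exact add_le_add hE hS
      _ = (4 * CD + 2 * C1 + 2 * CJ) * ε' * x ^ 2 := by ring
      _ = ε * x ^ 2 := by
          rw [hε', mul_div_cancel₀]
          positivity

end Pool.Agent.NSqP
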