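import Pool.Agent.Lib.NSqP.PiF

/-!
# TK: Turan-Kubilius inequality and second moments
Expand the square.  `card_all_dvd` and `card_ann` give for `π ≠ π'` the number
`π x/(N N') + O(√(x/(N N')) + 1)` of common multiples; `#S ≤ C x^(1/4)` (norms `≤ x^(1/4)`), so the
errors sum to `O(√x (#S + 1)^2) = O(x)`.  `second_moment`: same with `#S ≤ C x^(1/8)`.
-/

set_option autoImplicit false

namespace Pool.Agent.NSqP

open Real
open Pool.Agent.MP484c84Par (ballG mem_ballG crossG badEdges mem_badEdges CM F)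

open Classical in
private theorem cnt_all {C : ℝ} (hC0 : 0 < C) (hC : ∀ a b : ℝ, 0 ≤ a → a ≤ b →
    |((ann a b).card : ℝ) - π * (b - a)| ≤ C * (√b + 1))
    (T : Finset GaussianInt) (hT : ∀ p ∈ T, IsPi p) {a b : ℝ} (ha : 0 ≤ a) (hab : a ≤ b) :
    |(((ann a b).filter (fun z => ∀ p ∈ T, p ∣ z)).card : ℝ) -
      π * (b - a) * (1 / ∏ p ∈ T, (nN p : ℝ))| ≤ C * (√b + 1) := by
  have hb : 0 ≤ b := ha.trans hab
  rw [card_all_dvd T hT ha hb]
  set P : ℝ := ∏ p ∈ T, (nN p : ℝ) with hP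
  have hP1 : 1 ≤ P := by
    rw [hP]
    calc (1 : ℝ) = ∏ p ∈ T, (1 : ℝ) := by simp
      _ ≤ ∏ p ∈ T, (nN p : ℝ) := by
          apply Finset.prod_le_prod (fun _ _ => zero_le_one)
          intro p hp
          have := (hT p hp).2.2.2
          exact_mod_cast (by omega : 1 ≤ nN p)
  have hP0 : 0 < P := lt_of_lt_of_le one_pos hP1
  have h := hC (a / P) (b / P) (by positivity) (by gcongr)
  have e : π * (b - a) * (1 / P) = π * (b / P - a / P) := by ring
  rw [e]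
  refine h.trans ?_
  have h2 : b / P ≤ b := div_le_self hb hP1
  have h3 := Real.sqrt_le_sqrt h2
  gcongr

open Classical in
private theorem cnt_one {C : ℝ} (hC0 : 0 < C) (hC : ∀ a b : ℝ, 0 ≤ a → a ≤ b →
    |((ann a b).card : ℝ) - π * (b - a)| ≤ C * (√b + 1))
    {p : GaussianInt} (hp : IsPi p) {a b : ℝ} (ha : 0 ≤ a) (hab : a ≤ b) :
    |(((ann a b).filter (fun z => p ∣ z)).card : ℝ) -
      π * (b - a) * (1 / (nN p : ℝ))| ≤ C * (√b + 1) := by
  have h := cnt_all hC0 hC {p} (by simpa using hp) ha hab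
  simpa using h

open Classical in
private theorem cnt_two {C : ℝ} (hC0 : 0 < C) (hC : ∀ a b : ℝ, 0 ≤ a → a ≤ b →
    |((ann a b).card : ℝ) - π * (b - a)| ≤ C * (√b + 1))
    {p q : GaussianInt} (hp : IsPi p) (hq : IsPi q) (hpq : p ≠ q) {a b : ℝ} (ha : 0 ≤ a)
    (hab : a ≤ b) :
    |(((ann a b).filter (fun z => p ∣ z ∧ q ∣ z)).card : ℝ) -
      π * (b - a) * (1 / (nN p : ℝ) * (1 / (nN q : ℝ)))| ≤ C * (√b + 1) := by
  have h := cnt_all hC0 hC {p, q} (by
    intro r hr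
    rw [Finset.mem_insert, Finset.mem_singleton] at hr
    rcases hr with rfl | rfl
    · exact hp
    · exact hq) ha hab
  rw [Finset.prod_pair hpq] at h
  have e : ∀ z : GaussianInt, (∀ r ∈ ({p, q} : Finset GaussianInt), r ∣ z) ↔ (p ∣ z ∧ q ∣ z) := by
    intro z; simp
  simp only [e] at h
  rw [one_div_mul_one_div]
  exact h

open Classical in
private theorem sq_sum (S : Finset GaussianInt) (R : Finset GaussianInt) :
    ∑ z ∈ R, ((S.filter (fun p => p ∣ z)).card : ℝ) ^ 2 =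
      ∑ p ∈ S, ∑ q ∈ S, ((R.filter (fun z => p ∣ z ∧ q ∣ z)).card : ℝ) := by
  have h1 : ∀ z ∈ R, ((S.filter (fun p => p ∣ z)).card : ℝ) ^ 2 =
      ∑ p ∈ S, ∑ q ∈ S, (if p ∣ z ∧ q ∣ z then (1 : ℝ) else 0) := by
    intro z _
    rw [Finset.card_filter]
    push_cast
    rw [sq, Finset.sum_mul_sum]
    refine Finset.sum_congr rfl (fun p _ => Finset.sum_congr rfl (fun q _ => ?_))
    by_cases hp : p ∣ z <;> by_cases hq : q ∣ z <;> simp [hp, hq]
  rw [Finset.sum_congr rfl h1, Finset.sum_comm]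
  refine Finset.sum_congr rfl (fun p _ => ?_)
  rw [Finset.sum_comm]
  refine Finset.sum_congr rfl (fun q _ => ?_)
  rw [Finset.card_filter]
  push_cast
  rfl

open Classical in
private theorem lin_sum (S : Finset GaussianInt) (R : Finset GaussianInt) :
    ∑ z ∈ R, ((S.filter (fun p => p ∣ z)).card : ℝ) =
      ∑ p ∈ S, ((R.filter (fun z => p ∣ z)).card : ℝ) := by
  have h1 : ∀ z ∈ R, ((S.filter (fun p => p ∣ z)).card : ℝ) =
      ∑ p ∈ S, (if p ∣ z then (1 : ℝ) else 0) := by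
    intro z _
    rw [Finset.card_filter]
    push_cast
    rfl
  rw [Finset.sum_congr rfl h1, Finset.sum_comm]
  refine Finset.sum_congr rfl (fun p _ => ?_)
  rw [Finset.card_filter]
  push_cast
  rfl

open Classical in
private theorem sq_le {C : ℝ} (hC0 : 0 < C) (hC : ∀ a b : ℝ, 0 ≤ a → a ≤ b →
    |((ann a b).card : ℝ) - π * (b - a)| ≤ C * (√b + 1))
    (S : Finset GaussianInt) (hS : ∀ p ∈ S, IsPi p) {a b : ℝ} (ha : 0 ≤ a) (hab : a ≤ b) :
    ∑ z ∈ ann a b, ((S.filter (fun p => p ∣ z)).card : ℝ) ^ 2 ≤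
      π * (b - a) * ((∑ p ∈ S, 1 / (nN p : ℝ)) ^ 2 + ∑ p ∈ S, 1 / (nN p : ℝ)) +
        C * (√b + 1) * (S.card : ℝ) ^ 2 := by
  rw [sq_sum]
  have hπ : 0 ≤ π * (b - a) := mul_nonneg pi_pos.le (by linarith)
  have h1 : ∀ p ∈ S, ∀ q ∈ S, (((ann a b).filter (fun z => p ∣ z ∧ q ∣ z)).card : ℝ) ≤
      π * (b - a) * (1 / (nN p : ℝ) * (1 / (nN q : ℝ))) +
        (if p = q then π * (b - a) * (1 / (nN p : ℝ)) else 0) + C * (√b + 1) := by
    intro p hp q hq
    by_cases hpq : p = q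
    · subst hpq
      have h := (abs_le.1 (cnt_one hC0 hC (hS p hp) ha hab)).2
      simp only [and_self, if_true]
      have h2 : 0 ≤ π * (b - a) * (1 / (nN p : ℝ) * (1 / (nN p : ℝ))) := by positivity
      linarith
    · have h := (abs_le.1 (cnt_two hC0 hC (hS p hp) (hS q hq) hpq ha hab)).2
      rw [if_neg hpq]
      linarith
  calc ∑ p ∈ S, ∑ q ∈ S, (((ann a b).filter (fun z => p ∣ z ∧ q ∣ z)).card : ℝ)
      ≤ ∑ p ∈ S, ∑ q ∈ S, (π * (b - a) * (1 / (nN p : ℝ) * (1 / (nN q : ℝ))) +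
        (if p = q then π * (b - a) * (1 / (nN p : ℝ)) else 0) + C * (√b + 1)) :=
        Finset.sum_le_sum (fun p hp => Finset.sum_le_sum (fun q hq => h1 p hp q hq))
    _ = _ := by
        simp only [Finset.sum_add_distrib, Finset.sum_const, nsmul_eq_mul, Finset.sum_ite_eq]
        rw [sq (∑ p ∈ S, 1 / (nN p : ℝ)), Finset.sum_mul_sum]
        have e1 : ∑ p ∈ S, ∑ q ∈ S, π * (b - a) * (1 / (nN p : ℝ) * (1 / (nN q : ℝ))) =
            π * (b - a) * ∑ p ∈ S, ∑ q ∈ S, (1 / (nN p : ℝ) * (1 / (nN q : ℝ))) := by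
          rw [Finset.mul_sum]
          refine Finset.sum_congr rfl (fun p _ => ?_)
          rw [Finset.mul_sum]
        have e2 : ∑ p ∈ S, (if p ∈ S then π * (b - a) * (1 / (nN p : ℝ)) else 0) =
            π * (b - a) * ∑ p ∈ S, (1 / (nN p : ℝ)) := by
          rw [Finset.mul_sum]
          refine Finset.sum_congr rfl (fun p hp => ?_)
          rw [if_pos hp]
        rw [e1, e2]
        ring

private theorem card_S_le {C : ℝ} (hC : ∀ b : ℝ, 0 ≤ b → ((ann 0 b).card : ℝ) ≤ C * b)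
    (S : Finset GaussianInt) (hS : ∀ p ∈ S, IsPi p) {y : ℝ} (hy : 0 ≤ y)
    (h : ∀ p ∈ S, (nN p : ℝ) ≤ y) : (S.card : ℝ) ≤ C * y := by
  refine le_trans ?_ (hC y hy)
  have : S ⊆ ann 0 y := by
    intro p hp
    rw [mem_ann hy]
    refine ⟨?_, h p hp⟩
    have := (hS p hp).2.2.2
    exact_mod_cast (by omega : 0 < nN p)
  exact_mod_cast Finset.card_le_card this

open Classical in
theorem TK : ∃ C : ℝ, 0 < C ∧ ∀ (S : Finset GaussianInt) (x : ℝ), 1 ≤ x →
    (∀ p ∈ S, IsPi p ∧ (nN p : ℝ) ^ 4 ≤ x) →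
    ∑ z ∈ ann 0 x, (((S.filter (fun p => p ∣ z)).card : ℝ) - ∑ p ∈ S, 1 / (nN p : ℝ)) ^ 2 ≤
      C * x * ((∑ p ∈ S, 1 / (nN p : ℝ)) + 1) := by
  obtain ⟨C, hC0, hC⟩ := card_ann
  obtain ⟨C', hC0', hC'⟩ := card_ann_le
  refine ⟨4 + 8 * C * C' ^ 2, by positivity, ?_⟩
  intro S x hx hS
  have hx0 : 0 < x := by linarith
  have hSp : ∀ p ∈ S, IsPi p := fun p hp => (hS p hp).1
  set A : ℝ := ∑ p ∈ S, 1 / (nN p : ℝ) with hA
  have hA0 : 0 ≤ A := Finset.sum_nonneg (fun p _ => by positivity)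
  have hAS : A ≤ S.card := by
    calc A ≤ ∑ p ∈ S, (1 : ℝ) := by
          refine Finset.sum_le_sum (fun p hp => ?_)
          have := (hSp p hp).2.2.2
          have h1 : (1 : ℝ) ≤ nN p := by exact_mod_cast (by omega : 1 ≤ nN p)
          rw [div_le_one (by linarith)]
          exact h1
      _ = S.card := by simp
  set E : ℝ := C * (√x + 1) with hE
  have hE0 : 0 ≤ E := by positivity
  -- the size of S
  set y : ℝ := x ^ ((1 : ℝ) / 4) with hy
  have hy0 : 0 ≤ y := by positivity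
  have hy4 : y ^ 4 = x := by
    rw [hy, ← Real.rpow_natCast, ← Real.rpow_mul hx0.le]
    norm_num
  have hSy : (S.card : ℝ) ≤ C' * y := by
    refine card_S_le hC' S hSp hy0 (fun p hp => ?_)
    have h := (hS p hp).2
    rw [← hy4] at h
    exact le_of_pow_le_pow_left₀ (by norm_num) hy0 h
  have hsq : √x = y ^ 2 := by
    rw [← hy4, show y ^ 4 = (y ^ 2) ^ 2 by ring, Real.sqrt_sq (by positivity)]
  have hy1 : 1 ≤ y := by
    rw [hy]
    exact Real.one_le_rpow hx (by norm_num)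
  -- expansion
  have h1 := sq_le hC0 hC S hSp le_rfl hx0.le
  have h2 : π * x * A - E * S.card ≤ ∑ z ∈ ann 0 x, ((S.filter (fun p => p ∣ z)).card : ℝ) := by
    rw [lin_sum]
    have h : ∀ p ∈ S, π * x * (1 / (nN p : ℝ)) - E ≤
        (((ann 0 x).filter (fun z => p ∣ z)).card : ℝ) := by
      intro p hp
      have := (abs_le.1 (cnt_one hC0 hC (hSp p hp) le_rfl hx0.le)).1
      rw [sub_zero] at this
      linarith
    calc π * x * A - E * S.card = ∑ p ∈ S, (π * x * (1 / (nN p : ℝ)) - E) := by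
          rw [Finset.sum_sub_distrib, ← Finset.mul_sum, Finset.sum_const, nsmul_eq_mul]
          ring
      _ ≤ _ := Finset.sum_le_sum h
  have h3 : ((ann 0 x).card : ℝ) ≤ π * x + E := by
    have := (abs_le.1 (hC 0 x le_rfl hx0.le)).2
    rw [sub_zero] at this
    linarith
  rw [sub_zero] at h1
  have h4 : ∑ z ∈ ann 0 x, (((S.filter (fun p => p ∣ z)).card : ℝ) - A) ^ 2 =
      ∑ z ∈ ann 0 x, ((S.filter (fun p => p ∣ z)).card : ℝ) ^ 2 -
        2 * A * ∑ z ∈ ann 0 x, ((S.filter (fun p => p ∣ z)).card : ℝ) +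
        A ^ 2 * (ann 0 x).card := by
    have : ∀ z ∈ ann 0 x, (((S.filter (fun p => p ∣ z)).card : ℝ) - A) ^ 2 =
        ((S.filter (fun p => p ∣ z)).card : ℝ) ^ 2 -
          2 * A * ((S.filter (fun p => p ∣ z)).card : ℝ) + A ^ 2 := by
      intro z _; ring
    rw [Finset.sum_congr rfl this, Finset.sum_add_distrib, Finset.sum_sub_distrib, ← Finset.mul_sum,
      Finset.sum_const, nsmul_eq_mul]
    ring
  rw [h4]
  have h5 : 2 * A * (π * x * A - E * S.card) ≤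
      2 * A * ∑ z ∈ ann 0 x, ((S.filter (fun p => p ∣ z)).card : ℝ) :=
    mul_le_mul_of_nonneg_left h2 (by positivity)
  have h6 : A ^ 2 * ((ann 0 x).card : ℝ) ≤ A ^ 2 * (π * x + E) :=
    mul_le_mul_of_nonneg_left h3 (by positivity)
  have h7 : E * ((S.card : ℝ) + A) ^ 2 ≤ 8 * C * C' ^ 2 * x := by
    have e1 : ((S.card : ℝ) + A) ^ 2 ≤ (2 * (C' * y)) ^ 2 := by
      have : (S.card : ℝ) + A ≤ 2 * (C' * y) := by linarith
      have h0 : 0 ≤ (S.card : ℝ) + A := by positivity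
      gcongr
    have e2 : E ≤ 2 * C * y ^ 2 := by
      rw [hE, hsq]
      have : 1 ≤ y ^ 2 := one_le_pow₀ hy1
      nlinarith
    calc E * ((S.card : ℝ) + A) ^ 2 ≤ (2 * C * y ^ 2) * (2 * (C' * y)) ^ 2 := by
          gcongr
      _ = 8 * C * C' ^ 2 * y ^ 4 := by ring
      _ = 8 * C * C' ^ 2 * x := by rw [hy4]
  have hpi : π ≤ 4 := pi_le_four
  have h8 : π * x * A ≤ 4 * x * A := by gcongr
  have h9 : 0 ≤ 8 * C * C' ^ 2 * x * A := by positivity
  nlinarith [h1, h5, h6, h7, h8, h9]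

open Classical in
theorem second_moment : ∃ C : ℝ, 0 < C ∧ ∀ (S : Finset GaussianInt) (x a b : ℝ), 1 ≤ x → 0 ≤ a →
    a ≤ b → b ≤ 3 * x → (∀ p ∈ S, IsPi p ∧ (nN p : ℝ) ^ 8 ≤ x) →
    ∑ z ∈ ann a b, ((S.filter (fun p => p ∣ z)).card : ℝ) ^ 2 ≤
      C * ((b - a) * ((∑ p ∈ S, 1 / (nN p : ℝ)) + 1) ^ 2 + x ^ ((3 : ℝ) / 4)) := by
  obtain ⟨C, hC0, hC⟩ := card_ann
  obtain ⟨C', hC0', hC'⟩ := card_ann_le
  refine ⟨4 + 3 * C * C' ^ 2, by positivity, ?_⟩
  intro S x a b hx ha hab hb hS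
  have hx0 : 0 < x := by linarith
  have hSp : ∀ p ∈ S, IsPi p := fun p hp => (hS p hp).1
  set A : ℝ := ∑ p ∈ S, 1 / (nN p : ℝ) with hA
  have hA0 : 0 ≤ A := Finset.sum_nonneg (fun p _ => by positivity)
  set y : ℝ := x ^ ((1 : ℝ) / 8) with hy
  have hy0 : 0 ≤ y := by positivity
  have hy8 : y ^ 8 = x := by
    rw [hy, ← Real.rpow_natCast, ← Real.rpow_mul hx0.le]
    norm_num
  have hy6 : x ^ ((3 : ℝ) / 4) = y ^ 6 := by
    rw [hy, ← Real.rpow_natCast, ← Real.rpow_mul hx0.le]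
    norm_num
  have hSy : (S.card : ℝ) ≤ C' * y := by
    refine card_S_le hC' S hSp hy0 (fun p hp => ?_)
    have h := (hS p hp).2
    rw [← hy8] at h
    exact le_of_pow_le_pow_left₀ (by norm_num) hy0 h
  have hsq : √x = y ^ 4 := by
    rw [← hy8, show y ^ 8 = (y ^ 4) ^ 2 by ring, Real.sqrt_sq (by positivity)]
  have hy1 : 1 ≤ y := by
    rw [hy]
    exact Real.one_le_rpow hx (by norm_num)
  have h1 := sq_le hC0 hC S hSp ha hab
  have h2 : √b + 1 ≤ 3 * y ^ 4 := by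
    have e1 : √b ≤ 2 * y ^ 4 := by
      rw [Real.sqrt_le_left (by positivity)]
      calc b ≤ 3 * x := hb
        _ ≤ 4 * x := by linarith
        _ = (2 * y ^ 4) ^ 2 := by rw [← hy8]; ring
    have : 1 ≤ y ^ 4 := one_le_pow₀ hy1
    linarith
  have h3 : C * (√b + 1) * (S.card : ℝ) ^ 2 ≤ 3 * C * C' ^ 2 * y ^ 6 := by
    calc C * (√b + 1) * (S.card : ℝ) ^ 2 ≤ C * (3 * y ^ 4) * (C' * y) ^ 2 := by gcongr
      _ = 3 * C * C' ^ 2 * y ^ 6 := by ring
  rw [hy6]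
  have hba : 0 ≤ b - a := by linarith
  have h4 : π * (b - a) * (A ^ 2 + A) ≤ 4 * ((b - a) * (A + 1) ^ 2) := by
    have e1 : A ^ 2 + A ≤ (A + 1) ^ 2 := by nlinarith
    calc π * (b - a) * (A ^ 2 + A) ≤ 4 * (b - a) * (A + 1) ^ 2 := by
          have := pi_le_four
          gcongr
      _ = _ := by ring
  have h5 : 0 ≤ (b - a) * (A + 1) ^ 2 := by positivity
  have h6 : 0 ≤ 3 * C * C' ^ 2 * ((b - a) * (A + 1) ^ 2) := by positivity
  have h7 : 0 ≤ y ^ 6 := by positivity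
  nlinarith [h1, h3, h4, h5, h6, h7]

end Pool.Agent.NSqP
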