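import Pool.Agent.Lib.NSqP.Cnt
import Pool.Agent.Lib.NSqP.TK
import Pool.Agent.Lib.NSqP.LS

/-!
# DEC: Turan-Kubilius decomposition
By `sum_Pb_Rb` the difference is `∑ c_z f(z) xi(z)^m` over primitive `z` with
`x/2 < N z ≤ x e^(1/H) ≤ 3x`, `c_z = 1[N z ≤ x] - cnt z / W`.  For `x/2 e^(1/H) < N z ≤ x`:
`|c_z| ≤ |1 - omR/W| + dbl/W`; for `x/2 < N z ≤ x/2 e^(1/H)`: `|c_z| ≤ |1 - omR/W| + omR/W`; for
`N z > x`: `|c_z| ≤ omR/W`.  Use `TK` (with `S` the union of the blocks; norms `≤ e^(b/H)`),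
`dbl_moment`, `second_moment` on the two layers of width `≤ 2x/H` (`x^(3/4) ≤ x/H` because
`H ≤ e^(a/H) ≤ e^(b/H) ≤ x^(1/8)`), then `LSP` with `L = 3x`, `M ≤ x`.  Note `W ≥ 1`.
-/

set_option autoImplicit false

namespace Pool.Agent.NSqP

open Real
open Pool.Agent.MP484c84Par (ballG mem_ballG crossG badEdges mem_badEdges CM F)

open Classical in
private noncomputable def SB (H a b : ℕ) : Finset GaussianInt :=
  (Finset.Ico a b).biUnion (fun v => blk H v)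

private lemma mem_SB {H a b : ℕ} {p : GaussianInt} :
    p ∈ SB H a b ↔ ∃ v, (a ≤ v ∧ v < b) ∧ p ∈ blk H v := by
  classical
  unfold SB
  simp only [Finset.mem_biUnion, Finset.mem_Ico]

private lemma SB_pi {H a b : ℕ} (hH : 1 ≤ H) {p : GaussianInt} (hp : p ∈ SB H a b) :
    IsPi p ∧ (nN p : ℝ) ≤ exp ((b : ℝ) / H) := by
  obtain ⟨v, hv, hpv⟩ := mem_SB.1 hp
  have h := mem_blk.1 hpv
  refine ⟨h.1, h.2.2.le.trans ?_⟩
  apply exp_le_exp.2
  apply div_le_div_of_nonneg_right _ (by positivity)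
  have : v + 1 ≤ b := hv.2
  exact_mod_cast this

open Classical in
private lemma omR_eq {H : ℕ} (hH : 1 ≤ H) (a b : ℕ) (z : GaussianInt) :
    ((SB H a b).filter (fun p => p ∣ z)).card = omR H a b z := by
  unfold omR SB
  rw [Finset.filter_biUnion, Finset.card_biUnion]
  intro v _ v' _ hne
  exact (blk_disjoint hH hne).mono (Finset.filter_subset _ _) (Finset.filter_subset _ _)

private lemma WR_eq {H : ℕ} (hH : 1 ≤ H) (a b : ℕ) :
    ∑ p ∈ SB H a b, 1 / (nN p : ℝ) = WR H a b := by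
  classical
  unfold WR SB sv
  rw [Finset.sum_biUnion]
  intro v _ v' _ hne
  exact blk_disjoint hH hne

/-- sum over `S` of the terms living on an annulus -/
private lemma sum_ind_le (S A : Finset GaussianInt) (g : GaussianInt → ℝ) (hg : ∀ z, 0 ≤ g z) :
    open Classical in ∑ z ∈ S, (if z ∈ A then g z else 0) ≤ ∑ z ∈ A, g z := by
  classical
  rw [← Finset.sum_filter]
  apply Finset.sum_le_sum_of_subset_of_nonneg
  · intro z hz
    exact (Finset.mem_filter.1 hz).2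
  · intro z _ _
    exact hg z

/-- the coefficients of the difference -/
private noncomputable def cf (H a b : ℕ) (x W : ℝ) (z : GaussianInt) : ℝ :=
  (if (nN z : ℝ) ≤ x then 1 else 0) - (cnt H a b x z : ℝ) / W

private lemma real_split {o k W : ℝ} (hW : 0 < W) :
    (1 - k / W) ^ 2 ≤ 2 * (o - W) ^ 2 / W ^ 2 + 2 * (o - k) ^ 2 / W ^ 2 := by
  have h : 1 - k / W = ((W - o) + (o - k)) / W := by field_simp; ring
  rw [h, div_pow, ← add_div]
  apply div_le_div_of_nonneg_right _ (by positivity)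
  nlinarith [sq_nonneg ((W - o) - (o - k))]

private lemma sq_div_le {u v W : ℝ} (hu : 0 ≤ u) (huv : u ≤ v) :
    2 * u ^ 2 / W ^ 2 ≤ 2 * v ^ 2 / W ^ 2 := by
  apply div_le_div_of_nonneg_right _ (by positivity)
  have : u ^ 2 ≤ v ^ 2 := pow_le_pow_left₀ hu huv 2
  linarith

open Classical in
private lemma pt_bound {H a b : ℕ} (hH : 1 ≤ H) {x W : ℝ} (hx : 0 < x) (hW : 0 < W)
    {z : GaussianInt} (hz1 : x / 2 < (nN z : ℝ)) (hz2 : (nN z : ℝ) ≤ x * exp (1 / H))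
    (hz3 : Prim z) :
    cf H a b x W z ^ 2 ≤
      (if z ∈ ann 0 x then 2 * ((omR H a b z : ℝ) - W) ^ 2 / W ^ 2 else 0) +
      (if z ∈ ann 0 x then 2 * (dbl H a b z : ℝ) ^ 2 / W ^ 2 else 0) +
      (if z ∈ ann (x / 2) (x / 2 * exp (1 / H)) then 2 * (omR H a b z : ℝ) ^ 2 / W ^ 2 else 0) +
      (if z ∈ ann x (x * exp (1 / H)) then 2 * (omR H a b z : ℝ) ^ 2 / W ^ 2 else 0) := by
  have hcnt0 : (0 : ℝ) ≤ (cnt H a b x z : ℝ) := Nat.cast_nonneg _
  have hcle : (cnt H a b x z : ℝ) ≤ (omR H a b z : ℝ) := by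
    exact_mod_cast cnt_le H a b x z
  have hn0 : (0 : ℝ) ≤ nN z := Nat.cast_nonneg _
  have n1 : 0 ≤ (if z ∈ ann 0 x then 2 * ((omR H a b z : ℝ) - W) ^ 2 / W ^ 2 else 0) := by
    split_ifs <;> positivity
  have n2 : 0 ≤ (if z ∈ ann 0 x then 2 * (dbl H a b z : ℝ) ^ 2 / W ^ 2 else 0) := by
    split_ifs <;> positivity
  have n3 : 0 ≤ (if z ∈ ann (x / 2) (x / 2 * exp (1 / H)) then
      2 * (omR H a b z : ℝ) ^ 2 / W ^ 2 else 0) := by
    split_ifs <;> positivity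
  have n4 : 0 ≤ (if z ∈ ann x (x * exp (1 / H)) then
      2 * (omR H a b z : ℝ) ^ 2 / W ^ 2 else 0) := by
    split_ifs <;> positivity
  by_cases hzx : (nN z : ℝ) ≤ x
  · have hcz : cf H a b x W z = 1 - (cnt H a b x z : ℝ) / W := by unfold cf; rw [if_pos hzx]
    have hzA0 : z ∈ ann 0 x := by
      rw [mem_ann hx.le]
      exact ⟨by linarith, hzx⟩
    have hsq := real_split (o := (omR H a b z : ℝ)) (k := (cnt H a b x z : ℝ)) hW
    rw [← hcz] at hsq
    have q1 : (if z ∈ ann 0 x then 2 * ((omR H a b z : ℝ) - W) ^ 2 / W ^ 2 else 0) =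
      2 * ((omR H a b z : ℝ) - W) ^ 2 / W ^ 2 := if_pos hzA0
    by_cases hz4 : x / 2 * exp (1 / H) < nN z
    · have h5 : (omR H a b z : ℝ) ≤ cnt H a b x z + dbl H a b z := by
        exact_mod_cast omR_le_cnt H a b hH x hx.le z hz3 hz4 hzx
      have h6 := sq_div_le (W := W) (u := (omR H a b z : ℝ) - cnt H a b x z)
        (v := (dbl H a b z : ℝ)) (by linarith) (by linarith)
      have q2 : (if z ∈ ann 0 x then 2 * (dbl H a b z : ℝ) ^ 2 / W ^ 2 else 0) =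
        2 * (dbl H a b z : ℝ) ^ 2 / W ^ 2 := if_pos hzA0
      linarith
    · push Not at hz4
      have hzA1 : z ∈ ann (x / 2) (x / 2 * exp (1 / H)) := by
        rw [mem_ann (by positivity)]
        exact ⟨hz1, hz4⟩
      have h6 := sq_div_le (W := W) (u := (omR H a b z : ℝ) - cnt H a b x z)
        (v := (omR H a b z : ℝ)) (by linarith) (by linarith)
      have q3 : (if z ∈ ann (x / 2) (x / 2 * exp (1 / H)) then
        2 * (omR H a b z : ℝ) ^ 2 / W ^ 2 else 0) = 2 * (omR H a b z : ℝ) ^ 2 / W ^ 2 :=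
        if_pos hzA1
      linarith
  · have hcz : cf H a b x W z = - ((cnt H a b x z : ℝ) / W) := by
      unfold cf; rw [if_neg hzx]; ring
    push Not at hzx
    have hzA2 : z ∈ ann x (x * exp (1 / H)) := by
      rw [mem_ann (by positivity)]
      exact ⟨hzx, hz2⟩
    have h6 : cf H a b x W z ^ 2 ≤ 2 * (omR H a b z : ℝ) ^ 2 / W ^ 2 := by
      rw [hcz, neg_sq, div_pow]
      apply div_le_div_of_nonneg_right _ (by positivity)
      have : (cnt H a b x z : ℝ) ^ 2 ≤ (omR H a b z : ℝ) ^ 2 := pow_le_pow_left₀ hcnt0 hcle 2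
      nlinarith [sq_nonneg (omR H a b z : ℝ)]
    have q4 : (if z ∈ ann x (x * exp (1 / H)) then
      2 * (omR H a b z : ℝ) ^ 2 / W ^ 2 else 0) = 2 * (omR H a b z : ℝ) ^ 2 / W ^ 2 :=
      if_pos hzA2
    linarith

private lemma sum_cf {H a b : ℕ} (hH : 1 ≤ H) {x W : ℝ} (hx : 0 < x) (hW : 0 < W) :
    ∑ z ∈ pann (x / 2) (x * exp (1 / H)), cf H a b x W z ^ 2 ≤
      (2 / W ^ 2) * ∑ z ∈ ann 0 x, ((omR H a b z : ℝ) - W) ^ 2 +
      (2 / W ^ 2) * ∑ z ∈ ann 0 x, (dbl H a b z : ℝ) ^ 2 +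
      (2 / W ^ 2) * ∑ z ∈ ann (x / 2) (x / 2 * exp (1 / H)), (omR H a b z : ℝ) ^ 2 +
      (2 / W ^ 2) * ∑ z ∈ ann x (x * exp (1 / H)), (omR H a b z : ℝ) ^ 2 := by
  classical
  have hpt : ∀ z ∈ pann (x / 2) (x * exp (1 / H)), cf H a b x W z ^ 2 ≤ _ := fun z hz => by
    have h := (mem_pann (by positivity : 0 ≤ x * exp (1 / (H : ℝ)))).1 hz
    exact pt_bound (a := a) (b := b) hH hx hW h.1.1 h.1.2 h.2
  refine (Finset.sum_le_sum hpt).trans ?_
  rw [Finset.sum_add_distrib, Finset.sum_add_distrib, Finset.sum_add_distrib]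
  have conv : ∀ (A : Finset GaussianInt) (g : GaussianInt → ℝ),
      ∑ z ∈ A, 2 * g z ^ 2 / W ^ 2 = (2 / W ^ 2) * ∑ z ∈ A, g z ^ 2 := by
    intro A g
    rw [Finset.mul_sum]
    exact Finset.sum_congr rfl (fun z _ => by ring)
  have i1 := sum_ind_le (pann (x / 2) (x * exp (1 / H))) (ann 0 x)
    (fun z => 2 * ((omR H a b z : ℝ) - W) ^ 2 / W ^ 2) (fun z => by positivity)
  have i2 := sum_ind_le (pann (x / 2) (x * exp (1 / H))) (ann 0 x)
    (fun z => 2 * (dbl H a b z : ℝ) ^ 2 / W ^ 2) (fun z => by positivity)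
  have i3 := sum_ind_le (pann (x / 2) (x * exp (1 / H))) (ann (x / 2) (x / 2 * exp (1 / H)))
    (fun z => 2 * (omR H a b z : ℝ) ^ 2 / W ^ 2) (fun z => by positivity)
  have i4 := sum_ind_le (pann (x / 2) (x * exp (1 / H))) (ann x (x * exp (1 / H)))
    (fun z => 2 * (omR H a b z : ℝ) ^ 2 / W ^ 2) (fun z => by positivity)
  rw [conv _ (fun z => (omR H a b z : ℝ) - W)] at i1
  rw [conv _ (fun z => (dbl H a b z : ℝ))] at i2
  rw [conv _ (fun z => (omR H a b z : ℝ))] at i3 i4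
  exact add_le_add (add_le_add (add_le_add i1 i2) i3) i4

private lemma diff_eq {f : GaussianInt → ℂ} (hf : CMC f) {H a b : ℕ} (hH : 1 ≤ H) {x : ℝ}
    (hx : 0 < x) (W : ℝ) (m : ℤ) :
    Zs f (x / 2) x m - (1 / (W : ℂ)) * ∑ v ∈ Finset.Ico a b, Pb f H v m * Rb f H v x m =
      ∑ z ∈ pann (x / 2) (x * exp (1 / H)), ((cf H a b x W z : ℂ) * f z) * xi z ^ m := by
  classical
  have he0 : 1 ≤ exp (1 / (H : ℝ)) := one_le_exp (by positivity)
  rw [sum_Pb_Rb hf H a b hH x hx.le m]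
  have h1 : Zs f (x / 2) x m = ∑ z ∈ pann (x / 2) (x * exp (1 / H)),
      (if (nN z : ℝ) ≤ x then (1 : ℂ) else 0) * (f z * xi z ^ m) := by
    unfold Zs
    have : pann (x / 2) x = (pann (x / 2) (x * exp (1 / H))).filter
        (fun z => (nN z : ℝ) ≤ x) := by
      ext z
      rw [Finset.mem_filter, mem_pann hx.le, mem_pann (by positivity : 0 ≤ x * exp (1 / (H : ℝ)))]
      constructor
      · rintro ⟨⟨h1, h2⟩, h3⟩
        refine ⟨⟨⟨h1, h2.trans ?_⟩, h3⟩, h2⟩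
        nlinarith
      · rintro ⟨⟨⟨h1, _⟩, h3⟩, h4⟩
        exact ⟨⟨h1, h4⟩, h3⟩
    rw [this, Finset.sum_filter]
    apply Finset.sum_congr rfl
    intro z _
    split_ifs <;> simp
  rw [h1, Finset.mul_sum, ← Finset.sum_sub_distrib]
  apply Finset.sum_congr rfl
  intro z _
  unfold cf
  push_cast
  split_ifs
  · simp only [Complex.ofReal_one]; ring
  · simp only [Complex.ofReal_zero]; ring

private lemma norm_cf {f : GaussianInt → ℂ} (hf : CMC f) {H a b : ℕ} {x W : ℝ} (S : Finset GaussianInt)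
    (hS : ∀ z ∈ S, Prim z) :
    ∑ z ∈ S, ‖(cf H a b x W z : ℂ) * f z‖ ^ 2 ≤ ∑ z ∈ S, cf H a b x W z ^ 2 := by
  apply Finset.sum_le_sum
  intro z hz
  have h1 := hf.le z (prim_ne_zero (hS z hz))
  rw [norm_mul, Complex.norm_real, mul_pow, Real.norm_eq_abs, sq_abs]
  have h2 : ‖f z‖ ^ 2 ≤ 1 := pow_le_one₀ (norm_nonneg _) h1
  have h3 := sq_nonneg (cf H a b x W z)
  nlinarith

theorem DEC : ∃ C : ℝ, 0 < C ∧ ∀ f : GaussianInt → ℂ, CMC f → ∀ (H a b M : ℕ) (x : ℝ), 1 ≤ H →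
    (H : ℝ) ≤ exp ((a : ℝ) / H) → a < b → 1 ≤ WR H a b → exp (8 * ((b : ℝ) / H)) ≤ x →
    (M : ℝ) ≤ x →
    ∑ m ∈ fr M, ‖Zs f (x / 2) x m -
        (1 / (WR H a b : ℂ)) * ∑ v ∈ Finset.Ico a b, Pb f H v m * Rb f H v x m‖ ^ 2 ≤
      C * x ^ 2 * (1 / WR H a b + 1 / H) := by
  classical
  obtain ⟨CT, hCT, hT⟩ := TK
  obtain ⟨CS, hCS, hS⟩ := second_moment
  obtain ⟨CD, hCD, hD⟩ := dbl_moment
  obtain ⟨CL, hCL, hL⟩ := LSP
  refine ⟨4 * CL * (4 * CT + 8 * CD + 36 * CS), by positivity, ?_⟩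
  intro f hf H a b M x hH hHa hab hW hx hM
  obtain ⟨W, hWW⟩ : ∃ W, WR H a b = W := ⟨_, rfl⟩
  rw [hWW] at hW ⊢
  have hW0 : 0 < W := by linarith
  have hHr : (1 : ℝ) ≤ H := by exact_mod_cast hH
  have hH0 : (0 : ℝ) < H := by linarith
  have hbH : (0 : ℝ) ≤ (b : ℝ) / H := by positivity
  have hx1 : 1 ≤ x := (one_le_exp (by positivity)).trans hx
  have hx0 : 0 < x := by linarith
  have ht : |(1 : ℝ) / H| ≤ 1 := by
    rw [abs_of_nonneg (by positivity), div_le_one hH0]; exact hHr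
  have he1 : exp (1 / H) - 1 ≤ 2 / H := by
    have := abs_exp_sub_one_le ht
    rw [abs_of_nonneg (by positivity : (0 : ℝ) ≤ 1 / H)] at this
    have h2 := le_abs_self (exp (1 / (H : ℝ)) - 1)
    calc exp (1 / H) - 1 ≤ 2 * (1 / H) := h2.trans this
      _ = 2 / H := by ring
  have he3 : exp (1 / H) ≤ 3 := by
    have h2 : (2 : ℝ) / H ≤ 2 := by
      rw [div_le_iff₀ hH0]; linarith
    linarith
  have he0 : 1 ≤ exp (1 / (H : ℝ)) := one_le_exp (by positivity)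
  have hxe3 : x * exp (1 / H) ≤ 3 * x := by
    rw [mul_comm]; exact mul_le_mul_of_nonneg_right he3 hx0.le
  simp_rw [diff_eq hf hH hx0 W]
  have hSm : ∀ z ∈ pann (x / 2) (x * exp (1 / H)), Prim z ∧ (nN z : ℝ) ≤ 3 * x := by
    intro z hz
    have h := (mem_pann (by positivity : 0 ≤ x * exp (1 / (H : ℝ)))).1 hz
    exact ⟨h.2, h.1.2.trans hxe3⟩
  have hLS := hL (pann (x / 2) (x * exp (1 / H))) (fun z => (cf H a b x W z : ℂ) * f z) (3 * x) M
    (by linarith) hSm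
  refine hLS.trans ?_
  have hnorm := norm_cf hf (H := H) (a := a) (b := b) (x := x) (W := W)
    (pann (x / 2) (x * exp (1 / H))) (fun z hz => (hSm z hz).1)
  have hsum1 := sum_cf (a := a) (b := b) hH hx0 hW0
  -- the three moments
  have hpow : ∀ p ∈ SB H a b, (nN p : ℝ) ^ 8 ≤ x := by
    intro p hp
    have h := (SB_pi hH hp).2
    calc (nN p : ℝ) ^ 8 ≤ exp ((b : ℝ) / H) ^ 8 := pow_le_pow_left₀ (Nat.cast_nonneg _) h 8
      _ = exp (8 * ((b : ℝ) / H)) := by rw [← exp_nat_mul]; norm_num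
      _ ≤ x := hx
  have hpow4 : ∀ p ∈ SB H a b, (nN p : ℝ) ^ 4 ≤ x := by
    intro p hp
    have h1 : (1 : ℝ) ≤ nN p := by
      exact_mod_cast nN_pos (SB_pi hH hp).1.ne_zero
    exact le_trans (pow_le_pow_right₀ h1 (by norm_num)) (hpow p hp)
  have hTK := hT (SB H a b) x hx1 (fun p hp => ⟨(SB_pi hH hp).1, hpow4 p hp⟩)
  rw [WR_eq hH, hWW] at hTK
  simp_rw [omR_eq hH] at hTK
  have hDB := hD H a b x hH hHa hab.le hx0.le
  rw [hWW] at hDB
  have hH34 : x ^ ((3 : ℝ) / 4) ≤ x / H := by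
    have h1 : (H : ℝ) ≤ x ^ ((1 : ℝ) / 8) := by
      refine hHa.trans ?_
      have h2 : exp ((a : ℝ) / H) ≤ exp ((b : ℝ) / H) := by
        apply exp_le_exp.2
        apply div_le_div_of_nonneg_right _ hH0.le
        exact_mod_cast hab.le
      refine h2.trans ?_
      have h3 : exp ((b : ℝ) / H) = exp (8 * ((b : ℝ) / H)) ^ ((1 : ℝ) / 8) := by
        rw [← exp_mul]; congr 1; ring
      rw [h3]
      exact rpow_le_rpow (exp_pos _).le hx (by norm_num)
    rw [le_div_iff₀ hH0]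
    calc x ^ ((3 : ℝ) / 4) * H ≤ x ^ ((3 : ℝ) / 4) * x ^ ((1 : ℝ) / 8) :=
          mul_le_mul_of_nonneg_left h1 (by positivity)
      _ = x ^ ((3 : ℝ) / 4 + 1 / 8) := by rw [← rpow_add hx0]
      _ ≤ x ^ (1 : ℝ) := rpow_le_rpow_of_exponent_le hx1 (by norm_num)
      _ = x := rpow_one x
  have hW1 : (W + 1) ^ 2 ≤ 4 * W ^ 2 := by nlinarith
  have hxH : 0 ≤ x / H := by positivity
  have hxW : 0 ≤ x / W := by positivity
  have hlayer : ∀ u v : ℝ, 0 ≤ u → u ≤ v → v ≤ 3 * x → v - u ≤ 2 * x / H →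
      (2 / W ^ 2) * ∑ z ∈ ann u v, (omR H a b z : ℝ) ^ 2 ≤ 18 * CS * (x / H) := by
    intro u v hu huv hv hvu
    have h := hS (SB H a b) x u v hx1 hu huv hv (fun p hp => ⟨(SB_pi hH hp).1, hpow p hp⟩)
    rw [WR_eq hH, hWW] at h
    simp_rw [omR_eq hH] at h
    have h1 : (v - u) * (W + 1) ^ 2 ≤ (2 * x / H) * (4 * W ^ 2) :=
      mul_le_mul hvu hW1 (by positivity) (by positivity)
    have h2 : x ^ ((3 : ℝ) / 4) ≤ (x / H) * W ^ 2 := by
      refine hH34.trans ?_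
      have : 1 ≤ W ^ 2 := by nlinarith
      nlinarith
    have h3 : ∑ z ∈ ann u v, (omR H a b z : ℝ) ^ 2 ≤ 9 * CS * (x / H) * W ^ 2 := by
      refine h.trans ?_
      calc CS * ((v - u) * (W + 1) ^ 2 + x ^ ((3 : ℝ) / 4))
          ≤ CS * ((2 * x / H) * (4 * W ^ 2) + (x / H) * W ^ 2) :=
            mul_le_mul_of_nonneg_left (add_le_add h1 h2) hCS.le
        _ = 9 * CS * (x / H) * W ^ 2 := by ring
    calc (2 / W ^ 2) * ∑ z ∈ ann u v, (omR H a b z : ℝ) ^ 2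
        ≤ (2 / W ^ 2) * (9 * CS * (x / H) * W ^ 2) := mul_le_mul_of_nonneg_left h3 (by positivity)
      _ = 18 * CS * (x / H) := by field_simp; ring
  have hL1 := hlayer (x / 2) (x / 2 * exp (1 / H)) (by positivity) (by nlinarith)
    (by linarith) (by
      calc x / 2 * exp (1 / H) - x / 2 = x / 2 * (exp (1 / H) - 1) := by ring
        _ ≤ x / 2 * (2 / H) := mul_le_mul_of_nonneg_left he1 (by positivity)
        _ = x / H := by ring
        _ ≤ 2 * x / H := div_le_div_of_nonneg_right (by linarith) hH0.le)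
  have hL2 := hlayer x (x * exp (1 / H)) hx0.le (by nlinarith) hxe3 (by
      calc x * exp (1 / H) - x = x * (exp (1 / H) - 1) := by ring
        _ ≤ x * (2 / H) := mul_le_mul_of_nonneg_left he1 hx0.le
        _ = 2 * x / H := by ring)
  have e1 : (2 / W ^ 2) * ∑ z ∈ ann 0 x, ((omR H a b z : ℝ) - W) ^ 2 ≤ 4 * CT * (x / W) := by
    calc (2 / W ^ 2) * ∑ z ∈ ann 0 x, ((omR H a b z : ℝ) - W) ^ 2
        ≤ (2 / W ^ 2) * (CT * x * (W + 1)) := mul_le_mul_of_nonneg_left hTK (by positivity)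
      _ ≤ (2 / W ^ 2) * (CT * x * (2 * W)) := by
          apply mul_le_mul_of_nonneg_left _ (by positivity)
          apply mul_le_mul_of_nonneg_left _ (by positivity)
          linarith
      _ = 4 * CT * (x / W) := by field_simp; ring
  have e2 : (2 / W ^ 2) * ∑ z ∈ ann 0 x, (dbl H a b z : ℝ) ^ 2 ≤ 8 * CD * (x / H) := by
    calc (2 / W ^ 2) * ∑ z ∈ ann 0 x, (dbl H a b z : ℝ) ^ 2
        ≤ (2 / W ^ 2) * (CD * x * (W + 1) ^ 2 / H) :=
          mul_le_mul_of_nonneg_left hDB (by positivity)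
      _ ≤ (2 / W ^ 2) * (CD * x * (4 * W ^ 2) / H) := by
          apply mul_le_mul_of_nonneg_left _ (by positivity)
          apply div_le_div_of_nonneg_right _ hH0.le
          apply mul_le_mul_of_nonneg_left hW1 (by positivity)
      _ = 8 * CD * (x / H) := by field_simp; ring
  have hfin : ∑ z ∈ pann (x / 2) (x * exp (1 / H)), ‖(cf H a b x W z : ℂ) * f z‖ ^ 2 ≤
      (4 * CT + 8 * CD + 36 * CS) * (x / W + x / H) := by
    have h1 : ∑ z ∈ pann (x / 2) (x * exp (1 / H)), ‖(cf H a b x W z : ℂ) * f z‖ ^ 2 ≤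
        4 * CT * (x / W) + 8 * CD * (x / H) + 18 * CS * (x / H) + 18 * CS * (x / H) :=
      hnorm.trans (hsum1.trans (add_le_add (add_le_add (add_le_add e1 e2) hL1) hL2))
    refine h1.trans ?_
    have p1 : 0 ≤ CT * (x / H) := by positivity
    have p2 : 0 ≤ CD * (x / W) := by positivity
    have p3 : 0 ≤ CS * (x / W) := by positivity
    have : (4 * CT + 8 * CD + 36 * CS) * (x / W + x / H) =
      4 * CT * (x / W) + 8 * CD * (x / H) + 18 * CS * (x / H) + 18 * CS * (x / H) +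
      (4 * (CT * (x / H)) + 8 * (CD * (x / W)) + 36 * (CS * (x / W))) := by ring
    rw [this]
    linarith
  have hM4 : CL * (M + 3 * x) ≤ CL * (4 * x) := mul_le_mul_of_nonneg_left (by linarith) hCL.le
  calc CL * (M + 3 * x) * ∑ z ∈ pann (x / 2) (x * exp (1 / H)), ‖(cf H a b x W z : ℂ) * f z‖ ^ 2
      ≤ CL * (4 * x) * ((4 * CT + 8 * CD + 36 * CS) * (x / W + x / H)) :=
        mul_le_mul hM4 hfin (Finset.sum_nonneg (fun z _ => by positivity)) (by positivity)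
    _ = 4 * CL * (4 * CT + 8 * CD + 36 * CS) * x ^ 2 * (1 / W + 1 / H) := by
        field_simp

end Pool.Agent.NSqP
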