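import Pool.Agent.Lib.NSqP.WSmB

/-!
# Group W: small frequencies
-/

set_option autoImplicit false

namespace Pool.Agent.NSqP

open Finset

private lemma WSmall_xi (k : ℕ) (hk : 1 ≤ k) :
    xi (⟨(k : ℤ), 1⟩ : GaussianInt) =
      Complex.exp (((Real.arctan (1 / (k : ℝ)) : ℝ) : ℂ) * Complex.I) ∧
    xi (star (⟨(k : ℤ), 1⟩ : GaussianInt)) =
      Complex.exp (((-Real.arctan (1 / (k : ℝ)) : ℝ) : ℂ) * Complex.I) := by
  have hk0 : (0 : ℝ) < k := by exact_mod_cast hk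
  set R : ℝ := Real.sqrt ((k : ℝ) ^ 2 + 1) with hR
  have hR2 : 0 < (k : ℝ) ^ 2 + 1 := by positivity
  have hRpos : 0 < R := Real.sqrt_pos.2 hR2
  have hs : Real.sqrt (1 + (1 / (k : ℝ)) ^ 2) = R / k := by
    have e : 1 + (1 / (k : ℝ)) ^ 2 = ((k : ℝ) ^ 2 + 1) / (k : ℝ) ^ 2 := by
      field_simp
    rw [e, Real.sqrt_div hR2.le, Real.sqrt_sq hk0.le]
  have hcos : Real.cos (Real.arctan (1 / (k : ℝ))) = k / R := by
    rw [Real.cos_arctan, hs, one_div_div]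
  have hsin : Real.sin (Real.arctan (1 / (k : ℝ))) = 1 / R := by
    rw [Real.sin_arctan, hs]
    field_simp
  have e1 : (((⟨(k : ℤ), 1⟩ : GaussianInt) : GaussianInt) : ℂ) =
      ((k : ℝ) : ℂ) + ((1 : ℝ) : ℂ) * Complex.I := by
    apply Complex.ext <;> simp [GaussianInt.toComplex_def]
  have e2 : ((star (⟨(k : ℤ), 1⟩ : GaussianInt) : GaussianInt) : ℂ) =
      ((k : ℝ) : ℂ) + ((-1 : ℝ) : ℂ) * Complex.I := by
    apply Complex.ext <;> simp [GaussianInt.toComplex_def]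
  have n1 : ‖(((⟨(k : ℤ), 1⟩ : GaussianInt) : GaussianInt) : ℂ)‖ = R := by
    rw [e1, Complex.norm_add_mul_I, hR]
    norm_num
  have n2 : ‖((star (⟨(k : ℤ), 1⟩ : GaussianInt) : GaussianInt) : ℂ)‖ = R := by
    rw [e2, Complex.norm_add_mul_I, hR]
    norm_num
  constructor
  · unfold xi
    rw [n1, e1, Complex.exp_mul_I, ← Complex.ofReal_cos, ← Complex.ofReal_sin, hcos, hsin]
    push_cast
    ring
  · unfold xi
    rw [n2, e2, Complex.exp_mul_I, ← Complex.ofReal_cos, ← Complex.ofReal_sin, Real.cos_neg,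
      Real.sin_neg, hcos, hsin]
    push_cast
    ring

private lemma WSmall_lower (d : ℤ) (hd : d ≠ 0) :
    1 / 2 ≤ ‖xi (⟨(d.natAbs : ℤ), 1⟩ : GaussianInt) ^ d -
      xi (star (⟨(d.natAbs : ℤ), 1⟩ : GaussianInt)) ^ d‖ := by
  set k : ℕ := d.natAbs with hk
  have hk1 : 1 ≤ k := Int.natAbs_pos.2 hd
  have hk0 : (0 : ℝ) < k := by exact_mod_cast hk1
  have hk1' : (1 : ℝ) ≤ k := by exact_mod_cast hk1
  set θ : ℝ := Real.arctan (1 / (k : ℝ)) with hθ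
  obtain ⟨h1, h2⟩ := WSmall_xi k hk1
  rw [h1, h2, ← Complex.exp_int_mul, ← Complex.exp_int_mul]
  have hθpos : 0 < θ := Real.arctan_pos.2 (by positivity)
  have hθlt : θ < Real.pi / 2 := Real.arctan_lt_pi_div_two _
  have hup : (k : ℝ) * θ ≤ 1 := by
    have h3 : θ ≤ Real.tan θ := Real.le_tan hθpos.le hθlt
    rw [hθ, Real.tan_arctan, ← hθ] at h3
    calc (k : ℝ) * θ ≤ k * (1 / k) := mul_le_mul_of_nonneg_left h3 hk0.le
      _ = 1 := by field_simp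
  have hlow : 1 / 2 ≤ (k : ℝ) * θ := by
    have h3 : Real.sin θ ≤ θ := Real.sin_le hθpos.le
    have hR2 : 0 < 1 + (1 / (k : ℝ)) ^ 2 := by positivity
    have h4 : Real.sqrt (1 + (1 / (k : ℝ)) ^ 2) ≤ 2 := by
      rw [Real.sqrt_le_left (by norm_num)]
      have : (1 / (k : ℝ)) ≤ 1 := by rw [div_le_one hk0]; exact hk1'
      have h0 : 0 ≤ 1 / (k : ℝ) := by positivity
      nlinarith
    have h5 : (1 / (k : ℝ)) / 2 ≤ Real.sin θ := by
      rw [hθ, Real.sin_arctan]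
      exact div_le_div_of_nonneg_left (by positivity) (Real.sqrt_pos.2 hR2) h4
    calc (1 : ℝ) / 2 = k * ((1 / k) / 2) := by field_simp
      _ ≤ k * θ := mul_le_mul_of_nonneg_left (h5.trans h3) hk0.le
  have hd' : |(d : ℝ)| = k := by
    rw [hk, Nat.cast_natAbs]; push_cast; rfl
  have e : Complex.exp ((d : ℂ) * (((θ : ℝ) : ℂ) * Complex.I)) -
      Complex.exp ((d : ℂ) * (((-θ : ℝ) : ℂ) * Complex.I)) =
      ((2 * Real.sin ((d : ℝ) * θ) : ℝ) : ℂ) * Complex.I := by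
    have a1 : (d : ℂ) * (((θ : ℝ) : ℂ) * Complex.I) = (((d : ℝ) * θ : ℝ) : ℂ) * Complex.I := by
      push_cast; ring
    have a2 : (d : ℂ) * (((-θ : ℝ) : ℂ) * Complex.I) = ((-((d : ℝ) * θ) : ℝ) : ℂ) * Complex.I := by
      push_cast; ring
    rw [a1, a2, Complex.exp_mul_I, Complex.exp_mul_I, ← Complex.ofReal_cos, ← Complex.ofReal_sin,
      ← Complex.ofReal_cos, ← Complex.ofReal_sin, Real.cos_neg, Real.sin_neg]
    push_cast
    ring
  rw [e, norm_mul, Complex.norm_I, mul_one, Complex.norm_real, Real.norm_eq_abs, abs_mul,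
    abs_of_pos (by norm_num : (0 : ℝ) < 2)]
  have hsinabs : |Real.sin ((d : ℝ) * θ)| = |Real.sin ((k : ℝ) * θ)| := by
    rw [← hd']
    rcases abs_cases (d : ℝ) with ⟨h, _⟩ | ⟨h, _⟩
    · rw [h]
    · rw [h, neg_mul, Real.sin_neg, abs_neg]
  rw [hsinabs]
  have hkθ0 : 0 ≤ (k : ℝ) * θ := by positivity
  have hpi : (1 : ℝ) ≤ Real.pi / 2 := by linarith [Real.pi_gt_three]
  have hms := Real.mul_le_sin hkθ0 (hup.trans hpi)
  have hpi4 : Real.pi ≤ 4 := Real.pi_le_four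
  have h2pi : (1 : ℝ) / 2 ≤ 2 / Real.pi := by
    rw [div_le_div_iff₀ (by norm_num) Real.pi_pos]
    linarith
  have h6 : 1 / 4 ≤ Real.sin ((k : ℝ) * θ) := by
    calc (1 : ℝ) / 4 = 1 / 2 * (1 / 2) := by norm_num
      _ ≤ 2 / Real.pi * ((k : ℝ) * θ) :=
          mul_le_mul h2pi hlow (by norm_num) (by positivity)
      _ ≤ _ := hms
  rw [abs_of_nonneg (by linarith)]
  linarith

/-- Small frequencies. `κ = |d| + i`: `ξ(κ)^d - ξ(star κ)^d = ± 2 i sin (d arctan (1/d))` has modulus at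
least `1/2`, since `d arctan (1/d)` lies in `[1/2, 1]`. Subtract the two inequalities
of `residues`. -/
theorem W_small : ∃ C : ℝ, 0 < C ∧ ∀ d : ℤ, d ≠ 0 → ∀ b : ℝ, 1 ≤ b →
    ‖∑ z ∈ ann 0 b, xi z ^ d‖ ≤ C * (b ^ (3 / 4 : ℝ) + |(d : ℝ)| * Real.sqrt b) := by
  obtain ⟨C, hC, hres⟩ := residues
  refine ⟨4 * C, by positivity, fun d hd b hb => ?_⟩
  set κ : GaussianInt := ⟨(d.natAbs : ℤ), 1⟩ with hκ
  have hκ0 : κ ≠ 0 := by
    intro h
    have := congrArg Zsqrtd.im h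
    simp [hκ] at this
  obtain ⟨m, hm, h⟩ := hres κ hκ0
  obtain ⟨h1, h2⟩ := h d hd b hb
  set S : ℂ := ∑ z ∈ ann 0 b, xi z ^ d with hS
  set S' : ℂ := ∑ w ∈ ann 0 (nN κ * b), xi w ^ d with hS'
  set E : ℝ := b ^ (3 / 4 : ℝ) + |(d : ℝ)| * Real.sqrt b with hE
  have hm0 : (0 : ℝ) < m := by exact_mod_cast hm
  have h3 : ‖(m : ℂ) * (xi κ ^ d - xi (star κ) ^ d) * S‖ ≤ 2 * (C * m * E) := by
    have e : (m : ℂ) * (xi κ ^ d - xi (star κ) ^ d) * S =
        (S' - (m : ℂ) * xi (star κ) ^ d * S) - (S' - (m : ℂ) * xi κ ^ d * S) := by ring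
    rw [e]
    refine (norm_sub_le _ _).trans ?_
    linarith
  rw [norm_mul, norm_mul, Complex.norm_natCast] at h3
  have h4 := WSmall_lower d hd
  rw [← hκ] at h4
  have h5 : (m : ℝ) * (1 / 2) * ‖S‖ ≤ 2 * (C * m * E) := by
    refine le_trans ?_ h3
    refine mul_le_mul_of_nonneg_right ?_ (norm_nonneg _)
    exact mul_le_mul_of_nonneg_left h4 hm0.le
  have h6 : (m : ℝ) * ‖S‖ ≤ m * (4 * C * E) := by
    calc (m : ℝ) * ‖S‖ = 2 * ((m : ℝ) * (1 / 2) * ‖S‖) := by ring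
      _ ≤ 2 * (2 * (C * m * E)) := by linarith
      _ = m * (4 * C * E) := by ring
  exact le_of_mul_le_mul_left h6 hm0

end Pool.Agent.NSqP
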