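import Pool.Agent.Lib.NSqP.PiA
import Pool.Agent.Lib.NSqP.LC

/-!
# PIF: further facts on the Gaussian primes of the blocks
-/

set_option autoImplicit false

namespace Pool.Agent.NSqP

open Real
open Pool.Agent.MP484c84Par (ballG mem_ballG crossG badEdges mem_badEdges CM F)

theorem blk_disjoint {H : ℕ} (hH : 1 ≤ H) {v v' : ℕ} (h : v ≠ v') :
    Disjoint (blk H v) (blk H v') := by
  classical
  have hHr : (0 : ℝ) < H := by exact_mod_cast hH
  have key : ∀ u u' : ℕ, u < u' → Disjoint (blk H u) (blk H u') := by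
    intro u u' huu
    rw [Finset.disjoint_left]
    intro z hz hz'
    rw [mem_blk] at hz hz'
    have h1 : ((u : ℝ) + 1) / H ≤ (u' : ℝ) / H := by
      have : ((u : ℝ) + 1) ≤ (u' : ℝ) := by exact_mod_cast huu
      gcongr
    have h2 := Real.exp_le_exp.2 h1
    linarith [hz.2.2, hz'.2.1]
  rcases lt_or_gt_of_ne h with h1 | h1
  · exact key _ _ h1
  · exact (key _ _ h1).symm

private lemma inv_le_log {n : ℕ} (hn : 1 ≤ n) :
    1 / ((n : ℝ) + 1) ≤ log ((n : ℝ) + 1) - log n := by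
  have hn0 : (0 : ℝ) < n := by exact_mod_cast hn
  have h1 := Real.one_sub_inv_le_log_of_pos (x := ((n : ℝ) + 1) / n) (by positivity)
  rw [Real.log_div (by positivity) hn0.ne'] at h1
  have h2 : 1 - (((n : ℝ) + 1) / n)⁻¹ = 1 / ((n : ℝ) + 1) := by
    rw [inv_div]
    field_simp
    ring
  linarith

private lemma sum_Ico_inv (m k : ℕ) (hm : 1 ≤ m) :
    ∑ n ∈ Finset.Ico m (m + k + 1), 1 / (n : ℝ) ≤ 1 / (m : ℝ) + log ((m : ℝ) + k) - log m := by
  induction k with
  | zero => simp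
  | succ k ih =>
    have h1 : m + (k + 1) + 1 = (m + k + 1) + 1 := by ring
    rw [h1, Finset.sum_Ico_succ_top (by omega)]
    have h2 := inv_le_log (n := m + k) (by omega)
    push_cast at h2 ⊢
    have h3 : (m : ℝ) + (k + 1) = (m : ℝ) + k + 1 := by ring
    rw [h3]
    linarith

/-- trivial bound: the norms are integers of `[e^(v/H), e^((v+1)/H))`, each at most twice -/
theorem sv_le {H : ℕ} (hH : 1 ≤ H) (v : ℕ) :
    sv H v ≤ 2 * (1 / H + exp (-((v : ℝ) / H))) := by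
  classical
  have hHr : (0 : ℝ) < H := by exact_mod_cast hH
  set A : ℝ := exp ((v : ℝ) / H) with hA
  set B : ℝ := exp (((v : ℝ) + 1) / H) with hB
  have hA1 : 1 ≤ A := Real.one_le_exp (by positivity)
  have hA0 : 0 < A := Real.exp_pos _
  have hB0 : 0 < B := Real.exp_pos _
  have hmaps : ∀ z ∈ blk H v, nN z ∈ Finset.Ico ⌈A⌉₊ ⌈B⌉₊ := by
    intro z hz
    rw [mem_blk] at hz
    rw [Finset.mem_Ico]
    exact ⟨Nat.ceil_le.2 hz.2.1, Nat.lt_ceil.2 hz.2.2⟩
  have h1 : sv H v ≤ ∑ n ∈ Finset.Ico ⌈A⌉₊ ⌈B⌉₊, 2 * (1 / (n : ℝ)) := by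
    unfold sv
    rw [← Finset.sum_fiberwise_of_maps_to hmaps]
    apply Finset.sum_le_sum
    intro n _
    have h2 : ∑ z ∈ (blk H v).filter (fun z => nN z = n), 1 / (nN z : ℝ) =
        (((blk H v).filter (fun z => nN z = n)).card : ℝ) * (1 / (n : ℝ)) := by
      rw [Finset.sum_congr rfl (g := fun _ => 1 / (n : ℝ))]
      · rw [Finset.sum_const, nsmul_eq_mul]
      · intro z hz
        rw [(Finset.mem_filter.1 hz).2]
    rw [h2]
    have h3 : ((blk H v).filter (fun z => nN z = n)).card ≤ 2 := by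
      apply card_norm_le _ n
      intro z hz
      rw [Finset.mem_filter, mem_blk] at hz
      exact ⟨hz.1.1, hz.2⟩
    have h4 : (((blk H v).filter (fun z => nN z = n)).card : ℝ) ≤ 2 := by exact_mod_cast h3
    have h5 : (0 : ℝ) ≤ 1 / (n : ℝ) := by positivity
    exact mul_le_mul_of_nonneg_right h4 h5
  refine h1.trans ?_
  rw [← Finset.mul_sum]
  refine mul_le_mul_of_nonneg_left ?_ (by norm_num)
  have hexp : exp (-((v : ℝ) / H)) = 1 / A := by rw [hA, Real.exp_neg, one_div]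
  rw [hexp]
  rcases Nat.lt_or_ge ⌈A⌉₊ ⌈B⌉₊ with hlt | hge
  · obtain ⟨k, hk⟩ : ∃ k, ⌈B⌉₊ = ⌈A⌉₊ + k + 1 := ⟨⌈B⌉₊ - ⌈A⌉₊ - 1, by omega⟩
    have hm1 : 1 ≤ ⌈A⌉₊ := Nat.one_le_ceil_iff.2 hA0
    rw [hk]
    refine (sum_Ico_inv _ k hm1).trans ?_
    have hmA : A ≤ (⌈A⌉₊ : ℝ) := Nat.le_ceil _
    have h6 : 1 / (⌈A⌉₊ : ℝ) ≤ 1 / A := one_div_le_one_div_of_le hA0 hmA
    have h7 : log A ≤ log (⌈A⌉₊ : ℝ) := Real.log_le_log hA0 hmA
    have h8 : (⌈A⌉₊ : ℝ) + k < B := by
      have h9 : ⌈A⌉₊ + k < ⌈B⌉₊ := by omega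
      have := Nat.lt_ceil.1 h9
      push_cast at this
      exact this
    have h9 : log ((⌈A⌉₊ : ℝ) + k) ≤ log B := by
      apply Real.log_le_log _ h8.le
      have : (1 : ℝ) ≤ (⌈A⌉₊ : ℝ) := by exact_mod_cast hm1
      positivity
    have h10 : log B - log A = 1 / H := by
      rw [hA, hB, Real.log_exp, Real.log_exp]
      field_simp
      ring
    linarith
  · rw [Finset.Ico_eq_empty (by omega), Finset.sum_empty]
    positivity

private lemma star_dvd_of {p w : GaussianInt} (hp0 : p ≠ 0)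
    (h : ((nN p : ℕ) : GaussianInt) ∣ p * w) : star p ∣ w := by
  have h1 : ((nN p : ℕ) : GaussianInt) = p * star p := by
    have h2 : ((nN p : ℕ) : GaussianInt) = (((nN p : ℕ) : ℤ) : GaussianInt) := by push_cast; rfl
    rw [h2, nN_cast_int, Zsqrtd.norm_eq_mul_conj]
  rw [h1] at h
  exact (mul_dvd_mul_iff_left hp0).1 h

private lemma natCast_dvd_iff (q : ℕ) (z : GaussianInt) :
    ((q : ℕ) : GaussianInt) ∣ z ↔ q ∣ cont z := by
  have h1 : ((q : ℕ) : GaussianInt) = ((q : ℤ) : GaussianInt) := by push_cast; rfl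
  rw [h1, Zsqrtd.intCast_dvd]
  unfold cont
  constructor
  · rintro ⟨h2, h3⟩
    exact Int.dvd_gcd h2 h3
  · intro h
    have h2 : (q : ℤ) ∣ (Int.gcd z.re z.im : ℤ) := by exact_mod_cast h
    exact ⟨h2.trans (Int.gcd_dvd_left _ _), h2.trans (Int.gcd_dvd_right _ _)⟩

/-- a product `π w` is primitive if `w` is primitive and no element of the block divides `w`:
if a rational prime `q` divides `π w` then either `q ∤ N π` and `q ∣ w`, or `q = N π` and the
conjugate of `π` (whose first quadrant associate is in the block) divides `w` -/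
theorem prim_mul {H v : ℕ} {p w : GaussianInt} (hp : p ∈ blk H v) (hw : Prim w)
    (hd : ∀ q ∈ blk H v, ¬ q ∣ w) : Prim (p * w) := by
  have hpi := (mem_blk.1 hp).1
  have hp0 : p ≠ 0 := hpi.ne_zero
  unfold Prim
  by_contra hcon
  obtain ⟨q, hq, hqd⟩ := Nat.exists_prime_and_dvd hcon
  rw [← natCast_dvd_iff] at hqd
  by_cases hqn : q = nN p
  · rw [hqn] at hqd
    have h1 := star_dvd_of hp0 hqd
    have h2 : (⟨p.im, p.re⟩ : GaussianInt) ∈ blk H v := by
      have hn : nN (⟨p.im, p.re⟩ : GaussianInt) = nN p := by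
        unfold nN
        rw [Zsqrtd.norm_def, Zsqrtd.norm_def]
        congr 1
        ring
      rw [mem_blk] at hp ⊢
      unfold IsPi at hp ⊢
      rw [hn]
      exact ⟨⟨hp.1.2.1, hp.1.1, hp.1.2.2⟩, hp.2⟩
    have h3 : (⟨p.im, p.re⟩ : GaussianInt) ∣ star p := by
      refine ⟨⟨0, -1⟩, ?_⟩
      ext
      · simp [Zsqrtd.re_mul]
      · simp [Zsqrtd.im_mul]
    exact hd _ h2 (h3.trans h1)
  · have h1 : IsCoprime ((q : ℕ) : GaussianInt) ((nN p : ℕ) : GaussianInt) := by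
      have h2 : IsCoprime (q : ℤ) ((nN p : ℕ) : ℤ) := by
        rw [Nat.isCoprime_iff_coprime]
        exact (Nat.coprime_primes hq hpi.2.2.1).2 hqn
      have h3 := h2.map (Int.castRingHom GaussianInt)
      simpa using h3
    have h4 : IsCoprime ((q : ℕ) : GaussianInt) p := by
      have h5 : ((nN p : ℕ) : GaussianInt) = p * star p := by
        have h2 : ((nN p : ℕ) : GaussianInt) = (((nN p : ℕ) : ℤ) : GaussianInt) := by
          push_cast; rfl
        rw [h2, nN_cast_int, Zsqrtd.norm_eq_mul_conj]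
      rw [h5] at h1
      exact h1.of_mul_right_left
    have h6 : ((q : ℕ) : GaussianInt) ∣ w := h4.dvd_of_dvd_mul_left hqd
    rw [natCast_dvd_iff] at h6
    unfold Prim at hw
    rw [hw] at h6
    exact hq.one_lt.ne' (Nat.dvd_one.1 h6)

/-- a divisor of a primitive element is primitive -/
theorem prim_of_dvd {z w : GaussianInt} (hz : Prim z) (hw : w ∣ z) : Prim w := by
  have h1 : ((cont w : ℕ) : GaussianInt) ∣ w := (natCast_dvd_iff _ _).2 dvd_rfl
  have h2 := (natCast_dvd_iff _ _).1 (h1.trans hw)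
  unfold Prim at hz ⊢
  rw [hz] at h2
  exact Nat.dvd_one.1 h2

private lemma nN_prod (S : Finset GaussianInt) : nN (∏ p ∈ S, p) = ∏ p ∈ S, nN p := by
  classical
  induction S using Finset.induction_on with
  | empty => simp [nN_one]
  | insert a S ha ih => rw [Finset.prod_insert ha, Finset.prod_insert ha, nN_mul, ih]

open Classical in
/-- the number of `z` in an annulus divisible by all elements of `S` -/
theorem card_all_dvd (S : Finset GaussianInt) (hS : ∀ p ∈ S, IsPi p) {a b : ℝ} (ha : 0 ≤ a)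
    (hb : 0 ≤ b) : ((ann a b).filter (fun z => ∀ p ∈ S, p ∣ z)).card =
      (ann (a / ∏ p ∈ S, (nN p : ℝ)) (b / ∏ p ∈ S, (nN p : ℝ))).card := by
  have h0 : (∏ p ∈ S, p) ≠ 0 := Finset.prod_ne_zero_iff.2 (fun p hp => (hS p hp).ne_zero)
  have h1 : (ann a b).filter (fun z => ∀ p ∈ S, p ∣ z) =
      (ann a b).filter (fun z => (∏ p ∈ S, p) ∣ z) := by
    apply Finset.filter_congr
    intro z _
    exact (prod_dvd_iff S hS z).symm
  rw [h1, card_dvd h0 ha hb, nN_prod]
  push_cast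
  rfl

end Pool.Agent.NSqP
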