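import Pool.Agent.Lib.NSqP.Basic

/-!
# PIA: Gaussian primes of the first quadrant
-/

set_option autoImplicit false

namespace Pool.Agent.NSqP

open Real
open Pool.Agent.MP484c84Par (ballG mem_ballG crossG badEdges mem_badEdges CM F)

private lemma isUnit_of_nN {z : GaussianInt} (h : nN z = 1) : IsUnit z :=
  Zsqrtd.norm_eq_one_iff.1 h

private lemma nN_of_isUnit {z : GaussianInt} (h : IsUnit z) : nN z = 1 :=
  Zsqrtd.norm_eq_one_iff.2 h

/-- prime norm implies prime -/
theorem IsPi.prime {z : GaussianInt} (hz : IsPi z) : Prime z := by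
  have hirr : Irreducible z := by
    constructor
    · intro hu
      have h1 := nN_of_isUnit hu
      have h2 := hz.2.2.1
      rw [h1] at h2
      exact Nat.not_prime_one h2
    · intro a b hab
      have h1 : nN z = nN a * nN b := by rw [hab, nN_mul]
      have h2 := hz.2.2.1
      rw [h1] at h2
      rcases Nat.prime_mul_iff.1 h2 with h3 | h3
      · exact Or.inr (isUnit_of_nN h3.2)
      · exact Or.inl (isUnit_of_nN h3.2)
  exact hirr.prime

/-- a divisor of prime norm is an associate, in coordinates -/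
private lemma nN_eq_one_cases {c : GaussianInt} (h : nN c = 1) :
    c = ⟨1, 0⟩ ∨ c = ⟨-1, 0⟩ ∨ c = ⟨0, 1⟩ ∨ c = ⟨0, -1⟩ := by
  have h1 : ((nN c : ℕ) : ℤ) = c.norm := nN_cast_int c
  rw [h, Zsqrtd.norm_def] at h1
  have h2 : c.re * c.re + c.im * c.im = 1 := by push_cast at h1; linarith
  have h3 : -1 ≤ c.re := by nlinarith [mul_self_nonneg c.im, mul_self_nonneg (c.re - 1)]
  have h4 : c.re ≤ 1 := by nlinarith [mul_self_nonneg c.im, mul_self_nonneg (c.re - 1)]
  have h5 : -1 ≤ c.im := by nlinarith [mul_self_nonneg c.re, mul_self_nonneg (c.im - 1)]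
  have h6 : c.im ≤ 1 := by nlinarith [mul_self_nonneg c.re, mul_self_nonneg (c.im - 1)]
  obtain ⟨x, y⟩ := c
  simp only at h2 h3 h4 h5 h6
  have hx : x = -1 ∨ x = 0 ∨ x = 1 := by omega
  have hy : y = -1 ∨ y = 0 ∨ y = 1 := by omega
  rcases hx with rfl | rfl | rfl <;> rcases hy with rfl | rfl | rfl <;> simp_all

private lemma eq_of_dvd {z w : GaussianInt} (hz : IsPi z) (hw : IsPi w) (h : z ∣ w) : z = w := by
  obtain ⟨c, hc⟩ := h
  have h1 : nN w = nN z * nN c := by rw [hc, nN_mul]
  have h2 := hw.2.2.1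
  rw [h1] at h2
  have h3 : nN c = 1 := by
    rcases Nat.prime_mul_iff.1 h2 with h3 | h3
    · exact h3.2
    · exact absurd h3.2 hz.2.2.1.one_lt.ne'
  have hwre : 0 < w.re := hw.1
  have hwim : 0 < w.im := hw.2.1
  have hzre : 0 < z.re := hz.1
  have hzim : 0 < z.im := hz.2.1
  rcases nN_eq_one_cases h3 with rfl | rfl | rfl | rfl
  · rw [hc]
    ext <;> simp [Zsqrtd.re_mul, Zsqrtd.im_mul]
  · exfalso
    rw [hc] at hwre
    simp [Zsqrtd.re_mul] at hwre
    omega
  · exfalso
    rw [hc] at hwre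
    simp [Zsqrtd.re_mul] at hwre
    omega
  · exfalso
    rw [hc] at hwim
    simp [Zsqrtd.im_mul] at hwim
    omega

/-- two distinct elements are not associated (units move the first quadrant) -/
theorem IsPi.coprime {z w : GaussianInt} (hz : IsPi z) (hw : IsPi w) (hne : z ≠ w) :
    IsCoprime z w := by
  rw [Irreducible.coprime_iff_not_dvd hz.prime.irreducible]
  exact fun h => hne (eq_of_dvd hz hw h)

private lemma mul_star_eq {z : GaussianInt} : z * star z = ((nN z : ℕ) : GaussianInt) := by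
  have h1 : ((nN z : ℕ) : GaussianInt) = (((nN z : ℕ) : ℤ) : GaussianInt) := by push_cast; rfl
  rw [h1, nN_cast_int, Zsqrtd.norm_eq_mul_conj]

/-- at most two elements of given norm `p`: `w ∣ p = z * conj z` -/
theorem card_norm_le (S : Finset GaussianInt) (p : ℕ) (hS : ∀ z ∈ S, IsPi z ∧ nN z = p) :
    S.card ≤ 2 := by
  by_contra hcon
  push Not at hcon
  obtain ⟨a, ha, b, hb, c, hc, hab, hac, hbc⟩ := Finset.two_lt_card.1 hcon
  have key : ∀ w ∈ S, a ≠ w → w ∣ star a := by
    intro w hw hne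
    have h1 : w ∣ a * star a := by
      rw [mul_star_eq, (hS a ha).2, ← (hS w hw).2, ← mul_star_eq]
      exact dvd_mul_right _ _
    rcases (hS w hw).1.prime.dvd_or_dvd h1 with h2 | h2
    · exact absurd (eq_of_dvd (hS w hw).1 (hS a ha).1 h2).symm hne
    · exact h2
  have h1 := key b hb hab
  have h2 := key c hc hac
  have h3 : b * c ∣ star a := ((hS b hb).1.coprime (hS c hc).1 hbc).mul_dvd h1 h2
  obtain ⟨d, hd⟩ := h3
  have h4 : p = p * p * nN d := by
    have : nN (star a) = nN (b * c * d) := by rw [hd]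
    rw [nN_star, (hS a ha).2, nN_mul, nN_mul, (hS b hb).2, (hS c hc).2] at this
    exact this
  have hp : p.Prime := by
    have := (hS a ha).1.2.2.1
    rwa [(hS a ha).2] at this
  have h5 : 1 = p * nN d := by
    have h6 : p * 1 = p * (p * nN d) := by rw [mul_one, ← mul_assoc]; exact h4
    exact Nat.eq_of_mul_eq_mul_left hp.pos h6
  have h6 : p ∣ 1 := ⟨_, h5⟩
  exact hp.one_lt.ne' (Nat.dvd_one.1 h6)

/-- a prime `p ≡ 1 (mod 4)` is the norm of two different elements -/
theorem exists_two_pi {p : ℕ} (hp : p.Prime) (h4 : p % 4 = 1) :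
    ∃ z w : GaussianInt, z ≠ w ∧ IsPi z ∧ IsPi w ∧ nN z = p ∧ nN w = p := by
  have : Fact p.Prime := ⟨hp⟩
  obtain ⟨a, b, hab⟩ := Nat.Prime.sq_add_sq (p := p) (by omega)
  have ha : 0 < a := by
    rcases Nat.eq_zero_or_pos a with h | h
    · exfalso
      rw [h] at hab
      have h1 : b ∣ p := ⟨b, by rw [← hab]; ring⟩
      rcases (Nat.dvd_prime hp).1 h1 with h2 | h2
      · rw [h2] at hab
        have h3 : p = 1 := by rw [← hab]; norm_num
        exact absurd h3 hp.one_lt.ne'
      · rw [h2] at hab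
        have := hp.two_le
        nlinarith
    · exact h
  have hb : 0 < b := by
    rcases Nat.eq_zero_or_pos b with h | h
    · exfalso
      rw [h] at hab
      have h1 : a ∣ p := ⟨a, by rw [← hab]; ring⟩
      rcases (Nat.dvd_prime hp).1 h1 with h2 | h2
      · rw [h2] at hab
        have h3 : p = 1 := by rw [← hab]; norm_num
        exact absurd h3 hp.one_lt.ne'
      · rw [h2] at hab
        have := hp.two_le
        nlinarith
    · exact h
  have hne : a ≠ b := by
    intro h
    rw [h] at hab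
    omega
  have hn1 : nN (⟨a, b⟩ : GaussianInt) = p := by
    unfold nN
    rw [Zsqrtd.norm_def]
    simp only
    rw [← hab]
    have : ((a : ℤ) * a - -1 * b * b) = ((a ^ 2 + b ^ 2 : ℕ) : ℤ) := by push_cast; ring
    rw [this, Int.natAbs_natCast]
  have hn2 : nN (⟨b, a⟩ : GaussianInt) = p := by
    unfold nN
    rw [Zsqrtd.norm_def]
    simp only
    rw [← hab]
    have : ((b : ℤ) * b - -1 * a * a) = ((a ^ 2 + b ^ 2 : ℕ) : ℤ) := by push_cast; ring
    rw [this, Int.natAbs_natCast]
  have h2p : 2 < p := by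
    have := hp.two_le
    omega
  refine ⟨⟨a, b⟩, ⟨b, a⟩, ?_, ⟨by simpa using ha, by simpa using hb, by rw [hn1]; exact hp,
    by rw [hn1]; exact h2p⟩, ⟨by simpa using hb, by simpa using ha, by rw [hn2]; exact hp,
    by rw [hn2]; exact h2p⟩, hn1, hn2⟩
  intro h
  have h1 := congrArg Zsqrtd.re h
  simp only at h1
  exact hne (by exact_mod_cast h1)

/-- several different elements of `IsPi` divide `z` if and only if their product does -/
theorem prod_dvd_iff (S : Finset GaussianInt) (hS : ∀ p ∈ S, IsPi p) (z : GaussianInt) :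
    (∏ p ∈ S, p) ∣ z ↔ ∀ p ∈ S, p ∣ z := by
  constructor
  · intro h p hp
    exact (Finset.dvd_prod_of_mem (fun p => p) hp).trans h
  · intro h
    apply Finset.prod_dvd_of_coprime (s := fun p : GaussianInt => p)
    · intro p hp q hq hne
      exact (hS p hp).coprime (hS q hq) hne
    · exact h

end Pool.Agent.NSqP
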