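import Pool.Agent.Lib.NSqP.WDefs

/-!
# Group W: counting the exceptional points
-/

set_option autoImplicit false

namespace Pool.Agent.NSqP

open Finset

private lemma wbad_card_int (S : Finset ℤ) (X : ℝ) (hX : 0 ≤ X) (hS : ∀ x ∈ S, |(x : ℝ)| ≤ X) :
    (S.card : ℝ) ≤ 2 * X + 1 := by
  have hsub : S ⊆ Finset.Icc (-⌊X⌋) ⌊X⌋ := by
    intro x hx
    have h := abs_le.1 (hS x hx)
    rw [Finset.mem_Icc]
    constructor
    · have : (-x : ℤ) ≤ ⌊X⌋ := Int.le_floor.2 (by push_cast; linarith [h.1])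
      linarith
    · exact Int.le_floor.2 h.2
  have h1 := Finset.card_le_card hsub
  rw [Int.card_Icc] at h1
  have h0 : 0 ≤ ⌊X⌋ := Int.floor_nonneg.2 hX
  have h2 : ((⌊X⌋ + 1 - -⌊X⌋).toNat : ℤ) = 2 * ⌊X⌋ + 1 := by
    rw [Int.toNat_of_nonneg (by linarith)]
    ring
  have h3 : ((⌊X⌋ + 1 - -⌊X⌋).toNat : ℝ) = 2 * (⌊X⌋ : ℝ) + 1 := by exact_mod_cast h2
  have h4 : (S.card : ℝ) ≤ ((⌊X⌋ + 1 - -⌊X⌋).toNat : ℝ) := by exact_mod_cast h1
  have h5 : (⌊X⌋ : ℝ) ≤ X := Int.floor_le X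
  linarith

private lemma wbad_card_nonneg (S : Finset ℤ) (c E : ℝ) (h0 : ∀ x ∈ S, 0 ≤ x)
    (hS : ∀ x ∈ S, |(x : ℝ) ^ 2 - c| < E) : (S.card : ℝ) ≤ Real.sqrt (2 * E) + 1 := by
  rcases S.eq_empty_or_nonempty with rfl | hne
  · have := Real.sqrt_nonneg (2 * E)
    simp only [Finset.card_empty, Nat.cast_zero]
    linarith
  · set a := S.min' hne with ha
    set b := S.max' hne with hb
    have haS : a ∈ S := S.min'_mem hne
    have hbS : b ∈ S := S.max'_mem hne
    have hab : a ≤ b := S.min'_le_max' hne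
    have hsub : S ⊆ Finset.Icc a b := by
      intro x hx
      rw [Finset.mem_Icc]
      exact ⟨S.min'_le x hx, S.le_max' x hx⟩
    have h1 := Finset.card_le_card hsub
    rw [Int.card_Icc] at h1
    have h2 : ((b + 1 - a).toNat : ℤ) = b + 1 - a := Int.toNat_of_nonneg (by linarith)
    have h3 : ((b + 1 - a).toNat : ℝ) = (b : ℝ) + 1 - a := by exact_mod_cast h2
    have h4 : (S.card : ℝ) ≤ ((b + 1 - a).toNat : ℝ) := by exact_mod_cast h1
    have ha0 : (0 : ℝ) ≤ a := by exact_mod_cast h0 a haS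
    have hab' : (a : ℝ) ≤ b := by exact_mod_cast hab
    have e1 := abs_lt.1 (hS a haS)
    have e2 := abs_lt.1 (hS b hbS)
    have h5 : ((b : ℝ) - a) ^ 2 ≤ 2 * E := by nlinarith
    have h6 : (b : ℝ) - a ≤ Real.sqrt (2 * E) := by
      apply Real.le_sqrt_of_sq_le h5
    linarith

/-- A finite set of integers `x` with `|x^2 - c| < E` has at most `2 (sqrt (2 E) + 1)` elements: for
`x, x' ≥ 0` in the set, `(x - x')^2 ≤ |x^2 - x'^2| < 2 E`; same for `x, x' < 0`. -/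
theorem card_sq_near (S : Finset ℤ) (c E : ℝ) (hE : 0 ≤ E) (hS : ∀ x ∈ S, |(x : ℝ) ^ 2 - c| < E) :
    (S.card : ℝ) ≤ 2 * (Real.sqrt (2 * E) + 1) := by
  have hsplit : S.card = (S.filter (fun x => 0 ≤ x)).card + (S.filter (fun x => ¬ 0 ≤ x)).card :=
    (Finset.card_filter_add_card_filter_not (fun x : ℤ => 0 ≤ x)).symm
  have h1 : ((S.filter (fun x => 0 ≤ x)).card : ℝ) ≤ Real.sqrt (2 * E) + 1 := by
    apply wbad_card_nonneg _ c E
    · intro x hx
      exact (Finset.mem_filter.1 hx).2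
    · intro x hx
      exact hS x (Finset.mem_filter.1 hx).1
  have h2 : ((S.filter (fun x => ¬ 0 ≤ x)).card : ℝ) ≤ Real.sqrt (2 * E) + 1 := by
    have hinj : Function.Injective (fun x : ℤ => -x) := neg_injective
    rw [← Finset.card_image_of_injective _ hinj]
    apply wbad_card_nonneg _ c E
    · intro x hx
      obtain ⟨y, hy, rfl⟩ := Finset.mem_image.1 hx
      have := (Finset.mem_filter.1 hy).2
      push Not at this
      linarith
    · intro x hx
      obtain ⟨y, hy, rfl⟩ := Finset.mem_image.1 hx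
      have := hS y (Finset.mem_filter.1 hy).1
      simp only [Int.cast_neg, neg_sq]
      exact this
  have h3 : (S.card : ℝ) = ((S.filter (fun x => 0 ≤ x)).card : ℝ)
      + ((S.filter (fun x => ¬ 0 ≤ x)).card : ℝ) := by exact_mod_cast hsplit
  linarith

private lemma wbad_fiber (S : Finset GaussianInt) (Y K : ℝ) (hY : 0 ≤ Y) (hK : 0 ≤ K)
    (hS : ∀ z ∈ S, |(z.im : ℝ)| ≤ Y)
    (hf : ∀ y : ℤ, ((S.filter (fun z => z.im = y)).card : ℝ) ≤ K) :
    (S.card : ℝ) ≤ (2 * Y + 1) * K := by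
  classical
  have h1 : S.card = ∑ y ∈ S.image (fun z : GaussianInt => z.im),
      (S.filter (fun z => z.im = y)).card := Finset.card_eq_sum_card_image _ _
  have h2 : (S.card : ℝ) = ∑ y ∈ S.image (fun z : GaussianInt => z.im),
      ((S.filter (fun z => z.im = y)).card : ℝ) := by exact_mod_cast h1
  have h3 : ∑ y ∈ S.image (fun z : GaussianInt => z.im),
      ((S.filter (fun z => z.im = y)).card : ℝ)
      ≤ (S.image (fun z : GaussianInt => z.im)).card * K := by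
    refine (Finset.sum_le_sum (fun y _ => hf y)).trans ?_
    rw [Finset.sum_const, nsmul_eq_mul]
  have h4 : ((S.image (fun z : GaussianInt => z.im)).card : ℝ) ≤ 2 * Y + 1 := by
    apply wbad_card_int _ Y hY
    intro x hx
    obtain ⟨z, hz, rfl⟩ := Finset.mem_image.1 hx
    exact hS z hz
  calc (S.card : ℝ) ≤ (S.image (fun z : GaussianInt => z.im)).card * K := by rw [h2]; exact h3
    _ ≤ (2 * Y + 1) * K := mul_le_mul_of_nonneg_right h4 hK

private lemma wbad_fib_card (S : Finset GaussianInt) (y : ℤ) :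
    (S.filter (fun z => z.im = y)).card
      = ((S.filter (fun z => z.im = y)).image (fun z : GaussianInt => z.re)).card := by
  classical
  refine (Finset.card_image_of_injOn ?_).symm
  intro z hz w hw h
  have h1 := (Finset.mem_filter.1 (Finset.mem_coe.1 hz)).2
  have h2 := (Finset.mem_filter.1 (Finset.mem_coe.1 hw)).2
  exact Zsqrtd.ext h (h1.trans h2.symm)

private lemma wbad_box (S : Finset GaussianInt) (X Y : ℝ) (hX : 0 ≤ X) (hY : 0 ≤ Y)
    (hS : ∀ z ∈ S, |(z.re : ℝ)| ≤ X ∧ |(z.im : ℝ)| ≤ Y) :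
    (S.card : ℝ) ≤ (2 * Y + 1) * (2 * X + 1) := by
  classical
  refine wbad_fiber S Y (2 * X + 1) hY (by linarith) (fun z hz => (hS z hz).2) ?_
  intro y
  rw [wbad_fib_card]
  apply wbad_card_int _ X hX
  intro x hx
  obtain ⟨z, hz, rfl⟩ := Finset.mem_image.1 hx
  exact (hS z (Finset.mem_filter.1 hz).1).1

private lemma wbad_conic (S : Finset GaussianInt) (Y E t : ℝ) (hY : 0 ≤ Y) (hE : 0 ≤ E)
    (hS : ∀ z ∈ S, |(z.im : ℝ)| ≤ Y ∧ |(z.re : ℝ) ^ 2 - t * (z.im : ℝ) ^ 2| < E) :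
    (S.card : ℝ) ≤ (2 * Y + 1) * (2 * (Real.sqrt (2 * E) + 1)) := by
  classical
  have hs := Real.sqrt_nonneg (2 * E)
  refine wbad_fiber S Y (2 * (Real.sqrt (2 * E) + 1)) hY (by linarith)
    (fun z hz => (hS z hz).1) ?_
  intro y
  rw [wbad_fib_card]
  apply card_sq_near _ (t * (y : ℝ) ^ 2) E hE
  intro x hx
  obtain ⟨z, hz, rfl⟩ := Finset.mem_image.1 hx
  obtain ⟨hz1, hz2⟩ := Finset.mem_filter.1 hz
  have := (hS z hz1).2
  rw [hz2] at this
  exact this

private lemma wbad_abs {b : ℝ} (hb0 : 0 ≤ b) {z : GaussianInt} (hz : z ∈ ann 0 b) :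
    |(z.re : ℝ)| ≤ Real.sqrt b ∧ |(z.im : ℝ)| ≤ Real.sqrt b := by
  have h := ((mem_ann hb0).1 hz).2
  rw [nN_real] at h
  constructor
  · apply Real.abs_le_sqrt
    nlinarith [sq_nonneg (z.im : ℝ)]
  · apply Real.abs_le_sqrt
    nlinarith [sq_nonneg (z.re : ℝ)]

/-- Rows: `z = x + i y ∈ ann 0 (T^400)` has `|x|, |y| ≤ T^200`. Rows with `|y| < T^198`: at most
`(2 T^198 + 1)(2 T^200 + 1)` points. The other conditions: at most `2 T^200 + 1` rows with at most
`4 (sqrt (2 T^398) + 1)` points each (`card_sq_near`). For `T ≥ 1` the total is `≤ 100 T^399`. -/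
theorem card_bad (T b : ℝ) (hT : 1 ≤ T) (hb0 : 0 ≤ b) (hb : b ≤ T ^ 400) (S : Finset GaussianInt)
    (hS : ∀ z ∈ S, z ∈ ann 0 b ∧ WBadPt T z) : (S.card : ℝ) ≤ 100 * T ^ 399 := by
  classical
  have hT0 : (0 : ℝ) ≤ T := by linarith
  have hsb : Real.sqrt b ≤ T ^ 200 := by
    rw [Real.sqrt_le_left (by positivity)]
    calc b ≤ T ^ 400 := hb
      _ = (T ^ 200) ^ 2 := by rw [← pow_mul]
  have hre : ∀ z ∈ S, |(z.re : ℝ)| ≤ T ^ 200 := fun z hz =>
    (wbad_abs hb0 (hS z hz).1).1.trans hsb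
  have him : ∀ z ∈ S, |(z.im : ℝ)| ≤ T ^ 200 := fun z hz =>
    (wbad_abs hb0 (hS z hz).1).2.trans hsb
  set A := S.filter (fun z => |(z.im : ℝ)| < T ^ 198) with hA
  set B := S.filter (fun z => |(z.re : ℝ) ^ 2 - t1 * (z.im : ℝ) ^ 2| < T ^ 398) with hB
  set C := S.filter (fun z => |(z.re : ℝ) ^ 2 - t2 * (z.im : ℝ) ^ 2| < T ^ 398) with hC
  have hsub : S ⊆ A ∪ (B ∪ C) := by
    intro z hz
    rw [Finset.mem_union, Finset.mem_union, hA, hB, hC, Finset.mem_filter, Finset.mem_filter,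
      Finset.mem_filter]
    rcases (hS z hz).2 with h | h | h
    · exact Or.inl ⟨hz, h⟩
    · exact Or.inr (Or.inl ⟨hz, h⟩)
    · exact Or.inr (Or.inr ⟨hz, h⟩)
  have hp198 : (1 : ℝ) ≤ T ^ 198 := one_le_pow₀ hT
  have hp199 : (1 : ℝ) ≤ T ^ 199 := one_le_pow₀ hT
  have hp200 : (1 : ℝ) ≤ T ^ 200 := one_le_pow₀ hT
  have hAc : (A.card : ℝ) ≤ 9 * T ^ 399 := by
    have h := wbad_box A (T ^ 200) (T ^ 198) (by positivity) (by positivity) (by
      intro z hz
      obtain ⟨h1, h2⟩ := Finset.mem_filter.1 hz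
      exact ⟨hre z h1, h2.le⟩)
    have h1 : (2 * T ^ 198 + 1) * (2 * T ^ 200 + 1) ≤ (3 * T ^ 198) * (3 * T ^ 200) := by
      apply mul_le_mul (by linarith) (by linarith) (by positivity) (by positivity)
    have h2 : (3 * T ^ 198) * (3 * T ^ 200) = 9 * T ^ 398 := by
      rw [show (398 : ℕ) = 198 + 200 from rfl, pow_add]; ring
    have h3 : T ^ 398 ≤ T ^ 399 := pow_le_pow_right₀ hT (by norm_num)
    linarith
  have hsq : Real.sqrt (2 * T ^ 398) ≤ 3 / 2 * T ^ 199 := by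
    rw [Real.sqrt_le_left (by positivity)]
    have : (3 / 2 * T ^ 199) ^ 2 = 9 / 4 * T ^ 398 := by
      rw [mul_pow, ← pow_mul]; norm_num
    rw [this]
    have : (0 : ℝ) ≤ T ^ 398 := by positivity
    linarith
  have hcon : (2 * T ^ 200 + 1) * (2 * (Real.sqrt (2 * T ^ 398) + 1)) ≤ 15 * T ^ 399 := by
    have h1 : 2 * (Real.sqrt (2 * T ^ 398) + 1) ≤ 5 * T ^ 199 := by linarith
    have h2 : (2 * T ^ 200 + 1) * (2 * (Real.sqrt (2 * T ^ 398) + 1))
        ≤ (3 * T ^ 200) * (5 * T ^ 199) := by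
      apply mul_le_mul (by linarith) h1 ?_ (by positivity)
      have := Real.sqrt_nonneg (2 * T ^ 398)
      linarith
    have h3 : (3 * T ^ 200) * (5 * T ^ 199) = 15 * T ^ 399 := by
      rw [show (399 : ℕ) = 200 + 199 from rfl, pow_add]; ring
    linarith
  have hBc : (B.card : ℝ) ≤ 15 * T ^ 399 := by
    refine (wbad_conic B (T ^ 200) (T ^ 398) t1 (by positivity) (by positivity) ?_).trans hcon
    intro z hz
    obtain ⟨h1, h2⟩ := Finset.mem_filter.1 hz
    exact ⟨him z h1, h2⟩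
  have hCc : (C.card : ℝ) ≤ 15 * T ^ 399 := by
    refine (wbad_conic C (T ^ 200) (T ^ 398) t2 (by positivity) (by positivity) ?_).trans hcon
    intro z hz
    obtain ⟨h1, h2⟩ := Finset.mem_filter.1 hz
    exact ⟨him z h1, h2⟩
  have hcard : S.card ≤ A.card + (B.card + C.card) := by
    refine (Finset.card_le_card hsub).trans ((Finset.card_union_le _ _).trans ?_)
    have := Finset.card_union_le B C
    omega
  have hcard' : (S.card : ℝ) ≤ A.card + (B.card + C.card) := by exact_mod_cast hcard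
  have hpos : (0 : ℝ) ≤ T ^ 399 := by positivity
  linarith

/-- crude count of the annulus, used for trivial bounds -/
theorem card_ann_crude (b : ℝ) (hb : 0 ≤ b) : ((ann 0 b).card : ℝ) ≤ (2 * Real.sqrt b + 1) ^ 2 := by
  have h := wbad_box (ann 0 b) (Real.sqrt b) (Real.sqrt b) (Real.sqrt_nonneg b)
    (Real.sqrt_nonneg b) (fun z hz => wbad_abs hb hz)
  calc ((ann 0 b).card : ℝ) ≤ (2 * Real.sqrt b + 1) * (2 * Real.sqrt b + 1) := h
    _ = (2 * Real.sqrt b + 1) ^ 2 := by ring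

end Pool.Agent.NSqP
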