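import Pool.Agent.Lib.NSqP.WDefs

/-!
# Group W: averaging over horizontal shifts
-/

set_option autoImplicit false

namespace Pool.Agent.NSqP

open Finset

private lemma wavg_fiber (b : ℝ) (hb : 0 ≤ b) (n : ℕ) (y : ℤ) :
    (((ann 0 b).filter (fun w => w - (n : GaussianInt) ∉ ann 0 b)).filter
      (fun w => w.im = y)).card ≤ n + 1 := by
  classical
  set s : ℝ := Real.sqrt (b - (y : ℝ) ^ 2) with hs
  have hcard : (insert (n : ℤ) (Ico ⌈-s⌉ (⌈-s⌉ + n))).card ≤ n + 1 := by
    refine (card_insert_le _ _).trans ?_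
    rw [Int.card_Ico]
    simp
  refine le_trans ?_ hcard
  apply card_le_card_of_injOn (fun w => w.re)
  · intro w hw
    rw [mem_coe, mem_filter, mem_filter] at hw
    obtain ⟨⟨hw1, hw2⟩, hw3⟩ := hw
    rw [mem_coe]
    have h1 := (mem_ann hb).1 hw1
    rw [nN_real] at h1
    rw [hw3] at h1
    have hby : (0 : ℝ) ≤ b - (y : ℝ) ^ 2 := by
      have := sq_nonneg (w.re : ℝ)
      linarith [h1.2]
    have hs2 : s ^ 2 = b - (y : ℝ) ^ 2 := Real.sq_sqrt hby
    have hs0 : 0 ≤ s := Real.sqrt_nonneg _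
    have habs : |(w.re : ℝ)| ≤ s := by
      apply abs_le_of_sq_le_sq _ hs0
      rw [hs2]; linarith [h1.2]
    rw [abs_le] at habs
    rw [mem_insert]
    by_cases hx : w.re = n
    · left; exact hx
    · right
      rw [mem_Ico]
      refine ⟨Int.ceil_le.2 habs.1, ?_⟩
      have hne : w - (n : GaussianInt) ≠ 0 := by
        intro h0
        apply hx
        have := congrArg Zsqrtd.re h0
        simp at this
        linarith
      rw [mem_ann hb] at hw2
      have hpos : (0 : ℝ) < nN (w - (n : GaussianInt)) := by exact_mod_cast nN_pos hne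
      have h2 : b < nN (w - (n : GaussianInt)) := by
        by_contra hcon
        exact hw2 ⟨hpos, not_lt.1 hcon⟩
      rw [nN_real] at h2
      simp only [Zsqrtd.re_sub, Zsqrtd.im_sub, Zsqrtd.re_natCast, Zsqrtd.im_natCast, sub_zero,
        hw3] at h2
      push_cast at h2
      have h3 : (w.re : ℝ) - n < -s := by
        by_contra hcon
        rw [not_lt] at hcon
        have h4 : (w.re : ℝ) - n ≤ s := by
          have : (0 : ℝ) ≤ n := Nat.cast_nonneg n
          linarith [habs.2]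
        have h5 : ((w.re : ℝ) - n) ^ 2 ≤ s ^ 2 := by
          apply sq_le_sq'
          · exact hcon
          · exact h4
        rw [hs2] at h5
        linarith
      have h4 : (w.re : ℝ) < ((⌈-s⌉ + n : ℤ) : ℝ) := by
        push_cast
        have := Int.le_ceil (-s)
        linarith
      exact_mod_cast h4
  · intro w hw w' hw' h
    rw [mem_coe, mem_filter] at hw hw'
    exact Zsqrtd.ext h (by rw [hw.2, hw'.2])

private lemma wavg_card (b : ℝ) (hb : 0 ≤ b) (n : ℕ) :
    (((ann 0 b).filter (fun w => w - (n : GaussianInt) ∉ ann 0 b)).card : ℝ) ≤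
      (n + 1) * (2 * Real.sqrt b + 1) := by
  classical
  set B := (ann 0 b).filter (fun w => w - (n : GaussianInt) ∉ ann 0 b) with hB
  set m : ℤ := ⌊Real.sqrt b⌋ with hm
  have hm0 : 0 ≤ m := Int.floor_nonneg.2 (Real.sqrt_nonneg _)
  have hmaps : ∀ w ∈ B, w.im ∈ Icc (-m) m := by
    intro w hw
    rw [hB, mem_filter] at hw
    have h1 := ((mem_ann hb).1 hw.1).2
    rw [nN_real] at h1
    have h2 : |(w.im : ℝ)| ≤ Real.sqrt b := by
      apply Real.abs_le_sqrt
      have := sq_nonneg (w.re : ℝ)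
      linarith
    rw [abs_le] at h2
    rw [mem_Icc]
    refine ⟨?_, Int.le_floor.2 h2.2⟩
    have h3 : -w.im ≤ m := by
      apply Int.le_floor.2
      push_cast
      linarith [h2.1]
    linarith
  have h1 := card_le_mul_card_image_of_maps_to hmaps (n + 1)
    (fun y _ => wavg_fiber b hb n y)
  have h2 : ((Icc (-m) m).card : ℝ) ≤ 2 * Real.sqrt b + 1 := by
    rw [Int.card_Icc]
    have h3 : (((m + 1 - -m).toNat : ℕ) : ℝ) = ((m + 1 - -m : ℤ) : ℝ) := by
      rw [← Int.cast_natCast, Int.toNat_of_nonneg (by linarith)]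
    rw [h3]
    push_cast
    have := Int.floor_le (Real.sqrt b)
    rw [← hm] at this
    linarith
  calc (B.card : ℝ) ≤ ((n + 1 : ℕ) : ℝ) * ((Icc (-m) m).card : ℝ) := by exact_mod_cast h1
    _ ≤ (n + 1) * (2 * Real.sqrt b + 1) := by
        push_cast
        gcongr

private lemma wavg_shift (u : GaussianInt → ℂ) (hu : ∀ z, ‖u z‖ ≤ 1) (b : ℝ) (hb : 0 ≤ b) (n : ℕ) :
    ‖∑ z ∈ ann 0 b, u z - ∑ z ∈ ann 0 b, u (z + (n : GaussianInt))‖ ≤
      (2 * n + 2) * (2 * Real.sqrt b + 1) := by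
  classical
  set A := ann 0 b with hA
  set B := A.image (fun z => z + (n : GaussianInt)) with hB
  have hinj : Function.Injective (fun z : GaussianInt => z + (n : GaussianInt)) :=
    fun z w h => add_right_cancel h
  have hsum : ∑ z ∈ A, u (z + (n : GaussianInt)) = ∑ w ∈ B, u w := by
    rw [hB, sum_image (fun z _ w _ h => hinj h)]
  have hcardB : B.card = A.card := card_image_of_injective _ hinj
  rw [hsum, ← sum_sdiff_sub_sum_sdiff]
  have h1 : (A \ B).card ≤ (A.filter (fun w => w - (n : GaussianInt) ∉ A)).card := by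
    apply card_le_card
    intro w hw
    rw [mem_sdiff] at hw
    rw [mem_filter]
    refine ⟨hw.1, fun h => hw.2 ?_⟩
    rw [hB, mem_image]
    exact ⟨_, h, by ring⟩
  have h2 : (B \ A).card = (A \ B).card := card_sdiff_comm hcardB
  have h3 := wavg_card b hb n
  have h4 : ∀ S : Finset GaussianInt, ‖∑ z ∈ S, u z‖ ≤ S.card := by
    intro S
    refine (norm_sum_le _ _).trans ?_
    refine (sum_le_sum (fun z _ => hu z)).trans ?_
    simp
  have h5 : ((A \ B).card : ℝ) ≤ (n + 1) * (2 * Real.sqrt b + 1) := by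
    refine le_trans ?_ h3
    exact_mod_cast h1
  have h6 : ((B \ A).card : ℝ) ≤ (n + 1) * (2 * Real.sqrt b + 1) := by
    rw [h2]; exact h5
  refine (norm_sub_le _ _).trans ?_
  have h7 := h4 (A \ B)
  have h8 := h4 (B \ A)
  linarith

/-- Averaging over horizontal shifts. For `0 ≤ n < H` the symmetric difference of `ann 0 b` and its
shift by `n` has at most `2 n + 2` points in each row `|im z| ≤ sqrt b` (in a row, `ann 0 b` is an
interval of integers, possibly without the point `0`), so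
`‖∑_{z ∈ ann 0 b} (u (z + n) - u z)‖ ≤ (2 n + 2) (2 sqrt b + 1)`; sum over `n < H`. -/
theorem shift_avg (u : GaussianInt → ℂ) (hu : ∀ z, ‖u z‖ ≤ 1) (b : ℝ) (hb : 0 ≤ b) (H : ℕ)
    (hH : 1 ≤ H) :
    (H : ℝ) * ‖∑ z ∈ ann 0 b, u z‖ ≤ ∑ z ∈ ann 0 b, ‖∑ n ∈ range H, u (z + (n : GaussianInt))‖ +
      (2 * H + 2) * H * (2 * Real.sqrt b + 1) := by
  have h1 : (H : ℂ) * ∑ z ∈ ann 0 b, u z =
      (∑ z ∈ ann 0 b, ∑ n ∈ range H, u (z + (n : GaussianInt))) +
      ∑ n ∈ range H, (∑ z ∈ ann 0 b, u z - ∑ z ∈ ann 0 b, u (z + (n : GaussianInt))) := by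
    rw [sum_sub_distrib, sum_const, card_range, nsmul_eq_mul, sum_comm]
    ring
  have h2 : (H : ℝ) * ‖∑ z ∈ ann 0 b, u z‖ = ‖(H : ℂ) * ∑ z ∈ ann 0 b, u z‖ := by
    rw [norm_mul, Complex.norm_natCast]
  rw [h2, h1]
  refine (norm_add_le _ _).trans ?_
  gcongr
  · exact norm_sum_le _ _
  · refine (norm_sum_le _ _).trans ?_
    calc ∑ n ∈ range H, ‖∑ z ∈ ann 0 b, u z - ∑ z ∈ ann 0 b, u (z + (n : GaussianInt))‖
        ≤ ∑ n ∈ range H, (2 * H + 2) * (2 * Real.sqrt b + 1) := by
          refine sum_le_sum fun n hn => ?_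
          refine (wavg_shift u hu b hb n).trans ?_
          have h3 : (n : ℝ) ≤ H := by exact_mod_cast (mem_range.1 hn).le
          have h4 := Real.sqrt_nonneg b
          gcongr
      _ = (2 * H + 2) * H * (2 * Real.sqrt b + 1) := by
          rw [sum_const, card_range, nsmul_eq_mul]; ring

end Pool.Agent.NSqP
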