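import Pool.Agent.Lib.NSqP.WDefs

/-!
# Group W: `ξ` on horizontal segments
-/

set_option autoImplicit false

namespace Pool.Agent.NSqP

open Finset

private lemma WXi_key (x y : ℝ) (hy : y ≠ 0) :
    ((x : ℂ) + (y : ℂ) * Complex.I) / ((Real.sqrt (x ^ 2 + y ^ 2) : ℝ) : ℂ) =
      ((y / |y| : ℝ) : ℂ) * Complex.I *
        Complex.exp (((-Real.arctan (x / y) : ℝ) : ℂ) * Complex.I) := by
  have hy2 : 0 < y ^ 2 := by positivity
  have hR2 : 0 < x ^ 2 + y ^ 2 := by positivity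
  set R : ℝ := Real.sqrt (x ^ 2 + y ^ 2) with hR
  have hRpos : 0 < R := Real.sqrt_pos.2 hR2
  have hay : 0 < |y| := abs_pos.2 hy
  have hs : Real.sqrt (1 + (x / y) ^ 2) = R / |y| := by
    have e : 1 + (x / y) ^ 2 = (x ^ 2 + y ^ 2) / y ^ 2 := by
      rw [div_pow, add_comm (x ^ 2), add_div, div_self hy2.ne']
    rw [e, Real.sqrt_div hR2.le, Real.sqrt_sq_eq_abs]
  have hcos : Real.cos (Real.arctan (x / y)) = |y| / R := by
    rw [Real.cos_arctan, hs, one_div_div]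
  have hsin : Real.sin (Real.arctan (x / y)) = (x / y) * (|y| / R) := by
    rw [Real.sin_arctan, hs, div_div_eq_mul_div, mul_div_assoc]
  have hexp : Complex.exp (((-Real.arctan (x / y) : ℝ) : ℂ) * Complex.I) =
      ((|y| / R : ℝ) : ℂ) - (((x / y) * (|y| / R) : ℝ) : ℂ) * Complex.I := by
    rw [Complex.exp_mul_I, ← Complex.ofReal_cos, ← Complex.ofReal_sin, Real.cos_neg, Real.sin_neg,
      hcos, hsin]
    push_cast
    ring
  rw [hexp]
  have e1 : (y / |y|) * ((x / y) * (|y| / R)) = x / R := by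
    field_simp
  have e2 : (y / |y|) * (|y| / R) = y / R := by
    field_simp
  have e3 : ((y / |y| : ℝ) : ℂ) * Complex.I *
      (((|y| / R : ℝ) : ℂ) - (((x / y) * (|y| / R) : ℝ) : ℂ) * Complex.I) =
      (((y / |y|) * (|y| / R) : ℝ) : ℂ) * Complex.I +
        (((y / |y|) * ((x / y) * (|y| / R)) : ℝ) : ℂ) := by
    have hI : Complex.I * Complex.I = -1 := Complex.I_mul_I
    push_cast
    linear_combination (-((y : ℂ) / (|y| : ℝ)) * ((x : ℂ) / y * ((|y| : ℝ) / R))) * hI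
  rw [e3, e1, e2]
  push_cast
  ring

private lemma WXi_xi (z : GaussianInt) (hz : z.im ≠ 0) (n : ℕ) :
    xi (z + (n : GaussianInt)) = (((z.im : ℝ) / |(z.im : ℝ)| : ℝ) : ℂ) * Complex.I *
      Complex.exp ((phi (z.re : ℝ) (z.im : ℝ) n : ℂ) * Complex.I) := by
  have him : (z.im : ℝ) ≠ 0 := by exact_mod_cast hz
  have e1 : ((z + (n : GaussianInt) : GaussianInt) : ℂ) =
      (((z.re : ℝ) + (n : ℝ) : ℝ) : ℂ) + ((z.im : ℝ) : ℂ) * Complex.I := by
    apply Complex.ext <;> simp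
  have e2 : ‖((z + (n : GaussianInt) : GaussianInt) : ℂ)‖ =
      Real.sqrt (((z.re : ℝ) + (n : ℝ)) ^ 2 + (z.im : ℝ) ^ 2) := by
    rw [e1, Complex.norm_add_mul_I]
  unfold xi
  rw [e2, e1, WXi_key _ _ him]
  rfl

/-- `ξ (x + i y) = ± i exp (- i arctan (x / y))` (sign of `y`): with `φ = arctan (x/y)`,
`cos φ = |y| / sqrt (x^2+y^2)`, `sin φ = sign y * x / sqrt (x^2+y^2)` (`Real.cos_arctan`,
`Real.sin_arctan`). Hence `ξ^d` on the segment is a constant of modulus one times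
`exp (i d phi x y n)`. -/
theorem xi_seg (z : GaussianInt) (hz : z.im ≠ 0) (d : ℤ) (L : ℕ) :
    ‖∑ n ∈ range L, xi (z + (n : GaussianInt)) ^ d‖ =
      ES (fun n => (d : ℝ) * phi (z.re : ℝ) (z.im : ℝ) n) L := by
  have him : (z.im : ℝ) ≠ 0 := by exact_mod_cast hz
  set c : ℂ := (((z.im : ℝ) / |(z.im : ℝ)| : ℝ) : ℂ) * Complex.I with hc
  have hcn : ‖c‖ = 1 := by
    rw [hc, norm_mul, Complex.norm_I, mul_one, Complex.norm_real, norm_div, Real.norm_eq_abs,
      Real.norm_eq_abs, abs_abs, div_self (abs_ne_zero.2 him)]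
  have hterm : ∀ n ∈ range L, xi (z + (n : GaussianInt)) ^ d =
      c ^ d * Complex.exp ((((d : ℝ) * phi (z.re : ℝ) (z.im : ℝ) n : ℝ) : ℂ) * Complex.I) := by
    intro n _
    rw [WXi_xi z hz n, mul_zpow, ← Complex.exp_int_mul]
    congr 2
    push_cast
    ring
  unfold ES
  rw [Finset.sum_congr rfl hterm, ← Finset.mul_sum, norm_mul, norm_zpow, hcn, one_zpow, one_mul]

end Pool.Agent.NSqP
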