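import Pool.Agent.Lib.NSqP.PiA

/-!
# SVNOPI: elements without prime factor in `IsPi`
-/

set_option autoImplicit false

namespace Pool.Agent.NSqP

open Real

private lemma natCast_dvd_cont (q : ℕ) (z : GaussianInt) :
    ((q : ℕ) : GaussianInt) ∣ z ↔ q ∣ cont z := by
  have h1 : ((q : ℕ) : GaussianInt) = ((q : ℤ) : GaussianInt) := by push_cast; rfl
  rw [h1, Zsqrtd.intCast_dvd]
  unfold cont
  constructor
  · rintro ⟨h2, h3⟩
    exact Int.dvd_gcd h2 h3
  · intro h
    have h2 : (q : ℤ) ∣ (Int.gcd z.re z.im : ℤ) := by exact_mod_cast h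
    exact ⟨h2.trans (Int.gcd_dvd_left _ _), h2.trans (Int.gcd_dvd_right _ _)⟩

private lemma mul_star_nN {z : GaussianInt} : z * star z = ((nN z : ℕ) : GaussianInt) := by
  have h1 : ((nN z : ℕ) : GaussianInt) = (((nN z : ℕ) : ℤ) : GaussianInt) := by push_cast; rfl
  rw [h1, nN_cast_int, Zsqrtd.norm_eq_mul_conj]

/-- a primitive element without factor `1 + i` or in `IsPi` is a unit -/
private lemma unit_of_noPi {z : GaussianInt} (hz : Prim z) (h2 : ¬ (⟨1, 1⟩ : GaussianInt) ∣ z)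
    (hq : ∀ q : GaussianInt, IsPi q → ¬ q ∣ z) : nN z = 1 := by
  by_contra hcon
  obtain ⟨p, hp, hpd⟩ := Nat.exists_prime_and_dvd hcon
  have : Fact p.Prime := ⟨hp⟩
  have hdiv : ((p : ℕ) : GaussianInt) ∣ z * star z := by
    rw [mul_star_nN]
    exact_mod_cast (Nat.cast_dvd_cast (α := GaussianInt) hpd)
  have h4 : p % 4 = 0 ∨ p % 4 = 1 ∨ p % 4 = 2 ∨ p % 4 = 3 := by omega
  have hp2 : p % 2 = 0 → p = 2 := by
    intro h
    exact ((Nat.prime_dvd_prime_iff_eq Nat.prime_two hp).1 (Nat.dvd_of_mod_eq_zero h)).symm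
  have heven : p = 2 → False := by
    intro h
    rw [h] at hpd
    apply h2
    have h5 : (2 : ℤ) ∣ z.re * z.re + z.im * z.im := by
      have h6 : ((nN z : ℕ) : ℤ) = z.re * z.re + z.im * z.im := by
        rw [nN_cast_int, Zsqrtd.norm_def]; ring
      rw [← h6]
      exact_mod_cast hpd
    have h7 : (2 : ℤ) ∣ z.re + z.im := by
      have h8 : z.re * z.re + z.im * z.im = (z.re + z.im) * (z.re + z.im) - 2 * (z.re * z.im) := by
        ring
      rw [h8] at h5
      have h9 : (2 : ℤ) ∣ (z.re + z.im) * (z.re + z.im) := by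
        have := dvd_add h5 (dvd_mul_right (2 : ℤ) (z.re * z.im))
        simpa using this
      rcases Int.prime_two.dvd_or_dvd h9 with h | h <;> exact h
    obtain ⟨k, hk⟩ := h7
    refine ⟨⟨k, k - z.re⟩, ?_⟩
    ext
    · simp [Zsqrtd.re_mul]
    · simp only [Zsqrtd.im_mul]
      linarith
  rcases h4 with h | h | h | h
  · exact heven (hp2 (by omega))
  · obtain ⟨q, _, _, hqpi, _, hqn, _⟩ := exists_two_pi hp h
    have h5 : q ∣ z * star z := by
      refine dvd_trans ?_ hdiv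
      rw [← hqn, ← mul_star_nN]
      exact dvd_mul_right _ _
    rcases hqpi.prime.dvd_or_dvd h5 with h6 | h6
    · exact hq q hqpi h6
    · have h7 : star q ∣ z := by
        obtain ⟨c, hc⟩ := h6
        refine ⟨star c, ?_⟩
        have := congrArg star hc
        rw [star_star, star_mul] at this
        rw [this, mul_comm]
      have h8 : IsPi (⟨q.im, q.re⟩ : GaussianInt) := by
        have hn : nN (⟨q.im, q.re⟩ : GaussianInt) = nN q := by
          unfold nN
          rw [Zsqrtd.norm_def, Zsqrtd.norm_def]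
          congr 1
          ring
        unfold IsPi at hqpi ⊢
        rw [hn]
        exact ⟨hqpi.2.1, hqpi.1, hqpi.2.2⟩
      apply hq _ h8
      refine dvd_trans ?_ h7
      refine ⟨⟨0, -1⟩, ?_⟩
      ext
      · simp [Zsqrtd.re_mul]
      · simp [Zsqrtd.im_mul]
  · exact heven (hp2 (by omega))
  · have hprime := GaussianInt.prime_of_nat_prime_of_mod_four_eq_three p h
    have h5 : ((p : ℕ) : GaussianInt) ∣ z := by
      rcases hprime.dvd_or_dvd hdiv with h6 | h6
      · exact h6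
      · obtain ⟨c, hc⟩ := h6
        refine ⟨star c, ?_⟩
        have := congrArg star hc
        rw [star_star, star_mul, star_natCast] at this
        rw [this, mul_comm]
    rw [natCast_dvd_cont] at h5
    unfold Prim at hz
    rw [hz] at h5
    exact hp.one_lt.ne' (Nat.dvd_one.1 h5)

theorem int_or_I {z : GaussianInt} (hz : z ≠ 0) (h2 : ¬ (⟨1, 1⟩ : GaussianInt) ∣ z)
    (hq : ∀ q : GaussianInt, IsPi q → ¬ q ∣ z) : z.re = 0 ∨ z.im = 0 := by
  have hc0 : cont z ≠ 0 := by
    unfold cont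
    intro h
    rw [Int.gcd_eq_zero_iff] at h
    apply hz
    ext
    · exact h.1
    · exact h.2
  obtain ⟨z0, hz0⟩ := (natCast_dvd_cont (cont z) z).2 dvd_rfl
  have hz0d : z0 ∣ z := ⟨_, by rw [hz0]; ring⟩
  have hre : z.re = (cont z : ℤ) * z0.re := by
    conv_lhs => rw [hz0]
    simp [Zsqrtd.re_mul]
  have him : z.im = (cont z : ℤ) * z0.im := by
    conv_lhs => rw [hz0]
    simp [Zsqrtd.im_mul]
  have hprim : Prim z0 := by
    unfold Prim
    have h1 : cont z = cont z * cont z0 := by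
      have : cont z = Int.gcd z.re z.im := rfl
      conv_lhs => rw [this, hre, him, Int.gcd_mul_left]
      simp [cont]
    have h3 : cont z * 1 = cont z * cont z0 := by rw [mul_one]; exact h1
    exact (Nat.eq_of_mul_eq_mul_left (Nat.pos_of_ne_zero hc0) h3).symm
  have h1 := unit_of_noPi hprim (fun h => h2 (h.trans hz0d)) (fun q hqpi h => hq q hqpi (h.trans hz0d))
  have h3 : z0.re * z0.re + z0.im * z0.im = 1 := by
    have h6 : ((nN z0 : ℕ) : ℤ) = z0.re * z0.re + z0.im * z0.im := by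
      rw [nN_cast_int, Zsqrtd.norm_def]; ring
    rw [← h6, h1]; rfl
  have h4 : z0.re = 0 ∨ z0.im = 0 := by
    by_contra hcon
    push Not at hcon
    have h5 : 0 < z0.re * z0.re := mul_self_pos.2 hcon.1
    have h6 : 0 < z0.im * z0.im := mul_self_pos.2 hcon.2
    omega
  rcases h4 with h | h
  · left; rw [hre, h, mul_zero]
  · right; rw [him, h, mul_zero]

private lemma sum_le_of_injOn {α β : Type*} [DecidableEq β] {T : Finset α} {U : Finset β}
    (φ : α → β) (hmaps : ∀ z ∈ T, φ z ∈ U) (hinj : Set.InjOn φ (T : Set α)) (f : α → ℝ) (g : β → ℝ)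
    (hfg : ∀ z ∈ T, f z ≤ g (φ z)) (hg : ∀ y ∈ U, 0 ≤ g y) : ∑ z ∈ T, f z ≤ ∑ y ∈ U, g y := by
  calc ∑ z ∈ T, f z ≤ ∑ z ∈ T, g (φ z) := Finset.sum_le_sum hfg
    _ = ∑ y ∈ T.image φ, g y := (Finset.sum_image hinj).symm
    _ ≤ ∑ y ∈ U, g y := by
      apply Finset.sum_le_sum_of_subset_of_nonneg
      · intro y hy
        obtain ⟨z, hz, rfl⟩ := Finset.mem_image.1 hy
        exact hmaps z hz
      · exact fun y hy _ => hg y hy

/-- the sum of `1 / k^2` over nonzero integers, indexed by a coordinate -/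
private lemma sum_axis (T : Finset GaussianInt) (c : GaussianInt → ℤ)
    (hinj : Set.InjOn c (T : Set GaussianInt)) (hc : ∀ z ∈ T, c z ≠ 0 ∧ (nN z : ℝ) = (c z : ℝ) ^ 2) :
    ∑ z ∈ T, 1 / (nN z : ℝ) ≤ 4 := by
  classical
  let n : ℕ := (T.sup (fun z => (c z).natAbs)) + 1
  have h1 : ∑ z ∈ T, 1 / (nN z : ℝ) ≤
      ∑ y ∈ (Finset.univ : Finset Bool) ×ˢ Finset.Ioo 0 n, (((y.2 : ℕ) : ℝ) ^ 2)⁻¹ := by
    apply sum_le_of_injOn (fun z => (decide (0 < c z), (c z).natAbs))
    · intro z hz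
      rw [Finset.mem_product, Finset.mem_Ioo]
      refine ⟨Finset.mem_univ _, Int.natAbs_pos.2 (hc z hz).1, ?_⟩
      exact Nat.lt_succ_of_le (Finset.le_sup (f := fun z => (c z).natAbs) hz)
    · intro z hz w hw hzw
      apply hinj hz hw
      simp only [Prod.mk.injEq, decide_eq_decide] at hzw
      have h2 := (hc z hz).1
      have h3 := (hc w hw).1
      omega
    · intro z hz
      rw [(hc z hz).2]
      have h2 : (((c z).natAbs : ℕ) : ℝ) ^ 2 = (c z : ℝ) ^ 2 := by
        rw [Nat.cast_natAbs, Int.cast_abs, sq_abs]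
      simp only
      rw [h2, one_div]
    · intro y _
      positivity
  refine h1.trans ?_
  rw [Finset.sum_product]
  simp only
  rw [Finset.sum_const]
  have h2 := sum_Ioo_inv_sq_le (α := ℝ) 0 n
  simp only [Finset.card_univ, Fintype.card_bool, nsmul_eq_mul]
  push_cast at h2 ⊢
  linarith

open Classical in
theorem NOPI (R : ℝ) :
    ∑ z ∈ (ann 0 R).filter (fun z => ∀ q, IsPi q → ¬ q ∣ z), 1 / (nN z : ℝ) ≤ 16 := by
  rcases lt_or_ge R 0 with hR | hR
  · rw [ann_of_neg hR]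
    simp
  set S : Finset GaussianInt := (ann 0 R).filter (fun z => ∀ q, IsPi q → ¬ q ∣ z) with hS
  have hmem : ∀ z, z ∈ S ↔ (0 < (nN z : ℝ) ∧ (nN z : ℝ) ≤ R) ∧ ∀ q, IsPi q → ¬ q ∣ z := by
    intro z
    rw [hS, Finset.mem_filter, mem_ann hR]
  have hne : ∀ z ∈ S, z ≠ 0 := by
    intro z hz h
    have h1 := ((hmem z).1 hz).1.1
    rw [h, nN_zero] at h1
    simp at h1
  rw [← Finset.sum_filter_add_sum_filter_not S (fun z => (⟨1, 1⟩ : GaussianInt) ∣ z)]
  set b : ℝ := ∑ z ∈ S, 1 / (nN z : ℝ) with hb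
  have hn11 : nN (⟨1, 1⟩ : GaussianInt) = 2 := by
    unfold nN; rw [Zsqrtd.norm_def]; rfl
  have h11 : (⟨1, 1⟩ : GaussianInt) ≠ 0 := by
    intro h
    have := congrArg Zsqrtd.re h
    simp at this
  have hfirst : ∑ z ∈ S.filter (fun z => (⟨1, 1⟩ : GaussianInt) ∣ z), 1 / (nN z : ℝ) ≤ b / 2 := by
    have h1 : S.filter (fun z => (⟨1, 1⟩ : GaussianInt) ∣ z) ⊆
        S.image (fun w => (⟨1, 1⟩ : GaussianInt) * w) := by
      intro z hz
      rw [Finset.mem_filter] at hz
      obtain ⟨hzS, w, hw⟩ := hz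
      rw [Finset.mem_image]
      refine ⟨w, ?_, hw.symm⟩
      have h2 := (hmem z).1 hzS
      have h3 : (nN z : ℝ) = 2 * (nN w : ℝ) := by
        rw [hw, nN_mul, hn11]; push_cast; ring
      rw [hmem]
      refine ⟨⟨by linarith [h2.1.1], ?_⟩, fun q hq hqw => h2.2 q hq ?_⟩
      · have h4 : (0 : ℝ) ≤ (nN w : ℝ) := Nat.cast_nonneg _
        linarith [h2.1.2]
      · rw [hw]; exact hqw.mul_left _
    calc ∑ z ∈ S.filter (fun z => (⟨1, 1⟩ : GaussianInt) ∣ z), 1 / (nN z : ℝ)
        ≤ ∑ z ∈ S.image (fun w => (⟨1, 1⟩ : GaussianInt) * w), 1 / (nN z : ℝ) :=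
          Finset.sum_le_sum_of_subset_of_nonneg h1 (fun _ _ _ => by positivity)
      _ = ∑ w ∈ S, 1 / (nN ((⟨1, 1⟩ : GaussianInt) * w) : ℝ) := by
          rw [Finset.sum_image]
          intro x _ y _ hxy
          exact mul_left_cancel₀ h11 hxy
      _ = b / 2 := by
          rw [hb, Finset.sum_div]
          apply Finset.sum_congr rfl
          intro w _
          rw [nN_mul, hn11]
          push_cast
          rw [div_div, mul_comm]
  have hsecond : ∑ z ∈ S.filter (fun z => ¬ (⟨1, 1⟩ : GaussianInt) ∣ z), 1 / (nN z : ℝ) ≤ 8 := by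
    set T := S.filter (fun z => ¬ (⟨1, 1⟩ : GaussianInt) ∣ z) with hT
    have hTmem : ∀ z ∈ T, z ≠ 0 ∧ (z.re = 0 ∨ z.im = 0) := by
      intro z hz
      rw [hT, Finset.mem_filter] at hz
      exact ⟨hne z hz.1, int_or_I (hne z hz.1) hz.2 ((hmem z).1 hz.1).2⟩
    rw [← Finset.sum_filter_add_sum_filter_not T (fun z => z.re = 0)]
    have h1 : ∑ z ∈ T.filter (fun z => z.re = 0), 1 / (nN z : ℝ) ≤ 4 := by
      apply sum_axis _ (fun z => z.im)
      · intro z hz w hw hzw
        rw [Finset.mem_coe, Finset.mem_filter] at hz hw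
        ext
        · rw [hz.2, hw.2]
        · exact hzw
      · intro z hz
        rw [Finset.mem_filter] at hz
        refine ⟨fun h => (hTmem z hz.1).1 ?_, ?_⟩
        · ext
          · exact hz.2
          · exact h
        · rw [nN_real, hz.2]; simp
    have h2 : ∑ z ∈ T.filter (fun z => ¬ z.re = 0), 1 / (nN z : ℝ) ≤ 4 := by
      have h3 : ∀ z ∈ T.filter (fun z => ¬ z.re = 0), z.im = 0 ∧ z.re ≠ 0 := by
        intro z hz
        rw [Finset.mem_filter] at hz
        rcases (hTmem z hz.1).2 with h | h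
        · exact absurd h hz.2
        · exact ⟨h, hz.2⟩
      apply sum_axis _ (fun z => z.re)
      · intro z hz w hw hzw
        ext
        · exact hzw
        · rw [(h3 z hz).1, (h3 w hw).1]
      · intro z hz
        refine ⟨(h3 z hz).2, ?_⟩
        rw [nN_real, (h3 z hz).1]; simp
    linarith
  have hbsplit : b = ∑ z ∈ S.filter (fun z => (⟨1, 1⟩ : GaussianInt) ∣ z), 1 / (nN z : ℝ) +
      ∑ z ∈ S.filter (fun z => ¬ (⟨1, 1⟩ : GaussianInt) ∣ z), 1 / (nN z : ℝ) := by
    rw [hb, Finset.sum_filter_add_sum_filter_not]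
  linarith

end Pool.Agent.NSqP
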