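import Pool.Agent.Lib.NSqP.SDefs
import Pool.Agent.Lib.NSqP.SvNoPi

/-!
# SVJ: `JR R ≫ log R`
`recip_lower`: pairs `1 ≤ y ≤ x ≤ √(R/2)`: norm `≤ 2x^2 ≤ R`, so the sum is at least
`∑_x x/(2x^2) = ½ H(⌊√(R/2)⌋) ≥ ½ log √(R/2)`.
`step` (`A(E, Q)` = sum of `1/N z` over `z ∈ ann 0 R` divisible by all `q ∈ E` and by no `q ∈ Q`):
for `q ∈ E` write `z = q w`; `w` is divisible by all elements of `E \ q`, by none of `Q`, and
either `q ∤ w` or `q ∣ w`: `A(E,Q) ≤ (1/N q)(A(E \ q, Q ∪ q) + A(E, Q))`, so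
`A(E,Q) ≤ A(E \ q, Q ∪ q)/(N q - 1)`.  By induction on `E`:
`A(E, PS R \ E) ≤ A(∅, PS R)/phE E ≤ 16/phE E` (`NOPI`: an element of `IsPi` dividing
`z ∈ ann 0 R` is in `PS R`).
`JLOW`: partition `ann 0 R` by `E(z)` = the elements of `PS R` dividing `z`; `E(z) ∈ EE R` because
the product divides `z` (`prod_dvd_iff`).  So `¼ log(R/2) ≤ 16 JR R`.  For `R < 4`: `JR R ≥ 1`.
-/

set_option autoImplicit false

namespace Pool.Agent.NSqP

open Real

theorem recip_lower {R : ℝ} (hR : 2 ≤ R) :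
    1 / 4 * log (R / 2) ≤ ∑ z ∈ ann 0 R, 1 / (nN z : ℝ) := by
  classical
  have hR2 : 1 ≤ R / 2 := by linarith
  obtain ⟨X, hX⟩ : ∃ X : ℕ, X = ⌊√(R / 2)⌋₊ := ⟨_, rfl⟩
  have hXle : (X : ℝ) ≤ √(R / 2) := by rw [hX]; exact Nat.floor_le (Real.sqrt_nonneg _)
  have hXlt : √(R / 2) < X + 1 := by rw [hX]; exact Nat.lt_floor_add_one _
  have hXsq : (X : ℝ) ^ 2 ≤ R / 2 := by
    calc (X : ℝ) ^ 2 ≤ √(R / 2) ^ 2 := pow_le_pow_left₀ (Nat.cast_nonneg _) hXle 2
      _ = R / 2 := Real.sq_sqrt (by linarith)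
  let T : Finset (Σ _ : ℕ, ℕ) := (Finset.Icc 1 X).sigma (fun x => Finset.Icc 1 x)
  let f : (Σ _ : ℕ, ℕ) → GaussianInt := fun p => ⟨(p.1 : ℤ), (p.2 : ℤ)⟩
  have hf : Set.InjOn f T := by
    rintro ⟨a, b⟩ _ ⟨c, d⟩ _ h
    have h1 : ((⟨(a : ℤ), (b : ℤ)⟩ : GaussianInt)) = ⟨(c : ℤ), (d : ℤ)⟩ := h
    rw [Zsqrtd.ext_iff] at h1
    have h2 : (a : ℤ) = c := h1.1
    have h3 : (b : ℤ) = d := h1.2
    have h4 : a = c := by exact_mod_cast h2
    have h5 : b = d := by exact_mod_cast h3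
    rw [h4, h5]
  have hsub : T.image f ⊆ ann 0 R := by
    intro z hz
    obtain ⟨⟨a, b⟩, hab, rfl⟩ := Finset.mem_image.1 hz
    rw [Finset.mem_sigma] at hab
    obtain ⟨h1, h2⟩ := hab
    simp only [Finset.mem_Icc] at h1 h2
    rw [mem_ann (by linarith), nN_real]
    have ha : (1 : ℝ) ≤ a := by exact_mod_cast h1.1
    have haX : (a : ℝ) ≤ X := by exact_mod_cast h1.2
    have hb : (1 : ℝ) ≤ b := by exact_mod_cast h2.1
    have hba : (b : ℝ) ≤ a := by exact_mod_cast h2.2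
    change 0 < (((a : ℤ)) : ℝ) ^ 2 + ((b : ℤ) : ℝ) ^ 2 ∧ ((a : ℤ) : ℝ) ^ 2 + ((b : ℤ) : ℝ) ^ 2 ≤ R
    push_cast
    constructor
    · positivity
    · nlinarith
  have h1 : ∑ z ∈ T.image f, 1 / (nN z : ℝ) ≤ ∑ z ∈ ann 0 R, 1 / (nN z : ℝ) :=
    Finset.sum_le_sum_of_subset_of_nonneg hsub (fun z _ _ => by positivity)
  refine le_trans ?_ h1
  rw [Finset.sum_image hf]
  have h2 : ∀ p ∈ T, 1 / (2 * ((p.1 : ℝ)) ^ 2) ≤ 1 / (nN (f p) : ℝ) := by
    rintro ⟨a, b⟩ hab
    rw [Finset.mem_sigma] at hab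
    obtain ⟨h1, h2⟩ := hab
    simp only [Finset.mem_Icc] at h1 h2
    have ha : (1 : ℝ) ≤ a := by exact_mod_cast h1.1
    have hb : (1 : ℝ) ≤ b := by exact_mod_cast h2.1
    have hba : (b : ℝ) ≤ a := by exact_mod_cast h2.2
    rw [nN_real]
    change 1 / (2 * (a : ℝ) ^ 2) ≤ 1 / ((((a : ℤ)) : ℝ) ^ 2 + ((b : ℤ) : ℝ) ^ 2)
    push_cast
    apply one_div_le_one_div_of_le
    · positivity
    · nlinarith
  refine le_trans ?_ (Finset.sum_le_sum h2)
  have h3 : ∑ p ∈ T, 1 / (2 * ((p.1 : ℝ)) ^ 2) = 1 / 2 * ∑ x ∈ Finset.Icc 1 X, ((x : ℝ))⁻¹ := by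
    rw [Finset.sum_sigma, Finset.mul_sum]
    refine Finset.sum_congr rfl (fun x hx => ?_)
    rw [Finset.mem_Icc] at hx
    have hx0 : (x : ℝ) ≠ 0 := by
      have : (1 : ℝ) ≤ x := by exact_mod_cast hx.1
      positivity
    simp only [Finset.sum_const, Nat.card_Icc, add_tsub_cancel_right, nsmul_eq_mul]
    field_simp
  rw [h3]
  have h4 : log ((X : ℝ) + 1) ≤ ∑ x ∈ Finset.Icc 1 X, ((x : ℝ))⁻¹ := by
    have h5 := log_add_one_le_harmonic X
    rw [harmonic_eq_sum_Icc] at h5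
    push_cast at h5
    exact h5
  have h6 : log (R / 2) = 2 * log (√(R / 2)) := by
    rw [Real.log_sqrt (by linarith)]
    ring
  have h7 : log (√(R / 2)) ≤ log ((X : ℝ) + 1) :=
    Real.log_le_log (Real.sqrt_pos.2 (by linarith)) hXlt.le
  rw [h6]
  linarith

open Classical in
/-- sum over the multiples of `E` without factor in `Q` -/
private noncomputable def svA (R : ℝ) (E Q : Finset GaussianInt) : ℝ :=
  ∑ z ∈ (ann 0 R).filter (fun z => (∀ q ∈ E, q ∣ z) ∧ ∀ q ∈ Q, ¬ q ∣ z), 1 / (nN z : ℝ)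

open Classical in
private lemma svA_step {R : ℝ} (hR : 0 ≤ R) (E Q : Finset GaussianInt) {q : GaussianInt}
    (hq : IsPi q) (hqE : q ∉ E) (hE : ∀ r ∈ E, IsPi r) :
    svA R (insert q E) Q ≤ svA R E (insert q Q) / ((nN q : ℝ) - 1) := by
  have hN := hq.three_le
  have hq0 := hq.ne_zero
  -- the cofactor map
  let g : GaussianInt → GaussianInt := fun z => if h : q ∣ z then Classical.choose h else 0
  have hg : ∀ z, q ∣ z → z = q * g z := by
    intro z h
    have h1 : g z = Classical.choose h := dif_pos h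
    rw [h1]
    exact Classical.choose_spec h
  let S := (ann 0 R).filter (fun z => (∀ r ∈ insert q E, r ∣ z) ∧ ∀ r ∈ Q, ¬ r ∣ z)
  let S1 := (ann 0 R).filter (fun z => (∀ r ∈ E, r ∣ z) ∧ ∀ r ∈ insert q Q, ¬ r ∣ z)
  have hS : svA R (insert q E) Q = ∑ z ∈ S, 1 / (nN z : ℝ) := rfl
  have hS1 : svA R E (insert q Q) = ∑ z ∈ S1, 1 / (nN z : ℝ) := rfl
  have hdiv : ∀ z ∈ S, q ∣ z := by
    intro z hz
    exact (Finset.mem_filter.1 hz).2.1 q (Finset.mem_insert_self q E)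
  have hinj : Set.InjOn g S := by
    intro z hz w hw h
    rw [hg z (hdiv z hz), hg w (hdiv w hw), h]
  have hmap : S.image g ⊆ S1 ∪ S := by
    intro w hw
    obtain ⟨z, hz, rfl⟩ := Finset.mem_image.1 hw
    have hzq := hg z (hdiv z hz)
    obtain ⟨hz1, hz2, hz3⟩ := Finset.mem_filter.1 hz
    rw [mem_ann hR] at hz1
    have hz0 : z ≠ 0 := by
      rintro rfl
      rw [nN_zero] at hz1
      simp at hz1
    have hw0 : g z ≠ 0 := by
      intro h
      rw [h, mul_zero] at hzq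
      exact hz0 hzq
    have hnz : (nN z : ℝ) = nN q * nN (g z) := by
      have h5 : nN z = nN q * nN (g z) := by
        conv_lhs => rw [hzq]
        rw [nN_mul]
      rw [h5]
      push_cast
      ring
    have hwpos : (0 : ℝ) < nN (g z) := by exact_mod_cast nN_pos hw0
    have hwR : (nN (g z) : ℝ) ≤ R := by nlinarith [hz1.2]
    have hwA : g z ∈ ann 0 R := (mem_ann hR).2 ⟨hwpos, hwR⟩
    have hwE : ∀ r ∈ E, r ∣ g z := by
      intro r hr
      have h1 : r ∣ q * g z := by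
        rw [← hzq]
        exact hz2 r (Finset.mem_insert_of_mem hr)
      have hcop : IsCoprime r q := (hE r hr).coprime hq (fun h => hqE (h ▸ hr))
      exact hcop.dvd_of_dvd_mul_left h1
    have hwQ : ∀ r ∈ Q, ¬ r ∣ g z := by
      intro r hr h
      apply hz3 r hr
      rw [hzq]
      exact Dvd.dvd.mul_left h q
    by_cases hqw : q ∣ g z
    · apply Finset.mem_union_right
      rw [Finset.mem_filter]
      refine ⟨hwA, ?_, hwQ⟩
      intro r hr
      rcases Finset.mem_insert.1 hr with h | h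
      · rw [h]; exact hqw
      · exact hwE r h
    · apply Finset.mem_union_left
      rw [Finset.mem_filter]
      refine ⟨hwA, hwE, ?_⟩
      intro r hr
      rcases Finset.mem_insert.1 hr with h | h
      · rw [h]; exact hqw
      · exact hwQ r h
  have h1 : ∑ z ∈ S, 1 / (nN z : ℝ) = 1 / (nN q : ℝ) * ∑ w ∈ S.image g, 1 / (nN w : ℝ) := by
    rw [Finset.sum_image hinj, Finset.mul_sum]
    refine Finset.sum_congr rfl (fun z hz => ?_)
    have h5 : nN z = nN q * nN (g z) := by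
      conv_lhs => rw [hg z (hdiv z hz)]
      rw [nN_mul]
    rw [h5]
    push_cast
    rw [one_div_mul_one_div]
  have h2 : ∑ w ∈ S.image g, 1 / (nN w : ℝ) ≤
      ∑ z ∈ S1, 1 / (nN z : ℝ) + ∑ z ∈ S, 1 / (nN z : ℝ) := by
    calc ∑ w ∈ S.image g, 1 / (nN w : ℝ) ≤ ∑ w ∈ S1 ∪ S, 1 / (nN w : ℝ) :=
          Finset.sum_le_sum_of_subset_of_nonneg hmap (fun z _ _ => by positivity)
      _ ≤ ∑ w ∈ S1 ∪ S, 1 / (nN w : ℝ) + ∑ w ∈ S1 ∩ S, 1 / (nN w : ℝ) := by
          have : 0 ≤ ∑ w ∈ S1 ∩ S, 1 / (nN w : ℝ) := Finset.sum_nonneg fun _ _ => by positivity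
          linarith
      _ = _ := Finset.sum_union_inter
  rw [hS, hS1, le_div_iff₀ (by linarith)]
  have hNpos : (0 : ℝ) < nN q := by linarith
  have h3 : (nN q : ℝ) * ∑ z ∈ S, 1 / (nN z : ℝ) = ∑ w ∈ S.image g, 1 / (nN w : ℝ) := by
    rw [h1]
    field_simp
  linarith

open Classical in
private lemma svA_ind {R : ℝ} (hR : 0 ≤ R) (E : Finset GaussianInt) :
    ∀ Q : Finset GaussianInt, (∀ r ∈ E, IsPi r) →
      svA R E Q ≤ svA R ∅ (E ∪ Q) / phE E := by
  induction E using Finset.induction_on with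
  | empty =>
    intro Q _
    simp [phE]
  | insert q E hqE ih =>
    intro Q h
    have hq : IsPi q := h q (Finset.mem_insert_self q E)
    have hE : ∀ r ∈ E, IsPi r := fun r hr => h r (Finset.mem_insert_of_mem hr)
    have hN := hq.three_le
    have h1 := svA_step hR E Q hq hqE hE
    have h2 := ih (insert q Q) hE
    have h3 : E ∪ insert q Q = insert q E ∪ Q := by
      ext r
      simp only [Finset.mem_union, Finset.mem_insert]
      tauto
    rw [h3] at h2
    have h4 : phE (insert q E) = ((nN q : ℝ) - 1) * phE E := by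
      unfold phE
      rw [Finset.prod_insert hqE]
    rw [h4]
    have h5 : 0 < phE E := phE_pos hE
    calc svA R (insert q E) Q ≤ svA R E (insert q Q) / ((nN q : ℝ) - 1) := h1
      _ ≤ (svA R ∅ (insert q E ∪ Q) / phE E) / ((nN q : ℝ) - 1) :=
          div_le_div_of_nonneg_right h2 (by linarith)
      _ = svA R ∅ (insert q E ∪ Q) / (((nN q : ℝ) - 1) * phE E) := by
          rw [div_div, mul_comm (phE E)]

private lemma sv_nN_le_of_dvd {q z : GaussianInt} (hz : z ≠ 0) (h : q ∣ z) : nN q ≤ nN z := by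
  obtain ⟨w, rfl⟩ := h
  have hw : w ≠ 0 := by
    rintro rfl
    exact hz (mul_zero _)
  rw [nN_mul]
  exact Nat.le_mul_of_pos_right _ (nN_pos hw)

open Classical in
private lemma svA_empty {R : ℝ} (hR : 0 ≤ R) : svA R ∅ (PS R) ≤ 16 := by
  refine le_trans (le_of_eq ?_) (NOPI R)
  unfold svA
  apply Finset.sum_congr _ (fun _ _ => rfl)
  ext z
  rw [Finset.mem_filter, Finset.mem_filter]
  constructor
  · rintro ⟨h1, -, h2⟩
    refine ⟨h1, fun q hq hqz => h2 q ?_ hqz⟩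
    rw [mem_PS hR]
    refine ⟨hq, ?_⟩
    have h3 := sv_nN_le_of_dvd (ne_zero_of_mem_ann le_rfl h1) hqz
    have h4 : (nN q : ℝ) ≤ nN z := by exact_mod_cast h3
    exact h4.trans ((mem_ann hR).1 h1).2
  · rintro ⟨h1, h2⟩
    exact ⟨h1, by simp, fun q hq => h2 q (isPi_of_mem_PS hq)⟩

open Classical in
theorem fiber_le (R : ℝ) (E : Finset GaussianInt) (hE : E ⊆ PS R) :
    ∑ z ∈ (ann 0 R).filter (fun z => (PS R).filter (fun q => q ∣ z) = E), 1 / (nN z : ℝ) ≤
      16 / phE E := by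
  have hE' : ∀ r ∈ E, IsPi r := fun r hr => isPi_of_mem_PS (hE hr)
  have hph := phE_pos hE'
  rcases lt_or_ge R 0 with hR | hR
  · rw [ann_of_neg hR]
    simp only [Finset.filter_empty, Finset.sum_empty]
    positivity
  have h1 := svA_ind hR E (PS R \ E) hE'
  rw [Finset.union_sdiff_of_subset hE] at h1
  have h2 : svA R ∅ (PS R) / phE E ≤ 16 / phE E :=
    div_le_div_of_nonneg_right (svA_empty hR) hph.le
  refine le_trans (le_trans ?_ h1) h2
  unfold svA
  apply Finset.sum_le_sum_of_subset_of_nonneg _ (fun z _ _ => by positivity)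
  intro z hz
  rw [Finset.mem_filter] at hz ⊢
  obtain ⟨h3, h4⟩ := hz
  refine ⟨h3, ?_, ?_⟩
  · intro q hq
    rw [← h4] at hq
    exact (Finset.mem_filter.1 hq).2
  · intro q hq hqz
    rw [Finset.mem_sdiff] at hq
    apply hq.2
    rw [← h4, Finset.mem_filter]
    exact ⟨hq.1, hqz⟩

theorem JLOW {R : ℝ} (hR : 2 ≤ R) : log R / 128 ≤ JR R := by
  classical
  have hR0 : (0 : ℝ) ≤ R := by linarith
  have h1 := recip_lower hR
  have hmaps : ∀ z ∈ ann 0 R, (PS R).filter (fun q => q ∣ z) ∈ EE R := by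
    intro z hz
    rw [mem_EE]
    refine ⟨Finset.filter_subset _ _, ?_⟩
    have hpi : ∀ q ∈ (PS R).filter (fun q => q ∣ z), IsPi q := fun q hq =>
      isPi_of_mem_PS (Finset.mem_filter.1 hq).1
    have hd : (∏ q ∈ (PS R).filter (fun q => q ∣ z), q) ∣ z := by
      rw [prod_dvd_iff _ hpi]
      intro q hq
      exact (Finset.mem_filter.1 hq).2
    have h3 := sv_nN_le_of_dvd (ne_zero_of_mem_ann le_rfl hz) hd
    have h4 : (nN (∏ q ∈ (PS R).filter (fun q => q ∣ z), q) : ℝ) =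
        nE ((PS R).filter (fun q => q ∣ z)) := by
      unfold nE
      generalize (PS R).filter (fun q => q ∣ z) = E
      induction E using Finset.induction_on with
      | empty => simp [nN_one]
      | insert q E hq ih =>
        rw [Finset.prod_insert hq, Finset.prod_insert hq, nN_mul]
        push_cast
        rw [ih]
    rw [← h4]
    have h5 : (nN (∏ q ∈ (PS R).filter (fun q => q ∣ z), q) : ℝ) ≤ nN z := by exact_mod_cast h3
    exact h5.trans ((mem_ann hR0).1 hz).2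
  have h2 : ∑ z ∈ ann 0 R, 1 / (nN z : ℝ) ≤ 16 * JR R := by
    rw [← Finset.sum_fiberwise_of_maps_to hmaps]
    unfold JR
    rw [Finset.mul_sum]
    refine Finset.sum_le_sum (fun E hE => ?_)
    rw [mul_one_div]
    exact fiber_le R E (mem_EE.1 hE).1
  have h3 := one_le_JR (R := R) (by linarith)
  rcases lt_or_ge R 4 with h4 | h4
  · have h5 : log R ≤ R - 1 := Real.log_le_sub_one_of_pos (by linarith)
    linarith
  · have h5 : log R ≤ 2 * log (R / 2) := by
      rw [← Real.log_rpow (by linarith)]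
      apply Real.log_le_log (by linarith)
      have h6 : (R / 2) ^ (2 : ℝ) = (R / 2) ^ 2 := by
        rw [← Real.rpow_natCast]
        norm_num
      rw [h6]
      nlinarith
    linarith

end Pool.Agent.NSqP
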