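import Pool.Agent.Lib.NSqP.WDefs

/-!
# The van der Corput inequality and its iteration (group W of the parity theorem)
-/

set_option autoImplicit false

namespace Pool.Agent.NSqP

open Finset

/-- the autocorrelation of a finitely supported function on the integers -/
noncomputable def acor (u : ℤ → ℂ) (h : ℤ) : ℂ := ∑' n : ℤ, u (n + h) * (starRingEnd ℂ) (u n)

section corr

variable {u : ℤ → ℂ} (hu : u.support.Finite)

include hu

lemma corr_summable (a b : ℤ) : Summable fun n : ℤ => u (n + a) * (starRingEnd ℂ) (u (n + b)) := by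
  refine summable_of_finite_support ?_
  have h1 : (fun n : ℤ => n + b) ⁻¹' u.support |>.Finite :=
    hu.preimage (fun x _ y _ h => by simpa using h)
  refine h1.subset ?_
  intro n hn
  rw [Function.mem_support] at hn
  rw [Set.mem_preimage, Function.mem_support]
  intro h0
  apply hn
  rw [h0, map_zero, mul_zero]

lemma corr_shift (a b : ℤ) :
    ∑' n : ℤ, u (n + a) * (starRingEnd ℂ) (u (n + b)) = acor u (a - b) := by
  unfold acor
  rw [← (Equiv.addRight b).tsum_eq (fun n : ℤ => u (n + (a - b)) * (starRingEnd ℂ) (u n))]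
  refine tsum_congr fun n => ?_
  simp only [Equiv.coe_addRight]
  congr 2
  ring

lemma acor_neg (h : ℤ) : ‖acor u (-h)‖ = ‖acor u h‖ := by
  have h1 : acor u (-h) = (starRingEnd ℂ) (acor u h) := by
    unfold acor
    rw [Complex.conj_tsum, ← (Equiv.addRight h).tsum_eq (fun n : ℤ => u (n + -h) * (starRingEnd ℂ) (u n))]
    refine tsum_congr fun n => ?_
    simp only [Equiv.coe_addRight, map_mul, Complex.conj_conj]
    rw [mul_comm]
    congr 2
    ring
  rw [h1, Complex.norm_conj]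

end corr

/-- van der Corput inequality, correlation form -/
lemma vdc_acor {u : ℤ → ℂ} {L : ℕ} (hu : ∀ n, ¬ (0 ≤ n ∧ n < (L : ℤ)) → u n = 0) (Q : ℕ) (hQ : 1 ≤ Q) :
    (Q : ℝ) * ‖∑ n ∈ Ico (0 : ℤ) L, u n‖ ^ 2 ≤
      ((L : ℝ) + Q) * (‖acor u 0‖ + 2 * ∑ h ∈ Ico 1 Q, ‖acor u (h : ℤ)‖) := by
  classical
  have hfin : u.support.Finite := by
    refine (Ico (0 : ℤ) L).finite_toSet.subset ?_
    intro n hn
    rw [Function.mem_support] at hn
    by_contra hc
    apply hn
    apply hu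
    intro h
    exact hc (by simpa using h)
  set S : ℂ := ∑ n ∈ Ico (0 : ℤ) L, u n with hS
  set w : ℤ → ℂ := fun m => ∑ q ∈ range Q, u (m + -(q : ℤ)) with hw
  set I : Finset ℤ := Ico (0 : ℤ) ((L : ℤ) + Q) with hI
  have hshift : ∀ q ∈ range Q, ∑ m ∈ I, u (m + -(q : ℤ)) = S := by
    intro q hq
    have hq' : q < Q := mem_range.1 hq
    have e1 : ∑ m ∈ I, u (m + -(q : ℤ)) = ∑ m ∈ Ico (q : ℤ) ((L : ℤ) + q), u (m + -(q : ℤ)) := by
      symm
      refine Finset.sum_subset ?_ ?_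
      · intro m hm
        rw [Finset.mem_Ico] at hm
        rw [hI, Finset.mem_Ico]
        omega
      · intro m _ hm
        apply hu
        rw [Finset.mem_Ico] at hm
        omega
    rw [e1, hS]
    refine Finset.sum_bij (fun m _ => m + -(q : ℤ)) ?_ ?_ ?_ ?_
    · intro m hm
      rw [Finset.mem_Ico] at hm ⊢
      omega
    · intro a _ b _ h
      simpa using h
    · intro b hb
      rw [Finset.mem_Ico] at hb
      refine ⟨b + q, ?_, by ring⟩
      rw [Finset.mem_Ico]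
      omega
    · intro m _
      rfl
  have hwS : ∑ m ∈ I, w m = (Q : ℂ) * S := by
    rw [hw]
    rw [Finset.sum_comm, Finset.sum_congr rfl hshift]
    simp
  have hcard : (#I : ℝ) = (L : ℝ) + Q := by
    rw [hI, Int.card_Ico]
    have : ((L : ℤ) + Q - 0).toNat = L + Q := by omega
    rw [this]
    push_cast
    ring
  have hcs : ‖(Q : ℂ) * S‖ ^ 2 ≤ ((L : ℝ) + Q) * ∑ m ∈ I, ‖w m‖ ^ 2 := by
    rw [← hwS, ← hcard]
    calc ‖∑ m ∈ I, w m‖ ^ 2 ≤ (∑ m ∈ I, ‖w m‖) ^ 2 := by
          gcongr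
          exact norm_sum_le _ _
      _ ≤ #I * ∑ m ∈ I, ‖w m‖ ^ 2 := sq_sum_le_card_mul_sum_sq
  have hwz : ∀ m, m ∉ I → w m = 0 := by
    intro m hm
    rw [hw]
    refine Finset.sum_eq_zero fun q hq => ?_
    have hq' : q < Q := mem_range.1 hq
    apply hu
    rw [hI, Finset.mem_Ico] at hm
    omega
  have hsq : ((∑ m ∈ I, ‖w m‖ ^ 2 : ℝ) : ℂ) =
      ∑ q ∈ range Q, ∑ q' ∈ range Q, acor u ((q' : ℤ) - q) := by
    have e1 : ((∑ m ∈ I, ‖w m‖ ^ 2 : ℝ) : ℂ) = ∑' m : ℤ, w m * (starRingEnd ℂ) (w m) := by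
      rw [tsum_eq_sum (s := I) (fun m hm => by rw [hwz m hm, zero_mul])]
      push_cast
      refine Finset.sum_congr rfl fun m _ => ?_
      rw [Complex.mul_conj, Complex.normSq_eq_norm_sq]
      push_cast
      rfl
    rw [e1]
    have e2 : ∀ m : ℤ, w m * (starRingEnd ℂ) (w m) =
        ∑ q ∈ range Q, ∑ q' ∈ range Q, u (m + -(q : ℤ)) * (starRingEnd ℂ) (u (m + -(q' : ℤ))) := by
      intro m
      rw [hw]
      simp only [map_sum]
      rw [Finset.sum_mul_sum]
    rw [tsum_congr e2, Summable.tsum_finsetSum]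
    · refine Finset.sum_congr rfl fun q _ => ?_
      rw [Summable.tsum_finsetSum]
      · refine Finset.sum_congr rfl fun q' _ => ?_
        rw [corr_shift hfin]
        congr 1
        ring
      · intro q' _
        exact corr_summable hfin _ _
    · intro q _
      exact summable_sum fun q' _ => corr_summable hfin _ _
  have hsq' : ∑ m ∈ I, ‖w m‖ ^ 2 ≤ ∑ q ∈ range Q, ∑ q' ∈ range Q, ‖acor u ((q' : ℤ) - q)‖ := by
    have h0 : 0 ≤ ∑ m ∈ I, ‖w m‖ ^ 2 := Finset.sum_nonneg fun m _ => by positivity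
    calc ∑ m ∈ I, ‖w m‖ ^ 2 = ‖((∑ m ∈ I, ‖w m‖ ^ 2 : ℝ) : ℂ)‖ := by
          rw [Complex.norm_real, Real.norm_of_nonneg h0]
      _ = ‖∑ q ∈ range Q, ∑ q' ∈ range Q, acor u ((q' : ℤ) - q)‖ := by rw [hsq]
      _ ≤ ∑ q ∈ range Q, ‖∑ q' ∈ range Q, acor u ((q' : ℤ) - q)‖ := norm_sum_le _ _
      _ ≤ ∑ q ∈ range Q, ∑ q' ∈ range Q, ‖acor u ((q' : ℤ) - q)‖ :=
          Finset.sum_le_sum fun q _ => norm_sum_le _ _
  set G : ℝ := ‖acor u 0‖ + 2 * ∑ h ∈ Ico 1 Q, ‖acor u (h : ℤ)‖ with hG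
  have hrow : ∀ q ∈ range Q, ∑ q' ∈ range Q, ‖acor u ((q' : ℤ) - q)‖ ≤ G := by
    intro q hq
    have hq' : q < Q := mem_range.1 hq
    have hsplit : range Q = range q ∪ ({q} ∪ Ico (q + 1) Q) := by
      ext x; simp only [mem_union, mem_range, mem_singleton, Finset.mem_Ico]; omega
    have hd1 : Disjoint (range q) ({q} ∪ Ico (q + 1) Q) := by
      rw [Finset.disjoint_left]; intro x; simp only [mem_union, mem_range, mem_singleton, Finset.mem_Ico]; omega
    have hd2 : Disjoint ({q} : Finset ℕ) (Ico (q + 1) Q) := by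
      rw [Finset.disjoint_left]; intro x; simp only [mem_singleton, Finset.mem_Ico]; omega
    rw [hsplit, Finset.sum_union hd1, Finset.sum_union hd2, Finset.sum_singleton, sub_self]
    have b1 : ∑ q' ∈ range q, ‖acor u ((q' : ℤ) - q)‖ ≤ ∑ h ∈ Ico 1 Q, ‖acor u (h : ℤ)‖ := by
      calc ∑ q' ∈ range q, ‖acor u ((q' : ℤ) - q)‖
          = ∑ q' ∈ range q, ‖acor u (((q - q' : ℕ)) : ℤ)‖ := by
            refine Finset.sum_congr rfl fun q' h' => ?_
            have := mem_range.1 h'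
            rw [← acor_neg hfin]
            congr 2
            push_cast [Nat.cast_sub this.le]
            ring
        _ = ∑ h ∈ (range q).image (fun q' => q - q'), ‖acor u (h : ℤ)‖ := by
            rw [Finset.sum_image]
            intro a ha b hb h
            have := mem_range.1 ha
            have := mem_range.1 hb
            simp only at h
            omega
        _ ≤ ∑ h ∈ Ico 1 Q, ‖acor u (h : ℤ)‖ := by
            refine Finset.sum_le_sum_of_subset_of_nonneg ?_ fun _ _ _ => norm_nonneg _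
            intro x hx
            rw [mem_image] at hx
            obtain ⟨a, ha, rfl⟩ := hx
            have := mem_range.1 ha
            rw [Finset.mem_Ico]
            omega
    have b2 : ∑ q' ∈ Ico (q + 1) Q, ‖acor u ((q' : ℤ) - q)‖ ≤ ∑ h ∈ Ico 1 Q, ‖acor u (h : ℤ)‖ := by
      calc ∑ q' ∈ Ico (q + 1) Q, ‖acor u ((q' : ℤ) - q)‖
          = ∑ q' ∈ Ico (q + 1) Q, ‖acor u (((q' - q : ℕ)) : ℤ)‖ := by
            refine Finset.sum_congr rfl fun q' h' => ?_
            have := Finset.mem_Ico.1 h'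
            congr 2
            push_cast [Nat.cast_sub (show q ≤ q' by omega)]
            ring
        _ = ∑ h ∈ (Ico (q + 1) Q).image (fun q' => q' - q), ‖acor u (h : ℤ)‖ := by
            rw [Finset.sum_image]
            intro a ha b hb h
            have := Finset.mem_Ico.1 ha
            have := Finset.mem_Ico.1 hb
            simp only at h
            omega
        _ ≤ ∑ h ∈ Ico 1 Q, ‖acor u (h : ℤ)‖ := by
            refine Finset.sum_le_sum_of_subset_of_nonneg ?_ fun _ _ _ => norm_nonneg _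
            intro x hx
            rw [mem_image] at hx
            obtain ⟨a, ha, rfl⟩ := hx
            have := Finset.mem_Ico.1 ha
            rw [Finset.mem_Ico]
            omega
    rw [hG]
    linarith
  have htot : ∑ m ∈ I, ‖w m‖ ^ 2 ≤ (Q : ℝ) * G := by
    refine hsq'.trans ((Finset.sum_le_sum hrow).trans ?_)
    simp
  have hQ0 : (0 : ℝ) < Q := by exact_mod_cast hQ
  have hfinal : (Q : ℝ) ^ 2 * ‖S‖ ^ 2 ≤ ((L : ℝ) + Q) * ((Q : ℝ) * G) := by
    calc (Q : ℝ) ^ 2 * ‖S‖ ^ 2 = ‖(Q : ℂ) * S‖ ^ 2 := by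
          rw [norm_mul, mul_pow, Complex.norm_natCast]
      _ ≤ _ := hcs.trans (mul_le_mul_of_nonneg_left htot (by positivity))
  have h3 : (Q : ℝ) * ((Q : ℝ) * ‖S‖ ^ 2) ≤ (Q : ℝ) * (((L : ℝ) + Q) * G) := by
    calc (Q : ℝ) * ((Q : ℝ) * ‖S‖ ^ 2) = (Q : ℝ) ^ 2 * ‖S‖ ^ 2 := by ring
      _ ≤ ((L : ℝ) + Q) * ((Q : ℝ) * G) := hfinal
      _ = _ := by ring
  exact le_of_mul_le_mul_left h3 hQ0

/-- van der Corput inequality for exponential sums -/
lemma vdc_ES (F : ℕ → ℝ) (L Q : ℕ) (hQ : 1 ≤ Q) :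
    (Q : ℝ) * ES F L ^ 2 ≤ ((L : ℝ) + Q) * ((L : ℝ) + 2 * ∑ h ∈ Ico 1 Q, ES (dif h F) (L - h)) := by
  classical
  set u : ℤ → ℂ := fun n => if 0 ≤ n ∧ n < (L : ℤ) then Complex.exp ((F n.toNat : ℂ) * Complex.I) else 0
    with hu
  have hu0 : ∀ n, ¬ (0 ≤ n ∧ n < (L : ℤ)) → u n = 0 := by
    intro n hn
    rw [hu]
    simp only [if_neg hn]
  have key := vdc_acor hu0 Q hQ
  have hunat : ∀ n : ℕ, n < L → u (n : ℤ) = Complex.exp ((F n : ℂ) * Complex.I) := by
    intro n hn
    rw [hu]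
    have : 0 ≤ (n : ℤ) ∧ (n : ℤ) < (L : ℤ) := ⟨by positivity, by exact_mod_cast hn⟩
    simp only [if_pos this, Int.toNat_natCast]
  have hIco : ∀ (K : ℕ) (f : ℤ → ℂ), ∑ n ∈ Ico (0 : ℤ) K, f n = ∑ n ∈ range K, f (n : ℤ) := by
    intro K f
    symm
    refine Finset.sum_bij (fun n _ => (n : ℤ)) ?_ ?_ ?_ ?_
    · intro n hn
      have := mem_range.1 hn
      rw [Finset.mem_Ico]
      omega
    · intro a _ b _ h
      exact_mod_cast h
    · intro b hb
      rw [Finset.mem_Ico] at hb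
      exact ⟨b.toNat, by rw [mem_range]; omega, by omega⟩
    · intro n _
      rfl
  have hS : ‖∑ n ∈ Ico (0 : ℤ) L, u n‖ = ES F L := by
    unfold ES
    rw [hIco]
    congr 1
    exact Finset.sum_congr rfl fun n hn => hunat n (mem_range.1 hn)
  have hac : ∀ h : ℕ, ‖acor u (h : ℤ)‖ = ES (dif h F) (L - h) := by
    intro h
    unfold acor ES
    rw [tsum_eq_sum (s := Ico (0 : ℤ) ((L - h : ℕ) : ℤ)), hIco]
    · congr 1
      refine Finset.sum_congr rfl fun n hn => ?_
      have hn' := mem_range.1 hn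
      have e1 : ((n : ℤ) + (h : ℤ)) = ((n + h : ℕ) : ℤ) := by push_cast; ring
      rw [e1, hunat (n + h) (by omega), hunat n (by omega), ← Complex.exp_conj, ← Complex.exp_add]
      congr 1
      simp only [map_mul, Complex.conj_I, Complex.conj_ofReal, dif]
      push_cast
      ring
    · intro n hn
      rw [Finset.mem_Ico] at hn
      by_cases h1 : 0 ≤ n ∧ n < (L : ℤ)
      · have : ¬ (0 ≤ n + (h : ℤ) ∧ n + (h : ℤ) < (L : ℤ)) := by omega
        rw [hu0 _ this, zero_mul]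
      · rw [hu0 _ h1, map_zero, mul_zero]
  rw [hS] at key
  have h0 : ‖acor u 0‖ ≤ L := by
    have := hac 0
    rw [Nat.cast_zero] at this
    rw [this]
    refine (ES_le _ _).trans ?_
    simp
  have hsum : ∑ h ∈ Ico 1 Q, ‖acor u (h : ℤ)‖ = ∑ h ∈ Ico 1 Q, ES (dif h F) (L - h) :=
    Finset.sum_congr rfl fun h _ => hac h
  rw [hsum] at key
  refine key.trans ?_
  refine mul_le_mul_of_nonneg_left ?_ (by positivity)
  linarith

/-- iterated van der Corput inequality -/
theorem vdc_iter (H Q0 Q : ℕ) (ε : ℝ) (hQ0 : 1 ≤ Q0) (hQ : Q0 ≤ Q) (hQH : Q ≤ H) (hε1 : ε ≤ 1)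
    (hε : (Q0 : ℝ) ≤ ε * Q) (r : ℕ) : ∀ (F : ℕ → ℝ),
    (∀ hs : List ℕ, hs.length = r → (∀ h ∈ hs, Q0 ≤ h ∧ h < Q) → ∀ L ≤ H, ES (difs hs F) L ≤ ε * H) →
    ∀ L ≤ H, ES F L ≤ 20 * ε ^ ((1 : ℝ) / 2 ^ r) * H := by
  have hQpos : (0 : ℝ) < Q := by
    have : 1 ≤ Q := hQ0.trans hQ
    exact_mod_cast this
  have hε0 : 0 < ε := by
    by_contra hc
    push Not at hc
    have : (Q0 : ℝ) ≤ 0 := hε.trans (mul_nonpos_of_nonpos_of_nonneg hc hQpos.le)
    have h1 : (1 : ℝ) ≤ Q0 := by exact_mod_cast hQ0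
    linarith
  have hH0 : (0 : ℝ) < H := hQpos.trans_le (by exact_mod_cast hQH)
  induction r with
  | zero =>
    intro F hF L hL
    have := hF [] rfl (by simp) L hL
    simp only [difs] at this
    rw [pow_zero, div_one, Real.rpow_one]
    have h2 : 0 < ε * (H : ℝ) := mul_pos hε0 hH0
    linarith
  | succ r ih =>
    intro F hF L hL
    set a : ℝ := ε ^ ((1 : ℝ) / 2 ^ r) with ha
    have ha0 : 0 < a := Real.rpow_pos_of_pos hε0 _
    have hεa : ε ≤ a := by
      have h1 : (1 : ℝ) / 2 ^ r ≤ 1 := by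
        rw [div_le_one (by positivity)]
        exact one_le_pow₀ (by norm_num)
      calc ε = ε ^ (1 : ℝ) := (Real.rpow_one ε).symm
        _ ≤ a := Real.rpow_le_rpow_of_exponent_ge hε0 hε1 h1
    have hstep : ∀ h, Q0 ≤ h → h < Q → ∀ L' ≤ H, ES (dif h F) L' ≤ 20 * a * H := by
      intro h h1 h2 L' hL'
      refine ih (dif h F) ?_ L' hL'
      intro hs hlen hall L'' hL''
      have := hF (h :: hs) (by simp [hlen]) ?_ L'' hL''
      · simpa only [difs] using this
      · intro x hx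
        rcases List.mem_cons.1 hx with rfl | hx
        · exact ⟨h1, h2⟩
        · exact hall x hx
    have hv := vdc_ES F L Q (hQ0.trans hQ)
    have hsum : ∑ h ∈ Ico 1 Q, ES (dif h F) (L - h) ≤ (Q0 : ℝ) * H + (Q : ℝ) * (20 * a * H) := by
      have hsub : Ico 1 Q ⊆ range Q0 ∪ Ico Q0 Q := by
        intro x; simp only [mem_union, mem_range, Finset.mem_Ico]; omega
      calc ∑ h ∈ Ico 1 Q, ES (dif h F) (L - h)
          ≤ ∑ h ∈ range Q0 ∪ Ico Q0 Q, ES (dif h F) (L - h) :=
            Finset.sum_le_sum_of_subset_of_nonneg hsub fun _ _ _ => ES_nonneg _ _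
        _ ≤ ∑ h ∈ range Q0, ES (dif h F) (L - h) + ∑ h ∈ Ico Q0 Q, ES (dif h F) (L - h) := by
            have := Finset.sum_union_inter (s₁ := range Q0) (s₂ := Ico Q0 Q)
              (f := fun h => ES (dif h F) (L - h))
            have h0 : 0 ≤ ∑ h ∈ range Q0 ∩ Ico Q0 Q, ES (dif h F) (L - h) :=
              Finset.sum_nonneg fun _ _ => ES_nonneg _ _
            linarith
        _ ≤ (Q0 : ℝ) * H + (Q : ℝ) * (20 * a * H) := by
            refine add_le_add ?_ ?_
            · refine (Finset.sum_le_sum (g := fun _ => (H : ℝ)) fun h _ => ?_).trans ?_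
              · refine (ES_le _ _).trans ?_
                exact_mod_cast (Nat.sub_le _ _).trans hL
              · simp
            · refine (Finset.sum_le_sum (g := fun _ => 20 * a * (H : ℝ)) fun h hh => ?_).trans ?_
              · rw [Finset.mem_Ico] at hh
                exact hstep h hh.1 hh.2 _ ((Nat.sub_le _ _).trans hL)
              · rw [Finset.sum_const, Nat.card_Ico, nsmul_eq_mul]
                refine mul_le_mul_of_nonneg_right ?_ (by positivity)
                exact_mod_cast Nat.sub_le _ _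
    have hLH : (L : ℝ) ≤ H := by exact_mod_cast hL
    have hQH' : (Q : ℝ) ≤ H := by exact_mod_cast hQH
    have h1Q : (1 : ℝ) ≤ Q0 := by exact_mod_cast hQ0
    have hb : (Q : ℝ) * ES F L ^ 2 ≤ (Q : ℝ) * (86 * a * H ^ 2) := by
      have hES0 : ∀ h, 0 ≤ ES (dif h F) (L - h) := fun h => ES_nonneg _ _
      have hin0 : 0 ≤ (L : ℝ) + 2 * ∑ h ∈ Ico 1 Q, ES (dif h F) (L - h) := by
        have : 0 ≤ ∑ h ∈ Ico 1 Q, ES (dif h F) (L - h) := Finset.sum_nonneg fun h _ => hES0 h
        positivity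
      calc (Q : ℝ) * ES F L ^ 2
          ≤ ((L : ℝ) + Q) * ((L : ℝ) + 2 * ∑ h ∈ Ico 1 Q, ES (dif h F) (L - h)) := hv
        _ ≤ (2 * H) * ((L : ℝ) + 2 * ∑ h ∈ Ico 1 Q, ES (dif h F) (L - h)) :=
            mul_le_mul_of_nonneg_right (by linarith) hin0
        _ ≤ (2 * H) * (H + 2 * ((Q0 : ℝ) * H + (Q : ℝ) * (20 * a * H))) := by
            refine mul_le_mul_of_nonneg_left ?_ (by positivity)
            linarith
        _ ≤ (2 * H) * (3 * ((ε * Q) * H) + (Q : ℝ) * (40 * a * H)) := by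
            refine mul_le_mul_of_nonneg_left ?_ (by positivity)
            have e1 : (H : ℝ) ≤ (ε * Q) * H := by
              have : (1 : ℝ) ≤ ε * Q := h1Q.trans hε
              exact le_mul_of_one_le_left hH0.le this
            have e2 : (Q0 : ℝ) * H ≤ (ε * Q) * H := mul_le_mul_of_nonneg_right hε hH0.le
            linarith
        _ ≤ (2 * H) * (3 * ((a * Q) * H) + (Q : ℝ) * (40 * a * H)) := by
            refine mul_le_mul_of_nonneg_left ?_ (by positivity)
            have e1 : (ε * Q) * H ≤ (a * Q) * H :=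
              mul_le_mul_of_nonneg_right (mul_le_mul_of_nonneg_right hεa hQpos.le) hH0.le
            linarith
        _ = (Q : ℝ) * (86 * a * H ^ 2) := by ring
    have hb' : ES F L ^ 2 ≤ 86 * a * H ^ 2 := le_of_mul_le_mul_left hb hQpos
    have hroot : (ε ^ ((1 : ℝ) / 2 ^ (r + 1))) ^ 2 = a := by
      rw [ha, ← Real.rpow_natCast, ← Real.rpow_mul hε0.le]
      congr 1
      push_cast
      rw [pow_succ, one_div, one_div, mul_inv, mul_assoc, inv_mul_cancel₀ (by norm_num : (2 : ℝ) ≠ 0),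
        mul_one]
    have hfin : ES F L ^ 2 ≤ (20 * ε ^ ((1 : ℝ) / 2 ^ (r + 1)) * H) ^ 2 := by
      rw [mul_pow, mul_pow, hroot]
      refine hb'.trans ?_
      have : 0 ≤ a * (H : ℝ) ^ 2 := by positivity
      linarith
    have hnn : 0 ≤ 20 * ε ^ ((1 : ℝ) / 2 ^ (r + 1)) * H := by
      have := Real.rpow_pos_of_pos hε0 ((1 : ℝ) / 2 ^ (r + 1))
      positivity
    exact (pow_le_pow_iff_left₀ (ES_nonneg _ _) hnn (by norm_num)).1 hfin

end Pool.Agent.NSqP
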