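import Pool.Agent.Lib.NSqP.WDefs

/-!
# Group W: iterated mean value theorem for the phase
-/

set_option autoImplicit false

namespace Pool.Agent.NSqP

open Finset

/-- real difference operators -/
private def wdlt_rdifs : List ℕ → (ℝ → ℝ) → (ℝ → ℝ)
  | [], F => F
  | h :: hs, F => wdlt_rdifs hs (fun t => F (t + h) - F t)

private lemma wdlt_compare (hs : List ℕ) (F : ℝ → ℝ) (n : ℕ) :
    difs hs (fun m => F (m : ℝ)) n = wdlt_rdifs hs F (n : ℝ) := by
  induction hs generalizing F with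
  | nil => rfl
  | cons h hs ih =>
    simp only [difs, wdlt_rdifs]
    have : dif h (fun m => F (m : ℝ)) = fun m : ℕ => (fun t : ℝ => F (t + h) - F t) (m : ℝ) := by
      funext m
      simp only [dif]
      push_cast
      rfl
    rw [this]
    exact ih (fun t : ℝ => F (t + h) - F t)

private lemma wdlt_mvt (hs : List ℕ) : ∀ (g : ℕ → ℝ → ℝ),
    (∀ i t, HasDerivAt (g i) (g (i + 1) t) t) → ∀ (i : ℕ) (t : ℝ),
    ∃ s : ℝ, t ≤ s ∧ s ≤ t + (hs.sum : ℕ) ∧
      wdlt_rdifs hs (g i) t = (hs.prod : ℕ) * g (i + hs.length) s := by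
  induction hs with
  | nil =>
    intro g _ i t
    exact ⟨t, le_rfl, by simp, by simp [wdlt_rdifs]⟩
  | cons h hs ih =>
    intro g hg i t
    obtain ⟨s, hs1, hs2, hs3⟩ := ih (fun j u => g j (u + h) - g j u)
      (fun j u => ((hg j (u + h)).comp_add_const u (h : ℝ)).sub (hg j u)) i t
    have hslope : ∃ r : ℝ, s ≤ r ∧ r ≤ s + h ∧
        g (i + hs.length) (s + h) - g (i + hs.length) s = h * g (i + hs.length + 1) r := by
      rcases Nat.eq_zero_or_pos h with rfl | hpos
      · exact ⟨s, le_rfl, by simp, by simp⟩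
      · have hp : (0 : ℝ) < h := by exact_mod_cast hpos
        obtain ⟨r, hr, hr'⟩ := exists_hasDerivAt_eq_slope (g (i + hs.length))
          (g (i + hs.length + 1)) (show s < s + h by linarith)
          (fun u _ => (hg _ u).continuousAt.continuousWithinAt) (fun u _ => hg _ u)
        refine ⟨r, hr.1.le, hr.2.le, ?_⟩
        rw [hr', add_sub_cancel_left, mul_div_cancel₀ _ hp.ne']
    obtain ⟨r, hr1, hr2, hr3⟩ := hslope
    refine ⟨r, hs1.trans hr1, ?_, ?_⟩
    · rw [List.sum_cons, Nat.cast_add]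
      linarith
    · simp only [wdlt_rdifs]
      rw [hs3, hr3, List.prod_cons, List.length_cons]
      push_cast
      rw [show i + hs.length + 1 = i + (hs.length + 1) by ring]
      ring

private noncomputable def wdlt_z (x0 y t : ℝ) : ℂ := ((x0 + t : ℝ) : ℂ) + (y : ℂ) * Complex.I

private lemma wdlt_z_ne (x0 y t : ℝ) (hy : y ≠ 0) : wdlt_z x0 y t ≠ 0 := by
  intro h
  have := congrArg Complex.im h
  simp [wdlt_z] at this
  exact hy this

private lemma wdlt_z_deriv (x0 y t : ℝ) : HasDerivAt (wdlt_z x0 y) 1 t := by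
  unfold wdlt_z
  have h1 : HasDerivAt (fun t : ℝ => ((x0 + t : ℝ) : ℂ)) ((1 : ℝ) : ℂ) t :=
    ((hasDerivAt_id t).const_add x0).ofReal_comp
  simpa using h1.add_const ((y : ℂ) * Complex.I)

private noncomputable def wdlt_g (x0 y : ℝ) : ℕ → ℝ → ℝ
  | 0, t => phi x0 y t
  | k + 1, t => (-1) ^ k * (k.factorial : ℝ) * ((wdlt_z x0 y t ^ (k + 1))⁻¹).im

private lemma wdlt_g_deriv (x0 y : ℝ) (hy : y ≠ 0) (i : ℕ) (t : ℝ) :
    HasDerivAt (wdlt_g x0 y i) (wdlt_g x0 y (i + 1) t) t := by
  cases i with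
  | zero =>
    have h1 : HasDerivAt (fun t : ℝ => (x0 + t) / y) (1 / y) t :=
      ((hasDerivAt_id t).const_add x0).div_const y
    have h2 := h1.arctan.neg
    have h3 : wdlt_g x0 y (0 + 1) t = -(1 / (1 + ((x0 + t) / y) ^ 2) * (1 / y)) := by
      simp only [wdlt_g, wdlt_z]
      rw [Complex.inv_im]
      simp [Complex.normSq_apply]
      have hpos : 0 < (x0 + t) * (x0 + t) + y * y := by
        have := mul_self_pos.2 hy
        nlinarith [mul_self_nonneg (x0 + t)]
      have hpos2 : 0 < 1 + ((x0 + t) / y) ^ 2 := by positivity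
      field_simp
      ring
    rw [h3]
    exact h2
  | succ k =>
    have hz := wdlt_z_ne x0 y t hy
    have h1 := ((wdlt_z_deriv x0 y t).pow (k + 1)).inv (pow_ne_zero _ hz)
    have h2 := (Complex.imCLM.hasFDerivAt.comp_hasDerivAt t h1).const_mul
      ((-1) ^ k * (k.factorial : ℝ))
    have h3 : wdlt_g x0 y (k + 1 + 1) t = (-1) ^ k * (k.factorial : ℝ) *
        Complex.imCLM (-(((k + 1 : ℕ) : ℂ) * wdlt_z x0 y t ^ (k + 1 - 1) * 1) /
          (wdlt_z x0 y t ^ (k + 1)) ^ 2) := by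
      have e : -(((k + 1 : ℕ) : ℂ) * wdlt_z x0 y t ^ (k + 1 - 1) * 1) /
          (wdlt_z x0 y t ^ (k + 1)) ^ 2 = ((-(k + 1 : ℝ) : ℝ) : ℂ) *
            (wdlt_z x0 y t ^ (k + 2))⁻¹ := by
        rw [Nat.add_sub_cancel]
        push_cast
        field_simp
        ring
      rw [e]
      simp only [wdlt_g, Complex.imCLM_apply, Complex.im_ofReal_mul]
      rw [Nat.factorial_succ]
      push_cast
      ring
    rw [h3]
    exact h2

/-- Iterated mean value theorem. For real functions `g 0, g 1, ...` with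
`HasDerivAt (g i) (g (i+1) t) t` for all `i`, `t` (here `g 0 t = phi x0 y t` and
`g k t = (-1)^(k-1) (k-1)! Im ((x0 + t + i y)^(-k))` for `k ≥ 1`; note
`g 1 t = - y / ((x0+t)^2 + y^2) = Im (1 / (x0 + t + i y))`), one proves by induction on `hs`,
for all `i` and all real `t`, that the iterated real difference of `g i` at `t` equals
`hs.prod * g (i + hs.length) s` for some `s` in `[t, t + hs.sum]`: the difference with step `h` of a
differentiable function is `h` times its derivative (mean value theorem; for `h = 0` both sides are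
`0`), and differentiation commutes with differences. Define the real version of `difs` for
functions `ℝ → ℝ` and compare with `difs` on naturals at the end. -/
theorem difs_phi (x0 y : ℝ) (hy : y ≠ 0) (hs : List ℕ) (hne : hs ≠ []) (n : ℕ) :
    ∃ t : ℝ, (n : ℝ) ≤ t ∧ t ≤ n + (hs.sum : ℕ) ∧
      |difs hs (fun m => phi x0 y m) n| = (hs.prod : ℕ) * ((hs.length - 1).factorial : ℝ) *
        |(((((x0 + t : ℝ) : ℂ) + (y : ℂ) * Complex.I) ^ hs.length)⁻¹).im| := by
  obtain ⟨s, h1, h2, h3⟩ := wdlt_mvt hs (wdlt_g x0 y) (wdlt_g_deriv x0 y hy) 0 (n : ℝ)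
  refine ⟨s, h1, h2, ?_⟩
  have h4 : difs hs (fun m => phi x0 y m) n = wdlt_rdifs hs (wdlt_g x0 y 0) n :=
    wdlt_compare hs (wdlt_g x0 y 0) n
  rw [h4, h3, Nat.zero_add]
  obtain ⟨k, hk⟩ : ∃ k, hs.length = k + 1 := by
    refine ⟨hs.length - 1, ?_⟩
    have := List.length_pos_iff.2 hne
    omega
  rw [hk, Nat.add_sub_cancel]
  simp only [wdlt_g, wdlt_z]
  rw [abs_mul, abs_mul, abs_mul, abs_pow, abs_neg, abs_one, one_pow, one_mul]
  rw [abs_of_nonneg (Nat.cast_nonneg (α := ℝ) hs.prod),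
    abs_of_nonneg (Nat.cast_nonneg (α := ℝ) k.factorial)]
  ring

end Pool.Agent.NSqP
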