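import Pool.Agent.Lib.NSqP.WDefs

/-!
# Group W: first derivative test, bounded variation form
-/

set_option autoImplicit false

namespace Pool.Agent.NSqP

open Finset

private lemma kus_lower (θ : ℝ) (h : |θ| ≤ 1) :
    |θ| / 2 ≤ ‖Complex.exp ((θ : ℂ) * Complex.I) - 1‖ := by
  rw [mul_comm, Complex.norm_exp_I_mul_ofReal_sub_one, norm_mul, Real.norm_eq_abs, Real.norm_eq_abs,
    abs_two]
  have hpi := Real.pi_gt_three
  have hpi4 := Real.pi_le_four
  have h1 : |θ / 2| ≤ Real.pi / 2 := by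
    rw [abs_div, abs_two]; linarith
  have h2 := Real.mul_abs_le_abs_sin h1
  rw [abs_div, abs_two] at h2
  have h3 : (1 : ℝ) / 2 ≤ 2 / Real.pi := by
    rw [div_le_div_iff₀ (by norm_num) (by positivity)]; linarith
  have h4 : 1 / 2 * (|θ| / 2) ≤ 2 / Real.pi * (|θ| / 2) :=
    mul_le_mul_of_nonneg_right h3 (by positivity)
  linarith

private lemma kus_diff (a b : ℝ) :
    ‖Complex.exp ((a : ℂ) * Complex.I) - Complex.exp ((b : ℂ) * Complex.I)‖ ≤ |a - b| := by
  have h : Complex.exp ((a : ℂ) * Complex.I) - Complex.exp ((b : ℂ) * Complex.I)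
      = Complex.exp ((b : ℂ) * Complex.I) * (Complex.exp (Complex.I * ((a - b : ℝ) : ℂ)) - 1) := by
    rw [mul_sub, ← Complex.exp_add]
    push_cast
    ring_nf
  rw [h, norm_mul, norm_eF, one_mul]
  exact Real.norm_exp_I_mul_ofReal_sub_one_le

/-- First derivative test without monotonicity. Put `E n = exp (i F n)`, `θ n = F (n+1) - F n`,
`c n = 1 / (exp (i θ n) - 1)`. For `|θ| ≤ 1` one has `|exp (i θ) - 1| ≥ |θ| / 2`, so `|c n| ≤ 2/μ` and
`|c (n+1) - c n| = |exp (i θ (n+1)) - exp (i θ n)| / (..)(..) ≤ 4 ν / μ ^ 2`. Since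
`E n = (E (n+1) - E n) * c n`, induction on `L ≥ 1` gives the summation by parts formula
`∑ n < L, E n = E L * c (L-1) - E 0 * c 0 - ∑ n in Ico 1 L, E n * (c n - c (n-1))`. -/
theorem kus (F : ℕ → ℝ) (L : ℕ) (μ ν : ℝ) (hμ : 0 < μ) (hν : 0 ≤ ν)
    (h1 : ∀ n, n < L → μ ≤ |F (n + 1) - F n| ∧ |F (n + 1) - F n| ≤ 1)
    (h2 : ∀ n, n + 1 < L → |F (n + 2) - 2 * F (n + 1) + F n| ≤ ν) :
    ES F L ≤ 4 / μ + 4 * L * ν / μ ^ 2 := by
  set E : ℕ → ℂ := fun n => Complex.exp ((F n : ℂ) * Complex.I) with hE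
  set w : ℕ → ℂ := fun n => Complex.exp (((F (n + 1) - F n : ℝ) : ℂ) * Complex.I) - 1 with hw
  have hEn : ∀ n, ‖E n‖ = 1 := fun n => norm_eF _
  have hrec : ∀ n, E (n + 1) - E n = E n * w n := by
    intro n
    simp only [hE, hw]
    rw [mul_sub, mul_one, ← Complex.exp_add]
    congr 2
    push_cast
    ring
  have hwl : ∀ n, n < L → μ / 2 ≤ ‖w n‖ := by
    intro n hn
    have := kus_lower (F (n + 1) - F n) (h1 n hn).2
    have h3 := (h1 n hn).1
    simp only [hw]
    linarith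
  have hw0 : ∀ n, n < L → w n ≠ 0 := by
    intro n hn h0
    have := hwl n hn
    rw [h0, norm_zero] at this
    linarith
  have hc : ∀ n, n < L → ‖(w n)⁻¹‖ ≤ 2 / μ := by
    intro n hn
    rw [norm_inv, show 2 / μ = (μ / 2)⁻¹ by rw [inv_div]]
    exact inv_anti₀ (by positivity) (hwl n hn)
  have hcc : ∀ n, n + 1 < L → ‖(w n)⁻¹ - (w (n + 1))⁻¹‖ ≤ 4 * ν / μ ^ 2 := by
    intro n hn
    have ha := hw0 n (by omega)
    have hb := hw0 (n + 1) hn
    have e : (w n)⁻¹ - (w (n + 1))⁻¹ = (w (n + 1) - w n) * (w n)⁻¹ * (w (n + 1))⁻¹ := by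
      field_simp
    rw [e, norm_mul, norm_mul]
    have h3 : ‖w (n + 1) - w n‖ ≤ ν := by
      have h4 : w (n + 1) - w n = Complex.exp (((F (n + 1 + 1) - F (n + 1) : ℝ) : ℂ) * Complex.I)
          - Complex.exp (((F (n + 1) - F n : ℝ) : ℂ) * Complex.I) := by
        simp only [hw]; ring
      rw [h4]
      refine (kus_diff _ _).trans ?_
      have h5 := h2 n hn
      have h6 : F (n + 1 + 1) - F (n + 1) - (F (n + 1) - F n) = F (n + 2) - 2 * F (n + 1) + F n := by
        ring_nf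
      rw [h6]
      exact h5
    have h7 := hc n (by omega)
    have h8 := hc (n + 1) hn
    calc ‖w (n + 1) - w n‖ * ‖(w n)⁻¹‖ * ‖(w (n + 1))⁻¹‖ ≤ ν * (2 / μ) * (2 / μ) := by
          gcongr
      _ = 4 * ν / μ ^ 2 := by
          field_simp
          norm_num
  have key : ∀ m, m < L →
      ‖∑ n ∈ range (m + 1), E n - E (m + 1) * (w m)⁻¹‖ ≤ 2 / μ + m * (4 * ν / μ ^ 2) := by
    intro m
    induction m with
    | zero =>
      intro h0
      have e : ∑ n ∈ range (0 + 1), E n - E (0 + 1) * (w 0)⁻¹ = -(E 0 * (w 0)⁻¹) := by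
        have h9 := hrec 0
        have hne := hw0 0 h0
        have : E (0 + 1) = E 0 + E 0 * w 0 := by rw [← h9]; ring
        rw [this, sum_range_one]
        field_simp
        ring
      rw [e, norm_neg, norm_mul, hEn, one_mul]
      have := hc 0 h0
      simpa using this
    | succ m ih =>
      intro hm
      have ih' := ih (by omega)
      have e : ∑ n ∈ range (m + 1 + 1), E n - E (m + 1 + 1) * (w (m + 1))⁻¹ =
          (∑ n ∈ range (m + 1), E n - E (m + 1) * (w m)⁻¹)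
            + E (m + 1) * ((w m)⁻¹ - (w (m + 1))⁻¹) := by
        have h9 := hrec (m + 1)
        have hne := hw0 (m + 1) hm
        have : E (m + 1 + 1) = E (m + 1) + E (m + 1) * w (m + 1) := by rw [← h9]; ring
        rw [this, sum_range_succ]
        field_simp
        ring
      rw [e]
      refine (norm_add_le _ _).trans ?_
      rw [norm_mul, hEn, one_mul]
      have := hcc m hm
      push_cast
      linarith
  rcases Nat.eq_zero_or_pos L with h0 | hpos
  · subst h0
    unfold ES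
    simp only [range_zero, sum_empty, norm_zero]
    positivity
  · obtain ⟨m, rfl⟩ : ∃ m, L = m + 1 := ⟨L - 1, by omega⟩
    have h10 := key m (by omega)
    have h11 : ES F (m + 1) ≤ ‖∑ n ∈ range (m + 1), E n - E (m + 1) * (w m)⁻¹‖
        + ‖E (m + 1) * (w m)⁻¹‖ := by
      unfold ES
      have := norm_add_le (∑ n ∈ range (m + 1), E n - E (m + 1) * (w m)⁻¹) (E (m + 1) * (w m)⁻¹)
      rw [sub_add_cancel] at this
      exact this
    rw [norm_mul, hEn, one_mul] at h11
    have h12 := hc m (by omega)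
    have h13 : (m : ℝ) * (4 * ν / μ ^ 2) ≤ 4 * ((m + 1 : ℕ) : ℝ) * ν / μ ^ 2 := by
      rw [show 4 * ((m + 1 : ℕ) : ℝ) * ν / μ ^ 2 = ((m + 1 : ℕ) : ℝ) * (4 * ν / μ ^ 2) by ring]
      apply mul_le_mul_of_nonneg_right _ (by positivity)
      push_cast
      linarith
    have h14 : 4 / μ = 2 / μ + 2 / μ := by ring
    linarith

end Pool.Agent.NSqP
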