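import Pool.Agent.Lib.NSqP.HT

/-!
# RSUM: pairs of close divisors on average
A pair `(A, B)` of divisors of `u` with `⌊log N A⌋ = ⌊log N B⌋` gives `g = gcd`, `A = g a`,
`B = g b`, `u = g a b c`, `|log N a - log N b| ≤ 1`; so the sum is at most
`∑_{N(gabc) ≤ x} hh g hh a hh b hh c` over nonzero `g a b c`.  Sum over `c` by `HT`
(`≤ C Y/√(1+log Y)`, `Y = x/N(gab)`), over `g` in dyadic shells by `HTd`
(`∑_{s ≤ S} 1/√((1+s)(1+S-s)) ≤ C`), over `a, b` by `HTd`: `∑_{s ≤ log x} (C/√(1+s))^2 * 3`.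
-/

set_option autoImplicit false

namespace Pool.Agent.NSqP

open Real
open Pool.Agent.MP484c84Par (ballG mem_ballG crossG CM F)

/-- the dyadic (base `e`) shell number -/
private noncomputable def shl (z : GaussianInt) : ℕ := ⌊log (nN z : ℝ)⌋₊

private lemma shl_spec {z : GaussianInt} (hz : z ≠ 0) :
    exp (shl z) ≤ (nN z : ℝ) ∧ (nN z : ℝ) < exp ((shl z : ℝ) + 1) := by
  have h1 : (1 : ℝ) ≤ nN z := by exact_mod_cast nN_pos hz
  have h0 : (0 : ℝ) < nN z := by linarith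
  have hl : 0 ≤ log (nN z : ℝ) := log_nonneg h1
  constructor
  · rw [← Real.le_log_iff_exp_le h0]
    exact Nat.floor_le hl
  · rw [← Real.log_lt_iff_lt_exp h0]
    exact Nat.lt_floor_add_one _

private lemma shl_le {z : GaussianInt} {X : ℝ} (hz : z ∈ ann 0 X) (hX : 1 ≤ X) :
    shl z ≤ ⌊log X⌋₊ := by
  have h := (mem_ann (by linarith : (0 : ℝ) ≤ X)).1 hz
  exact Nat.floor_le_floor (log_le_log h.1 h.2)

private lemma hh_div_nonneg (z : GaussianInt) : 0 ≤ hh z / nN z :=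
  div_nonneg (hh_pos z).le (Nat.cast_nonneg _)

open Classical in
/-- sum over a part of a shell -/
private lemma shell_sum (C : ℝ) (hC : ∀ s : ℕ,
    ∑ z ∈ (ann 0 (exp (s + 1))).filter (fun z => exp s ≤ (nN z : ℝ)), hh z / nN z ≤
      C / √(1 + s)) (s : ℕ) (A : Finset GaussianInt) (hA : ∀ z ∈ A, z ≠ 0 ∧ shl z = s) :
    ∑ z ∈ A, hh z / nN z ≤ C / √(1 + s) := by
  refine le_trans (Finset.sum_le_sum_of_subset_of_nonneg ?_ (fun z _ _ => hh_div_nonneg z)) (hC s)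
  intro z hz
  obtain ⟨h0, h1⟩ := hA z hz
  obtain ⟨h2, h3⟩ := shl_spec h0
  rw [h1] at h2 h3
  rw [Finset.mem_filter, mem_ann (exp_pos _).le]
  refine ⟨⟨?_, h3.le⟩, h2⟩
  exact_mod_cast nN_pos h0

open Classical in
/-- decomposition in shells with a weight depending on the shell -/
private lemma shell_decomp (C : ℝ) (hC : ∀ s : ℕ,
    ∑ z ∈ (ann 0 (exp (s + 1))).filter (fun z => exp s ≤ (nN z : ℝ)), hh z / nN z ≤
      C / √(1 + s)) (X : ℝ) (hX : 1 ≤ X) (w : ℕ → ℝ) (hw : ∀ s, 0 ≤ w s) :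
    ∑ z ∈ ann 0 X, hh z / nN z * w (shl z) ≤
      ∑ s ∈ Finset.range (⌊log X⌋₊ + 1), C / √(1 + s) * w s := by
  rw [← Finset.sum_fiberwise_of_maps_to (s := ann 0 X) (t := Finset.range (⌊log X⌋₊ + 1))
    (g := shl) (fun z hz => Finset.mem_range.2 (Nat.lt_succ_of_le (shl_le hz hX)))]
  refine Finset.sum_le_sum fun s _ => ?_
  have h1 : ∑ z ∈ (ann 0 X).filter (fun z => shl z = s), hh z / nN z * w (shl z) =
      (∑ z ∈ (ann 0 X).filter (fun z => shl z = s), hh z / nN z) * w s := by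
    rw [Finset.sum_mul]
    refine Finset.sum_congr rfl fun z hz => ?_
    rw [(Finset.mem_filter.1 hz).2]
  rw [h1]
  refine mul_le_mul_of_nonneg_right (shell_sum C hC s _ ?_) (hw s)
  intro z hz
  rw [Finset.mem_filter] at hz
  exact ⟨ne_zero_of_mem_ann le_rfl hz.1, hz.2⟩

private lemma sum_inv_sqrt (n : ℕ) :
    ∑ s ∈ Finset.range n, 1 / √(1 + s) ≤ 2 * √n := by
  induction n with
  | zero => simp
  | succ n ih =>
    rw [Finset.sum_range_succ]
    have h0 : (0 : ℝ) ≤ n := Nat.cast_nonneg n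
    have hs0 : 0 < √(1 + (n : ℝ)) := Real.sqrt_pos.2 (by linarith)
    have h1 : √((n + 1 : ℕ) : ℝ) = √(1 + (n : ℝ)) := by push_cast; rw [add_comm]
    rw [h1]
    have h2 : √(n : ℝ) ≤ √(1 + (n : ℝ)) := Real.sqrt_le_sqrt (by linarith)
    have h3 : (√(n : ℝ)) ^ 2 = n := Real.sq_sqrt h0
    have h4 : (√(1 + (n : ℝ))) ^ 2 = 1 + n := Real.sq_sqrt (by linarith)
    have h5 : 1 / √(1 + (n : ℝ)) ≤ 2 * (√(1 + (n : ℝ)) - √(n : ℝ)) := by
      rw [div_le_iff₀ hs0]
      nlinarith [Real.sqrt_nonneg (n : ℝ)]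
    linarith

/-- the convolution sum is bounded -/
private lemma conv_bound (S : ℕ) :
    ∑ s ∈ Finset.range (S + 1), 1 / √(1 + (s : ℝ)) * (1 / √(1 + ((S - s : ℕ) : ℝ))) ≤ 8 := by
  set m : ℝ := √((1 + (S : ℝ)) / 2) with hm
  have hS : (0 : ℝ) ≤ S := Nat.cast_nonneg S
  have hm0 : 0 < m := Real.sqrt_pos.2 (by linarith)
  have hm2 : m ^ 2 = (1 + (S : ℝ)) / 2 := Real.sq_sqrt (by linarith)
  have key : ∀ s ∈ Finset.range (S + 1), 1 / √(1 + (s : ℝ)) * (1 / √(1 + ((S - s : ℕ) : ℝ))) ≤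
      1 / m * (1 / √(1 + (s : ℝ))) + 1 / m * (1 / √(1 + ((S - s : ℕ) : ℝ))) := by
    intro s hs
    rw [Finset.mem_range] at hs
    have hsS : s ≤ S := by omega
    have hc : ((S - s : ℕ) : ℝ) = (S : ℝ) - s := by rw [Nat.cast_sub hsS]
    have hs0 : (0 : ℝ) ≤ s := Nat.cast_nonneg s
    have hsS' : (s : ℝ) ≤ S := by exact_mod_cast hsS
    rw [hc]
    have p1 : 0 < √(1 + (s : ℝ)) := Real.sqrt_pos.2 (by linarith)
    have p2 : 0 < √(1 + ((S : ℝ) - s)) := Real.sqrt_pos.2 (by linarith)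
    have i1 : 0 ≤ 1 / √(1 + (s : ℝ)) := by positivity
    have i2 : 0 ≤ 1 / √(1 + ((S : ℝ) - s)) := by positivity
    have i3 : 0 ≤ 1 / m := by positivity
    rcases le_total ((S : ℝ) / 2) s with h | h
    · have h1 : m ≤ √(1 + (s : ℝ)) := Real.sqrt_le_sqrt (by linarith)
      have h2 : 1 / √(1 + (s : ℝ)) ≤ 1 / m := one_div_le_one_div_of_le hm0 h1
      have h3 := mul_le_mul_of_nonneg_right h2 i2
      have h4 := mul_nonneg i3 i1
      linarith
    · have h1 : m ≤ √(1 + ((S : ℝ) - s)) := Real.sqrt_le_sqrt (by linarith)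
      have h2 : 1 / √(1 + ((S : ℝ) - s)) ≤ 1 / m := one_div_le_one_div_of_le hm0 h1
      have h3 := mul_le_mul_of_nonneg_left h2 i1
      have h4 := mul_nonneg i3 i2
      linarith [mul_comm (1 / √(1 + (s : ℝ))) (1 / m)]
  refine (Finset.sum_le_sum key).trans ?_
  rw [Finset.sum_add_distrib, ← Finset.mul_sum, ← Finset.mul_sum]
  have hrefl : ∑ s ∈ Finset.range (S + 1), 1 / √(1 + ((S - s : ℕ) : ℝ)) =
      ∑ s ∈ Finset.range (S + 1), 1 / √(1 + (s : ℝ)) := by
    have := Finset.sum_range_reflect (fun s : ℕ => 1 / √(1 + (s : ℝ))) (S + 1)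
    simpa using this
  rw [hrefl]
  have h6 := sum_inv_sqrt (S + 1)
  have h7 : √((S + 1 : ℕ) : ℝ) ≤ 2 * m := by
    have h8 : √((S + 1 : ℕ) : ℝ) ^ 2 = 1 + (S : ℝ) := by
      rw [Real.sq_sqrt (Nat.cast_nonneg _)]; push_cast; ring
    nlinarith [Real.sqrt_nonneg ((S + 1 : ℕ) : ℝ)]
  have h9 : 1 / m * ∑ s ∈ Finset.range (S + 1), 1 / √(1 + (s : ℝ)) ≤ 4 := by
    calc 1 / m * ∑ s ∈ Finset.range (S + 1), 1 / √(1 + (s : ℝ))
        ≤ 1 / m * (2 * (2 * m)) := by
          apply mul_le_mul_of_nonneg_left _ (by positivity)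
          linarith
      _ = 4 := by field_simp; norm_num
  linarith


/-- the sum over `g` -/
private lemma gsum (C : ℝ) (hC0 : 0 < C) (hC : ∀ s : ℕ,
    ∑ z ∈ (ann 0 (exp (s + 1))).filter (fun z => exp s ≤ (nN z : ℝ)), hh z / nN z ≤
      C / √(1 + s)) (X : ℝ) (hX : 1 ≤ X) :
    ∑ z ∈ ann 0 X, hh z / nN z * (1 / √(1 + log (X / nN z))) ≤ 16 * C := by
  classical
  set S : ℕ := ⌊log X⌋₊ with hS
  have hlX : 0 ≤ log X := log_nonneg hX
  have hSX : (S : ℝ) ≤ log X := Nat.floor_le hlX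
  have key : ∀ z ∈ ann 0 X, hh z / nN z * (1 / √(1 + log (X / nN z))) ≤
      hh z / nN z * (2 * (1 / √(1 + ((S - shl z : ℕ) : ℝ)))) := by
    intro z hz
    refine mul_le_mul_of_nonneg_left ?_ (hh_div_nonneg z)
    have hz0 : z ≠ 0 := ne_zero_of_mem_ann le_rfl hz
    have hm := (mem_ann (by linarith : (0 : ℝ) ≤ X)).1 hz
    have hs := shl_le hz hX
    have hsR : (shl z : ℝ) ≤ S := by exact_mod_cast hs
    have hlog : log (X / nN z) = log X - log (nN z) := log_div (by linarith) hm.1.ne'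
    have h1 : 0 ≤ log (X / nN z) := log_nonneg (by rw [le_div_iff₀ hm.1]; linarith [hm.2])
    have h2 : log (nN z : ℝ) < shl z + 1 := by
      have := (shl_spec hz0).2
      rwa [← Real.log_lt_iff_lt_exp hm.1] at this
    have hc : ((S - shl z : ℕ) : ℝ) = (S : ℝ) - shl z := by rw [Nat.cast_sub hs]
    rw [hc]
    have h3 : (1 + ((S : ℝ) - shl z)) / 4 ≤ 1 + log (X / nN z) := by
      rcases le_total ((S : ℝ) - shl z) 1 with h | h
      · linarith
      · rw [hlog] at h1 ⊢; linarith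
    have p1 : 0 < √(1 + ((S : ℝ) - shl z)) := Real.sqrt_pos.2 (by linarith)
    have p2 : √(1 + ((S : ℝ) - shl z)) / 2 ≤ √(1 + log (X / nN z)) := by
      have h4 : √(1 + ((S : ℝ) - shl z)) / 2 = √((1 + ((S : ℝ) - shl z)) / 4) := by
        rw [Real.sqrt_div' _ (by norm_num : (0 : ℝ) ≤ 4)]
        congr 1
        rw [show (4 : ℝ) = 2 ^ 2 by norm_num, Real.sqrt_sq (by norm_num)]
      rw [h4]
      exact Real.sqrt_le_sqrt h3
    calc 1 / √(1 + log (X / nN z)) ≤ 1 / (√(1 + ((S : ℝ) - shl z)) / 2) :=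
          one_div_le_one_div_of_le (by positivity) p2
      _ = _ := by field_simp
  refine (Finset.sum_le_sum key).trans ?_
  refine (shell_decomp C hC X hX (fun s => 2 * (1 / √(1 + ((S - s : ℕ) : ℝ))))
    (fun s => by positivity)).trans ?_
  have h5 : ∀ s ∈ Finset.range (⌊log X⌋₊ + 1), C / √(1 + (s : ℝ)) *
      (2 * (1 / √(1 + ((S - s : ℕ) : ℝ)))) =
      2 * C * (1 / √(1 + (s : ℝ)) * (1 / √(1 + ((S - s : ℕ) : ℝ)))) := by
    intro s _; ring
  rw [Finset.sum_congr rfl h5, ← Finset.mul_sum, ← hS]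
  have h6 := conv_bound S
  nlinarith

private lemma sqrt_close {s t : ℕ} (h : s ≤ t + 1) : 1 / √(1 + (t : ℝ)) ≤ 2 * (1 / √(1 + (s : ℝ))) := by
  have hs0 : (0 : ℝ) ≤ s := Nat.cast_nonneg s
  have ht0 : (0 : ℝ) ≤ t := Nat.cast_nonneg t
  have h' : (s : ℝ) ≤ t + 1 := by exact_mod_cast h
  have p1 : 0 < √(1 + (s : ℝ)) := Real.sqrt_pos.2 (by linarith)
  have p2 : √(1 + (s : ℝ)) / 2 ≤ √(1 + (t : ℝ)) := by
    have h4 : √(1 + (s : ℝ)) / 2 = √((1 + (s : ℝ)) / 4) := by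
      rw [Real.sqrt_div' _ (by norm_num : (0 : ℝ) ≤ 4)]
      congr 1
      rw [show (4 : ℝ) = 2 ^ 2 by norm_num, Real.sqrt_sq (by norm_num)]
    rw [h4]
    exact Real.sqrt_le_sqrt (by linarith)
  calc 1 / √(1 + (t : ℝ)) ≤ 1 / (√(1 + (s : ℝ)) / 2) :=
        one_div_le_one_div_of_le (by positivity) p2
    _ = _ := by field_simp

open Classical in
/-- the sum over `b` close to `a` -/
private lemma bsum (C : ℝ) (hC0 : 0 < C) (hC : ∀ s : ℕ,
    ∑ z ∈ (ann 0 (exp (s + 1))).filter (fun z => exp s ≤ (nN z : ℝ)), hh z / nN z ≤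
      C / √(1 + s)) (x : ℝ) (s : ℕ) :
    ∑ b ∈ (ann 0 x).filter (fun b => s ≤ shl b + 1 ∧ shl b ≤ s + 1), hh b / nN b ≤
      6 * C * (1 / √(1 + (s : ℝ))) := by
  rw [← Finset.sum_fiberwise_of_maps_to (t := Finset.Icc (s - 1) (s + 1)) (g := shl)
    (fun z hz => by
      have := (Finset.mem_filter.1 hz).2
      rw [Finset.mem_Icc]; omega)]
  have h1 : ∀ t ∈ Finset.Icc (s - 1) (s + 1),
      ∑ z ∈ ((ann 0 x).filter (fun b => s ≤ shl b + 1 ∧ shl b ≤ s + 1)).filter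
        (fun z => shl z = t), hh z / nN z ≤ 2 * C * (1 / √(1 + (s : ℝ))) := by
    intro t ht
    rw [Finset.mem_Icc] at ht
    refine (shell_sum C hC t _ ?_).trans ?_
    · intro z hz
      rw [Finset.mem_filter, Finset.mem_filter] at hz
      exact ⟨ne_zero_of_mem_ann le_rfl hz.1.1, hz.2⟩
    · have h2 := sqrt_close (s := s) (t := t) (by omega)
      calc C / √(1 + (t : ℝ)) = C * (1 / √(1 + (t : ℝ))) := by ring
        _ ≤ C * (2 * (1 / √(1 + (s : ℝ)))) := mul_le_mul_of_nonneg_left h2 hC0.le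
        _ = _ := by ring
  refine (Finset.sum_le_sum h1).trans ?_
  rw [Finset.sum_const, nsmul_eq_mul, Nat.card_Icc]
  have h3 : ((s + 1 + 1 - (s - 1) : ℕ) : ℝ) ≤ 3 := by
    have : s + 1 + 1 - (s - 1) ≤ 3 := by omega
    exact_mod_cast this
  have h4 : 0 ≤ 2 * C * (1 / √(1 + (s : ℝ))) := by positivity
  nlinarith

open Classical in
/-- the sum over close pairs -/
private lemma absum (C : ℝ) (hC0 : 0 < C) (hC : ∀ s : ℕ,
    ∑ z ∈ (ann 0 (exp (s + 1))).filter (fun z => exp s ≤ (nN z : ℝ)), hh z / nN z ≤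
      C / √(1 + s)) (x : ℝ) (hx : 1 ≤ x) :
    ∑ a ∈ ann 0 x, ∑ b ∈ (ann 0 x).filter (fun b => shl a ≤ shl b + 1 ∧ shl b ≤ shl a + 1),
      hh a / nN a * (hh b / nN b) ≤ 6 * C ^ 2 * (1 + log (⌊log x⌋₊ + 1)) := by
  have h1 : ∀ a ∈ ann 0 x, ∑ b ∈ (ann 0 x).filter
      (fun b => shl a ≤ shl b + 1 ∧ shl b ≤ shl a + 1), hh a / nN a * (hh b / nN b) ≤
      hh a / nN a * (6 * C * (1 / √(1 + (shl a : ℝ)))) := by
    intro a _
    rw [← Finset.mul_sum]
    exact mul_le_mul_of_nonneg_left (bsum C hC0 hC x (shl a)) (hh_div_nonneg a)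
  refine (Finset.sum_le_sum h1).trans ?_
  refine (shell_decomp C hC x hx (fun s => 6 * C * (1 / √(1 + (s : ℝ))))
    (fun s => by positivity)).trans ?_
  have h5 : ∀ s ∈ Finset.range (⌊log x⌋₊ + 1), C / √(1 + (s : ℝ)) *
      (6 * C * (1 / √(1 + (s : ℝ)))) = 6 * C ^ 2 * (1 / ((s : ℝ) + 1)) := by
    intro s _
    have hs0 : (0 : ℝ) ≤ s := Nat.cast_nonneg s
    have h6 : √(1 + (s : ℝ)) * √(1 + (s : ℝ)) = (s : ℝ) + 1 := by
      rw [Real.mul_self_sqrt (by linarith)]; ring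
    have p1 : 0 < √(1 + (s : ℝ)) := Real.sqrt_pos.2 (by linarith)
    rw [← h6]
    field_simp
  rw [Finset.sum_congr rfl h5, ← Finset.mul_sum]
  have h7 : ∑ s ∈ Finset.range (⌊log x⌋₊ + 1), 1 / ((s : ℝ) + 1) ≤
      1 + log ((⌊log x⌋₊ + 1 : ℕ) : ℝ) := by
    have h8 := harmonic_le_one_add_log (⌊log x⌋₊ + 1)
    have h9 : ((harmonic (⌊log x⌋₊ + 1) : ℚ) : ℝ) =
        ∑ s ∈ Finset.range (⌊log x⌋₊ + 1), 1 / ((s : ℝ) + 1) := by
      unfold harmonic
      push_cast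
      refine Finset.sum_congr rfl fun s _ => ?_
      rw [one_div]
    rw [← h9]
    exact h8
  push_cast at h7
  exact mul_le_mul_of_nonneg_left h7 (by positivity)

/-- the parametrisation of pairs of divisors -/
private lemma exists_param {u A B : GaussianInt} (hu : u ≠ 0) (hA : A ∣ u) (hB : B ∣ u) :
    ∃ a b g c : GaussianInt, g * a = A ∧ g * b = B ∧ g * a * b * c = u := by
  have hA0 : A ≠ 0 := fun h => hu (by rw [h] at hA; exact zero_dvd_iff.1 hA)
  obtain ⟨a, ha⟩ := EuclideanDomain.gcd_dvd_left A B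
  obtain ⟨b, hb⟩ := EuclideanDomain.gcd_dvd_right A B
  have hbez := EuclideanDomain.gcd_eq_gcd_ab A B
  set g := EuclideanDomain.gcd A B with hg
  set r := EuclideanDomain.gcdA A B
  set t := EuclideanDomain.gcdB A B
  have hg0 : g ≠ 0 := by
    intro h
    rw [h, zero_mul] at ha
    exact hA0 ha
  have hcop : IsCoprime a b := by
    refine ⟨r, t, ?_⟩
    have h1 : g * (r * a + t * b) = g * 1 := by
      calc g * (r * a + t * b) = (g * a) * r + (g * b) * t := by ring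
        _ = g * 1 := by rw [← ha, ← hb, mul_one]; exact hbez.symm
    exact mul_left_cancel₀ hg0 h1
  obtain ⟨k, hk⟩ := hA
  obtain ⟨l, hl⟩ := hB
  have h2 : a * k = b * l := by
    have h3 : g * (a * k) = g * (b * l) := by
      calc g * (a * k) = (g * a) * k := by ring
        _ = (g * b) * l := by rw [← ha, ← hb, ← hk, ← hl]
        _ = g * (b * l) := by ring
    exact mul_left_cancel₀ hg0 h3
  have h4 : a ∣ l := by
    have : a ∣ b * l := ⟨k, h2.symm⟩
    exact hcop.dvd_of_dvd_mul_left this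
  obtain ⟨c, hc⟩ := h4
  refine ⟨a, b, g, c, ha.symm, hb.symm, ?_⟩
  rw [hl, hc, hb]
  ring


private lemma csum (C1 : ℝ) (hC1 : ∀ Y : ℝ, 1 ≤ Y →
    ∑ z ∈ ann 0 Y, hh z ≤ C1 * Y / √(1 + log Y)) (x K : ℝ) (hK0 : 0 < K) (hKx : K ≤ x) :
    ∑ c ∈ ann 0 x, (if K * (nN c : ℝ) ≤ x then hh c else 0) ≤
      C1 * (x / K) / √(1 + log (x / K)) := by
  classical
  have hx0 : 0 < x := by linarith
  rw [← Finset.sum_filter]
  refine le_trans (Finset.sum_le_sum_of_subset_of_nonneg ?_ (fun z _ _ => (hh_pos z).le))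
    (hC1 (x / K) (by rw [le_div_iff₀ hK0]; linarith))
  intro z hz
  rw [Finset.mem_filter, mem_ann hx0.le] at hz
  rw [mem_ann (by positivity)]
  refine ⟨hz.1.1, ?_⟩
  rw [le_div_iff₀ hK0]
  linarith [hz.2, mul_comm K (nN z : ℝ)]

private lemma gcsum (C1 C : ℝ) (hC10 : 0 < C1) (hC1 : ∀ Y : ℝ, 1 ≤ Y →
    ∑ z ∈ ann 0 Y, hh z ≤ C1 * Y / √(1 + log Y)) (hC0 : 0 < C)
    (hC : ∀ X : ℝ, 1 ≤ X → ∑ z ∈ ann 0 X, hh z / nN z * (1 / √(1 + log (X / nN z))) ≤ C)
    (x K : ℝ) (hK0 : 0 < K) (hx : 1 ≤ x) :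
    ∑ g ∈ ann 0 x, ∑ c ∈ ann 0 x, (if K * (nN g : ℝ) * (nN c : ℝ) ≤ x then hh g * hh c else 0) ≤
      C1 * C * (x / K) := by
  classical
  have hx0 : 0 < x := by linarith
  have h1 : ∀ g ∈ ann 0 x, ∑ c ∈ ann 0 x, (if K * (nN g : ℝ) * (nN c : ℝ) ≤ x then
      hh g * hh c else 0) ≤ if K * (nN g : ℝ) ≤ x then
        C1 * (x / K) * (hh g / nN g * (1 / √(1 + log (x / K / nN g)))) else 0 := by
    intro g hg
    have hgp : 0 < (nN g : ℝ) := ((mem_ann hx0.le).1 hg).1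
    split_ifs with h
    · have h2 := csum C1 hC1 x (K * nN g) (by positivity) h
      have h3 : ∑ c ∈ ann 0 x, (if K * (nN g : ℝ) * (nN c : ℝ) ≤ x then hh g * hh c else 0) =
          hh g * ∑ c ∈ ann 0 x, (if K * (nN g : ℝ) * (nN c : ℝ) ≤ x then hh c else 0) := by
        rw [Finset.mul_sum]
        refine Finset.sum_congr rfl fun c _ => ?_
        split_ifs <;> simp
      rw [h3]
      refine (mul_le_mul_of_nonneg_left h2 (hh_pos g).le).trans (le_of_eq ?_)
      have h4 : x / (K * (nN g : ℝ)) = x / K / nN g := by rw [div_div]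
      rw [h4]
      have : C1 * (x / K / (nN g : ℝ)) = C1 * (x / K) / nN g := by ring
      rw [this]
      ring
    · refine le_of_eq (Finset.sum_eq_zero fun c hc => ?_)
      have hcp : (1 : ℝ) ≤ (nN c : ℝ) := by
        exact_mod_cast nN_pos (ne_zero_of_mem_ann le_rfl hc)
      rw [if_neg]
      intro h5
      apply h
      have h6 : K * (nN g : ℝ) * 1 ≤ K * (nN g : ℝ) * (nN c : ℝ) :=
        mul_le_mul_of_nonneg_left hcp (by positivity)
      linarith
  refine (Finset.sum_le_sum h1).trans ?_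
  rw [← Finset.sum_filter]
  rcases lt_or_ge x K with hKx | hKx
  · rw [Finset.filter_false_of_mem, Finset.sum_empty]
    · positivity
    · intro g hg h
      have hgp : (1 : ℝ) ≤ (nN g : ℝ) := by
        exact_mod_cast nN_pos (ne_zero_of_mem_ann le_rfl hg)
      nlinarith
  have hX : 1 ≤ x / K := by rw [le_div_iff₀ hK0]; linarith
  have h7 : ∑ g ∈ (ann 0 x).filter (fun g => K * (nN g : ℝ) ≤ x),
      C1 * (x / K) * (hh g / nN g * (1 / √(1 + log (x / K / nN g)))) ≤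
      ∑ g ∈ ann 0 (x / K), C1 * (x / K) * (hh g / nN g * (1 / √(1 + log (x / K / nN g)))) := by
    refine Finset.sum_le_sum_of_subset_of_nonneg ?_ (fun g _ _ => ?_)
    · intro z hz
      rw [Finset.mem_filter, mem_ann hx0.le] at hz
      rw [mem_ann (by positivity)]
      refine ⟨hz.1.1, ?_⟩
      rw [le_div_iff₀ hK0]
      linarith [hz.2, mul_comm K (nN z : ℝ)]
    · exact mul_nonneg (by positivity) (mul_nonneg (hh_div_nonneg g) (by positivity))
  refine h7.trans ?_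
  rw [← Finset.mul_sum]
  calc C1 * (x / K) * _ ≤ C1 * (x / K) * C :=
        mul_le_mul_of_nonneg_left (hC (x / K) hX) (by positivity)
    _ = _ := by ring

theorem RSUM : ∃ C : ℝ, 0 < C ∧ ∀ x : ℝ, 3 ≤ x →
    ∑ u ∈ ann 0 x, hh u * (Rk u : ℝ) ≤ C * x * (1 + log (log x)) ^ 2 := by
  classical
  obtain ⟨C1, hC10, hC1⟩ := HT
  obtain ⟨C, hC0, hC⟩ := HTd
  have hC' : ∀ s : ℕ,
    ∑ z ∈ (ann 0 (exp (s + 1))).filter (fun z => exp s ≤ (nN z : ℝ)), hh z / nN z ≤
      C / √(1 + s) := by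
    intro s
    refine le_trans (le_of_eq ?_) (hC s)
    refine Finset.sum_congr ?_ (fun _ _ => rfl)
    ext z
    simp only [Finset.mem_filter]
  refine ⟨C1 * (16 * C) * (6 * C ^ 2) * 2, by positivity, fun x hx => ?_⟩
  have hx0 : 0 < x := by linarith
  have hx1 : 1 ≤ x := by linarith
  -- the set of triples
  set R : GaussianInt → Finset (GaussianInt × GaussianInt) := fun u =>
    (divG u ×ˢ divG u).filter (fun q => ⌊log (nN q.1 : ℝ)⌋ = ⌊log (nN q.2 : ℝ)⌋) with hR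
  set T : Finset (Σ _ : GaussianInt, GaussianInt × GaussianInt) := (ann 0 x).sigma R with hT
  have hlhs : ∑ u ∈ ann 0 x, hh u * (Rk u : ℝ) = ∑ t ∈ T, hh t.1 := by
    rw [hT, Finset.sum_sigma]
    refine Finset.sum_congr rfl fun u _ => ?_
    have hcst : ∑ s ∈ R u, hh (Sigma.fst (β := fun _ : GaussianInt => GaussianInt × GaussianInt)
        ⟨u, s⟩) = ∑ _s ∈ R u, hh u := rfl
    rw [hcst, Finset.sum_const, nsmul_eq_mul, mul_comm]
    rfl
  have hpar : ∀ t ∈ T, ∃ q : (GaussianInt × GaussianInt) × (GaussianInt × GaussianInt),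
      q.2.1 * q.1.1 = t.2.1 ∧ q.2.1 * q.1.2 = t.2.2 ∧ q.2.1 * q.1.1 * q.1.2 * q.2.2 = t.1 := by
    intro t ht
    rw [hT, Finset.mem_sigma] at ht
    have hu0 : t.1 ≠ 0 := ne_zero_of_mem_ann le_rfl ht.1
    have h2 := ht.2
    simp only [hR, Finset.mem_filter, Finset.mem_product, mem_divG hu0] at h2
    obtain ⟨a, b, g, c, h3, h4, h5⟩ := exists_param hu0 h2.1.1 h2.1.2
    exact ⟨((a, b), (g, c)), h3, h4, h5⟩
  choose! i hi using hpar
  set Q : Finset ((GaussianInt × GaussianInt) × (GaussianInt × GaussianInt)) :=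
    ((ann 0 x ×ˢ ann 0 x) ×ˢ (ann 0 x ×ˢ ann 0 x)).filter (fun q =>
      (shl q.1.1 ≤ shl q.1.2 + 1 ∧ shl q.1.2 ≤ shl q.1.1 + 1) ∧
      (nN q.1.1 : ℝ) * nN q.1.2 * nN q.2.1 * nN q.2.2 ≤ x) with hQ
  set G : (GaussianInt × GaussianInt) × (GaussianInt × GaussianInt) → ℝ := fun q =>
    (hh q.1.1 * hh q.1.2) * (hh q.2.1 * hh q.2.2) with hG
  have hmem : ∀ t ∈ T, i t ∈ Q ∧ hh t.1 = G (i t) := by
    intro t ht
    obtain ⟨h3, h4, h5⟩ := hi t ht
    rw [hT, Finset.mem_sigma] at ht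
    have hu0 : t.1 ≠ 0 := ne_zero_of_mem_ann le_rfl ht.1
    have h2 := ht.2
    simp only [hR, Finset.mem_filter, Finset.mem_product, mem_divG hu0] at h2
    have hux := ((mem_ann hx0.le).1 ht.1).2
    set a := (i t).1.1
    set b := (i t).1.2
    set g := (i t).2.1
    set c := (i t).2.2
    have ha0 : a ≠ 0 := fun h => hu0 (by rw [← h5, h]; ring)
    have hb0 : b ≠ 0 := fun h => hu0 (by rw [← h5, h]; ring)
    have hg0 : g ≠ 0 := fun h => hu0 (by rw [← h5, h]; ring)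
    have hc0 : c ≠ 0 := fun h => hu0 (by rw [← h5, h]; ring)
    have ea := nN_pos ha0
    have eb := nN_pos hb0
    have eg := nN_pos hg0
    have ec := nN_pos hc0
    have hN : nN t.1 = nN g * nN a * nN b * nN c := by
      rw [← h5, nN_mul, nN_mul, nN_mul]
    have hNR : (nN g : ℝ) * nN a * nN b * nN c ≤ x := by
      rw [hN] at hux
      push_cast at hux
      exact hux
    have ra : (1 : ℝ) ≤ nN a := by exact_mod_cast ea
    have rb : (1 : ℝ) ≤ nN b := by exact_mod_cast eb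
    have rg : (1 : ℝ) ≤ nN g := by exact_mod_cast eg
    have rc : (1 : ℝ) ≤ nN c := by exact_mod_cast ec
    have bnd : ∀ z : GaussianInt, z ∣ t.1 → z ∈ ann 0 x := by
      intro z hz
      have hz0 : z ≠ 0 := fun h => hu0 (by rw [h] at hz; exact zero_dvd_iff.1 hz)
      rw [mem_ann hx0.le]
      refine ⟨by exact_mod_cast nN_pos hz0, ?_⟩
      obtain ⟨w, hw⟩ := hz
      have h6 : nN z ≤ nN t.1 := by
        rw [hw, nN_mul]
        have hw0 : w ≠ 0 := fun h => hu0 (by rw [hw, h, mul_zero])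
        exact Nat.le_mul_of_pos_right _ (nN_pos hw0)
      have h7 : (nN z : ℝ) ≤ nN t.1 := by exact_mod_cast h6
      linarith
    have da : a ∣ t.1 := ⟨g * b * c, by rw [← h5]; ring⟩
    have db : b ∣ t.1 := ⟨g * a * c, by rw [← h5]; ring⟩
    have dg : g ∣ t.1 := ⟨a * b * c, by rw [← h5]; ring⟩
    have dc : c ∣ t.1 := ⟨g * a * b, by rw [← h5]; ring⟩
    have hclose : |log (nN a : ℝ) - log (nN b : ℝ)| < 1 := by
      have h8 := Int.abs_sub_lt_one_of_floor_eq_floor h2.2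
      rw [← h3, ← h4, nN_mul, nN_mul] at h8
      push_cast at h8
      rw [log_mul (by linarith) (by linarith), log_mul (by linarith) (by linarith)] at h8
      rwa [add_sub_add_left_eq_sub] at h8
    have hla : 0 ≤ log (nN a : ℝ) := log_nonneg ra
    have hlb : 0 ≤ log (nN b : ℝ) := log_nonneg rb
    rw [abs_lt] at hclose
    refine ⟨?_, ?_⟩
    · rw [hQ, Finset.mem_filter, Finset.mem_product, Finset.mem_product, Finset.mem_product]
      refine ⟨⟨⟨bnd a da, bnd b db⟩, ⟨bnd g dg, bnd c dc⟩⟩, ⟨?_, ?_⟩, ?_⟩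
      · change shl a ≤ shl b + 1
        unfold shl
        rw [← Nat.floor_add_one hlb]
        exact Nat.floor_le_floor (by linarith [hclose.2])
      · change shl b ≤ shl a + 1
        unfold shl
        rw [← Nat.floor_add_one hla]
        exact Nat.floor_le_floor (by linarith [hclose.1])
      · change (nN a : ℝ) * nN b * nN g * nN c ≤ x
        calc (nN a : ℝ) * nN b * nN g * nN c = (nN g : ℝ) * nN a * nN b * nN c := by ring
          _ ≤ x := hNR
    · change hh t.1 = (hh a * hh b) * (hh g * hh c)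
      rw [← h5, hh_mul (mul_ne_zero (mul_ne_zero hg0 ha0) hb0) hc0,
        hh_mul (mul_ne_zero hg0 ha0) hb0, hh_mul hg0 ha0]
      ring
  have hinj : Set.InjOn i (T : Set (Σ _ : GaussianInt, GaussianInt × GaussianInt)) := by
    intro t ht t' ht' heq
    obtain ⟨h3, h4, h5⟩ := hi t ht
    obtain ⟨h3', h4', h5'⟩ := hi t' ht'
    rw [heq] at h3 h4 h5
    obtain ⟨u, A, B⟩ := t
    obtain ⟨u', A', B'⟩ := t'
    simp only at h3 h4 h5 h3' h4' h5'
    have e1 : u = u' := h5.symm.trans h5'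
    have e2 : A = A' := h3.symm.trans h3'
    have e3 : B = B' := h4.symm.trans h4'
    rw [e1, e2, e3]
  have hsum1 : ∑ t ∈ T, hh t.1 ≤ ∑ q ∈ Q, G q := by
    calc ∑ t ∈ T, hh t.1 = ∑ t ∈ T, G (i t) := Finset.sum_congr rfl fun t ht => (hmem t ht).2
      _ = ∑ q ∈ T.image i, G q := (Finset.sum_image hinj).symm
      _ ≤ ∑ q ∈ Q, G q := by
          refine Finset.sum_le_sum_of_subset_of_nonneg ?_ (fun q _ _ => ?_)
          · intro q hq
            obtain ⟨t, ht, rfl⟩ := Finset.mem_image.1 hq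
            exact (hmem t ht).1
          · exact mul_nonneg (mul_nonneg (hh_pos _).le (hh_pos _).le)
              (mul_nonneg (hh_pos _).le (hh_pos _).le)
  have hsum2 : ∑ q ∈ Q, G q ≤ ∑ a ∈ ann 0 x,
      ∑ b ∈ (ann 0 x).filter (fun b => shl a ≤ shl b + 1 ∧ shl b ≤ shl a + 1),
        C1 * (16 * C) * x * (hh a / nN a * (hh b / nN b)) := by
    rw [hQ, Finset.sum_filter, Finset.sum_product, Finset.sum_product]
    refine Finset.sum_le_sum fun a ha => ?_
    rw [Finset.sum_filter]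
    refine Finset.sum_le_sum fun b hb => ?_
    have hap : 0 < (nN a : ℝ) := ((mem_ann hx0.le).1 ha).1
    have hbp : 0 < (nN b : ℝ) := ((mem_ann hx0.le).1 hb).1
    split_ifs with hcl
    · rw [Finset.sum_product]
      have h9 := gcsum C1 (16 * C) hC10 hC1 (by positivity)
        (fun X hX => gsum C hC0 hC' X hX) x (nN a * nN b) (by positivity) hx1
      have h10 : ∑ g ∈ ann 0 x, ∑ c ∈ ann 0 x,
          (if (shl a ≤ shl b + 1 ∧ shl b ≤ shl a + 1) ∧
            (nN a : ℝ) * nN b * nN g * nN c ≤ x then G ((a, b), (g, c)) else 0) =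
          (hh a * hh b) * ∑ g ∈ ann 0 x, ∑ c ∈ ann 0 x,
            (if (nN a : ℝ) * nN b * nN g * nN c ≤ x then hh g * hh c else 0) := by
        rw [Finset.mul_sum]
        refine Finset.sum_congr rfl fun g _ => ?_
        rw [Finset.mul_sum]
        refine Finset.sum_congr rfl fun c _ => ?_
        by_cases h11 : (nN a : ℝ) * nN b * nN g * nN c ≤ x
        · rw [if_pos h11, if_pos ⟨hcl, h11⟩]
        · rw [if_neg h11, if_neg (fun h => h11 h.2), mul_zero]
      refine (le_of_eq h10).trans ?_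
      refine (mul_le_mul_of_nonneg_left h9
        (mul_nonneg (hh_pos a).le (hh_pos b).le)).trans (le_of_eq ?_)
      field_simp
    · refine le_of_eq (Finset.sum_eq_zero fun q _ => ?_)
      rw [if_neg (fun h => hcl h.1)]
  rw [hlhs]
  refine hsum1.trans (hsum2.trans ?_)
  have h12 : ∑ a ∈ ann 0 x,
      ∑ b ∈ (ann 0 x).filter (fun b => shl a ≤ shl b + 1 ∧ shl b ≤ shl a + 1),
        C1 * (16 * C) * x * (hh a / nN a * (hh b / nN b)) =
      C1 * (16 * C) * x * ∑ a ∈ ann 0 x,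
      ∑ b ∈ (ann 0 x).filter (fun b => shl a ≤ shl b + 1 ∧ shl b ≤ shl a + 1),
        (hh a / nN a * (hh b / nN b)) := by
    rw [Finset.mul_sum]
    refine Finset.sum_congr rfl fun a _ => ?_
    rw [Finset.mul_sum]
  rw [h12]
  have h13 := absum C hC0 hC' x hx1
  have hl3 : 1 ≤ log x := by
    rw [Real.le_log_iff_exp_le hx0]
    have := Real.exp_one_lt_d9
    linarith
  have h14 : log ((⌊log x⌋₊ : ℝ) + 1) ≤ 1 + log (log x) := by
    have h15 : ((⌊log x⌋₊ : ℝ) + 1) ≤ exp 1 * log x := by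
      have h16 : (⌊log x⌋₊ : ℝ) ≤ log x := Nat.floor_le (by linarith)
      have h17 := Real.add_one_le_exp (1 : ℝ)
      nlinarith
    calc log ((⌊log x⌋₊ : ℝ) + 1) ≤ log (exp 1 * log x) :=
          log_le_log (by positivity) h15
      _ = 1 + log (log x) := by
          rw [log_mul (exp_pos _).ne' (by linarith), log_exp]
  have hll : 0 ≤ log (log x) := log_nonneg hl3
  have h18 : 1 + log ((⌊log x⌋₊ : ℝ) + 1) ≤ 2 * (1 + log (log x)) ^ 2 := by nlinarith
  calc C1 * (16 * C) * x * _ ≤ C1 * (16 * C) * x * (6 * C ^ 2 * (2 * (1 + log (log x)) ^ 2)) := by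
        apply mul_le_mul_of_nonneg_left _ (by positivity)
        refine h13.trans ?_
        exact mul_le_mul_of_nonneg_left h18 (by positivity)
    _ = _ := by ring

end Pool.Agent.NSqP
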