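import Pool.Agent.Lib.NSqP.OmG
import Pool.Agent.Lib.NSqP.TK
import Pool.Agent.Lib.NSqP.Mer

/-!
# TYP: `OmG u ≤ (1+ε) log log x` for almost all `u`
Let `S` = elements of `IsPi` with `nN ≤ x^(1/4)`.  `OmG u ≤ #{π ∈ S : π ∣ u} + E(u)`,
`∑_{u ∈ ann 0 x} E(u) ≤ C x`: `E` counts the prime powers `π^k ∣ u`, `k ≥ 2`, the factor `1+i`,
the inert primes (norm `q^2`), and at most 4 primes of norm `> x^(1/4)`.  `TK` (with
`W = log log x + O(1)` from `WR_upper`/`WR_lower` or `MP484c84AP.sum_two_div`) and Chebyshev.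
-/

set_option autoImplicit false

namespace Pool.Agent.NSqP

open Real
open Pool.Agent.MP484c84Par (ballG mem_ballG crossG CM F)

/-- representatives of the Gaussian primes (up to units) -/
private def tyR (p : GaussianInt) : Prop :=
  IsPi p ∨ p = ⟨1, 1⟩ ∨ ∃ q : ℕ, 2 ≤ q ∧ p = ((q : ℕ) : GaussianInt)

private lemma ty_nN_nat (q : ℕ) : nN ((q : ℕ) : GaussianInt) = q * q := by
  have h := nN_cast_int ((q : ℕ) : GaussianInt)
  rw [Zsqrtd.norm_natCast] at h
  exact_mod_cast h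

private lemma ty_nN_pow (z : GaussianInt) (k : ℕ) : nN (z ^ k) = nN z ^ k := by
  induction k with
  | zero => simp [nN_one]
  | succ k ih => rw [pow_succ, nN_mul, ih, pow_succ]

private lemma ty_nN_dvd {z w : GaussianInt} (h : z ∣ w) : nN z ∣ nN w := by
  obtain ⟨c, rfl⟩ := h
  rw [nN_mul]; exact dvd_mul_right _ _

private lemma ty_two_le {p : GaussianInt} (hp : tyR p) : 2 ≤ nN p := by
  rcases hp with h | rfl | ⟨q, hq, rfl⟩
  · exact h.2.2.1.two_le
  · have : nN (⟨1, 1⟩ : GaussianInt) = 2 := by simp [nN, Zsqrtd.norm_def]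
    omega
  · rw [ty_nN_nat]; nlinarith

private lemma ty_isUnit {z : GaussianInt} (h : nN z = 1) : IsUnit z :=
  Zsqrtd.norm_eq_one_iff.1 h

private lemma ty_mul_star (z : GaussianInt) : z * star z = ((nN z : ℕ) : GaussianInt) := by
  have h := Zsqrtd.norm_eq_mul_conj z
  rw [← h, ← nN_cast_int z]
  push_cast
  rfl

/-- an associate in the open first quadrant -/
private lemma ty_quad {z : GaussianInt} (h : (nN z).Prime) :
    ∃ p : GaussianInt, Associated z p ∧ 0 < p.re ∧ 0 < p.im ∧ nN p = nN z := by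
  have h1 := nN_cast_int z
  rw [Zsqrtd.norm_def] at h1
  have hsq : ∀ a : ℤ, a * a ≠ (nN z : ℤ) := by
    intro a ha
    have h2 : nN z = a.natAbs * a.natAbs := by
      zify
      rw [← ha, ← abs_mul_abs_self a]
    rw [h2] at h
    exact Nat.not_prime_mul (by
      rintro h3
      rw [h3] at h
      exact Nat.not_prime_one (by simpa using h)) (by
      rintro h3
      rw [h3] at h
      exact Nat.not_prime_one (by simpa using h)) h
  have hre : z.re ≠ 0 := by
    intro h0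
    apply hsq z.im
    rw [h1, h0]; ring
  have him : z.im ≠ 0 := by
    intro h0
    apply hsq z.re
    rw [h1, h0]; ring
  have hass : ∀ w c : GaussianInt, nN c = 1 → w = z * c → Associated z w ∧ nN w = nN z := by
    intro w c hc hw
    refine ⟨?_, ?_⟩
    · obtain ⟨u, hu⟩ := ty_isUnit hc
      exact ⟨u, by rw [hu, hw]⟩
    · rw [hw, nN_mul, hc, mul_one]
  rcases lt_or_gt_of_ne hre with hr | hr <;> rcases lt_or_gt_of_ne him with hi | hi
  · obtain ⟨h3, h4⟩ := hass (⟨-z.re, -z.im⟩ : GaussianInt) ⟨-1, 0⟩ (by simp [nN, Zsqrtd.norm_def])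
      (by rw [Zsqrtd.ext_iff]; simp)
    exact ⟨_, h3, by simpa using hr, by simpa using hi, h4⟩
  · obtain ⟨h3, h4⟩ := hass (⟨z.im, -z.re⟩ : GaussianInt) ⟨0, -1⟩ (by simp [nN, Zsqrtd.norm_def])
      (by rw [Zsqrtd.ext_iff]; simp)
    exact ⟨_, h3, by simpa using hi, by simpa using hr, h4⟩
  · obtain ⟨h3, h4⟩ := hass (⟨-z.im, z.re⟩ : GaussianInt) ⟨0, 1⟩ (by simp [nN, Zsqrtd.norm_def])
      (by rw [Zsqrtd.ext_iff]; simp)
    exact ⟨_, h3, by simpa using hi, by simpa using hr, h4⟩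
  · exact ⟨z, Associated.refl _, hr, hi, rfl⟩

private lemma ty_exists {z : GaussianInt} (hz : Prime z) : ∃ p, tyR p ∧ Associated z p := by
  have hz0 : z ≠ 0 := hz.ne_zero
  have hN0 : nN z ≠ 0 := (nN_pos hz0).ne'
  have h1 : z ∣ ((nN z : ℕ) : GaussianInt) := ⟨star z, (ty_mul_star z).symm⟩
  have h2 : ∃ q : ℕ, q.Prime ∧ z ∣ ((q : ℕ) : GaussianInt) := by
    rw [← Nat.prod_primeFactorsList hN0, Nat.cast_list_prod, Prime.dvd_prod_iff hz] at h1
    obtain ⟨a, ha, hza⟩ := h1
    rw [List.mem_map] at ha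
    obtain ⟨q, hq, rfl⟩ := ha
    exact ⟨q, Nat.prime_of_mem_primeFactorsList hq, hza⟩
  obtain ⟨q, hq, w, hw⟩ := h2
  have h3 : q * q = nN z * nN w := by rw [← nN_mul, ← hw, ty_nN_nat]
  have h4 : nN z ∣ q ^ 2 := ⟨nN w, by rw [← h3]; ring⟩
  obtain ⟨k, hk, hk2⟩ := (Nat.dvd_prime_pow hq).1 h4
  have hk3 : k = 0 ∨ k = 1 ∨ k = 2 := by omega
  rcases hk3 with rfl | rfl | rfl
  · exfalso
    exact hz.not_isUnit (ty_isUnit (by simpa using hk2))
  · rw [pow_one] at hk2
    obtain ⟨p, hp, hr, hi, hn⟩ := ty_quad (z := z) (by rw [hk2]; exact hq)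
    rcases Nat.lt_or_ge 2 q with h5 | h5
    · exact ⟨p, Or.inl ⟨hr, hi, by rw [hn, hk2]; exact hq, by rw [hn, hk2]; exact h5⟩, hp⟩
    · have h6 : q = 2 := le_antisymm h5 hq.two_le
      have h7 := nN_cast_int p
      rw [Zsqrtd.norm_def, hn, hk2, h6] at h7
      push_cast at h7
      have h8 : p.re = 1 := by nlinarith
      have h9 : p.im = 1 := by nlinarith
      refine ⟨p, Or.inr (Or.inl ?_), hp⟩
      rw [Zsqrtd.ext_iff]
      exact ⟨h8, h9⟩
  · have h5 : nN w = 1 := by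
      have h6 : q * q * 1 = q * q * nN w := by
        calc q * q * 1 = nN z * nN w := by rw [← h3]; ring
          _ = q * q * nN w := by rw [hk2]; ring
      have h7 : 0 < q * q := Nat.mul_pos hq.pos hq.pos
      exact (Nat.eq_of_mul_eq_mul_left h7 h6).symm
    obtain ⟨v, hv⟩ := ty_isUnit h5
    exact ⟨_, Or.inr (Or.inr ⟨q, hq.two_le, rfl⟩), ⟨v, by rw [hv, hw]⟩⟩

private lemma ty_multiset {u : GaussianInt} (hu : u ≠ 0) :
    ∃ s : Multiset GaussianInt, (∀ p ∈ s, tyR p) ∧ s.prod ∣ u ∧ Multiset.card s = OmG u := by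
  classical
  have h : ∀ z : GaussianInt, ∃ p, Prime z → (tyR p ∧ Associated z p) := by
    intro z
    by_cases hz : Prime z
    · obtain ⟨p, hp⟩ := ty_exists hz
      exact ⟨p, fun _ => hp⟩
    · exact ⟨0, fun h => absurd h hz⟩
  choose f hf using h
  have hprod : ∀ t : Multiset GaussianInt, (∀ z ∈ t, Prime z) →
      Associated t.prod (t.map f).prod := by
    intro t
    induction t using Multiset.induction_on with
    | empty => intro _; simp
    | cons a t ih =>
      intro ht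
      rw [Multiset.map_cons, Multiset.prod_cons, Multiset.prod_cons]
      exact Associated.mul_mul (hf a (ht a (Multiset.mem_cons_self _ _))).2
        (ih (fun z hz => ht z (Multiset.mem_cons_of_mem hz)))
  have hp : ∀ z ∈ UniqueFactorizationMonoid.factors u, Prime z := fun z hz =>
    UniqueFactorizationMonoid.prime_of_factor z hz
  refine ⟨(UniqueFactorizationMonoid.factors u).map f, ?_, ?_, ?_⟩
  · intro p hp'
    rw [Multiset.mem_map] at hp'
    obtain ⟨z, hz, rfl⟩ := hp'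
    exact (hf z (hp z hz)).1
  · exact (((hprod _ hp).symm.trans (UniqueFactorizationMonoid.factors_prod hu))).dvd
  · rw [Multiset.card_map]; rfl


open Classical in
/-- representatives of norm at most `x` -/
private noncomputable def tyT (x : ℝ) : Finset GaussianInt :=
  (ballG ⌊x⌋₊).filter (fun p => tyR p)

open Classical in
/-- representatives of `IsPi` with norm at most `x^(1/4)` -/
private noncomputable def tyS (x : ℝ) : Finset GaussianInt :=
  (tyT x).filter (fun p => IsPi p ∧ (nN p : ℝ) ^ 4 ≤ x)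

open Classical in
/-- higher powers of `p` dividing `u` -/
private noncomputable def tyV (x : ℝ) (p u : GaussianInt) : ℕ :=
  ((Finset.Icc 2 ⌊x⌋₊).filter (fun k => p ^ k ∣ u)).card

open Classical in
private noncomputable def tyE1 (x : ℝ) (u : GaussianInt) : ℕ :=
  ((Finset.Icc 2 ⌊x⌋₊).filter (fun q : ℕ => ((q : ℕ) : GaussianInt) ∣ u)).card

private noncomputable def tyE2 (x : ℝ) (u : GaussianInt) : ℕ := ∑ p ∈ tyT x, tyV x p u

private lemma ty_mem_T {x : ℝ} {p : GaussianInt} :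
    p ∈ tyT x ↔ nN p ≤ ⌊x⌋₊ ∧ tyR p := by
  classical
  unfold tyT
  rw [Finset.mem_filter, mem_ballG, ← nN_cast_int]
  norm_cast

open Classical in
private lemma ty_OmG_le {x : ℝ} {u : GaussianInt} (hu : u ≠ 0) (hux : nN u ≤ ⌊x⌋₊) :
    OmG u ≤ ∑ p ∈ (tyT x).filter (fun p => p ∣ u), (1 + tyV x p u) := by
  obtain ⟨s, hs1, hs2, hs3⟩ := ty_multiset hu
  have hpos : 0 < nN u := nN_pos hu
  rw [← hs3, ← Multiset.toFinset_sum_count_eq]
  have hsub : s.toFinset ⊆ (tyT x).filter (fun p => p ∣ u) := by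
    intro p hp
    rw [Multiset.mem_toFinset] at hp
    have h1 : p ∣ u := (Multiset.dvd_prod hp).trans hs2
    rw [Finset.mem_filter, ty_mem_T]
    exact ⟨⟨(Nat.le_of_dvd hpos (ty_nN_dvd h1)).trans hux, hs1 p hp⟩, h1⟩
  refine le_trans (Finset.sum_le_sum (g := fun p => 1 + tyV x p u) ?_)
    (Finset.sum_le_sum_of_subset hsub)
  intro p hp
  rw [Multiset.mem_toFinset] at hp
  have h1 : p ^ s.count p ∣ u := by
    refine dvd_trans ?_ hs2
    rw [← Multiset.prod_replicate]
    exact Multiset.prod_dvd_prod_of_le (Multiset.le_count_iff_replicate_le.1 le_rfl)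
  have h2 : s.count p ≤ ⌊x⌋₊ := by
    have h3 : 2 ^ s.count p ≤ nN u :=
      calc 2 ^ s.count p ≤ nN p ^ s.count p := Nat.pow_le_pow_left (ty_two_le (hs1 p hp)) _
        _ = nN (p ^ s.count p) := (ty_nN_pow _ _).symm
        _ ≤ nN u := Nat.le_of_dvd hpos (ty_nN_dvd h1)
    have h4 : s.count p < 2 ^ s.count p := Nat.lt_two_pow_self
    omega
  have h3 : Finset.Icc 2 (s.count p) ⊆ (Finset.Icc 2 ⌊x⌋₊).filter (fun k => p ^ k ∣ u) := by
    intro k hk
    rw [Finset.mem_Icc] at hk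
    rw [Finset.mem_filter, Finset.mem_Icc]
    exact ⟨⟨hk.1, hk.2.trans h2⟩, (pow_dvd_pow p hk.2).trans h1⟩
  have h4 := Finset.card_le_card h3
  rw [Nat.card_Icc] at h4
  unfold tyV
  omega

open Classical in
private lemma ty_large {x : ℝ} (hx : 1 < x) {u : GaussianInt} (hu : u ≠ 0) (hux : (nN u : ℝ) ≤ x)
    (L : Finset GaussianInt) (hL : ∀ p ∈ L, IsPi p ∧ x < (nN p : ℝ) ^ 4 ∧ p ∣ u) : L.card ≤ 4 := by
  have h1 : (∏ p ∈ L, p) ∣ u := (prod_dvd_iff L (fun p hp => (hL p hp).1) u).2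
    (fun p hp => (hL p hp).2.2)
  have h2 : nN (∏ p ∈ L, p) = ∏ p ∈ L, nN p := by
    clear h1 hL
    induction L using Finset.induction_on with
    | empty => simp [nN_one]
    | insert a s ha ih => rw [Finset.prod_insert ha, Finset.prod_insert ha, nN_mul, ih]
  have h3 : ∏ p ∈ L, nN p ≤ nN u := by
    rw [← h2]; exact Nat.le_of_dvd (nN_pos hu) (ty_nN_dvd h1)
  have h4 : x ^ L.card ≤ ∏ p ∈ L, (nN p : ℝ) ^ 4 := by
    rw [← Finset.prod_const]
    exact Finset.prod_le_prod (fun _ _ => by linarith) (fun p hp => (hL p hp).2.1.le)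
  have h5 : ∏ p ∈ L, (nN p : ℝ) ^ 4 ≤ x ^ 4 := by
    rw [Finset.prod_pow]
    apply pow_le_pow_left₀ (by positivity)
    refine le_trans ?_ hux
    exact_mod_cast h3
  exact (pow_le_pow_iff_right₀ hx).1 (h4.trans h5)

open Classical in
/-- pointwise bound -/
private lemma ty_pointwise {x : ℝ} (hx : 1 < x) {u : GaussianInt} (hu : u ∈ ann 0 x) :
    OmG u ≤ ((tyS x).filter (fun p => p ∣ u)).card + (5 + tyE1 x u + tyE2 x u) := by
  have hu0 : u ≠ 0 := ne_zero_of_mem_ann le_rfl hu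
  rw [mem_ann (by linarith)] at hu
  have hux : nN u ≤ ⌊x⌋₊ := Nat.le_floor hu.2
  have h1 := ty_OmG_le hu0 hux
  rw [Finset.sum_add_distrib, Finset.sum_const, smul_eq_mul, mul_one] at h1
  have h2 : ∑ p ∈ (tyT x).filter (fun p => p ∣ u), tyV x p u ≤ tyE2 x u :=
    Finset.sum_le_sum_of_subset (Finset.filter_subset _ _)
  set L := (tyT x).filter (fun p => IsPi p ∧ x < (nN p : ℝ) ^ 4 ∧ p ∣ u) with hLdef
  have hL : L.card ≤ 4 := ty_large hx hu0 hu.2 L (fun p hp => (Finset.mem_filter.1 hp).2)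
  set Q := ((Finset.Icc 2 ⌊x⌋₊).filter (fun q : ℕ => ((q : ℕ) : GaussianInt) ∣ u)).image
    (fun q : ℕ => ((q : ℕ) : GaussianInt)) with hQ
  have h3 : (tyT x).filter (fun p => p ∣ u) ⊆
      (((tyS x).filter (fun p => p ∣ u) ∪ {⟨1, 1⟩}) ∪ Q) ∪ L := by
    intro p hp
    rw [Finset.mem_filter, ty_mem_T] at hp
    obtain ⟨⟨hp1, hp2⟩, hp3⟩ := hp
    simp only [Finset.mem_union]
    rcases hp2 with h | h | ⟨q, hq2, h⟩
    · by_cases h4 : (nN p : ℝ) ^ 4 ≤ x
      · left; left; left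
        unfold tyS
        rw [Finset.mem_filter, Finset.mem_filter, ty_mem_T]
        exact ⟨⟨⟨hp1, Or.inl h⟩, h, h4⟩, hp3⟩
      · right
        rw [hLdef, Finset.mem_filter, ty_mem_T]
        exact ⟨⟨hp1, Or.inl h⟩, h, not_le.1 h4, hp3⟩
    · left; left; right
      rw [Finset.mem_singleton]; exact h
    · left; right
      rw [hQ, Finset.mem_image]
      refine ⟨q, ?_, h.symm⟩
      rw [Finset.mem_filter, Finset.mem_Icc]
      refine ⟨⟨hq2, ?_⟩, by rw [← h]; exact hp3⟩
      rw [h, ty_nN_nat] at hp1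
      nlinarith
  have h4 := Finset.card_le_card h3
  have h5 := Finset.card_union_le (((tyS x).filter (fun p => p ∣ u) ∪ {⟨1, 1⟩}) ∪ Q) L
  have h6 := Finset.card_union_le ((tyS x).filter (fun p => p ∣ u) ∪ {⟨1, 1⟩}) Q
  have h7 := Finset.card_union_le ((tyS x).filter (fun p => p ∣ u)) {(⟨1, 1⟩ : GaussianInt)}
  have h8 : Q.card ≤ tyE1 x u := Finset.card_image_le
  rw [Finset.card_singleton] at h7
  omega

open Classical in
private lemma ty_mult : ∃ C : ℝ, 0 < C ∧ ∀ κ : GaussianInt, κ ≠ 0 → ∀ x : ℝ, 0 ≤ x →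
    (((ann 0 x).filter (fun z => κ ∣ z)).card : ℝ) ≤ C * (x / nN κ) := by
  obtain ⟨C, hC, h⟩ := card_ann_le
  refine ⟨C, hC, fun κ hκ x hx => ?_⟩
  have h1 := card_dvd hκ (le_refl (0 : ℝ)) hx
  rw [zero_div] at h1
  rw [h1]
  exact h _ (by positivity)

private lemma ty_sum_inv_sq (K : ℕ) : ∑ n ∈ Finset.Icc 2 K, 1 / (n : ℝ) ^ 2 ≤ 1 := by
  rcases Nat.lt_or_ge K 1 with h | h
  · have : K = 0 := by omega
    subst this
    simp
  · have h1 := sum_Ioc_inv_sq_le_sub (α := ℝ) (k := 1) (n := K) one_ne_zero h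
    have h2 : Finset.Icc 2 K = Finset.Ioc 1 K := by
      ext n; simp only [Finset.mem_Icc, Finset.mem_Ioc]; omega
    rw [h2]
    have h3 : (0 : ℝ) ≤ (K : ℝ)⁻¹ := by positivity
    simp only [one_div]
    simp only [Nat.cast_one, inv_one] at h1
    linarith

open Classical in
private lemma ty_sum_T (x : ℝ) : ∑ p ∈ tyT x, 1 / (nN p : ℝ) ^ 2 ≤ 4 := by
  have h1 : ∀ p ∈ tyT x, nN p ∈ Finset.Icc 2 ⌊x⌋₊ := by
    intro p hp
    rw [ty_mem_T] at hp
    rw [Finset.mem_Icc]
    exact ⟨ty_two_le hp.2, hp.1⟩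
  rw [← Finset.sum_fiberwise_of_maps_to h1]
  have h2 : ∀ n ∈ Finset.Icc 2 ⌊x⌋₊, ∑ p ∈ (tyT x).filter (fun p => nN p = n),
      1 / (nN p : ℝ) ^ 2 ≤ 4 * (1 / (n : ℝ) ^ 2) := by
    intro n _
    have h3 : ∑ p ∈ (tyT x).filter (fun p => nN p = n), 1 / (nN p : ℝ) ^ 2 =
        ((tyT x).filter (fun p => nN p = n)).card * (1 / (n : ℝ) ^ 2) := by
      rw [← nsmul_eq_mul, ← Finset.sum_const]
      apply Finset.sum_congr rfl
      intro p hp
      rw [(Finset.mem_filter.1 hp).2]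
    rw [h3]
    have h4 : ((tyT x).filter (fun p => nN p = n)) ⊆
        (((tyT x).filter (fun p => IsPi p ∧ nN p = n)) ∪ {⟨1, 1⟩}) ∪
          {((Nat.sqrt n : ℕ) : GaussianInt)} := by
      intro p hp
      rw [Finset.mem_filter] at hp
      obtain ⟨hp1, hp2⟩ := hp
      have hp3 := (ty_mem_T.1 hp1).2
      simp only [Finset.mem_union, Finset.mem_singleton, Finset.mem_filter]
      rcases hp3 with h | h | ⟨q, _, h⟩
      · exact Or.inl (Or.inl ⟨hp1, h, hp2⟩)
      · exact Or.inl (Or.inr h)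
      · right
        rw [h, ty_nN_nat] at hp2
        rw [h, ← hp2, Nat.sqrt_eq]
    have h5 := Finset.card_le_card h4
    have h6 := Finset.card_union_le (((tyT x).filter (fun p => IsPi p ∧ nN p = n)) ∪ {⟨1, 1⟩})
          {((Nat.sqrt n : ℕ) : GaussianInt)}
    have h7 := Finset.card_union_le ((tyT x).filter (fun p => IsPi p ∧ nN p = n))
      {(⟨1, 1⟩ : GaussianInt)}
    have h8 := card_norm_le ((tyT x).filter (fun p => IsPi p ∧ nN p = n)) n
      (fun z hz => (Finset.mem_filter.1 hz).2)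
    rw [Finset.card_singleton] at h6 h7
    have h9 : ((tyT x).filter (fun p => nN p = n)).card ≤ 4 := by omega
    have h10 : (((tyT x).filter (fun p => nN p = n)).card : ℝ) ≤ 4 := by exact_mod_cast h9
    exact mul_le_mul_of_nonneg_right h10 (by positivity)
  refine le_trans (Finset.sum_le_sum h2) ?_
  rw [← Finset.mul_sum]
  have := ty_sum_inv_sq ⌊x⌋₊
  linarith

/-- total size of the exceptional terms -/
private lemma ty_total : ∃ C : ℝ, 0 < C ∧ ∀ x : ℝ, 1 < x →
    ∑ u ∈ ann 0 x, ((5 + tyE1 x u + tyE2 x u : ℕ) : ℝ) ≤ C * x := by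
  classical
  obtain ⟨C, hC, hmult⟩ := ty_mult
  obtain ⟨C', hC', hcard⟩ := card_ann_le
  refine ⟨5 * C' + C + 8 * C, by positivity, fun x hx => ?_⟩
  have hx0 : (0 : ℝ) ≤ x := by linarith
  have h1 : ∑ u ∈ ann 0 x, (tyE1 x u : ℝ) ≤ C * x := by
    have h2 : ∑ u ∈ ann 0 x, (tyE1 x u : ℝ) =
        ∑ q ∈ Finset.Icc 2 ⌊x⌋₊, (((ann 0 x).filter
          (fun z => ((q : ℕ) : GaussianInt) ∣ z)).card : ℝ) := by
      unfold tyE1
      simp only [Finset.card_filter, Nat.cast_sum]
      exact Finset.sum_comm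
    rw [h2]
    have h3 : ∀ q ∈ Finset.Icc 2 ⌊x⌋₊, (((ann 0 x).filter
          (fun z => ((q : ℕ) : GaussianInt) ∣ z)).card : ℝ) ≤ C * x * (1 / (q : ℝ) ^ 2) := by
      intro q hq
      rw [Finset.mem_Icc] at hq
      have hq0 : ((q : ℕ) : GaussianInt) ≠ 0 := by
        intro h
        have := ty_nN_nat q
        rw [h, nN_zero] at this
        nlinarith
      have h4 := hmult _ hq0 x hx0
      rw [ty_nN_nat] at h4
      refine h4.trans (le_of_eq ?_)
      push_cast
      ring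
    refine le_trans (Finset.sum_le_sum h3) ?_
    rw [← Finset.mul_sum]
    have := ty_sum_inv_sq ⌊x⌋₊
    have h5 : 0 ≤ C * x := by positivity
    nlinarith
  have h2 : ∑ u ∈ ann 0 x, (tyE2 x u : ℝ) ≤ 8 * C * x := by
    have h3 : ∑ u ∈ ann 0 x, (tyE2 x u : ℝ) =
        ∑ p ∈ tyT x, ∑ k ∈ Finset.Icc 2 ⌊x⌋₊, (((ann 0 x).filter
          (fun z => p ^ k ∣ z)).card : ℝ) := by
      unfold tyE2 tyV
      simp only [Finset.card_filter, Nat.cast_sum]
      rw [Finset.sum_comm]
      apply Finset.sum_congr rfl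
      intro p _
      exact Finset.sum_comm
    rw [h3]
    have h4 : ∀ p ∈ tyT x, ∑ k ∈ Finset.Icc 2 ⌊x⌋₊, (((ann 0 x).filter
          (fun z => p ^ k ∣ z)).card : ℝ) ≤ 2 * C * x * (1 / (nN p : ℝ) ^ 2) := by
      intro p hp
      have hp2 : 2 ≤ nN p := ty_two_le (ty_mem_T.1 hp).2
      have hp3 : (2 : ℝ) ≤ nN p := by exact_mod_cast hp2
      have hp0 : p ≠ 0 := by
        rintro rfl
        rw [nN_zero] at hp2
        omega
      set r : ℝ := 1 / (nN p : ℝ) with hr
      have hr0 : 0 < r := by positivity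
      have hr1 : r ≤ 1 / 2 := by
        rw [hr]
        exact one_div_le_one_div_of_le (by norm_num) hp3
      have h5 : ∀ k ∈ Finset.Icc 2 ⌊x⌋₊, (((ann 0 x).filter
          (fun z => p ^ k ∣ z)).card : ℝ) ≤ C * x * r ^ k := by
        intro k _
        have h6 := hmult _ (pow_ne_zero k hp0) x hx0
        rw [ty_nN_pow] at h6
        refine h6.trans (le_of_eq ?_)
        push_cast
        rw [hr, one_div, inv_pow]
        ring
      refine le_trans (Finset.sum_le_sum h5) ?_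
      rw [← Finset.mul_sum]
      have h7 : Finset.Icc 2 ⌊x⌋₊ = Finset.Ico 2 (⌊x⌋₊ + 1) := by
        ext n; simp only [Finset.mem_Icc, Finset.mem_Ico]; omega
      have h8 : ∑ k ∈ Finset.Icc 2 ⌊x⌋₊, r ^ k ≤ r ^ 2 / (1 - r) := by
        rw [h7]
        exact geom_sum_Ico_le_of_lt_one hr0.le (by linarith)
      have h9 : r ^ 2 / (1 - r) ≤ 2 * r ^ 2 := by
        rw [div_le_iff₀ (by linarith)]
        nlinarith [sq_nonneg r]
      have h10 : 1 / (nN p : ℝ) ^ 2 = r ^ 2 := by
        rw [hr]; ring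
      rw [h10]
      have h11 : 0 ≤ C * x := by positivity
      nlinarith [h8.trans h9]
    refine le_trans (Finset.sum_le_sum h4) ?_
    rw [← Finset.mul_sum]
    have := ty_sum_T x
    have h5 : 0 ≤ 2 * C * x := by positivity
    nlinarith
  have h3 : ∑ u ∈ ann 0 x, ((5 + tyE1 x u + tyE2 x u : ℕ) : ℝ) =
      5 * ((ann 0 x).card : ℝ) + ∑ u ∈ ann 0 x, (tyE1 x u : ℝ) + ∑ u ∈ ann 0 x, (tyE2 x u : ℝ) := by
    push_cast
    rw [Finset.sum_add_distrib, Finset.sum_add_distrib, Finset.sum_const, nsmul_eq_mul]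
    ring
  rw [h3]
  have h4 := hcard x hx0
  nlinarith

private lemma ty_W : ∃ C : ℝ, 0 < C ∧ ∀ x : ℝ, 16 ≤ x →
    ∑ p ∈ tyS x, 1 / (nN p : ℝ) ≤ log (log x) + C := by
  classical
  obtain ⟨C, hC, h⟩ := WR_upper
  refine ⟨log 2 + C, by positivity, fun x hx => ?_⟩
  have hx0 : 0 < x := by linarith
  have hlog : 2 < log x := by
    have h1 : log 16 ≤ log x := log_le_log (by norm_num) hx
    have h2 : log 16 = 4 * log 2 := by
      rw [show (16 : ℝ) = 2 ^ 4 by norm_num, log_pow]; norm_num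
    have := log_two_gt_d9
    linarith
  set b : ℕ := ⌈log x⌉₊ + 1 with hb
  have hb1 : (b : ℝ) ≤ log x + 2 := by
    have := Nat.ceil_lt_add_one (show 0 ≤ log x by linarith)
    rw [hb]; push_cast; linarith
  have hb2 : log x < b := by
    have := Nat.le_ceil (log x)
    rw [hb]; push_cast; linarith
  have hb3 : 1 ≤ b := by rw [hb]; omega
  have h1 := h 1 1 b le_rfl le_rfl hb3
  simp only [Nat.cast_one, div_one, mul_one] at h1
  have h2 : ∑ p ∈ tyS x, 1 / (nN p : ℝ) ≤ WR 1 1 b := by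
    unfold WR sv
    rw [← Finset.sum_biUnion (fun i _ j _ hij => blk_disjoint le_rfl hij)]
    apply Finset.sum_le_sum_of_subset_of_nonneg
    · intro p hp
      unfold tyS at hp
      rw [Finset.mem_filter, ty_mem_T] at hp
      obtain ⟨⟨hp1, _⟩, hp2, _⟩ := hp
      have hp3 : (3 : ℝ) ≤ nN p := by exact_mod_cast hp2.2.2.2
      have hp4 : (nN p : ℝ) ≤ x := by
        refine le_trans ?_ (Nat.floor_le hx0.le)
        exact_mod_cast hp1
      have hp5 : (0 : ℝ) < nN p := by linarith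
      have h3 : 1 ≤ log (nN p) := by
        rw [Real.le_log_iff_exp_le hp5]
        have := exp_one_lt_d9
        linarith
      rw [Finset.mem_biUnion]
      refine ⟨⌊log (nN p)⌋₊, ?_, ?_⟩
      · rw [Finset.mem_Ico]
        refine ⟨Nat.le_floor (by simpa using h3), ?_⟩
        rw [Nat.floor_lt (by linarith)]
        exact (log_le_log hp5 hp4).trans_lt hb2
      · rw [mem_blk]
        refine ⟨hp2, ?_, ?_⟩
        · rw [Nat.cast_one, div_one, ← Real.le_log_iff_exp_le hp5]
          exact Nat.floor_le (by linarith)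
        · rw [Nat.cast_one, div_one, ← Real.log_lt_iff_lt_exp hp5]
          exact Nat.lt_floor_add_one _
    · intro p _ _
      positivity
  have h3 : log (b : ℝ) ≤ log (log x) + log 2 := by
    rw [← log_mul (by linarith) (by norm_num)]
    apply log_le_log
    · exact_mod_cast hb3
    · linarith
  linarith

open Classical in
theorem TYP (ε : ℝ) (hε : 0 < ε) : ∃ C : ℝ, 0 < C ∧ ∀ x : ℝ, 16 ≤ x →
    (((ann 0 x).filter (fun u => (1 + ε) * log (log x) < (OmG u : ℝ))).card : ℝ) ≤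
      C * x / log (log x) := by
  obtain ⟨D, hD, hTK⟩ := TK
  obtain ⟨C3, hC3, hW⟩ := ty_W
  obtain ⟨C1, hC1, hTot⟩ := ty_total
  obtain ⟨C2, hC2, hcard⟩ := card_ann_le
  refine ⟨2 / ε * C1 + (D * (C3 + 2) * 16 / ε ^ 2 + C2 * (4 * C3 / ε)), by positivity,
    fun x hx => ?_⟩
  have hx0 : 0 < x := by linarith
  set L : ℝ := log (log x) with hL
  have hL1 : 1 ≤ L := by
    have h1 : log 16 ≤ log x := log_le_log (by norm_num) hx
    have h2 : log 16 = 4 * log 2 := by
      rw [show (16 : ℝ) = 2 ^ 4 by norm_num, log_pow]; norm_num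
    have h3 := log_two_gt_d9
    have h4 := exp_one_lt_d9
    rw [hL, Real.le_log_iff_exp_le (by linarith)]
    linarith
  set W : ℝ := ∑ p ∈ tyS x, 1 / (nN p : ℝ) with hWdef
  have hWx : W ≤ L + C3 := hW x hx
  set A1 := (ann 0 x).filter (fun u => ε / 2 * L ≤ ((5 + tyE1 x u + tyE2 x u : ℕ) : ℝ)) with hA1
  set A2 := (ann 0 x).filter (fun u => (1 + ε / 2) * L <
    (((tyS x).filter (fun p => p ∣ u)).card : ℝ)) with hA2
  have hsub : (ann 0 x).filter (fun u => (1 + ε) * L < (OmG u : ℝ)) ⊆ A1 ∪ A2 := by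
    intro u hu
    rw [Finset.mem_filter] at hu
    have h1 := ty_pointwise (by linarith) hu.1
    have h2 : (OmG u : ℝ) ≤ (((tyS x).filter (fun p => p ∣ u)).card : ℝ) +
        ((5 + tyE1 x u + tyE2 x u : ℕ) : ℝ) := by exact_mod_cast h1
    rw [Finset.mem_union, hA1, hA2, Finset.mem_filter, Finset.mem_filter]
    by_cases h3 : ε / 2 * L ≤ ((5 + tyE1 x u + tyE2 x u : ℕ) : ℝ)
    · exact Or.inl ⟨hu.1, h3⟩
    · right
      refine ⟨hu.1, ?_⟩
      rw [not_le] at h3
      have h4 := hu.2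
      nlinarith
  have hc : (((ann 0 x).filter (fun u => (1 + ε) * L < (OmG u : ℝ))).card : ℝ) ≤
      (A1.card : ℝ) + A2.card := by
    have h1 := (Finset.card_le_card hsub).trans (Finset.card_union_le _ _)
    exact_mod_cast h1
  have hb1 : (A1.card : ℝ) ≤ 2 / ε * C1 * x / L := by
    have h1 : (A1.card : ℝ) * (ε / 2 * L) ≤ C1 * x := by
      refine le_trans ?_ (hTot x (by linarith))
      rw [← nsmul_eq_mul, ← Finset.sum_const]
      refine le_trans (Finset.sum_le_sum (g := fun u => ((5 + tyE1 x u + tyE2 x u : ℕ) : ℝ)) ?_)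
        (Finset.sum_le_sum_of_subset_of_nonneg (Finset.filter_subset _ _) ?_)
      · intro u hu
        exact (Finset.mem_filter.1 hu).2
      · intro u _ _
        positivity
    rw [le_div_iff₀ (by linarith)]
    have h2 : (A1.card : ℝ) * L = 2 / ε * ((A1.card : ℝ) * (ε / 2 * L)) := by
      field_simp
    rw [h2]
    have h3 : 2 / ε * C1 * x = 2 / ε * (C1 * x) := by ring
    rw [h3]
    exact mul_le_mul_of_nonneg_left h1 (by positivity)
  have hb2 : (A2.card : ℝ) ≤ (D * (C3 + 2) * 16 / ε ^ 2 + C2 * (4 * C3 / ε)) * x / L := by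
    rcases lt_or_ge L (4 * C3 / ε) with hcase | hcase
    · have h1 : (A2.card : ℝ) ≤ C2 * x := by
        refine le_trans ?_ (hcard x hx0.le)
        exact_mod_cast Finset.card_le_card (Finset.filter_subset _ _)
      have h2 : C2 * x ≤ C2 * (4 * C3 / ε) * x / L := by
        rw [le_div_iff₀ (by linarith)]
        have h3 : 0 ≤ C2 * x := by positivity
        nlinarith
      refine (h1.trans h2).trans ?_
      apply div_le_div_of_nonneg_right _ (by linarith)
      apply mul_le_mul_of_nonneg_right _ hx0.le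
      have : 0 ≤ D * (C3 + 2) * 16 / ε ^ 2 := by positivity
      linarith
    · have h1 := hTK (tyS x) x (by linarith) (fun p hp => by
        unfold tyS at hp
        exact (Finset.mem_filter.1 hp).2)
      have h2 : (A2.card : ℝ) * (ε / 4 * L) ^ 2 ≤ D * x * (W + 1) := by
        refine le_trans ?_ h1
        rw [← nsmul_eq_mul, ← Finset.sum_const]
        refine le_trans (Finset.sum_le_sum (g := fun u =>
          (((tyS x).filter (fun p => p ∣ u)).card - ∑ p ∈ tyS x, 1 / (nN p : ℝ)) ^ 2) ?_)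
          (Finset.sum_le_sum_of_subset_of_nonneg (Finset.filter_subset _ _) ?_)
        · intro u hu
          have h3 := (Finset.mem_filter.1 hu).2
          have h4 : C3 ≤ ε / 4 * L := by
            rw [div_le_iff₀ hε] at hcase
            linarith
          have h5 : ε / 4 * L ≤ (((tyS x).filter (fun p => p ∣ u)).card : ℝ) -
              ∑ p ∈ tyS x, 1 / (nN p : ℝ) := by
            rw [← hWdef]
            nlinarith
          exact pow_le_pow_left₀ (by positivity) h5 2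
        · intro u _ _
          positivity
      have h3 : D * x * (W + 1) ≤ D * x * ((C3 + 2) * L) := by
        apply mul_le_mul_of_nonneg_left _ (by positivity)
        nlinarith
      have h4 : (A2.card : ℝ) * L ≤ D * (C3 + 2) * 16 / ε ^ 2 * x := by
        have h5 : (A2.card : ℝ) * L * (ε ^ 2 / 16 * L) ≤
            D * (C3 + 2) * 16 / ε ^ 2 * x * (ε ^ 2 / 16 * L) := by
          have h6 : (A2.card : ℝ) * L * (ε ^ 2 / 16 * L) = (A2.card : ℝ) * (ε / 4 * L) ^ 2 := by
            ring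
          have h7 : D * (C3 + 2) * 16 / ε ^ 2 * x * (ε ^ 2 / 16 * L) =
              D * x * ((C3 + 2) * L) := by
            field_simp
          rw [h6, h7]
          exact h2.trans h3
        exact le_of_mul_le_mul_right h5 (by positivity)
      rw [le_div_iff₀ (by linarith)]
      refine h4.trans ?_
      apply mul_le_mul_of_nonneg_right _ hx0.le
      have : 0 ≤ C2 * (4 * C3 / ε) := by positivity
      linarith
  refine hc.trans ((add_le_add hb1 hb2).trans (le_of_eq ?_))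
  ring

end Pool.Agent.NSqP
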