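import Pool.Agent.Lib.NSqP.Basic
import Pool.Agent.Lib.MP484c84Par.Tri

/-!
# EDG: from edges to pairs (n, d)
`edges_le_prs`: same proof as `MP484c84Par.card_edges_le` (map `p` to
`((|dotG p|, N p.1), sign)`, fibres at most 4 by `fiber_unit`); now the second component
`d = N p.1` satisfies `d ≤ x`, `(n^2+1)/d = N p.2 ≤ x`.
`plus_edges`: from `vecs_subset`, `card_vecs` as in `plus_bound` (a positive proportion of edges has
`F u * F v = 1`, by Farey triangles).
`card_prs_le`: for a pair `(n, d)` take `u = gcd (d, n + i)` in `ℤ[i]`: `N u = d` (first `d ∣ N u`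
from the Bezout identity, then `N u ∣ d` because `u` and `conj u` have only the factor `1 + i` in
common, once), `v = (n + i)/conj u`: an edge with `N u, N v ≤ x`; so the number of pairs is at most
the number of edges, and for given `u` the `v` are `v0 + t u`, at most `2 √x/|u| + 1 ≤ 3 √x/|u|` of
them, `∑_{0 < N u ≤ x} 1/|u| ≤ C √x`.
-/

set_option autoImplicit false

namespace Pool.Agent.NSqP

open Real
open Pool.Agent.MP484c84Par (ballG mem_ballG crossG badEdges mem_badEdges CM F dotG edges mem_edges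
  signSet)

/-- the pairs `(n, d)` with `d ∣ n^2+1`, `d ≤ x`, `(n^2+1)/d ≤ x`, `g (n^2+1) = e` -/
def prs (g : ℕ → ℤ) (e : ℤ) (x : ℕ) : Finset (ℕ × ℕ) :=
  ((Finset.Icc 1 x) ×ˢ (Finset.Icc 1 x)).filter
    (fun q => q.2 ∣ q.1 ^ 2 + 1 ∧ (q.1 ^ 2 + 1) / q.2 ≤ x ∧ g (q.1 ^ 2 + 1) = e)

open Pool.Agent.MP484c84Par in
theorem edges_le_prs {g : ℕ → ℤ} (h : CM g) (e : ℤ) (x : ℕ) :
    (edges g e x).card ≤ 8 * (prs g e x).card := by
  classical
  set U : Finset ((ℕ × ℕ) × ℤ) := (prs g e x) ×ˢ ({1, -1} : Finset ℤ) with hU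
  let f : GaussianInt × GaussianInt → (ℕ × ℕ) × ℤ :=
    fun p => (((dotG p.1 p.2).natAbs, p.1.norm.natAbs), (dotG p.1 p.2).sign)
  have hmaps : ∀ p ∈ edges g e x, f p ∈ U := by
    intro p hp
    obtain ⟨h1, h2, h3, h4, h5⟩ := mem_edges.1 hp
    obtain ⟨hv, hw⟩ := ne_zero_of_cross h3
    have hdc := dot_cross p.1 p.2
    rw [h3] at hdc
    have hnn : p.1.norm * p.2.norm ≤ x * x :=
      mul_le_mul h1 h2 (norm_nonneg' _) (by positivity)
    have hFm : F g p.1 * F g p.2 = g ((dotG p.1 p.2).natAbs ^ 2 + 1) := by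
      rw [← F_mul_star h hv hw, mul_eq_mk h3, F_mk_one]
    have hpos1 := norm_pos' hv
    have hpos2 := norm_pos' hw
    have hprod : (dotG p.1 p.2).natAbs ^ 2 + 1 = p.1.norm.natAbs * p.2.norm.natAbs := by
      have hi : ((dotG p.1 p.2).natAbs ^ 2 + 1 : ℤ) = p.1.norm * p.2.norm := by
        rw [← hdc, Int.natCast_natAbs, sq_abs]; norm_num
      have : (((dotG p.1 p.2).natAbs ^ 2 + 1 : ℕ) : ℤ) =
          ((p.1.norm.natAbs * p.2.norm.natAbs : ℕ) : ℤ) := by
        push_cast
        rw [Int.natCast_natAbs] at hi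
        rw [hi, abs_of_nonneg hpos1.le, abs_of_nonneg hpos2.le]
      exact_mod_cast this
    have hN1 : 0 < p.1.norm.natAbs := by omega
    simp only [hU, f, Finset.mem_product, prs, Finset.mem_filter, Finset.mem_Icc]
    refine ⟨⟨⟨⟨by omega, ?_⟩, ⟨by omega, by omega⟩⟩, ?_, ?_, ?_⟩, ?_⟩
    · have : (dotG p.1 p.2).natAbs ^ 2 ≤ x ^ 2 := by
        have : ((dotG p.1 p.2).natAbs ^ 2 : ℤ) ≤ x ^ 2 := by
          rw [Int.natCast_natAbs, sq_abs]; nlinarith
        exact_mod_cast this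
      exact (Nat.pow_le_pow_iff_left (by norm_num)).1 this
    · rw [hprod]; exact dvd_mul_right _ _
    · rw [hprod, Nat.mul_div_cancel_left _ hN1]
      omega
    · rw [← hFm]; exact h5
    · rcases lt_trichotomy (dotG p.1 p.2) 0 with h6 | h6 | h6
      · rw [Int.sign_eq_neg_one_of_neg h6]; simp
      · exact absurd h6 h4
      · rw [Int.sign_eq_one_of_pos h6]; simp
  have hfib : ∀ b ∈ U, ((edges g e x).filter (fun p => f p = b)).card ≤ 4 := by
    intro b _
    rcases ((edges g e x).filter (fun p => f p = b)).eq_empty_or_nonempty with he | ⟨p0, hp0⟩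
    · rw [he]; simp
    · rw [Finset.mem_filter] at hp0
      have hsub : (edges g e x).filter (fun p => f p = b) ⊆
          (({⟨1, 0⟩, ⟨-1, 0⟩, ⟨0, 1⟩, ⟨0, -1⟩} : Finset GaussianInt)).image
            (fun e => (p0.1 * e, p0.2 * e)) := by
        intro p hp
        rw [Finset.mem_filter] at hp
        obtain ⟨h1, h2, h3, h4, h5⟩ := mem_edges.1 hp0.1
        obtain ⟨h1', h2', h3', h4', h5'⟩ := mem_edges.1 hp.1
        have heq : f p = f p0 := by rw [hp.2, hp0.2]
        simp only [f, Prod.mk.injEq] at heq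
        obtain ⟨⟨hq1, hq2⟩, hq3⟩ := heq
        have hdot : dotG p0.1 p0.2 = dotG p.1 p.2 := by
          rw [← Int.sign_mul_natAbs (dotG p0.1 p0.2), ← Int.sign_mul_natAbs (dotG p.1 p.2), hq1, hq3]
        have hnorm : p0.1.norm = p.1.norm := by
          have n1 := norm_nonneg' p0.1
          have n2 := norm_nonneg' p.1
          omega
        obtain ⟨e, he, he1, he2⟩ := fiber_unit (ne_zero_of_cross h3).1 h3 h3' hdot hnorm
        rw [Finset.mem_image]
        exact ⟨e, he, by rw [← he1, ← he2]⟩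
      refine (Finset.card_le_card hsub).trans (Finset.card_image_le.trans ?_)
      exact Finset.card_le_four
  have hcard := Finset.card_le_mul_card_image_of_maps_to hmaps 4 hfib
  have hUc : U.card = 2 * (prs g e x).card := by
    rw [hU, Finset.card_product, mul_comm]
    congr 1
  rw [hUc] at hcard
  omega

open Pool.Agent.MP484c84Par in
theorem plus_edges : ∃ c : ℝ, 0 < c ∧ ∃ N0 : ℕ, ∀ g : ℕ → ℤ, CM g → ∀ x : ℕ, N0 ≤ x →
    c * x ≤ ((edges g 1 x).card : ℝ) := by
  refine ⟨1 / 1024, by norm_num, 256, fun g h x hx => ?_⟩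
  set B := Nat.sqrt (x / 8) with hBdef
  have hB8 : 8 * B ^ 2 ≤ x := by
    have h1 : B * B ≤ x / 8 := Nat.sqrt_le _
    have h2 : 8 * (x / 8) ≤ x := Nat.mul_div_le _ _
    nlinarith
  have hB1 : 1 ≤ B := by
    have : 1 ≤ x / 8 := by omega
    rw [hBdef, Nat.le_sqrt]; omega
  have hBlow : x < 8 * (B + 1) ^ 2 := by
    have h1 : x / 8 < (B + 1) * (B + 1) := Nat.lt_succ_sqrt _
    have h2 : x < 8 * (x / 8 + 1) := by omega
    nlinarith
  have hBlow' : (x : ℝ) / 32 ≤ (B : ℝ) ^ 2 := by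
    have h1 : (x : ℝ) < 8 * ((B : ℝ) + 1) ^ 2 := by exact_mod_cast hBlow
    have h2 : (1 : ℝ) ≤ B := by exact_mod_cast hB1
    nlinarith
  have h1 : (vecs B).card ≤ 2 * (edges g 1 x).card := by
    refine (Finset.card_le_card (vecs_subset h hB8)).trans ?_
    refine (Finset.card_union_le _ _).trans ?_
    have a1 := Finset.card_image_le (s := edges g 1 x) (f := Prod.fst)
    have a2 := Finset.card_image_le (s := edges g 1 x) (f := fun p => p.1 - p.2)
    omega
  have h1' : ((vecs B).card : ℝ) ≤ 2 * ((edges g 1 x).card : ℝ) := by exact_mod_cast h1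
  have h4 := card_vecs B
  have hx' : (256 : ℝ) ≤ x := by exact_mod_cast hx
  linarith

end Pool.Agent.NSqP
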