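import Pool.Agent.Lib.NSqP.Basic

/-!
# OMG: number of Gaussian prime factors with multiplicity
`OmG z = #(UniqueFactorizationMonoid.factors z)`.  `card_div_le`: induction on `OmG`: the divisors
of `π w` (`π` prime) are divisors of `w` or `π` times a divisor of `w`; units: 4.
-/

set_option autoImplicit false

namespace Pool.Agent.NSqP

open Real
open Pool.Agent.MP484c84Par (ballG mem_ballG crossG CM F)

/-- number of Gaussian prime factors with multiplicity -/
noncomputable def OmG (z : GaussianInt) : ℕ :=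
  Multiset.card (UniqueFactorizationMonoid.factors z)

/-- `2^(-OmG z)` -/
noncomputable def hh (z : GaussianInt) : ℝ := (1 / 2 : ℝ) ^ OmG z

theorem OmG_mul {z w : GaussianInt} (hz : z ≠ 0) (hw : w ≠ 0) : OmG (z * w) = OmG z + OmG w := by
  unfold OmG
  rw [Multiset.card_eq_card_of_rel (UniqueFactorizationMonoid.factors_mul hz hw),
    Multiset.card_add]

theorem OmG_prime {z : GaussianInt} (hz : Prime z) : OmG z = 1 :=
  UniqueFactorizationMonoid.card_factors_of_irreducible hz.irreducible

theorem OmG_unit {z : GaussianInt} (hz : IsUnit z) : OmG z = 0 := by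
  unfold OmG
  rw [UniqueFactorizationMonoid.factors_of_isUnit hz, Multiset.card_zero]

theorem hh_mul {z w : GaussianInt} (hz : z ≠ 0) (hw : w ≠ 0) : hh (z * w) = hh z * hh w := by
  unfold hh
  rw [OmG_mul hz hw, pow_add]

theorem hh_pos (z : GaussianInt) : 0 < hh z := by
  unfold hh
  positivity

theorem hh_le_one (z : GaussianInt) : hh z ≤ 1 := by
  unfold hh
  exact pow_le_one₀ (by norm_num) (by norm_num)

open Classical in
/-- the divisors of `z ≠ 0` -/
noncomputable def divG (z : GaussianInt) : Finset GaussianInt :=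
  (ballG (nN z)).filter (fun d => d ∣ z)

theorem mem_divG {z : GaussianInt} (hz : z ≠ 0) {d : GaussianInt} : d ∈ divG z ↔ d ∣ z := by
  classical
  unfold divG
  rw [Finset.mem_filter, mem_ballG]
  refine ⟨fun h => h.2, fun h => ⟨?_, h⟩⟩
  obtain ⟨c, rfl⟩ := h
  have hc : c ≠ 0 := by
    rintro rfl
    exact hz (mul_zero d)
  rw [← nN_cast_int, nN_mul]
  have h1 := nN_pos hc
  exact_mod_cast Nat.le_mul_of_pos_right _ h1

private lemma OmG_unit_mem {d : GaussianInt} (hd : IsUnit d) :
    d ∈ ({⟨1, 0⟩, ⟨-1, 0⟩, ⟨0, 1⟩, ⟨0, -1⟩} : Finset GaussianInt) := by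
  have h := Zsqrtd.norm_eq_one_iff.mpr hd
  have h2 : d.norm = 1 := by
    have := nN_cast_int d
    unfold nN at this
    rw [h] at this
    exact this.symm
  rw [Zsqrtd.norm_def] at h2
  obtain ⟨a, b⟩ := d
  simp only at h2
  have h3 : a * a + b * b = 1 := by linarith
  have ha : -1 ≤ a ∧ a ≤ 1 := ⟨by nlinarith [mul_self_nonneg b], by nlinarith [mul_self_nonneg b]⟩
  have hb : -1 ≤ b ∧ b ≤ 1 := ⟨by nlinarith [mul_self_nonneg a], by nlinarith [mul_self_nonneg a]⟩
  obtain ⟨ha1, ha2⟩ := ha
  obtain ⟨hb1, hb2⟩ := hb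
  interval_cases a <;> interval_cases b <;> first | (exfalso; revert h3; decide) | decide

theorem card_div_le {z : GaussianInt} (hz : z ≠ 0) : (divG z).card ≤ 4 * 2 ^ OmG z := by
  classical
  revert hz
  refine UniqueFactorizationMonoid.induction_on_prime z ?_ ?_ ?_
  · intro h
    exact absurd rfl h
  · intro x hx hx0
    have h1 : divG x ⊆ ({⟨1, 0⟩, ⟨-1, 0⟩, ⟨0, 1⟩, ⟨0, -1⟩} : Finset GaussianInt) := by
      intro d hd
      rw [mem_divG hx0] at hd
      exact OmG_unit_mem (isUnit_of_dvd_unit hd hx)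
    refine (Finset.card_le_card h1).trans ?_
    rw [OmG_unit hx, pow_zero, mul_one]
    exact Finset.card_le_four
  · intro a p ha hp ih h0
    have h1 : divG (p * a) ⊆ divG a ∪ (divG a).image (fun d => p * d) := by
      intro d hd
      rw [mem_divG h0] at hd
      rw [Finset.mem_union, Finset.mem_image]
      obtain ⟨c, hc⟩ := hd
      by_cases hpd : p ∣ d
      · obtain ⟨d', rfl⟩ := hpd
        right
        refine ⟨d', ?_, rfl⟩
        rw [mem_divG ha]
        refine ⟨c, mul_left_cancel₀ hp.ne_zero ?_⟩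
        rw [hc, mul_assoc]
      · left
        rw [mem_divG ha]
        have h2 : p ∣ d * c := hc ▸ dvd_mul_right p a
        obtain ⟨c', rfl⟩ := (hp.dvd_or_dvd h2).resolve_left hpd
        refine ⟨c', mul_left_cancel₀ hp.ne_zero ?_⟩
        rw [hc]
        ring
    have h2 := (Finset.card_le_card h1).trans (Finset.card_union_le _ _)
    have h3 := Finset.card_image_le (s := divG a) (f := fun d => p * d)
    have h4 := ih ha
    rw [OmG_mul hp.ne_zero ha, OmG_prime hp, pow_add, pow_one]
    omega

/-- pairs of divisors of about the same size (`⌊log N a⌋ = ⌊log N b⌋`) -/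
noncomputable def Rk (z : GaussianInt) : ℕ :=
  ((divG z ×ˢ divG z).filter (fun q => ⌊log (nN q.1)⌋ = ⌊log (nN q.2)⌋)).card

end Pool.Agent.NSqP
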