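import Pool.Agent.Lib.NSqP.Defs

/-!
# Positive proportion parity theorem: basic facts on the definitions
-/

set_option autoImplicit false

namespace Pool.Agent.NSqP

open Real
open Pool.Agent.MP484c84Par (ballG mem_ballG crossG badEdges CM F norm_nonneg')

lemma nN_cast_int (z : GaussianInt) : ((nN z : ℕ) : ℤ) = z.norm := by
  unfold nN
  rw [Int.natCast_natAbs, abs_of_nonneg (norm_nonneg' z)]

lemma nN_mul (z w : GaussianInt) : nN (z * w) = nN z * nN w := by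
  unfold nN; rw [Zsqrtd.norm_mul, Int.natAbs_mul]

lemma nN_zero : nN 0 = 0 := by simp [nN]

lemma nN_one : nN 1 = 1 := by simp [nN]

lemma nN_eq_zero {z : GaussianInt} : nN z = 0 ↔ z = 0 := by
  unfold nN
  rw [Int.natAbs_eq_zero, GaussianInt.norm_eq_zero]

lemma nN_pos {z : GaussianInt} (hz : z ≠ 0) : 0 < nN z :=
  Nat.pos_of_ne_zero (fun h => hz (nN_eq_zero.1 h))

lemma nN_star (z : GaussianInt) : nN (star z) = nN z := by
  unfold nN; simp [Zsqrtd.norm_def]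

lemma nN_real (z : GaussianInt) : (nN z : ℝ) = (z.re : ℝ) ^ 2 + (z.im : ℝ) ^ 2 := by
  have h := nN_cast_int z
  rw [Zsqrtd.norm_def] at h
  have : ((nN z : ℤ) : ℝ) = ((z.re * z.re - (-1) * z.im * z.im : ℤ) : ℝ) := by rw [h]
  push_cast at this
  rw [this]; ring

lemma norm_toC_sq (z : GaussianInt) : ‖(z : ℂ)‖ ^ 2 = nN z := by
  rw [nN_real, ← Complex.normSq_eq_norm_sq, Complex.normSq_apply, ← GaussianInt.intCast_re,
    ← GaussianInt.intCast_im]
  ring

lemma toC_ne_zero {z : GaussianInt} (hz : z ≠ 0) : (z : ℂ) ≠ 0 := by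
  simpa using hz

lemma xi_mul (z w : GaussianInt) : xi (z * w) = xi z * xi w := by
  unfold xi
  rw [GaussianInt.toComplex_mul, norm_mul]
  push_cast
  rw [mul_div_mul_comm]

lemma norm_xi {z : GaussianInt} (hz : z ≠ 0) : ‖xi z‖ = 1 := by
  unfold xi
  have h := toC_ne_zero hz
  rw [norm_div, Complex.norm_real, norm_norm, div_self (norm_ne_zero_iff.2 h)]

lemma xi_ne_zero {z : GaussianInt} (hz : z ≠ 0) : xi z ≠ 0 := by
  intro h
  have := norm_xi hz
  rw [h] at this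
  simp at this

lemma norm_xi_zpow {z : GaussianInt} (hz : z ≠ 0) (m : ℤ) : ‖xi z ^ m‖ = 1 := by
  rw [norm_zpow, norm_xi hz, one_zpow]

lemma xi_mul_zpow (z w : GaussianInt) (m : ℤ) : xi (z * w) ^ m = xi z ^ m * xi w ^ m := by
  rw [xi_mul, mul_zpow]

lemma mem_ann {a b : ℝ} (hb : 0 ≤ b) {z : GaussianInt} :
    z ∈ ann a b ↔ a < (nN z : ℝ) ∧ (nN z : ℝ) ≤ b := by
  classical
  unfold ann
  rw [Finset.mem_filter, mem_ballG]
  constructor
  · exact fun h => h.2
  · intro h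
    refine ⟨?_, h⟩
    have h1 : nN z ≤ ⌊b⌋₊ := Nat.le_floor h.2
    rw [← nN_cast_int]
    exact_mod_cast h1

lemma mem_pann {a b : ℝ} (hb : 0 ≤ b) {z : GaussianInt} :
    z ∈ pann a b ↔ (a < (nN z : ℝ) ∧ (nN z : ℝ) ≤ b) ∧ Prim z := by
  classical
  unfold pann
  rw [Finset.mem_filter, mem_ann hb]

lemma ann_of_neg {a b : ℝ} (hb : b < 0) : ann a b = ∅ := by
  classical
  unfold ann
  rw [Finset.filter_eq_empty_iff]
  intro z _ h
  have : (0 : ℝ) ≤ nN z := Nat.cast_nonneg _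
  linarith [h.2]

lemma ne_zero_of_mem_ann {a b : ℝ} (ha : 0 ≤ a) {z : GaussianInt} (hz : z ∈ ann a b) : z ≠ 0 := by
  rintro rfl
  rcases lt_or_ge b 0 with hb | hb
  · rw [ann_of_neg hb] at hz; simp at hz
  · rw [mem_ann hb, nN_zero] at hz
    have := hz.1
    simp at this
    linarith

lemma pann_subset (a b : ℝ) : pann a b ⊆ ann a b := by
  classical
  exact Finset.filter_subset _ _

lemma prim_ne_zero {z : GaussianInt} (hz : Prim z) : z ≠ 0 := by
  rintro rfl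
  simp [Prim, cont] at hz

lemma mem_blk {H v : ℕ} {z : GaussianInt} :
    z ∈ blk H v ↔ IsPi z ∧ exp ((v : ℝ) / H) ≤ (nN z : ℝ) ∧
      (nN z : ℝ) < exp (((v : ℝ) + 1) / H) := by
  classical
  unfold blk
  rw [Finset.mem_filter, mem_ballG]
  constructor
  · exact fun h => h.2
  · intro h
    refine ⟨?_, h⟩
    have h1 : nN z ≤ ⌊exp (((v : ℝ) + 1) / H)⌋₊ := Nat.le_floor h.2.2.le
    rw [← nN_cast_int]
    exact_mod_cast h1

lemma IsPi.ne_zero {z : GaussianInt} (hz : IsPi z) : z ≠ 0 := by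
  rintro rfl
  have := hz.1
  simp at this

lemma mem_Wset {H v : ℕ} {x : ℝ} (hx : 0 ≤ x) {w : GaussianInt} :
    w ∈ Wset H v x ↔ ((x / 2 * exp (-((v : ℝ) / H)) < (nN w : ℝ) ∧
      (nN w : ℝ) ≤ x * exp (-((v : ℝ) / H))) ∧ Prim w) ∧ ∀ q ∈ blk H v, ¬ q ∣ w := by
  classical
  unfold Wset
  rw [Finset.mem_filter, mem_pann (by positivity)]

lemma mem_fr {M : ℕ} {m : ℤ} : m ∈ fr M ↔ |m| < M := by
  unfold fr
  rw [Finset.mem_Ioo, abs_lt]

/-- the function `F g` as a complex valued function -/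
noncomputable def fF (g : ℕ → ℤ) : GaussianInt → ℂ := fun z => ((F g z : ℤ) : ℂ)

lemma CMC_fF {g : ℕ → ℤ} (h : CM g) : CMC (fF g) := by
  refine ⟨fun z w hz hw => ?_, fun z hz => ?_⟩
  · unfold fF
    rw [MP484c84Par.F_mul h hz hw]; push_cast; rfl
  · unfold fF
    rcases MP484c84Par.F_sign h hz with h1 | h1 <;> simp [h1]

/-- the constant function one -/
lemma CMC_one : CMC (fun _ => (1 : ℂ)) := ⟨fun _ _ _ _ => by simp, fun _ _ => by simp⟩

end Pool.Agent.NSqP
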