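import Pool.Agent.Lib.NSqP.DB

/-!
# CNT: the combinatorial decomposition
`cnt H a b x z` = number of `v ∈ [a, b)` for which `z = p * w` with `p ∈ blk H v`,
`w ∈ Wset H v x`.  For fixed `v` the pair `(p, w)` is determined by `z` (two elements `p, p'` of the
block: `p' ∣ p w`, `p' ∤ w`, so `p' = p`), `p w` is primitive (`prim_mul`) and
`x/2 < N(p w) ≤ x e^(1/H)`.
-/

set_option autoImplicit false

namespace Pool.Agent.NSqP

open Real
open Pool.Agent.MP484c84Par (ballG mem_ballG crossG badEdges mem_badEdges CM F)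

open Classical in
noncomputable def cnt (H a b : ℕ) (x : ℝ) (z : GaussianInt) : ℕ :=
  ((Finset.Ico a b).filter (fun v => ∃ p ∈ blk H v, ∃ w ∈ Wset H v x, z = p * w)).card

open Classical in
/-- number of elements of the blocks dividing `z` -/
noncomputable def omR (H a b : ℕ) (z : GaussianInt) : ℕ :=
  ∑ v ∈ Finset.Ico a b, ((blk H v).filter (fun p => p ∣ z)).card

private lemma eq_of_dvd' {z w : GaussianInt} (hz : IsPi z) (hw : IsPi w) (h : z ∣ w) : z = w := by
  by_contra hne
  have h1 := hz.coprime hw hne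
  rw [Irreducible.coprime_iff_not_dvd hz.prime.irreducible] at h1
  exact h1 h

private lemma pair_inj {H v : ℕ} {x : ℝ} (hx : 0 ≤ x) {p w p' w' : GaussianInt}
    (hp : p ∈ blk H v) (hw : w ∈ Wset H v x) (hp' : p' ∈ blk H v) (hw' : w' ∈ Wset H v x)
    (h : p * w = p' * w') : p = p' ∧ w = w' := by
  have hpi := (mem_blk.1 hp).1
  have hpi' := (mem_blk.1 hp').1
  have h1 : p' ∣ p * w := ⟨w', h⟩
  have h2 : p' = p := by
    rcases hpi'.prime.dvd_or_dvd h1 with h3 | h3
    · exact eq_of_dvd' hpi' hpi h3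
    · exact absurd h3 (((mem_Wset hx).1 hw).2 p' hp')
  refine ⟨h2.symm, ?_⟩
  rw [h2] at h
  exact mul_left_cancel₀ hpi.ne_zero h

private lemma mul_mem {H v : ℕ} {x : ℝ} (hx : 0 ≤ x) {p w : GaussianInt}
    (hp : p ∈ blk H v) (hw : w ∈ Wset H v x) : p * w ∈ pann (x / 2) (x * exp (1 / H)) := by
  have h1 := mem_blk.1 hp
  have h2 := (mem_Wset hx).1 hw
  rw [mem_pann (by positivity)]
  have hN : (nN (p * w) : ℝ) = nN p * nN w := by rw [nN_mul]; push_cast; ring
  have hwpos : (0 : ℝ) < nN w := by exact_mod_cast nN_pos (prim_ne_zero h2.1.2)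
  have hppos : (0 : ℝ) < nN p := by exact_mod_cast nN_pos h1.1.ne_zero
  refine ⟨⟨?_, ?_⟩, prim_mul hp h2.1.2 h2.2⟩
  · rw [hN]
    have h3 : x / 2 = exp ((v : ℝ) / H) * (x / 2 * exp (-((v : ℝ) / H))) := by
      rw [exp_neg]
      field_simp
    rw [h3]
    calc exp ((v : ℝ) / H) * (x / 2 * exp (-((v : ℝ) / H)))
        < exp ((v : ℝ) / H) * nN w := by
          exact mul_lt_mul_of_pos_left h2.1.1.1 (exp_pos _)
      _ ≤ nN p * nN w := by
          exact mul_le_mul_of_nonneg_right h1.2.1 hwpos.le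
  · rw [hN]
    calc (nN p : ℝ) * nN w ≤ exp (((v : ℝ) + 1) / H) * (x * exp (-((v : ℝ) / H))) := by
          exact mul_le_mul h1.2.2.le h2.1.1.2 hwpos.le (exp_pos _).le
      _ = x * exp (1 / H) := by
          have : exp (((v : ℝ) + 1) / H) = exp ((v : ℝ) / H) * exp (1 / H) := by
            rw [← exp_add]; congr 1; ring
          rw [this, exp_neg]
          field_simp

theorem sum_Pb_Rb {f : GaussianInt → ℂ} (hf : CMC f) (H a b : ℕ) (hH : 1 ≤ H) (x : ℝ)
    (hx : 0 ≤ x) (m : ℤ) :
    ∑ v ∈ Finset.Ico a b, Pb f H v m * Rb f H v x m =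
      ∑ z ∈ pann (x / 2) (x * exp (1 / H)), ((cnt H a b x z : ℕ) : ℂ) * (f z * xi z ^ m) := by
  classical
  have key : ∀ v : ℕ, Pb f H v m * Rb f H v x m =
      ∑ z ∈ pann (x / 2) (x * exp (1 / H)),
        if (∃ p ∈ blk H v, ∃ w ∈ Wset H v x, z = p * w) then f z * xi z ^ m else 0 := by
    intro v
    unfold Pb Rb
    rw [Finset.sum_mul_sum, ← Finset.sum_product']
    have h1 : ∑ q ∈ blk H v ×ˢ Wset H v x, f q.1 * xi q.1 ^ m * (f q.2 * xi q.2 ^ m) =
        ∑ q ∈ blk H v ×ˢ Wset H v x, f (q.1 * q.2) * xi (q.1 * q.2) ^ m := by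
      apply Finset.sum_congr rfl
      intro q hq
      rw [Finset.mem_product] at hq
      have h2 := (mem_blk.1 hq.1).1.ne_zero
      have h3 := prim_ne_zero ((mem_Wset hx).1 hq.2).1.2
      rw [hf.mul _ _ h2 h3, xi_mul_zpow]
      ring
    rw [h1, ← Finset.sum_filter]
    have h4 : (pann (x / 2) (x * exp (1 / H))).filter
        (fun z => ∃ p ∈ blk H v, ∃ w ∈ Wset H v x, z = p * w) =
        (blk H v ×ˢ Wset H v x).image (fun q => q.1 * q.2) := by
      ext z
      simp only [Finset.mem_filter, Finset.mem_image, Finset.mem_product, Prod.exists]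
      constructor
      · rintro ⟨_, p, hp, w, hw, rfl⟩
        exact ⟨p, w, ⟨hp, hw⟩, rfl⟩
      · rintro ⟨p, w, ⟨hp, hw⟩, rfl⟩
        exact ⟨mul_mem hx hp hw, p, hp, w, hw, rfl⟩
    rw [h4, Finset.sum_image]
    intro q hq q' hq' h
    have hq1 := Finset.mem_product.1 (Finset.mem_coe.1 hq)
    have hq2 := Finset.mem_product.1 (Finset.mem_coe.1 hq')
    have := pair_inj hx hq1.1 hq1.2 hq2.1 hq2.2 h
    exact Prod.ext this.1 this.2
  simp_rw [key]
  rw [Finset.sum_comm]
  apply Finset.sum_congr rfl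
  intro z _
  unfold cnt
  rw [← Finset.sum_filter, Finset.sum_const, nsmul_eq_mul]

theorem cnt_le (H a b : ℕ) (x : ℝ) (z : GaussianInt) : cnt H a b x z ≤ omR H a b z := by
  classical
  unfold cnt omR
  rw [Finset.card_filter]
  apply Finset.sum_le_sum
  intro v _
  split_ifs with h
  · obtain ⟨p, hp, w, hw, rfl⟩ := h
    apply Finset.card_pos.2
    exact ⟨p, Finset.mem_filter.2 ⟨hp, dvd_mul_right _ _⟩⟩
  · exact Nat.zero_le _

/-- in the interior only the `z` with two prime factors in one block make a difference -/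
theorem omR_le_cnt (H a b : ℕ) (hH : 1 ≤ H) (x : ℝ) (hx : 0 ≤ x) (z : GaussianInt) (hz : Prim z)
    (h1 : x / 2 * exp (1 / H) < nN z) (h2 : (nN z : ℝ) ≤ x) :
    omR H a b z ≤ cnt H a b x z + dbl H a b z := by
  classical
  unfold cnt omR dbl
  rw [Finset.card_filter, ← Finset.sum_add_distrib]
  apply Finset.sum_le_sum
  intro v _
  set A := (blk H v).filter (fun p => p ∣ z) with hA
  have hmemA : ∀ p, p ∈ A ↔ p ∈ blk H v ∧ p ∣ z := fun p => by rw [hA, Finset.mem_filter]
  have hpairs : ((blk H v) ×ˢ (blk H v)).filter (fun q => q.1 ≠ q.2 ∧ q.1 ∣ z ∧ q.2 ∣ z) =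
      A.offDiag := by
    ext q
    simp only [Finset.mem_filter, Finset.mem_product, Finset.mem_offDiag, hmemA]
    tauto
  rw [hpairs, Finset.offDiag_card]
  rcases Nat.lt_or_ge A.card 2 with hlt | hge
  · rcases Nat.eq_zero_or_pos A.card with h0 | h0
    · omega
    · have h1' : A.card = 1 := by omega
      obtain ⟨p, hp⟩ := Finset.card_eq_one.1 h1'
      have hpA : p ∈ A := by rw [hp]; exact Finset.mem_singleton_self _
      have hpb := ((hmemA p).1 hpA).1
      obtain ⟨w, hw⟩ := ((hmemA p).1 hpA).2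
      have hpi := (mem_blk.1 hpb).1
      by_cases hpw : p ∣ w
      · have : 0 < ((blk H v).filter (fun q => q ^ 2 ∣ z)).card := by
          apply Finset.card_pos.2
          refine ⟨p, Finset.mem_filter.2 ⟨hpb, ?_⟩⟩
          obtain ⟨c, hc⟩ := hpw
          exact ⟨c, by rw [hw, hc]; ring⟩
        omega
      · have hex : ∃ p ∈ blk H v, ∃ w ∈ Wset H v x, z = p * w := by
          refine ⟨p, hpb, w, ?_, hw⟩
          rw [mem_Wset hx]
          have hprimw : Prim w := prim_of_dvd hz ⟨p, by rw [hw]; ring⟩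
          have hN : (nN z : ℝ) = nN p * nN w := by rw [hw, nN_mul]; push_cast; ring
          have hppos : (0 : ℝ) < nN p := by exact_mod_cast nN_pos hpi.ne_zero
          have hwpos : (0 : ℝ) < nN w := by exact_mod_cast nN_pos (prim_ne_zero hprimw)
          have hb := (mem_blk.1 hpb).2
          have he : exp (((v : ℝ) + 1) / H) = exp ((v : ℝ) / H) * exp (1 / H) := by
            rw [← exp_add]; congr 1; ring
          have hE := exp_pos ((v : ℝ) / H)
          have hE1 := exp_pos ((1 : ℝ) / H)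
          refine ⟨⟨⟨?_, ?_⟩, hprimw⟩, ?_⟩
          · rw [exp_neg, ← div_eq_mul_inv, div_lt_iff₀ hE]
            by_contra hcon
            push Not at hcon
            have h3 : (nN z : ℝ) ≤ x / 2 * exp (1 / H) := by
              rw [hN]
              calc (nN p : ℝ) * nN w ≤ (exp ((v : ℝ) / H) * exp (1 / H)) * nN w := by
                    apply mul_le_mul_of_nonneg_right _ hwpos.le
                    rw [← he]; exact hb.2.le
                _ = (nN w * exp ((v : ℝ) / H)) * exp (1 / H) := by ring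
                _ ≤ x / 2 * exp (1 / H) := mul_le_mul_of_nonneg_right hcon hE1.le
            linarith
          · rw [exp_neg, ← div_eq_mul_inv, le_div_iff₀ hE]
            calc (nN w : ℝ) * exp ((v : ℝ) / H) ≤ nN w * nN p :=
                  mul_le_mul_of_nonneg_left hb.1 hwpos.le
              _ = nN z := by rw [hN]; ring
              _ ≤ x := h2
          · intro q hq hqw
            have hqA : q ∈ A := (hmemA q).2 ⟨hq, by rw [hw]; exact dvd_mul_of_dvd_right hqw _⟩
            rw [hp, Finset.mem_singleton] at hqA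
            rw [hqA] at hqw
            exact hpw hqw
        rw [if_pos hex]
        omega
  · have : A.card * 2 ≤ A.card * A.card := Nat.mul_le_mul_left _ hge
    omega

end Pool.Agent.NSqP
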