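import Pool.Agent.Lib.NSqP.PiF

/-!
# DB: two prime factors in one block
`dbl H a b z = ∑_v (#{(p,q) : p ≠ q in blk H v dividing z} + #{p in blk H v : p^2 ∣ z})`.
Its second moment: expand, count with `card_ann_le` (`≤ C X / N(lcm)`), and use
`sv H v ≤ 4/H` (from `sv_le` and `H ≤ e^(a/H)`), `∑_v sv^2 ≤ (4/H) W`, `∑ 1/N^2 ≤ W/H`.
-/

set_option autoImplicit false

namespace Pool.Agent.NSqP

open Real
open Pool.Agent.MP484c84Par (ballG mem_ballG crossG badEdges mem_badEdges CM F)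

open Classical in
noncomputable def dbl (H a b : ℕ) (z : GaussianInt) : ℕ :=
  ∑ v ∈ Finset.Ico a b,
    ((((blk H v) ×ˢ (blk H v)).filter (fun q => q.1 ≠ q.2 ∧ q.1 ∣ z ∧ q.2 ∣ z)).card +
      ((blk H v).filter (fun q => q ^ 2 ∣ z)).card)

open Classical in
/-- indicator of divisibility -/
private noncomputable def dbI (κ z : GaussianInt) : ℝ := if κ ∣ z then 1 else 0

private lemma dbI_nonneg (κ z : GaussianInt) : 0 ≤ dbI κ z := by
  unfold dbI; split_ifs <;> norm_num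

private noncomputable def dbE (B : Finset GaussianInt) (z : GaussianInt) : ℝ :=
  ∑ p ∈ B, ∑ q ∈ B, dbI (p * q) z

private lemma dbE_nonneg (B : Finset GaussianInt) (z : GaussianInt) : 0 ≤ dbE B z :=
  Finset.sum_nonneg fun _ _ => Finset.sum_nonneg fun _ _ => dbI_nonneg _ _

private noncomputable def dbG (X : ℝ) (p q r s : GaussianInt) : ℝ :=
  ∑ z ∈ ann 0 X, dbI (p * q) z * dbI (r * s) z

private lemma dbG_nonneg (X : ℝ) (p q r s : GaussianInt) : 0 ≤ dbG X p q r s :=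
  Finset.sum_nonneg fun _ _ => mul_nonneg (dbI_nonneg _ _) (dbI_nonneg _ _)

private lemma dbG_swap1 (X : ℝ) (p q r s : GaussianInt) : dbG X p q r s = dbG X q p r s := by
  unfold dbG; rw [mul_comm p q]

private lemma dbG_swap2 (X : ℝ) (p q r s : GaussianInt) : dbG X p q r s = dbG X p q s r := by
  unfold dbG; rw [mul_comm r s]

open Classical in
private lemma dbE_card (B : Finset GaussianInt) (hB : ∀ p ∈ B, IsPi p) (z : GaussianInt) :
    (((((B ×ˢ B).filter (fun q => q.1 ≠ q.2 ∧ q.1 ∣ z ∧ q.2 ∣ z)).card +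
      (B.filter (fun q => q ^ 2 ∣ z)).card : ℕ)) : ℝ) ≤ dbE B z := by
  have h1 : dbE B z = (((B ×ˢ B).filter (fun q => q.1 * q.2 ∣ z)).card : ℝ) := by
    unfold dbE dbI
    rw [← Finset.sum_product' B B (fun p q => if p * q ∣ z then (1 : ℝ) else 0),
      Finset.card_filter]
    push_cast
    rfl
  rw [h1]
  have h2 : (B.filter (fun q => q ^ 2 ∣ z)).card =
      ((B.filter (fun q => q ^ 2 ∣ z)).image (fun q => (q, q))).card := by
    rw [Finset.card_image_of_injective]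
    intro a b h
    exact (Prod.mk.inj h).1
  have h3 : Disjoint ((B ×ˢ B).filter (fun q => q.1 ≠ q.2 ∧ q.1 ∣ z ∧ q.2 ∣ z))
      ((B.filter (fun q => q ^ 2 ∣ z)).image (fun q => (q, q))) := by
    rw [Finset.disjoint_left]
    intro x hx hx'
    obtain ⟨y, _, rfl⟩ := Finset.mem_image.1 hx'
    exact (Finset.mem_filter.1 hx).2.1 rfl
  rw [h2, ← Finset.card_union_of_disjoint h3]
  norm_cast
  refine Finset.card_le_card ?_
  intro x hx
  rcases Finset.mem_union.1 hx with h | h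
  · obtain ⟨h4, h5, h6, h7⟩ := Finset.mem_filter.1 h
    refine Finset.mem_filter.2 ⟨h4, ?_⟩
    have h8 := Finset.mem_product.1 h4
    exact ((hB _ h8.1).coprime (hB _ h8.2) h5).mul_dvd h6 h7
  · obtain ⟨y, hy, rfl⟩ := Finset.mem_image.1 h
    obtain ⟨h4, h5⟩ := Finset.mem_filter.1 hy
    refine Finset.mem_filter.2 ⟨Finset.mem_product.2 ⟨h4, h4⟩, ?_⟩
    rw [← sq]; exact h5

private lemma dbE_mul (X : ℝ) (B B' : Finset GaussianInt) :
    ∑ z ∈ ann 0 X, dbE B z * dbE B' z =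
      ∑ p ∈ B, ∑ q ∈ B, ∑ r ∈ B', ∑ s ∈ B', dbG X p q r s := by
  have h1 : ∀ z, dbE B z * dbE B' z =
      ∑ p ∈ B, ∑ q ∈ B, ∑ r ∈ B', ∑ s ∈ B', dbI (p * q) z * dbI (r * s) z := by
    intro z
    unfold dbE
    rw [Finset.sum_mul]
    refine Finset.sum_congr rfl fun p _ => ?_
    rw [Finset.sum_mul]
    refine Finset.sum_congr rfl fun q _ => ?_
    rw [Finset.mul_sum]
    refine Finset.sum_congr rfl fun r _ => ?_
    rw [Finset.mul_sum]
  rw [Finset.sum_congr rfl fun z _ => h1 z]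
  rw [Finset.sum_comm]
  refine Finset.sum_congr rfl fun p _ => ?_
  rw [Finset.sum_comm]
  refine Finset.sum_congr rfl fun q _ => ?_
  rw [Finset.sum_comm]
  refine Finset.sum_congr rfl fun r _ => ?_
  rw [Finset.sum_comm]
  rfl

/-- reciprocal of the norm -/
private noncomputable def dbA (p : GaussianInt) : ℝ := 1 / (nN p : ℝ)

private lemma dbA_nonneg (p : GaussianInt) : 0 ≤ dbA p := by unfold dbA; positivity

private lemma dbG_le {C : ℝ} (hcnt : ∀ b : ℝ, 0 ≤ b → ((ann 0 b).card : ℝ) ≤ C * b) {X : ℝ}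
    (hX : 0 ≤ X) {p q r s κ : GaussianInt} (hκ : κ ≠ 0)
    (h : ∀ z, p * q ∣ z → r * s ∣ z → κ ∣ z) : dbG X p q r s ≤ C * X * dbA κ := by
  classical
  have h1 : dbG X p q r s ≤ (((ann 0 X).filter (fun z => κ ∣ z)).card : ℝ) := by
    unfold dbG
    rw [Finset.card_filter]
    push_cast
    refine Finset.sum_le_sum fun z _ => ?_
    unfold dbI
    by_cases h2 : p * q ∣ z
    · by_cases h3 : r * s ∣ z
      · rw [if_pos h2, if_pos h3, if_pos (h z h2 h3)]; norm_num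
      · rw [if_neg h3, mul_zero]; split_ifs <;> norm_num
    · rw [if_neg h2, zero_mul]; split_ifs <;> norm_num
  rw [card_dvd hκ le_rfl hX, zero_div] at h1
  refine h1.trans ((hcnt _ (by positivity)).trans (le_of_eq ?_))
  unfold dbA
  ring

private lemma dbA_mul (p q : GaussianInt) : dbA (p * q) = dbA p * dbA q := by
  unfold dbA
  rw [nN_mul]
  push_cast
  rw [one_div_mul_one_div]

/-- disjoint pairs -/
private lemma dbG_le1 {C : ℝ} (hcnt : ∀ b : ℝ, 0 ≤ b → ((ann 0 b).card : ℝ) ≤ C * b) {X : ℝ}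
    (hX : 0 ≤ X) {p q r s : GaussianInt} (hp : IsPi p) (hq : IsPi q) (hr : IsPi r) (hs : IsPi s)
    (h1 : p ≠ r) (h2 : p ≠ s) (h3 : q ≠ r) (h4 : q ≠ s) :
    dbG X p q r s ≤ C * X * (dbA p * dbA q * (dbA r * dbA s)) := by
  have hc : IsCoprime (p * q) (r * s) := by
    refine IsCoprime.mul_left ?_ ?_
    · exact IsCoprime.mul_right (hp.coprime hr h1) (hp.coprime hs h2)
    · exact IsCoprime.mul_right (hq.coprime hr h3) (hq.coprime hs h4)
  have h5 := dbG_le (p := p) (q := q) (r := r) (s := s) hcnt hX (κ := (p * q) * (r * s))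
    (mul_ne_zero (mul_ne_zero hp.ne_zero hq.ne_zero) (mul_ne_zero hr.ne_zero hs.ne_zero))
    (fun z a b => hc.mul_dvd a b)
  rwa [dbA_mul, dbA_mul, dbA_mul] at h5

open Classical in
/-- pairs with a common element -/
private lemma dbG_le2 {C : ℝ} (hcnt : ∀ b : ℝ, 0 ≤ b → ((ann 0 b).card : ℝ) ≤ C * b) {X : ℝ}
    (hC : 0 ≤ C) (hX : 0 ≤ X) {p q s : GaussianInt} (hp : IsPi p) (hq : IsPi q) (hs : IsPi s) :
    dbG X p q p s ≤ C * X * (dbA p * dbA q * dbA s + if q = s then dbA p * dbA q else 0) := by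
  by_cases h : q = s
  · subst h
    rw [if_pos rfl]
    have h5 := dbG_le (p := p) (q := q) (r := p) (s := q) hcnt hX (κ := p * q)
      (mul_ne_zero hp.ne_zero hq.ne_zero) (fun z a _ => a)
    rw [dbA_mul] at h5
    refine h5.trans (mul_le_mul_of_nonneg_left ?_ (by positivity))
    have := mul_nonneg (mul_nonneg (dbA_nonneg p) (dbA_nonneg q)) (dbA_nonneg q)
    linarith
  · rw [if_neg h, add_zero]
    have h5 := dbG_le (p := p) (q := q) (r := p) (s := s) hcnt hX (κ := p * (q * s))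
      (mul_ne_zero hp.ne_zero (mul_ne_zero hq.ne_zero hs.ne_zero)) (by
        rintro z ⟨w, hw⟩ ⟨w', hw'⟩
        have e : q * w = s * w' := by
          apply mul_left_cancel₀ hp.ne_zero
          rw [← mul_assoc, ← mul_assoc, ← hw, ← hw']
        have hqs : q * s ∣ q * w := (hq.coprime hs h).mul_dvd (dvd_mul_right _ _)
          (e ▸ dvd_mul_right _ _)
        rw [hw, mul_assoc]
        exact mul_dvd_mul_left _ hqs)
    rw [dbA_mul, dbA_mul] at h5
    rwa [mul_assoc (dbA p)]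

open Classical in
private lemma dbG_le3 {C : ℝ} (hcnt : ∀ b : ℝ, 0 ≤ b → ((ann 0 b).card : ℝ) ≤ C * b) {X : ℝ}
    (hC : 0 ≤ C) (hX : 0 ≤ X) {p q r s : GaussianInt} (hp : IsPi p) (hq : IsPi q) (hr : IsPi r)
    (hs : IsPi s) :
    dbG X p q r s ≤ C * X * (dbA p * dbA q * (dbA r * dbA s)) +
      (if r = p then dbG X p q p s else 0) + (if r = q then dbG X q p q s else 0) +
      (if s = p then dbG X p q p r else 0) + (if s = q then dbG X q p q r else 0) := by
  have n1 : 0 ≤ C * X * (dbA p * dbA q * (dbA r * dbA s)) :=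
    mul_nonneg (by positivity) (mul_nonneg (mul_nonneg (dbA_nonneg _) (dbA_nonneg _))
      (mul_nonneg (dbA_nonneg _) (dbA_nonneg _)))
  have n2 : 0 ≤ (if r = p then dbG X p q p s else 0) := by
    split_ifs; exacts [dbG_nonneg _ _ _ _ _, le_rfl]
  have n3 : 0 ≤ (if r = q then dbG X q p q s else 0) := by
    split_ifs; exacts [dbG_nonneg _ _ _ _ _, le_rfl]
  have n4 : 0 ≤ (if s = p then dbG X p q p r else 0) := by
    split_ifs; exacts [dbG_nonneg _ _ _ _ _, le_rfl]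
  have n5 : 0 ≤ (if s = q then dbG X q p q r else 0) := by
    split_ifs; exacts [dbG_nonneg _ _ _ _ _, le_rfl]
  by_cases h1 : r = p
  · have : dbG X p q r s = (if r = p then dbG X p q p s else 0) := by rw [if_pos h1, h1]
    rw [this]; linarith
  by_cases h2 : r = q
  · have : dbG X p q r s = (if r = q then dbG X q p q s else 0) := by
      rw [if_pos h2, h2, dbG_swap1]
    rw [this]; linarith
  by_cases h3 : s = p
  · have : dbG X p q r s = (if s = p then dbG X p q p r else 0) := by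
      rw [if_pos h3, h3, dbG_swap2]
    rw [this]; linarith
  by_cases h4 : s = q
  · have : dbG X p q r s = (if s = q then dbG X q p q r else 0) := by
      rw [if_pos h4, h4, dbG_swap2, dbG_swap1]
    rw [this]; linarith
  have := dbG_le1 hcnt hX hp hq hr hs (fun h => h1 h.symm) (fun h => h3 h.symm)
    (fun h => h2 h.symm) (fun h => h4 h.symm)
  linarith

private noncomputable def dbS (B : Finset GaussianInt) : ℝ := ∑ p ∈ B, dbA p

private lemma dbS_nonneg (B : Finset GaussianInt) : 0 ≤ dbS B :=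
  Finset.sum_nonneg fun _ _ => dbA_nonneg _

private lemma db_sum4 (K : ℝ) (B B' : Finset GaussianInt) :
    ∑ p ∈ B, ∑ q ∈ B, ∑ r ∈ B', ∑ s ∈ B', K * (dbA p * dbA q * (dbA r * dbA s)) =
      K * (dbS B ^ 2 * dbS B' ^ 2) := by
  unfold dbS
  rw [sq, sq, Finset.sum_mul_sum, Finset.sum_mul_sum, Finset.sum_mul, Finset.mul_sum]
  refine Finset.sum_congr rfl fun p _ => ?_
  rw [Finset.sum_mul, Finset.mul_sum]
  refine Finset.sum_congr rfl fun q _ => ?_
  rw [Finset.mul_sum, Finset.mul_sum]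
  refine Finset.sum_congr rfl fun r _ => ?_
  rw [Finset.mul_sum, Finset.mul_sum]

/-- different blocks -/
private lemma dbE_mul_le {C : ℝ} (hcnt : ∀ b : ℝ, 0 ≤ b → ((ann 0 b).card : ℝ) ≤ C * b) {X : ℝ}
    (hX : 0 ≤ X) {B B' : Finset GaussianInt} (hB : ∀ p ∈ B, IsPi p) (hB' : ∀ p ∈ B', IsPi p)
    (hd : Disjoint B B') :
    ∑ z ∈ ann 0 X, dbE B z * dbE B' z ≤ C * X * (dbS B ^ 2 * dbS B' ^ 2) := by
  rw [dbE_mul, ← db_sum4]
  refine Finset.sum_le_sum fun p hp => Finset.sum_le_sum fun q hq => Finset.sum_le_sum fun r hr =>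
    Finset.sum_le_sum fun s hs => ?_
  have hne : ∀ {x y}, x ∈ B → y ∈ B' → x ≠ y := fun hx hy h =>
    Finset.disjoint_left.1 hd hx (h ▸ hy)
  exact dbG_le1 hcnt hX (hB p hp) (hB q hq) (hB' r hr) (hB' s hs) (hne hp hr) (hne hp hs)
    (hne hq hr) (hne hq hs)

/-- same block -/
private lemma dbE_sq_le {C : ℝ} (hcnt : ∀ b : ℝ, 0 ≤ b → ((ann 0 b).card : ℝ) ≤ C * b) {X : ℝ}
    (hC : 0 ≤ C) (hX : 0 ≤ X) {B : Finset GaussianInt} (hB : ∀ p ∈ B, IsPi p) :
    ∑ z ∈ ann 0 X, dbE B z * dbE B z ≤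
      C * X * (dbS B ^ 2 * dbS B ^ 2) + 4 * (C * X * (dbS B ^ 3 + dbS B ^ 2)) := by
  classical
  have hK : ∑ p ∈ B, ∑ q ∈ B, ∑ s ∈ B, dbG X p q p s ≤ C * X * (dbS B ^ 3 + dbS B ^ 2) := by
    have h1 : ∑ p ∈ B, ∑ q ∈ B, ∑ s ∈ B, dbG X p q p s ≤ ∑ p ∈ B, ∑ q ∈ B, ∑ s ∈ B,
        C * X * (dbA p * dbA q * dbA s + if q = s then dbA p * dbA q else 0) :=
      Finset.sum_le_sum fun p hp => Finset.sum_le_sum fun q hq => Finset.sum_le_sum fun s hs =>
        dbG_le2 hcnt hC hX (hB p hp) (hB q hq) (hB s hs)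
    refine h1.trans (le_of_eq ?_)
    have h2 : ∀ p, ∀ q ∈ B, ∑ s ∈ B,
        C * X * (dbA p * dbA q * dbA s + if q = s then dbA p * dbA q else 0) =
        C * X * (dbA p * dbA q * dbS B + dbA p * dbA q) := by
      intro p q hq
      rw [← Finset.mul_sum, Finset.sum_add_distrib, ← Finset.mul_sum, Finset.sum_ite_eq,
        if_pos hq]
      rfl
    rw [Finset.sum_congr rfl fun p _ => Finset.sum_congr rfl fun q hq => h2 p q hq]
    have h3 : ∀ p, ∑ q ∈ B, C * X * (dbA p * dbA q * dbS B + dbA p * dbA q) =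
        C * X * ((dbS B ^ 2 + dbS B) * dbA p) := by
      intro p
      rw [← Finset.mul_sum, Finset.sum_add_distrib, ← Finset.sum_mul, ← Finset.mul_sum]
      change C * X * (dbA p * dbS B * dbS B + dbA p * dbS B) = _
      ring
    rw [Finset.sum_congr rfl fun p _ => h3 p, ← Finset.mul_sum, ← Finset.mul_sum]
    change C * X * ((dbS B ^ 2 + dbS B) * dbS B) = _
    ring
  have hK' : ∑ p ∈ B, ∑ q ∈ B, ∑ s ∈ B, dbG X q p q s ≤ C * X * (dbS B ^ 3 + dbS B ^ 2) := by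
    rw [Finset.sum_comm]; exact hK
  rw [dbE_mul]
  have h1 : ∑ p ∈ B, ∑ q ∈ B, ∑ r ∈ B, ∑ s ∈ B, dbG X p q r s ≤
      ∑ p ∈ B, ∑ q ∈ B, ∑ r ∈ B, ∑ s ∈ B,
      (C * X * (dbA p * dbA q * (dbA r * dbA s)) +
      (if r = p then dbG X p q p s else 0) + (if r = q then dbG X q p q s else 0) +
      (if s = p then dbG X p q p r else 0) + (if s = q then dbG X q p q r else 0)) :=
    Finset.sum_le_sum fun p hp => Finset.sum_le_sum fun q hq => Finset.sum_le_sum fun r hr =>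
      Finset.sum_le_sum fun s hs =>
        dbG_le3 hcnt hC hX (hB p hp) (hB q hq) (hB r hr) (hB s hs)
  refine h1.trans ?_
  simp only [Finset.sum_add_distrib]
  rw [db_sum4]
  have e1 : ∑ p ∈ B, ∑ q ∈ B, ∑ r ∈ B, ∑ s ∈ B, (if r = p then dbG X p q p s else 0) =
      ∑ p ∈ B, ∑ q ∈ B, ∑ s ∈ B, dbG X p q p s := by
    refine Finset.sum_congr rfl fun p hp => Finset.sum_congr rfl fun q _ => ?_
    rw [Finset.sum_comm]
    refine Finset.sum_congr rfl fun s _ => ?_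
    rw [Finset.sum_ite_eq', if_pos hp]
  have e2 : ∑ p ∈ B, ∑ q ∈ B, ∑ r ∈ B, ∑ s ∈ B, (if r = q then dbG X q p q s else 0) =
      ∑ p ∈ B, ∑ q ∈ B, ∑ s ∈ B, dbG X q p q s := by
    refine Finset.sum_congr rfl fun p _ => Finset.sum_congr rfl fun q hq => ?_
    rw [Finset.sum_comm]
    refine Finset.sum_congr rfl fun s _ => ?_
    rw [Finset.sum_ite_eq', if_pos hq]
  have e3 : ∑ p ∈ B, ∑ q ∈ B, ∑ r ∈ B, ∑ s ∈ B, (if s = p then dbG X p q p r else 0) =
      ∑ p ∈ B, ∑ q ∈ B, ∑ s ∈ B, dbG X p q p s := by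
    refine Finset.sum_congr rfl fun p hp => Finset.sum_congr rfl fun q _ => ?_
    refine Finset.sum_congr rfl fun r _ => ?_
    rw [Finset.sum_ite_eq', if_pos hp]
  have e4 : ∑ p ∈ B, ∑ q ∈ B, ∑ r ∈ B, ∑ s ∈ B, (if s = q then dbG X q p q r else 0) =
      ∑ p ∈ B, ∑ q ∈ B, ∑ s ∈ B, dbG X q p q s := by
    refine Finset.sum_congr rfl fun p _ => Finset.sum_congr rfl fun q hq => ?_
    refine Finset.sum_congr rfl fun r _ => ?_
    rw [Finset.sum_ite_eq', if_pos hq]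
  rw [e1, e2, e3, e4]
  linarith

theorem dbl_moment : ∃ C : ℝ, 0 < C ∧ ∀ (H a b : ℕ) (X : ℝ), 1 ≤ H → (H : ℝ) ≤ exp ((a : ℝ) / H) →
    a ≤ b → 0 ≤ X →
    ∑ z ∈ ann 0 X, ((dbl H a b z : ℕ) : ℝ) ^ 2 ≤ C * X * (WR H a b + 1) ^ 2 / H := by
  classical
  obtain ⟨C, hC, hcnt⟩ := card_ann_le
  refine ⟨80 * C, by positivity, fun H a b X hH hexp _ hX => ?_⟩
  have hH0 : (0 : ℝ) < H := by exact_mod_cast hH
  have hH1 : (1 : ℝ) ≤ H := by exact_mod_cast hH
  have hpi : ∀ v, ∀ p ∈ blk H v, IsPi p := fun v p hp => (mem_blk.1 hp).1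
  have hsv : ∀ v, dbS (blk H v) = sv H v := fun v => rfl
  -- size of one block
  have hsmall : ∀ v ∈ Finset.Ico a b, sv H v ≤ 4 / H := by
    intro v hv
    have h1 := sv_le hH v
    have h2 : exp (-((v : ℝ) / H)) ≤ 1 / H := by
      rw [exp_neg, inv_eq_one_div]
      refine one_div_le_one_div_of_le hH0 (hexp.trans (exp_le_exp.2 ?_))
      refine div_le_div_of_nonneg_right ?_ hH0.le
      exact_mod_cast (Finset.mem_Ico.1 hv).1
    calc sv H v ≤ 2 * (1 / H + exp (-((v : ℝ) / H))) := h1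
      _ ≤ 2 * (1 / H + 1 / H) := by linarith
      _ = 4 / H := by ring
  have hsv0 : ∀ v, 0 ≤ sv H v := fun v => by rw [← hsv]; exact dbS_nonneg _
  have hW0 : 0 ≤ WR H a b := Finset.sum_nonneg fun v _ => hsv0 v
  have hle : ∀ z, ((dbl H a b z : ℕ) : ℝ) ≤ ∑ v ∈ Finset.Ico a b, dbE (blk H v) z := by
    intro z
    unfold dbl
    rw [Nat.cast_sum]
    exact Finset.sum_le_sum fun v _ => dbE_card _ (hpi v) z
  have h1 : ∑ z ∈ ann 0 X, ((dbl H a b z : ℕ) : ℝ) ^ 2 ≤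
      ∑ v ∈ Finset.Ico a b, ∑ v' ∈ Finset.Ico a b,
        ∑ z ∈ ann 0 X, dbE (blk H v) z * dbE (blk H v') z := by
    have h2 : ∑ z ∈ ann 0 X, ((dbl H a b z : ℕ) : ℝ) ^ 2 ≤
        ∑ z ∈ ann 0 X, ∑ v ∈ Finset.Ico a b, ∑ v' ∈ Finset.Ico a b,
          dbE (blk H v) z * dbE (blk H v') z := by
      refine Finset.sum_le_sum fun z _ => ?_
      rw [← Finset.sum_mul_sum, ← sq]
      exact pow_le_pow_left₀ (Nat.cast_nonneg _) (hle z) 2
    refine h2.trans (le_of_eq ?_)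
    rw [Finset.sum_comm]
    refine Finset.sum_congr rfl fun v _ => ?_
    rw [Finset.sum_comm]
  refine h1.trans ?_
  have h2 : ∑ v ∈ Finset.Ico a b, ∑ v' ∈ Finset.Ico a b,
      ∑ z ∈ ann 0 X, dbE (blk H v) z * dbE (blk H v') z ≤
      ∑ v ∈ Finset.Ico a b, ∑ v' ∈ Finset.Ico a b,
        (C * X * (sv H v ^ 2 * sv H v' ^ 2) +
          if v' = v then 4 * (C * X * (sv H v ^ 3 + sv H v ^ 2)) else 0) := by
    refine Finset.sum_le_sum fun v _ => Finset.sum_le_sum fun v' _ => ?_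
    by_cases hv : v' = v
    · subst hv
      rw [if_pos rfl]
      exact dbE_sq_le hcnt hC.le hX (hpi v')
    · rw [if_neg hv, add_zero]
      exact dbE_mul_le hcnt hX (hpi v) (hpi v') (blk_disjoint hH (fun h => hv h.symm))
  refine h2.trans ?_
  have h3 : ∀ v ∈ Finset.Ico a b, ∑ v' ∈ Finset.Ico a b,
      (C * X * (sv H v ^ 2 * sv H v' ^ 2) +
          if v' = v then 4 * (C * X * (sv H v ^ 3 + sv H v ^ 2)) else 0) =
      C * X * (sv H v ^ 2 * ∑ v' ∈ Finset.Ico a b, sv H v' ^ 2) +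
        4 * (C * X * (sv H v ^ 3 + sv H v ^ 2)) := by
    intro v hv
    rw [Finset.sum_add_distrib, Finset.sum_ite_eq', if_pos hv, ← Finset.mul_sum,
      ← Finset.mul_sum]
  rw [Finset.sum_congr rfl h3, Finset.sum_add_distrib, ← Finset.mul_sum, ← Finset.sum_mul,
    ← Finset.mul_sum, ← Finset.mul_sum, Finset.sum_add_distrib]
  set S2 := ∑ v ∈ Finset.Ico a b, sv H v ^ 2 with hS2
  set S3 := ∑ v ∈ Finset.Ico a b, sv H v ^ 3 with hS3
  have b2 : S2 ≤ 4 / H * WR H a b := by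
    rw [hS2]; unfold WR; rw [Finset.mul_sum]
    refine Finset.sum_le_sum fun v hv => ?_
    rw [sq]; exact mul_le_mul_of_nonneg_right (hsmall v hv) (hsv0 v)
  have b20 : 0 ≤ S2 := Finset.sum_nonneg fun v _ => by positivity
  have b3 : S3 ≤ 4 / H * S2 := by
    rw [hS3, hS2, Finset.mul_sum]
    refine Finset.sum_le_sum fun v hv => ?_
    rw [pow_succ, mul_comm]; exact mul_le_mul_of_nonneg_right (hsmall v hv) (by positivity)
  have hHi : 1 / (H : ℝ) ≤ 1 := by rw [div_le_one hH0]; exact hH1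
  set W := WR H a b with hW
  set t := 1 / (H : ℝ) with ht
  have ht0 : 0 < t := by positivity
  have e4 : 4 / (H : ℝ) = 4 * t := by rw [ht]; ring
  rw [e4] at b2 b3
  have c2 : S2 ≤ 4 * t * W := b2
  have c3 : S3 ≤ 16 * t * W := by
    calc S3 ≤ 4 * t * S2 := b3
      _ ≤ 4 * 1 * (4 * t * W) := by
          apply mul_le_mul (by linarith) c2 b20 (by norm_num)
      _ = 16 * t * W := by ring
  have c4 : S2 * S2 ≤ 16 * t * W ^ 2 := by
    calc S2 * S2 ≤ (4 * t * W) * (4 * t * W) := mul_le_mul c2 c2 b20 (by positivity)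
      _ = 16 * t * W ^ 2 * t := by ring
      _ ≤ 16 * t * W ^ 2 * 1 := mul_le_mul_of_nonneg_left hHi (by positivity)
      _ = 16 * t * W ^ 2 := by ring
  have hCX : 0 ≤ C * X := by positivity
  have key : S2 * S2 + 4 * (S3 + S2) ≤ 80 * (W + 1) ^ 2 * t := by
    nlinarith [mul_nonneg ht0.le hW0, mul_nonneg ht0.le (sq_nonneg W)]
  calc C * X * (S2 * S2) + 4 * (C * X * (S3 + S2))
      = C * X * (S2 * S2 + 4 * (S3 + S2)) := by ring
    _ ≤ C * X * (80 * (W + 1) ^ 2 * t) := mul_le_mul_of_nonneg_left key hCX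
    _ = 80 * C * X * (W + 1) ^ 2 / H := by rw [ht]; ring

end Pool.Agent.NSqP
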