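import Pool.Agent.Lib.MP484c84Par.Path

/-!
# Positive proportion parity theorem for `n ^ 2 + 1`: definitions

Gaussian integers, the angular characters `xi z ^ m`, annuli, primitive elements, blocks of
Gaussian primes, and completely multiplicative functions bounded by one.
-/

set_option autoImplicit false

namespace Pool.Agent.NSqP

open Real
open Pool.Agent.MP484c84Par (ballG mem_ballG crossG badEdges CM F)

/-- the norm as a natural number -/
def nN (z : GaussianInt) : ℕ := z.norm.natAbs

/-- the unimodular number `z / |z|` (zero for `z = 0`) -/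
noncomputable def xi (z : GaussianInt) : ℂ := (z : ℂ) / ((‖(z : ℂ)‖ : ℝ) : ℂ)

/-- the content `gcd (re z) (im z)` -/
def cont (z : GaussianInt) : ℕ := Int.gcd z.re z.im

/-- primitive Gaussian integers -/
def Prim (z : GaussianInt) : Prop := cont z = 1

instance (z : GaussianInt) : Decidable (Prim z) := by unfold Prim; infer_instance

/-- Gaussian primes of odd prime norm in the open first quadrant -/
def IsPi (z : GaussianInt) : Prop := 0 < z.re ∧ 0 < z.im ∧ (nN z).Prime ∧ 2 < nN z

noncomputable instance (z : GaussianInt) : Decidable (IsPi z) := by unfold IsPi; infer_instance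

/-- the annulus `a < N z ≤ b` -/
noncomputable def ann (a b : ℝ) : Finset GaussianInt :=
  open Classical in (ballG ⌊b⌋₊).filter (fun z => a < (nN z : ℝ) ∧ (nN z : ℝ) ≤ b)

/-- primitive elements of the annulus -/
noncomputable def pann (a b : ℝ) : Finset GaussianInt :=
  open Classical in (ann a b).filter (fun z => Prim z)

/-- the block of Gaussian primes `exp (v/H) ≤ N π < exp ((v+1)/H)` -/
noncomputable def blk (H v : ℕ) : Finset GaussianInt :=
  open Classical in (ballG ⌊exp (((v : ℝ) + 1) / H)⌋₊).filter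
    (fun z => IsPi z ∧ exp ((v : ℝ) / H) ≤ (nN z : ℝ) ∧ (nN z : ℝ) < exp (((v : ℝ) + 1) / H))

/-- completely multiplicative functions on the nonzero Gaussian integers, bounded by one -/
structure CMC (f : GaussianInt → ℂ) : Prop where
  mul : ∀ z w, z ≠ 0 → w ≠ 0 → f (z * w) = f z * f w
  le : ∀ z, z ≠ 0 → ‖f z‖ ≤ 1

/-- `∑ f z ξ(z)^m` over the primitive `z` with `a < N z ≤ b` -/
noncomputable def Zs (f : GaussianInt → ℂ) (a b : ℝ) (m : ℤ) : ℂ :=
  ∑ z ∈ pann a b, f z * xi z ^ m

/-- `∑ f π ξ(π)^m` over a block -/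
noncomputable def Pb (f : GaussianInt → ℂ) (H v : ℕ) (m : ℤ) : ℂ :=
  ∑ z ∈ blk H v, f z * xi z ^ m

/-- primitive `w` with `x/2 < N w e^(v/H) ≤ x` without prime factor in the block `v` -/
noncomputable def Wset (H v : ℕ) (x : ℝ) : Finset GaussianInt :=
  open Classical in (pann (x / 2 * exp (-((v : ℝ) / H))) (x * exp (-((v : ℝ) / H)))).filter
    (fun w => ∀ q ∈ blk H v, ¬ q ∣ w)

/-- the cofactor polynomial -/
noncomputable def Rb (f : GaussianInt → ℂ) (H v : ℕ) (x : ℝ) (m : ℤ) : ℂ :=
  ∑ w ∈ Wset H v x, f w * xi w ^ m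

/-- `∑ 1 / N π` over a block -/
noncomputable def sv (H v : ℕ) : ℝ := ∑ z ∈ blk H v, 1 / (nN z : ℝ)

/-- `∑ 1 / N π` over a range of blocks -/
noncomputable def WR (H a b : ℕ) : ℝ := ∑ v ∈ Finset.Ico a b, sv H v

/-- all frequencies `|m| < M` -/
noncomputable def fr (M : ℕ) : Finset ℤ := Finset.Ioo (-(M : ℤ)) M

end Pool.Agent.NSqP
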