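import Pool.Agent.Lib.NSqP.Final
import Pool.Agent.Lib.NSqP.PC
import Pool.Agent.Lib.MP484c84Par.Minus

/-!
# END: from rigidity at one scale to Theorem A
Suppose `#badEdges g N ≤ c N`.  For all integers `X ∈ [N/(8p), N]`:
`#badEdges g X ≤ #badEdges g N ≤ 8 p c X`, so by `RIG` at most `ε #pann(X/2,X)` elements of
`pann (X/2) X` differ from the sign `s(X)`.  Consecutive scales `X, X'` with `X ≤ X' ≤ 1.1 X`
overlap in `pann (X'/2) X`, so `s` is constant.  Let `κ` have norm `p`, `F g κ = -1`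
(`exists_gauss`).  The `w ∈ pann (X/2) X`, `X = ⌊N/p⌋`, with `conj κ ∤ w` are at least
`0.8 X - 0.79 X`-ish many (`card_pann` gives `0.52 π /2 X = 0.8168 X`; multiples of `conj κ`:
`π X/(2p) ≤ 0.7854 X`), `κ w` is primitive, in `pann (pX/2) (pX)`, with `F (κ w) = - F w`:
contradiction for small `ε` (compare with the scale `p X ∈ (N - p, N]`).
-/

set_option autoImplicit false

namespace Pool.Agent.NSqP

open Real
open Pool.Agent.MP484c84Par (ballG mem_ballG crossG badEdges mem_badEdges CM F)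

private lemma end_small (C δ : ℝ) (hC : 0 < C) (hδ : 0 < δ) :
    ∃ X1 : ℝ, 1 ≤ X1 ∧ ∀ X : ℝ, X1 ≤ X → C * X ^ ((3 : ℝ) / 4) ≤ δ * X ∧ C * (√X + 1) ≤ δ * X := by
  refine ⟨max 1 ((2 * C / δ) ^ 4), le_max_left _ _, fun X hX => ?_⟩
  have h1 : 1 ≤ X := (le_max_left _ _).trans hX
  have h2 : (2 * C / δ) ^ 4 ≤ X := (le_max_right _ _).trans hX
  have hX0 : 0 < X := by linarith
  have h3 : 2 * C / δ ≤ X ^ ((1 : ℝ) / 4) := by
    have h4 : ((2 * C / δ) ^ 4) ^ ((1 : ℝ) / 4) ≤ X ^ ((1 : ℝ) / 4) :=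
      rpow_le_rpow (by positivity) h2 (by norm_num)
    have h5 : ((2 * C / δ) ^ 4) ^ ((1 : ℝ) / 4) = 2 * C / δ := by
      rw [← rpow_natCast, ← rpow_mul (by positivity)]
      norm_num
    linarith
  have h6 : X ^ ((3 : ℝ) / 4) * X ^ ((1 : ℝ) / 4) = X := by
    rw [← rpow_add hX0]; norm_num
  have h7 : 0 < X ^ ((3 : ℝ) / 4) := rpow_pos_of_pos hX0 _
  have h8 : 2 * C * X ^ ((3 : ℝ) / 4) ≤ δ * X := by
    rw [div_le_iff₀ hδ] at h3
    calc 2 * C * X ^ ((3 : ℝ) / 4) ≤ (X ^ ((1 : ℝ) / 4) * δ) * X ^ ((3 : ℝ) / 4) := by gcongr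
      _ = δ * (X ^ ((3 : ℝ) / 4) * X ^ ((1 : ℝ) / 4)) := by ring
      _ = δ * X := by rw [h6]
  have h9 : √X ≤ X ^ ((3 : ℝ) / 4) := by
    rw [sqrt_eq_rpow]
    exact rpow_le_rpow_of_exponent_le h1 (by norm_num)
  have h10 : 1 ≤ X ^ ((3 : ℝ) / 4) := one_le_rpow h1 (by norm_num)
  constructor
  · nlinarith
  · nlinarith

private lemma end_prim {p : ℕ} (hp : p.Prime) {κ w : GaussianInt} (hκ : κ.norm = p)
    (hw : Prim w) (hd : ¬ star κ ∣ w) : Prim (κ * w) := by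
  unfold Prim cont at *
  by_contra hne
  obtain ⟨q, hq, hqd⟩ := Nat.exists_prime_and_dvd hne
  have hκ0 : κ ≠ 0 := by
    rintro rfl
    simp at hκ
    have := hp.pos
    omega
  have hre : ((q : ℕ) : ℤ) ∣ (κ * w).re := by
    have h1 : ((q : ℕ) : ℤ) ∣ ((Int.gcd (κ * w).re (κ * w).im : ℕ) : ℤ) := by exact_mod_cast hqd
    exact h1.trans (Int.gcd_dvd_left ..)
  have him : ((q : ℕ) : ℤ) ∣ (κ * w).im := by
    have h1 : ((q : ℕ) : ℤ) ∣ ((Int.gcd (κ * w).re (κ * w).im : ℕ) : ℤ) := by exact_mod_cast hqd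
    exact h1.trans (Int.gcd_dvd_right ..)
  have hdvd : ((q : ℤ) : GaussianInt) ∣ κ * w := by
    rw [Zsqrtd.intCast_dvd]
    exact ⟨hre, him⟩
  by_cases hqp : q = p
  · subst hqp
    apply hd
    have h2 : ((q : ℤ) : GaussianInt) = κ * star κ := by
      rw [← hκ, Zsqrtd.norm_eq_mul_conj]
    rw [h2] at hdvd
    exact (mul_dvd_mul_iff_left hκ0).1 hdvd
  · have h3 : ((q : ℤ) : GaussianInt) ∣ ((p : ℤ) : GaussianInt) * w := by
      have h4 : ((p : ℤ) : GaussianInt) * w = star κ * (κ * w) := by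
        rw [← hκ, Zsqrtd.norm_eq_mul_conj]; ring
      rw [h4]
      exact hdvd.mul_left _
    rw [Zsqrtd.intCast_dvd] at h3
    have hcop : IsCoprime (q : ℤ) (p : ℤ) := by
      rw [Nat.isCoprime_iff_coprime]
      exact (Nat.coprime_primes hq hp).2 hqp
    have h5 : (q : ℤ) ∣ w.re := by
      have h6 := h3.1
      simp only [Zsqrtd.re_mul, Zsqrtd.re_intCast, Zsqrtd.im_intCast] at h6
      have h7 : (q : ℤ) ∣ (p : ℤ) * w.re := by simpa using h6
      exact hcop.dvd_of_dvd_mul_left h7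
    have h8 : (q : ℤ) ∣ w.im := by
      have h6 := h3.2
      simp only [Zsqrtd.im_mul, Zsqrtd.re_intCast, Zsqrtd.im_intCast] at h6
      have h7 : (q : ℤ) ∣ (p : ℤ) * w.im := by simpa using h6
      exact hcop.dvd_of_dvd_mul_left h7
    have h9 : q ∣ Int.gcd w.re w.im := by
      have := Int.dvd_coe_gcd h5 h8
      exact_mod_cast this
    rw [hw] at h9
    exact hq.one_lt.ne' (Nat.dvd_one.1 h9)

open Classical in
private noncomputable def endB (g : ℕ → ℤ) (s : ℤ) (X : ℕ) : Finset GaussianInt :=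
  (pann ((X : ℝ) / 2) X).filter (fun z => F g z ≠ s)

private lemma end_sum {g : ℕ → ℤ} (hg : CM g) {s : ℤ} (hs : s = 1 ∨ s = -1) (X : ℕ) :
    (s : ℝ) * ∑ z ∈ pann ((X : ℝ) / 2) X, (F g z : ℝ) =
      ((pann ((X : ℝ) / 2) X).card : ℝ) - 2 * ((endB g s X).card : ℝ) := by
  classical
  have h1 : ((endB g s X).card : ℝ) =
      ∑ z ∈ pann ((X : ℝ) / 2) X, if F g z ≠ s then (1 : ℝ) else 0 := by
    unfold endB
    rw [Finset.card_filter]
    push_cast
    rfl
  rw [h1, Finset.card_eq_sum_ones]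
  push_cast
  rw [Finset.mul_sum, Finset.mul_sum, ← Finset.sum_sub_distrib]
  refine Finset.sum_congr rfl fun z hz => ?_
  have hz0 : z ≠ 0 := by
    rw [mem_pann (Nat.cast_nonneg _)] at hz
    exact prim_ne_zero hz.2
  rcases Pool.Agent.MP484c84Par.F_sign hg hz0 with h2 | h2 <;> rcases hs with h3 | h3 <;>
    rw [h2, h3] <;> norm_num

private lemma end_dich {g : ℕ → ℤ} (hg : CM g) {ε : ℝ} {X : ℕ}
    (h : (1 - ε) * ((pann ((X : ℝ) / 2) X).card : ℝ) ≤
      |∑ z ∈ pann ((X : ℝ) / 2) X, (F g z : ℝ)|) :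
    2 * ((endB g 1 X).card : ℝ) ≤ ε * ((pann ((X : ℝ) / 2) X).card : ℝ) ∨
    2 * ((endB g (-1) X).card : ℝ) ≤ ε * ((pann ((X : ℝ) / 2) X).card : ℝ) := by
  have h1 := end_sum hg (Or.inl rfl : (1 : ℤ) = 1 ∨ (1 : ℤ) = -1) X
  have h2 := end_sum hg (Or.inr rfl : (-1 : ℤ) = 1 ∨ (-1 : ℤ) = -1) X
  push_cast at h1 h2
  rcases abs_cases (∑ z ∈ pann ((X : ℝ) / 2) X, (F g z : ℝ)) with h3 | h3
  · left; linarith [h3.1]
  · right; linarith [h3.1]

theorem THMA (p : ℕ) (hp : p.Prime) (hp4 : p = 2 ∨ p % 4 = 1) :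
    ∃ c : ℝ, 0 < c ∧ ∃ N0 : ℕ, ∀ g : ℕ → ℤ, CM g → g p = -1 → ∀ N : ℕ, N0 ≤ N →
      c * N ≤ ((badEdges g N).card : ℝ) := by
  classical
  have hp2 : (2 : ℝ) ≤ p := by exact_mod_cast hp.two_le
  obtain ⟨κ, hκ⟩ := Pool.Agent.MP484c84Par.exists_gauss hp hp4
  have hκ0 : κ ≠ 0 := by
    rintro rfl
    simp at hκ
    have := hp.pos
    omega
  have hκn : nN κ = p := by unfold nN; rw [hκ, Int.natAbs_natCast]
  have hsκ0 : star κ ≠ 0 := by simpa using hκ0
  have hsκn : nN (star κ) = p := by rw [nN_star, hκn]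
  set ε : ℝ := 1 / (100 * (p + 1)) with hε
  have hε0 : 0 < ε := by positivity
  have hεp : ε * (p + 1) = 1 / 100 := by rw [hε]; field_simp
  have hεs : ε ≤ 1 / 300 := by nlinarith
  obtain ⟨η, hη, N1, hRIG⟩ := RIG ε hε0
  obtain ⟨C1, hC1, hann⟩ := card_ann
  obtain ⟨C2, hC2, hpann⟩ := card_pann
  set δ : ℝ := 1 / 1000 with hδ
  obtain ⟨X1, hX1, hsm⟩ := end_small (C1 + C2) δ (by positivity) (by norm_num)
  -- bounds
  have hπ : 3.14 < π := pi_gt_d2
  have hπ' : π < 3.15 := pi_lt_d2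
  have hup : ∀ a b : ℝ, 0 ≤ a → a ≤ b → X1 ≤ b → ((ann a b).card : ℝ) ≤ π * (b - a) + δ * b := by
    intro a b ha hab hb
    have h1 := (abs_le.1 (hann a b ha hab)).2
    have h2 := (hsm b hb).2
    have h3 : C1 * (√b + 1) ≤ (C1 + C2) * (√b + 1) := by
      have := sqrt_nonneg b
      gcongr; linarith
    linarith
  have hlo : ∀ a b : ℝ, 0 ≤ a → a ≤ b → X1 ≤ b →
      0.52 * π * (b - a) - δ * b ≤ ((pann a b).card : ℝ) := by
    intro a b ha hab hb
    have h1 := hpann a b ha hab (hX1.trans hb)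
    have h2 := (hsm b hb).1
    have h3 : C2 * b ^ ((3 : ℝ) / 4) ≤ (C1 + C2) * b ^ ((3 : ℝ) / 4) := by
      have : 0 ≤ b ^ ((3 : ℝ) / 4) := rpow_nonneg (by linarith) _
      gcongr; linarith
    linarith
  have hPup : ∀ X : ℕ, X1 ≤ X → ((pann ((X : ℝ) / 2) X).card : ℝ) ≤ (π / 2 + δ) * X := by
    intro X hX
    have h0 : (0 : ℝ) ≤ X := Nat.cast_nonneg _
    have h1 := hup ((X : ℝ) / 2) X (by positivity) (by linarith) hX
    have h2 : ((pann ((X : ℝ) / 2) X).card : ℝ) ≤ ((ann ((X : ℝ) / 2) X).card : ℝ) := by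
      exact_mod_cast Finset.card_le_card (pann_subset _ _)
    nlinarith
  refine ⟨min (η / (2 * p)) 1 / 2, by positivity, p * (N1 + ⌈X1⌉₊ * p + 1000) + p, ?_⟩
  intro g hg hgp N hN
  by_contra hcon
  push Not at hcon
  have hFκ : F g κ = -1 := by
    unfold F
    rw [hκ, Int.natAbs_natCast, hgp]
  have hppos : 0 < p := hp.pos
  set X0 : ℕ := N / p with hX0
  have hX0ge : N1 + ⌈X1⌉₊ * p + 1000 + 1 ≤ X0 := by
    rw [hX0, Nat.le_div_iff_mul_le hppos]
    nlinarith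
  have hpX0 : p * X0 ≤ N := Nat.mul_div_le N p
  have hNlt : N < p * (X0 + 1) := by
    have := Nat.lt_mul_div_succ N hppos
    exact this
  have hX0r : X1 * p ≤ X0 := by
    have h1 : X1 ≤ ⌈X1⌉₊ := Nat.le_ceil _
    have h2 : ((⌈X1⌉₊ * p : ℕ) : ℝ) ≤ X0 := by exact_mod_cast (by omega)
    push_cast at h2
    nlinarith
  have hX0big : (1000 : ℝ) ≤ X0 := by exact_mod_cast (by omega)
  have hX0N1 : N1 ≤ X0 := by omega
  have hX1le : X1 ≤ X0 := by nlinarith
  -- rigidity on the range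
  have hmono : ∀ X : ℕ, X ≤ N → (badEdges g X).card ≤ (badEdges g N).card := by
    intro X hX
    apply Finset.card_le_card
    intro e he
    rw [mem_badEdges] at he ⊢
    have : (X : ℤ) ≤ N := by exact_mod_cast hX
    exact ⟨he.1.trans this, he.2.1.trans this, he.2.2⟩
  have hrig : ∀ X : ℕ, X0 ≤ X → X ≤ N →
      (1 - ε) * ((pann ((X : ℝ) / 2) X).card : ℝ) ≤
        |∑ z ∈ pann ((X : ℝ) / 2) X, (F g z : ℝ)| := by
    intro X h1 h2
    apply hRIG X (hX0N1.trans h1) g hg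
    have h3 : ((badEdges g X).card : ℝ) ≤ ((badEdges g N).card : ℝ) := by
      exact_mod_cast hmono X h2
    have h4 : (N : ℝ) ≤ 2 * p * X := by
      have h5 : (N : ℝ) < p * (X0 + 1) := by exact_mod_cast hNlt
      have h6 : (X0 : ℝ) ≤ X := by exact_mod_cast h1
      have h7 : (X0 : ℝ) + 1 ≤ 2 * X := by linarith
      have h8 : (p : ℝ) * (X0 + 1) ≤ p * (2 * X) := by gcongr
      linarith
    have h5 : min (η / (2 * p)) 1 / 2 ≤ η / (2 * p) := by
      have h9 : min (η / (2 * p)) 1 ≤ η / (2 * p) := min_le_left _ _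
      have h10 : 0 < min (η / (2 * p)) 1 := by positivity
      linarith
    have hN0 : (0 : ℝ) ≤ N := Nat.cast_nonneg _
    calc ((badEdges g X).card : ℝ) ≤ min (η / (2 * p)) 1 / 2 * N := by linarith
      _ ≤ η / (2 * p) * (2 * p * X) := by gcongr
      _ = η * X := by field_simp
  have hdich := fun X h1 h2 => end_dich hg (hrig X h1 h2)
  -- constancy of the sign
  have hstep : ∀ s : ℤ, s = 1 ∨ s = -1 → ∀ X : ℕ, X0 ≤ X → X + 1 ≤ N →
      2 * ((endB g s X).card : ℝ) ≤ ε * ((pann ((X : ℝ) / 2) X).card : ℝ) →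
      2 * ((endB g s (X + 1)).card : ℝ) ≤
        ε * ((pann (((X + 1 : ℕ) : ℝ) / 2) ((X + 1 : ℕ) : ℝ)).card : ℝ) := by
    intro s hs X h1 h2 h3
    by_contra hne
    have h4 : 2 * ((endB g (-s) (X + 1)).card : ℝ) ≤
        ε * ((pann (((X + 1 : ℕ) : ℝ) / 2) ((X + 1 : ℕ) : ℝ)).card : ℝ) := by
      rcases hdich (X + 1) (by omega) h2 with h5 | h5
      · rcases hs with rfl | rfl
        · exact absurd h5 hne
        · simpa using h5
      · rcases hs with rfl | rfl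
        · simpa using h5
        · exact absurd h5 hne
    have hXr : (1000 : ℝ) ≤ X := hX0big.trans (by exact_mod_cast h1)
    have hX1r : X1 ≤ X := hX1le.trans (by exact_mod_cast h1)
    have hsub : pann (((X + 1 : ℕ) : ℝ) / 2) X ⊆ endB g s X ∪ endB g (-s) (X + 1) := by
      intro z hz
      rw [mem_pann (Nat.cast_nonneg _)] at hz
      push_cast at hz
      have hz0 := prim_ne_zero hz.2
      rw [Finset.mem_union]
      unfold endB
      rw [Finset.mem_filter, Finset.mem_filter, mem_pann (Nat.cast_nonneg _),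
        mem_pann (Nat.cast_nonneg _)]
      push_cast
      by_cases hF : F g z = s
      · right
        refine ⟨⟨⟨hz.1.1, by linarith [hz.1.2]⟩, hz.2⟩, ?_⟩
        rw [hF]
        rcases hs with rfl | rfl <;> norm_num
      · left
        exact ⟨⟨⟨by linarith [hz.1.1], hz.1.2⟩, hz.2⟩, hF⟩
    have hcard : ((pann (((X + 1 : ℕ) : ℝ) / 2) X).card : ℝ) ≤
        ((endB g s X).card : ℝ) + ((endB g (-s) (X + 1)).card : ℝ) := by
      exact_mod_cast (Finset.card_le_card hsub).trans (Finset.card_union_le _ _)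
    have h6 := hlo (((X + 1 : ℕ) : ℝ) / 2) X (by positivity) (by push_cast; linarith) hX1r
    have h7 := hPup X hX1r
    have h8 := hPup (X + 1) (by push_cast; linarith)
    push_cast at h6 h8 hcard h4 h3
    have h9 : ε * ((pann ((X : ℝ) / 2) X).card : ℝ) ≤ 1 / 300 * ((π / 2 + δ) * X) := by
      gcongr
    have h10 : ε * ((pann (((X : ℝ) + 1) / 2) ((X : ℝ) + 1)).card : ℝ) ≤
        1 / 300 * ((π / 2 + δ) * (X + 1)) := by
      gcongr
    rw [hδ] at *
    nlinarith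
  have hall : ∀ s : ℤ, s = 1 ∨ s = -1 →
      2 * ((endB g s X0).card : ℝ) ≤ ε * ((pann ((X0 : ℝ) / 2) X0).card : ℝ) →
      ∀ X : ℕ, X0 ≤ X → X ≤ N →
      2 * ((endB g s X).card : ℝ) ≤ ε * ((pann ((X : ℝ) / 2) X).card : ℝ) := by
    intro s hs h0 X h1
    induction X, h1 using Nat.le_induction with
    | base => intro _; exact h0
    | succ n hn ih =>
      intro h2
      exact hstep s hs n hn h2 (ih (by omega))
  have hX0N : X0 ≤ N := Nat.div_le_self _ _
  obtain ⟨s, hs, hs0⟩ : ∃ s : ℤ, (s = 1 ∨ s = -1) ∧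
      2 * ((endB g s X0).card : ℝ) ≤ ε * ((pann ((X0 : ℝ) / 2) X0).card : ℝ) := by
    rcases hdich X0 le_rfl hX0N with h | h
    · exact ⟨1, Or.inl rfl, h⟩
    · exact ⟨-1, Or.inr rfl, h⟩
  have hX0pX0 : X0 ≤ p * X0 := Nat.le_mul_of_pos_left _ hppos
  have hsp := hall s hs hs0 (p * X0) hX0pX0 hpX0
  -- the set A
  set A := (pann ((X0 : ℝ) / 2) X0).filter (fun w => ¬ star κ ∣ w) with hA
  have hAlow : 0.26 * π * X0 - δ * X0 - (π * (X0 / (2 * p)) + δ * X0) ≤ (A.card : ℝ) := by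
    have h1 : ((pann ((X0 : ℝ) / 2) X0).filter (fun w => star κ ∣ w)).card + A.card =
        (pann ((X0 : ℝ) / 2) X0).card := Finset.card_filter_add_card_filter_not _
    have h2 : ((pann ((X0 : ℝ) / 2) X0).filter (fun w => star κ ∣ w)).card ≤
        ((ann ((X0 : ℝ) / 2) X0).filter (fun w => star κ ∣ w)).card :=
      Finset.card_le_card (Finset.filter_subset_filter _ (pann_subset _ _))
    have h3 := card_dvd hsκ0 (show (0 : ℝ) ≤ (X0 : ℝ) / 2 by positivity)
      (show (0 : ℝ) ≤ (X0 : ℝ) by positivity)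
    rw [hsκn] at h3
    have h4 := hup ((X0 : ℝ) / 2 / p) ((X0 : ℝ) / p) (by positivity)
      (by gcongr; linarith [(Nat.cast_nonneg X0 : (0 : ℝ) ≤ X0)])
      (by rw [le_div_iff₀ (by linarith)]; exact hX0r)
    have h5 := hlo ((X0 : ℝ) / 2) X0 (by positivity)
      (by linarith [(Nat.cast_nonneg X0 : (0 : ℝ) ≤ X0)]) hX1le
    have h6 : (((pann ((X0 : ℝ) / 2) X0).filter (fun w => star κ ∣ w)).card : ℝ) ≤
        ((ann ((X0 : ℝ) / 2 / p) ((X0 : ℝ) / p)).card : ℝ) := by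
      rw [← h3]; exact_mod_cast h2
    have h7 : (((pann ((X0 : ℝ) / 2) X0).filter (fun w => star κ ∣ w)).card : ℝ) + (A.card : ℝ) =
        ((pann ((X0 : ℝ) / 2) X0).card : ℝ) := by exact_mod_cast h1
    have h8 : (X0 : ℝ) / p - (X0 : ℝ) / 2 / p = X0 / (2 * p) := by
      field_simp
      ring
    rw [h8] at h4
    have h9 : δ * ((X0 : ℝ) / p) ≤ δ * X0 := by
      have : (X0 : ℝ) / p ≤ X0 := by
        apply div_le_self (Nat.cast_nonneg _); linarith
      gcongr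
    nlinarith
  have hAup : (A.card : ℝ) ≤ ((endB g s X0).card : ℝ) + ((endB g s (p * X0)).card : ℝ) := by
    have h1 : A ⊆ endB g s X0 ∪ A.filter (fun w => F g w = s) := by
      intro w hw
      rw [Finset.mem_union]
      by_cases hF : F g w = s
      · right; exact Finset.mem_filter.2 ⟨hw, hF⟩
      · left
        unfold endB
        exact Finset.mem_filter.2 ⟨(Finset.mem_filter.1 hw).1, hF⟩
    have h2 : (A.filter (fun w => F g w = s)).card ≤ (endB g s (p * X0)).card := by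
      apply Finset.card_le_card_of_injOn (fun w => κ * w)
      · intro w hw
        rw [Finset.mem_coe, Finset.mem_filter, hA, Finset.mem_filter,
          mem_pann (Nat.cast_nonneg _)] at hw
        obtain ⟨⟨⟨⟨h3, h4⟩, h5⟩, h6⟩, h7⟩ := hw
        have hw0 := prim_ne_zero h5
        rw [Finset.mem_coe]
        unfold endB
        rw [Finset.mem_filter, mem_pann (Nat.cast_nonneg _), nN_mul, hκn]
        push_cast
        refine ⟨⟨⟨?_, ?_⟩, end_prim hp hκ h5 h6⟩, ?_⟩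
        · have : (p : ℝ) * (X0 / 2) < p * nN w := by gcongr
          linarith
        · gcongr
        · show F g (κ * w) ≠ s
          rw [Pool.Agent.MP484c84Par.F_mul hg hκ0 hw0, hFκ, h7]
          rcases hs with rfl | rfl <;> norm_num
      · intro a _ b _ hab
        exact mul_left_cancel₀ hκ0 hab
    have h3 : A.card ≤ (endB g s X0).card + (endB g s (p * X0)).card :=
      ((Finset.card_le_card h1).trans (Finset.card_union_le _ _)).trans (by omega)
    exact_mod_cast h3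
  have h1 := hPup X0 hX1le
  have h2 := hPup (p * X0) (hX1le.trans (by exact_mod_cast hX0pX0))
  push_cast at h2 hsp
  have h3 : ε * ((pann ((X0 : ℝ) / 2) X0).card : ℝ) +
      ε * ((pann ((p : ℝ) * X0 / 2) (p * X0)).card : ℝ) ≤ (π / 2 + δ) * (X0 / 100) := by
    calc ε * ((pann ((X0 : ℝ) / 2) X0).card : ℝ) +
        ε * ((pann ((p : ℝ) * X0 / 2) (p * X0)).card : ℝ)
        ≤ ε * ((π / 2 + δ) * X0) + ε * ((π / 2 + δ) * (p * X0)) := by gcongr
      _ = (π / 2 + δ) * (ε * (p + 1) * X0) := by ring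
      _ = (π / 2 + δ) * (X0 / 100) := by rw [hεp]; ring
  have h4 : (X0 : ℝ) / (2 * p) ≤ X0 / 4 := by
    have : (0 : ℝ) ≤ X0 := Nat.cast_nonneg _
    gcongr; linarith
  have h5 : π * (X0 / (2 * p)) ≤ π * (X0 / 4) := by gcongr
  rw [hδ] at *
  nlinarith

end Pool.Agent.NSqP
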