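import Pool.Agent.Lib.NSqP.PiF

/-!
# EXPM: exponential moments of the number of prime factors in one block
`exp (#A) = ∑_{B ⊆ A} (e-1)^#B` with `A` the set of elements of the block dividing `z`; exchange
the sums, `card_all_dvd` and `card_ann_le`: `≤ C X ∏ (1 + (e-1)/N π) ≤ C X exp (2 sv)`, `sv ≤ 4`.
Contents: `Rset` = integers all of whose prime factors are norms of elements of the block (and
`≤ K`).  `∑ 1/r ≤ ∏ (1 - 1/p)⁻¹ ≤ C` because `∑ 1/p` over the block is at most `1/H + e^(-v/H)`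
and `p ≥ 5`.  `cont_exp`: `z = r z0`, `#{π ∣ z} ≤ 2 ω(r) + #{π ∣ z0}`, and
`∑_r r e^(2ω(r)) C X / r^2 ≤ C X ∏ (1 + e^2/(p-1)) ≤ C' X`.
-/

set_option autoImplicit false

namespace Pool.Agent.NSqP

open Real
open Pool.Agent.MP484c84Par (ballG mem_ballG crossG badEdges mem_badEdges CM F)

private lemma sv_le_four {H : ℕ} (hH : 1 ≤ H) (v : ℕ) : sv H v ≤ 4 := by
  refine (sv_le hH v).trans ?_
  have h1 : (1 : ℝ) / H ≤ 1 := by
    rw [div_le_one (by exact_mod_cast hH)]
    exact_mod_cast hH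
  have h2 : exp (-((v : ℝ) / H)) ≤ 1 := by
    rw [Real.exp_le_one_iff, neg_nonpos]
    positivity
  linarith

open Classical in
theorem exp_moment : ∃ C : ℝ, 0 < C ∧ ∀ (H v : ℕ) (X : ℝ), 1 ≤ H → 0 ≤ X →
    ∑ z ∈ ann 0 X, exp (((blk H v).filter (fun p => p ∣ z)).card : ℝ) ≤ C * X := by
  obtain ⟨C, hC, hCb⟩ := card_ann_le
  refine ⟨C * exp 8, by positivity, fun H v X hH hX => ?_⟩
  have he : (0 : ℝ) ≤ exp 1 - 1 := by
    have := Real.add_one_le_exp (1 : ℝ)
    linarith
  have he2 : exp 1 - 1 ≤ 2 := by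
    have := Real.exp_one_lt_d9
    linarith
  have hN : ∀ p ∈ blk H v, (0 : ℝ) < nN p := fun p hp => by
    exact_mod_cast nN_pos (mem_blk.1 hp).1.ne_zero
  -- expansion
  have h1 : ∀ z, exp (((blk H v).filter (fun p => p ∣ z)).card : ℝ) =
      ∑ B ∈ (blk H v).powerset, if (∀ p ∈ B, p ∣ z) then (exp 1 - 1) ^ B.card else 0 := by
    intro z
    have h2 : exp (((blk H v).filter (fun p => p ∣ z)).card : ℝ) =
        ∏ p ∈ (blk H v).filter (fun p => p ∣ z), ((exp 1 - 1) + 1) := by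
      rw [Finset.prod_const, sub_add_cancel, ← Real.exp_nat_mul, mul_one]
    rw [h2, Finset.prod_add_one, ← Finset.sum_filter]
    have h3 : ((blk H v).filter (fun p => p ∣ z)).powerset =
        (blk H v).powerset.filter (fun B => ∀ p ∈ B, p ∣ z) := by
      ext B
      simp only [Finset.mem_powerset, Finset.mem_filter]
      constructor
      · intro h
        exact ⟨fun p hp => (Finset.mem_filter.1 (h hp)).1,
          fun p hp => (Finset.mem_filter.1 (h hp)).2⟩
      · rintro ⟨ha, hb⟩ p hp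
        exact Finset.mem_filter.2 ⟨ha hp, hb p hp⟩
    rw [h3]
    refine Finset.sum_congr rfl fun B _ => ?_
    rw [Finset.prod_const]
  have h4 : ∑ z ∈ ann 0 X, exp (((blk H v).filter (fun p => p ∣ z)).card : ℝ) =
      ∑ B ∈ (blk H v).powerset,
        (exp 1 - 1) ^ B.card * (((ann 0 X).filter (fun z => ∀ p ∈ B, p ∣ z)).card : ℝ) := by
    rw [Finset.sum_congr rfl (fun z _ => h1 z), Finset.sum_comm]
    refine Finset.sum_congr rfl fun B _ => ?_
    rw [← Finset.sum_filter, Finset.sum_const, nsmul_eq_mul, mul_comm]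
  rw [h4]
  have h5 : ∀ B ∈ (blk H v).powerset,
      (exp 1 - 1) ^ B.card * (((ann 0 X).filter (fun z => ∀ p ∈ B, p ∣ z)).card : ℝ) ≤
        C * X * ∏ p ∈ B, ((exp 1 - 1) / nN p) := by
    intro B hB
    have hB' : B ⊆ blk H v := Finset.mem_powerset.1 hB
    have hP : (0 : ℝ) < ∏ p ∈ B, (nN p : ℝ) := Finset.prod_pos fun p hp => hN p (hB' hp)
    have h6 := card_all_dvd B (fun p hp => (mem_blk.1 (hB' hp)).1) (le_refl (0 : ℝ)) hX
    rw [h6, zero_div]
    have h7 := hCb (X / ∏ p ∈ B, (nN p : ℝ)) (by positivity)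
    have h8 : ∏ p ∈ B, ((exp 1 - 1) / (nN p : ℝ)) =
        (exp 1 - 1) ^ B.card / ∏ p ∈ B, (nN p : ℝ) := by
      rw [Finset.prod_div_distrib, Finset.prod_const]
    rw [h8]
    calc (exp 1 - 1) ^ B.card * ((ann 0 (X / ∏ p ∈ B, (nN p : ℝ))).card : ℝ)
        ≤ (exp 1 - 1) ^ B.card * (C * (X / ∏ p ∈ B, (nN p : ℝ))) :=
          mul_le_mul_of_nonneg_left h7 (pow_nonneg he _)
      _ = C * X * ((exp 1 - 1) ^ B.card / ∏ p ∈ B, (nN p : ℝ)) := by ring
  refine (Finset.sum_le_sum h5).trans ?_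
  rw [← Finset.mul_sum, ← Finset.prod_one_add]
  have h9 : ∏ p ∈ blk H v, (1 + (exp 1 - 1) / (nN p : ℝ)) ≤ exp 8 := by
    calc ∏ p ∈ blk H v, (1 + (exp 1 - 1) / (nN p : ℝ))
        ≤ ∏ p ∈ blk H v, exp (2 * (1 / (nN p : ℝ))) := by
          refine Finset.prod_le_prod (fun p hp => ?_) (fun p hp => ?_)
          · have := hN p hp
            positivity
          · have h0 := hN p hp
            have h10 : (exp 1 - 1) / (nN p : ℝ) ≤ 2 * (1 / (nN p : ℝ)) := by
              rw [mul_one_div]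
              exact div_le_div_of_nonneg_right he2 h0.le
            have := Real.add_one_le_exp (2 * (1 / (nN p : ℝ)))
            linarith
      _ = exp (2 * sv H v) := by
          rw [← Real.exp_sum, ← Finset.mul_sum]
          rfl
      _ ≤ exp 8 := by
          rw [Real.exp_le_exp]
          linarith [sv_le_four hH v]
  calc C * X * ∏ p ∈ blk H v, (1 + (exp 1 - 1) / (nN p : ℝ)) ≤ C * X * exp 8 :=
        mul_le_mul_of_nonneg_left h9 (by positivity)
    _ = C * exp 8 * X := by ring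

open Classical in
/-- contents composed of norms of block elements -/
noncomputable def Rset (H v K : ℕ) : Finset ℕ :=
  (Finset.Icc 1 K).filter (fun r => ∀ p : ℕ, p.Prime → p ∣ r → ∃ z ∈ blk H v, nN z = p)

private lemma mem_Rset {H v K r : ℕ} : r ∈ Rset H v K ↔ (1 ≤ r ∧ r ≤ K) ∧
    ∀ p : ℕ, p.Prime → p ∣ r → ∃ z ∈ blk H v, nN z = p := by
  classical
  unfold Rset
  rw [Finset.mem_filter, Finset.mem_Icc]

/-- the multiplicative function `e ^ (2 ω(r)) / r` -/
private noncomputable def om (r : ℕ) : ℝ := exp (2 * (r.primeFactors.card : ℝ)) / r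

private lemma om_nonneg (r : ℕ) : 0 ≤ om r := by unfold om; positivity

private lemma om_one : om 1 = 1 := by simp [om]

private lemma om_mul {m n : ℕ} (h : Nat.Coprime m n) : om (m * n) = om m * om n := by
  unfold om
  rw [Nat.Coprime.primeFactors_mul h, Finset.card_union_of_disjoint h.disjoint_primeFactors]
  push_cast
  rw [mul_add, Real.exp_add, mul_div_mul_comm]

private lemma om_pow {p : ℕ} (hp : p.Prime) (n : ℕ) :
    om (p ^ (n + 1)) = exp 2 * ((1 : ℝ) / p) * (1 / p) ^ n := by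
  unfold om
  rw [Nat.primeFactors_prime_pow (Nat.succ_ne_zero n) hp, Finset.card_singleton]
  have : (p : ℝ) ≠ 0 := by exact_mod_cast hp.ne_zero
  push_cast
  rw [mul_one, pow_succ, one_div, inv_pow]
  field_simp

private lemma om_hasSum {p : ℕ} (hp : p.Prime) :
    HasSum (fun n : ℕ => om (p ^ n)) (1 + exp 2 * ((1 : ℝ) / p) * (1 - (1 : ℝ) / p)⁻¹) := by
  have hp1 : (1 : ℝ) / p < 1 := by
    rw [div_lt_one (by exact_mod_cast hp.pos)]
    exact_mod_cast hp.one_lt
  have h1 : HasSum (fun n : ℕ => om (p ^ (n + 1)))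
      (exp 2 * ((1 : ℝ) / p) * (1 - (1 : ℝ) / p)⁻¹) := by
    have h2 := (hasSum_geometric_of_lt_one (by positivity) hp1).mul_left (exp 2 * ((1 : ℝ) / p))
    have h3 : (fun n : ℕ => om (p ^ (n + 1))) =
        fun n : ℕ => exp 2 * ((1 : ℝ) / p) * ((1 : ℝ) / p) ^ n := by
      funext n
      exact om_pow hp n
    rw [h3]
    exact h2
  have h4 := (hasSum_nat_add_iff (f := fun n : ℕ => om (p ^ n)) 1).1 h1
  have h5 : ∑ i ∈ Finset.range 1, om (p ^ i) = 1 := by simp [om_one]
  rw [h5, add_comm] at h4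
  exact h4

private lemma om_tsum_le {p : ℕ} (hp : p.Prime) :
    ∑' n : ℕ, om (p ^ n) ≤ exp (2 * exp 2 * ((1 : ℝ) / p)) := by
  rw [(om_hasSum hp).tsum_eq]
  have hp2 : (2 : ℝ) ≤ p := by exact_mod_cast hp.two_le
  have h0 : (0 : ℝ) < p := by linarith
  have h1 : (1 - (1 : ℝ) / p)⁻¹ ≤ 2 := by
    have h2 : (1 : ℝ) / 2 ≤ 1 - 1 / p := by
      have : (1 : ℝ) / p ≤ 1 / 2 := one_div_le_one_div_of_le (by norm_num) hp2
      linarith
    calc (1 - (1 : ℝ) / p)⁻¹ ≤ ((1 : ℝ) / 2)⁻¹ := inv_anti₀ (by norm_num) h2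
      _ = 2 := by norm_num
  have h3 : exp 2 * ((1 : ℝ) / p) * (1 - (1 : ℝ) / p)⁻¹ ≤ exp 2 * ((1 : ℝ) / p) * 2 :=
    mul_le_mul_of_nonneg_left h1 (by positivity)
  have h4 := Real.add_one_le_exp (2 * exp 2 * ((1 : ℝ) / p))
  calc 1 + exp 2 * ((1 : ℝ) / p) * (1 - (1 : ℝ) / p)⁻¹ ≤ 2 * exp 2 * ((1 : ℝ) / p) + 1 := by
        linarith
    _ ≤ _ := h4

open Classical in
private lemma sum_image_le (H v : ℕ) :
    ∑ p ∈ (blk H v).image nN, (1 : ℝ) / p ≤ sv H v := by
  unfold sv
  rw [← Finset.sum_fiberwise_of_maps_to (s := blk H v) (t := (blk H v).image nN) (g := nN)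
    (fun z hz => Finset.mem_image_of_mem nN hz) (fun z => (1 : ℝ) / (nN z : ℝ))]
  refine Finset.sum_le_sum fun p hp => ?_
  obtain ⟨z, hz, rfl⟩ := Finset.mem_image.1 hp
  exact Finset.single_le_sum (f := fun z => (1 : ℝ) / (nN z : ℝ))
    (fun w _ => by positivity) (Finset.mem_filter.2 ⟨hz, rfl⟩)

open Classical in
private lemma sum_Rset_om {H : ℕ} (hH : 1 ≤ H) (v K : ℕ) :
    ∑ r ∈ Rset H v K, om r ≤ exp (8 * exp 2) := by
  set s : Finset ℕ := (blk H v).image nN with hs
  have hsum := (EulerProduct.summable_and_hasSum_factoredNumbers_prod_filter_prime_tsum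
    (f := om) om_one (fun h => om_mul h) (fun {p} hp => by
      have := (om_hasSum hp).summable
      exact this.congr (fun n => (Real.norm_of_nonneg (om_nonneg _)).symm)) s).2
  have h1 : ∑ r ∈ Rset H v K, om r ≤ ∏ p ∈ s with p.Prime, ∑' n : ℕ, om (p ^ n) := by
    have hmem : ∀ r ∈ Rset H v K, r ∈ Nat.factoredNumbers s := by
      intro r hr
      obtain ⟨⟨hr1, -⟩, hr2⟩ := mem_Rset.1 hr
      rw [Nat.mem_factoredNumbers]
      refine ⟨by omega, fun p hp => ?_⟩
      obtain ⟨hp1, hp2⟩ := (Nat.mem_primeFactorsList (by omega)).1 hp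
      obtain ⟨z, hz, hzp⟩ := hr2 p hp1 hp2
      exact Finset.mem_image.2 ⟨z, hz, hzp⟩
    rw [← Finset.sum_subtype_of_mem om hmem]
    exact sum_le_hasSum _ (fun i _ => om_nonneg _) hsum
  refine h1.trans ?_
  calc ∏ p ∈ s with p.Prime, ∑' n : ℕ, om (p ^ n)
      ≤ ∏ p ∈ s with p.Prime, exp (2 * exp 2 * ((1 : ℝ) / p)) := by
        refine Finset.prod_le_prod (fun p _ => tsum_nonneg fun n => om_nonneg _) (fun p hp => ?_)
        exact om_tsum_le (Finset.mem_filter.1 hp).2
    _ = exp (2 * exp 2 * ∑ p ∈ s with p.Prime, (1 : ℝ) / p) := by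
        rw [← Real.exp_sum, ← Finset.mul_sum]
    _ ≤ exp (8 * exp 2) := by
        rw [Real.exp_le_exp]
        have h2 : ∑ p ∈ s with p.Prime, (1 : ℝ) / p ≤ 4 := by
          calc ∑ p ∈ s with p.Prime, (1 : ℝ) / p ≤ ∑ p ∈ s, (1 : ℝ) / p :=
                Finset.sum_le_sum_of_subset_of_nonneg (Finset.filter_subset _ _)
                  (fun i _ _ => by positivity)
            _ ≤ sv H v := sum_image_le H v
            _ ≤ 4 := sv_le_four hH v
        have h3 : (0 : ℝ) < exp 2 := Real.exp_pos 2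
        nlinarith

theorem sum_Rset : ∃ C : ℝ, 0 < C ∧ ∀ H v K : ℕ, 1 ≤ H →
    ∑ r ∈ Rset H v K, 1 / (r : ℝ) ≤ C := by
  refine ⟨exp (8 * exp 2), Real.exp_pos _, fun H v K hH => ?_⟩
  refine le_trans (Finset.sum_le_sum fun r _ => ?_) (sum_Rset_om hH v K)
  unfold om
  apply div_le_div_of_nonneg_right _ (Nat.cast_nonneg r)
  rw [Real.one_le_exp_iff]
  positivity

private lemma nN_natCast (r : ℕ) : nN (r : GaussianInt) = r ^ 2 := by
  have h : ((nN (r : GaussianInt) : ℕ) : ℤ) = ((r ^ 2 : ℕ) : ℤ) := by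
    rw [nN_cast_int, Zsqrtd.norm_natCast]
    push_cast
    ring
  exact_mod_cast h

open Classical in
private lemma card_dvd_nat (H v : ℕ) {r : ℕ} (hr : r ≠ 0) :
    ((blk H v).filter (fun p => p ∣ (r : GaussianInt))).card ≤ 2 * r.primeFactors.card := by
  apply Finset.card_le_mul_card_image_of_maps_to (f := nN)
  · intro p hp
    obtain ⟨hp1, hp2⟩ := Finset.mem_filter.1 hp
    have hpr : (nN p).Prime := (mem_blk.1 hp1).1.2.2.1
    obtain ⟨q, hq⟩ := hp2
    have h1 : nN p ∣ r ^ 2 := by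
      rw [← nN_natCast, hq, nN_mul]
      exact Dvd.intro _ rfl
    exact Nat.mem_primeFactors.2 ⟨hpr, hpr.dvd_of_dvd_pow h1, hr⟩
  · intro b _
    apply card_norm_le _ b
    intro z hz
    obtain ⟨hz1, hz2⟩ := Finset.mem_filter.1 hz
    exact ⟨(mem_blk.1 (Finset.mem_filter.1 hz1).1).1, hz2⟩

open Classical in
theorem cont_exp : ∃ C : ℝ, 0 < C ∧ ∀ (H v K : ℕ) (X : ℝ), 1 ≤ H → 0 ≤ X →
    ∑ z ∈ (ann 0 X).filter (fun z => cont z ∈ Rset H v K),
      (cont z : ℝ) * exp (((blk H v).filter (fun p => p ∣ z)).card : ℝ) ≤ C * X := by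
  obtain ⟨C, hC, hCb⟩ := exp_moment
  refine ⟨C * exp (8 * exp 2), by positivity, fun H v K X hH hX => ?_⟩
  rw [← Finset.sum_fiberwise_of_maps_to
    (s := (ann 0 X).filter (fun z => cont z ∈ Rset H v K)) (t := Rset H v K) (g := cont)
    (fun z hz => (Finset.mem_filter.1 hz).2)]
  have h1 : ∀ r ∈ Rset H v K,
      ∑ z ∈ ((ann 0 X).filter (fun z => cont z ∈ Rset H v K)).filter (fun z => cont z = r),
        (cont z : ℝ) * exp (((blk H v).filter (fun p => p ∣ z)).card : ℝ) ≤ C * X * om r := by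
    intro r hr
    have hr1 : 1 ≤ r := (mem_Rset.1 hr).1.1
    have hr0 : (0 : ℝ) < r := by exact_mod_cast hr1
    have hκ : (r : GaussianInt) ≠ 0 := by
      intro h
      have h2 := nN_natCast r
      rw [h, nN_zero] at h2
      have : 0 < r ^ 2 := by positivity
      omega
    calc ∑ z ∈ ((ann 0 X).filter (fun z => cont z ∈ Rset H v K)).filter (fun z => cont z = r),
        (cont z : ℝ) * exp (((blk H v).filter (fun p => p ∣ z)).card : ℝ)
        = ∑ z ∈ ((ann 0 X).filter (fun z => cont z ∈ Rset H v K)).filter (fun z => cont z = r),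
        (r : ℝ) * exp (((blk H v).filter (fun p => p ∣ z)).card : ℝ) := by
          refine Finset.sum_congr rfl fun z hz => ?_
          rw [(Finset.mem_filter.1 hz).2]
      _ ≤ ∑ z ∈ (ann 0 X).filter (fun z => (r : GaussianInt) ∣ z),
        (r : ℝ) * exp (((blk H v).filter (fun p => p ∣ z)).card : ℝ) := by
          apply Finset.sum_le_sum_of_subset_of_nonneg
          · intro z hz
            obtain ⟨hz1, hz2⟩ := Finset.mem_filter.1 hz
            refine Finset.mem_filter.2 ⟨(Finset.mem_filter.1 hz1).1, ?_⟩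
            have h3 : ((r : ℤ) : GaussianInt) ∣ z := by
              rw [Zsqrtd.intCast_dvd, ← hz2]
              exact ⟨Int.gcd_dvd_left _ _, Int.gcd_dvd_right _ _⟩
            simpa using h3
          · intro z _ _
            positivity
      _ = ∑ w ∈ ann (0 / nN (r : GaussianInt)) (X / nN (r : GaussianInt)),
        (r : ℝ) * exp (((blk H v).filter (fun p => p ∣ (r : GaussianInt) * w)).card : ℝ) :=
          sum_dvd _ hκ le_rfl hX
      _ = ∑ w ∈ ann 0 (X / (r : ℝ) ^ 2),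
        (r : ℝ) * exp (((blk H v).filter (fun p => p ∣ (r : GaussianInt) * w)).card : ℝ) := by
          rw [nN_natCast]
          push_cast
          rw [zero_div]
      _ ≤ ∑ w ∈ ann 0 (X / (r : ℝ) ^ 2), (r : ℝ) * exp (2 * (r.primeFactors.card : ℝ)) *
          exp (((blk H v).filter (fun p => p ∣ w)).card : ℝ) := by
          refine Finset.sum_le_sum fun w _ => ?_
          rw [mul_assoc]
          apply mul_le_mul_of_nonneg_left _ hr0.le
          rw [← Real.exp_add, Real.exp_le_exp]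
          have h4 : ((blk H v).filter (fun p => p ∣ (r : GaussianInt) * w)) ⊆
              ((blk H v).filter (fun p => p ∣ (r : GaussianInt))) ∪
                ((blk H v).filter (fun p => p ∣ w)) := by
            intro p hp
            obtain ⟨hp1, hp2⟩ := Finset.mem_filter.1 hp
            rw [Finset.mem_union, Finset.mem_filter, Finset.mem_filter]
            rcases (mem_blk.1 hp1).1.prime.dvd_or_dvd hp2 with h | h
            · exact Or.inl ⟨hp1, h⟩
            · exact Or.inr ⟨hp1, h⟩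
          have h5 := (Finset.card_le_card h4).trans (Finset.card_union_le _ _)
          have h6 := h5.trans (Nat.add_le_add_right (card_dvd_nat H v (by omega : r ≠ 0)) _)
          exact_mod_cast h6
      _ = (r : ℝ) * exp (2 * (r.primeFactors.card : ℝ)) *
          ∑ w ∈ ann 0 (X / (r : ℝ) ^ 2), exp (((blk H v).filter (fun p => p ∣ w)).card : ℝ) := by
          rw [Finset.mul_sum]
      _ ≤ (r : ℝ) * exp (2 * (r.primeFactors.card : ℝ)) * (C * (X / (r : ℝ) ^ 2)) :=
          mul_le_mul_of_nonneg_left (hCb H v _ hH (by positivity)) (by positivity)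
      _ = C * X * om r := by
          unfold om
          field_simp
  calc ∑ r ∈ Rset H v K,
      ∑ z ∈ ((ann 0 X).filter (fun z => cont z ∈ Rset H v K)).filter (fun z => cont z = r),
        (cont z : ℝ) * exp (((blk H v).filter (fun p => p ∣ z)).card : ℝ)
      ≤ ∑ r ∈ Rset H v K, C * X * om r := Finset.sum_le_sum h1
    _ = C * X * ∑ r ∈ Rset H v K, om r := by rw [Finset.mul_sum]
    _ ≤ C * X * exp (8 * exp 2) :=
        mul_le_mul_of_nonneg_left (sum_Rset_om hH v K) (by positivity)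
    _ = C * exp (8 * exp 2) * X := by ring

end Pool.Agent.NSqP
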