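import Pool.Agent.Lib.NSqP.Mer

/-!
# FDEN: many dense blocks between `x^0.48` and `x^0.5`
`a = ⌈1.92 log x⌉`, `b = ⌊2 log x⌋`.  `∑_{v ∈ [a,b)} |B_v| e^(-v/4) ≥ WR 4 a b ≥ log (b/a) - C (4/a)
≥ 0.03` for large `x` (`log (2/1.92) = 0.0408`).  Blocks with `|B_v| < c1 e^(v/4)/log x`
contribute at most `c1 (b - a)/log x ≤ 0.1 c1` for large `x`; take `c1 = 1/10`, `c3 = 1/100`.
-/

set_option autoImplicit false

namespace Pool.Agent.NSqP

open Real

private lemma fden_sv (v : ℕ) : sv 4 v ≤ ((blk 4 v).card : ℝ) * exp (-((v : ℝ) / 4)) := by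
  unfold sv
  have h1 : ∀ z ∈ blk 4 v, 1 / (nN z : ℝ) ≤ exp (-((v : ℝ) / 4)) := by
    intro z hz
    have h2 := (mem_blk.1 hz).2.1
    have h3 : exp ((v : ℝ) / 4) ≤ (nN z : ℝ) := by exact_mod_cast h2
    rw [exp_neg, one_div]
    exact inv_anti₀ (exp_pos _) h3
  refine (Finset.sum_le_sum h1).trans (le_of_eq ?_)
  rw [Finset.sum_const, nsmul_eq_mul]

open Classical in
theorem DENSE : ∃ c1 : ℝ, 0 < c1 ∧ ∃ c3 : ℝ, 0 < c3 ∧ ∃ x0 : ℝ, ∀ x : ℝ, x0 ≤ x →
    ∃ a b : ℕ, x ^ (12 / 25 : ℝ) ≤ exp ((a : ℝ) / 4) ∧ exp ((b : ℝ) / 4) ≤ x ^ (1 / 2 : ℝ) ∧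
      c3 ≤ ∑ v ∈ (Finset.Ico a b).filter
          (fun v : ℕ => c1 * exp ((v : ℝ) / 4) / log x ≤ ((blk 4 v).card : ℝ)),
        ((blk 4 v).card : ℝ) * exp (-((v : ℝ) / 4)) := by
  obtain ⟨C, hC, hW⟩ := WR_lower
  refine ⟨1 / 10, by norm_num, 1 / 100, by norm_num, exp (max 200 (500 * C)), ?_⟩
  intro x hx
  have hx0 : 0 < x := lt_of_lt_of_le (exp_pos _) hx
  have hL : max 200 (500 * C) ≤ log x := by
    rw [← log_exp (max 200 (500 * C))]
    exact log_le_log (exp_pos _) hx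
  generalize hLL : log x = L at *
  have hL1 : 200 ≤ L := (le_max_left _ _).trans hL
  have hL2 : 500 * C ≤ L := (le_max_right _ _).trans hL
  have hL0 : 0 < L := by linarith
  set a : ℕ := ⌈48 / 25 * L⌉₊ with ha
  set b : ℕ := ⌊2 * L⌋₊ with hb
  have ha1 : 48 / 25 * L ≤ (a : ℝ) := Nat.le_ceil _
  have ha2 : (a : ℝ) < 48 / 25 * L + 1 := Nat.ceil_lt_add_one (by positivity)
  have hb1 : (b : ℝ) ≤ 2 * L := Nat.floor_le (by positivity)
  have hb2 : 2 * L < (b : ℝ) + 1 := Nat.lt_floor_add_one _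
  have hab : (a : ℝ) ≤ b := by linarith
  have habn : a ≤ b := by exact_mod_cast hab
  have ha4 : 4 ≤ a := by
    have : (4 : ℝ) ≤ a := by linarith
    exact_mod_cast this
  refine ⟨a, b, ?_, ?_, ?_⟩
  · rw [rpow_def_of_pos hx0, hLL]
    exact exp_le_exp.2 (by linarith)
  · rw [rpow_def_of_pos hx0, hLL]
    exact exp_le_exp.2 (by linarith)
  · -- the total mass
    have h1 := hW 4 a b (by norm_num) ha4 habn
    have ha0 : (0 : ℝ) < a := by linarith
    have hb0 : (0 : ℝ) < b := by linarith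
    have h2 : 7 / 200 ≤ log ((b : ℝ) / a) := by
      have h3 := one_sub_inv_le_log_of_pos (show (0 : ℝ) < (b : ℝ) / a by positivity)
      rw [inv_div] at h3
      have h4 : (a : ℝ) / b ≤ 193 / 200 := by
        rw [div_le_div_iff₀ hb0 (by norm_num)]
        nlinarith
      linarith
    have h3 : C * (((4 : ℕ) : ℝ) / a) ≤ 1 / 200 := by
      rw [mul_div_assoc', div_le_div_iff₀ ha0 (by norm_num)]
      push_cast
      nlinarith
    have h4 : 3 / 100 ≤ WR 4 a b := by linarith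
    have h5 : WR 4 a b ≤ ∑ v ∈ Finset.Ico a b, ((blk 4 v).card : ℝ) * exp (-((v : ℝ) / 4)) := by
      unfold WR
      exact Finset.sum_le_sum fun v _ => fden_sv v
    have h6 := Finset.sum_filter_add_sum_filter_not (Finset.Ico a b)
      (fun v : ℕ => 1 / 10 * exp ((v : ℝ) / 4) / L ≤ ((blk 4 v).card : ℝ))
      (fun v : ℕ => ((blk 4 v).card : ℝ) * exp (-((v : ℝ) / 4)))
    have h7 : ∑ v ∈ (Finset.Ico a b).filter
        (fun v : ℕ => ¬ (1 / 10 * exp ((v : ℝ) / 4) / L ≤ ((blk 4 v).card : ℝ))),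
        ((blk 4 v).card : ℝ) * exp (-((v : ℝ) / 4)) ≤ 1 / 125 := by
      have h8 : ∀ v ∈ (Finset.Ico a b).filter
          (fun v : ℕ => ¬ (1 / 10 * exp ((v : ℝ) / 4) / L ≤ ((blk 4 v).card : ℝ))),
          ((blk 4 v).card : ℝ) * exp (-((v : ℝ) / 4)) ≤ 1 / 10 / L := by
        intro v hv
        have h9 := not_le.1 (Finset.mem_filter.1 hv).2
        calc ((blk 4 v).card : ℝ) * exp (-((v : ℝ) / 4))
            ≤ (1 / 10 * exp ((v : ℝ) / 4) / L) * exp (-((v : ℝ) / 4)) :=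
              mul_le_mul_of_nonneg_right h9.le (exp_pos _).le
          _ = 1 / 10 / L * (exp ((v : ℝ) / 4) * exp (-((v : ℝ) / 4))) := by ring
          _ = 1 / 10 / L := by rw [← exp_add, add_neg_cancel, exp_zero, mul_one]
      refine (Finset.sum_le_sum h8).trans ?_
      rw [Finset.sum_const, nsmul_eq_mul]
      have h10 : (((Finset.Ico a b).filter
          (fun v : ℕ => ¬ (1 / 10 * exp ((v : ℝ) / 4) / L ≤ ((blk 4 v).card : ℝ)))).card : ℝ) ≤
          2 / 25 * L := by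
        have h11 := Finset.card_filter_le (Finset.Ico a b)
          (fun v : ℕ => ¬ (1 / 10 * exp ((v : ℝ) / 4) / L ≤ ((blk 4 v).card : ℝ)))
        rw [Nat.card_Ico] at h11
        have h12 : (((b - a : ℕ)) : ℝ) = (b : ℝ) - a := Nat.cast_sub habn
        have h13 : (((Finset.Ico a b).filter
          (fun v : ℕ => ¬ (1 / 10 * exp ((v : ℝ) / 4) / L ≤ ((blk 4 v).card : ℝ)))).card : ℝ) ≤
          ((b - a : ℕ) : ℝ) := by exact_mod_cast h11
        rw [h12] at h13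
        linarith
      calc (((Finset.Ico a b).filter
          (fun v : ℕ => ¬ (1 / 10 * exp ((v : ℝ) / 4) / L ≤ ((blk 4 v).card : ℝ)))).card : ℝ) *
            (1 / 10 / L) ≤ 2 / 25 * L * (1 / 10 / L) :=
            mul_le_mul_of_nonneg_right h10 (by positivity)
        _ = 1 / 125 := by field_simp; norm_num
    linarith

end Pool.Agent.NSqP
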