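import Pool.Agent.Lib.NSqP.FOrth

/-!
# FPAIR: the pair sums of one block
`F3b`: since `f q ^ 2 = 1`, `f q G(q w) = f w - f q (f q f w - G(q w))`, so
`‖f q G(q w) - f q' G(q' w)‖^2 ≤ 2‖f q f w - G(q w)‖^2 + 2‖f q' f w - G(q' w)‖^2`; sum.
`F3`: for fixed `q, q'` the difference is `∑_m T m (a m - a' m) xi w^(-m)` with
`a m = f q xi q^(-m)`, `a' m = f q' xi q'^(-m)`; `ORTH` with `c m = T m (a m - a' m)`,
`‖c m‖ ≤ 2`, gives `≥ |W| ∑_m ‖T m‖^2 ‖a m - a' m‖^2 - 4|U|^2 E`.  Next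
`‖a^2 - a'^2‖ ≤ 2 ‖a - a'‖` (unimodular), `a^2 = xi q^(-2m)`, and
`∑_{q,q'} ‖a^2 - a'^2‖^2 = 2|B|^2 - 2‖∑_q xi q^(-2m)‖^2`, `‖∑ xi^(-2m)‖ = ‖∑ xi^(2m)‖`.
-/

set_option autoImplicit false

namespace Pool.Agent.NSqP

open Real

private lemma fp_norm_pm {f : GaussianInt → ℂ} (hf : PM f) {z : GaussianInt} (hz : z ≠ 0) :
    ‖f z‖ = 1 := by
  rcases hf z hz with h | h <;> simp [h]

private lemma fp_sq_pm {f : GaussianInt → ℂ} (hf : PM f) {z : GaussianInt} (hz : z ≠ 0) :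
    f z ^ 2 = 1 := by
  rcases hf z hz with h | h <;> simp [h]

private lemma fp_two (x y : ℂ) : ‖x - y‖ ^ 2 ≤ 2 * ‖x‖ ^ 2 + 2 * ‖y‖ ^ 2 := by
  have h1 : ‖x - y‖ ≤ ‖x‖ + ‖y‖ := norm_sub_le x y
  have h2 : ‖x - y‖ ^ 2 ≤ (‖x‖ + ‖y‖) ^ 2 := pow_le_pow_left₀ (norm_nonneg _) h1 2
  nlinarith [sq_nonneg (‖x‖ - ‖y‖)]

theorem F3b (f G : GaussianInt → ℂ) (B W : Finset GaussianInt)
    (hB : ∀ q ∈ B, q ≠ 0) (hW : ∀ w ∈ W, w ≠ 0) (hf : PM f) :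
    ∑ q ∈ B, ∑ q' ∈ B, ∑ w ∈ W, ‖f q * G (q * w) - f q' * G (q' * w)‖ ^ 2 ≤
      4 * (B.card : ℝ) * ∑ q ∈ B, ∑ w ∈ W, ‖f q * f w - G (q * w)‖ ^ 2 := by
  have _ := hW
  have key : ∀ q ∈ B, ∀ q' ∈ B, ∀ w ∈ W, ‖f q * G (q * w) - f q' * G (q' * w)‖ ^ 2 ≤
      2 * ‖f q * f w - G (q * w)‖ ^ 2 + 2 * ‖f q' * f w - G (q' * w)‖ ^ 2 := by
    intro q hq q' hq' w _
    have h1 := fp_sq_pm hf (hB q hq)
    have h2 := fp_sq_pm hf (hB q' hq')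
    have h3 : f q * G (q * w) - f q' * G (q' * w) =
        f q' * (f q' * f w - G (q' * w)) - f q * (f q * f w - G (q * w)) := by
      have e1 : f q * (f q * f w - G (q * w)) = f w - f q * G (q * w) := by
        have : f q * (f q * f w - G (q * w)) = f q ^ 2 * f w - f q * G (q * w) := by ring
        rw [this, h1, one_mul]
      have e2 : f q' * (f q' * f w - G (q' * w)) = f w - f q' * G (q' * w) := by
        have : f q' * (f q' * f w - G (q' * w)) = f q' ^ 2 * f w - f q' * G (q' * w) := by ring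
        rw [this, h2, one_mul]
      rw [e1, e2]; ring
    rw [h3]
    refine (fp_two _ _).trans (le_of_eq ?_)
    rw [norm_mul, norm_mul, fp_norm_pm hf (hB q hq), fp_norm_pm hf (hB q' hq')]
    ring
  calc ∑ q ∈ B, ∑ q' ∈ B, ∑ w ∈ W, ‖f q * G (q * w) - f q' * G (q' * w)‖ ^ 2
      ≤ ∑ q ∈ B, ∑ q' ∈ B, ∑ w ∈ W,
          (2 * ‖f q * f w - G (q * w)‖ ^ 2 + 2 * ‖f q' * f w - G (q' * w)‖ ^ 2) := by
        refine Finset.sum_le_sum fun q hq => Finset.sum_le_sum fun q' hq' =>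
          Finset.sum_le_sum fun w hw => key q hq q' hq' w hw
    _ = 4 * (B.card : ℝ) * ∑ q ∈ B, ∑ w ∈ W, ‖f q * f w - G (q * w)‖ ^ 2 := by
        have e1 : ∀ q q' : GaussianInt, ∑ w ∈ W,
            (2 * ‖f q * f w - G (q * w)‖ ^ 2 + 2 * ‖f q' * f w - G (q' * w)‖ ^ 2) =
            2 * (∑ w ∈ W, ‖f q * f w - G (q * w)‖ ^ 2) +
              2 * (∑ w ∈ W, ‖f q' * f w - G (q' * w)‖ ^ 2) := by
          intro q q'
          rw [Finset.sum_add_distrib, Finset.mul_sum, Finset.mul_sum]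
        simp_rw [e1]
        have e2 : ∀ q : GaussianInt, ∑ q' ∈ B, (2 * (∑ w ∈ W, ‖f q * f w - G (q * w)‖ ^ 2) +
              2 * (∑ w ∈ W, ‖f q' * f w - G (q' * w)‖ ^ 2)) =
            2 * (B.card : ℝ) * (∑ w ∈ W, ‖f q * f w - G (q * w)‖ ^ 2) +
              2 * ∑ q' ∈ B, ∑ w ∈ W, ‖f q' * f w - G (q' * w)‖ ^ 2 := by
          intro q
          rw [Finset.sum_add_distrib, Finset.sum_const, nsmul_eq_mul, ← Finset.mul_sum]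
          ring
        simp_rw [e2]
        rw [Finset.sum_add_distrib, Finset.sum_const, nsmul_eq_mul, ← Finset.mul_sum]
        ring

private lemma fp_pairs (B : Finset GaussianInt) (z : GaussianInt → ℂ)
    (hz : ∀ q ∈ B, ‖z q‖ = 1) :
    ∑ q ∈ B, ∑ q' ∈ B, ‖z q - z q'‖ ^ 2 = 2 * (B.card : ℝ) ^ 2 - 2 * ‖∑ q ∈ B, z q‖ ^ 2 := by
  have h1 : ∀ q ∈ B, ∀ q' ∈ B, ‖z q - z q'‖ ^ 2 =
      2 - 2 * (z q * (starRingEnd ℂ) (z q')).re := by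
    intro q hq q' hq'
    rw [← Complex.normSq_eq_norm_sq, Complex.normSq_sub, Complex.normSq_eq_norm_sq,
      Complex.normSq_eq_norm_sq, hz q hq, hz q' hq']
    ring
  rw [Finset.sum_congr rfl fun q hq => Finset.sum_congr rfl fun q' hq' => h1 q hq q' hq']
  have h2 : ∑ q ∈ B, ∑ q' ∈ B, (z q * (starRingEnd ℂ) (z q')).re = ‖∑ q ∈ B, z q‖ ^ 2 := by
    have h3 : (∑ q ∈ B, z q) * (starRingEnd ℂ) (∑ q ∈ B, z q) =
        ((‖∑ q ∈ B, z q‖ ^ 2 : ℝ) : ℂ) := by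
      rw [Complex.mul_conj, Complex.normSq_eq_norm_sq]
    have h4 : ((∑ q ∈ B, z q) * (starRingEnd ℂ) (∑ q ∈ B, z q)).re =
        ∑ q ∈ B, ∑ q' ∈ B, (z q * (starRingEnd ℂ) (z q')).re := by
      rw [map_sum, Finset.sum_mul_sum, Complex.re_sum]
      refine Finset.sum_congr rfl fun q _ => ?_
      rw [Complex.re_sum]
    rw [← h4, h3, Complex.ofReal_re]
  have h5 : ∑ q ∈ B, ∑ q' ∈ B, (2 - 2 * (z q * (starRingEnd ℂ) (z q')).re) =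
      2 * (B.card : ℝ) ^ 2 - 2 * ∑ q ∈ B, ∑ q' ∈ B, (z q * (starRingEnd ℂ) (z q')).re := by
    have e : ∀ q : GaussianInt, ∑ q' ∈ B, (2 - 2 * (z q * (starRingEnd ℂ) (z q')).re) =
        2 * (B.card : ℝ) - 2 * ∑ q' ∈ B, (z q * (starRingEnd ℂ) (z q')).re := by
      intro q
      rw [Finset.sum_sub_distrib, Finset.sum_const, nsmul_eq_mul, ← Finset.mul_sum]
      ring
    simp_rw [e]
    rw [Finset.sum_sub_distrib, Finset.sum_const, nsmul_eq_mul, ← Finset.mul_sum]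
    ring
  rw [h5, h2]

private lemma fp_conj (B : Finset GaussianInt) (hB : ∀ q ∈ B, q ≠ 0) (k : ℤ) :
    ‖∑ q ∈ B, xi q ^ (-k)‖ = ‖∑ q ∈ B, xi q ^ k‖ := by
  have h1 : ∑ q ∈ B, xi q ^ (-k) = (starRingEnd ℂ) (∑ q ∈ B, xi q ^ k) := by
    rw [map_sum]
    refine Finset.sum_congr rfl fun q hq => ?_
    have h := norm_xi_zpow (hB q hq) k
    rw [zpow_neg, Complex.inv_def, Complex.normSq_eq_norm_sq, h]
    simp
  rw [h1, Complex.norm_conj]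

theorem F3 (f : GaussianInt → ℂ) (T : ℤ → ℂ) (U : Finset ℤ)
    (B W : Finset GaussianInt) (E : ℝ) (hE : 0 ≤ E) (hB : ∀ q ∈ B, q ≠ 0) (hW : ∀ w ∈ W, w ≠ 0)
    (hf : PM f) (hT : ∀ m, ‖T m‖ ≤ 1)
    (h : ∀ m ∈ U, ∀ n ∈ U, m ≠ n → ‖∑ w ∈ W, xi w ^ (m - n)‖ ≤ E) :
    (W.card : ℝ) / 2 *
        ∑ m ∈ U, ‖T m‖ ^ 2 * ((B.card : ℝ) ^ 2 - ‖∑ q ∈ B, xi q ^ (2 * m)‖ ^ 2) -
      4 * (U.card : ℝ) ^ 2 * E * (B.card : ℝ) ^ 2 ≤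
    ∑ q ∈ B, ∑ q' ∈ B, ∑ w ∈ W, ‖f q * (∑ m ∈ U, T m * xi (q * w) ^ (-m)) -
      f q' * (∑ m ∈ U, T m * xi (q' * w) ^ (-m))‖ ^ 2 := by
  -- the coefficients
  set a : GaussianInt → ℤ → ℂ := fun q m => f q * xi q ^ (-m) with ha
  have hanorm : ∀ q ∈ B, ∀ m, ‖a q m‖ = 1 := by
    intro q hq m
    rw [ha]
    show ‖f q * xi q ^ (-m)‖ = 1
    rw [norm_mul, fp_norm_pm hf (hB q hq), norm_xi_zpow (hB q hq), one_mul]
  have hasq : ∀ q ∈ B, ∀ m, a q m ^ 2 = xi q ^ (-(2 * m)) := by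
    intro q hq m
    show (f q * xi q ^ (-m)) ^ 2 = xi q ^ (-(2 * m))
    rw [mul_pow, fp_sq_pm hf (hB q hq), one_mul, ← zpow_natCast, ← zpow_mul]
    congr 1
    push_cast
    ring
  -- the difference
  have hdiff : ∀ q q' w : GaussianInt, f q * (∑ m ∈ U, T m * xi (q * w) ^ (-m)) -
      f q' * (∑ m ∈ U, T m * xi (q' * w) ^ (-m)) =
      ∑ m ∈ U, (T m * (a q m - a q' m)) * xi w ^ (-m) := by
    intro q q' w
    rw [Finset.mul_sum, Finset.mul_sum, ← Finset.sum_sub_distrib]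
    refine Finset.sum_congr rfl fun m _ => ?_
    show f q * (T m * xi (q * w) ^ (-m)) - f q' * (T m * xi (q' * w) ^ (-m)) =
      (T m * (f q * xi q ^ (-m) - f q' * xi q' ^ (-m))) * xi w ^ (-m)
    rw [xi_mul_zpow, xi_mul_zpow]
    ring
  -- lower bound for a fixed pair
  have hpair : ∀ q ∈ B, ∀ q' ∈ B,
      (W.card : ℝ) * ∑ m ∈ U, ‖T m‖ ^ 2 * (‖a q m ^ 2 - a q' m ^ 2‖ ^ 2 / 4) -
        4 * (U.card : ℝ) ^ 2 * E ≤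
      ∑ w ∈ W, ‖f q * (∑ m ∈ U, T m * xi (q * w) ^ (-m)) -
        f q' * (∑ m ∈ U, T m * xi (q' * w) ^ (-m))‖ ^ 2 := by
    intro q hq q' hq'
    simp_rw [hdiff q q']
    have h1 := ORTH W U (fun m => T m * (a q m - a q' m)) E hE hW h
    have h2 := (abs_le.1 h1).1
    have hc : ∀ m ∈ U, ‖T m * (a q m - a q' m)‖ ≤ 2 := by
      intro m _
      rw [norm_mul]
      have h3 : ‖a q m - a q' m‖ ≤ 2 := by
        refine (norm_sub_le _ _).trans ?_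
        rw [hanorm q hq m, hanorm q' hq' m]
        norm_num
      have h4 := hT m
      have h5 : ‖T m‖ * ‖a q m - a q' m‖ ≤ 1 * 2 :=
        mul_le_mul h4 h3 (norm_nonneg _) zero_le_one
      linarith
    have hcs : ∑ m ∈ U, ‖T m * (a q m - a q' m)‖ ≤ 2 * (U.card : ℝ) := by
      refine (Finset.sum_le_sum hc).trans (le_of_eq ?_)
      rw [Finset.sum_const, nsmul_eq_mul]; ring
    have hcs2 : (∑ m ∈ U, ‖T m * (a q m - a q' m)‖) ^ 2 * E ≤ 4 * (U.card : ℝ) ^ 2 * E := by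
      refine mul_le_mul_of_nonneg_right ?_ hE
      have h0 : 0 ≤ ∑ m ∈ U, ‖T m * (a q m - a q' m)‖ :=
        Finset.sum_nonneg fun m _ => norm_nonneg _
      calc (∑ m ∈ U, ‖T m * (a q m - a q' m)‖) ^ 2 ≤ (2 * (U.card : ℝ)) ^ 2 :=
            pow_le_pow_left₀ h0 hcs 2
        _ = 4 * (U.card : ℝ) ^ 2 := by ring
    have hms : ∑ m ∈ U, ‖T m‖ ^ 2 * (‖a q m ^ 2 - a q' m ^ 2‖ ^ 2 / 4) ≤
        ∑ m ∈ U, ‖T m * (a q m - a q' m)‖ ^ 2 := by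
      refine Finset.sum_le_sum fun m _ => ?_
      have e1 : a q m ^ 2 - a q' m ^ 2 = (a q m - a q' m) * (a q m + a q' m) := by ring
      have h6 : ‖a q m + a q' m‖ ≤ 2 := by
        refine (norm_add_le _ _).trans ?_
        rw [hanorm q hq m, hanorm q' hq' m]
        norm_num
      have h7 : ‖a q m + a q' m‖ ^ 2 ≤ 4 := by
        have := pow_le_pow_left₀ (norm_nonneg _) h6 2
        linarith
      have h8 : ‖a q m - a q' m‖ ^ 2 * ‖a q m + a q' m‖ ^ 2 ≤ ‖a q m - a q' m‖ ^ 2 * 4 :=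
        mul_le_mul_of_nonneg_left h7 (sq_nonneg ‖a q m - a q' m‖)
      have h9 : ‖a q m ^ 2 - a q' m ^ 2‖ ^ 2 / 4 ≤ ‖a q m - a q' m‖ ^ 2 := by
        rw [e1, norm_mul, mul_pow]
        linarith
      have h10 : ‖T m * (a q m - a q' m)‖ ^ 2 = ‖T m‖ ^ 2 * ‖a q m - a q' m‖ ^ 2 := by
        rw [norm_mul, mul_pow]
      rw [h10]
      exact mul_le_mul_of_nonneg_left h9 (sq_nonneg ‖T m‖)
    have hms2 : (W.card : ℝ) * ∑ m ∈ U, ‖T m‖ ^ 2 * (‖a q m ^ 2 - a q' m ^ 2‖ ^ 2 / 4) ≤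
        (W.card : ℝ) * ∑ m ∈ U, ‖T m * (a q m - a q' m)‖ ^ 2 :=
      mul_le_mul_of_nonneg_left hms (Nat.cast_nonneg _)
    linarith
  -- sum over the pairs
  have hsum : ∑ q ∈ B, ∑ q' ∈ B,
      ((W.card : ℝ) * ∑ m ∈ U, ‖T m‖ ^ 2 * (‖a q m ^ 2 - a q' m ^ 2‖ ^ 2 / 4) -
        4 * (U.card : ℝ) ^ 2 * E) ≤
      ∑ q ∈ B, ∑ q' ∈ B, ∑ w ∈ W, ‖f q * (∑ m ∈ U, T m * xi (q * w) ^ (-m)) -
        f q' * (∑ m ∈ U, T m * xi (q' * w) ^ (-m))‖ ^ 2 :=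
    by
    refine Finset.sum_le_sum ?_
    intro q hq
    refine Finset.sum_le_sum ?_
    intro q' hq'
    exact hpair q hq q' hq'
  refine le_trans (le_of_eq ?_) hsum
  -- evaluate the left side
  have hev : ∀ m ∈ U, ∑ q ∈ B, ∑ q' ∈ B, ‖a q m ^ 2 - a q' m ^ 2‖ ^ 2 =
      2 * (B.card : ℝ) ^ 2 - 2 * ‖∑ q ∈ B, xi q ^ (2 * m)‖ ^ 2 := by
    intro m _
    rw [fp_pairs B (fun q => a q m ^ 2) (fun q hq => by
      show ‖a q m ^ 2‖ = 1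
      rw [norm_pow, hanorm q hq m, one_pow])]
    rw [Finset.sum_congr rfl fun q hq => hasq q hq m, fp_conj B hB]
  have hswap : ∑ q ∈ B, ∑ q' ∈ B, ∑ m ∈ U, ‖T m‖ ^ 2 * (‖a q m ^ 2 - a q' m ^ 2‖ ^ 2 / 4) =
      ∑ m ∈ U, ‖T m‖ ^ 2 * ((∑ q ∈ B, ∑ q' ∈ B, ‖a q m ^ 2 - a q' m ^ 2‖ ^ 2) / 4) := by
    have e1 : ∀ q ∈ B, ∑ q' ∈ B, ∑ m ∈ U, ‖T m‖ ^ 2 * (‖a q m ^ 2 - a q' m ^ 2‖ ^ 2 / 4) =
        ∑ m ∈ U, ∑ q' ∈ B, ‖T m‖ ^ 2 * (‖a q m ^ 2 - a q' m ^ 2‖ ^ 2 / 4) :=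
      fun q _ => Finset.sum_comm
    rw [Finset.sum_congr rfl e1, Finset.sum_comm]
    refine Finset.sum_congr rfl fun m _ => ?_
    rw [Finset.sum_div, Finset.mul_sum]
    refine Finset.sum_congr rfl fun q _ => ?_
    rw [Finset.sum_div, Finset.mul_sum]
  have hlast : ∑ q ∈ B, ∑ q' ∈ B,
      ((W.card : ℝ) * ∑ m ∈ U, ‖T m‖ ^ 2 * (‖a q m ^ 2 - a q' m ^ 2‖ ^ 2 / 4) -
        4 * (U.card : ℝ) ^ 2 * E) =
      (W.card : ℝ) * (∑ q ∈ B, ∑ q' ∈ B, ∑ m ∈ U,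
        ‖T m‖ ^ 2 * (‖a q m ^ 2 - a q' m ^ 2‖ ^ 2 / 4)) -
        4 * (U.card : ℝ) ^ 2 * E * (B.card : ℝ) ^ 2 := by
    simp_rw [Finset.sum_sub_distrib, Finset.sum_const, nsmul_eq_mul, ← Finset.mul_sum]
    ring
  rw [hlast, hswap]
  congr 1
  have h9 : ∑ m ∈ U, ‖T m‖ ^ 2 * ((∑ q ∈ B, ∑ q' ∈ B, ‖a q m ^ 2 - a q' m ^ 2‖ ^ 2) / 4) =
      ∑ m ∈ U, 1 / 2 * (‖T m‖ ^ 2 * ((B.card : ℝ) ^ 2 - ‖∑ q ∈ B, xi q ^ (2 * m)‖ ^ 2)) := by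
    refine Finset.sum_congr rfl fun m hm => ?_
    rw [hev m hm]; ring
  rw [h9, ← Finset.mul_sum]
  ring

end Pool.Agent.NSqP
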