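import Pool.Agent.Lib.NSqP.SDefs
import Pool.Agent.Lib.NSqP.PiF

/-!
# FTR: transfer to products
`prim_mul'`: if a rational prime `p` divides `q w` then `p ∣ w` unless `p = nN q`; in that case
`q * star q ∣ q w`, so `star q ∣ w`.
`few`: three different elements of `IsPi` dividing `z` have product dividing `z`
(`prod_dvd_iff`), so `N z ≥ (x^0.48)^3 > x`.
`F2`: split the `w` into those with `star q ∤ w` and the others.
First part: `(v, q, w) ↦ q w` has values in `pann (x/2) x` (norms: `e^(v/4) ≤ N q < e^((v+1)/4)`),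
`f q * f w = f (q w)`; `v` is determined by `q` (`blk_disjoint`) and `w` by `q` and `z`, so by
`few` every `z` is reached at most twice (the elements of all the blocks have norm
`≥ x^0.48`).
Second part: every term is at most `(1 + K)^2`; the number of `(q, w)`: `q ∈ blk 4 v` for some
`v < b`, so `N q < e^(b/4) ≤ √x`: at most `C √x` elements; `w = star q * w'`
with `N w' ≤ x e^(-(v+1)/4)/N q ≤ x/(N q)^2 ≤ x^0.04`: at most `C x^0.04` elements;
`C^2 x^0.54 ≤ x^0.6` for large `x`.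
-/

set_option autoImplicit false

namespace Pool.Agent.NSqP

open Real
open Pool.Agent.MP484c84Par (ballG mem_ballG)

private lemma ftr_star_dvd {p w : GaussianInt} (hp0 : p ≠ 0)
    (h : ((nN p : ℕ) : GaussianInt) ∣ p * w) : star p ∣ w := by
  have h1 : ((nN p : ℕ) : GaussianInt) = p * star p := by
    have h2 : ((nN p : ℕ) : GaussianInt) = (((nN p : ℕ) : ℤ) : GaussianInt) := by push_cast; rfl
    rw [h2, nN_cast_int, Zsqrtd.norm_eq_mul_conj]
  rw [h1] at h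
  exact (mul_dvd_mul_iff_left hp0).1 h

private lemma ftr_natCast_dvd (q : ℕ) (z : GaussianInt) :
    ((q : ℕ) : GaussianInt) ∣ z ↔ q ∣ cont z := by
  have h1 : ((q : ℕ) : GaussianInt) = ((q : ℤ) : GaussianInt) := by push_cast; rfl
  rw [h1, Zsqrtd.intCast_dvd]
  unfold cont
  constructor
  · rintro ⟨h2, h3⟩
    exact Int.dvd_gcd h2 h3
  · intro h
    have h2 : (q : ℤ) ∣ (Int.gcd z.re z.im : ℤ) := by exact_mod_cast h
    exact ⟨h2.trans (Int.gcd_dvd_left _ _), h2.trans (Int.gcd_dvd_right _ _)⟩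

theorem prim_mul' {q w : GaussianInt} (hq : IsPi q) (hw : Prim w) (h : ¬ star q ∣ w) :
    Prim (q * w) := by
  have hp0 : q ≠ 0 := hq.ne_zero
  unfold Prim
  by_contra hcon
  obtain ⟨r, hr, hrd⟩ := Nat.exists_prime_and_dvd hcon
  rw [← ftr_natCast_dvd] at hrd
  by_cases hrn : r = nN q
  · rw [hrn] at hrd
    exact h (ftr_star_dvd hp0 hrd)
  · have h1 : IsCoprime ((r : ℕ) : GaussianInt) ((nN q : ℕ) : GaussianInt) := by
      have h2 : IsCoprime (r : ℤ) ((nN q : ℕ) : ℤ) := by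
        rw [Nat.isCoprime_iff_coprime]
        exact (Nat.coprime_primes hr hq.2.2.1).2 hrn
      have h3 := h2.map (Int.castRingHom GaussianInt)
      simpa using h3
    have h4 : IsCoprime ((r : ℕ) : GaussianInt) q := by
      have h5 : ((nN q : ℕ) : GaussianInt) = q * star q := by
        have h2 : ((nN q : ℕ) : GaussianInt) = (((nN q : ℕ) : ℤ) : GaussianInt) := by
          push_cast; rfl
        rw [h2, nN_cast_int, Zsqrtd.norm_eq_mul_conj]
      rw [h5] at h1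
      exact h1.of_mul_right_left
    have h6 : ((r : ℕ) : GaussianInt) ∣ w := h4.dvd_of_dvd_mul_left hrd
    rw [ftr_natCast_dvd] at h6
    unfold Prim at hw
    rw [hw] at h6
    exact hr.one_lt.ne' (Nat.dvd_one.1 h6)

private lemma ftr_nN_prod (E : Finset GaussianInt) :
    ((nN (∏ q ∈ E, q) : ℕ) : ℝ) = ∏ q ∈ E, (nN q : ℝ) := by
  classical
  induction E using Finset.induction_on with
  | empty => simp [nN_one]
  | insert a S ha ih =>
    rw [Finset.prod_insert ha, Finset.prod_insert ha, nN_mul]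
    push_cast
    rw [ih]

theorem few {x : ℝ} (hx : 1 < x) {z : GaussianInt} (hz : z ≠ 0) (hzx : (nN z : ℝ) ≤ x)
    (S : Finset GaussianInt)
    (hS : ∀ q ∈ S, IsPi q ∧ x ^ (12 / 25 : ℝ) ≤ (nN q : ℝ) ∧ q ∣ z) : S.card ≤ 2 := by
  by_contra hcon
  have h3 : 3 ≤ S.card := by omega
  obtain ⟨E, hE, hEc⟩ := Finset.exists_subset_card_eq h3
  have hx0 : 0 < x := by linarith
  have h1 : (∏ q ∈ E, q) ∣ z :=
    (prod_dvd_iff E (fun q hq => (hS q (hE hq)).1) z).2 fun q hq => (hS q (hE hq)).2.2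
  obtain ⟨w, hw⟩ := h1
  have hw0 : w ≠ 0 := by
    rintro rfl
    rw [mul_zero] at hw
    exact hz hw
  have h2 : ((nN (∏ q ∈ E, q) : ℕ) : ℝ) ≤ (nN z : ℝ) := by
    rw [hw, nN_mul]
    have h4 : 1 ≤ nN w := nN_pos hw0
    exact_mod_cast Nat.le_mul_of_pos_right _ h4
  rw [ftr_nN_prod] at h2
  have h5 : ∏ _q ∈ E, x ^ (12 / 25 : ℝ) ≤ ∏ q ∈ E, (nN q : ℝ) :=
    Finset.prod_le_prod (fun q _ => by positivity) fun q hq => (hS q (hE hq)).2.1
  rw [Finset.prod_const, hEc, ← Real.rpow_natCast, ← Real.rpow_mul hx0.le] at h5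
  have h6 : x < x ^ (12 / 25 * ((3 : ℕ) : ℝ)) := by
    have h7 : x ^ (1 : ℝ) < x ^ (12 / 25 * ((3 : ℕ) : ℝ)) :=
      Real.rpow_lt_rpow_of_exponent_lt hx (by norm_num)
    rwa [Real.rpow_one] at h7
  linarith

private lemma ftr_blk {v : ℕ} {q : GaussianInt} (h : q ∈ blk 4 v) :
    IsPi q ∧ exp ((v : ℝ) / 4) ≤ (nN q : ℝ) ∧ (nN q : ℝ) < exp (((v : ℝ) + 1) / 4) := by
  have h1 := mem_blk.1 h
  simpa using h1

private lemma ftr_WW {v : ℕ} {x : ℝ} (hx : 0 ≤ x) {w : GaussianInt} (h : w ∈ WW v x) :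
    (x / 2 * exp (-((v : ℝ) / 4)) < (nN w : ℝ) ∧
      (nN w : ℝ) ≤ x * exp (-(((v : ℝ) + 1) / 4))) ∧ Prim w := by
  unfold WW at h
  exact (mem_pann (by positivity)).1 h

/-- the good part of one element `q` -/
private lemma ftr_good {x : ℝ} (hx : 0 < x) (v : ℕ) {q : GaussianInt} (hq : q ∈ blk 4 v)
    (g : GaussianInt → ℝ) (hg : ∀ z, 0 ≤ g z) [DecidablePred fun w => star q ∣ w]
    [DecidablePred fun w => ¬ star q ∣ w] [DecidablePred fun w => q ∣ w] :
    ∑ w ∈ (WW v x).filter (fun w => ¬ star q ∣ w), g (q * w) ≤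
      ∑ z ∈ (pann (x / 2) x).filter (fun z => q ∣ z), g z := by
  classical
  obtain ⟨hq1, hq2, hq3⟩ := ftr_blk hq
  have hinj : Set.InjOn (fun w => q * w)
      ((WW v x).filter (fun w => ¬ star q ∣ w) : Finset GaussianInt) := by
    intro w _ w' _ h
    exact mul_left_cancel₀ hq1.ne_zero h
  rw [← Finset.sum_image (f := g) hinj]
  refine Finset.sum_le_sum_of_subset_of_nonneg ?_ fun z _ _ => hg z
  intro z hz
  obtain ⟨w, hw, rfl⟩ := Finset.mem_image.1 hz
  obtain ⟨hw1, hw2⟩ := Finset.mem_filter.1 hw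
  obtain ⟨⟨hw3, hw4⟩, hw5⟩ := ftr_WW hx.le hw1
  rw [Finset.mem_filter, mem_pann hx.le]
  refine ⟨⟨⟨?_, ?_⟩, prim_mul' hq1 hw5 hw2⟩, dvd_mul_right _ _⟩
  · rw [nN_mul]
    push_cast
    have e1 : exp ((v : ℝ) / 4) * (x / 2 * exp (-((v : ℝ) / 4))) = x / 2 := by
      rw [Real.exp_neg]
      field_simp
    rw [← e1]
    exact mul_lt_mul' hq2 hw3 (by positivity) (lt_of_lt_of_le (Real.exp_pos _) hq2)
  · rw [nN_mul]
    push_cast
    have e1 : exp (((v : ℝ) + 1) / 4) * (x * exp (-(((v : ℝ) + 1) / 4))) = x := by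
      rw [Real.exp_neg]
      field_simp
    calc (nN q : ℝ) * (nN w : ℝ) ≤
        exp (((v : ℝ) + 1) / 4) * (x * exp (-(((v : ℝ) + 1) / 4))) :=
          mul_le_mul hq3.le hw4 (Nat.cast_nonneg _) (Real.exp_pos _).le
      _ = x := e1

/-- the number of bad cofactors of one element `q` -/
private lemma ftr_bad {C : ℝ} (hC : 0 < C)
    (hcard : ∀ b : ℝ, 0 ≤ b → ((ann 0 b).card : ℝ) ≤ C * b) {x : ℝ} (hx : 1 < x) (v : ℕ)
    {q : GaussianInt} (hq : q ∈ blk 4 v) (hqx : x ^ (12 / 25 : ℝ) ≤ (nN q : ℝ))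
    [DecidablePred fun w => star q ∣ w] :
    (((WW v x).filter (fun w => star q ∣ w)).card : ℝ) ≤ C * x ^ (1 / 25 : ℝ) := by
  classical
  obtain ⟨hq1, hq2, hq3⟩ := ftr_blk hq
  have hx0 : 0 < x := by linarith
  have hs0 : star q ≠ 0 := by
    intro h
    apply hq1.ne_zero
    have := congrArg star h
    simpa using this
  have hN0 : (0 : ℝ) < nN q := by exact_mod_cast nN_pos hq1.ne_zero
  set y : ℝ := x * exp (-(((v : ℝ) + 1) / 4)) with hy
  have hy0 : 0 ≤ y := by positivity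
  have hsub : (WW v x).filter (fun w => star q ∣ w) ⊆
      (ann 0 y).filter (fun w => star q ∣ w) := by
    intro w hw
    obtain ⟨hw1, hw2⟩ := Finset.mem_filter.1 hw
    obtain ⟨⟨hw3, hw4⟩, hw5⟩ := ftr_WW hx0.le hw1
    refine Finset.mem_filter.2 ⟨(mem_ann hy0).2 ⟨?_, hw4⟩, hw2⟩
    exact lt_of_le_of_lt (by positivity) hw3
  have h1 := Finset.card_le_card hsub
  have h2 : ((ann 0 y).filter (fun w => star q ∣ w)).card =
      (ann (0 / nN (star q)) (y / nN (star q))).card := by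
    rw [← card_dvd hs0 le_rfl hy0]
    congr 1
    ext w
    simp only [Finset.mem_filter]
  rw [zero_div, nN_star] at h2
  have h3 : (((WW v x).filter (fun w => star q ∣ w)).card : ℝ) ≤ C * (y / nN q) := by
    refine le_trans ?_ (hcard _ (by positivity))
    rw [h2] at h1
    exact_mod_cast h1
  refine h3.trans (mul_le_mul_of_nonneg_left ?_ hC.le)
  have h4 : y ≤ x / nN q := by
    rw [hy, Real.exp_neg, div_eq_mul_inv]
    refine mul_le_mul_of_nonneg_left ?_ hx0.le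
    exact inv_anti₀ hN0 hq3.le
  have h5 : y / nN q ≤ x / (x ^ (12 / 25 : ℝ) * x ^ (12 / 25 : ℝ)) := by
    calc y / nN q ≤ x / nN q / nN q := by gcongr
      _ = x / (nN q * nN q) := by rw [div_div]
      _ ≤ x / (x ^ (12 / 25 : ℝ) * x ^ (12 / 25 : ℝ)) := by gcongr
  refine h5.trans (le_of_eq ?_)
  rw [← Real.rpow_add hx0, div_eq_mul_inv, ← Real.rpow_neg hx0.le]
  nth_rewrite 1 [← Real.rpow_one x]
  rw [← Real.rpow_add hx0]
  norm_num

theorem F2 : ∃ x0 : ℝ, ∀ (f G : GaussianInt → ℂ) (x K : ℝ) (a b : ℕ), x0 ≤ x →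
    CMC f → PM f → x ^ (12 / 25 : ℝ) ≤ exp ((a : ℝ) / 4) → exp ((b : ℝ) / 4) ≤ x ^ (1 / 2 : ℝ) →
    0 ≤ K → (∀ z, ‖G z‖ ≤ K) →
    ∑ v ∈ Finset.Ico a b, ∑ q ∈ blk 4 v, ∑ w ∈ WW v x, ‖f q * f w - G (q * w)‖ ^ 2 ≤
      2 * ∑ z ∈ pann (x / 2) x, ‖f z - G z‖ ^ 2 + (1 + K) ^ 2 * x ^ (3 / 5 : ℝ) := by
  classical
  obtain ⟨C, hC, hcard⟩ := card_ann_le
  refine ⟨max 2 ((C ^ 2) ^ (50 / 3 : ℝ)), fun f G x K a b hx hf hPM ha hb hK hG => ?_⟩
  have hx2 : 2 ≤ x := (le_max_left _ _).trans hx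
  have hxC : (C ^ 2) ^ (50 / 3 : ℝ) ≤ x := (le_max_right _ _).trans hx
  have hx0 : 0 < x := by linarith
  have hx1 : 1 < x := by linarith
  set g : GaussianInt → ℝ := fun z => ‖f z - G z‖ ^ 2 with hg
  have hg0 : ∀ z, 0 ≤ g z := fun z => by positivity
  set Q : Finset GaussianInt := (Finset.Ico a b).biUnion (fun v => blk 4 v) with hQ
  have hdis : ∀ h : GaussianInt → ℝ, ∑ v ∈ Finset.Ico a b, ∑ q ∈ blk 4 v, h q =
      ∑ q ∈ Q, h q := by
    intro h
    rw [hQ, Finset.sum_biUnion]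
    intro u _ u' _ huu
    exact blk_disjoint (by norm_num) huu
  have hQ1 : ∀ v ∈ Finset.Ico a b, ∀ q ∈ blk 4 v, x ^ (12 / 25 : ℝ) ≤ (nN q : ℝ) := by
    intro v hv q hq
    have h1 := (ftr_blk hq).2.1
    have h2 : (a : ℝ) ≤ v := by exact_mod_cast (Finset.mem_Ico.1 hv).1
    have h3 : exp ((a : ℝ) / 4) ≤ exp ((v : ℝ) / 4) := by gcongr
    linarith
  have hQc : (Q.card : ℝ) ≤ C * x ^ (1 / 2 : ℝ) := by
    have hsub : Q ⊆ ann 0 (x ^ (1 / 2 : ℝ)) := by
      intro q hq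
      obtain ⟨v, hv, hqv⟩ := Finset.mem_biUnion.1 hq
      obtain ⟨h1, h2, h3⟩ := ftr_blk hqv
      rw [mem_ann (by positivity)]
      refine ⟨by exact_mod_cast nN_pos h1.ne_zero, h3.le.trans (le_trans ?_ hb)⟩
      have h4 : (v : ℝ) + 1 ≤ b := by exact_mod_cast (Finset.mem_Ico.1 hv).2
      gcongr
    refine le_trans ?_ (hcard _ (by positivity))
    exact_mod_cast Finset.card_le_card hsub
  -- one element `q`
  have hone : ∀ v ∈ Finset.Ico a b, ∀ q ∈ blk 4 v,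
      ∑ w ∈ WW v x, ‖f q * f w - G (q * w)‖ ^ 2 ≤
        (∑ z ∈ (pann (x / 2) x).filter (fun z => q ∣ z), g z) +
          (1 + K) ^ 2 * (C * x ^ (1 / 25 : ℝ)) := by
    intro v hv q hq
    have hq1 := (ftr_blk hq).1
    rw [← Finset.sum_filter_not_add_sum_filter (WW v x) (fun w => star q ∣ w)]
    refine add_le_add ?_ ?_
    · refine le_trans (le_of_eq ?_) (ftr_good hx0 v hq g hg0)
      refine Finset.sum_congr rfl fun w hw => ?_
      have hw1 := (ftr_WW hx0.le (Finset.mem_filter.1 hw).1).2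
      rw [hg]
      simp only
      rw [hf.mul q w hq1.ne_zero (prim_ne_zero hw1)]
    · have h1 : ∀ w ∈ (WW v x).filter (fun w => star q ∣ w),
          ‖f q * f w - G (q * w)‖ ^ 2 ≤ (1 + K) ^ 2 := by
        intro w hw
        have hw1 := (ftr_WW hx0.le (Finset.mem_filter.1 hw).1).2
        have h2 : ‖f q * f w - G (q * w)‖ ≤ 1 + K := by
          refine (norm_sub_le _ _).trans (add_le_add ?_ (hG _))
          rw [norm_mul]
          have h3 := hf.le q hq1.ne_zero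
          have h4 := hf.le w (prim_ne_zero hw1)
          nlinarith [norm_nonneg (f q), norm_nonneg (f w)]
        gcongr
      refine (Finset.sum_le_sum h1).trans ?_
      rw [Finset.sum_const, nsmul_eq_mul, mul_comm]
      refine mul_le_mul_of_nonneg_left ?_ (by positivity)
      exact ftr_bad hC hcard hx1 v hq (hQ1 v hv q hq)
  have htot : ∑ v ∈ Finset.Ico a b, ∑ q ∈ blk 4 v, ∑ w ∈ WW v x, ‖f q * f w - G (q * w)‖ ^ 2 ≤
      ∑ q ∈ Q, ((∑ z ∈ (pann (x / 2) x).filter (fun z => q ∣ z), g z) +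
          (1 + K) ^ 2 * (C * x ^ (1 / 25 : ℝ))) := by
    rw [← hdis]
    exact Finset.sum_le_sum fun v hv => Finset.sum_le_sum fun q hq => hone v hv q hq
  refine htot.trans ?_
  rw [Finset.sum_add_distrib]
  refine add_le_add ?_ ?_
  · have h1 : ∑ q ∈ Q, ∑ z ∈ (pann (x / 2) x).filter (fun z => q ∣ z), g z =
        ∑ z ∈ pann (x / 2) x, ((Q.filter (fun q => q ∣ z)).card : ℝ) * g z := by
      simp_rw [Finset.sum_filter]
      rw [Finset.sum_comm]
      refine Finset.sum_congr rfl fun z _ => ?_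
      rw [← Finset.sum_filter, Finset.sum_const, nsmul_eq_mul]
    rw [h1, Finset.mul_sum]
    refine Finset.sum_le_sum fun z hz => mul_le_mul_of_nonneg_right ?_ (hg0 z)
    rw [mem_pann hx0.le] at hz
    have h2 : (Q.filter (fun q => q ∣ z)).card ≤ 2 := by
      refine few hx1 (prim_ne_zero hz.2) hz.1.2 _ fun q hq => ?_
      obtain ⟨hq1, hq2⟩ := Finset.mem_filter.1 hq
      obtain ⟨v, hv, hqv⟩ := Finset.mem_biUnion.1 hq1
      exact ⟨(ftr_blk hqv).1, hQ1 v hv q hqv, hq2⟩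
    exact_mod_cast h2
  · rw [Finset.sum_const, nsmul_eq_mul]
    have h1 : C ^ 2 ≤ x ^ (3 / 50 : ℝ) := by
      have h2 := Real.rpow_le_rpow (by positivity) hxC (by norm_num : (0 : ℝ) ≤ 3 / 50)
      rwa [← Real.rpow_mul (by positivity), show (50 / 3 : ℝ) * (3 / 50) = 1 by norm_num,
        Real.rpow_one] at h2
    calc (Q.card : ℝ) * ((1 + K) ^ 2 * (C * x ^ (1 / 25 : ℝ))) ≤
        (C * x ^ (1 / 2 : ℝ)) * ((1 + K) ^ 2 * (C * x ^ (1 / 25 : ℝ))) := by gcongr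
      _ = (1 + K) ^ 2 * (C ^ 2 * (x ^ (1 / 2 : ℝ) * x ^ (1 / 25 : ℝ))) := by ring
      _ ≤ (1 + K) ^ 2 * (x ^ (3 / 50 : ℝ) * (x ^ (1 / 2 : ℝ) * x ^ (1 / 25 : ℝ))) := by gcongr
      _ = (1 + K) ^ 2 * x ^ (3 / 5 : ℝ) := by
          rw [← Real.rpow_add hx0, ← Real.rpow_add hx0]
          norm_num

end Pool.Agent.NSqP
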