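import Pool.Agent.Lib.NSqP.SvClm
import Pool.Agent.Lib.NSqP.FTr
import Pool.Agent.Lib.NSqP.FPair
import Pool.Agent.Lib.NSqP.FDen
import Pool.Agent.Lib.NSqP.PC

/-!
# FFIN: the final step
`card_WW`: `card_pann`: `b - a = x e^(-v/4) (e^(-1/4) - 1/2) ≥ 0.27 x e^(-v/4)`, `x e^(-v/4) ≥ √x`.
`card_blk_le`: `|B_v| e^(-(v+1)/4) ≤ sv 4 v ≤ 2.5` (`sv_le`).
`FFIN`: if a small set of frequencies carries almost all of the mass then the frequency zero does.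
-/

set_option autoImplicit false

namespace Pool.Agent.NSqP

open Real Filter

private lemma exp_neg_quarter : (3 : ℝ) / 4 ≤ exp (-(1 / 4)) := by
  have := add_one_le_exp (-(1 / 4) : ℝ)
  linarith

theorem card_WW : ∃ x0 : ℝ, ∀ (x : ℝ) (v : ℕ), x0 ≤ x → exp ((v : ℝ) / 4) ≤ x ^ (1 / 2 : ℝ) →
    1 / 10 * (x * exp (-((v : ℝ) / 4))) ≤ ((WW v x).card : ℝ) := by
  obtain ⟨C, hC, hcard⟩ := card_pann
  -- `t0` such that `C t^(3/4) ≤ t / 10`, `t ≥ 2`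
  have hev : ∀ᶠ t : ℝ in atTop, C * t ^ ((3 : ℝ) / 4) ≤ 1 / 10 * t := by
    have h1 : ∀ᶠ t : ℝ in atTop, 10 * C ≤ t ^ ((1 : ℝ) / 4) :=
      (tendsto_rpow_atTop (by norm_num)).eventually_ge_atTop _
    filter_upwards [h1, eventually_gt_atTop 0] with t ht ht0
    have h2 : t = t ^ ((1 : ℝ) / 4) * t ^ ((3 : ℝ) / 4) := by
      rw [← rpow_add ht0]; norm_num
    have h3 : 0 ≤ t ^ ((3 : ℝ) / 4) := by positivity
    nlinarith
  obtain ⟨t0, ht0⟩ := (hev.and (eventually_ge_atTop 2)).exists_forall_of_atTop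
  refine ⟨max 1 (t0 ^ 2), fun x v hx hv => ?_⟩
  have hx1 : 1 ≤ x := le_trans (le_max_left _ _) hx
  have hx2 : t0 ^ 2 ≤ x := le_trans (le_max_right _ _) hx
  have hx0 : 0 < x := by linarith
  set t := x * exp (-((v : ℝ) / 4)) with ht
  have htx : x ^ (1 / 2 : ℝ) ≤ t := by
    have h1 : x = x ^ (1 / 2 : ℝ) * x ^ (1 / 2 : ℝ) := by
      rw [← rpow_add hx0]; norm_num
    have h2 : 0 < x ^ (1 / 2 : ℝ) := by positivity
    rw [ht, exp_neg, ← div_eq_mul_inv, le_div_iff₀ (exp_pos _)]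
    calc x ^ (1 / 2 : ℝ) * exp ((v : ℝ) / 4) ≤ x ^ (1 / 2 : ℝ) * x ^ (1 / 2 : ℝ) := by gcongr
      _ = x := h1.symm
  have htt : t0 ≤ t := by
    refine le_trans ?_ htx
    rw [← sqrt_eq_rpow]
    exact le_sqrt_of_sq_le hx2
  obtain ⟨h1, h2⟩ := ht0 t htt
  have hb : x * exp (-(((v : ℝ) + 1) / 4)) = t * exp (-(1 / 4)) := by
    rw [ht, mul_assoc, ← exp_add]; congr 2; ring
  have ha : x / 2 * exp (-((v : ℝ) / 4)) = t / 2 := by rw [ht]; ring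
  have hq := exp_neg_quarter
  have hq1 : exp (-(1 / 4 : ℝ)) ≤ 1 := exp_le_one_iff.2 (by norm_num)
  unfold WW
  rw [ha, hb]
  have h3 := hcard (t / 2) (t * exp (-(1 / 4))) (by linarith) (by nlinarith) (by nlinarith)
  have h4 : (t * exp (-(1 / 4))) ^ ((3 : ℝ) / 4) ≤ t ^ ((3 : ℝ) / 4) :=
    rpow_le_rpow (by positivity) (by nlinarith) (by norm_num)
  have h5 : 0.52 * π * (t / 4) ≤ 0.52 * π * (t * exp (-(1 / 4)) - t / 2) := by
    have : 0 ≤ 0.52 * π := by positivity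
    apply mul_le_mul_of_nonneg_left _ this
    nlinarith
  have h6 : 0.52 * 3 * (t / 4) ≤ 0.52 * π * (t / 4) := by
    have := pi_gt_three
    have : 0 ≤ t / 4 := by linarith
    nlinarith
  have h7 : C * (t * exp (-(1 / 4))) ^ ((3 : ℝ) / 4) ≤ C * t ^ ((3 : ℝ) / 4) := by gcongr
  linarith

theorem card_blk_le (v : ℕ) : ((blk 4 v).card : ℝ) ≤ 4 * exp ((v : ℝ) / 4) := by
  have h1 := sv_le (H := 4) (by norm_num) v
  have h2 : ((blk 4 v).card : ℝ) * exp (-(((v : ℝ) + 1) / 4)) ≤ sv 4 v := by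
    unfold sv
    rw [← nsmul_eq_mul, ← Finset.sum_const]
    refine Finset.sum_le_sum fun q hq => ?_
    rw [mem_blk] at hq
    have h3 : 0 < (nN q : ℝ) := by
      have := hq.1.2.2.1.pos
      exact_mod_cast this
    rw [exp_neg, ← one_div]
    refine one_div_le_one_div_of_le h3 ?_
    have := hq.2.2.le
    simpa using this
  have h3 : exp (-((v : ℝ) / ((4 : ℕ) : ℝ))) ≤ 1 := exp_le_one_iff.2 (by
    have : (0 : ℝ) ≤ (v : ℝ) / ((4 : ℕ) : ℝ) := by positivity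
    linarith)
  have h4 : ((blk 4 v).card : ℝ) * exp (-(((v : ℝ) + 1) / 4)) ≤ 5 / 2 := by
    have : 2 * (1 / ((4 : ℕ) : ℝ) + exp (-((v : ℝ) / ((4 : ℕ) : ℝ)))) ≤ 5 / 2 := by
      push_cast at h3 ⊢
      linarith
    linarith
  have h5 : ((blk 4 v).card : ℝ) = ((blk 4 v).card : ℝ) * exp (-(((v : ℝ) + 1) / 4)) *
      (exp ((v : ℝ) / 4) * exp (1 / 4)) := by
    rw [mul_assoc, ← exp_add, ← exp_add]
    have : -(((v : ℝ) + 1) / 4) + ((v : ℝ) / 4 + 1 / 4) = 0 := by ring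
    rw [this, exp_zero, mul_one]
  have h6 : exp (1 / 4 : ℝ) ≤ 4 / 3 := by
    have h7 := exp_neg_quarter
    rw [exp_neg] at h7
    have h8 := exp_pos (1 / 4 : ℝ)
    rw [le_inv_comm₀ (by norm_num) h8] at h7
    linarith
  rw [h5]
  have h7 := exp_pos ((v : ℝ) / 4)
  have h8 := exp_pos (1 / 4 : ℝ)
  calc ((blk 4 v).card : ℝ) * exp (-(((v : ℝ) + 1) / 4)) * (exp ((v : ℝ) / 4) * exp (1 / 4))
      ≤ 5 / 2 * (exp ((v : ℝ) / 4) * exp (1 / 4)) := by gcongr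
    _ ≤ 5 / 2 * (exp ((v : ℝ) / 4) * (4 / 3)) := by gcongr
    _ ≤ 4 * exp ((v : ℝ) / 4) := by linarith

private lemma ev_err (κ ε : ℝ) (hκ : 0 < κ) (hκ1 : κ ≤ 1) (hε : 0 < ε) : ∀ᶠ x : ℝ in atTop,
    8 * x ^ (1 - 7 * κ / 8) + 4 * (4 * x ^ (κ / 8 + 3 / 5)) +
      4 * (8 * log x * x ^ (1 - 3 * κ / 8)) ≤ ε * x := by
  have h1 : ∀ᶠ x : ℝ in atTop, 56 / ε ≤ x ^ (κ / 8) :=
    (tendsto_rpow_atTop (by positivity)).eventually_ge_atTop _
  have h2 : ∀ᶠ x : ℝ in atTop, log x ≤ x ^ (κ / 4) := by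
    have h := (isLittleO_log_rpow_atTop (show 0 < κ / 4 by positivity)).bound
      (show (0 : ℝ) < 1 by norm_num)
    filter_upwards [h, eventually_ge_atTop 1] with x hx hx1
    rw [one_mul, norm_of_nonneg (log_nonneg hx1), norm_of_nonneg (by positivity)] at hx
    exact hx
  filter_upwards [h1, h2, eventually_ge_atTop 1] with x hx1 hx2 hx3
  have hx0 : 0 < x := by linarith
  have hA : x ^ (1 - 7 * κ / 8) ≤ x ^ (1 - κ / 8) :=
    rpow_le_rpow_of_exponent_le hx3 (by linarith)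
  have hB : x ^ (κ / 8 + 3 / 5) ≤ x ^ (1 - κ / 8) :=
    rpow_le_rpow_of_exponent_le hx3 (by linarith)
  have hC : log x * x ^ (1 - 3 * κ / 8) ≤ x ^ (1 - κ / 8) := by
    calc log x * x ^ (1 - 3 * κ / 8) ≤ x ^ (κ / 4) * x ^ (1 - 3 * κ / 8) := by gcongr
      _ = x ^ (1 - κ / 8) := by rw [← rpow_add hx0]; congr 1; ring
  have hD : 56 * x ^ (1 - κ / 8) ≤ ε * x := by
    have h3 : x = x ^ (κ / 8) * x ^ (1 - κ / 8) := by
      rw [← rpow_add hx0]; ring_nf; rw [rpow_one]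
    have h4 : 56 ≤ ε * x ^ (κ / 8) := by
      rw [div_le_iff₀ hε] at hx1; linarith
    have h5 : 0 < x ^ (1 - κ / 8) := by positivity
    calc 56 * x ^ (1 - κ / 8) ≤ (ε * x ^ (κ / 8)) * x ^ (1 - κ / 8) := by gcongr
      _ = ε * x := by rw [mul_assoc, ← h3]
  nlinarith

theorem FFIN (hW1 : W1Stmt) (hW2 : W2Stmt) : ∃ κa : ℝ, 0 < κa ∧ κa ≤ 1 ∧ ∃ C : ℝ, 0 < C ∧
    ∀ ε : ℝ, 0 < ε → ∃ x0 : ℝ, ∀ (x : ℝ) (f : GaussianInt → ℂ) (U : Finset ℤ), x0 ≤ x →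
      CMC f → PM f → (∀ m ∈ U, |(m : ℝ)| ≤ x) → (U.card : ℝ) ≤ x ^ κa →
      (1 - ε) * ((pann (x / 2) x).card : ℝ) ^ 2 ≤ ∑ m ∈ U, ‖Zs f (x / 2) x m‖ ^ 2 →
      (1 - C * ε) * ((pann (x / 2) x).card : ℝ) ^ 2 ≤ ‖Zs f (x / 2) x 0‖ ^ 2 := by
  classical
  obtain ⟨κ0, hκ0, Y0, hY⟩ := hW2
  obtain ⟨c1, hc1, c3, hc3, xD, hDen⟩ := DENSE
  obtain ⟨c2, hc2, hc2', xC, hClaim⟩ := CLAIM hW1 c1 hc1
  obtain ⟨xF, hF2⟩ := F2
  obtain ⟨xW, hWW⟩ := card_WW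
  obtain ⟨Cp, hCp, hpc⟩ := card_pann
  obtain ⟨C0, hC0, hub⟩ := card_ann_le
  set κ := min κ0 1 with hκdef
  have hκ : 0 < κ := lt_min hκ0 one_pos
  have hκ1 : κ ≤ 1 := min_le_right _ _
  have hκle : κ ≤ κ0 := min_le_left _ _
  set C' : ℝ := 20 / (c2 * c3) * (8 * C0 + 1) with hC'
  have hC'pos : 0 < C' := by positivity
  refine ⟨κ / 16, by positivity, by linarith, C' + 1, by positivity, fun ε hε => ?_⟩
  have ev3 : ∀ᶠ x : ℝ in atTop, Y0 ≤ x ^ (1 / 2 : ℝ) :=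
    (tendsto_rpow_atTop (by norm_num)).eventually_ge_atTop _
  have ev4 : ∀ᶠ x : ℝ in atTop, 2 * x ≤ (x ^ (1 / 2 : ℝ)) ^ (23 / 10 : ℝ) := by
    have h1 : ∀ᶠ x : ℝ in atTop, 2 ≤ x ^ (3 / 20 : ℝ) :=
      (tendsto_rpow_atTop (by norm_num)).eventually_ge_atTop _
    filter_upwards [h1, eventually_gt_atTop 0] with x hx hx0
    rw [← rpow_mul hx0.le]
    calc 2 * x ≤ x ^ (3 / 20 : ℝ) * x := by gcongr
      _ = x ^ (3 / 20 : ℝ) * x ^ (1 : ℝ) := by rw [rpow_one]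
      _ = x ^ ((1 : ℝ) / 2 * (23 / 10)) := by rw [← rpow_add hx0]; norm_num
  have ev5 : ∀ᶠ x : ℝ in atTop, 1 / 2 * x ≤ ((pann (x / 2) x).card : ℝ) := by
    have h1 : ∀ᶠ t : ℝ in atTop, Cp * t ^ ((3 : ℝ) / 4) ≤ 1 / 4 * t := by
      have h1 : ∀ᶠ t : ℝ in atTop, 4 * Cp ≤ t ^ ((1 : ℝ) / 4) :=
        (tendsto_rpow_atTop (by norm_num)).eventually_ge_atTop _
      filter_upwards [h1, eventually_gt_atTop 0] with t ht ht0
      have h2 : t = t ^ ((1 : ℝ) / 4) * t ^ ((3 : ℝ) / 4) := by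
        rw [← rpow_add ht0]; norm_num
      have h3 : 0 ≤ t ^ ((3 : ℝ) / 4) := by positivity
      nlinarith
    filter_upwards [h1, eventually_ge_atTop 1] with x hx hx1
    have h2 := hpc (x / 2) x (by linarith) (by linarith) hx1
    have h3 : 0.52 * 3 * (x - x / 2) ≤ 0.52 * π * (x - x / 2) := by
      have := pi_gt_three
      have : 0 ≤ x - x / 2 := by linarith
      nlinarith
    linarith
  have ev6 := ev_err κ ε hκ hκ1 hε
  obtain ⟨x0, hx0⟩ := ((((ev3.and ev4).and ev5).and ev6).and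
    (((eventually_ge_atTop (max xD xC)).and (eventually_ge_atTop (max xF xW))).and
      (eventually_ge_atTop (2 : ℝ)))).exists_forall_of_atTop
  refine ⟨x0, fun x f U hx hf hpm hU hcard hmass => ?_⟩
  obtain ⟨⟨⟨⟨e3, e4⟩, e5⟩, e6⟩, ⟨e7, e8⟩, e9⟩ := hx0 x hx
  have hxD : xD ≤ x := le_trans (le_max_left _ _) e7
  have hxC : xC ≤ x := le_trans (le_max_right _ _) e7
  have hxF : xF ≤ x := le_trans (le_max_left _ _) e8
  have hxW : xW ≤ x := le_trans (le_max_right _ _) e8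
  have hxpos : 0 < x := by linarith
  have hx1 : 1 ≤ x := by linarith
  have hs1 : 1 ≤ x ^ (1 / 2 : ℝ) := one_le_rpow hx1 (by norm_num)
  have hsx : x ^ (1 / 2 : ℝ) ≤ x := by
    conv_rhs => rw [← rpow_one x]
    exact rpow_le_rpow_of_exponent_le hx1 (by norm_num)
  have hss : x ^ (1 / 2 : ℝ) * x ^ (1 / 2 : ℝ) = x := by
    rw [← rpow_add hxpos]; norm_num
  -- the W2 bound in the form needed
  have hW : ∀ Y : ℝ, x ^ (1 / 2 : ℝ) ≤ Y → ∀ a b : ℝ, 0 ≤ a → a ≤ b → b ≤ Y →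
      ∀ m ∈ U, ∀ n ∈ U, m ≠ n → ‖∑ z ∈ pann a b, xi z ^ (m - n)‖ ≤ Y ^ (1 - κ) := by
    intro Y h1 a b ha hab hb m hm n hn hmn
    have hY1 : 1 ≤ Y := hs1.trans h1
    have h3 : |((m - n : ℤ) : ℝ)| ≤ Y ^ (23 / 10 : ℝ) := by
      push_cast
      calc |(m : ℝ) - n| ≤ |(m : ℝ)| + |(n : ℝ)| := abs_sub _ _
        _ ≤ x + x := add_le_add (hU m hm) (hU n hn)
        _ = 2 * x := by ring
        _ ≤ (x ^ (1 / 2 : ℝ)) ^ (23 / 10 : ℝ) := e4
        _ ≤ Y ^ (23 / 10 : ℝ) := rpow_le_rpow (by positivity) h1 (by norm_num)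
    have h4 := hY Y (e3.trans h1) (m - n) (sub_ne_zero.2 hmn) h3 a b ha hab hb
    exact h4.trans (rpow_le_rpow_of_exponent_le hY1 (by linarith))
  set n : ℝ := ((pann (x / 2) x).card : ℝ) with hn
  have hnpos : 0 < n := by linarith
  have hnC : n ≤ C0 * x := by
    refine le_trans ?_ (hub x hxpos.le)
    rw [hn]
    exact_mod_cast Finset.card_le_card (fun z hz => by
      rw [mem_pann hxpos.le] at hz
      rw [mem_ann hxpos.le]
      exact ⟨by linarith [hz.1.1], hz.1.2⟩)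
  set u : ℝ := (U.card : ℝ) with hu
  have hu0 : 0 ≤ u := Nat.cast_nonneg _
  have hu2 : u ^ 2 ≤ x ^ (κ / 8) := by
    calc u ^ 2 ≤ (x ^ (κ / 16)) ^ 2 := by gcongr
      _ = x ^ (κ / 8) := by
        rw [← rpow_natCast, ← rpow_mul hxpos.le]; congr 1; push_cast; ring
  have hu3 : (1 + u) ^ 2 ≤ 4 * x ^ (κ / 8) := by
    have h1 : 1 ≤ x ^ (κ / 16) := one_le_rpow hx1 (by positivity)
    calc (1 + u) ^ 2 ≤ (x ^ (κ / 16) + x ^ (κ / 16)) ^ 2 := by gcongr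
      _ = 4 * (x ^ (κ / 16)) ^ 2 := by ring
      _ = 4 * x ^ (κ / 8) := by
        rw [← rpow_natCast, ← rpow_mul hxpos.le]; congr 2; push_cast; ring
  -- F1
  have hE1 : 0 ≤ x ^ (1 - κ) := by positivity
  have hF1 := F1 f x U (x ^ (1 - κ)) hE1 hxpos.le (by exact_mod_cast (hn ▸ hnpos)) hpm
    (hW x hsx (x / 2) x (by linarith) (by linarith) le_rfl)
  rw [← hn, ← hu] at hF1
  set S : ℝ := ∑ m ∈ U, ‖TT f x m‖ ^ 2 with hS
  have hTT : ∀ m, ‖Zs f (x / 2) x m‖ ^ 2 = n ^ 2 * ‖TT f x m‖ ^ 2 := by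
    intro m
    unfold TT
    rw [norm_div, Complex.norm_natCast, ← hn, div_pow]
    field_simp
  have hS1 : 1 - ε ≤ S := by
    have h1 : (1 - ε) * n ^ 2 ≤ n ^ 2 * S := by
      refine hmass.trans (le_of_eq ?_)
      rw [hS, Finset.mul_sum]
      exact Finset.sum_congr rfl fun m _ => hTT m
    have h2 : 0 < n ^ 2 := by positivity
    exact le_of_mul_le_mul_left (by linarith : n ^ 2 * (1 - ε) ≤ n ^ 2 * S) h2
  have hT1 : u ^ 2 * x ^ (1 - κ) ≤ x ^ (1 - 7 * κ / 8) := by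
    calc u ^ 2 * x ^ (1 - κ) ≤ x ^ (κ / 8) * x ^ (1 - κ) := by gcongr
      _ = x ^ (1 - 7 * κ / 8) := by rw [← rpow_add hxpos]; congr 1; ring
  have hD1 : ∑ z ∈ pann (x / 2) x, ‖f z - GG f x U z‖ ^ 2 ≤ ε * n + x ^ (1 - 7 * κ / 8) := by
    have h1 : n * (1 - S) ≤ n * ε := mul_le_mul_of_nonneg_left (by linarith) hnpos.le
    linarith
  -- F2
  obtain ⟨a, b, ha, hb, hdense⟩ := hDen x hxD
  have hF2' := hF2 f (GG f x U) x u a b hxF hf hpm ha hb hu0 (GG_le hpm hxpos.le U)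
  set AA : ℝ := ∑ v ∈ Finset.Ico a b, ∑ q ∈ blk 4 v, ∑ w ∈ WW v x,
    ‖f q * f w - GG f x U (q * w)‖ ^ 2 with hAA
  have hT2 : (1 + u) ^ 2 * x ^ (3 / 5 : ℝ) ≤ 4 * x ^ (κ / 8 + 3 / 5) := by
    calc (1 + u) ^ 2 * x ^ (3 / 5 : ℝ) ≤ (4 * x ^ (κ / 8)) * x ^ (3 / 5 : ℝ) := by gcongr
      _ = 4 * x ^ (κ / 8 + 3 / 5) := by rw [mul_assoc, ← rpow_add hxpos]
  have hA1 : AA ≤ 2 * (ε * n + x ^ (1 - 7 * κ / 8)) + 4 * x ^ (κ / 8 + 3 / 5) := by linarith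
  -- the nonzero frequencies
  set S' : ℝ := ∑ m ∈ U.erase 0, ‖TT f x m‖ ^ 2 with hS'
  have hS'0 : 0 ≤ S' := Finset.sum_nonneg fun _ _ => by positivity
  set Dn := (Finset.Ico a b).filter
    (fun v : ℕ => c1 * exp ((v : ℝ) / 4) / log x ≤ ((blk 4 v).card : ℝ)) with hDn
  have hlog : 0 < log x := log_pos (by linarith)
  have key : ∀ v ∈ Dn, c2 / 20 * S' * x * (((blk 4 v).card : ℝ) * exp (-((v : ℝ) / 4))) ≤
      4 * (∑ q ∈ blk 4 v, ∑ w ∈ WW v x, ‖f q * f w - GG f x U (q * w)‖ ^ 2) +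
        16 * u ^ 2 * x ^ (1 - κ / 2) := by
    intro v hv
    rw [hDn, Finset.mem_filter, Finset.mem_Ico] at hv
    obtain ⟨⟨hv1, hv2⟩, hv3⟩ := hv
    have hva : exp ((a : ℝ) / 4) ≤ exp ((v : ℝ) / 4) := by
      apply exp_le_exp.2
      have : (a : ℝ) ≤ v := by exact_mod_cast hv1
      linarith
    have hvb : exp ((v : ℝ) / 4) ≤ exp ((b : ℝ) / 4) := by
      apply exp_le_exp.2
      have : (v : ℝ) ≤ b := by exact_mod_cast hv2.le
      linarith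
    have hv4 : x ^ (12 / 25 : ℝ) ≤ exp ((v : ℝ) / 4) := ha.trans hva
    have hv5 : exp ((v : ℝ) / 4) ≤ x ^ (1 / 2 : ℝ) := hvb.trans hb
    have hv6 : exp ((v : ℝ) / 4) ≤ x := hv5.trans hsx
    set B : ℝ := ((blk 4 v).card : ℝ) with hB
    have hBpos : 0 < B := lt_of_lt_of_le (by positivity) hv3
    set Y := x * exp (-((v : ℝ) / 4)) with hYdef
    have hYlow : x ^ (1 / 2 : ℝ) ≤ Y := by
      rw [hYdef, exp_neg, ← div_eq_mul_inv, le_div_iff₀ (exp_pos _)]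
      calc x ^ (1 / 2 : ℝ) * exp ((v : ℝ) / 4) ≤ x ^ (1 / 2 : ℝ) * x ^ (1 / 2 : ℝ) := by gcongr
        _ = x := hss
    have hYpos : 0 < Y := by positivity
    have hWv : x / 2 * exp (-((v : ℝ) / 4)) = Y / 2 := by rw [hYdef]; ring
    have hWv' : x * exp (-(((v : ℝ) + 1) / 4)) = Y * exp (-(1 / 4)) := by
      rw [hYdef, mul_assoc, ← exp_add]; congr 2; ring
    have hq := exp_neg_quarter
    have hq1 : exp (-(1 / 4 : ℝ)) ≤ 1 := exp_le_one_iff.2 (by norm_num)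
    have hWE : ∀ m ∈ U, ∀ n ∈ U, m ≠ n → ‖∑ w ∈ WW v x, xi w ^ (m - n)‖ ≤ Y ^ (1 - κ) := by
      unfold WW
      rw [hWv, hWv']
      have hq2 := mul_le_mul_of_nonneg_left hq hYpos.le
      have hq3 := mul_le_mul_of_nonneg_left hq1 hYpos.le
      exact hW Y hYlow (Y / 2) (Y * exp (-(1 / 4))) (by linarith) (by linarith) (by linarith)
    have hBne : ∀ q ∈ blk 4 v, q ≠ 0 := fun q hq => (mem_blk.1 hq).1.ne_zero
    have hWne : ∀ w ∈ WW v x, w ≠ 0 := by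
      intro w hw
      unfold WW at hw
      rw [mem_pann (by positivity)] at hw
      exact prim_ne_zero hw.2
    have h3 := F3 f (TT f x) U (blk 4 v) (WW v x) (Y ^ (1 - κ)) (by positivity) hBne hWne hpm
      (fun m => TT_le hpm hxpos.le m) hWE
    have h3b := F3b f (GG f x U) (blk 4 v) (WW v x) hBne hWne hpm
    have h4 := h3.trans h3b
    rw [← hB, ← hu] at h4
    -- lower bound for the main term
    have h5 : c2 * B ^ 2 * S' ≤ ∑ m ∈ U, ‖TT f x m‖ ^ 2 *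
        (B ^ 2 - ‖∑ q ∈ blk 4 v, xi q ^ (2 * m)‖ ^ 2) := by
      have h6 : ∀ m ∈ U, 0 ≤ ‖TT f x m‖ ^ 2 *
          (B ^ 2 - ‖∑ q ∈ blk 4 v, xi q ^ (2 * m)‖ ^ 2) := by
        intro m _
        have h7 : ‖∑ q ∈ blk 4 v, xi q ^ (2 * m)‖ ≤ B := by
          refine (norm_sum_le _ _).trans ?_
          rw [Finset.sum_congr rfl fun q hq => norm_xi_zpow (hBne q hq) (2 * m)]
          simp [hB]
        have h8 : ‖∑ q ∈ blk 4 v, xi q ^ (2 * m)‖ ^ 2 ≤ B ^ 2 := by gcongr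
        have h9 : 0 ≤ ‖TT f x m‖ ^ 2 := by positivity
        exact mul_nonneg h9 (by linarith)
      calc c2 * B ^ 2 * S' = ∑ m ∈ U.erase 0, ‖TT f x m‖ ^ 2 * (c2 * B ^ 2) := by
            rw [hS', Finset.mul_sum]
            exact Finset.sum_congr rfl fun m _ => by ring
        _ ≤ ∑ m ∈ U.erase 0, ‖TT f x m‖ ^ 2 *
            (B ^ 2 - ‖∑ q ∈ blk 4 v, xi q ^ (2 * m)‖ ^ 2) := by
            refine Finset.sum_le_sum fun m hm => ?_
            rw [Finset.mem_erase] at hm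
            have h7 := hClaim x v (2 * m) hxC hv4 hv6 hv3 (by
              have := hm.1
              omega) (by
              push_cast
              rw [abs_mul, abs_two]
              exact mul_le_mul_of_nonneg_left (hU m hm.2) (by norm_num))
            rw [← hB] at h7
            have h9 : 0 ≤ ‖TT f x m‖ ^ 2 := by positivity
            exact mul_le_mul_of_nonneg_left (by linarith) h9
        _ ≤ _ := Finset.sum_le_sum_of_subset_of_nonneg (Finset.erase_subset _ _)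
            fun m hm _ => h6 m hm
    set Q : ℝ := ∑ q ∈ blk 4 v, ∑ w ∈ WW v x, ‖f q * f w - GG f x U (q * w)‖ ^ 2 with hQ
    have hWcard : 1 / 10 * Y ≤ ((WW v x).card : ℝ) := hWW x v hxW hv5
    have h6 : ((WW v x).card : ℝ) / 2 * (c2 * B ^ 2 * S') - 4 * u ^ 2 * Y ^ (1 - κ) * B ^ 2 ≤
        4 * B * Q := by
      have h7 : 0 ≤ ((WW v x).card : ℝ) / 2 := by positivity
      have h8 := mul_le_mul_of_nonneg_left h5 h7
      linarith
    have h7 : ((WW v x).card : ℝ) / 2 * (c2 * B * S') ≤ 4 * Q + 4 * u ^ 2 * (Y ^ (1 - κ) * B) := by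
      have h8 : B * (((WW v x).card : ℝ) / 2 * (c2 * B * S')) ≤
          B * (4 * Q + 4 * u ^ 2 * (Y ^ (1 - κ) * B)) := by
        linarith
      exact le_of_mul_le_mul_left h8 hBpos
    have h8 : Y ^ (1 - κ) * B ≤ 4 * x ^ (1 - κ / 2) := by
      have h9 := card_blk_le v
      rw [← hB] at h9
      have h10 : exp ((v : ℝ) / 4) = x / Y := by
        rw [hYdef, exp_neg]; field_simp
      have h11 : Y ^ (1 - κ) * (x / Y) = x * Y ^ (-κ) := by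
        rw [rpow_sub hYpos, rpow_one, rpow_neg hYpos.le]
        field_simp
      have h12 : Y ^ (-κ) ≤ x ^ (-(κ / 2)) := by
        have : x ^ (-(κ / 2)) = (x ^ (1 / 2 : ℝ)) ^ (-κ) := by
          rw [← rpow_mul hxpos.le]; congr 1; ring
        rw [this]
        exact rpow_le_rpow_of_nonpos (by positivity) hYlow (by linarith)
      calc Y ^ (1 - κ) * B ≤ Y ^ (1 - κ) * (4 * exp ((v : ℝ) / 4)) := by gcongr
        _ = 4 * (x * Y ^ (-κ)) := by rw [h10, ← h11]; ring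
        _ ≤ 4 * (x * x ^ (-(κ / 2))) := by gcongr
        _ = 4 * x ^ (1 - κ / 2) := by
          rw [sub_eq_add_neg, rpow_add hxpos, rpow_one]
    have h9 : c2 / 20 * S' * x * (B * exp (-((v : ℝ) / 4))) ≤
        ((WW v x).card : ℝ) / 2 * (c2 * B * S') := by
      have h10 : 0 ≤ c2 * B * S' := by positivity
      calc c2 / 20 * S' * x * (B * exp (-((v : ℝ) / 4))) = 1 / 10 * Y / 2 * (c2 * B * S') := by
            rw [hYdef]; ring
        _ ≤ _ := by gcongr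
    have h10 : 4 * u ^ 2 * (Y ^ (1 - κ) * B) ≤ 4 * u ^ 2 * (4 * x ^ (1 - κ / 2)) := by gcongr
    linarith
  -- sum over the dense blocks
  have hcardD : (Dn.card : ℝ) ≤ 2 * log x := by
    have h1 : Dn.card ≤ b := by
      calc Dn.card ≤ (Finset.Ico a b).card := Finset.card_filter_le _ _
        _ = b - a := Nat.card_Ico a b
        _ ≤ b := Nat.sub_le _ _
    have h2 : (b : ℝ) / 4 ≤ log (x ^ (1 / 2 : ℝ)) := by
      rw [le_log_iff_exp_le (by positivity)]; exact hb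
    rw [log_rpow hxpos] at h2
    have h3 : (Dn.card : ℝ) ≤ b := by exact_mod_cast h1
    linarith
  have hsum := Finset.sum_le_sum key
  rw [← Finset.mul_sum, Finset.sum_add_distrib, Finset.sum_const, nsmul_eq_mul,
    ← Finset.mul_sum] at hsum
  have hQA : ∑ v ∈ Dn, ∑ q ∈ blk 4 v, ∑ w ∈ WW v x, ‖f q * f w - GG f x U (q * w)‖ ^ 2 ≤ AA :=
    Finset.sum_le_sum_of_subset_of_nonneg (Finset.filter_subset _ _) fun v _ _ =>
      Finset.sum_nonneg fun q _ => Finset.sum_nonneg fun w _ => by positivity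
  have hT3 : (Dn.card : ℝ) * (16 * u ^ 2 * x ^ (1 - κ / 2)) ≤
      4 * (8 * log x * x ^ (1 - 3 * κ / 8)) := by
    calc (Dn.card : ℝ) * (16 * u ^ 2 * x ^ (1 - κ / 2))
        ≤ (2 * log x) * (16 * x ^ (κ / 8) * x ^ (1 - κ / 2)) := by gcongr
      _ = 4 * (8 * log x * (x ^ (κ / 8) * x ^ (1 - κ / 2))) := by ring
      _ = 4 * (8 * log x * x ^ (1 - 3 * κ / 8)) := by
        rw [← rpow_add hxpos]; congr 3; ring
  have hfin : c2 / 20 * S' * x * c3 ≤ 8 * (ε * n) + ε * x := by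
    have h1 : c2 / 20 * S' * x * c3 ≤ c2 / 20 * S' * x *
        ∑ v ∈ Dn, (((blk 4 v).card : ℝ) * exp (-((v : ℝ) / 4))) := by gcongr
    linarith
  have hS'le : S' ≤ C' * ε := by
    have h1 : c2 / 20 * S' * x * c3 ≤ (8 * C0 + 1) * ε * x := by
      have : 8 * (ε * n) ≤ 8 * (ε * (C0 * x)) := by gcongr
      linarith
    have h2 : (c2 * c3) * S' ≤ 20 * (8 * C0 + 1) * ε := by
      have h3 : x * ((c2 * c3) * S') ≤ x * (20 * (8 * C0 + 1) * ε) := by linarith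
      exact le_of_mul_le_mul_left h3 hxpos
    rw [hC']
    have h3 : 20 / (c2 * c3) * (8 * C0 + 1) * ε = (20 * (8 * C0 + 1) * ε) / (c2 * c3) := by ring
    rw [h3, le_div_iff₀ (by positivity)]
    linarith
  -- conclusion
  rw [hTT 0]
  have hS0 : S ≤ S' + ‖TT f x 0‖ ^ 2 := by
    by_cases h0 : (0 : ℤ) ∈ U
    · rw [hS, hS', ← Finset.sum_erase_add _ _ h0]
    · rw [hS, hS', Finset.erase_eq_of_notMem h0]
      have : 0 ≤ ‖TT f x 0‖ ^ 2 := by positivity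
      linarith
  have h1 : 1 - (C' + 1) * ε ≤ ‖TT f x 0‖ ^ 2 := by linarith
  have h2 : 0 < n ^ 2 := by positivity
  rw [mul_comm]
  exact mul_le_mul_of_nonneg_left h1 h2.le

end Pool.Agent.NSqP
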