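import Pool.Agent.Lib.NSqP.SDefs

/-!
# FORTH: quasi-orthogonality and mean square approximation
`ORTH`: expand `‖∑_m c_m ξ^(-m)‖^2 = ∑_{m,n} c_m conj c_n ξ^(n-m)`; the diagonal gives
`|W| ∑ ‖c_m‖^2` (`‖xi w‖ = 1`), the rest is at most `∑_{m,n} ‖c_m‖‖c_n‖ E`
(`‖∑ xi^(n-m)‖ = ‖∑ xi^(m-n)‖` by conjugation).
`TT_le`: `‖f z‖ ≤ 1`.
`F1`: `‖f - G‖^2 = 1 - 2 Re (conj f * G) + ‖G‖^2`; `f` is real, `∑_z conj (f z) G z =
∑_m T m ∑_z conj(f z) ξ^(-m) = ∑_m T m conj (n T m) = n ∑ ‖T m‖^2`; `∑ ‖G‖^2 ≤ n ∑ ‖T m‖^2 +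
|U|^2 E` by `ORTH` and `TT_le`.
-/

set_option autoImplicit false

namespace Pool.Agent.NSqP

open Real

private lemma fo_conj_xi {w : GaussianInt} (hw : w ≠ 0) (m : ℤ) :
    (starRingEnd ℂ) (xi w ^ m) = xi w ^ (-m) := by
  rw [map_zpow₀, ← Complex.inv_eq_conj (norm_xi hw), inv_zpow', zpow_neg]

private lemma fo_norm_xi_le (z : GaussianInt) (m : ℤ) : ‖xi z ^ m‖ ≤ 1 := by
  by_cases hz : z = 0
  · have h0 : xi z = 0 := by
      rw [hz]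
      unfold xi
      simp
    rw [h0]
    by_cases hm : m = 0
    · rw [hm, zpow_zero, norm_one]
    · rw [zero_zpow m hm, norm_zero]
      exact zero_le_one
  · rw [norm_xi_zpow hz]

theorem ORTH (W : Finset GaussianInt) (U : Finset ℤ) (c : ℤ → ℂ) (E : ℝ) (hE : 0 ≤ E)
    (hW : ∀ w ∈ W, w ≠ 0)
    (h : ∀ m ∈ U, ∀ n ∈ U, m ≠ n → ‖∑ w ∈ W, xi w ^ (m - n)‖ ≤ E) :
    |∑ w ∈ W, ‖∑ m ∈ U, c m * xi w ^ (-m)‖ ^ 2 - W.card * ∑ m ∈ U, ‖c m‖ ^ 2| ≤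
      (∑ m ∈ U, ‖c m‖) ^ 2 * E := by
  classical
  have hdouble : ((∑ w ∈ W, ‖∑ m ∈ U, c m * xi w ^ (-m)‖ ^ 2 : ℝ) : ℂ) =
      ∑ m ∈ U, ∑ n ∈ U, c m * (starRingEnd ℂ) (c n) * ∑ w ∈ W, xi w ^ (n - m) := by
    push_cast
    have h1 : ∀ w ∈ W, ((‖∑ m ∈ U, c m * xi w ^ (-m)‖ : ℝ) : ℂ) ^ 2 =
        ∑ m ∈ U, ∑ n ∈ U, c m * (starRingEnd ℂ) (c n) * xi w ^ (n - m) := by
      intro w hw
      rw [← Complex.mul_conj', map_sum, Finset.sum_mul_sum]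
      refine Finset.sum_congr rfl fun m _ => Finset.sum_congr rfl fun n _ => ?_
      rw [map_mul, fo_conj_xi (hW w hw), neg_neg, sub_eq_add_neg, zpow_add₀ (xi_ne_zero (hW w hw))]
      ring
    rw [Finset.sum_congr rfl h1, Finset.sum_comm]
    refine Finset.sum_congr rfl fun m _ => ?_
    rw [Finset.sum_comm]
    refine Finset.sum_congr rfl fun n _ => ?_
    rw [Finset.mul_sum]
  have hsplit : ∀ m ∈ U, ∑ n ∈ U, c m * (starRingEnd ℂ) (c n) * ∑ w ∈ W, xi w ^ (n - m) =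
      (W.card : ℂ) * ((‖c m‖ : ℝ) : ℂ) ^ 2 +
        ∑ n ∈ U.erase m, c m * (starRingEnd ℂ) (c n) * ∑ w ∈ W, xi w ^ (n - m) := by
    intro m hm
    rw [← Finset.add_sum_erase U _ hm, Complex.mul_conj', sub_self]
    simp only [zpow_zero, Finset.sum_const, nsmul_eq_mul, mul_one]
    ring
  have hdiff : ((∑ w ∈ W, ‖∑ m ∈ U, c m * xi w ^ (-m)‖ ^ 2 -
      W.card * ∑ m ∈ U, ‖c m‖ ^ 2 : ℝ) : ℂ) =
      ∑ m ∈ U, ∑ n ∈ U.erase m, c m * (starRingEnd ℂ) (c n) * ∑ w ∈ W, xi w ^ (n - m) := by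
    rw [Complex.ofReal_sub, hdouble, Finset.sum_congr rfl hsplit, Finset.sum_add_distrib]
    push_cast
    rw [Finset.mul_sum]
    ring
  have hnorm : ∀ n ∈ U, ∀ m ∈ U, n ≠ m → ‖∑ w ∈ W, xi w ^ (n - m)‖ ≤ E := fun n hn m hm hne =>
    h n hn m hm hne
  rw [← Real.norm_eq_abs, ← Complex.norm_real, hdiff]
  calc _ ≤ ∑ m ∈ U, ∑ n ∈ U.erase m, ‖c m‖ * ‖c n‖ * E := by
        refine (norm_sum_le _ _).trans (Finset.sum_le_sum fun m hm => ?_)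
        refine (norm_sum_le _ _).trans (Finset.sum_le_sum fun n hn => ?_)
        rw [norm_mul, norm_mul, RCLike.norm_conj]
        obtain ⟨h1, h2⟩ := Finset.mem_erase.mp hn
        exact mul_le_mul_of_nonneg_left (hnorm n h2 m hm h1) (by positivity)
    _ ≤ ∑ m ∈ U, ∑ n ∈ U, ‖c m‖ * ‖c n‖ * E := by
        refine Finset.sum_le_sum fun m _ => ?_
        exact Finset.sum_le_sum_of_subset_of_nonneg (Finset.erase_subset _ _)
          fun n _ _ => by positivity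
    _ = (∑ m ∈ U, ‖c m‖) ^ 2 * E := by
        rw [sq, Finset.sum_mul_sum, Finset.sum_mul]
        refine Finset.sum_congr rfl fun m _ => ?_
        rw [Finset.sum_mul]

theorem TT_le {f : GaussianInt → ℂ} (hf : PM f) {x : ℝ} (hx : 0 ≤ x) (m : ℤ) :
    ‖TT f x m‖ ≤ 1 := by
  unfold TT
  rw [norm_div, Complex.norm_natCast]
  apply div_le_one_of_le₀ _ (Nat.cast_nonneg _)
  unfold Zs
  calc ‖∑ z ∈ pann (x / 2) x, f z * xi z ^ m‖ ≤ ∑ z ∈ pann (x / 2) x, ‖f z * xi z ^ m‖ :=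
        norm_sum_le _ _
    _ ≤ ∑ z ∈ pann (x / 2) x, (1 : ℝ) := by
        refine Finset.sum_le_sum fun z hz => ?_
        have hz0 := ne_zero_of_mem_ann (by linarith) (pann_subset _ _ hz)
        rw [norm_mul, norm_xi_zpow hz0, mul_one]
        rcases hf z hz0 with h | h <;> rw [h] <;> simp
    _ = _ := by simp

theorem GG_le {f : GaussianInt → ℂ} (hf : PM f) {x : ℝ} (hx : 0 ≤ x) (U : Finset ℤ)
    (z : GaussianInt) : ‖GG f x U z‖ ≤ U.card := by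
  unfold GG
  calc ‖∑ m ∈ U, TT f x m * xi z ^ (-m)‖ ≤ ∑ m ∈ U, ‖TT f x m * xi z ^ (-m)‖ := norm_sum_le _ _
    _ ≤ ∑ m ∈ U, (1 : ℝ) := by
        refine Finset.sum_le_sum fun m _ => ?_
        rw [norm_mul]
        exact mul_le_one₀ (TT_le hf hx m) (norm_nonneg _) (fo_norm_xi_le z _)
    _ = _ := by simp

theorem F1 (f : GaussianInt → ℂ) (x : ℝ) (U : Finset ℤ) (E : ℝ) (hE : 0 ≤ E) (hx : 0 ≤ x)
    (hn : 0 < (pann (x / 2) x).card) (hf : PM f)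
    (h : ∀ m ∈ U, ∀ n ∈ U, m ≠ n → ‖∑ z ∈ pann (x / 2) x, xi z ^ (m - n)‖ ≤ E) :
    ∑ z ∈ pann (x / 2) x, ‖f z - GG f x U z‖ ^ 2 ≤
      ((pann (x / 2) x).card : ℝ) * (1 - ∑ m ∈ U, ‖TT f x m‖ ^ 2) + (U.card : ℝ) ^ 2 * E := by
  have hne : ∀ z ∈ pann (x / 2) x, z ≠ 0 := fun z hz =>
    ne_zero_of_mem_ann (by linarith) (pann_subset _ _ hz)
  have hn' : ((pann (x / 2) x).card : ℂ) ≠ 0 := by exact_mod_cast hn.ne'
  -- expansion
  have hexp : ∀ z ∈ pann (x / 2) x, ‖f z - GG f x U z‖ ^ 2 =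
      1 - 2 * ((starRingEnd ℂ) (f z) * GG f x U z).re + ‖GG f x U z‖ ^ 2 := by
    intro z hz
    have h1 : ‖f z‖ ^ 2 = 1 := by
      rcases hf z (hne z hz) with h | h <;> rw [h] <;> simp
    have h2 : ‖f z - GG f x U z‖ ^ 2 =
        ‖f z‖ ^ 2 - 2 * ((starRingEnd ℂ) (f z) * GG f x U z).re + ‖GG f x U z‖ ^ 2 := by
      rw [← Complex.normSq_eq_norm_sq, ← Complex.normSq_eq_norm_sq, ← Complex.normSq_eq_norm_sq,
        Complex.normSq_apply, Complex.normSq_apply, Complex.normSq_apply]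
      simp only [Complex.sub_re, Complex.sub_im, Complex.mul_re, Complex.conj_re, Complex.conj_im]
      ring
    rw [h2, h1]
  have hcross : ∑ z ∈ pann (x / 2) x, (starRingEnd ℂ) (f z) * GG f x U z =
      (((pann (x / 2) x).card * ∑ m ∈ U, ‖TT f x m‖ ^ 2 : ℝ) : ℂ) := by
    have h1 : ∀ z ∈ pann (x / 2) x, (starRingEnd ℂ) (f z) * GG f x U z =
        ∑ m ∈ U, TT f x m * (starRingEnd ℂ) (f z * xi z ^ m) := by
      intro z hz
      unfold GG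
      rw [Finset.mul_sum]
      refine Finset.sum_congr rfl fun m _ => ?_
      rw [map_mul, fo_conj_xi (hne z hz)]
      ring
    rw [Finset.sum_congr rfl h1, Finset.sum_comm]
    push_cast
    rw [Finset.mul_sum]
    refine Finset.sum_congr rfl fun m _ => ?_
    rw [← Finset.mul_sum, ← map_sum]
    have h2 : ∑ z ∈ pann (x / 2) x, f z * xi z ^ m =
        ((pann (x / 2) x).card : ℂ) * TT f x m := by
      unfold TT Zs
      field_simp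
    rw [h2, map_mul, ← Complex.mul_conj', map_natCast]
    ring
  have hcross' : ∑ z ∈ pann (x / 2) x, ((starRingEnd ℂ) (f z) * GG f x U z).re =
      (pann (x / 2) x).card * ∑ m ∈ U, ‖TT f x m‖ ^ 2 := by
    rw [← Complex.re_sum, hcross, Complex.ofReal_re]
  have horth := ORTH (pann (x / 2) x) U (TT f x) E hE hne h
  have hGG : ∑ z ∈ pann (x / 2) x, ‖GG f x U z‖ ^ 2 ≤
      (pann (x / 2) x).card * ∑ m ∈ U, ‖TT f x m‖ ^ 2 + (U.card : ℝ) ^ 2 * E := by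
    have h1 := (abs_le.mp horth).2
    have h2 : (∑ m ∈ U, ‖TT f x m‖) ^ 2 * E ≤ (U.card : ℝ) ^ 2 * E := by
      apply mul_le_mul_of_nonneg_right _ hE
      apply pow_le_pow_left₀ (Finset.sum_nonneg fun _ _ => norm_nonneg _)
      calc ∑ m ∈ U, ‖TT f x m‖ ≤ ∑ m ∈ U, (1 : ℝ) :=
            Finset.sum_le_sum fun m _ => TT_le hf hx m
        _ = _ := by simp
    change ∑ z ∈ pann (x / 2) x, ‖∑ m ∈ U, TT f x m * xi z ^ (-m)‖ ^ 2 ≤ _
    linarith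
  rw [Finset.sum_congr rfl hexp, Finset.sum_add_distrib, Finset.sum_sub_distrib, ← Finset.mul_sum,
    hcross']
  simp only [Finset.sum_const, nsmul_eq_mul, mul_one]
  linarith

end Pool.Agent.NSqP
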