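import Pool.Agent.Lib.NSqP.Pair
import Pool.Agent.Lib.NSqP.Fej
import Pool.Agent.Lib.NSqP.LC

/-!
# START: few bad edges give large Fejer mass
`fej_quad` with `a = F`, `u = xi`: the sum is `∑ F F' K ≥ ∑ K - 2 ∑_{F ≠ F'} K`, `∑ K ≥ #^2`
(the term `m = 0` of the identity with `a = 1`).  With `r = L/M`: near pairs `K ≤ M` and
`pair_bound`; far pairs `K ≤ 4/(M ‖xi z - xi z'‖^2)`, `far_sum` gives `≤ C N^2/L` in total.
Choose `L` large, then `η` small (`M = ⌊N/A⌋ ≥ N/(2A)`).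
-/

set_option autoImplicit false

namespace Pool.Agent.NSqP

open Real
open Pool.Agent.MP484c84Par (ballG mem_ballG crossG badEdges mem_badEdges CM F)

private lemma start_conj {u : ℂ} (hu : ‖u‖ = 1) : u * (starRingEnd ℂ) u = 1 := by
  rw [Complex.mul_conj']
  rw [hu]; simp

private lemma start_dist {u v : ℂ} (hv : ‖v‖ = 1) :
    ‖u * (starRingEnd ℂ) v - 1‖ = ‖v - u‖ := by
  have h1 : u * (starRingEnd ℂ) v - 1 = (u - v) * (starRingEnd ℂ) v := by
    rw [sub_mul, start_conj hv]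
  rw [h1, norm_mul, RCLike.norm_conj, hv, mul_one, norm_sub_rev]

/-- the term of frequency zero -/
private lemma start_sum_ge {ι : Type} (s : Finset ι) (u : ι → ℂ) (M : ℕ) (hM : 1 ≤ M)
    (hu : ∀ i ∈ s, ‖u i‖ = 1) :
    ((s.card : ℝ)) ^ 2 ≤ ∑ i ∈ s, ∑ j ∈ s, fejK M (u i * (starRingEnd ℂ) (u j)) := by
  have h1 := fej_quad s (fun _ => (1 : ℂ)) u M hM hu
  have h2 : (∑ i ∈ s, ∑ j ∈ s, (1 : ℂ) * (starRingEnd ℂ) (1 : ℂ) *
      ((fejK M (u i * (starRingEnd ℂ) (u j)) : ℝ) : ℂ)).re =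
      ∑ i ∈ s, ∑ j ∈ s, fejK M (u i * (starRingEnd ℂ) (u j)) := by
    simp only [map_one, one_mul, mul_one]
    rw [Complex.re_sum]
    refine Finset.sum_congr rfl fun i _ => ?_
    rw [Complex.re_sum]
    exact Finset.sum_congr rfl fun j _ => Complex.ofReal_re _
  rw [h2] at h1
  rw [← h1]
  have hM0 : (0 : ℝ) < M := by exact_mod_cast hM
  have h3 : ((s.card : ℝ)) ^ 2 = (1 - |((0 : ℤ) : ℝ)| / M) *
      ‖∑ i ∈ s, (1 : ℂ) * u i ^ (0 : ℤ)‖ ^ 2 := by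
    simp
  rw [h3]
  refine Finset.single_le_sum (f := fun m : ℤ => (1 - |(m : ℝ)| / M) *
    ‖∑ i ∈ s, (1 : ℂ) * u i ^ m‖ ^ 2) ?_ ?_
  · intro m hm
    rw [mem_fr] at hm
    have h4 : |(m : ℝ)| < M := by exact_mod_cast hm
    have h5 : |(m : ℝ)| / M ≤ 1 := (div_le_one hM0).2 h4.le
    exact mul_nonneg (by linarith) (by positivity)
  · rw [mem_fr]; simp; omega

/-- the abstract inequality -/
private lemma start_main {g : ℕ → ℤ} (hg : CM g) (s : Finset GaussianInt) (M : ℕ) (hM : 1 ≤ M)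
    (hs : ∀ z ∈ s, z ≠ 0) :
    ((s.card : ℝ)) ^ 2 - 2 * ∑ z ∈ s, ∑ w ∈ s,
        (if F g z ≠ F g w then fejK M (xi z * (starRingEnd ℂ) (xi w)) else 0) ≤
      ∑ m ∈ fr M, (1 - |(m : ℝ)| / M) * ‖∑ z ∈ s, fF g z * xi z ^ m‖ ^ 2 := by
  have hu : ∀ z ∈ s, ‖xi z‖ = 1 := fun z hz => norm_xi (hs z hz)
  rw [fej_quad s (fF g) xi M hM hu]
  have h1 : (∑ z ∈ s, ∑ w ∈ s, fF g z * (starRingEnd ℂ) (fF g w) *
      ((fejK M (xi z * (starRingEnd ℂ) (xi w)) : ℝ) : ℂ)).re =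
      ∑ z ∈ s, ∑ w ∈ s, (fejK M (xi z * (starRingEnd ℂ) (xi w)) -
        2 * (if F g z ≠ F g w then fejK M (xi z * (starRingEnd ℂ) (xi w)) else 0)) := by
    rw [Complex.re_sum]
    refine Finset.sum_congr rfl fun z hz => ?_
    rw [Complex.re_sum]
    refine Finset.sum_congr rfl fun w hw => ?_
    have e1 : fF g z = (((F g z : ℤ) : ℝ) : ℂ) := by unfold fF; push_cast; rfl
    have e2 : fF g w = (((F g w : ℤ) : ℝ) : ℂ) := by unfold fF; push_cast; rfl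
    rw [e1, e2, Complex.conj_ofReal, ← Complex.ofReal_mul, ← Complex.ofReal_mul, Complex.ofReal_re]
    rcases MP484c84Par.F_sign hg (hs z hz) with h2 | h2 <;>
      rcases MP484c84Par.F_sign hg (hs w hw) with h3 | h3 <;> rw [h2, h3] <;> norm_num <;> ring
  rw [h1]
  have h2 : ∑ z ∈ s, ∑ w ∈ s, (fejK M (xi z * (starRingEnd ℂ) (xi w)) -
        2 * (if F g z ≠ F g w then fejK M (xi z * (starRingEnd ℂ) (xi w)) else 0)) =
      ∑ z ∈ s, ∑ w ∈ s, fejK M (xi z * (starRingEnd ℂ) (xi w)) -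
        2 * ∑ z ∈ s, ∑ w ∈ s,
          (if F g z ≠ F g w then fejK M (xi z * (starRingEnd ℂ) (xi w)) else 0) := by
    simp only [Finset.sum_sub_distrib, Finset.mul_sum]
  rw [h2]
  have h3 := start_sum_ge s xi M hM hu
  linarith

open Classical in
/-- near and far pairs -/
private lemma start_split {g : ℕ → ℤ} (s : Finset GaussianInt) (M : ℕ) (hM : 1 ≤ M)
    (hs : ∀ z ∈ s, z ≠ 0) (r : ℝ) (hr : 0 ≤ r) (D : ℝ)
    (hfar : ∀ z ∈ s, ∑ w ∈ s.filter (fun w => r < ‖xi w - xi z‖), 1 / ‖xi w - xi z‖ ^ 2 ≤ D) :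
    ∑ z ∈ s, ∑ w ∈ s, (if F g z ≠ F g w then fejK M (xi z * (starRingEnd ℂ) (xi w)) else 0) ≤
      M * (((s ×ˢ s).filter (fun q => ‖xi q.1 - xi q.2‖ ≤ r ∧ F g q.1 ≠ F g q.2)).card : ℝ) +
        s.card * (4 / M * D) := by
  have hM0 : (0 : ℝ) < M := by exact_mod_cast hM
  have hu : ∀ z ∈ s, ‖xi z‖ = 1 := fun z hz => norm_xi (hs z hz)
  have h1 : ∀ z ∈ s, ∀ w ∈ s,
      (if F g z ≠ F g w then fejK M (xi z * (starRingEnd ℂ) (xi w)) else 0) ≤
      (if ‖xi z - xi w‖ ≤ r ∧ F g z ≠ F g w then (M : ℝ) else 0) +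
        (if r < ‖xi w - xi z‖ then 4 / M * (1 / ‖xi w - xi z‖ ^ 2) else 0) := by
    intro z hz w hw
    have hun : ‖xi z * (starRingEnd ℂ) (xi w)‖ = 1 := by
      rw [norm_mul, RCLike.norm_conj, hu z hz, hu w hw, one_mul]
    have hnn : (0 : ℝ) ≤ (if r < ‖xi w - xi z‖ then 4 / M * (1 / ‖xi w - xi z‖ ^ 2) else 0) := by
      split_ifs
      · positivity
      · exact le_rfl
    by_cases hF : F g z ≠ F g w
    · rw [if_pos hF]
      by_cases hn : ‖xi z - xi w‖ ≤ r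
      · rw [if_pos ⟨hn, hF⟩]
        have := fejK_le M hun
        linarith
      · have hn' : r < ‖xi w - xi z‖ := by
          rw [norm_sub_rev]; exact not_le.1 hn
        rw [if_neg (fun h => hn h.1), if_pos hn', zero_add]
        have hne : xi z * (starRingEnd ℂ) (xi w) ≠ 1 := by
          intro h
          have h2 := start_dist (u := xi z) (hu w hw)
          rw [h, sub_self, norm_zero] at h2
          rw [← h2] at hn'
          linarith
        refine (fejK_le_far M hun hne).trans (le_of_eq ?_)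
        rw [start_dist (hu w hw)]
        rw [div_mul_div_comm, mul_one]
    · rw [if_neg hF, if_neg (fun h => hF h.2), zero_add]
      exact hnn
  have h2 : ∑ z ∈ s, ∑ w ∈ s,
      (if F g z ≠ F g w then fejK M (xi z * (starRingEnd ℂ) (xi w)) else 0) ≤
      ∑ z ∈ s, ∑ w ∈ s, ((if ‖xi z - xi w‖ ≤ r ∧ F g z ≠ F g w then (M : ℝ) else 0) +
        (if r < ‖xi w - xi z‖ then 4 / M * (1 / ‖xi w - xi z‖ ^ 2) else 0)) :=
    Finset.sum_le_sum fun z hz => Finset.sum_le_sum fun w hw => h1 z hz w hw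
  refine h2.trans ?_
  simp only [Finset.sum_add_distrib]
  refine add_le_add (le_of_eq ?_) ?_
  · rw [Finset.card_filter, Nat.cast_sum, Finset.mul_sum, Finset.sum_product]
    refine Finset.sum_congr rfl fun z _ => Finset.sum_congr rfl fun w _ => ?_
    split_ifs <;> simp
  · calc ∑ z ∈ s, ∑ w ∈ s,
          (if r < ‖xi w - xi z‖ then 4 / (M : ℝ) * (1 / ‖xi w - xi z‖ ^ 2) else 0) =
        ∑ z ∈ s, 4 / (M : ℝ) *
          ∑ w ∈ s.filter (fun w => r < ‖xi w - xi z‖), 1 / ‖xi w - xi z‖ ^ 2 := by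
          refine Finset.sum_congr rfl fun z _ => ?_
          rw [Finset.mul_sum, Finset.sum_filter]
      _ ≤ ∑ z ∈ s, 4 / (M : ℝ) * D := Finset.sum_le_sum fun z hz =>
          mul_le_mul_of_nonneg_left (hfar z hz) (by positivity)
      _ = s.card * (4 / M * D) := by rw [Finset.sum_const, nsmul_eq_mul]

theorem START (ε : ℝ) (hε : 0 < ε) (A : ℕ) (hA : 1 ≤ A) :
    ∃ η : ℝ, 0 < η ∧ ∃ N0 : ℕ, ∀ N : ℕ, N0 ≤ N → ∀ g : ℕ → ℤ, CM g →
      ((badEdges g N).card : ℝ) ≤ η * N →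
      ((pann (N / 2) N).card : ℝ) ^ 2 - ε * (N : ℝ) ^ 2 ≤
        ∑ m ∈ fr ⌊(N : ℝ) / A⌋₊, (1 - |(m : ℝ)| / ⌊(N : ℝ) / A⌋₊) *
          ‖Zs (fF g) (N / 2) N m‖ ^ 2 := by
  classical
  obtain ⟨C, hC, hcard⟩ := card_ann_le
  have hA0 : (0 : ℝ) < A := by exact_mod_cast hA
  have hA1 : (1 : ℝ) ≤ A := by exact_mod_cast hA
  set Λ : ℝ := max 1 (640 * C / ε) with hΛ
  have hΛ1 : 1 ≤ Λ := le_max_left _ _
  have hΛ2 : 640 * C ≤ ε * Λ := by
    have h1 : 640 * C / ε ≤ Λ := le_max_right _ _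
    rw [div_le_iff₀ hε] at h1
    linarith
  have hΛ0 : 0 < Λ := by linarith
  set η : ℝ := ε / (4 * (1 + 8 * A * Λ) ^ 2) with hη
  have hη0 : 0 < η := by positivity
  refine ⟨η, hη0, ⌈2 * A * Λ⌉₊, fun N hN g hg hbad => ?_⟩
  have hNr : 2 * A * Λ ≤ (N : ℝ) := (Nat.le_ceil _).trans (by exact_mod_cast hN)
  have hN2 : 2 * (A : ℝ) ≤ N := by nlinarith
  have hN0 : (0 : ℝ) < N := by linarith
  have hN1 : 1 ≤ N := by
    have : 0 < N := by exact_mod_cast hN0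
    omega
  have hN1r : (1 : ℝ) ≤ N := by exact_mod_cast hN1
  set M : ℕ := ⌊(N : ℝ) / A⌋₊ with hMdef
  have hMle : (M : ℝ) ≤ N := by
    refine (Nat.floor_le (by positivity)).trans ?_
    rw [div_le_iff₀ hA0]; nlinarith
  have hMge : (N : ℝ) / (2 * A) ≤ M := by
    have h1 := Nat.lt_floor_add_one ((N : ℝ) / A)
    have h2 : 1 ≤ (N : ℝ) / (2 * A) := by rw [le_div_iff₀ (by positivity)]; linarith
    have h3 : (N : ℝ) / A = N / (2 * A) + N / (2 * A) := by field_simp; ring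
    rw [← hMdef] at h1
    linarith
  have hΛM : Λ ≤ M := by
    refine le_trans ?_ hMge
    rw [le_div_iff₀ (by positivity)]
    linarith
  have hM0 : (0 : ℝ) < M := by linarith
  have hM1 : 1 ≤ M := by
    have : 0 < M := by exact_mod_cast hM0
    omega
  set s : Finset GaussianInt := pann (N / 2) N with hsdef
  have hmem : ∀ z ∈ s, Prim z ∧ (nN z : ℝ) ≤ N := by
    intro z hz
    rw [hsdef, mem_pann hN0.le] at hz
    exact ⟨hz.2, hz.1.2⟩
  have hs0 : ∀ z ∈ s, z ≠ 0 := fun z hz => prim_ne_zero (hmem z hz).1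
  have hscard : (s.card : ℝ) ≤ C * N := by
    refine le_trans ?_ (hcard N hN0.le)
    have h1 : s ⊆ ann 0 N := by
      intro z hz
      have h2 := (mem_pann hN0.le).1 hz
      rw [mem_ann hN0.le]
      refine ⟨?_, h2.1.2⟩
      linarith [h2.1.1]
    exact_mod_cast Finset.card_le_card h1
  set r : ℝ := Λ / M with hr
  have hr0 : 0 ≤ r := by positivity
  have hr1 : r ≤ 1 := by rw [hr, div_le_one hM0]; exact hΛM
  have hMr : (M : ℝ) * r = Λ := by rw [hr]; field_simp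
  have hrN : 1 / (N : ℝ) ≤ r := by
    rw [hr, div_le_div_iff₀ hN0 hM0]
    nlinarith
  have hfar : ∀ z ∈ s, ∑ w ∈ s.filter (fun w => r < ‖xi w - xi z‖), 1 / ‖xi w - xi z‖ ^ 2 ≤
      40 * N / r := by
    intro z hz
    refine far_sum s xi (xi z) N r hN1r hrN (norm_xi (hs0 z hz)) (fun i hi => norm_xi (hs0 i hi)) ?_
    intro i hi j hj hij
    exact prim_sep (hmem i hi).1 (hmem j hj).1 hij hN1r (hmem i hi).2 (hmem j hj).2
  have h1 := start_main hg s M hM1 hs0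
  have h2 := start_split (g := g) s M hM1 hs0 r hr0 _ hfar
  have h3 := pair_bound hg N hN1 r hr0 hr1
  rw [← hsdef] at h3
  -- the near pairs
  have h4 : (M : ℝ) * (((s ×ˢ s).filter
      (fun q => ‖xi q.1 - xi q.2‖ ≤ r ∧ F g q.1 ≠ F g q.2)).card : ℝ) ≤ ε / 4 * (N : ℝ) ^ 2 := by
    have h5 : 1 + 4 * r * N ≤ 1 + 8 * A * Λ := by
      have h6 : (N : ℝ) ≤ 2 * A * M := by
        rw [div_le_iff₀ (by positivity)] at hMge
        linarith
      have h7 : r * N ≤ 2 * A * Λ := by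
        calc r * N ≤ r * (2 * A * M) := mul_le_mul_of_nonneg_left h6 hr0
          _ = 2 * A * (M * r) := by ring
          _ = 2 * A * Λ := by rw [hMr]
      linarith
    have h6 : (1 + 4 * r * N) ^ 2 ≤ (1 + 8 * A * Λ) ^ 2 :=
      pow_le_pow_left₀ (by positivity) h5 2
    calc (M : ℝ) * (((s ×ˢ s).filter
          (fun q => ‖xi q.1 - xi q.2‖ ≤ r ∧ F g q.1 ≠ F g q.2)).card : ℝ)
        ≤ N * ((1 + 8 * A * Λ) ^ 2 * (η * N)) := by
          refine mul_le_mul hMle (h3.trans ?_) (Nat.cast_nonneg _) hN0.le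
          exact mul_le_mul h6 hbad (Nat.cast_nonneg _) (by positivity)
      _ = ε / 4 * (N : ℝ) ^ 2 := by
          rw [hη]; field_simp
  have h5 : (s.card : ℝ) * (4 / M * (40 * N / r)) ≤ ε / 4 * (N : ℝ) ^ 2 := by
    have h6 : (4 : ℝ) / M * (40 * N / r) = 160 * N / Λ := by
      rw [div_mul_div_comm, hMr]; ring
    rw [h6]
    calc (s.card : ℝ) * (160 * N / Λ) ≤ C * N * (160 * N / Λ) :=
          mul_le_mul_of_nonneg_right hscard (by positivity)
      _ = (160 * C / Λ) * (N : ℝ) ^ 2 := by ring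
      _ ≤ ε / 4 * (N : ℝ) ^ 2 := by
          refine mul_le_mul_of_nonneg_right ?_ (by positivity)
          rw [div_le_iff₀ hΛ0]
          linarith
  have h6 : ∑ m ∈ fr M, (1 - |(m : ℝ)| / M) * ‖∑ z ∈ s, fF g z * xi z ^ m‖ ^ 2 =
      ∑ m ∈ fr M, (1 - |(m : ℝ)| / M) * ‖Zs (fF g) (N / 2) N m‖ ^ 2 := rfl
  rw [h6] at h1
  linarith

end Pool.Agent.NSqP
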