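import Pool.Agent.Lib.NSqP.MRT
import Pool.Agent.Lib.NSqP.Start
import Pool.Agent.Lib.NSqP.FFin

/-!
# FRIG: rigidity
`RIG0` from `FFIN` (`κa`, `C`), with `ε' = min (ε/C) (1/2)`: `MRT` with `κ = κa`, `ε1 = ε'/10`
gives `A`, `START` with `ε1`, `A` gives `η`.  If there are few bad edges,
`∑_{m ∈ U} ‖Z m‖^2 ≥ ∑_{fr M} (1-|m|/M)‖Z m‖^2 - ∑_{fr M \ U} ‖Z m‖^2 ≥ n^2 - 2 ε1 N^2
≥ (1 - ε') n^2` (`n ≥ 0.6 N` by `card_pann`), so `|∑ F|^2 ≥ (1 - ε) n^2`, and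
`√(1 - t) ≥ 1 - t`.  `fF g` satisfies `CMC` (`CMC_fF`) and `PM`; `m ∈ fr ⌊N/A⌋` has `|m| ≤ N`;
`Zs (fF g) (N/2) N 0 = ∑ F`.
`RIG` (module Final) is the form with the hypotheses W1, W2 (group W) filled in.
-/

set_option autoImplicit false

namespace Pool.Agent.NSqP

open Real
open Pool.Agent.MP484c84Par (ballG mem_ballG crossG badEdges mem_badEdges CM F)

private lemma fr_card : ∃ N0 : ℕ, ∀ N : ℕ, N0 ≤ N →
    0.6 * (N : ℝ) ≤ ((pann ((N : ℝ) / 2) (N : ℝ)).card : ℝ) := by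
  obtain ⟨C, hC, h⟩ := card_pann
  have ht : Filter.Tendsto (fun N : ℕ => (N : ℝ) ^ ((1 : ℝ) / 4)) Filter.atTop Filter.atTop :=
    (tendsto_rpow_atTop (by norm_num)).comp tendsto_natCast_atTop_atTop
  obtain ⟨N1, hN1⟩ := Filter.eventually_atTop.mp (ht.eventually_ge_atTop (5 * C))
  refine ⟨max N1 1, fun N hN => ?_⟩
  have h1 := hN1 N (le_trans (le_max_left _ _) hN)
  have h2 : (1 : ℝ) ≤ N := by exact_mod_cast le_trans (le_max_right _ _) hN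
  have h3 := h ((N : ℝ) / 2) N (by linarith) (by linarith) h2
  have h4 : (N : ℝ) ^ ((3 : ℝ) / 4) * (N : ℝ) ^ ((1 : ℝ) / 4) = N := by
    rw [← rpow_add (by linarith)]
    norm_num
  have h5 : 0 ≤ (N : ℝ) ^ ((3 : ℝ) / 4) := by positivity
  have h6 : C * (N : ℝ) ^ ((3 : ℝ) / 4) ≤ N / 5 := by nlinarith
  have h7 : (3.14 : ℝ) < π := pi_gt_d2
  nlinarith

private lemma fr_PM {g : ℕ → ℤ} (hg : CM g) : PM (fF g) := by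
  intro z hz
  unfold fF
  rcases MP484c84Par.F_sign hg hz with h | h
  · left; rw [h]; norm_num
  · right; rw [h]; norm_num

private lemma fr_Zs (g : ℕ → ℤ) (a b : ℝ) :
    ‖Zs (fF g) a b 0‖ = |∑ z ∈ pann a b, (F g z : ℝ)| := by
  unfold Zs fF
  simp only [zpow_zero, mul_one]
  have h : ∑ z ∈ pann a b, ((F g z : ℤ) : ℂ) = ((∑ z ∈ pann a b, (F g z : ℝ) : ℝ) : ℂ) := by
    push_cast
    rfl
  rw [h, Complex.norm_real, Real.norm_eq_abs]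

theorem RIG0 (hW1 : W1Stmt) (hW2 : W2Stmt) (ε : ℝ) (hε : 0 < ε) :
    ∃ η : ℝ, 0 < η ∧ ∃ N0 : ℕ, ∀ N : ℕ, N0 ≤ N → ∀ g : ℕ → ℤ, CM g →
      ((badEdges g N).card : ℝ) ≤ η * N →
      (1 - ε) * ((pann (N / 2) N).card : ℝ) ≤ |∑ z ∈ pann (N / 2) N, (F g z : ℝ)| := by
  obtain ⟨κ, hκ, hκ1, C, hC, hF⟩ := FFIN hW1 hW2
  set ε' : ℝ := min (ε / C) (1 / 2) with hε'
  have hε'0 : 0 < ε' := by
    rw [hε']
    exact lt_min (by positivity) (by norm_num)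
  have hε'C : C * ε' ≤ ε := by
    have h1 : ε' ≤ ε / C := min_le_left _ _
    calc C * ε' ≤ C * (ε / C) := mul_le_mul_of_nonneg_left h1 hC.le
      _ = ε := by field_simp
  obtain ⟨x0, hx0⟩ := hF ε' hε'0
  obtain ⟨A, hA, x1, hx1⟩ := MRT κ (ε' / 10) hκ hκ1 (by positivity)
  obtain ⟨η, hη, N1, hN1⟩ := START (ε' / 10) (by positivity) A hA
  obtain ⟨N2, hN2⟩ := fr_card
  refine ⟨η, hη, max (max N1 N2) (max ⌈x0⌉₊ ⌈x1⌉₊), ?_⟩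
  intro N hN g hg hbad
  have hN1' : N1 ≤ N := le_trans (le_trans (le_max_left _ _) (le_max_left _ _)) hN
  have hN2' : N2 ≤ N := le_trans (le_trans (le_max_right _ _) (le_max_left _ _)) hN
  have hx0' : x0 ≤ (N : ℝ) := Nat.ceil_le.mp
    (le_trans (le_trans (le_max_left _ _) (le_max_right _ _)) hN)
  have hx1' : x1 ≤ (N : ℝ) := Nat.ceil_le.mp
    (le_trans (le_trans (le_max_right _ _) (le_max_right _ _)) hN)
  obtain ⟨U, hU, hUc, hUs⟩ := hx1 N hx1' (fF g) (CMC_fF hg)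
  have hst := hN1 N hN1' g hg hbad
  have hcard := hN2 N hN2'
  set n : ℝ := ((pann ((N : ℝ) / 2) (N : ℝ)).card : ℝ) with hn
  have hN0 : (0 : ℝ) ≤ N := Nat.cast_nonneg _
  have hle : ∑ m ∈ fr ⌊(N : ℝ) / A⌋₊, (1 - |(m : ℝ)| / ⌊(N : ℝ) / A⌋₊) *
      ‖Zs (fF g) (N / 2) N m‖ ^ 2 ≤ ∑ m ∈ fr ⌊(N : ℝ) / A⌋₊, ‖Zs (fF g) (N / 2) N m‖ ^ 2 := by
    refine Finset.sum_le_sum fun m _ => ?_
    have h1 : 0 ≤ |(m : ℝ)| / ⌊(N : ℝ) / A⌋₊ := by positivity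
    have h2 : 0 ≤ ‖Zs (fF g) (N / 2) N m‖ ^ 2 := by positivity
    nlinarith
  have hsplit : ∑ m ∈ fr ⌊(N : ℝ) / A⌋₊, ‖Zs (fF g) (N / 2) N m‖ ^ 2 =
      ∑ m ∈ fr ⌊(N : ℝ) / A⌋₊ \ U, ‖Zs (fF g) (N / 2) N m‖ ^ 2 +
      ∑ m ∈ U, ‖Zs (fF g) (N / 2) N m‖ ^ 2 := (Finset.sum_sdiff hU).symm
  have hnn : (N : ℝ) ^ 2 / 5 ≤ n ^ 2 := by nlinarith
  have hmass : (1 - ε') * n ^ 2 ≤ ∑ m ∈ U, ‖Zs (fF g) (N / 2) N m‖ ^ 2 := by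
    nlinarith
  have hUx : ∀ m ∈ U, |(m : ℝ)| ≤ (N : ℝ) := by
    intro m hm
    have h1 := hU hm
    rw [mem_fr] at h1
    have h2 : |(m : ℝ)| < ((⌊(N : ℝ) / A⌋₊ : ℕ) : ℝ) := by exact_mod_cast h1
    have h3 : ((⌊(N : ℝ) / A⌋₊ : ℕ) : ℝ) ≤ (N : ℝ) / A := Nat.floor_le (by positivity)
    have hA' : (1 : ℝ) ≤ A := by exact_mod_cast hA
    have h4 : (N : ℝ) / A ≤ N := div_le_self hN0 hA'
    linarith
  have hfin := hx0 N (fF g) U hx0' (CMC_fF hg) (fr_PM hg) hUx hUc hmass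
  rw [fr_Zs] at hfin
  set S : ℝ := |∑ z ∈ pann ((N : ℝ) / 2) (N : ℝ), (F g z : ℝ)| with hS
  have hS0 : 0 ≤ S := abs_nonneg _
  have hn0 : 0 ≤ n := Nat.cast_nonneg _
  rcases le_or_gt 1 ε with h1 | h1
  · nlinarith
  · have h2 : ((1 - ε) * n) ^ 2 ≤ S ^ 2 := by
      have h3 : (1 - ε) ^ 2 ≤ 1 - ε := by nlinarith
      have h4 : 1 - ε ≤ 1 - C * ε' := by linarith
      have h5 : 0 ≤ n ^ 2 := by positivity
      calc ((1 - ε) * n) ^ 2 = (1 - ε) ^ 2 * n ^ 2 := by ring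
        _ ≤ (1 - C * ε') * n ^ 2 := mul_le_mul_of_nonneg_right (h3.trans h4) h5
        _ ≤ S ^ 2 := hfin
    exact le_of_sq_le_sq h2 hS0

end Pool.Agent.NSqP
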