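import Pool.Agent.Lib.NSqP.WBig
import Pool.Agent.Lib.NSqP.WSmall

/-!
# Group W: the bound W1
-/

set_option autoImplicit false

namespace Pool.Agent.NSqP

open Finset

private lemma wone_split (a b : ℝ) (ha : 0 ≤ a) (hab : a ≤ b) (d : ℤ) :
    ∑ z ∈ ann a b, xi z ^ d = ∑ z ∈ ann 0 b, xi z ^ d - ∑ z ∈ ann 0 a, xi z ^ d := by
  classical
  have hb : 0 ≤ b := ha.trans hab
  have hU : ann 0 b = ann 0 a ∪ ann a b := by
    ext z
    rw [mem_union, mem_ann hb, mem_ann ha, mem_ann hb]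
    constructor
    · rintro ⟨h1, h2⟩
      rcases le_or_gt (nN z : ℝ) a with h | h
      · exact Or.inl ⟨h1, h⟩
      · exact Or.inr ⟨h, h2⟩
    · rintro (⟨h1, h2⟩ | ⟨h1, h2⟩)
      · exact ⟨h1, h2.trans hab⟩
      · exact ⟨lt_of_le_of_lt ha h1, h2⟩
  have hD : Disjoint (ann 0 a) (ann a b) := by
    rw [disjoint_left]
    intro z h1 h2
    rw [mem_ann ha] at h1
    rw [mem_ann hb] at h2
    linarith [h1.2, h2.1]
  rw [hU, sum_union hD]
  ring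

private lemma wone_empty (b : ℝ) (hb0 : 0 ≤ b) (hb : b < 1) (d : ℤ) :
    ∑ z ∈ ann 0 b, xi z ^ d = 0 := by
  have he : ann 0 b = ∅ := by
    rw [Finset.eq_empty_iff_forall_notMem]
    intro z hz
    have h2 := (mem_ann hb0).1 hz
    have h4 : 0 < nN z := by exact_mod_cast h2.1
    have h5 : (1 : ℝ) ≤ nN z := by exact_mod_cast h4
    linarith [h2.2]
  rw [he, sum_empty]

private lemma wone_ball : ∃ Y0 : ℝ, 1 ≤ Y0 ∧ ∀ Y : ℝ, Y0 ≤ Y → ∀ d : ℤ, d ≠ 0 →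
    |(d : ℝ)| ≤ Y ^ (235 / 100 : ℝ) → ∀ b : ℝ, 0 ≤ b → b ≤ Y →
      ‖∑ z ∈ ann 0 b, xi z ^ d‖ ≤ Y ^ (1 - 1 / 7000 : ℝ) / 2 := by
  obtain ⟨T0, hT0, hL⟩ := W_large
  obtain ⟨C, hC, hS⟩ := W_small
  obtain ⟨Y1, hY1⟩ := Filter.eventually_atTop.1
    ((tendsto_rpow_atTop (y := (1 / 6400 - 1 / 7000 : ℝ)) (by norm_num)).eventually_ge_atTop 2)
  obtain ⟨Y2, hY2⟩ := Filter.eventually_atTop.1
    ((tendsto_rpow_atTop (y := (1 / 5 - 1 / 7000 : ℝ)) (by norm_num)).eventually_ge_atTop (4 * C))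
  obtain ⟨Y3, hY3⟩ := Filter.eventually_atTop.1
    ((tendsto_rpow_atTop (y := (1 / 400 : ℝ)) (by norm_num)).eventually_ge_atTop T0)
  refine ⟨max (max Y1 Y2) (max Y3 1), (le_max_right _ _).trans (le_max_right _ _), ?_⟩
  intro Y hY d hd hdY b hb hbY
  have h1 : Y1 ≤ Y := (le_max_left _ _).trans ((le_max_left _ _).trans hY)
  have h2 : Y2 ≤ Y := (le_max_right _ _).trans ((le_max_left _ _).trans hY)
  have h3 : Y3 ≤ Y := (le_max_left _ _).trans ((le_max_right _ _).trans hY)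
  have h4 : 1 ≤ Y := (le_max_right _ _).trans ((le_max_right _ _).trans hY)
  have hY0 : 0 < Y := by linarith
  have e1 := hY1 Y h1
  have e2 := hY2 Y h2
  have e3 := hY3 Y h3
  set T : ℝ := Y ^ (1 / 400 : ℝ) with hT
  have hT1 : 1 ≤ T := hT0.trans e3
  have hTn : ∀ n : ℕ, T ^ n = Y ^ ((n : ℝ) / 400) := by
    intro n
    rw [hT, ← Real.rpow_natCast, ← Real.rpow_mul hY0.le]
    congr 1; ring
  rcases le_or_gt (T ^ 120) |(d : ℝ)| with hc | hc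
  · have hd2 : |(d : ℝ)| ≤ T ^ 944 := by
      refine hdY.trans ?_
      rw [hTn]
      exact Real.rpow_le_rpow_of_exponent_le h4 (by norm_num)
    have hb2 : b ≤ T ^ 400 := by
      rw [hTn]
      norm_num
      exact hbY
    have h5 := hL T e3 d hc hd2 b hb hb2
    have h6 : T ^ (400 - 1 / 16 : ℝ) = Y ^ (1 - 1 / 6400 : ℝ) := by
      rw [hT, ← Real.rpow_mul hY0.le]; norm_num
    rw [h6] at h5
    refine h5.trans ?_
    rw [le_div_iff₀ (by norm_num)]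
    calc Y ^ (1 - 1 / 6400 : ℝ) * 2 ≤ Y ^ (1 - 1 / 6400 : ℝ) * Y ^ (1 / 6400 - 1 / 7000 : ℝ) :=
          mul_le_mul_of_nonneg_left e1 (by positivity)
      _ = Y ^ (1 - 1 / 7000 : ℝ) := by rw [← Real.rpow_add hY0]; norm_num
  · rcases lt_or_ge b 1 with hb1 | hb1
    · rw [wone_empty b hb hb1, norm_zero]
      positivity
    · have h5 := hS d hd b hb1
      have h6 : b ^ (3 / 4 : ℝ) ≤ Y ^ (4 / 5 : ℝ) := by
        calc b ^ (3 / 4 : ℝ) ≤ Y ^ (3 / 4 : ℝ) := Real.rpow_le_rpow hb hbY (by norm_num)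
          _ ≤ Y ^ (4 / 5 : ℝ) := Real.rpow_le_rpow_of_exponent_le h4 (by norm_num)
      have h7 : |(d : ℝ)| * Real.sqrt b ≤ Y ^ (4 / 5 : ℝ) := by
        calc |(d : ℝ)| * Real.sqrt b ≤ Y ^ (3 / 10 : ℝ) * Y ^ (1 / 2 : ℝ) := by
              apply mul_le_mul _ _ (Real.sqrt_nonneg _) (by positivity)
              · refine hc.le.trans ?_
                rw [hTn]; norm_num
              · rw [← Real.sqrt_eq_rpow]
                exact Real.sqrt_le_sqrt hbY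
          _ = Y ^ (4 / 5 : ℝ) := by rw [← Real.rpow_add hY0]; norm_num
      refine h5.trans ?_
      rw [le_div_iff₀ (by norm_num)]
      calc C * (b ^ (3 / 4 : ℝ) + |(d : ℝ)| * Real.sqrt b) * 2
          ≤ C * (Y ^ (4 / 5 : ℝ) + Y ^ (4 / 5 : ℝ)) * 2 := by gcongr
        _ = Y ^ (4 / 5 : ℝ) * (4 * C) := by ring
        _ ≤ Y ^ (4 / 5 : ℝ) * Y ^ (1 / 5 - 1 / 7000 : ℝ) :=
            mul_le_mul_of_nonneg_left e2 (by positivity)
        _ = Y ^ (1 - 1 / 7000 : ℝ) := by rw [← Real.rpow_add hY0]; norm_num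

/-- `∑ over ann a b = ∑ over ann 0 b - ∑ over ann 0 a`, so it is enough to bound the sums over
`ann 0 b`, `0 ≤ b ≤ Y`. For `b < 1` the sum is empty. Put `T = Y^(1/400)`. `|d| ≥ T^120`:
`W_large` (`|d| ≤ Y^(2.35) = T^940`). `|d| < T^120`: `W_small`, `≤ C (Y^(3/4) + Y^(3/10) Y^(1/2))`.
Any `κ` smaller than `1/6400` works. -/
theorem W1_gen : W1Gen := by
  obtain ⟨Y0, hY01, hY0⟩ := wone_ball
  refine ⟨1 / 7000, by norm_num, Y0, ?_⟩
  intro Y hY d hd hdY a b ha hab hbY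
  rw [wone_split a b ha hab]
  have h1 := hY0 Y hY d hd hdY b (ha.trans hab) hbY
  have h2 := hY0 Y hY d hd hdY a ha (hab.trans hbY)
  calc _ ≤ ‖∑ z ∈ ann 0 b, xi z ^ d‖ + ‖∑ z ∈ ann 0 a, xi z ^ d‖ := norm_sub_le _ _
    _ ≤ Y ^ (1 - 1 / 7000 : ℝ) / 2 + Y ^ (1 - 1 / 7000 : ℝ) / 2 := add_le_add h1 h2
    _ = Y ^ (1 - 1 / 7000 : ℝ) := by ring

theorem W1 : W1Stmt := by
  obtain ⟨κ, hκ, Y0, h⟩ := W1_gen
  refine ⟨κ, hκ, max Y0 1, ?_⟩
  intro Y hY d hd hdY a b ha hab hbY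
  exact h Y ((le_max_left _ _).trans hY) d hd
    (hdY.trans (Real.rpow_le_rpow_of_exponent_le ((le_max_right _ _).trans hY) (by norm_num)))
    a b ha hab hbY

end Pool.Agent.NSqP
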