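import Pool.Agent.Lib.NSqP.FRig
import Pool.Agent.Lib.NSqP.WOne
import Pool.Agent.Lib.NSqP.WTwo

/-!
# FINAL: rigidity
`RIG0` (module FRig) with the exponential sum bounds W1, W2 (modules WOne, WTwo) filled in.
-/

set_option autoImplicit false

namespace Pool.Agent.NSqP

open Real
open Pool.Agent.MP484c84Par (ballG mem_ballG crossG badEdges mem_badEdges CM F)

theorem RIG (ε : ℝ) (hε : 0 < ε) :
    ∃ η : ℝ, 0 < η ∧ ∃ N0 : ℕ, ∀ N : ℕ, N0 ≤ N → ∀ g : ℕ → ℤ, CM g →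
      ((badEdges g N).card : ℝ) ≤ η * N →
      (1 - ε) * ((pann (N / 2) N).card : ℝ) ≤ |∑ z ∈ pann (N / 2) N, (F g z : ℝ)| :=
  RIG0 W1 (W2_of_W1 W1_gen) ε hε

end Pool.Agent.NSqP
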