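import Pool.Agent.Lib.NSqP.OmG
import Pool.Agent.Lib.NSqP.LC

/-!
# HT: Hall-Tenenbaum bounds for `hh = 2^(-OmG)`
`hh_log`: square the sum: `(∑ hh(a)/N a)^2 = ∑_z (1/N z) ∑_{ab=z} hh(a)hh(b)
≤ ∑_{N z ≤ Y^2} hh(z) #divG(z)/N z ≤ 4 ∑ 1/N z ≤ C (1 + log Y)`.
`HT`: `∑ hh(z) log N z ≤ C Y ∑ hh(w)/N w`: `log N z = ∑_{π in factors z} log N π` (count each prime
`π` with its multiplicity `k`: `z = π^k w`, `hh z = 2^(-k) hh w`, `k 2^(-k) ≤ 1/2`), exchange the
sums, and the Chebyshev bound `∑_{π prime, N π^k ≤ T} log N π ≤ C T` (rational Chebyshev: at most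
8 Gaussian primes of norm `p`, 4 of norm `q^2`); and `∑ hh(z) log (Y/N z) ≤ Y ∑ hh(z)/N z`; so
`log Y ∑ hh ≤ C Y ∑ hh(z)/N z ≤ C' Y √(1 + log Y)`.
`HTd`: dyadic form from `HT` (with `Y = e^(s+1)`).
-/

set_option autoImplicit false

namespace Pool.Agent.NSqP

open Real
open Pool.Agent.MP484c84Par (ballG mem_ballG crossG CM F)

private lemma ht_mem {Y : ℝ} (hY : 0 ≤ Y) {z : GaussianInt} (hz : z ∈ ann 0 Y) :
    z ≠ 0 ∧ (1 : ℝ) ≤ nN z ∧ (nN z : ℝ) ≤ Y := by
  have h := (mem_ann hY).1 hz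
  have h1 : z ≠ 0 := ne_zero_of_mem_ann le_rfl hz
  refine ⟨h1, ?_, h.2⟩
  exact_mod_cast nN_pos h1

private lemma ht_inv {C0 : ℝ} (hC0 : ∀ b : ℝ, 0 ≤ b → ((ann 0 b).card : ℝ) ≤ C0 * b) {X : ℝ}
    (hX : 1 ≤ X) : ∑ z ∈ ann 0 X, 1 / (nN z : ℝ) ≤ C0 * exp 1 * (1 + log X) := by
  classical
  have hX0 : 0 ≤ X := by linarith
  have hlogX : 0 ≤ log X := Real.log_nonneg hX
  have hC0' : 0 ≤ C0 := by
    have := hC0 1 zero_le_one
    have h2 : (0 : ℝ) ≤ (ann 0 1).card := Nat.cast_nonneg _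
    linarith
  have hmaps : ∀ z ∈ ann 0 X, ⌊log (nN z)⌋₊ ∈ Finset.range (⌊log X⌋₊ + 1) := by
    intro z hz
    obtain ⟨h0, h1, h2⟩ := ht_mem hX0 hz
    rw [Finset.mem_range, Nat.lt_succ_iff]
    apply Nat.floor_le_floor
    exact Real.log_le_log (by linarith) h2
  rw [← Finset.sum_fiberwise_of_maps_to hmaps]
  have hin : ∀ s ∈ Finset.range (⌊log X⌋₊ + 1),
      ∑ z ∈ (ann 0 X).filter (fun z => ⌊log (nN z)⌋₊ = s), 1 / (nN z : ℝ) ≤ C0 * exp 1 := by
    intro s _
    have hsub : (ann 0 X).filter (fun z => ⌊log (nN z)⌋₊ = s) ⊆ ann 0 (exp (s + 1)) := by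
      intro z hz
      rw [Finset.mem_filter] at hz
      obtain ⟨h0, h1, h2⟩ := ht_mem hX0 hz.1
      rw [mem_ann (Real.exp_pos _).le]
      refine ⟨by linarith, ?_⟩
      have h3 := Nat.lt_floor_add_one (log (nN z))
      rw [hz.2] at h3
      rw [← Real.log_le_iff_le_exp (by linarith)]
      exact h3.le
    calc ∑ z ∈ (ann 0 X).filter (fun z => ⌊log (nN z)⌋₊ = s), 1 / (nN z : ℝ)
        ≤ ∑ z ∈ (ann 0 X).filter (fun z => ⌊log (nN z)⌋₊ = s), exp (-(s : ℝ)) := by
          refine Finset.sum_le_sum fun z hz => ?_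
          rw [Finset.mem_filter] at hz
          obtain ⟨h0, h1, h2⟩ := ht_mem hX0 hz.1
          have h3 := Nat.floor_le (Real.log_nonneg h1)
          rw [hz.2] at h3
          rw [Real.exp_neg, one_div]
          apply inv_anti₀ (Real.exp_pos _)
          rw [← Real.le_log_iff_exp_le (by linarith)]
          exact h3
      _ = (((ann 0 X).filter (fun z => ⌊log (nN z)⌋₊ = s)).card : ℝ) * exp (-(s : ℝ)) := by
          rw [Finset.sum_const, nsmul_eq_mul]
      _ ≤ (C0 * exp (s + 1)) * exp (-(s : ℝ)) := by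
          gcongr
          refine le_trans ?_ (hC0 _ (Real.exp_pos _).le)
          exact_mod_cast Finset.card_le_card hsub
      _ = C0 * exp 1 := by
          rw [mul_assoc, ← Real.exp_add]
          congr 2
          ring
  calc ∑ s ∈ Finset.range (⌊log X⌋₊ + 1),
      ∑ z ∈ (ann 0 X).filter (fun z => ⌊log (nN z)⌋₊ = s), 1 / (nN z : ℝ)
      ≤ ∑ s ∈ Finset.range (⌊log X⌋₊ + 1), C0 * exp 1 := Finset.sum_le_sum hin
    _ = (⌊log X⌋₊ + 1 : ℝ) * (C0 * exp 1) := by
        rw [Finset.sum_const, nsmul_eq_mul, Finset.card_range]; push_cast; ring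
    _ ≤ (log X + 1) * (C0 * exp 1) := by
        gcongr
        exact Nat.floor_le hlogX
    _ = _ := by ring

theorem hh_log : ∃ C : ℝ, 0 < C ∧ ∀ Y : ℝ, 1 ≤ Y →
    ∑ z ∈ ann 0 Y, hh z / nN z ≤ C * √(1 + log Y) := by
  classical
  obtain ⟨C0, hC0, hcard⟩ := card_ann_le
  refine ⟨√(8 * C0 * exp 1), by positivity, fun Y hY => ?_⟩
  have hY0 : 0 ≤ Y := by linarith
  have hlogY : 0 ≤ log Y := Real.log_nonneg hY
  rw [← Real.sqrt_mul (by positivity)]
  apply Real.le_sqrt_of_sq_le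
  rw [sq, Finset.sum_mul_sum, ← Finset.sum_product']
  have hmaps : ∀ q ∈ ann 0 Y ×ˢ ann 0 Y, q.1 * q.2 ∈ ann 0 (Y ^ 2) := by
    intro q hq
    rw [Finset.mem_product] at hq
    obtain ⟨h0, h1, h2⟩ := ht_mem hY0 hq.1
    obtain ⟨h0', h1', h2'⟩ := ht_mem hY0 hq.2
    rw [mem_ann (by positivity), nN_mul]
    push_cast
    refine ⟨by positivity, ?_⟩
    rw [sq]
    gcongr
  rw [← Finset.sum_fiberwise_of_maps_to hmaps]
  have hin : ∀ z ∈ ann 0 (Y ^ 2),
      ∑ q ∈ (ann 0 Y ×ˢ ann 0 Y).filter (fun q => q.1 * q.2 = z),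
        hh q.1 / nN q.1 * (hh q.2 / nN q.2) ≤ 4 * (1 / (nN z : ℝ)) := by
    intro z hz
    obtain ⟨hz0, hz1, hz2⟩ := ht_mem (by positivity) hz
    have hcardf : (((ann 0 Y ×ˢ ann 0 Y).filter (fun q => q.1 * q.2 = z)).card : ℝ) ≤
        4 * 2 ^ OmG z := by
      have h1 : ((ann 0 Y ×ˢ ann 0 Y).filter (fun q => q.1 * q.2 = z)).card ≤ (divG z).card := by
        apply Finset.card_le_card_of_injOn (fun q => q.1)
        · intro q hq
          simp only [Finset.coe_filter, Set.mem_ofPred_eq] at hq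
          rw [Finset.mem_coe, mem_divG hz0]
          exact ⟨q.2, hq.2.symm⟩
        · intro q hq q' hq' h
          simp only [Finset.coe_filter, Set.mem_ofPred_eq, Finset.mem_product] at hq hq'
          obtain ⟨h0, -, -⟩ := ht_mem hY0 hq.1.1
          have h2 : q.1 * q.2 = q.1 * q'.2 := by
            rw [hq.2, ← hq'.2]
            simp only at h
            rw [h]
          exact Prod.ext h (mul_left_cancel₀ h0 h2)
      exact_mod_cast h1.trans (card_div_le hz0)
    calc ∑ q ∈ (ann 0 Y ×ˢ ann 0 Y).filter (fun q => q.1 * q.2 = z),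
        hh q.1 / nN q.1 * (hh q.2 / nN q.2)
        = ∑ q ∈ (ann 0 Y ×ˢ ann 0 Y).filter (fun q => q.1 * q.2 = z), hh z / nN z := by
          refine Finset.sum_congr rfl fun q hq => ?_
          rw [Finset.mem_filter, Finset.mem_product] at hq
          obtain ⟨h0, -, -⟩ := ht_mem hY0 hq.1.1
          obtain ⟨h0', -, -⟩ := ht_mem hY0 hq.1.2
          rw [← hq.2, hh_mul h0 h0', nN_mul]
          push_cast
          rw [div_mul_div_comm]
      _ = (((ann 0 Y ×ˢ ann 0 Y).filter (fun q => q.1 * q.2 = z)).card : ℝ) * (hh z / nN z) := by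
          rw [Finset.sum_const, nsmul_eq_mul]
      _ ≤ (4 * 2 ^ OmG z) * (hh z / nN z) := by
          have : 0 ≤ hh z / nN z := div_nonneg (hh_pos z).le (Nat.cast_nonneg _)
          gcongr
      _ = 4 * ((2 ^ OmG z * (1 / 2) ^ OmG z) * (1 / (nN z : ℝ))) := by
          unfold hh; ring
      _ = 4 * (1 / (nN z : ℝ)) := by
          rw [← mul_pow]; norm_num
  calc ∑ z ∈ ann 0 (Y ^ 2), ∑ q ∈ (ann 0 Y ×ˢ ann 0 Y).filter (fun q => q.1 * q.2 = z),
        hh q.1 / nN q.1 * (hh q.2 / nN q.2)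
      ≤ ∑ z ∈ ann 0 (Y ^ 2), 4 * (1 / (nN z : ℝ)) := Finset.sum_le_sum hin
    _ = 4 * ∑ z ∈ ann 0 (Y ^ 2), 1 / (nN z : ℝ) := by rw [Finset.mul_sum]
    _ ≤ 4 * (C0 * exp 1 * (1 + log (Y ^ 2))) := by
        have := ht_inv hcard (X := Y ^ 2) (by nlinarith)
        gcongr
    _ ≤ 8 * C0 * exp 1 * (1 + log Y) := by
        rw [Real.log_pow]
        push_cast
        have : 0 < C0 * exp 1 := by positivity
        nlinarith

/-! ### Chebyshev for Gaussian primes -/

private lemma ht_nN_unit {u : GaussianInt} (hu : IsUnit u) : nN u = 1 := by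
  have := Zsqrtd.norm_eq_one_iff.2 hu
  simpa [nN] using this

private lemma ht_unit_of {u : GaussianInt} (hu : nN u = 1) : IsUnit u :=
  Zsqrtd.norm_eq_one_iff.1 hu

private lemma ht_two_le {z : GaussianInt} (hz : Prime z) : 2 ≤ nN z := by
  have h1 : 0 < nN z := nN_pos hz.ne_zero
  have h2 : nN z ≠ 1 := fun h => hz.not_isUnit (ht_unit_of h)
  omega

private lemma ht_nN_dvd {z w : GaussianInt} (h : z ∣ w) : nN z ∣ nN w := by
  obtain ⟨c, rfl⟩ := h
  exact ⟨nN c, nN_mul z c⟩

private lemma ht_nN_cast (n : ℕ) : nN (n : GaussianInt) = n ^ 2 := by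
  simp [nN, Zsqrtd.norm_def, Int.natAbs_mul, sq]

private lemma ht_dvd_prod (z : GaussianInt) (hz : Prime z) : ∀ n : ℕ, n ≠ 0 →
    z ∣ (n : GaussianInt) → ∃ p : ℕ, p.Prime ∧ z ∣ (p : GaussianInt) := by
  intro n
  induction n using Nat.strong_induction_on with
  | _ n ih =>
    intro hn hd
    rcases Nat.lt_or_ge n 2 with h | h
    · have h1 : n = 1 := by omega
      subst h1
      exact absurd (isUnit_of_dvd_one (by simpa using hd)) hz.not_isUnit
    · obtain ⟨p, hp, k, rfl⟩ := Nat.exists_prime_and_dvd (n := n) (by omega)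
      push_cast at hd
      rcases hz.dvd_or_dvd hd with h1 | h1
      · exact ⟨p, hp, h1⟩
      · have hk : k ≠ 0 := by rintro rfl; simp at hn
        refine ih k ?_ hk h1
        have := hp.two_le
        nlinarith [Nat.pos_of_ne_zero hk]

private lemma ht_exists_p (z : GaussianInt) (hz : Prime z) :
    ∃ p : ℕ, p.Prime ∧ z ∣ (p : GaussianInt) := by
  refine ht_dvd_prod z hz (nN z) (nN_pos hz.ne_zero).ne' ?_
  refine ⟨star z, ?_⟩
  have h1 : z * star z = ((z.norm : ℤ) : GaussianInt) := by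
    rw [Zsqrtd.norm_eq_mul_conj]
  rw [h1, ← nN_cast_int]
  simp

private noncomputable def ht_p (z : GaussianInt) : ℕ :=
  open Classical in if h : Prime z then (ht_exists_p z h).choose else 0

private lemma ht_p_spec {z : GaussianInt} (hz : Prime z) :
    (ht_p z).Prime ∧ z ∣ (ht_p z : GaussianInt) := by
  unfold ht_p
  rw [dif_pos hz]
  exact (ht_exists_p z hz).choose_spec

private lemma ht_nN_cases {z : GaussianInt} (hz : Prime z) :
    nN z = ht_p z ∨ nN z = ht_p z ^ 2 := by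
  obtain ⟨hp, hd⟩ := ht_p_spec hz
  have h1 := ht_nN_dvd hd
  rw [ht_nN_cast, Nat.dvd_prime_pow hp] at h1
  obtain ⟨k, hk, h2⟩ := h1
  have := ht_two_le hz
  interval_cases k
  · simp at h2; omega
  · left; simpa using h2
  · right; exact h2

private lemma ht_prime_of_norm {z : GaussianInt} (h : (nN z).Prime) : Prime z := by
  apply Irreducible.prime
  refine ⟨fun hu => ?_, fun a b hab => ?_⟩
  · rw [ht_nN_unit hu] at h
    exact Nat.not_prime_one h
  · rw [hab, nN_mul, Nat.prime_mul_iff] at h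
    rcases h with h | h
    · right; exact ht_unit_of h.2
    · left; exact ht_unit_of h.2

private lemma ht_OmG_p {z : GaussianInt} (hz : Prime z) :
    OmG (ht_p z : GaussianInt) ≤ 2 := by
  obtain ⟨hp, w, hw⟩ := ht_p_spec hz
  have hN : nN z * nN w = ht_p z ^ 2 := by rw [← nN_mul, ← hw, ht_nN_cast]
  have hp0 := hp.pos
  have hw0 : w ≠ 0 := by
    rintro rfl
    rw [nN_zero] at hN
    have : 0 < ht_p z ^ 2 := by positivity
    omega
  rw [hw, OmG_mul hz.ne_zero hw0, OmG_prime hz]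
  rcases ht_nN_cases hz with h | h
  · have h1 : nN w = ht_p z := by
      rw [h, sq] at hN
      exact Nat.eq_of_mul_eq_mul_left hp0 hN
    rw [OmG_prime (ht_prime_of_norm (h1 ▸ hp))]
  · have h1 : nN w = 1 := by
      rw [h] at hN
      exact Nat.eq_of_mul_eq_mul_left (pow_pos hp0 2) (by rw [hN, mul_one])
    rw [OmG_unit (ht_unit_of h1)]
    omega

private lemma ht_cheb (P : Finset (GaussianInt × ℕ)) (T : ℝ) (hT : 0 ≤ T)
    (hP : ∀ q ∈ P, Prime q.1 ∧ 1 ≤ q.2 ∧ ((nN q.1 : ℕ) : ℝ) ^ q.2 ≤ T) :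
    ∑ q ∈ P, (1 / 2 : ℝ) ^ q.2 * log (nN q.1) ≤ 16 * (log 4 + 4) * T := by
  classical
  have hpow : ∀ q ∈ P, ht_p q.1 ^ q.2 ≤ nN q.1 ^ q.2 := by
    intro q hq
    have h1 := (ht_p_spec (hP q hq).1).1.pos
    apply Nat.pow_le_pow_left
    rcases ht_nN_cases (hP q hq).1 with h | h <;> rw [h]
    nlinarith
  have hmaps : ∀ q ∈ P, ht_p q.1 ^ q.2 ∈ Finset.Icc 0 ⌊T⌋₊ := by
    intro q hq
    rw [Finset.mem_Icc]
    refine ⟨Nat.zero_le _, Nat.le_floor ?_⟩
    refine le_trans ?_ (hP q hq).2.2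
    exact_mod_cast hpow q hq
  rw [← Finset.sum_fiberwise_of_maps_to hmaps]
  have hin : ∀ n ∈ Finset.Icc 0 ⌊T⌋₊,
      ∑ q ∈ P.filter (fun q => ht_p q.1 ^ q.2 = n), (1 / 2 : ℝ) ^ q.2 * log (nN q.1) ≤
        16 * ArithmeticFunction.vonMangoldt n := by
    intro n _
    rcases (P.filter (fun q => ht_p q.1 ^ q.2 = n)).eq_empty_or_nonempty with he | ⟨q0, hq0⟩
    · rw [he, Finset.sum_empty]
      have : 0 ≤ ArithmeticFunction.vonMangoldt n := ArithmeticFunction.vonMangoldt_nonneg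
      positivity
    · rw [Finset.mem_filter] at hq0
      obtain ⟨hpr0, hj0, -⟩ := hP q0 hq0.1
      have hp0 := (ht_p_spec hpr0).1
      have hL : ArithmeticFunction.vonMangoldt n = log (ht_p q0.1) := by
        rw [← hq0.2, ArithmeticFunction.vonMangoldt_apply_pow (by omega),
          ArithmeticFunction.vonMangoldt_apply_prime hp0]
      have huniq : ∀ q ∈ P.filter (fun q => ht_p q.1 ^ q.2 = n),
          ht_p q.1 = ht_p q0.1 ∧ q.2 = q0.2 := by
        intro q hq
        rw [Finset.mem_filter] at hq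
        obtain ⟨hpr, hj, -⟩ := hP q hq.1
        have hp := (ht_p_spec hpr).1
        have he : ht_p q.1 ^ q.2 = ht_p q0.1 ^ q0.2 := by rw [hq.2, hq0.2]
        have h1 : ht_p q.1 = ht_p q0.1 := by
          have h2 : ht_p q.1 ∣ ht_p q0.1 ^ q0.2 := by
            rw [← he]; exact dvd_pow_self _ (by omega)
          exact (Nat.prime_dvd_prime_iff_eq hp hp0).1 (hp.dvd_of_dvd_pow h2)
        refine ⟨h1, ?_⟩
        rw [h1] at he
        exact Nat.pow_right_injective hp0.two_le he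
      have hcardf : ((P.filter (fun q => ht_p q.1 ^ q.2 = n)).card : ℝ) ≤ 16 := by
        have hpne : (ht_p q0.1 : GaussianInt) ≠ 0 := by
          intro h0
          have := congrArg nN h0
          rw [ht_nN_cast, nN_zero] at this
          have h2 := hp0.pos
          have h3 : 0 < ht_p q0.1 ^ 2 := by positivity
          omega
        have h1 : (P.filter (fun q => ht_p q.1 ^ q.2 = n)).card ≤
            (divG (ht_p q0.1 : GaussianInt)).card := by
          apply Finset.card_le_card_of_injOn (fun q => q.1)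
          · intro q hq
            have hq' : q ∈ P.filter (fun q => ht_p q.1 ^ q.2 = n) := hq
            rw [Finset.mem_coe, mem_divG hpne, ← (huniq q hq').1]
            exact (ht_p_spec (hP q (Finset.mem_filter.1 hq').1).1).2
          · intro q hq q' hq' h
            exact Prod.ext h (by rw [(huniq q hq).2, (huniq q' hq').2])
        have h2 := h1.trans (card_div_le hpne)
        have h3 : 4 * 2 ^ OmG (ht_p q0.1 : GaussianInt) ≤ 4 * 2 ^ 2 := by
          have := ht_OmG_p hpr0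
          gcongr
          norm_num
        exact_mod_cast (h2.trans h3)
      have hlog0 : 0 ≤ log (ht_p q0.1 : ℝ) := Real.log_nonneg (by exact_mod_cast hp0.one_lt.le)
      calc ∑ q ∈ P.filter (fun q => ht_p q.1 ^ q.2 = n), (1 / 2 : ℝ) ^ q.2 * log (nN q.1)
          ≤ ∑ q ∈ P.filter (fun q => ht_p q.1 ^ q.2 = n), log (ht_p q0.1) := by
            refine Finset.sum_le_sum fun q hq => ?_
            obtain ⟨h1, h2⟩ := huniq q hq
            obtain ⟨hpr, hj, -⟩ := hP q (Finset.mem_filter.1 hq).1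
            have h3 : log (nN q.1 : ℝ) ≤ 2 * log (ht_p q0.1) := by
              rcases ht_nN_cases hpr with h | h
              · rw [h, h1]; linarith
              · rw [h, h1]; push_cast; rw [Real.log_pow]; push_cast; exact le_rfl
            have h4 : (1 / 2 : ℝ) ^ q.2 ≤ (1 / 2) ^ 1 :=
              pow_le_pow_of_le_one (by norm_num) (by norm_num) hj
            have h5 : 0 ≤ log (nN q.1 : ℝ) := Real.log_natCast_nonneg _
            calc (1 / 2 : ℝ) ^ q.2 * log (nN q.1) ≤ (1 / 2) ^ 1 * (2 * log (ht_p q0.1)) := by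
                  gcongr
              _ = log (ht_p q0.1) := by ring
        _ = ((P.filter (fun q => ht_p q.1 ^ q.2 = n)).card : ℝ) * log (ht_p q0.1) := by
            rw [Finset.sum_const, nsmul_eq_mul]
        _ ≤ 16 * ArithmeticFunction.vonMangoldt n := by
            rw [hL]; gcongr
  calc ∑ n ∈ Finset.Icc 0 ⌊T⌋₊, ∑ q ∈ P.filter (fun q => ht_p q.1 ^ q.2 = n),
        (1 / 2 : ℝ) ^ q.2 * log (nN q.1)
      ≤ ∑ n ∈ Finset.Icc 0 ⌊T⌋₊, 16 * ArithmeticFunction.vonMangoldt n := Finset.sum_le_sum hin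
    _ = 16 * Chebyshev.psi T := by
        rw [← Finset.mul_sum, Chebyshev.psi_eq_sum_Icc]
    _ ≤ 16 * ((log 4 + 4) * T) := by
        gcongr
        exact Chebyshev.psi_le_const_mul_self hT
    _ = _ := by ring

/-! ### The logarithmic identity -/

private lemma ht_nN_mprod (m : Multiset GaussianInt) (hm : ∀ p ∈ m, p ≠ 0) :
    log (nN m.prod : ℝ) = (m.map (fun p => log (nN p : ℝ))).sum := by
  induction m using Multiset.induction_on with
  | empty => simp [nN_one]
  | cons a s ih =>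
    have ha : a ≠ 0 := hm a (Multiset.mem_cons_self a s)
    have hs : ∀ p ∈ s, p ≠ 0 := fun p hp => hm p (Multiset.mem_cons_of_mem hp)
    have hs0 : s.prod ≠ 0 := Multiset.prod_ne_zero (fun h => hs 0 h rfl)
    rw [Multiset.prod_cons, Multiset.map_cons, Multiset.sum_cons, nN_mul]
    push_cast
    rw [Real.log_mul (by exact_mod_cast (nN_pos ha).ne') (by exact_mod_cast (nN_pos hs0).ne'),
      ih hs]

open Classical in
private lemma ht_logN {Y : ℝ} (hY : 1 ≤ Y) {z : GaussianInt} (hz : z ∈ ann 0 Y) :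
    log (nN z : ℝ) ≤ ∑ p ∈ (ann 1 Y).filter (fun p => Prime p), ∑ j ∈ Finset.Icc 1 ⌊Y⌋₊,
      if p ^ j ∣ z then log (nN p : ℝ) else 0 := by
  have hY0 : 0 ≤ Y := by linarith
  obtain ⟨hz0, hz1, hz2⟩ := ht_mem hY0 hz
  set m := UniqueFactorizationMonoid.factors z with hm
  have hpr : ∀ p ∈ m, Prime p := fun p hp => UniqueFactorizationMonoid.prime_of_factor p hp
  have hass : Associated m.prod z := UniqueFactorizationMonoid.factors_prod hz0
  have hNz : nN z = nN m.prod := by
    obtain ⟨u, hu⟩ := hass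
    rw [← hu, nN_mul, ht_nN_unit u.isUnit, mul_one]
  have hdvd : ∀ p, p ^ m.count p ∣ z := by
    intro p
    refine dvd_trans ?_ hass.dvd
    have h1 : Multiset.replicate (m.count p) p ≤ m := Multiset.le_count_iff_replicate_le.1 le_rfl
    have h2 := Multiset.prod_dvd_prod_of_le h1
    rwa [Multiset.prod_replicate] at h2
  have hY1 : ∀ p ∈ m, (nN p : ℝ) ^ m.count p ≤ Y := by
    intro p hp
    have h1 := Nat.le_of_dvd (nN_pos hz0) (ht_nN_dvd (hdvd p))
    have h2 : nN (p ^ m.count p) = nN p ^ m.count p := by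
      have : ∀ k : ℕ, nN (p ^ k) = nN p ^ k := by
        intro k
        induction k with
        | zero => simp [nN_one]
        | succ k ih => rw [pow_succ, nN_mul, ih, pow_succ]
      exact this _
    rw [h2] at h1
    refine le_trans ?_ hz2
    exact_mod_cast h1
  rw [hNz, ht_nN_mprod m (fun p hp => (hpr p hp).ne_zero), Finset.sum_multiset_map_count]
  have hsub : m.toFinset ⊆ (ann 1 Y).filter (fun p => Prime p) := by
    intro p hp
    rw [Multiset.mem_toFinset] at hp
    rw [Finset.mem_filter, mem_ann hY0]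
    have h2 := ht_two_le (hpr p hp)
    refine ⟨⟨by exact_mod_cast h2, ?_⟩, hpr p hp⟩
    have h3 : (1 : ℝ) ≤ nN p := by exact_mod_cast (by omega : 1 ≤ nN p)
    have h4 : 1 ≤ m.count p := Multiset.one_le_count_iff_mem.2 hp
    calc (nN p : ℝ) = nN p ^ 1 := (pow_one _).symm
      _ ≤ nN p ^ m.count p := pow_le_pow_right₀ h3 h4
      _ ≤ Y := hY1 p hp
  have hlognn : ∀ p : GaussianInt, 0 ≤ log (nN p : ℝ) := fun p => Real.log_natCast_nonneg _
  refine le_trans (Finset.sum_le_sum (f := fun p => m.count p • log (nN p : ℝ))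
    (g := fun p => ∑ j ∈ Finset.Icc 1 ⌊Y⌋₊, if p ^ j ∣ z then log (nN p : ℝ) else 0) ?_) ?_
  · intro p hp
    rw [Multiset.mem_toFinset] at hp
    have hcY : m.count p ≤ ⌊Y⌋₊ := by
      apply Nat.le_floor
      refine le_trans ?_ (hY1 p hp)
      have h2 : (2 : ℝ) ≤ nN p := by exact_mod_cast ht_two_le (hpr p hp)
      calc ((m.count p : ℕ) : ℝ) ≤ 2 ^ m.count p := by
            exact_mod_cast (Nat.lt_two_pow_self).le
        _ ≤ (nN p : ℝ) ^ m.count p := by gcongr
    have h1 : ∑ j ∈ Finset.Icc 1 (m.count p), (if p ^ j ∣ z then log (nN p : ℝ) else 0) =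
        m.count p • log (nN p : ℝ) := by
      rw [Finset.sum_congr rfl (g := fun _ => log (nN p : ℝ))]
      · rw [Finset.sum_const, Nat.card_Icc, Nat.add_sub_cancel]
      · intro j hj
        rw [Finset.mem_Icc] at hj
        rw [if_pos ((pow_dvd_pow p hj.2).trans (hdvd p))]
    rw [← h1]
    apply Finset.sum_le_sum_of_subset_of_nonneg
    · intro j hj
      rw [Finset.mem_Icc] at hj ⊢
      omega
    · intro j _ _
      split_ifs
      · exact hlognn p
      · exact le_rfl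
  · apply Finset.sum_le_sum_of_subset_of_nonneg hsub
    intro p _ _
    refine Finset.sum_nonneg fun j _ => ?_
    split_ifs
    · exact hlognn p
    · exact le_rfl

private lemma ht_nN_pow (p : GaussianInt) (k : ℕ) : nN (p ^ k) = nN p ^ k := by
  induction k with
  | zero => simp [nN_one]
  | succ k ih => rw [pow_succ, nN_mul, ih, pow_succ]

private lemma ht_OmG_pow {p : GaussianInt} (hp : Prime p) (k : ℕ) : OmG (p ^ k) = k := by
  induction k with
  | zero => rw [pow_zero, OmG_unit isUnit_one]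
  | succ k ih => rw [pow_succ, OmG_mul (pow_ne_zero _ hp.ne_zero) hp.ne_zero, ih, OmG_prime hp]

private lemma ht_main {Y : ℝ} (hY : 1 ≤ Y) :
    ∑ z ∈ ann 0 Y, hh z * log (nN z : ℝ) ≤
      16 * (log 4 + 4) * Y * ∑ z ∈ ann 0 Y, hh z / nN z := by
  classical
  have hY0 : 0 ≤ Y := by linarith
  set P := (ann 1 Y).filter (fun p => Prime p) with hP
  set J := Finset.Icc 1 ⌊Y⌋₊ with hJ
  have hlognn : ∀ p : GaussianInt, 0 ≤ log (nN p : ℝ) := fun p => Real.log_natCast_nonneg _
  calc ∑ z ∈ ann 0 Y, hh z * log (nN z : ℝ)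
      ≤ ∑ z ∈ ann 0 Y, hh z * ∑ p ∈ P, ∑ j ∈ J, if p ^ j ∣ z then log (nN p : ℝ) else 0 := by
        refine Finset.sum_le_sum fun z hz => ?_
        exact mul_le_mul_of_nonneg_left (ht_logN hY hz) (hh_pos z).le
    _ = ∑ p ∈ P, ∑ j ∈ J, log (nN p : ℝ) * ∑ z ∈ (ann 0 Y).filter (fun z => p ^ j ∣ z), hh z := by
        simp_rw [Finset.mul_sum, Finset.sum_filter]
        rw [Finset.sum_comm]
        refine Finset.sum_congr rfl fun p _ => ?_
        rw [Finset.sum_comm]
        refine Finset.sum_congr rfl fun j _ => ?_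
        refine Finset.sum_congr rfl fun z _ => ?_
        split_ifs <;> ring
    _ = ∑ p ∈ P, ∑ j ∈ J, ((1 / 2 : ℝ) ^ j * log (nN p : ℝ)) *
          ∑ w ∈ ann 0 Y, if (nN p : ℝ) ^ j ≤ Y / nN w then hh w else 0 := by
        refine Finset.sum_congr rfl fun p hp => ?_
        refine Finset.sum_congr rfl fun j hj => ?_
        have hpp : Prime p := (Finset.mem_filter.1 hp).2
        have hpj : p ^ j ≠ 0 := pow_ne_zero _ hpp.ne_zero
        rw [sum_dvd _ hpj le_rfl hY0, zero_div]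
        have hset : ann 0 (Y / nN (p ^ j)) =
            (ann 0 Y).filter (fun w => (nN p : ℝ) ^ j ≤ Y / nN w) := by
          have hN0 : (0 : ℝ) < nN (p ^ j) := by exact_mod_cast nN_pos hpj
          have hN1 : (1 : ℝ) ≤ nN (p ^ j) := by exact_mod_cast nN_pos hpj
          ext w
          rw [Finset.mem_filter, mem_ann hY0, mem_ann (by positivity)]
          rw [ht_nN_pow] at hN0 hN1 ⊢
          push_cast at hN0 hN1 ⊢
          constructor
          · rintro ⟨h1, h2⟩
            refine ⟨⟨h1, ?_⟩, ?_⟩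
            · refine h2.trans ?_
              exact div_le_self hY0 hN1
            · rw [le_div_iff₀ h1]
              rw [le_div_iff₀ hN0] at h2
              linarith
          · rintro ⟨⟨h1, h2⟩, h3⟩
            refine ⟨h1, ?_⟩
            rw [le_div_iff₀ h1] at h3
            rw [le_div_iff₀ hN0]
            linarith
        rw [hset, Finset.sum_filter, Finset.mul_sum, Finset.mul_sum]
        refine Finset.sum_congr rfl fun w hw => ?_
        have hw0 := (ht_mem hY0 hw).1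
        split_ifs with h
        · rw [hh_mul hpj hw0]
          have : hh (p ^ j) = (1 / 2 : ℝ) ^ j := by unfold hh; rw [ht_OmG_pow hpp]
          rw [this]; ring
        · ring
    _ = ∑ w ∈ ann 0 Y, hh w * ∑ q ∈ (P ×ˢ J).filter (fun q => (nN q.1 : ℝ) ^ q.2 ≤ Y / nN w),
          (1 / 2 : ℝ) ^ q.2 * log (nN q.1 : ℝ) := by
        rw [← Finset.sum_product']
        simp_rw [Finset.mul_sum, Finset.sum_filter]
        rw [Finset.sum_comm]
        refine Finset.sum_congr rfl fun w _ => ?_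
        refine Finset.sum_congr rfl fun q _ => ?_
        split_ifs <;> ring
    _ ≤ ∑ w ∈ ann 0 Y, hh w * (16 * (log 4 + 4) * (Y / nN w)) := by
        refine Finset.sum_le_sum fun w _ => ?_
        refine mul_le_mul_of_nonneg_left ?_ (hh_pos w).le
        apply ht_cheb _ _ (by positivity)
        intro q hq
        rw [Finset.mem_filter, Finset.mem_product, hP, Finset.mem_filter, hJ, Finset.mem_Icc] at hq
        exact ⟨hq.1.1.2, hq.1.2.1, hq.2⟩
    _ = _ := by
        rw [Finset.mul_sum]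
        refine Finset.sum_congr rfl fun w _ => ?_
        ring

theorem HT : ∃ C : ℝ, 0 < C ∧ ∀ Y : ℝ, 1 ≤ Y →
    ∑ z ∈ ann 0 Y, hh z ≤ C * Y / √(1 + log Y) := by
  obtain ⟨C1, hC1, h1⟩ := hh_log
  set K : ℝ := 16 * (log 4 + 4) with hK
  have hK0 : 0 < K := by
    have : 0 < log 4 := Real.log_pos (by norm_num)
    positivity
  refine ⟨(1 + K) * C1, by positivity, fun Y hY => ?_⟩
  have hY0 : 0 < Y := by linarith
  have hlogY : 0 ≤ log Y := Real.log_nonneg hY
  have hs : 0 < √(1 + log Y) := Real.sqrt_pos.2 (by linarith)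
  set S1 := ∑ z ∈ ann 0 Y, hh z / nN z with hS1
  have hS1' := h1 Y hY
  have h2 := ht_main hY
  have h3 : ∑ z ∈ ann 0 Y, hh z * (1 + log Y - log (nN z : ℝ)) ≤ Y * S1 := by
    rw [hS1, Finset.mul_sum]
    refine Finset.sum_le_sum fun z hz => ?_
    obtain ⟨hz0, hz1, hz2⟩ := ht_mem hY0.le hz
    have h4 : log (Y / nN z) ≤ Y / nN z - 1 :=
      Real.log_le_sub_one_of_pos (by positivity)
    rw [Real.log_div hY0.ne' (by linarith)] at h4
    calc hh z * (1 + log Y - log (nN z : ℝ)) ≤ hh z * (Y / nN z) := by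
          have := (hh_pos z).le
          gcongr
          linarith
      _ = Y * (hh z / nN z) := by ring
  have h5 : (1 + log Y) * ∑ z ∈ ann 0 Y, hh z ≤ (1 + K) * Y * S1 := by
    have h6 : (1 + log Y) * ∑ z ∈ ann 0 Y, hh z =
        ∑ z ∈ ann 0 Y, hh z * (1 + log Y - log (nN z : ℝ)) +
        ∑ z ∈ ann 0 Y, hh z * log (nN z : ℝ) := by
      rw [← Finset.sum_add_distrib, Finset.mul_sum]
      refine Finset.sum_congr rfl fun z _ => ?_
      ring
    rw [h6]
    linarith
  have h7 : (1 + log Y) * ∑ z ∈ ann 0 Y, hh z ≤ (1 + K) * Y * (C1 * √(1 + log Y)) := by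
    refine h5.trans ?_
    gcongr
  rw [le_div_iff₀ hs]
  have h8 : √(1 + log Y) * √(1 + log Y) = 1 + log Y := Real.mul_self_sqrt (by linarith)
  have h9 : ((∑ z ∈ ann 0 Y, hh z) * √(1 + log Y)) * √(1 + log Y) ≤
      ((1 + K) * C1 * Y) * √(1 + log Y) := by
    rw [mul_assoc, h8]; linarith
  exact le_of_mul_le_mul_right h9 hs

open Classical in
theorem HTd : ∃ C : ℝ, 0 < C ∧ ∀ s : ℕ,
    ∑ z ∈ (ann 0 (exp (s + 1))).filter (fun z => exp s ≤ (nN z : ℝ)), hh z / nN z ≤
      C / √(1 + s) := by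
  obtain ⟨C, hC, h⟩ := HT
  refine ⟨C * exp 1, by positivity, fun s => ?_⟩
  have hY1 : (1 : ℝ) ≤ exp (s + 1) := Real.one_le_exp (by positivity)
  have h1 := h (exp (s + 1)) hY1
  rw [Real.log_exp] at h1
  have hs0 : (0 : ℝ) < √(1 + s) := Real.sqrt_pos.2 (by positivity)
  calc ∑ z ∈ (ann 0 (exp (s + 1))).filter (fun z => exp s ≤ (nN z : ℝ)), hh z / nN z
      ≤ ∑ z ∈ (ann 0 (exp (s + 1))).filter (fun z => exp s ≤ (nN z : ℝ)),
          hh z * exp (-(s : ℝ)) := by
        refine Finset.sum_le_sum fun z hz => ?_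
        rw [Finset.mem_filter] at hz
        rw [div_eq_mul_inv, Real.exp_neg]
        have := (hh_pos z).le
        gcongr
        exact hz.2
    _ ≤ ∑ z ∈ ann 0 (exp (s + 1)), hh z * exp (-(s : ℝ)) := by
        apply Finset.sum_le_sum_of_subset_of_nonneg (Finset.filter_subset _ _)
        intro z _ _
        have := (hh_pos z).le
        positivity
    _ = (∑ z ∈ ann 0 (exp (s + 1)), hh z) * exp (-(s : ℝ)) := by rw [Finset.sum_mul]
    _ ≤ (C * exp (s + 1) / √(1 + (s + 1))) * exp (-(s : ℝ)) := by gcongr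
    _ = C * exp 1 / √(1 + (s + 1)) := by
        rw [Real.exp_add, Real.exp_neg]
        field_simp
    _ ≤ C * exp 1 / √(1 + s) := by
        gcongr
        linarith

end Pool.Agent.NSqP
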