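import Pool.Agent.Lib.NSqP.End
import Pool.Agent.Lib.NSqP.All
import Pool.Agent.Lib.NSqP.Count

/-!
# Main theorem: positive proportion parity theorem
-/

set_option autoImplicit false

namespace Pool.Agent.NSqP

open Real
open Pool.Agent.MP484c84Par (CM F badEdges edges signSet badEdges_subset)

theorem main (p : ℕ) (hp : p.Prime) (hp4 : p = 2 ∨ p % 4 = 1) :
    ∃ c : ℝ, 0 < c ∧ ∃ x0 : ℕ, ∀ g : ℕ → ℤ, CM g → g p = -1 → ∀ x : ℕ, x0 ≤ x →
      ∀ e : ℤ, (e = 1 ∨ e = -1) →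
        c * x ≤ ((prs g e x).card : ℝ) ∧
        (x : ℝ) / (log x) ^ ((7 : ℝ) / 10) ≤ ((signSet g e x).card : ℝ) := by
  obtain ⟨c1, hc1, N1, h1⟩ := THMA p hp hp4
  obtain ⟨c2, hc2, N2, h2⟩ := plus_edges
  obtain ⟨x1, h3⟩ := count_lower (min c1 c2) (lt_min hc1 hc2)
  refine ⟨min c1 c2 / 8, by positivity, max (max N1 N2) x1, fun g hg hgp x hx e he => ?_⟩
  have hN1 : N1 ≤ x := le_trans (le_trans (le_max_left _ _) (le_max_left _ _)) hx
  have hN2 : N2 ≤ x := le_trans (le_trans (le_max_right _ _) (le_max_left _ _)) hx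
  have hx1 : x1 ≤ x := le_trans (le_max_right _ _) hx
  have hx0 : (0 : ℝ) ≤ x := Nat.cast_nonneg x
  have hE : min c1 c2 * x ≤ ((edges g e x).card : ℝ) := by
    rcases he with rfl | rfl
    · exact (mul_le_mul_of_nonneg_right (min_le_right _ _) hx0).trans (h2 g hg x hN2)
    · refine (mul_le_mul_of_nonneg_right (min_le_left _ _) hx0).trans
        ((h1 g hg hgp x hN1).trans ?_)
      exact_mod_cast Finset.card_le_card (badEdges_subset hg x)
  refine ⟨?_, h3 x hx1 g hg e hE⟩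
  have h4 : ((edges g e x).card : ℝ) ≤ 8 * ((prs g e x).card : ℝ) := by
    exact_mod_cast edges_le_prs hg e x
  linarith

end Pool.Agent.NSqP
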