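import Pool.Agent.Lib.NSqP.Expm
import Pool.Agent.Lib.NSqP.LS

/-!
# MOM: moments
Expand `Pb^ℓ * ∑_w` as `∑_z b_z xi(z)^m` over the products `z = π_1 ... π_ℓ w`; `|b_z|` is at most
the number of representations, which is at most `k^ℓ`, `k = #{π ∈ blk : π ∣ z}` (`w` is determined
by the `π_i`), and `k^(2ℓ) ≤ (2ℓ)! e^k`.  The content of `z` is in `Rset` (with `K = ⌊L⌋`):
if a prime `q ∣ z` is not a norm of the block, then from `z * star (∏ π_i) = N(∏ π_i) w` and
`q ∤ N(∏ π_i)` we get `q ∣ w`, impossible.  `LSC` with `B` from `sum_Rset`, then `cont_exp`.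
`N z ≤ L = Y exp (ℓ (v+1)/H)`.
-/

set_option autoImplicit false

namespace Pool.Agent.NSqP

open Real
open Pool.Agent.MP484c84Par (ballG mem_ballG crossG badEdges mem_badEdges CM F)

private lemma xi_one : xi 1 = 1 := by simp [xi]

private lemma xi_prod {ι : Type} (s : Finset ι) (g : ι → GaussianInt) :
    xi (∏ i ∈ s, g i) = ∏ i ∈ s, xi (g i) := by
  classical
  induction s using Finset.induction with
  | empty => simp [xi_one]
  | insert a s ha ih => rw [Finset.prod_insert ha, Finset.prod_insert ha, xi_mul, ih]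

private lemma nN_prod {ι : Type} (s : Finset ι) (g : ι → GaussianInt) :
    nN (∏ i ∈ s, g i) = ∏ i ∈ s, nN (g i) := by
  classical
  induction s using Finset.induction with
  | empty => simp [nN_one]
  | insert a s ha ih => rw [Finset.prod_insert ha, Finset.prod_insert ha, nN_mul, ih]

private lemma star_mul_self' (z : GaussianInt) : star z * z = (nN z : GaussianInt) := by
  have h := Zsqrtd.norm_eq_mul_conj z
  have h2 : ((nN z : ℕ) : GaussianInt) = ((z.norm : ℤ) : GaussianInt) := by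
    rw [← nN_cast_int]
    push_cast
    rfl
  rw [h2, h, mul_comm]

private lemma nat_dvd_iff (q : ℕ) (z : GaussianInt) : (q : GaussianInt) ∣ z ↔ q ∣ cont z := by
  have h : ((q : ℤ) : GaussianInt) ∣ z ↔ (q : ℤ) ∣ z.re ∧ (q : ℤ) ∣ z.im :=
    Zsqrtd.intCast_dvd _ _
  unfold cont
  rw [← Int.natCast_dvd_natCast, Int.dvd_coe_gcd_iff, ← h]
  simp

/-- a prime which divides `P w`, `w` primitive, divides the norm of `P` -/
private lemma dvd_norm_of_dvd {q : ℕ} (hq : q.Prime) {P w : GaussianInt} (hw : Prim w)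
    (h : q ∣ cont (P * w)) : q ∣ nN P := by
  by_contra hcon
  have h1 : (q : GaussianInt) ∣ (nN P : GaussianInt) * w := by
    have h2 : (nN P : GaussianInt) * w = star P * (P * w) := by
      rw [← star_mul_self', mul_assoc]
    rw [h2]
    exact Dvd.dvd.mul_left ((nat_dvd_iff _ _).2 h) _
  have h3 : ((q : ℤ) : GaussianInt) ∣ (nN P : GaussianInt) * w := by simpa using h1
  rw [Zsqrtd.intCast_dvd] at h3
  have hre : ((nN P : GaussianInt) * w).re = (nN P : ℤ) * w.re := by simp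
  have him : ((nN P : GaussianInt) * w).im = (nN P : ℤ) * w.im := by simp
  rw [hre, him] at h3
  have hqp : Prime (q : ℤ) := Nat.prime_iff_prime_int.1 hq
  have hn : ¬ (q : ℤ) ∣ (nN P : ℤ) := by
    rw [Int.natCast_dvd_natCast]
    exact hcon
  have h4 : (q : ℤ) ∣ w.re := (hqp.dvd_or_dvd h3.1).resolve_left hn
  have h5 : (q : ℤ) ∣ w.im := (hqp.dvd_or_dvd h3.2).resolve_left hn
  have h6 : q ∣ cont w := by
    unfold cont
    rw [← Int.natCast_dvd_natCast, Int.dvd_coe_gcd_iff]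
    exact ⟨h4, h5⟩
  rw [show cont w = 1 from hw] at h6
  exact hq.one_lt.ne' (Nat.dvd_one.1 h6)

private lemma cont_pos {z : GaussianInt} (hz : z ≠ 0) : 1 ≤ cont z := by
  unfold cont
  rcases Nat.eq_zero_or_pos (Int.gcd z.re z.im) with h | h
  · rw [Int.gcd_eq_zero_iff] at h
    exact absurd (Zsqrtd.ext h.1 h.2) hz
  · exact h

private lemma cont_le {z : GaussianInt} (hz : z ≠ 0) : cont z ≤ nN z := by
  have h1 : ((cont z : ℕ) : GaussianInt) ∣ z := (nat_dvd_iff _ _).2 dvd_rfl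
  obtain ⟨y, hy⟩ := h1
  have h2 : nN z = nN ((cont z : ℕ) : GaussianInt) * nN y := by
    conv_lhs => rw [hy]
    exact nN_mul _ _
  have h3 : nN ((cont z : ℕ) : GaussianInt) = cont z ^ 2 := by
    have h : ((nN ((cont z : ℕ) : GaussianInt) : ℕ) : ℤ) = ((cont z ^ 2 : ℕ) : ℤ) := by
      rw [nN_cast_int, Zsqrtd.norm_natCast]
      push_cast
      ring
    exact_mod_cast h
  have h4 : nN y ≠ 0 := by
    intro h
    rw [nN_eq_zero.1 h, mul_zero] at hy
    exact hz hy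
  rw [h2, h3]
  have h5 : 1 ≤ nN y := Nat.pos_of_ne_zero h4
  have h6 := cont_pos hz
  nlinarith

theorem MOM : ∃ C : ℝ, 0 < C ∧ ∀ f : GaussianInt → ℂ, CMC f → ∀ (H v M ℓ : ℕ) (Y : ℝ)
    (S : Finset GaussianInt) (r : GaussianInt → ℂ), 1 ≤ H → 1 ≤ Y →
    (∀ w ∈ S, Prim w ∧ (nN w : ℝ) ≤ Y ∧ ‖r w‖ ≤ 1) →
    ∑ m ∈ fr M, ‖Pb f H v m‖ ^ (2 * ℓ) * ‖∑ w ∈ S, r w * xi w ^ m‖ ^ 2 ≤
      C * (Nat.factorial (2 * ℓ) : ℝ) * (M + Y * exp (ℓ * (((v : ℝ) + 1) / H))) *
        (Y * exp (ℓ * (((v : ℝ) + 1) / H))) := by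
  classical
  obtain ⟨C1, hC1, hLSC⟩ := LSC
  obtain ⟨C2, hC2, hRs⟩ := sum_Rset
  obtain ⟨C3, hC3, hce⟩ := cont_exp
  refine ⟨C1 * C2 * C3, by positivity, ?_⟩
  intro f hf H v M ℓ Y S r hH hY hS
  set L : ℝ := Y * exp (ℓ * (((v : ℝ) + 1) / H)) with hL
  have hL1 : 1 ≤ L := by
    have : 1 ≤ exp (ℓ * (((v : ℝ) + 1) / H)) := by
      rw [Real.one_le_exp_iff]
      positivity
    calc (1 : ℝ) = 1 * 1 := by ring
      _ ≤ Y * exp (ℓ * (((v : ℝ) + 1) / H)) := mul_le_mul hY this zero_le_one (by linarith)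
  set X : Finset ((Fin ℓ → GaussianInt) × GaussianInt) :=
    (Fintype.piFinset (fun _ : Fin ℓ => blk H v)) ×ˢ S with hX
  let g : (Fin ℓ → GaussianInt) × GaussianInt → GaussianInt := fun q => (∏ i, q.1 i) * q.2
  let c : (Fin ℓ → GaussianInt) × GaussianInt → ℂ := fun q => (∏ i, f (q.1 i)) * r q.2
  have hXmem : ∀ q ∈ X, (∀ i, q.1 i ∈ blk H v) ∧ q.2 ∈ S := by
    intro q hq
    rw [hX, Finset.mem_product, Fintype.mem_piFinset] at hq
    exact hq
  have hblk : ∀ p ∈ blk H v, p ≠ 0 := fun p hp => (mem_blk.1 hp).1.ne_zero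
  have hc : ∀ q ∈ X, ‖c q‖ ≤ 1 := by
    intro q hq
    obtain ⟨h1, h2⟩ := hXmem q hq
    show ‖(∏ i, f (q.1 i)) * r q.2‖ ≤ 1
    rw [norm_mul, norm_prod]
    have h3 : ∏ i, ‖f (q.1 i)‖ ≤ 1 :=
      Finset.prod_le_one (fun i _ => norm_nonneg _) (fun i _ => hf.le _ (hblk _ (h1 i)))
    exact mul_le_one₀ h3 (norm_nonneg _) (hS _ h2).2.2
  have hPne : ∀ q ∈ X, (∏ i, q.1 i) ≠ 0 := by
    intro q hq
    rw [Finset.prod_ne_zero_iff]
    exact fun i _ => hblk _ ((hXmem q hq).1 i)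
  have hgne : ∀ q ∈ X, g q ≠ 0 := by
    intro q hq
    exact mul_ne_zero (hPne q hq) (prim_ne_zero (hS _ (hXmem q hq).2).1)
  set T : Finset GaussianInt := X.image g with hT
  let a : GaussianInt → ℂ := fun z => ∑ q ∈ X.filter (fun q => g q = z), c q
  -- the expansion
  have hexp : ∀ m : ℤ, Pb f H v m ^ ℓ * ∑ w ∈ S, r w * xi w ^ m = ∑ z ∈ T, a z * xi z ^ m := by
    intro m
    have h1 : Pb f H v m ^ ℓ = ∑ p ∈ Fintype.piFinset (fun _ : Fin ℓ => blk H v),
        ∏ i, (f (p i) * xi (p i) ^ m) := by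
      have h0 := Finset.prod_univ_sum (fun _ : Fin ℓ => blk H v)
        (fun _ z => f z * xi z ^ m)
      rw [Finset.prod_const, Finset.card_univ, Fintype.card_fin] at h0
      exact h0
    rw [h1, Finset.sum_mul_sum, ← Finset.sum_product']
    rw [← Finset.sum_fiberwise_of_maps_to (s := X) (t := T) (g := g)
      (fun q hq => Finset.mem_image_of_mem g hq)]
    refine Finset.sum_congr rfl fun z _ => ?_
    show _ = (∑ q ∈ X.filter (fun q => g q = z), c q) * xi z ^ m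
    rw [Finset.sum_mul]
    refine Finset.sum_congr rfl fun q hq => ?_
    have hqz : g q = z := (Finset.mem_filter.1 hq).2
    rw [← hqz]
    show _ = (∏ i, f (q.1 i)) * r q.2 * xi ((∏ i, q.1 i) * q.2) ^ m
    rw [xi_mul_zpow, xi_prod, Finset.prod_mul_distrib, ← Finset.prod_zpow]
    ring
  -- the coefficients
  have ha : ∀ z ∈ T, ‖a z‖ ≤ (((blk H v).filter (fun p => p ∣ z)).card : ℝ) ^ ℓ := by
    intro z _
    have h1 : ‖a z‖ ≤ ((X.filter (fun q => g q = z)).card : ℝ) := by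
      calc ‖a z‖ ≤ ∑ q ∈ X.filter (fun q => g q = z), ‖c q‖ := norm_sum_le _ _
        _ ≤ ∑ q ∈ X.filter (fun q => g q = z), (1 : ℝ) :=
            Finset.sum_le_sum fun q hq => hc q (Finset.mem_filter.1 hq).1
        _ = _ := by simp
    refine h1.trans ?_
    have h2 : (X.filter (fun q => g q = z)).card ≤
        (Fintype.piFinset (fun _ : Fin ℓ => (blk H v).filter (fun p => p ∣ z))).card := by
      apply Finset.card_le_card_of_injOn (fun q => q.1)
      · intro q hq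
        have hq := Finset.mem_coe.1 hq
        obtain ⟨hq1, hq2⟩ := Finset.mem_filter.1 hq
        rw [Finset.mem_coe, Fintype.mem_piFinset]
        intro i
        refine Finset.mem_filter.2 ⟨(hXmem q hq1).1 i, ?_⟩
        rw [← hq2]
        exact Dvd.dvd.mul_right (Finset.dvd_prod_of_mem _ (Finset.mem_univ i)) _
      · intro q hq q' hq' hqq
        have hq := Finset.mem_coe.1 hq
        have hq' := Finset.mem_coe.1 hq'
        obtain ⟨hq1, hq2⟩ := Finset.mem_filter.1 hq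
        obtain ⟨hq1', hq2'⟩ := Finset.mem_filter.1 hq'
        have hqq : q.1 = q'.1 := hqq
        have h3 : (∏ i, q.1 i) * q.2 = (∏ i, q.1 i) * q'.2 := by
          have h4 : g q = g q' := by rw [hq2, hq2']
          have h5 : (∏ i, q.1 i) * q.2 = (∏ i, q'.1 i) * q'.2 := h4
          rw [h5, hqq]
        exact Prod.ext hqq (mul_left_cancel₀ (hPne q hq1) h3)
    rw [Fintype.card_piFinset, Finset.prod_const, Finset.card_univ, Fintype.card_fin] at h2
    exact_mod_cast h2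
  -- the elements of `T`
  have hTmem : ∀ z ∈ T, z ≠ 0 ∧ (nN z : ℝ) ≤ L ∧ cont z ∈ Rset H v ⌊L⌋₊ := by
    intro z hz
    obtain ⟨q, hq, rfl⟩ := Finset.mem_image.1 hz
    obtain ⟨h1, h2⟩ := hXmem q hq
    have hz0 : g q ≠ 0 := hgne q hq
    have hN : (nN (g q) : ℝ) ≤ L := by
      show (nN ((∏ i, q.1 i) * q.2) : ℝ) ≤ L
      rw [nN_mul, nN_prod]
      push_cast
      have h3 : ∏ i, (nN (q.1 i) : ℝ) ≤ exp (ℓ * (((v : ℝ) + 1) / H)) := by
        calc ∏ i, (nN (q.1 i) : ℝ) ≤ ∏ _i : Fin ℓ, exp (((v : ℝ) + 1) / H) :=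
              Finset.prod_le_prod (fun i _ => Nat.cast_nonneg _)
                (fun i _ => (mem_blk.1 (h1 i)).2.2.le)
          _ = exp (ℓ * (((v : ℝ) + 1) / H)) := by
              rw [Finset.prod_const, Finset.card_univ, Fintype.card_fin, ← Real.exp_nat_mul]
      rw [hL, mul_comm]
      exact mul_le_mul (hS _ h2).2.1 h3 (Finset.prod_nonneg fun i _ => Nat.cast_nonneg _)
        (by linarith)
    refine ⟨hz0, hN, ?_⟩
    unfold Rset
    rw [Finset.mem_filter, Finset.mem_Icc]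
    refine ⟨⟨cont_pos hz0, ?_⟩, ?_⟩
    · apply Nat.le_floor
      exact le_trans (by exact_mod_cast cont_le hz0) hN
    · intro p hp hpd
      have h3 : p ∣ nN (∏ i, q.1 i) := dvd_norm_of_dvd hp (hS _ h2).1 hpd
      rw [nN_prod] at h3
      obtain ⟨i, -, hi⟩ := (Prime.dvd_finsetProd_iff (Nat.prime_iff.1 hp) _).1 h3
      exact ⟨q.1 i, h1 i, ((Nat.prime_dvd_prime_iff_eq hp (mem_blk.1 (h1 i)).1.2.2.1).1 hi).symm⟩
  -- the large sieve
  have hfin : ∑ m ∈ fr M, ‖Pb f H v m‖ ^ (2 * ℓ) * ‖∑ w ∈ S, r w * xi w ^ m‖ ^ 2 =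
      ∑ m ∈ fr M, ‖∑ z ∈ T, a z * xi z ^ m‖ ^ 2 := by
    refine Finset.sum_congr rfl fun m _ => ?_
    rw [← hexp m, norm_mul, norm_pow, mul_pow, ← pow_mul, mul_comm ℓ 2]
  rw [hfin]
  have h1 := hLSC T a L C2 M (Rset H v ⌊L⌋₊) hL1 hTmem (hRs H v _ hH)
  have h2 : ∑ z ∈ T, (cont z : ℝ) * ‖a z‖ ^ 2 ≤ (Nat.factorial (2 * ℓ) : ℝ) * (C3 * L) := by
    calc ∑ z ∈ T, (cont z : ℝ) * ‖a z‖ ^ 2
        ≤ ∑ z ∈ T, (Nat.factorial (2 * ℓ) : ℝ) * ((cont z : ℝ) *
            exp (((blk H v).filter (fun p => p ∣ z)).card : ℝ)) := by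
          refine Finset.sum_le_sum fun z hz => ?_
          have h3 : ‖a z‖ ^ 2 ≤ (((blk H v).filter (fun p => p ∣ z)).card : ℝ) ^ (2 * ℓ) := by
            rw [mul_comm 2 ℓ, pow_mul]
            exact pow_le_pow_left₀ (norm_nonneg _) (ha z hz) 2
          have h4 := Real.pow_div_factorial_le_exp
            (((blk H v).filter (fun p => p ∣ z)).card : ℝ) (Nat.cast_nonneg _) (2 * ℓ)
          rw [div_le_iff₀ (by positivity)] at h4
          calc (cont z : ℝ) * ‖a z‖ ^ 2 ≤ (cont z : ℝ) *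
                (exp (((blk H v).filter (fun p => p ∣ z)).card : ℝ) *
                  (Nat.factorial (2 * ℓ) : ℝ)) :=
                mul_le_mul_of_nonneg_left (h3.trans h4) (Nat.cast_nonneg _)
            _ = _ := by ring
      _ = (Nat.factorial (2 * ℓ) : ℝ) * ∑ z ∈ T, ((cont z : ℝ) *
            exp (((blk H v).filter (fun p => p ∣ z)).card : ℝ)) := by rw [Finset.mul_sum]
      _ ≤ (Nat.factorial (2 * ℓ) : ℝ) * ∑ z ∈ (ann 0 L).filter
            (fun z => cont z ∈ Rset H v ⌊L⌋₊), ((cont z : ℝ) *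
            exp (((blk H v).filter (fun p => p ∣ z)).card : ℝ)) := by
          apply mul_le_mul_of_nonneg_left _ (by positivity)
          apply Finset.sum_le_sum_of_subset_of_nonneg
          · intro z hz
            obtain ⟨h5, h6, h7⟩ := hTmem z hz
            refine Finset.mem_filter.2 ⟨(mem_ann (by linarith)).2 ⟨?_, h6⟩, h7⟩
            exact_mod_cast nN_pos h5
          · intro z _ _
            positivity
      _ ≤ (Nat.factorial (2 * ℓ) : ℝ) * (C3 * L) :=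
          mul_le_mul_of_nonneg_left (hce H v _ L hH (by linarith)) (by positivity)
  calc ∑ m ∈ fr M, ‖∑ z ∈ T, a z * xi z ^ m‖ ^ 2
      ≤ C1 * C2 * (M + L) * ∑ z ∈ T, (cont z : ℝ) * ‖a z‖ ^ 2 := h1
    _ ≤ C1 * C2 * (M + L) * ((Nat.factorial (2 * ℓ) : ℝ) * (C3 * L)) := by
        apply mul_le_mul_of_nonneg_left h2
        have : (0 : ℝ) ≤ M := Nat.cast_nonneg _
        have : (0 : ℝ) ≤ M + L := by linarith
        positivity
    _ = C1 * C2 * C3 * (Nat.factorial (2 * ℓ) : ℝ) * (M + L) * L := by ring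

end Pool.Agent.NSqP
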