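import Pool.Agent.Lib.NSqP.LS
import Pool.Agent.Lib.NSqP.Near

/-!
# PAIR: close pairs with different signs
For such a pair `(z, z')` apply `MP484c84Par.path` with the convex cone of the `w` whose
directions are within `r` of the directions of `z` and of `z'`: there is a bad edge `(u, u')` in
the cone. So the pair is among the `(1 + 4 r N)^2` pairs with both members within `r` of `xi u`
(`near_count`, `prim_sep`, `L = N`).
-/

set_option autoImplicit false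

namespace Pool.Agent.NSqP

open Real
open Pool.Agent.MP484c84Par (ballG mem_ballG crossG badEdges mem_badEdges CM F)

private lemma near_iff {w : GaussianInt} (hw : w ≠ 0) {ζ : ℂ} (hζ : ‖ζ‖ = 1) {r : ℝ} (hr : 0 ≤ r) :
    ‖xi w - ζ‖ ≤ r ↔
      (1 - r ^ 2 / 2) * ‖(w : ℂ)‖ ≤ ((w : ℂ) * (starRingEnd ℂ) ζ).re := by
  have hw0 : 0 < ‖(w : ℂ)‖ := norm_pos_iff.2 (toC_ne_zero hw)
  have h1 : ‖xi w - ζ‖ ^ 2 = 2 - 2 * (xi w * (starRingEnd ℂ) ζ).re := by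
    rw [← Complex.normSq_eq_norm_sq, Complex.normSq_sub, Complex.normSq_eq_norm_sq,
      Complex.normSq_eq_norm_sq, norm_xi hw, hζ]
    ring
  have h2 : (xi w * (starRingEnd ℂ) ζ).re = ((w : ℂ) * (starRingEnd ℂ) ζ).re / ‖(w : ℂ)‖ := by
    unfold xi
    rw [div_mul_eq_mul_div, Complex.div_ofReal_re]
  rw [h2] at h1
  constructor
  · intro h
    have h3 : ‖xi w - ζ‖ ^ 2 ≤ r ^ 2 := pow_le_pow_left₀ (norm_nonneg _) h 2
    rw [h1] at h3
    have h4 : 1 - r ^ 2 / 2 ≤ ((w : ℂ) * (starRingEnd ℂ) ζ).re / ‖(w : ℂ)‖ := by linarith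
    rwa [le_div_iff₀ hw0] at h4
  · intro h
    rw [← le_div_iff₀ hw0] at h
    have h3 : ‖xi w - ζ‖ ^ 2 ≤ r ^ 2 := by rw [h1]; linarith
    exact (pow_le_pow_iff_left₀ (norm_nonneg _) hr (by norm_num)).1 h3

private lemma cone_conv {κ : ℝ} (hκ : 0 ≤ κ) (ζ : ℂ) {z z' u : GaussianInt} {a b D : ℤ}
    (ha : 0 ≤ a) (hb : 0 ≤ b) (hD : 0 < D) (h1 : D * u.re = a * z.re + b * z'.re)
    (h2 : D * u.im = a * z.im + b * z'.im)
    (hz : κ * ‖(z : ℂ)‖ ≤ ((z : ℂ) * (starRingEnd ℂ) ζ).re)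
    (hz' : κ * ‖(z' : ℂ)‖ ≤ ((z' : ℂ) * (starRingEnd ℂ) ζ).re) :
    κ * ‖(u : ℂ)‖ ≤ ((u : ℂ) * (starRingEnd ℂ) ζ).re := by
  have hDr : (0 : ℝ) < D := by exact_mod_cast hD
  have har : (0 : ℝ) ≤ a := by exact_mod_cast ha
  have hbr : (0 : ℝ) ≤ b := by exact_mod_cast hb
  have h3 : (((D : ℤ) : GaussianInt) * u) = ((a : ℤ) : GaussianInt) * z +
      ((b : ℤ) : GaussianInt) * z' := by
    ext
    · simp only [Zsqrtd.re_add, Zsqrtd.re_mul, Zsqrtd.re_intCast, Zsqrtd.im_intCast]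
      linarith
    · simp only [Zsqrtd.im_add, Zsqrtd.im_mul, Zsqrtd.re_intCast, Zsqrtd.im_intCast]
      linarith
  have h4 : ((D : ℝ) : ℂ) * (u : ℂ) = ((a : ℝ) : ℂ) * (z : ℂ) + ((b : ℝ) : ℂ) * (z' : ℂ) := by
    have h5 := congrArg GaussianInt.toComplex h3
    rw [map_mul, map_add, map_mul, map_mul] at h5
    simpa using h5
  have h6 : (D : ℝ) * ((u : ℂ) * (starRingEnd ℂ) ζ).re =
      a * ((z : ℂ) * (starRingEnd ℂ) ζ).re + b * ((z' : ℂ) * (starRingEnd ℂ) ζ).re := by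
    have h7 : ((D : ℝ) : ℂ) * ((u : ℂ) * (starRingEnd ℂ) ζ) =
        ((a : ℝ) : ℂ) * ((z : ℂ) * (starRingEnd ℂ) ζ) +
          ((b : ℝ) : ℂ) * ((z' : ℂ) * (starRingEnd ℂ) ζ) := by
      rw [← mul_assoc, h4]; ring
    have h8 := congrArg Complex.re h7
    rwa [Complex.add_re, Complex.re_ofReal_mul, Complex.re_ofReal_mul, Complex.re_ofReal_mul] at h8
  have h9 : (D : ℝ) * ‖(u : ℂ)‖ ≤ a * ‖(z : ℂ)‖ + b * ‖(z' : ℂ)‖ := by
    have h10 : (D : ℝ) * ‖(u : ℂ)‖ = ‖((D : ℝ) : ℂ) * (u : ℂ)‖ := by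
      rw [norm_mul, Complex.norm_real, Real.norm_of_nonneg hDr.le]
    rw [h10, h4]
    refine (norm_add_le _ _).trans ?_
    rw [norm_mul, norm_mul, Complex.norm_real, Complex.norm_real, Real.norm_of_nonneg har,
      Real.norm_of_nonneg hbr]
  have h11 : (D : ℝ) * (κ * ‖(u : ℂ)‖) ≤ D * ((u : ℂ) * (starRingEnd ℂ) ζ).re := by
    rw [h6]
    have h12 := mul_le_mul_of_nonneg_left hz har
    have h13 := mul_le_mul_of_nonneg_left hz' hbr
    have h14 := mul_le_mul_of_nonneg_left h9 hκ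
    nlinarith
  exact le_of_mul_le_mul_left h11 hDr

open Classical in
theorem pair_bound {g : ℕ → ℤ} (hg : CM g) (N : ℕ) (hN : 1 ≤ N) (r : ℝ) (hr : 0 ≤ r) (hr1 : r ≤ 1) :
    ((((pann (N / 2) N) ×ˢ (pann (N / 2) N)).filter
      (fun q => ‖xi q.1 - xi q.2‖ ≤ r ∧ F g q.1 ≠ F g q.2)).card : ℝ) ≤
      (1 + 4 * r * N) ^ 2 * (badEdges g N).card := by
  set S : Finset GaussianInt := pann (N / 2) N with hS
  have hNr : (1 : ℝ) ≤ (N : ℝ) := by exact_mod_cast hN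
  have hN0 : (0 : ℝ) ≤ (N : ℝ) := by linarith
  have hmem : ∀ z ∈ S, Prim z ∧ (nN z : ℝ) ≤ N := by
    intro z hz
    rw [hS, mem_pann hN0] at hz
    exact ⟨hz.2, hz.1.2⟩
  have hκ : 0 ≤ 1 - r ^ 2 / 2 := by nlinarith
  -- every pair is near a bad edge
  have hsub : ((S ×ˢ S).filter (fun q => ‖xi q.1 - xi q.2‖ ≤ r ∧ F g q.1 ≠ F g q.2)) ⊆
      (badEdges g N).biUnion (fun p => (S.filter (fun z => ‖xi z - xi p.1‖ ≤ r)) ×ˢ
        (S.filter (fun z => ‖xi z - xi p.1‖ ≤ r))) := by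
    rintro ⟨z, z'⟩ hq
    rw [Finset.mem_filter, Finset.mem_product] at hq
    obtain ⟨⟨hz, hz'⟩, hr2, hF⟩ := hq
    simp only at hz hz' hr2 hF
    have hz0 : z ≠ 0 := prim_ne_zero (hmem z hz).1
    have hz0' : z' ≠ 0 := prim_ne_zero (hmem z' hz').1
    have hnz : z.norm ≤ (N : ℤ) := by
      rw [← nN_cast_int]; exact_mod_cast (hmem z hz).2
    have hnz' : z'.norm ≤ (N : ℤ) := by
      rw [← nN_cast_int]; exact_mod_cast (hmem z' hz').2
    let C : GaussianInt → Prop := fun w =>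
      (1 - r ^ 2 / 2) * ‖(w : ℂ)‖ ≤ ((w : ℂ) * (starRingEnd ℂ) (xi z)).re ∧
      (1 - r ^ 2 / 2) * ‖(w : ℂ)‖ ≤ ((w : ℂ) * (starRingEnd ℂ) (xi z')).re
    have hC : MP484c84Par.Convex' C := by
      intro w w' u a b D ha hb hD _ h1 h2 hw hw'
      exact ⟨cone_conv hκ _ ha hb hD h1 h2 hw.1 hw'.1, cone_conv hκ _ ha hb hD h1 h2 hw.2 hw'.2⟩
    have hCz : C z := by
      refine ⟨(near_iff hz0 (norm_xi hz0) hr).1 ?_, (near_iff hz0 (norm_xi hz0') hr).1 hr2⟩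
      rw [sub_self, norm_zero]; exact hr
    have hCz' : C z' := by
      refine ⟨(near_iff hz0' (norm_xi hz0) hr).1 ?_, (near_iff hz0' (norm_xi hz0') hr).1 ?_⟩
      · rw [norm_sub_rev]; exact hr2
      · rw [sub_self, norm_zero]; exact hr
    obtain ⟨p, hp, hp1, _⟩ := MP484c84Par.path hg hC N hz0 hz0' hnz hnz' hCz hCz' hF
    have hp0 : p.1 ≠ 0 := by
      intro h
      have h1 := (mem_badEdges.1 hp).2.2.1
      rw [h] at h1
      simp [MP484c84Par.crossG] at h1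
    rw [Finset.mem_biUnion]
    refine ⟨p, hp, ?_⟩
    rw [Finset.mem_product, Finset.mem_filter, Finset.mem_filter]
    refine ⟨⟨hz, ?_⟩, ⟨hz', ?_⟩⟩
    · rw [norm_sub_rev]; exact (near_iff hp0 (norm_xi hz0) hr).2 hp1.1
    · rw [norm_sub_rev]; exact (near_iff hp0 (norm_xi hz0') hr).2 hp1.2
  have hcount : ∀ p ∈ badEdges g N,
      (((S.filter (fun z => ‖xi z - xi p.1‖ ≤ r)) ×ˢ
        (S.filter (fun z => ‖xi z - xi p.1‖ ≤ r))).card : ℝ) ≤ (1 + 4 * r * N) ^ 2 := by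
    intro p hp
    have hp0 : p.1 ≠ 0 := by
      intro h
      have h1 := (mem_badEdges.1 hp).2.2.1
      rw [h] at h1
      simp [MP484c84Par.crossG] at h1
    have h1 := near_count S xi (xi p.1) N r hNr hr (norm_xi hp0)
      (fun i hi => norm_xi (prim_ne_zero (hmem i hi).1))
      (fun i hi j hj hij => prim_sep (hmem i hi).1 (hmem j hj).1 hij hNr (hmem i hi).2 (hmem j hj).2)
    rw [Finset.card_product]
    push_cast
    rw [← sq]
    exact pow_le_pow_left₀ (Nat.cast_nonneg _) h1 2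
  calc ((((S ×ˢ S).filter (fun q => ‖xi q.1 - xi q.2‖ ≤ r ∧ F g q.1 ≠ F g q.2)).card : ℕ) : ℝ)
      ≤ (((badEdges g N).biUnion (fun p => (S.filter (fun z => ‖xi z - xi p.1‖ ≤ r)) ×ˢ
        (S.filter (fun z => ‖xi z - xi p.1‖ ≤ r)))).card : ℝ) := by
        exact_mod_cast Finset.card_le_card hsub
    _ ≤ ∑ p ∈ badEdges g N, (((S.filter (fun z => ‖xi z - xi p.1‖ ≤ r)) ×ˢ
        (S.filter (fun z => ‖xi z - xi p.1‖ ≤ r))).card : ℝ) := by
        exact_mod_cast Finset.card_biUnion_le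
    _ ≤ ∑ _p ∈ badEdges g N, (1 + 4 * r * N) ^ 2 := Finset.sum_le_sum hcount
    _ = (1 + 4 * r * N) ^ 2 * (badEdges g N).card := by
        rw [Finset.sum_const, nsmul_eq_mul]; ring

end Pool.Agent.NSqP
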