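import Pool.Agent.Lib.NSqP.OmG
import Pool.Agent.Lib.MP484c84Par.Edges

/-!
# PAIRC: pairs of edges with the same `n`
Let `conj u * v = conj u' * v'` (`dotG` equal and `crossG = 1`).  `z1 = gcd u u'`, `u = z1 z2`,
`u' = z1 z3`, `IsCoprime z2 z3`; then `conj z2 * v = conj z3 * v'`, so `conj z3 ∣ v`.  The second
edge is determined by the first edge and `z2 ∣ u`, `t = conj z3 ∣ v` (`z1 = u/z2`,
`u' = z1 conj t`, `v' = conj z2 * (v/t)`), and `N t / N z2 = N u'/N u ∈ [δ, 1/δ]`.  With
`r_k(u) = #{a ∣ u : ⌊log N a⌋ = k}` the number of `(z2, t)` is at most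
`∑_k r_k(u) ∑_{|j| ≤ K} r_{k+j}(v) ≤ (2K+1) (Rk u + Rk v)`, `K = ⌈log (1/δ)⌉ + 1`.
-/

set_option autoImplicit false

namespace Pool.Agent.NSqP

open Real
open Pool.Agent.MP484c84Par (ballG mem_ballG crossG badEdges mem_badEdges CM F dotG edges mem_edges
  signSet)

open Classical in
/-- the sum of the squares of the fibre sizes over any finite set of values -/
theorem PairC_sq {β : Type} (B : Finset β) (f : β → ℤ) (X : Finset ℤ) :
    ∑ l ∈ X, (B.filter (fun b => f b = l)).card ^ 2 ≤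
      ((B ×ˢ B).filter (fun q => f q.1 = f q.2)).card := by
  have h1 : ∑ l ∈ X, (B.filter (fun b => f b = l)).card ^ 2 =
      (((B ×ˢ B).filter (fun q => f q.1 = f q.2)).filter (fun q => f q.1 ∈ X)).card := by
    rw [Finset.card_eq_sum_card_fiberwise
      (s := ((B ×ˢ B).filter (fun q => f q.1 = f q.2)).filter (fun q => f q.1 ∈ X))
      (f := fun q : β × β => f q.1) (t := X)
      (fun q hq => (Finset.mem_filter.1 (Finset.mem_coe.1 hq)).2)]
    refine Finset.sum_congr rfl fun l hl => ?_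
    rw [pow_two, ← Finset.card_product]
    congr 1
    ext q
    simp only [Finset.mem_product, Finset.mem_filter]
    constructor
    · rintro ⟨⟨h1, h2⟩, h3, h4⟩
      exact ⟨⟨⟨⟨h1, h3⟩, by rw [h2, h4]⟩, by rw [h2]; exact hl⟩, h2⟩
    · rintro ⟨⟨⟨⟨h1, h3⟩, h4⟩, h5⟩, h6⟩
      exact ⟨⟨h1, h6⟩, h3, by rw [← h4]; exact h6⟩
  rw [h1]
  exact Finset.card_le_card (Finset.filter_subset _ _)

open Classical in
/-- pairs with a given difference of the values -/
theorem PairC_diff {α β : Type} (A : Finset α) (B : Finset β) (f : α → ℤ) (g : β → ℤ) (j : ℤ) :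
    ((A ×ˢ B).filter (fun q => g q.2 - f q.1 = j)).card ≤
      ((A ×ˢ A).filter (fun q => f q.1 = f q.2)).card +
      ((B ×ˢ B).filter (fun q => g q.1 = g q.2)).card := by
  have h1 : ((A ×ˢ B).filter (fun q => g q.2 - f q.1 = j)).card =
      ∑ k ∈ A.image f, (A.filter (fun a => f a = k)).card *
        (B.filter (fun b => g b = k + j)).card := by
    rw [Finset.card_eq_sum_card_fiberwise (f := fun q : α × β => f q.1) (t := A.image f)
      (fun q hq => Finset.mem_image_of_mem f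
        (Finset.mem_product.1 (Finset.mem_filter.1 (Finset.mem_coe.1 hq)).1).1)]
    refine Finset.sum_congr rfl fun k _ => ?_
    rw [← Finset.card_product]
    congr 1
    ext q
    simp only [Finset.mem_product, Finset.mem_filter]
    constructor
    · rintro ⟨⟨⟨h1, h2⟩, h3⟩, h4⟩
      exact ⟨⟨h1, h4⟩, h2, by rw [← h4, ← h3]; ring⟩
    · rintro ⟨⟨h1, h2⟩, h3, h4⟩
      exact ⟨⟨⟨h1, h3⟩, by rw [h4, h2]; ring⟩, h2⟩
  rw [h1]
  have h2 : ∑ k ∈ A.image f, (A.filter (fun a => f a = k)).card *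
      (B.filter (fun b => g b = k + j)).card ≤
      ∑ k ∈ A.image f, (A.filter (fun a => f a = k)).card ^ 2 +
      ∑ k ∈ A.image f, (B.filter (fun b => g b = k + j)).card ^ 2 := by
    rw [← Finset.sum_add_distrib]
    refine Finset.sum_le_sum fun k _ => ?_
    nlinarith [sq_nonneg (((A.filter (fun a => f a = k)).card : ℤ) -
      (B.filter (fun b => g b = k + j)).card),
      Nat.zero_le ((A.filter (fun a => f a = k)).card * (B.filter (fun b => g b = k + j)).card),
      Nat.le_self_pow two_ne_zero ((A.filter (fun a => f a = k)).card), mul_comm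
      ((A.filter (fun a => f a = k)).card) ((B.filter (fun b => g b = k + j)).card),
      two_mul_le_add_sq ((A.filter (fun a => f a = k)).card) ((B.filter (fun b => g b = k + j)).card)]
  refine h2.trans (add_le_add (PairC_sq A f _) ?_)
  have h3 : ∑ k ∈ A.image f, (B.filter (fun b => g b = k + j)).card ^ 2 =
      ∑ l ∈ (A.image f).image (fun k => k + j), (B.filter (fun b => g b = l)).card ^ 2 := by
    rw [Finset.sum_image (fun a _ b _ h => add_right_cancel h)]
  rw [h3]
  exact PairC_sq B g _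

open Classical in
/-- pairs with a bounded difference of the values -/
theorem PairC_close {α β : Type} (A : Finset α) (B : Finset β) (f : α → ℤ) (g : β → ℤ) (K : ℕ) :
    ((A ×ˢ B).filter (fun q => |g q.2 - f q.1| ≤ K)).card ≤
      (2 * K + 1) * (((A ×ˢ A).filter (fun q => f q.1 = f q.2)).card +
      ((B ×ˢ B).filter (fun q => g q.1 = g q.2)).card) := by
  rw [Finset.card_eq_sum_card_fiberwise (f := fun q : α × β => g q.2 - f q.1)
    (t := Finset.Icc (-(K : ℤ)) K) (fun q hq => by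
      have h := (Finset.mem_filter.1 (Finset.mem_coe.1 hq)).2
      rw [abs_le] at h
      exact Finset.mem_coe.2 (Finset.mem_Icc.2 h))]
  refine (Finset.sum_le_card_nsmul _ _ (((A ×ˢ A).filter (fun q => f q.1 = f q.2)).card +
      ((B ×ˢ B).filter (fun q => g q.1 = g q.2)).card) fun j _ => ?_).trans (le_of_eq ?_)
  · refine le_trans (Finset.card_le_card ?_) (PairC_diff A B f g j)
    intro q hq
    rw [Finset.mem_filter, Finset.mem_filter] at hq
    exact Finset.mem_filter.2 ⟨hq.1.1, hq.2⟩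
  · rw [smul_eq_mul, Int.card_Icc]
    congr 1
    omega

/-- the arithmetic of two edges with the same product -/
theorem PairC_key {u v u' v' : GaussianInt} (h1 : crossG u v = 1) (h1' : crossG u' v' = 1)
    (hd : dotG u v = dotG u' v') :
    ∃ z2 t : GaussianInt, z2 ≠ 0 ∧ t ≠ 0 ∧ z2 ∣ u ∧ t ∣ v ∧ u' * z2 = u * star t ∧
      t * v' = star z2 * v ∧ nN u' * nN z2 = nN u * nN t := by
  obtain ⟨hu, hv⟩ := Pool.Agent.MP484c84Par.ne_zero_of_cross h1
  obtain ⟨hu', hv'⟩ := Pool.Agent.MP484c84Par.ne_zero_of_cross h1'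
  have he : star u * v = star u' * v' := by
    rw [Pool.Agent.MP484c84Par.mul_eq_mk h1, Pool.Agent.MP484c84Par.mul_eq_mk h1', hd]
  set g := EuclideanDomain.gcd u u' with hg
  obtain ⟨z2, hz2⟩ := EuclideanDomain.gcd_dvd_left u u'
  obtain ⟨z3, hz3⟩ := EuclideanDomain.gcd_dvd_right u u'
  rw [← hg] at hz2 hz3
  have hg0 : g ≠ 0 := by
    intro h0
    rw [h0, zero_mul] at hz2
    exact hu hz2
  have hz20 : z2 ≠ 0 := by
    rintro rfl
    rw [mul_zero] at hz2
    exact hu hz2
  have hz30 : z3 ≠ 0 := by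
    rintro rfl
    rw [mul_zero] at hz3
    exact hu' hz3
  have hbez := EuclideanDomain.gcd_eq_gcd_ab u u'
  rw [← hg] at hbez
  set a := EuclideanDomain.gcdA u u'
  set b := EuclideanDomain.gcdB u u'
  have hco : z2 * a + z3 * b = 1 := by
    apply mul_left_cancel₀ hg0
    have : g * (z2 * a + z3 * b) = (g * z2) * a + (g * z3) * b := by ring
    rw [this, ← hz2, ← hz3, mul_one]
    exact hbez.symm
  have hsg0 : star g ≠ 0 := by
    intro h
    exact hg0 (by rw [← star_star g, h, star_zero])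
  have he2 : star z2 * v = star z3 * v' := by
    apply mul_left_cancel₀ hsg0
    have e1 : star u = star g * star z2 := by
      rw [hz2, star_mul, mul_comm]
    have e2 : star u' = star g * star z3 := by
      rw [hz3, star_mul, mul_comm]
    rw [e1, e2] at he
    rw [← mul_assoc, ← mul_assoc]
    exact he
  have hco' : star z2 * star a + star z3 * star b = 1 := by
    have := congrArg star hco
    rw [star_add, star_mul, star_mul, star_one] at this
    rw [mul_comm (star z2), mul_comm (star z3)]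
    exact this
  have hdvd : star z3 ∣ v := by
    refine ⟨v' * star a + v * star b, ?_⟩
    have : v = (star z2 * star a + star z3 * star b) * v := by rw [hco', one_mul]
    calc v = (star z2 * star a + star z3 * star b) * v := this
      _ = (star z2 * v) * star a + star z3 * (v * star b) := by ring
      _ = star z3 * (v' * star a + v * star b) := by rw [he2]; ring
  refine ⟨z2, star z3, hz20, ?_, ⟨g, by rw [hz2, mul_comm]⟩, hdvd, ?_, he2.symm, ?_⟩
  · intro h
    exact hz30 (by rw [← star_star z3, h, star_zero])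
  · rw [star_star]
    conv_lhs => rw [hz3]
    conv_rhs => rw [hz2]
    ring
  · rw [nN_star]
    conv_lhs => rw [hz3]
    conv_rhs => rw [hz2]
    rw [nN_mul, nN_mul]
    ring

open Classical in
theorem pair_count (δ : ℝ) (hδ : 0 < δ) : ∃ C : ℝ, 0 < C ∧ ∀ (x : ℝ)
    (E : Finset (GaussianInt × GaussianInt)), 0 < x →
    (∀ p ∈ E, crossG p.1 p.2 = 1 ∧ δ * x ≤ nN p.1 ∧ (nN p.1 : ℝ) ≤ x ∧ δ * x ≤ nN p.2 ∧
      (nN p.2 : ℝ) ≤ x) →
    (((E ×ˢ E).filter (fun q => dotG q.1.1 q.1.2 = dotG q.2.1 q.2.2)).card : ℝ) ≤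
      C * ∑ p ∈ E, ((Rk p.1 : ℝ) + Rk p.2) := by
  obtain ⟨K, hK⟩ := exists_nat_ge (|log δ| + 1)
  refine ⟨2 * K + 1, by positivity, fun x E hx hE => ?_⟩
  set S := (E ×ˢ E).filter (fun q => dotG q.1.1 q.1.2 = dotG q.2.1 q.2.2) with hS
  have hmem : ∀ q ∈ S, (q.1 ∈ E ∧ q.2 ∈ E) ∧ dotG q.1.1 q.1.2 = dotG q.2.1 q.2.2 := by
    intro q hq
    rw [hS, Finset.mem_filter, Finset.mem_product] at hq
    exact hq
  have hkey : ∀ q : (GaussianInt × GaussianInt) × (GaussianInt × GaussianInt), q ∈ S →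
      ∃ w : GaussianInt × GaussianInt, w.1 ≠ 0 ∧ w.2 ≠ 0 ∧
      w.1 ∣ q.1.1 ∧ w.2 ∣ q.1.2 ∧ q.2.1 * w.1 = q.1.1 * star w.2 ∧
      w.2 * q.2.2 = star w.1 * q.1.2 ∧ nN q.2.1 * nN w.1 = nN q.1.1 * nN w.2 := by
    intro q hq
    obtain ⟨⟨h1, h2⟩, h3⟩ := hmem q hq
    obtain ⟨z2, t, h⟩ := PairC_key (hE _ h1).1 (hE _ h2).1 h3
    exact ⟨(z2, t), h⟩
  choose! w hw using hkey
  let T : (GaussianInt × GaussianInt) → Finset (GaussianInt × GaussianInt) := fun p =>
    (divG p.1 ×ˢ divG p.2).filter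
      (fun r => |(⌊log (nN r.2)⌋ : ℤ) - ⌊log (nN r.1)⌋| ≤ K)
  have hcard : S.card ≤ (E.sigma T).card := by
    refine Finset.card_le_card_of_injOn (fun q => ⟨q.1, w q⟩) ?_ ?_
    · intro q hq
      rw [Finset.mem_coe] at hq
      obtain ⟨⟨h1, h2⟩, h3⟩ := hmem q hq
      obtain ⟨w1, w2, w3, w4, w5, w6, w7⟩ := hw q hq
      obtain ⟨hu, hv⟩ := Pool.Agent.MP484c84Par.ne_zero_of_cross (hE _ h1).1
      obtain ⟨hu', hv'⟩ := Pool.Agent.MP484c84Par.ne_zero_of_cross (hE _ h2).1
      rw [Finset.mem_coe, Finset.mem_sigma]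
      refine ⟨h1, ?_⟩
      show w q ∈ (divG q.1.1 ×ˢ divG q.1.2).filter _
      rw [Finset.mem_filter, Finset.mem_product, mem_divG hu, mem_divG hv]
      refine ⟨⟨w3, w4⟩, ?_⟩
      obtain ⟨-, a1, a2, -, -⟩ := hE _ h1
      obtain ⟨-, b1, b2, -, -⟩ := hE _ h2
      have p1 : (0 : ℝ) < nN q.1.1 := by exact_mod_cast nN_pos hu
      have p2 : (0 : ℝ) < nN q.2.1 := by exact_mod_cast nN_pos hu'
      have p3 : (0 : ℝ) < nN (w q).1 := by exact_mod_cast nN_pos w1
      have p4 : (0 : ℝ) < nN (w q).2 := by exact_mod_cast nN_pos w2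
      have e1 : log (nN q.2.1) + log (nN (w q).1) = log (nN q.1.1) + log (nN (w q).2) := by
        rw [← log_mul p2.ne' p3.ne', ← log_mul p1.ne' p4.ne']
        congr 1
        exact_mod_cast w7
      have e2 : log δ + log x ≤ log (nN q.1.1) := by
        rw [← log_mul hδ.ne' hx.ne']
        exact log_le_log (by positivity) a1
      have e3 : log (nN q.1.1) ≤ log x := log_le_log p1 a2
      have e4 : log δ + log x ≤ log (nN q.2.1) := by
        rw [← log_mul hδ.ne' hx.ne']
        exact log_le_log (by positivity) b1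
      have e5 : log (nN q.2.1) ≤ log x := log_le_log p2 b2
      have e6 : -|log δ| ≤ log δ := neg_abs_le _
      have f1 := Int.floor_le (log (nN (w q).1 : ℝ))
      have f2 := Int.lt_floor_add_one (log (nN (w q).1 : ℝ))
      have f3 := Int.floor_le (log (nN (w q).2 : ℝ))
      have f4 := Int.lt_floor_add_one (log (nN (w q).2 : ℝ))
      have g1 : (((⌊log (nN (w q).2 : ℝ)⌋ : ℤ) - ⌊log (nN (w q).1 : ℝ)⌋ : ℤ) : ℝ) ≤ ((K : ℤ) : ℝ) := by
        push_cast
        linarith
      have g2 : ((-(K : ℤ) : ℤ) : ℝ) ≤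
          (((⌊log (nN (w q).2 : ℝ)⌋ : ℤ) - ⌊log (nN (w q).1 : ℝ)⌋ : ℤ) : ℝ) := by
        push_cast
        linarith
      rw [abs_le]
      exact ⟨Int.cast_le.1 g2, Int.cast_le.1 g1⟩
    · intro q hq q' hq' heq
      rw [Finset.mem_coe] at hq hq'
      obtain ⟨w1, w2, w3, w4, w5, w6, w7⟩ := hw q hq
      obtain ⟨v1, v2, v3, v4, v5, v6, v7⟩ := hw q' hq'
      have i1 : q.1 = q'.1 := congrArg Sigma.fst heq
      have i2 : w q = w q' := by
        have := heq
        simp only [Sigma.mk.injEq, heq_eq_eq] at this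
        exact this.2
      have i3 : q.2.1 = q'.2.1 := by
        apply mul_right_cancel₀ w1
        rw [w5, i1, i2, ← v5]
      have i4 : q.2.2 = q'.2.2 := by
        apply mul_left_cancel₀ w2
        rw [w6, i1, i2, ← v6]
      exact Prod.ext i1 (Prod.ext i3 i4)
  have hT : ∀ p ∈ E, (T p).card ≤ (2 * K + 1) * (Rk p.1 + Rk p.2) := by
    intro p _
    exact PairC_close (divG p.1) (divG p.2) (fun r => ⌊log (nN r)⌋) (fun r => ⌊log (nN r)⌋) K
  have hfin : S.card ≤ ∑ p ∈ E, (2 * K + 1) * (Rk p.1 + Rk p.2) := by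
    refine hcard.trans ?_
    rw [Finset.card_sigma]
    exact Finset.sum_le_sum hT
  have : (S.card : ℝ) ≤ ((∑ p ∈ E, (2 * K + 1) * (Rk p.1 + Rk p.2) : ℕ) : ℝ) := by
    exact_mod_cast hfin
  refine this.trans (le_of_eq ?_)
  push_cast
  rw [Finset.mul_sum]

end Pool.Agent.NSqP
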