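import Pool.Agent.Lib.NSqP.Basic

/-!
# Positive proportion parity theorem: definitions for the Selberg majorant and the final step
-/

set_option autoImplicit false

namespace Pool.Agent.NSqP

open Real
open Pool.Agent.MP484c84Par (ballG mem_ballG)

/-- statement W1: power saving for the sums of `ξ^d` over annuli -/
def W1Stmt : Prop := ∃ κ : ℝ, 0 < κ ∧ ∃ Y0 : ℝ, ∀ Y : ℝ, Y0 ≤ Y → ∀ d : ℤ, d ≠ 0 →
  |(d : ℝ)| ≤ Y ^ (23 / 10 : ℝ) → ∀ a b : ℝ, 0 ≤ a → a ≤ b → b ≤ Y →
    ‖∑ z ∈ ann a b, xi z ^ d‖ ≤ Y ^ (1 - κ)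

/-- statement W2: the same over primitive elements -/
def W2Stmt : Prop := ∃ κ : ℝ, 0 < κ ∧ ∃ Y0 : ℝ, ∀ Y : ℝ, Y0 ≤ Y → ∀ d : ℤ, d ≠ 0 →
  |(d : ℝ)| ≤ Y ^ (23 / 10 : ℝ) → ∀ a b : ℝ, 0 ≤ a → a ≤ b → b ≤ Y →
    ‖∑ z ∈ pann a b, xi z ^ d‖ ≤ Y ^ (1 - κ)

/-- the Gaussian primes `IsPi` of norm at most `R` -/
noncomputable def PS (R : ℝ) : Finset GaussianInt :=
  open Classical in (ballG ⌊R⌋₊).filter IsPi

/-- norm of the product over `E` -/
noncomputable def nE (E : Finset GaussianInt) : ℝ := ∏ q ∈ E, (nN q : ℝ)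

/-- `φ` of the product over `E` -/
noncomputable def phE (E : Finset GaussianInt) : ℝ := ∏ q ∈ E, ((nN q : ℝ) - 1)

/-- sets of primes with product of norm at most `R` -/
noncomputable def EE (R : ℝ) : Finset (Finset GaussianInt) :=
  open Classical in (PS R).powerset.filter (fun E => nE E ≤ R)

/-- Selberg's sum -/
noncomputable def JR (R : ℝ) : ℝ := ∑ E ∈ EE R, 1 / phE E

open Classical in
/-- the orthogonal functions: a product over `q ∈ E` of `-1` if `q ∣ z` and `1/(N q - 1)` if not -/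
noncomputable def hE (E : Finset GaussianInt) (z : GaussianInt) : ℝ :=
  ∏ q ∈ E, (if q ∣ z then (-1 : ℝ) else 1 / ((nN q : ℝ) - 1))

/-- Selberg's optimal function -/
noncomputable def LamR (R : ℝ) (z : GaussianInt) : ℝ := (∑ E ∈ EE R, hE E z) / JR R

/-- functions with values `1` and `-1` on nonzero elements -/
def PM (f : GaussianInt → ℂ) : Prop := ∀ z, z ≠ 0 → f z = 1 ∨ f z = -1

/-- normalised Fourier coefficients on the primitive elements of `(x/2, x]` -/
noncomputable def TT (f : GaussianInt → ℂ) (x : ℝ) (m : ℤ) : ℂ :=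
  Zs f (x / 2) x m / ((pann (x / 2) x).card : ℂ)

/-- the approximation of `f` by the frequencies in `U` -/
noncomputable def GG (f : GaussianInt → ℂ) (x : ℝ) (U : Finset ℤ) (z : GaussianInt) : ℂ :=
  ∑ m ∈ U, TT f x m * xi z ^ (-m)

/-- the primitive cofactors used with the primes of the block `v` -/
noncomputable def WW (v : ℕ) (x : ℝ) : Finset GaussianInt :=
  pann (x / 2 * exp (-((v : ℝ) / 4))) (x * exp (-(((v : ℝ) + 1) / 4)))

lemma mem_PS {R : ℝ} (hR : 0 ≤ R) {z : GaussianInt} : z ∈ PS R ↔ IsPi z ∧ (nN z : ℝ) ≤ R := by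
  classical
  unfold PS
  rw [Finset.mem_filter, mem_ballG]
  constructor
  · rintro ⟨h1, h2⟩
    refine ⟨h2, ?_⟩
    rw [← nN_cast_int] at h1
    have h3 : nN z ≤ ⌊R⌋₊ := by exact_mod_cast h1
    exact (Nat.le_floor_iff hR).1 h3
  · rintro ⟨h1, h2⟩
    refine ⟨?_, h1⟩
    rw [← nN_cast_int]
    exact_mod_cast Nat.le_floor h2

lemma isPi_of_mem_PS {R : ℝ} {z : GaussianInt} (h : z ∈ PS R) : IsPi z := by
  classical
  unfold PS at h
  exact (Finset.mem_filter.1 h).2

lemma mem_EE {R : ℝ} {E : Finset GaussianInt} : E ∈ EE R ↔ E ⊆ PS R ∧ nE E ≤ R := by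
  classical
  unfold EE
  rw [Finset.mem_filter, Finset.mem_powerset]

lemma IsPi.three_le {z : GaussianInt} (h : IsPi z) : (3 : ℝ) ≤ nN z := by
  have := h.2.2.2
  exact_mod_cast this

lemma one_le_nE {E : Finset GaussianInt} (h : ∀ q ∈ E, IsPi q) : 1 ≤ nE E := by
  classical
  unfold nE
  induction E using Finset.induction_on with
  | empty => simp
  | insert q E hq ih =>
    rw [Finset.prod_insert hq]
    have h1 := (h q (Finset.mem_insert_self q E)).three_le
    have h2 := ih (fun r hr => h r (Finset.mem_insert_of_mem hr))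
    nlinarith

lemma phE_pos {E : Finset GaussianInt} (h : ∀ q ∈ E, IsPi q) : 0 < phE E := by
  unfold phE
  exact Finset.prod_pos fun q hq => by linarith [(h q hq).three_le]

lemma empty_mem_EE {R : ℝ} (hR : 1 ≤ R) : (∅ : Finset GaussianInt) ∈ EE R := by
  rw [mem_EE]
  exact ⟨Finset.empty_subset _, by simpa [nE] using hR⟩

lemma one_le_JR {R : ℝ} (hR : 1 ≤ R) : 1 ≤ JR R := by
  have h0 : 1 / phE ∅ ≤ JR R :=
    Finset.single_le_sum (f := fun E => 1 / phE E) (fun E hE => by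
      have := phE_pos (fun q hq => isPi_of_mem_PS ((mem_EE.1 hE).1 hq))
      positivity) (empty_mem_EE hR)
  simpa [phE] using h0

end Pool.Agent.NSqP
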