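import Pool.Agent.Lib.NSqP.SvMaj
import Pool.Agent.Lib.NSqP.PiF

/-!
# SVCLM: the sieve claim
`dual` (duality): `S k = ∑_{q ∈ B} u q ^ k`.  `∑_k |S k|^2 = ∑_{q ∈ B} ∑_k conj (S k) u q ^ k
≤ |B|^{1/2} (∑_{z ∈ A} ν z |∑_k conj (S k) u z^k|^2)^{1/2}` (Cauchy, `ν ≥ 0`, `ν = 1` on `B ⊆ A`),
expand the square: `= ∑_{k,l} conj (S k) S l ∑_z ν z u z^(k-l) ≤ (M0 + K0 E) ∑_k |S k|^2`.
`powers`: `∑_{q,q'} |u q^k - u q'^k|^2 = 2|B|^2 - 2|S k|^2` and `|u^k - u'^k| ≤ k |u - u'|`.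
`CLAIM`: let `b = e^((v+1)/4)`, `u = xi^d`, `ν = LamR (b^θ)^2`, `A = ann 0 b ⊇ B = blk 4 v`;
`ν = 1` on `B`: an element of `PS (b^θ)` dividing `q ∈ B` equals `q` (`IsPi.coprime`), but
`N q ≥ e^(v/4) > b^θ` (`LamR_eq_one`).  `M0 = C b / log b ≤ C' e^(v/4)/log x`
(`log b ≥ 0.48 log x`), `E = b^(1-θ)`, all twists have `|d (k - l)| ≤ 2 x K0 ≤ b^2.3` since
`b ≥ x^0.48`, `0.48 * 2.3 = 1.104`; `K0 E ≤ M0` for large `x`.  So
`∑_{k=1}^{K0} |S k|^2 ≤ |B| 2 M0 ≤ (C4/c1) |B|^2`.  Choose `K0 > 2 C4/c1` and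
`c2 = 1/(4 K0^2)`: if `|S 1|^2 > (1 - c2)|B|^2` then `|S k|^2 ≥ (3/4)|B|^2` for all `k ≤ K0`,
contradiction.
-/

set_option autoImplicit false

namespace Pool.Agent.NSqP

open Real

open scoped ComplexConjugate in
/-- duality -/
theorem dual (A B : Finset GaussianInt) (hBA : B ⊆ A) (nu : GaussianInt → ℝ)
    (u : GaussianInt → ℂ) (hu : ∀ z ∈ A, ‖u z‖ = 1) (hnu : ∀ z ∈ A, 0 ≤ nu z)
    (h1 : ∀ z ∈ B, nu z = 1) (K0 : ℕ) (M0 E : ℝ) (hM : ∑ z ∈ A, nu z ≤ M0) (hE : 0 ≤ E)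
    (htw : ∀ j : ℤ, j ≠ 0 → |j| < K0 → ‖∑ z ∈ A, u z ^ j * ((nu z : ℝ) : ℂ)‖ ≤ E) :
    ∑ k ∈ Finset.Icc 1 K0, ‖∑ q ∈ B, u q ^ k‖ ^ 2 ≤ (B.card : ℝ) * (M0 + K0 * E) := by
  classical
  have hM0 : 0 ≤ M0 := (Finset.sum_nonneg hnu).trans hM
  set S : ℕ → ℂ := fun k => ∑ q ∈ B, u q ^ k with hS
  set T : ℝ := ∑ k ∈ Finset.Icc 1 K0, ‖S k‖ ^ 2 with hT
  have hT0 : 0 ≤ T := Finset.sum_nonneg fun _ _ => by positivity
  let F : GaussianInt → ℂ := fun z => ∑ k ∈ Finset.Icc 1 K0, conj (S k) * u z ^ k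
  -- `T` as a sum over `B`
  have e1 : (T : ℂ) = ∑ q ∈ B, F q := by
    change (T : ℂ) = ∑ q ∈ B, ∑ k ∈ Finset.Icc 1 K0, conj (S k) * u q ^ k
    rw [Finset.sum_comm, hT]
    push_cast
    refine Finset.sum_congr rfl (fun k _ => ?_)
    rw [← Finset.mul_sum]
    change ((‖S k‖ : ℝ) : ℂ) ^ 2 = conj (S k) * S k
    rw [mul_comm, Complex.mul_conj, Complex.normSq_eq_norm_sq]
    push_cast
    rfl
  have e2 : T ^ 2 ≤ (B.card : ℝ) * ∑ z ∈ A, nu z * ‖F z‖ ^ 2 := by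
    have h2 : T ≤ ∑ q ∈ B, ‖F q‖ := by
      have h3 : T = ‖(T : ℂ)‖ := by rw [Complex.norm_real, Real.norm_of_nonneg hT0]
      rw [h3, e1]
      exact norm_sum_le _ _
    calc T ^ 2 ≤ (∑ q ∈ B, ‖F q‖) ^ 2 := pow_le_pow_left₀ hT0 h2 2
      _ ≤ (B.card : ℝ) * ∑ q ∈ B, ‖F q‖ ^ 2 := sq_sum_le_card_mul_sum_sq
      _ ≤ (B.card : ℝ) * ∑ z ∈ A, nu z * ‖F z‖ ^ 2 := by
          apply mul_le_mul_of_nonneg_left _ (Nat.cast_nonneg _)
          calc ∑ q ∈ B, ‖F q‖ ^ 2 = ∑ q ∈ B, nu q * ‖F q‖ ^ 2 :=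
                Finset.sum_congr rfl fun q hq => by rw [h1 q hq, one_mul]
            _ ≤ ∑ z ∈ A, nu z * ‖F z‖ ^ 2 :=
                Finset.sum_le_sum_of_subset_of_nonneg hBA fun z hz _ =>
                  mul_nonneg (hnu z hz) (by positivity)
  -- expansion of the square
  have e3 : ((∑ z ∈ A, nu z * ‖F z‖ ^ 2 : ℝ) : ℂ) =
      ∑ k ∈ Finset.Icc 1 K0, ∑ l ∈ Finset.Icc 1 K0, conj (S k) * S l *
        ∑ z ∈ A, u z ^ ((k : ℤ) - (l : ℤ)) * ((nu z : ℝ) : ℂ) := by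
    push_cast
    have h2 : ∀ z ∈ A, (nu z : ℂ) * (‖F z‖ : ℂ) ^ 2 =
        ∑ k ∈ Finset.Icc 1 K0, ∑ l ∈ Finset.Icc 1 K0, conj (S k) * S l *
          (u z ^ ((k : ℤ) - (l : ℤ)) * ((nu z : ℝ) : ℂ)) := by
      intro z hz
      have hu0 : u z ≠ 0 := by
        intro h
        have := hu z hz
        rw [h, norm_zero] at this
        exact zero_ne_one this
      have hconj : conj (u z) = (u z)⁻¹ := by
        rw [Complex.inv_def, Complex.normSq_eq_norm_sq, hu z hz]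
        simp
      have h3 : (‖F z‖ : ℂ) ^ 2 = F z * conj (F z) := by
        rw [Complex.mul_conj, Complex.normSq_eq_norm_sq]
        push_cast
        rfl
      rw [h3]
      change (nu z : ℂ) * ((∑ k ∈ Finset.Icc 1 K0, conj (S k) * u z ^ k) *
        conj (∑ l ∈ Finset.Icc 1 K0, conj (S l) * u z ^ l)) = _
      rw [map_sum, Finset.sum_mul_sum, Finset.mul_sum]
      refine Finset.sum_congr rfl (fun k _ => ?_)
      rw [Finset.mul_sum]
      refine Finset.sum_congr rfl (fun l _ => ?_)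
      rw [map_mul, map_pow, Complex.conj_conj, hconj, zpow_sub₀ hu0, zpow_natCast, zpow_natCast]
      rw [inv_pow]
      field_simp
    rw [Finset.sum_congr rfl h2, Finset.sum_comm]
    refine Finset.sum_congr rfl (fun k _ => ?_)
    rw [Finset.sum_comm]
    refine Finset.sum_congr rfl (fun l _ => ?_)
    exact (Finset.mul_sum _ _ _).symm
  have hX0 : 0 ≤ ∑ z ∈ A, nu z * ‖F z‖ ^ 2 :=
    Finset.sum_nonneg fun z hz => mul_nonneg (hnu z hz) (by positivity)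
  have e4 : ∑ z ∈ A, nu z * ‖F z‖ ^ 2 ≤ (M0 + K0 * E) * T := by
    have h2 : ∑ z ∈ A, nu z * ‖F z‖ ^ 2 = ‖((∑ z ∈ A, nu z * ‖F z‖ ^ 2 : ℝ) : ℂ)‖ := by
      rw [Complex.norm_real, Real.norm_of_nonneg hX0]
    rw [h2, e3]
    have h3 : ∀ k ∈ Finset.Icc 1 K0, ∀ l ∈ Finset.Icc 1 K0,
        ‖conj (S k) * S l * ∑ z ∈ A, u z ^ ((k : ℤ) - (l : ℤ)) * ((nu z : ℝ) : ℂ)‖ ≤
          (if k = l then ‖S k‖ ^ 2 * M0 else 0) + ‖S k‖ * ‖S l‖ * E := by
      intro k hk l hl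
      rw [Finset.mem_Icc] at hk hl
      rw [norm_mul, norm_mul, Complex.norm_conj]
      split_ifs with hkl
      · subst hkl
        have h4 : ‖∑ z ∈ A, u z ^ ((k : ℤ) - (k : ℤ)) * ((nu z : ℝ) : ℂ)‖ ≤ M0 := by
          have h5 : ∑ z ∈ A, u z ^ ((k : ℤ) - (k : ℤ)) * ((nu z : ℝ) : ℂ) =
              ((∑ z ∈ A, nu z : ℝ) : ℂ) := by
            push_cast
            refine Finset.sum_congr rfl (fun z _ => ?_)
            rw [sub_self, zpow_zero, one_mul]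
          rw [h5, Complex.norm_real, Real.norm_of_nonneg (Finset.sum_nonneg hnu)]
          exact hM
        have h6 : 0 ≤ ‖S k‖ * ‖S k‖ * E := by positivity
        have h7 : ‖S k‖ * ‖S k‖ * ‖∑ z ∈ A, u z ^ ((k : ℤ) - (k : ℤ)) * ((nu z : ℝ) : ℂ)‖ ≤
            ‖S k‖ * ‖S k‖ * M0 := mul_le_mul_of_nonneg_left h4 (by positivity)
        calc _ ≤ ‖S k‖ * ‖S k‖ * M0 := h7
          _ = ‖S k‖ ^ 2 * M0 := by ring
          _ ≤ _ := by linarith
      · rw [zero_add]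
        apply mul_le_mul_of_nonneg_left _ (by positivity)
        apply htw
        · intro h
          apply hkl
          have : (k : ℤ) = l := by linarith
          exact_mod_cast this
        · rw [abs_lt]
          constructor
          · have : (l : ℤ) ≤ K0 := by exact_mod_cast hl.2
            have : (1 : ℤ) ≤ k := by exact_mod_cast hk.1
            linarith
          · have : (k : ℤ) ≤ K0 := by exact_mod_cast hk.2
            have : (1 : ℤ) ≤ l := by exact_mod_cast hl.1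
            linarith
    calc ‖∑ k ∈ Finset.Icc 1 K0, ∑ l ∈ Finset.Icc 1 K0, conj (S k) * S l *
          ∑ z ∈ A, u z ^ ((k : ℤ) - (l : ℤ)) * ((nu z : ℝ) : ℂ)‖
        ≤ ∑ k ∈ Finset.Icc 1 K0, ∑ l ∈ Finset.Icc 1 K0,
            ((if k = l then ‖S k‖ ^ 2 * M0 else 0) + ‖S k‖ * ‖S l‖ * E) := by
          refine (norm_sum_le _ _).trans (Finset.sum_le_sum fun k hk => ?_)
          exact (norm_sum_le _ _).trans (Finset.sum_le_sum fun l hl => h3 k hk l hl)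
      _ = M0 * T + (∑ k ∈ Finset.Icc 1 K0, ‖S k‖) ^ 2 * E := by
          simp_rw [Finset.sum_add_distrib]
          congr 1
          · rw [hT, Finset.mul_sum]
            refine Finset.sum_congr rfl (fun k hk => ?_)
            rw [Finset.sum_ite_eq, if_pos hk]
            ring
          · rw [pow_two, Finset.sum_mul_sum, Finset.sum_mul]
            refine Finset.sum_congr rfl (fun k _ => ?_)
            rw [Finset.sum_mul]
      _ ≤ M0 * T + (K0 * T) * E := by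
          have h5 : (∑ k ∈ Finset.Icc 1 K0, ‖S k‖) ^ 2 ≤ K0 * T := by
            have h6 := sq_sum_le_card_mul_sum_sq (s := Finset.Icc 1 K0) (f := fun k => ‖S k‖)
            rw [Nat.card_Icc, add_tsub_cancel_right] at h6
            exact h6
          have := mul_le_mul_of_nonneg_right h5 hE
          linarith
      _ = (M0 + K0 * E) * T := by ring
  change T ≤ _
  rcases hT0.eq_or_lt with h | h
  · rw [← h]
    positivity
  · have h5 : T * T ≤ ((B.card : ℝ) * (M0 + K0 * E)) * T := by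
      calc T * T = T ^ 2 := by ring
        _ ≤ (B.card : ℝ) * ∑ z ∈ A, nu z * ‖F z‖ ^ 2 := e2
        _ ≤ (B.card : ℝ) * ((M0 + K0 * E) * T) :=
            mul_le_mul_of_nonneg_left e4 (Nat.cast_nonneg _)
        _ = _ := by ring
    exact le_of_mul_le_mul_right h5 h

private lemma sv_pow_sub_le {a b : ℂ} (ha : ‖a‖ = 1) (hb : ‖b‖ = 1) (k : ℕ) :
    ‖a ^ k - b ^ k‖ ≤ k * ‖a - b‖ := by
  induction k with
  | zero => simp
  | succ k ih =>
    have h1 : a ^ (k + 1) - b ^ (k + 1) = a * (a ^ k - b ^ k) + (a - b) * b ^ k := by ring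
    rw [h1]
    calc ‖a * (a ^ k - b ^ k) + (a - b) * b ^ k‖ ≤ ‖a * (a ^ k - b ^ k)‖ + ‖(a - b) * b ^ k‖ :=
          norm_add_le _ _
      _ = ‖a ^ k - b ^ k‖ + ‖a - b‖ := by
          rw [norm_mul, norm_mul, norm_pow, ha, hb, one_mul, one_pow, mul_one]
      _ ≤ k * ‖a - b‖ + ‖a - b‖ := by linarith
      _ = ((k + 1 : ℕ) : ℝ) * ‖a - b‖ := by push_cast; ring

open scoped ComplexConjugate in
private lemma sv_sum_sq (B : Finset GaussianInt) (v : GaussianInt → ℂ) (hv : ∀ z ∈ B, ‖v z‖ = 1) :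
    ∑ q ∈ B, ∑ r ∈ B, ‖v q - v r‖ ^ 2 = 2 * (B.card : ℝ) ^ 2 - 2 * ‖∑ q ∈ B, v q‖ ^ 2 := by
  have h1 : ∀ q ∈ B, ∀ r ∈ B, ‖v q - v r‖ ^ 2 = 2 - 2 * (v q * conj (v r)).re := by
    intro q hq r hr
    rw [← Complex.normSq_eq_norm_sq, Complex.normSq_sub, Complex.normSq_eq_norm_sq,
      Complex.normSq_eq_norm_sq, hv q hq, hv r hr]
    ring
  have h2 : ∑ q ∈ B, ∑ r ∈ B, ‖v q - v r‖ ^ 2 =
      ∑ q ∈ B, ∑ r ∈ B, (2 - 2 * (v q * conj (v r)).re) :=
    Finset.sum_congr rfl fun q hq => Finset.sum_congr rfl fun r hr => h1 q hq r hr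
  rw [h2]
  have h3 : ‖∑ q ∈ B, v q‖ ^ 2 = ∑ q ∈ B, ∑ r ∈ B, (v q * conj (v r)).re := by
    rw [← Complex.normSq_eq_norm_sq]
    have h4 : ((Complex.normSq (∑ q ∈ B, v q) : ℝ) : ℂ) = ∑ q ∈ B, ∑ r ∈ B, v q * conj (v r) := by
      rw [← Complex.mul_conj, map_sum, Finset.sum_mul_sum]
    have h5 := congrArg Complex.re h4
    rw [Complex.ofReal_re] at h5
    rw [h5, Complex.re_sum]
    refine Finset.sum_congr rfl (fun q _ => ?_)
    rw [Complex.re_sum]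
  rw [h3]
  simp only [Finset.sum_sub_distrib, Finset.sum_const, nsmul_eq_mul, ← Finset.mul_sum]
  ring

/-- if `u` is almost constant on `B` then so are its powers -/
theorem powers (B : Finset GaussianInt) (u : GaussianInt → ℂ) (hu : ∀ z ∈ B, ‖u z‖ = 1) (k : ℕ)
    (c : ℝ) (hc : (1 - c) * (B.card : ℝ) ^ 2 ≤ ‖∑ q ∈ B, u q‖ ^ 2) :
    (1 - (k : ℝ) ^ 2 * c) * (B.card : ℝ) ^ 2 ≤ ‖∑ q ∈ B, u q ^ k‖ ^ 2 := by
  have h1 := sv_sum_sq B u hu
  have h2 : ∑ q ∈ B, ∑ r ∈ B, ‖u q ^ k - u r ^ k‖ ^ 2 =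
      2 * (B.card : ℝ) ^ 2 - 2 * ‖∑ q ∈ B, u q ^ k‖ ^ 2 :=
    sv_sum_sq B (fun z => u z ^ k) (fun z hz => by rw [norm_pow, hu z hz, one_pow])
  have h3 : ∑ q ∈ B, ∑ r ∈ B, ‖u q ^ k - u r ^ k‖ ^ 2 ≤
      (k : ℝ) ^ 2 * ∑ q ∈ B, ∑ r ∈ B, ‖u q - u r‖ ^ 2 := by
    rw [Finset.mul_sum]
    refine Finset.sum_le_sum fun q hq => ?_
    rw [Finset.mul_sum]
    refine Finset.sum_le_sum fun r hr => ?_
    rw [← mul_pow]
    exact pow_le_pow_left₀ (norm_nonneg _) (sv_pow_sub_le (hu q hq) (hu r hr) k) 2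
  rw [h1] at h3
  rw [h2] at h3
  have h4 : (k : ℝ) ^ 2 * (2 * (B.card : ℝ) ^ 2 - 2 * ‖∑ q ∈ B, u q‖ ^ 2) ≤
      (k : ℝ) ^ 2 * (2 * (c * (B.card : ℝ) ^ 2)) := by
    apply mul_le_mul_of_nonneg_left _ (by positivity)
    linarith
  linarith

theorem CLAIM (hW : W1Stmt) (c1 : ℝ) (hc1 : 0 < c1) : ∃ c2 : ℝ, 0 < c2 ∧ c2 < 1 ∧ ∃ x0 : ℝ,
    ∀ (x : ℝ) (v : ℕ) (d : ℤ), x0 ≤ x → x ^ (12 / 25 : ℝ) ≤ exp ((v : ℝ) / 4) →
      exp ((v : ℝ) / 4) ≤ x → c1 * exp ((v : ℝ) / 4) / log x ≤ ((blk 4 v).card : ℝ) →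
      d ≠ 0 → |(d : ℝ)| ≤ 2 * x →
      ‖∑ q ∈ blk 4 v, xi q ^ d‖ ^ 2 ≤ (1 - c2) * ((blk 4 v).card : ℝ) ^ 2 := by
  classical
  obtain ⟨θ, hθ0, hθ1, C, hC, b0, hb0, hmaj⟩ := MAJ hW
  -- the number of powers
  obtain ⟨K0, hK0⟩ := exists_nat_gt (20 * C / c1)
  have hK0r : (0 : ℝ) < K0 := lt_of_le_of_lt (by positivity) hK0
  have hK1 : (1 : ℝ) ≤ K0 := by
    have : 0 < K0 := by exact_mod_cast hK0r
    exact_mod_cast this
  -- large `b`
  have hev : ∀ᶠ b : ℝ in Filter.atTop, (K0 : ℝ) * log b ≤ C * b ^ θ ∧ b0 ≤ b := by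
    have h1 := (isLittleO_log_rpow_atTop hθ0).def (c := C / K0) (by positivity)
    filter_upwards [h1, Filter.eventually_ge_atTop b0, Filter.eventually_ge_atTop 1]
      with b h2 h3 h4
    refine ⟨?_, h3⟩
    rw [Real.norm_of_nonneg (Real.log_nonneg h4), Real.norm_of_nonneg (by positivity)] at h2
    calc (K0 : ℝ) * log b ≤ K0 * (C / K0 * b ^ θ) := mul_le_mul_of_nonneg_left h2 hK0r.le
      _ = C * b ^ θ := by field_simp
  obtain ⟨b1, hb1⟩ := Filter.eventually_atTop.1 hev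
  have hev2 : ∀ᶠ x : ℝ in Filter.atTop, b1 ≤ x ^ (12 / 25 : ℝ) ∧
      2 * (K0 : ℝ) ≤ x ^ (13 / 125 : ℝ) ∧ 3 ≤ x := by
    filter_upwards [(tendsto_rpow_atTop (y := (12 / 25 : ℝ)) (by norm_num)).eventually_ge_atTop b1,
      (tendsto_rpow_atTop (y := (13 / 125 : ℝ)) (by norm_num)).eventually_ge_atTop
        (2 * (K0 : ℝ)), Filter.eventually_ge_atTop 3] with x h1 h2 h3
    exact ⟨h1, h2, h3⟩
  obtain ⟨x0, hx0⟩ := Filter.eventually_atTop.1 hev2
  refine ⟨1 / (4 * (K0 : ℝ) ^ 2), by positivity, ?_, x0, ?_⟩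
  · rw [div_lt_one (by positivity)]
    nlinarith
  intro x v d hx hv1 hv2 hcard hd hdx
  obtain ⟨g1, g2, g3⟩ := hx0 x hx
  have hxpos : (0 : ℝ) < x := by linarith
  have hlogx : 1 ≤ log x := by
    rw [Real.le_log_iff_exp_le hxpos]
    linarith [Real.exp_one_lt_three]
  obtain ⟨V, hV⟩ : ∃ V : ℝ, V = exp ((v : ℝ) / 4) := ⟨_, rfl⟩
  obtain ⟨b, hb⟩ : ∃ b : ℝ, b = exp (((v : ℝ) + 1) / 4) := ⟨_, rfl⟩
  have hVpos : 0 < V := by rw [hV]; exact Real.exp_pos _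
  have hbV : b = exp (1 / 4) * V := by
    rw [hb, hV, ← Real.exp_add]
    congr 1
    ring
  have hVb : V ≤ b := by
    rw [hb, hV]
    exact Real.exp_le_exp.2 (by linarith)
  have hb2V : b ≤ 2 * V := by
    rw [hbV]
    apply mul_le_mul_of_nonneg_right _ hVpos.le
    have h1 : exp (1 / 4) ≤ 1 + 1 / 4 + (1 / 4) ^ 2 := by
      have := Real.exp_bound' (x := 1 / 4) (by norm_num) (by norm_num) (n := 2) (by norm_num)
      norm_num [Finset.sum_range_succ, Nat.factorial] at this ⊢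
      linarith
    linarith
  rw [← hV] at hv1 hv2 hcard
  have hbx : x ^ (12 / 25 : ℝ) ≤ b := hv1.trans hVb
  have hbb1 : b1 ≤ b := g1.trans hbx
  obtain ⟨q1, q2⟩ := hb1 b hbb1
  have hb2 : 2 ≤ b := hb0.trans q2
  have hlogb : 12 / 25 * log x ≤ log b := by
    rw [← Real.log_rpow hxpos]
    exact Real.log_le_log (by positivity) hbx
  have hlogb0 : 0 < log b := by linarith
  obtain ⟨m1, m2⟩ := hmaj b q2
  -- the block
  have hblkpos : (0 : ℝ) < ((blk 4 v).card : ℝ) := lt_of_lt_of_le (by positivity) hcard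
  have hBA : blk 4 v ⊆ ann 0 b := by
    intro z hz
    rw [mem_blk] at hz
    rw [mem_ann (by linarith)]
    obtain ⟨h1, h2, h3⟩ := hz
    refine ⟨by exact_mod_cast nN_pos h1.ne_zero, ?_⟩
    rw [hb]
    exact_mod_cast h3.le
  have hv0 : 1 ≤ v := by
    by_contra hcon
    have hv00 : v = 0 := by omega
    rw [hv00] at hV
    simp only [Nat.cast_zero, zero_div, Real.exp_zero] at hV
    have h1 : (1 : ℝ) < x ^ (12 / 25 : ℝ) := Real.one_lt_rpow (by linarith) (by norm_num)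
    linarith
  have hbθ : b ^ θ < V := by
    rw [hb, hV, ← Real.exp_mul]
    apply Real.exp_lt_exp.2
    have hv1' : (1 : ℝ) ≤ v := by exact_mod_cast hv0
    nlinarith
  have hbθ1 : 1 ≤ b ^ θ := Real.one_le_rpow (by linarith) hθ0.le
  have hone : ∀ z ∈ blk 4 v, LamR (b ^ θ) z ^ 2 = 1 := by
    intro z hz
    rw [mem_blk] at hz
    obtain ⟨h1, h2, h3⟩ := hz
    rw [LamR_eq_one hbθ1, one_pow]
    intro q hq hqz
    obtain ⟨h4, h5⟩ := (mem_PS (by linarith)).1 hq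
    have h6 : q = z := by
      by_contra hne
      have h7 := h4.coprime h1 hne
      have h8 : IsUnit q := h7.isUnit_of_dvd' dvd_rfl hqz
      exact h4.prime.not_isUnit h8
    rw [h6] at h5
    have h7 : V ≤ (nN z : ℝ) := by
      rw [hV]
      exact_mod_cast h2
    linarith
  have hu : ∀ z ∈ ann 0 b, ‖xi z ^ d‖ = 1 := fun z hz =>
    norm_xi_zpow (ne_zero_of_mem_ann le_rfl hz) d
  have hb23 : 2 * (K0 : ℝ) * x ≤ b ^ (23 / 10 : ℝ) := by
    calc 2 * (K0 : ℝ) * x ≤ x ^ (13 / 125 : ℝ) * x :=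
          mul_le_mul_of_nonneg_right g2 hxpos.le
      _ = x ^ (138 / 125 : ℝ) := by
          rw [← Real.rpow_add_one hxpos.ne']
          norm_num
      _ = (x ^ (12 / 25 : ℝ)) ^ (23 / 10 : ℝ) := by
          rw [← Real.rpow_mul hxpos.le]
          norm_num
      _ ≤ b ^ (23 / 10 : ℝ) := Real.rpow_le_rpow (by positivity) hbx (by norm_num)
  have hdual := dual (ann 0 b) (blk 4 v) hBA (fun z => LamR (b ^ θ) z ^ 2) (fun z => xi z ^ d)
    hu (fun z _ => by positivity) hone K0 (C * b / log b) (b ^ (1 - θ)) m1 (by positivity) (by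
      intro j hj hjK
      have h1 : ∀ z ∈ ann 0 b, (xi z ^ d) ^ j * ((LamR (b ^ θ) z ^ 2 : ℝ) : ℂ) =
          xi z ^ (d * j) * ((LamR (b ^ θ) z ^ 2 : ℝ) : ℂ) := by
        intro z _
        rw [← zpow_mul]
      rw [Finset.sum_congr rfl h1]
      apply m2 _ (mul_ne_zero hd hj)
      push_cast
      rw [abs_mul]
      have h2 : |(j : ℝ)| ≤ K0 := by
        have h3 : |j| ≤ (K0 : ℤ) := hjK.le
        have h4 : ((|j| : ℤ) : ℝ) ≤ ((K0 : ℤ) : ℝ) := by exact_mod_cast h3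
        rw [Int.cast_abs] at h4
        exact_mod_cast h4
      calc |(d : ℝ)| * |(j : ℝ)| ≤ (2 * x) * K0 :=
            mul_le_mul hdx h2 (abs_nonneg _) (by positivity)
        _ = 2 * (K0 : ℝ) * x := by ring
        _ ≤ _ := hb23)
  -- the error is dominated by the mass
  have hKE : (K0 : ℝ) * b ^ (1 - θ) ≤ C * b / log b := by
    rw [le_div_iff₀ hlogb0]
    have h1 : b ^ (1 - θ) * b ^ θ = b := by
      rw [← Real.rpow_add (by linarith)]
      norm_num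
    calc (K0 : ℝ) * b ^ (1 - θ) * log b = b ^ (1 - θ) * (K0 * log b) := by ring
      _ ≤ b ^ (1 - θ) * (C * b ^ θ) := mul_le_mul_of_nonneg_left q1 (by positivity)
      _ = C * (b ^ (1 - θ) * b ^ θ) := by ring
      _ = C * b := by rw [h1]
  have hM0 : C * b / log b ≤ 5 * C * V / log x := by
    rw [div_le_div_iff₀ hlogb0 (by linarith)]
    calc C * b * log x ≤ C * (2 * V) * log x := by
          apply mul_le_mul_of_nonneg_right _ (by linarith)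
          exact mul_le_mul_of_nonneg_left hb2V hC.le
      _ ≤ C * (2 * V) * (25 / 12 * log b) := by
          apply mul_le_mul_of_nonneg_left _ (by positivity)
          linarith
      _ ≤ 5 * C * V * log b := by
          have : 0 < C * V * log b := by positivity
          linarith
  have hVc : V / log x ≤ ((blk 4 v).card : ℝ) / c1 := by
    rw [le_div_iff₀ hc1]
    calc V / log x * c1 = c1 * V / log x := by ring
      _ ≤ _ := hcard
  have hT : ∑ k ∈ Finset.Icc 1 K0, ‖∑ q ∈ blk 4 v, (xi q ^ d) ^ k‖ ^ 2 ≤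
      (10 * C / c1) * ((blk 4 v).card : ℝ) ^ 2 := by
    refine hdual.trans ?_
    calc ((blk 4 v).card : ℝ) * (C * b / log b + K0 * b ^ (1 - θ))
        ≤ ((blk 4 v).card : ℝ) * (2 * (5 * C * V / log x)) := by
          apply mul_le_mul_of_nonneg_left _ hblkpos.le
          linarith
      _ = ((blk 4 v).card : ℝ) * (10 * C * (V / log x)) := by ring
      _ ≤ ((blk 4 v).card : ℝ) * (10 * C * (((blk 4 v).card : ℝ) / c1)) := by
          apply mul_le_mul_of_nonneg_left _ hblkpos.le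
          exact mul_le_mul_of_nonneg_left hVc (by positivity)
      _ = _ := by ring
  by_contra hcon
  push Not at hcon
  have hpow : ∀ k ∈ Finset.Icc 1 K0, 3 / 4 * ((blk 4 v).card : ℝ) ^ 2 ≤
      ‖∑ q ∈ blk 4 v, (xi q ^ d) ^ k‖ ^ 2 := by
    intro k hk
    rw [Finset.mem_Icc] at hk
    have h1 := powers (blk 4 v) (fun z => xi z ^ d) (fun z hz => hu z (hBA hz)) k
      (1 / (4 * (K0 : ℝ) ^ 2)) hcon.le
    refine le_trans ?_ h1
    apply mul_le_mul_of_nonneg_right _ (by positivity)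
    have h2 : (k : ℝ) ^ 2 * (1 / (4 * (K0 : ℝ) ^ 2)) ≤ 1 / 4 := by
      have h3 : (k : ℝ) ≤ K0 := by exact_mod_cast hk.2
      have h4 : (k : ℝ) ^ 2 ≤ (K0 : ℝ) ^ 2 := pow_le_pow_left₀ (Nat.cast_nonneg _) h3 2
      rw [mul_one_div, div_le_iff₀ (by positivity)]
      linarith
    linarith
  have hlow := Finset.sum_le_sum hpow
  rw [Finset.sum_const, Nat.card_Icc, add_tsub_cancel_right, nsmul_eq_mul] at hlow
  have hfin := hlow.trans hT
  have hB2 : (0 : ℝ) < ((blk 4 v).card : ℝ) ^ 2 := by positivity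
  have h5 : (K0 : ℝ) * (3 / 4) ≤ 10 * C / c1 := by
    apply le_of_mul_le_mul_right _ hB2
    calc (K0 : ℝ) * (3 / 4) * ((blk 4 v).card : ℝ) ^ 2 = K0 * (3 / 4 * ((blk 4 v).card : ℝ) ^ 2) := by
          ring
      _ ≤ _ := hfin
  have h6 : 20 * C / c1 = 2 * (10 * C / c1) := by ring
  have h7 : 0 < 10 * C / c1 := by positivity
  rw [h6] at hK0
  linarith

end Pool.Agent.NSqP
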