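import Pool.Agent.Lib.NSqP.SDefs

/-!
# SVLOC: sums of local products
Expand `∏_{q ∈ P} (b q + (a q - b q) [q ∣ z]) = ∑_{E ⊆ P} ∏_{q ∈ E} (a q - b q) ∏_{q ∈ P \ E} b q
* [∀ q ∈ E, q ∣ z]` (`Finset.prod_add` after `if c then a else b = b + (if c then a - b else 0)`),
sum over `z`, compare with the hypothesis for every `E`, and add up again:
`∑_E ∏_E (a-b) ∏_{P\E} b / nE E = ∏ (b + (a-b)/nN)`, `∑_E ∏_E |a-b| ∏_{P\E} |b| = ∏ (|b|+|a-b|)`.
-/

set_option autoImplicit false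

namespace Pool.Agent.NSqP

open Real

open Classical in
private lemma svloc_expand (P : Finset GaussianInt) (a b : GaussianInt → ℝ) (z : GaussianInt) :
    (∏ q ∈ P, (if q ∣ z then a q else b q)) = ∑ E ∈ P.powerset,
      (if (∀ q ∈ E, q ∣ z) then (∏ q ∈ E, (a q - b q)) * ∏ q ∈ P \ E, b q else 0) := by
  have h1 : (∏ q ∈ P, (if q ∣ z then a q else b q)) =
      ∏ q ∈ P, ((if q ∣ z then a q - b q else 0) + b q) := by
    apply Finset.prod_congr rfl
    intro q _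
    split_ifs <;> ring
  rw [h1, Finset.prod_add]
  apply Finset.sum_congr rfl
  intro E _
  rw [Finset.prod_ite_zero]
  split_ifs <;> simp

open Classical in
theorem loc_sum (P A : Finset GaussianInt) (c : GaussianInt → ℂ) (a b : GaussianInt → ℝ)
    (X Err : ℝ)
    (h : ∀ E ⊆ P, ‖(∑ z ∈ A, if (∀ q ∈ E, q ∣ z) then c z else 0) - ((X / nE E : ℝ) : ℂ)‖ ≤ Err) :
    ‖(∑ z ∈ A, c z * ((∏ q ∈ P, (if q ∣ z then a q else b q) : ℝ) : ℂ)) -
        ((X * ∏ q ∈ P, (b q + (a q - b q) / nN q) : ℝ) : ℂ)‖ ≤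
      Err * ∏ q ∈ P, (|b q| + |a q - b q|) := by
  set W : Finset GaussianInt → ℝ := fun E => (∏ q ∈ E, (a q - b q)) * ∏ q ∈ P \ E, b q with hW
  have h1 : (∑ z ∈ A, c z * ((∏ q ∈ P, (if q ∣ z then a q else b q) : ℝ) : ℂ)) =
      ∑ E ∈ P.powerset, ((W E : ℝ) : ℂ) * ∑ z ∈ A, (if (∀ q ∈ E, q ∣ z) then c z else 0) := by
    have h2 : ∀ z ∈ A, c z * ((∏ q ∈ P, (if q ∣ z then a q else b q) : ℝ) : ℂ) =
        ∑ E ∈ P.powerset, ((W E : ℝ) : ℂ) * (if (∀ q ∈ E, q ∣ z) then c z else 0) := by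
      intro z _
      rw [svloc_expand, Complex.ofReal_sum, Finset.mul_sum]
      apply Finset.sum_congr rfl
      intro E _
      by_cases hE : ∀ q ∈ E, q ∣ z
      · rw [if_pos hE, if_pos hE, mul_comm]
      · rw [if_neg hE, if_neg hE]; simp
    rw [Finset.sum_congr rfl h2, Finset.sum_comm]
    apply Finset.sum_congr rfl
    intro E _
    rw [Finset.mul_sum]
  have h3 : X * ∏ q ∈ P, (b q + (a q - b q) / nN q) =
      ∑ E ∈ P.powerset, W E * (X / nE E) := by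
    have h4 : (∏ q ∈ P, (b q + (a q - b q) / nN q)) =
        ∏ q ∈ P, ((a q - b q) / nN q + b q) := by
      apply Finset.prod_congr rfl
      intro q _
      ring
    rw [h4, Finset.prod_add, Finset.mul_sum]
    apply Finset.sum_congr rfl
    intro E _
    rw [Finset.prod_div_distrib]
    simp only [hW, nE]
    ring
  rw [h1, h3, Complex.ofReal_sum, ← Finset.sum_sub_distrib]
  have h5 : ∀ E ∈ P.powerset, ‖((W E : ℝ) : ℂ) * (∑ z ∈ A, (if (∀ q ∈ E, q ∣ z) then c z else 0)) -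
      ((W E * (X / nE E) : ℝ) : ℂ)‖ ≤ |W E| * Err := by
    intro E hE
    rw [Finset.mem_powerset] at hE
    have h6 : ((W E : ℝ) : ℂ) * (∑ z ∈ A, (if (∀ q ∈ E, q ∣ z) then c z else 0)) -
      ((W E * (X / nE E) : ℝ) : ℂ) = ((W E : ℝ) : ℂ) *
        ((∑ z ∈ A, (if (∀ q ∈ E, q ∣ z) then c z else 0)) - ((X / nE E : ℝ) : ℂ)) := by
      rw [Complex.ofReal_mul (W E) (X / nE E), mul_sub]
    rw [h6, norm_mul, Complex.norm_real, Real.norm_eq_abs]
    exact mul_le_mul_of_nonneg_left (h E hE) (abs_nonneg _)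
  refine (norm_sum_le_of_le _ h5).trans (le_of_eq ?_)
  rw [← Finset.sum_mul, mul_comm]
  congr 1
  have h7 : (∏ q ∈ P, (|b q| + |a q - b q|)) = ∏ q ∈ P, (|a q - b q| + |b q|) := by
    apply Finset.prod_congr rfl
    intro q _
    ring
  rw [h7, Finset.prod_add]
  apply Finset.sum_congr rfl
  intro E _
  simp only [hW]
  rw [abs_mul, Finset.abs_prod, Finset.abs_prod]

end Pool.Agent.NSqP
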