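import Pool.Agent.Lib.NSqP.SvLoc
import Pool.Agent.Lib.NSqP.PiA

/-!
# SVSEL: the Selberg sieve in orthogonal form
`one_on`: every factor of `hE E z` is `1/(N q - 1)`, so `∑ hE = JR`.
`card_EE`: `E ↦ ∏ q ∈ E, q` is injective on sets of elements of `IsPi` (an element of `IsPi`
divides the product iff it belongs to the set; two elements of `IsPi` dividing each other are
equal: `IsPi.coprime`), with values in `ballG ⌊R⌋₊` (norm `= nE E ≤ R`), which has at most
`(2√R+1)^2 ≤ 9R` elements.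
`SEL`: `JR^2 ∑ LamR^2 c = ∑_{E, E'} ∑_z c hE_E hE_{E'}`.  For a pair `(E, E')` use `loc_sum` with
`P = E ∪ E'` and the local values `(a, b) = (1, 1/(N-1)^2)` for `q ∈ E ∩ E'` and `(-1, 1/(N-1))`
for `q` in exactly one of them.  `b + (a-b)/N` is `1/(N-1)`, respectively `0`; so the main term is
`X / phE E` if `E = E'` and `0` otherwise: total `X * JR`.  `|b|+|a-b|` is `1`, respectively
`1 + 2/(N-1) ≤ N` (`N ≥ 3`), so the product is `≤ nE E * nE E' ≤ R^2`.
Total error `≤ (9R)^2 R^2 Err`; divide by `JR^2 ≥ 1` (`one_le_JR`).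
-/

set_option autoImplicit false

namespace Pool.Agent.NSqP

open Real
open Pool.Agent.MP484c84Par (ballG mem_ballG)

theorem LamR_eq_one {R : ℝ} (hR : 1 ≤ R) {z : GaussianInt} (hz : ∀ q ∈ PS R, ¬ q ∣ z) :
    LamR R z = 1 := by
  have hJ : 1 ≤ JR R := one_le_JR hR
  have h1 : (∑ E ∈ EE R, hE E z) = JR R := by
    unfold JR
    apply Finset.sum_congr rfl
    intro E hEm
    have hsub := (mem_EE.1 hEm).1
    unfold hE phE
    rw [one_div, ← Finset.prod_inv_distrib]
    apply Finset.prod_congr rfl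
    intro q hq
    rw [if_neg (hz q (hsub hq)), one_div]
  unfold LamR
  rw [h1, div_self (by linarith)]

private lemma svsel_nN_prod (E : Finset GaussianInt) : (nN (∏ q ∈ E, q) : ℝ) = nE E := by
  classical
  unfold nE
  induction E using Finset.induction_on with
  | empty => simp [nN_one]
  | insert q E hq ih =>
    rw [Finset.prod_insert hq, Finset.prod_insert hq, nN_mul, Nat.cast_mul, ih]

private lemma svsel_dvd_prod {E : Finset GaussianInt} (hE : ∀ q ∈ E, IsPi q) {p : GaussianInt}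
    (hp : IsPi p) (h : p ∣ ∏ q ∈ E, q) : p ∈ E := by
  obtain ⟨q, hq, hd⟩ := (hp.prime.dvd_finsetProd_iff _).1 h
  by_contra hne
  have hne' : p ≠ q := fun h => hne (h ▸ hq)
  have h1 := hp.coprime (hE q hq) hne'
  have h2 : IsUnit p := h1.isUnit_of_dvd' (dvd_refl p) hd
  exact hp.prime.not_isUnit h2

private lemma svsel_card_ballG {n : ℕ} (hn : 1 ≤ n) : (ballG n).card ≤ 9 * n := by
  classical
  set s := Nat.sqrt n with hs
  have h1 : s * s ≤ n := Nat.sqrt_le n
  have h2 : n < (s + 1) * (s + 1) := Nat.lt_succ_sqrt n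
  have hs1 : 1 ≤ s := Nat.one_le_iff_ne_zero.2 (by
    rw [hs, Ne, Nat.sqrt_eq_zero]; omega)
  have h3 : (ballG n).card ≤
      (Finset.Icc (-(s : ℤ)) s ×ˢ Finset.Icc (-(s : ℤ)) s).card := by
    apply Finset.card_le_card_of_injOn (fun z : GaussianInt => (z.re, z.im))
    · intro z hz
      have hz' : z ∈ ballG n := hz
      rw [mem_ballG] at hz'
      rw [Zsqrtd.norm_def] at hz'
      have h4 : z.re * z.re + z.im * z.im ≤ n := by linarith
      have h5 : ((n : ℕ) : ℤ) < ((s : ℤ) + 1) * ((s : ℤ) + 1) := by exact_mod_cast h2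
      have h6 : z.re * z.re < ((s : ℤ) + 1) * ((s : ℤ) + 1) := by
        nlinarith [mul_self_nonneg z.im]
      have h7 : z.im * z.im < ((s : ℤ) + 1) * ((s : ℤ) + 1) := by
        nlinarith [mul_self_nonneg z.re]
      have h8 : |z.re| < (s : ℤ) + 1 := abs_lt_of_sq_lt_sq (by nlinarith) (by positivity)
      have h9 : |z.im| < (s : ℤ) + 1 := abs_lt_of_sq_lt_sq (by nlinarith) (by positivity)
      rw [abs_lt] at h8 h9
      simp only [Finset.coe_product, Finset.coe_Icc, Set.mem_prod, Set.mem_Icc]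
      refine ⟨⟨?_, ?_⟩, ?_, ?_⟩ <;> linarith [h8.1, h8.2, h9.1, h9.2]
    · intro z _ w _ h
      simp only [Prod.mk.injEq] at h
      exact Zsqrtd.ext h.1 h.2
  rw [Finset.card_product, Int.card_Icc] at h3
  have h10 : ((s : ℤ) + 1 - -(s : ℤ)).toNat = 2 * s + 1 := by omega
  rw [h10] at h3
  nlinarith

theorem card_EE {R : ℝ} (hR : 1 ≤ R) : ((EE R).card : ℝ) ≤ 9 * R := by
  classical
  have h0 : 1 ≤ ⌊R⌋₊ := (Nat.one_le_floor_iff R).2 hR
  have h1 : (EE R).card ≤ (ballG ⌊R⌋₊).card := by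
    apply Finset.card_le_card_of_injOn (fun E : Finset GaussianInt => ∏ q ∈ E, q)
    · intro E hEm
      have hEm' := mem_EE.1 (Finset.mem_coe.1 hEm)
      have h2 : (nN (∏ q ∈ E, q) : ℝ) ≤ R := by rw [svsel_nN_prod]; exact hEm'.2
      have h3 : nN (∏ q ∈ E, q) ≤ ⌊R⌋₊ := Nat.le_floor h2
      rw [Finset.mem_coe, mem_ballG, ← nN_cast_int]
      exact_mod_cast h3
    · intro E hEm E' hEm' h
      have h4 := (mem_EE.1 (Finset.mem_coe.1 hEm)).1
      have h5 := (mem_EE.1 (Finset.mem_coe.1 hEm')).1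
      simp only at h
      apply Finset.Subset.antisymm
      · intro p hp
        apply svsel_dvd_prod (fun q hq => isPi_of_mem_PS (h5 hq)) (isPi_of_mem_PS (h4 hp))
        rw [← h]
        exact Finset.dvd_prod_of_mem _ hp
      · intro p hp
        apply svsel_dvd_prod (fun q hq => isPi_of_mem_PS (h4 hq)) (isPi_of_mem_PS (h5 hp))
        rw [h]
        exact Finset.dvd_prod_of_mem _ hp
  have h6 := h1.trans (svsel_card_ballG h0)
  have h7 : ((EE R).card : ℝ) ≤ 9 * (⌊R⌋₊ : ℝ) := by exact_mod_cast h6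
  have h8 : (⌊R⌋₊ : ℝ) ≤ R := Nat.floor_le (by linarith)
  linarith

/-- local values -/
private noncomputable def svA (E E' : Finset GaussianInt) (q : GaussianInt) : ℝ :=
  open Classical in (if q ∈ E then (-1 : ℝ) else 1) * (if q ∈ E' then (-1 : ℝ) else 1)

private noncomputable def svB (E E' : Finset GaussianInt) (q : GaussianInt) : ℝ :=
  open Classical in (if q ∈ E then 1 / ((nN q : ℝ) - 1) else 1) *
    (if q ∈ E' then 1 / ((nN q : ℝ) - 1) else 1)

open Classical in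
private lemma svsel_ext {E P : Finset GaussianInt} (h : E ⊆ P) (f : GaussianInt → ℝ) :
    ∏ q ∈ E, f q = ∏ q ∈ P, (if q ∈ E then f q else 1) := by
  rw [← Finset.prod_subset h (fun q _ hq => if_neg hq)]
  exact Finset.prod_congr rfl (fun q hq => (if_pos hq).symm)

open Classical in
private lemma svsel_prod (E E' : Finset GaussianInt) (z : GaussianInt) :
    hE E z * hE E' z = ∏ q ∈ E ∪ E', (if q ∣ z then svA E E' q else svB E E' q) := by
  have h1 : hE E z = ∏ q ∈ E ∪ E',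
      (if q ∈ E then (if q ∣ z then (-1 : ℝ) else 1 / ((nN q : ℝ) - 1)) else 1) := by
    exact svsel_ext Finset.subset_union_left _
  have h2 : hE E' z = ∏ q ∈ E ∪ E',
      (if q ∈ E' then (if q ∣ z then (-1 : ℝ) else 1 / ((nN q : ℝ) - 1)) else 1) := by
    exact svsel_ext Finset.subset_union_right _
  rw [h1, h2, ← Finset.prod_mul_distrib]
  apply Finset.prod_congr rfl
  intro q _
  unfold svA svB
  by_cases h3 : q ∣ z <;> by_cases h4 : q ∈ E <;> by_cases h5 : q ∈ E' <;> simp [h3, h4, h5]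

private lemma svsel_both {E E' : Finset GaussianInt} {q : GaussianInt} (hq : IsPi q)
    (h : q ∈ E) (h' : q ∈ E') :
    svB E E' q + (svA E E' q - svB E E' q) / nN q = 1 / ((nN q : ℝ) - 1) ∧
    |svB E E' q| + |svA E E' q - svB E E' q| = 1 := by
  have h3 := hq.three_le
  have hA : svA E E' q = 1 := by simp [svA, h, h']
  have hB : svB E E' q = 1 / ((nN q : ℝ) - 1) * (1 / ((nN q : ℝ) - 1)) := by simp [svB, h, h']
  set N : ℝ := (nN q : ℝ) with hN
  have hN1 : N - 1 ≠ 0 := by linarith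
  have hN0 : N ≠ 0 := by linarith
  constructor
  · rw [hA, hB]
    field_simp
    ring
  · rw [hA, hB]
    have h4 : 0 ≤ 1 / (N - 1) * (1 / (N - 1)) := mul_self_nonneg _
    have h5 : 1 / (N - 1) ≤ 1 := by
      rw [div_le_one (by linarith)]; linarith
    have h6 : 0 ≤ 1 / (N - 1) := by
      apply div_nonneg <;> linarith
    have h7 : 1 / (N - 1) * (1 / (N - 1)) ≤ 1 := by nlinarith
    rw [abs_of_nonneg h4, abs_of_nonneg (by linarith)]
    ring

private lemma svsel_one {E E' : Finset GaussianInt} {q : GaussianInt} (hq : IsPi q)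
    (h : (q ∈ E ∧ q ∉ E') ∨ (q ∉ E ∧ q ∈ E')) :
    svB E E' q + (svA E E' q - svB E E' q) / nN q = 0 ∧
    |svB E E' q| + |svA E E' q - svB E E' q| ≤ nN q := by
  have h3 := hq.three_le
  have hA : svA E E' q = -1 := by
    rcases h with ⟨h, h'⟩ | ⟨h, h'⟩ <;> simp [svA, h, h']
  have hB : svB E E' q = 1 / ((nN q : ℝ) - 1) := by
    rcases h with ⟨h, h'⟩ | ⟨h, h'⟩ <;> simp [svB, h, h']
  set N : ℝ := (nN q : ℝ) with hN
  have hN1 : N - 1 ≠ 0 := by linarith
  have hN0 : N ≠ 0 := by linarith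
  have h6 : 0 ≤ 1 / (N - 1) := by
    apply div_nonneg <;> linarith
  have h5 : 1 / (N - 1) ≤ 1 / 2 := by
    apply one_div_le_one_div_of_le <;> linarith
  constructor
  · rw [hA, hB]
    field_simp
    ring
  · rw [hA, hB, abs_of_nonneg h6, abs_of_nonpos (by linarith)]
    linarith

private lemma svsel_pair_err {R : ℝ} (hR : 1 ≤ R) {E E' : Finset GaussianInt} (hE1 : E ∈ EE R)
    (hE2 : E' ∈ EE R) :
    ∏ q ∈ E ∪ E', (|svB E E' q| + |svA E E' q - svB E E' q|) ≤ R ^ 2 := by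
  classical
  have h1 := mem_EE.1 hE1
  have h2 := mem_EE.1 hE2
  have hpi : ∀ q ∈ E ∪ E', IsPi q := by
    intro q hq
    rcases Finset.mem_union.1 hq with h | h
    · exact isPi_of_mem_PS (h1.1 h)
    · exact isPi_of_mem_PS (h2.1 h)
  have h3 : ∏ q ∈ E ∪ E', (|svB E E' q| + |svA E E' q - svB E E' q|) ≤
      ∏ q ∈ E ∪ E', ((if q ∈ E then (nN q : ℝ) else 1) * (if q ∈ E' then (nN q : ℝ) else 1)) := by
    apply Finset.prod_le_prod
    · intro q _
      positivity
    · intro q hq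
      have h3 := (hpi q hq).three_le
      by_cases h4 : q ∈ E <;> by_cases h5 : q ∈ E'
      · rw [(svsel_both (hpi q hq) h4 h5).2, if_pos h4, if_pos h5]
        nlinarith
      · rw [if_pos h4, if_neg h5, mul_one]
        exact (svsel_one (hpi q hq) (Or.inl ⟨h4, h5⟩)).2
      · rw [if_neg h4, if_pos h5, one_mul]
        exact (svsel_one (hpi q hq) (Or.inr ⟨h4, h5⟩)).2
      · exfalso
        rcases Finset.mem_union.1 hq with h | h
        · exact h4 h
        · exact h5 h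
  refine h3.trans ?_
  rw [Finset.prod_mul_distrib]
  have h6 : (∏ q ∈ E ∪ E', (if q ∈ E then (nN q : ℝ) else 1)) = nE E := by
    exact (svsel_ext Finset.subset_union_left _).symm
  have h7 : (∏ q ∈ E ∪ E', (if q ∈ E' then (nN q : ℝ) else 1)) = nE E' := by
    exact (svsel_ext Finset.subset_union_right _).symm
  rw [h6, h7, sq]
  have h8 : 1 ≤ nE E' := one_le_nE (fun q hq => isPi_of_mem_PS (h2.1 hq))
  exact mul_le_mul h1.2 h2.2 (by linarith) (by linarith)

private lemma svsel_pair_main {R : ℝ} {E E' : Finset GaussianInt} (hE1 : E ∈ EE R)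
    (hE2 : E' ∈ EE R) :
    ∏ q ∈ E ∪ E', (svB E E' q + (svA E E' q - svB E E' q) / nN q) =
      if E = E' then 1 / phE E else 0 := by
  classical
  have h1 := mem_EE.1 hE1
  have h2 := mem_EE.1 hE2
  split_ifs with h
  · subst h
    unfold phE
    rw [one_div, ← Finset.prod_inv_distrib, Finset.union_self]
    apply Finset.prod_congr rfl
    intro q hq
    rw [(svsel_both (isPi_of_mem_PS (h1.1 hq)) hq hq).1, one_div]
  · have h3 : ∃ q, (q ∈ E ∧ q ∉ E') ∨ (q ∉ E ∧ q ∈ E') := by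
      by_contra hcon
      push Not at hcon
      apply h
      ext q
      have h4 := hcon q
      constructor
      · exact fun h5 => by_contra fun h6 => h4.1 h5 |> fun h7 => h6 h7
      · exact fun h5 => by_contra fun h6 => (h4.2 h6) h5
    obtain ⟨q, hq⟩ := h3
    have hpi : IsPi q := by
      rcases hq with hq | hq
      · exact isPi_of_mem_PS (h1.1 hq.1)
      · exact isPi_of_mem_PS (h2.1 hq.2)
    apply Finset.prod_eq_zero (i := q)
    · rcases hq with hq | hq
      · exact Finset.mem_union_left _ hq.1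
      · exact Finset.mem_union_right _ hq.2
    · exact (svsel_one hpi hq).1

open Classical in
theorem SEL (R : ℝ) (hR : 1 ≤ R) (A : Finset GaussianInt) (c : GaussianInt → ℂ) (X Err : ℝ)
    (h : ∀ E ⊆ PS R,
      ‖(∑ z ∈ A, if (∀ q ∈ E, q ∣ z) then c z else 0) - ((X / nE E : ℝ) : ℂ)‖ ≤ Err) :
    ‖(∑ z ∈ A, c z * ((LamR R z ^ 2 : ℝ) : ℂ)) - ((X / JR R : ℝ) : ℂ)‖ ≤ 81 * R ^ 4 * Err := by
  have hErr : 0 ≤ Err := (norm_nonneg _).trans (h ∅ (Finset.empty_subset _))
  have hJ : 1 ≤ JR R := one_le_JR hR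
  have hJ0 : JR R ≠ 0 := by linarith
  have hpair : ∀ E ∈ EE R, ∀ E' ∈ EE R,
      ‖(∑ z ∈ A, c z * ((hE E z * hE E' z : ℝ) : ℂ)) -
        ((X * (if E = E' then 1 / phE E else 0) : ℝ) : ℂ)‖ ≤ Err * R ^ 2 := by
    intro E hE1 E' hE2
    have h1 := mem_EE.1 hE1
    have h2 := mem_EE.1 hE2
    have h3 := loc_sum (E ∪ E') A c (svA E E') (svB E E') X Err
      (fun F hF => h F (hF.trans (Finset.union_subset h1.1 h2.1)))
    rw [svsel_pair_main hE1 hE2] at h3
    have h4 : (∑ z ∈ A, c z * ((hE E z * hE E' z : ℝ) : ℂ)) =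
        ∑ z ∈ A, c z * ((∏ q ∈ E ∪ E', (if q ∣ z then svA E E' q else svB E E' q) : ℝ) : ℂ) := by
      apply Finset.sum_congr rfl
      intro z _
      rw [svsel_prod]
    rw [h4]
    refine h3.trans ?_
    exact mul_le_mul_of_nonneg_left (svsel_pair_err hR hE1 hE2) hErr
  have hexp : ((JR R ^ 2 : ℝ) : ℂ) * ((∑ z ∈ A, c z * ((LamR R z ^ 2 : ℝ) : ℂ)) -
      ((X / JR R : ℝ) : ℂ)) = ∑ E ∈ EE R, ∑ E' ∈ EE R,
        ((∑ z ∈ A, c z * ((hE E z * hE E' z : ℝ) : ℂ)) -
        ((X * (if E = E' then 1 / phE E else 0) : ℝ) : ℂ)) := by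
    have h1 : (∑ E ∈ EE R, ∑ E' ∈ EE R, ((X * (if E = E' then 1 / phE E else 0) : ℝ) : ℂ)) =
        ((X * JR R : ℝ) : ℂ) := by
      have h2 : ∀ E ∈ EE R, (∑ E' ∈ EE R, ((X * (if E = E' then 1 / phE E else 0) : ℝ) : ℂ)) =
          ((X * (1 / phE E) : ℝ) : ℂ) := by
        intro E hEm
        rw [Finset.sum_eq_single E]
        · rw [if_pos rfl]
        · intro E' _ hne
          rw [if_neg (fun h => hne h.symm), mul_zero, Complex.ofReal_zero]
        · exact fun h => absurd hEm h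
      rw [Finset.sum_congr rfl h2, ← Complex.ofReal_sum, ← Finset.mul_sum]
      rfl
    have h3 : (∑ E ∈ EE R, ∑ E' ∈ EE R, ∑ z ∈ A, c z * ((hE E z * hE E' z : ℝ) : ℂ)) =
        ((JR R ^ 2 : ℝ) : ℂ) * ∑ z ∈ A, c z * ((LamR R z ^ 2 : ℝ) : ℂ) := by
      have h4 : ∀ E ∈ EE R, (∑ E' ∈ EE R, ∑ z ∈ A, c z * ((hE E z * hE E' z : ℝ) : ℂ)) =
          ∑ z ∈ A, ∑ E' ∈ EE R, c z * ((hE E z * hE E' z : ℝ) : ℂ) :=
        fun E _ => Finset.sum_comm
      rw [Finset.sum_congr rfl h4, Finset.sum_comm, Finset.mul_sum]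
      apply Finset.sum_congr rfl
      intro z _
      have h5 : ((JR R ^ 2 : ℝ) : ℂ) * (c z * ((LamR R z ^ 2 : ℝ) : ℂ)) =
          c z * (((∑ E ∈ EE R, hE E z) * (∑ E' ∈ EE R, hE E' z) : ℝ) : ℂ) := by
        have h6 : (∑ E ∈ EE R, hE E z) = JR R * LamR R z := by
          unfold LamR
          field_simp
        rw [h6]
        push_cast
        ring
      rw [h5, Finset.sum_mul_sum, Complex.ofReal_sum, Finset.mul_sum]
      apply Finset.sum_congr rfl
      intro E _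
      rw [Complex.ofReal_sum, Finset.mul_sum]
    rw [mul_sub, ← h3]
    have h7 : ((JR R ^ 2 : ℝ) : ℂ) * ((X / JR R : ℝ) : ℂ) = ((X * JR R : ℝ) : ℂ) := by
      rw [← Complex.ofReal_mul]
      congr 1
      field_simp
    rw [h7, ← h1, ← Finset.sum_sub_distrib]
    apply Finset.sum_congr rfl
    intro E _
    rw [← Finset.sum_sub_distrib]
  have hcard := card_EE hR
  have hnorm : ‖((JR R ^ 2 : ℝ) : ℂ) * ((∑ z ∈ A, c z * ((LamR R z ^ 2 : ℝ) : ℂ)) -
      ((X / JR R : ℝ) : ℂ))‖ ≤ 81 * R ^ 4 * Err := by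
    rw [hexp]
    have h8 : ∀ E ∈ EE R, ‖∑ E' ∈ EE R, ((∑ z ∈ A, c z * ((hE E z * hE E' z : ℝ) : ℂ)) -
        ((X * (if E = E' then 1 / phE E else 0) : ℝ) : ℂ))‖ ≤
          ((EE R).card : ℝ) * (Err * R ^ 2) := by
      intro E hE1
      have h9 := norm_sum_le_of_le (EE R) (fun E' hE2 => hpair E hE1 E' hE2)
      rwa [Finset.sum_const, nsmul_eq_mul] at h9
    have h10 := norm_sum_le_of_le (EE R) h8
    rw [Finset.sum_const, nsmul_eq_mul] at h10
    refine h10.trans ?_
    have h11 : 0 ≤ ((EE R).card : ℝ) := Nat.cast_nonneg _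
    have h12 : ((EE R).card : ℝ) * ((EE R).card : ℝ) ≤ (9 * R) * (9 * R) :=
      mul_le_mul hcard hcard h11 (by linarith)
    have h13 : 0 ≤ Err * R ^ 2 := by positivity
    calc ((EE R).card : ℝ) * (((EE R).card : ℝ) * (Err * R ^ 2))
        = (((EE R).card : ℝ) * ((EE R).card : ℝ)) * (Err * R ^ 2) := by ring
      _ ≤ ((9 * R) * (9 * R)) * (Err * R ^ 2) := mul_le_mul_of_nonneg_right h12 h13
      _ = 81 * R ^ 4 * Err := by ring
  rw [norm_mul, Complex.norm_real, Real.norm_eq_abs, abs_of_nonneg (by positivity)] at hnorm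
  have h14 : (1 : ℝ) ≤ JR R ^ 2 := one_le_pow₀ hJ
  refine le_trans ?_ hnorm
  exact le_mul_of_one_le_left (norm_nonneg _) h14

end Pool.Agent.NSqP
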