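import Pool.Agent.Lib.NSqP.WSeg
import Pool.Agent.Lib.NSqP.WXi
import Pool.Agent.Lib.NSqP.WAvg
import Pool.Agent.Lib.NSqP.WBad

/-!
# Group W: large frequencies
-/

set_option autoImplicit false

namespace Pool.Agent.NSqP

open Finset

private lemma coord_le {T b : ℝ} (hT : 0 ≤ T) (hb0 : 0 ≤ b) (hb : b ≤ T ^ 400) {z : GaussianInt}
    (hz : z ∈ ann 0 b) : |(z.im : ℝ)| ≤ T ^ 200 ∧ |(z.re : ℝ)| ≤ T ^ 200 := by
  have h1 := ((mem_ann hb0).1 hz).2
  rw [nN_real] at h1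
  have h2 : (T ^ 200) ^ 2 = T ^ 400 := by
    exact (pow_mul T 200 2).symm
  have h3 : 0 ≤ T ^ 200 := pow_nonneg hT 200
  constructor
  · apply abs_le_of_sq_le_sq _ h3
    rw [h2]; nlinarith [sq_nonneg (z.re : ℝ)]
  · apply abs_le_of_sq_le_sq _ h3
    rw [h2]; nlinarith [sq_nonneg (z.im : ℝ)]

/-- Large frequencies. `shift_avg` with `u z = ξ(z)^d` (modulus one for `z ≠ 0`, and `ξ 0 ^ d = 0` for
`d ≠ 0`), `H = ⌊T^180⌋₊`. For `z ∈ ann 0 b` which is not `WBadPt T z` the inner sum is at most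
`40 T^(180-1/8)` by `xi_seg` and `seg`; for the bad points it is at most `H`, and there are at most
`100 T^399` of them (`card_bad`). So `H * |S| ≤ 9 T^400 * 40 T^(180-1/8) + 100 T^399 H + 4 H^2 * 3 T^200`
and `H ≥ T^180 / 2`. -/
theorem W_large : ∃ T0 : ℝ, 1 ≤ T0 ∧ ∀ T : ℝ, T0 ≤ T → ∀ d : ℤ,
    T ^ 120 ≤ |(d : ℝ)| → |(d : ℝ)| ≤ T ^ 944 → ∀ b : ℝ, 0 ≤ b → b ≤ T ^ 400 →
      ‖∑ z ∈ ann 0 b, xi z ^ d‖ ≤ T ^ (400 - 1 / 16 : ℝ) := by
  classical
  obtain ⟨T1, hT1, hseg⟩ := seg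
  refine ⟨max T1 (1000 ^ 16), le_max_of_le_left hT1, ?_⟩
  intro T hT d hd1 hd2 b hb0 hb
  have hTT1 : T1 ≤ T := le_trans (le_max_left _ _) hT
  have hT1000 : (1000 : ℝ) ^ 16 ≤ T := le_trans (le_max_right _ _) hT
  have hT1' : (1 : ℝ) ≤ T := hT1.trans hTT1
  have hTpos : 0 < T := by linarith
  have hT2 : (2 : ℝ) ≤ T := by
    refine le_trans ?_ hT1000
    norm_num
  have hd0 : d ≠ 0 := by
    rintro rfl
    have : (1 : ℝ) ≤ T ^ 120 := one_le_pow₀ hT1'
    simp at hd1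
    linarith
  -- the modulus of the summands
  have hu : ∀ z : GaussianInt, ‖xi z ^ d‖ ≤ 1 := by
    intro z
    by_cases hz : z = 0
    · subst hz
      have : xi 0 = 0 := by simp [xi]
      rw [this, zero_zpow d hd0]
      simp
    · rw [norm_xi_zpow hz]
  -- the number of shifts
  set H : ℕ := ⌊T ^ 180⌋₊ with hHdef
  have hP1 : (1 : ℝ) ≤ T ^ 180 := one_le_pow₀ hT1'
  have hP2 : (2 : ℝ) ≤ T ^ 180 := hT2.trans (le_self_pow₀ hT1' (by norm_num))
  have hH1 : 1 ≤ H := Nat.le_floor (by exact_mod_cast hP1)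
  have hHle : (H : ℝ) ≤ T ^ 180 := Nat.floor_le (by positivity)
  have hHge : T ^ 180 / 2 ≤ (H : ℝ) := by
    have := Nat.lt_floor_add_one (T ^ 180)
    rw [← hHdef] at this
    linarith
  have hsq : Real.sqrt b ≤ T ^ 200 := by
    rw [Real.sqrt_le_iff]
    refine ⟨by positivity, ?_⟩
    rw [← pow_mul]; exact hb
  have hsq0 : 0 ≤ Real.sqrt b := Real.sqrt_nonneg b
  have h200 : (1 : ℝ) ≤ T ^ 200 := one_le_pow₀ hT1'
  -- averaging
  have havg := shift_avg (fun z => xi z ^ d) hu b hb0 H hH1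
  -- split
  set A : ℝ := T ^ (180 - 1 / 8 : ℝ) with hA
  have hA0 : 0 ≤ A := by rw [hA]; positivity
  have hinner : ∀ z : GaussianInt, ‖∑ n ∈ range H, xi (z + (n : GaussianInt)) ^ d‖ ≤ H := by
    intro z
    refine (norm_sum_le _ _).trans ?_
    calc ∑ n ∈ range H, ‖xi (z + (n : GaussianInt)) ^ d‖ ≤ ∑ n ∈ range H, (1 : ℝ) :=
          Finset.sum_le_sum fun n _ => hu _
      _ = H := by simp
  have hgood : ∀ z ∈ ann 0 b, ¬ WBadPt T z →
      ‖∑ n ∈ range H, xi (z + (n : GaussianInt)) ^ d‖ ≤ 40 * A := by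
    intro z hz hbad
    unfold WBadPt at hbad
    push Not at hbad
    obtain ⟨h1, h2, h3⟩ := hbad
    obtain ⟨hc1, hc2⟩ := coord_le hTpos.le hb0 hb hz
    have him : z.im ≠ 0 := by
      intro h0
      rw [h0] at h1
      simp only [Int.cast_zero, abs_zero] at h1
      have : 0 < T ^ 198 := by positivity
      linarith
    rw [xi_seg z him d H]
    exact hseg T hTT1 (d : ℝ) (z.re : ℝ) (z.im : ℝ) hd1 hd2 h1 hc1 (by linarith) h2 h3 H hHle
  have hsplit : ∑ z ∈ ann 0 b, ‖∑ n ∈ range H, xi (z + (n : GaussianInt)) ^ d‖ ≤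
      ((ann 0 b).card : ℝ) * (40 * A) + (((ann 0 b).filter (fun z => WBadPt T z)).card : ℝ) * H := by
    rw [← Finset.sum_filter_add_sum_filter_not (ann 0 b) (fun z => WBadPt T z), add_comm]
    apply add_le_add
    · calc ∑ z ∈ (ann 0 b).filter (fun z => ¬ WBadPt T z),
            ‖∑ n ∈ range H, xi (z + (n : GaussianInt)) ^ d‖
          ≤ ∑ z ∈ (ann 0 b).filter (fun z => ¬ WBadPt T z), (40 * A) := by
            apply Finset.sum_le_sum
            intro z hz
            rw [Finset.mem_filter] at hz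
            exact hgood z hz.1 hz.2
        _ = (((ann 0 b).filter (fun z => ¬ WBadPt T z)).card : ℝ) * (40 * A) := by
            rw [Finset.sum_const, nsmul_eq_mul]
        _ ≤ ((ann 0 b).card : ℝ) * (40 * A) := by
            apply mul_le_mul_of_nonneg_right _ (by positivity)
            exact_mod_cast Finset.card_filter_le _ _
    · calc ∑ z ∈ (ann 0 b).filter (fun z => WBadPt T z),
            ‖∑ n ∈ range H, xi (z + (n : GaussianInt)) ^ d‖
          ≤ ∑ z ∈ (ann 0 b).filter (fun z => WBadPt T z), (H : ℝ) :=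
            Finset.sum_le_sum fun z _ => hinner z
        _ = (((ann 0 b).filter (fun z => WBadPt T z)).card : ℝ) * H := by
            rw [Finset.sum_const, nsmul_eq_mul]
  have hcard : ((ann 0 b).card : ℝ) ≤ 9 * T ^ 400 := by
    refine (card_ann_crude b hb0).trans ?_
    have h1 : 2 * Real.sqrt b + 1 ≤ 3 * T ^ 200 := by linarith
    calc (2 * Real.sqrt b + 1) ^ 2 ≤ (3 * T ^ 200) ^ 2 := by
          apply pow_le_pow_left₀ (by positivity) h1
      _ = 9 * T ^ 400 := by rw [mul_pow, ← pow_mul]; norm_num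
  have hbadc : (((ann 0 b).filter (fun z => WBadPt T z)).card : ℝ) ≤ 100 * T ^ 399 :=
    card_bad T b hT1' hb0 hb _ (fun z hz => Finset.mem_filter.1 hz)
  -- the remainder of the averaging
  have hH0 : (0 : ℝ) ≤ H := Nat.cast_nonneg H
  have hH1r : (1 : ℝ) ≤ H := by exact_mod_cast hH1
  have hrem : (2 * (H : ℝ) + 2) * H * (2 * Real.sqrt b + 1) ≤ 12 * T ^ 380 * T ^ 180 := by
    have e1 : (2 * (H : ℝ) + 2) * H ≤ (4 * T ^ 180) * T ^ 180 :=
      mul_le_mul (by linarith) hHle hH0 (by positivity)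
    have e2 : 2 * Real.sqrt b + 1 ≤ 3 * T ^ 200 := by linarith
    calc (2 * (H : ℝ) + 2) * H * (2 * Real.sqrt b + 1) ≤ ((4 * T ^ 180) * T ^ 180) * (3 * T ^ 200) :=
          mul_le_mul e1 e2 (by positivity) (by positivity)
      _ = 12 * (T ^ 180 * T ^ 200) * T ^ 180 := by ring
      _ = 12 * T ^ 380 * T ^ 180 := by rw [← pow_add]
  set B : ℝ := T ^ (400 - 1 / 8 : ℝ) with hB
  have hB0 : 0 ≤ B := by rw [hB]; positivity
  have hAB : T ^ 400 * A = B * T ^ 180 := by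
    rw [hA, hB, ← Real.rpow_natCast T 400, ← Real.rpow_natCast T 180, ← Real.rpow_add hTpos,
      ← Real.rpow_add hTpos]
    norm_num
  have h399 : T ^ 399 ≤ B := by
    rw [hB, ← Real.rpow_natCast T 399]
    exact Real.rpow_le_rpow_of_exponent_le hT1' (by norm_num)
  have h380 : T ^ 380 ≤ B := by
    rw [hB, ← Real.rpow_natCast T 380]
    exact Real.rpow_le_rpow_of_exponent_le hT1' (by norm_num)
  set X : ℝ := ‖∑ z ∈ ann 0 b, xi z ^ d‖ with hX
  have hX0 : 0 ≤ X := norm_nonneg _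
  have hmain : (H : ℝ) * X ≤ 472 * B * T ^ 180 := by
    have hP0 : 0 ≤ T ^ 180 := by positivity
    have k1 : ((ann 0 b).card : ℝ) * (40 * A) ≤ 360 * B * T ^ 180 := by
      calc ((ann 0 b).card : ℝ) * (40 * A) ≤ (9 * T ^ 400) * (40 * A) :=
            mul_le_mul_of_nonneg_right hcard (by positivity)
        _ = 360 * (T ^ 400 * A) := by ring
        _ = 360 * B * T ^ 180 := by rw [hAB]; ring
    have k2 : (((ann 0 b).filter (fun z => WBadPt T z)).card : ℝ) * H ≤ 100 * B * T ^ 180 := by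
      refine mul_le_mul (hbadc.trans ?_) hHle hH0 (by positivity)
      linarith
    have k3 : 12 * T ^ 380 * T ^ 180 ≤ 12 * B * T ^ 180 := by
      apply mul_le_mul_of_nonneg_right _ hP0
      linarith
    linarith
  have hX944 : X ≤ 944 * B := by
    have hP0 : 0 < T ^ 180 := by positivity
    have k1 : T ^ 180 / 2 * X ≤ (H : ℝ) * X := mul_le_mul_of_nonneg_right hHge hX0
    have k2 : T ^ 180 * X ≤ T ^ 180 * (944 * B) := by linarith
    exact le_of_mul_le_mul_left k2 hP0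
  have hfin : 1000 * B ≤ T ^ (400 - 1 / 16 : ℝ) := by
    have k1 : (1000 : ℝ) ≤ T ^ (1 / 16 : ℝ) := by
      have : (1000 : ℝ) = ((1000 : ℝ) ^ 16) ^ (1 / 16 : ℝ) := by
        rw [← Real.rpow_natCast, ← Real.rpow_mul (by norm_num)]
        norm_num
      rw [this]
      exact Real.rpow_le_rpow (by positivity) hT1000 (by norm_num)
    have k2 : T ^ (400 - 1 / 16 : ℝ) = T ^ (1 / 16 : ℝ) * B := by
      rw [hB, ← Real.rpow_add hTpos]
      norm_num
    rw [k2]
    exact mul_le_mul_of_nonneg_right k1 hB0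
  linarith

end Pool.Agent.NSqP
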