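import Pool.Agent.Lib.NSqP.SDefs

/-!
# Group W (Weyl bound for the angular characters): definitions
-/

set_option autoImplicit false

namespace Pool.Agent.NSqP

open Finset

/-- exponential sum with a real phase (in radians) -/
noncomputable def ES (F : ℕ → ℝ) (L : ℕ) : ℝ := ‖∑ n ∈ range L, Complex.exp ((F n : ℂ) * Complex.I)‖

/-- difference operator -/
def dif (h : ℕ) (F : ℕ → ℝ) : ℕ → ℝ := fun n => F (n + h) - F n

/-- iterated difference operator -/
def difs : List ℕ → (ℕ → ℝ) → (ℕ → ℝ)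
  | [], F => F
  | h :: hs, F => difs hs (dif h F)

lemma ES_nonneg (F : ℕ → ℝ) (L : ℕ) : 0 ≤ ES F L := norm_nonneg _

lemma norm_eF (x : ℝ) : ‖Complex.exp ((x : ℂ) * Complex.I)‖ = 1 := Complex.norm_exp_ofReal_mul_I x

lemma ES_le (F : ℕ → ℝ) (L : ℕ) : ES F L ≤ L := by
  unfold ES
  refine (norm_sum_le _ _).trans ?_
  simp

lemma difs_append (hs ks : List ℕ) (F : ℕ → ℝ) : difs (hs ++ ks) F = difs ks (difs hs F) := by
  induction hs generalizing F with
  | nil => rfl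
  | cons h hs ih => simp only [List.cons_append, difs]; exact ih _

lemma difs_smul (D : ℝ) (hs : List ℕ) (F : ℕ → ℝ) :
    difs hs (fun n => D * F n) = fun n => D * difs hs F n := by
  induction hs generalizing F with
  | nil => rfl
  | cons h hs ih =>
    simp only [difs]
    have : dif h (fun n => D * F n) = fun n => D * dif h F n := by
      funext n; simp only [dif]; ring
    rw [this]
    exact ih _

/-- the phase: the argument of `x + i y` up to a constant, `x = x0 + t` -/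
noncomputable def phi (x0 y t : ℝ) : ℝ := -Real.arctan ((x0 + t) / y)

/-- the two ratios `x ^ 2 / y ^ 2` where `Im (x + i y) ^ 5` vanishes -/
noncomputable def t1 : ℝ := 1 + 2 / Real.sqrt 5

/-- the two ratios `x ^ 2 / y ^ 2` where `Im (x + i y) ^ 5` vanishes -/
noncomputable def t2 : ℝ := 1 - 2 / Real.sqrt 5

/-- points where the fifth derivative may be too small -/
def WBadPt (T : ℝ) (z : GaussianInt) : Prop :=
  |(z.im : ℝ)| < T ^ 198 ∨ |(z.re : ℝ) ^ 2 - t1 * (z.im : ℝ) ^ 2| < T ^ 398 ∨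
    |(z.re : ℝ) ^ 2 - t2 * (z.im : ℝ) ^ 2| < T ^ 398

/-- W1 with a slightly larger range -/
def W1Gen : Prop := ∃ κ : ℝ, 0 < κ ∧ ∃ Y0 : ℝ, ∀ Y : ℝ, Y0 ≤ Y → ∀ d : ℤ, d ≠ 0 →
  |(d : ℝ)| ≤ Y ^ (235 / 100 : ℝ) → ∀ a b : ℝ, 0 ≤ a → a ≤ b → b ≤ Y →
    ‖∑ z ∈ ann a b, xi z ^ d‖ ≤ Y ^ (1 - κ)

end Pool.Agent.NSqP
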