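import Pool.Agent.Lib.NSqP.WKus
import Pool.Agent.Lib.NSqP.WDlt

/-!
# Group W: the segment bound, first derivative test
-/

set_option autoImplicit false

namespace Pool.Agent.NSqP

open Finset

private lemma wsega_t_sum : t1 + t2 = 2 := by unfold t1 t2; ring

private lemma wsega_t_prod : t1 * t2 = 1 / 5 := by
  unfold t1 t2
  have h : Real.sqrt 5 ^ 2 = 5 := Real.sq_sqrt (by norm_num)
  have h0 : Real.sqrt 5 ≠ 0 := by positivity
  have e : (1 + 2 / Real.sqrt 5) * (1 - 2 / Real.sqrt 5) = 1 - 4 / Real.sqrt 5 ^ 2 := by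
    field_simp
    ring
  rw [e, h]
  norm_num

/-- `Im (x+iy)^5 = 5 y (x^2 - t1 y^2)(x^2 - t2 y^2)` and
`|Im (z^5)^(-1)| = |Im z^5| / |z|^10`. -/
theorem im_inv_pow_five (x y : ℝ) (h : x ^ 2 + y ^ 2 ≠ 0) :
    |((((x : ℂ) + (y : ℂ) * Complex.I) ^ 5)⁻¹).im| =
      5 * |y| * |x ^ 2 - t1 * y ^ 2| * |x ^ 2 - t2 * y ^ 2| / (x ^ 2 + y ^ 2) ^ 5 := by
  have h5 : (((x : ℂ) + (y : ℂ) * Complex.I) ^ 5).im =
      5 * y * (x ^ 2 - t1 * y ^ 2) * (x ^ 2 - t2 * y ^ 2) := by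
    have e : (x : ℂ) + (y : ℂ) * Complex.I = ⟨x, y⟩ := by
      apply Complex.ext <;> simp
    rw [e]
    simp only [pow_succ, pow_zero, one_mul, Complex.mul_im, Complex.mul_re]
    linear_combination 5 * x ^ 2 * y ^ 3 * wsega_t_sum - 5 * y ^ 5 * wsega_t_prod
  rw [Complex.inv_im, map_pow, Complex.normSq_add_mul_I, h5, neg_div, abs_neg, abs_div, abs_mul,
    abs_mul, abs_mul, abs_of_pos (show (0 : ℝ) < 5 by norm_num)]
  congr 1
  rw [abs_pow, abs_of_nonneg (by positivity)]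

private lemma wsega_im_le (x y : ℝ) (k : ℕ) (hy : y ≠ 0) :
    |((((x : ℂ) + (y : ℂ) * Complex.I) ^ k)⁻¹).im| ≤ (|y| ^ k)⁻¹ := by
  refine (Complex.abs_im_le_norm _).trans ?_
  rw [norm_inv, norm_pow]
  have h1 : |y| ≤ ‖(x : ℂ) + (y : ℂ) * Complex.I‖ := by
    have := Complex.abs_im_le_norm ((x : ℂ) + (y : ℂ) * Complex.I)
    simpa using this
  have h0 : 0 < |y| := abs_pos.2 hy
  exact inv_anti₀ (by positivity) (pow_le_pow_left₀ h0.le h1 k)

private lemma wsega_sum_le (hs : List ℕ) (B : ℝ) (h : ∀ a ∈ hs, (a : ℝ) ≤ B) :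
    ((hs.sum : ℕ) : ℝ) ≤ hs.length * B := by
  induction hs with
  | nil => simp
  | cons a hs ih =>
    have h1 := h a (by simp)
    have h2 := ih (fun b hb => h b (by simp [hb]))
    rw [List.sum_cons, List.length_cons, Nat.cast_add, Nat.cast_add, Nat.cast_one, add_mul,
      one_mul]
    linarith

private lemma wsega_low (T x0 y t : ℝ) (hT : 120 ≤ T)
    (hy1 : T ^ 198 ≤ |y|) (hy2 : |y| ≤ T ^ 200) (hx0 : |x0| ≤ 2 * T ^ 200)
    (h1 : T ^ 398 ≤ |x0 ^ 2 - t1 * y ^ 2|) (h2 : T ^ 398 ≤ |x0 ^ 2 - t2 * y ^ 2|)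
    (ht0 : 0 ≤ t) (ht1 : t ≤ 6 * T ^ 180) :
    5 / (4 * 65 ^ 5) / T ^ 1006 ≤
      |((((((x0 + t : ℝ)) : ℂ) + (y : ℂ) * Complex.I) ^ 5)⁻¹).im| := by
  have hT1 : (1 : ℝ) ≤ T := by linarith
  have hTp : 0 < T := by linarith
  have hypos : 0 < |y| := lt_of_lt_of_le (by positivity) hy1
  have hy0 : y ≠ 0 := abs_pos.1 hypos
  have hysq : 0 < y ^ 2 := by positivity
  have hne : (x0 + t) ^ 2 + y ^ 2 ≠ 0 := by positivity
  rw [im_inv_pow_five _ _ hne]
  have h180 : T ^ 180 ≤ T ^ 200 := pow_le_pow_right₀ hT1 (by norm_num)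
  have hdiff : |(x0 + t) ^ 2 - x0 ^ 2| ≤ T ^ 398 / 2 := by
    have e : (x0 + t) ^ 2 - x0 ^ 2 = t * (2 * x0 + t) := by ring
    rw [e, abs_mul, abs_of_nonneg ht0]
    have h3 : |2 * x0 + t| ≤ 10 * T ^ 200 := by
      refine (abs_add_le _ _).trans ?_
      rw [abs_mul, abs_of_pos (show (0 : ℝ) < 2 by norm_num), abs_of_nonneg ht0]
      linarith
    calc t * |2 * x0 + t| ≤ (6 * T ^ 180) * (10 * T ^ 200) :=
          mul_le_mul ht1 h3 (abs_nonneg _) (by positivity)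
      _ = 60 * T ^ 380 := by ring
      _ ≤ T ^ 398 / 2 := by
          have h18 : (120 : ℝ) ≤ T ^ 18 := hT.trans (le_self_pow₀ hT1 (by norm_num))
          have e2 : T ^ 398 = T ^ 18 * T ^ 380 := by rw [← pow_add]
          rw [e2]
          have : 0 < T ^ 380 := by positivity
          nlinarith
  have hl : ∀ s : ℝ, T ^ 398 ≤ |x0 ^ 2 - s * y ^ 2| →
      T ^ 398 / 2 ≤ |(x0 + t) ^ 2 - s * y ^ 2| := by
    intro s hs
    have h3 : |x0 ^ 2 - s * y ^ 2| ≤ |(x0 + t) ^ 2 - s * y ^ 2| + |(x0 + t) ^ 2 - x0 ^ 2| := by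
      have e : x0 ^ 2 - s * y ^ 2 = ((x0 + t) ^ 2 - s * y ^ 2) - ((x0 + t) ^ 2 - x0 ^ 2) := by ring
      rw [e]
      exact abs_sub _ _
    linarith
  have hb1 := hl t1 h1
  have hb2 := hl t2 h2
  have hden : (x0 + t) ^ 2 + y ^ 2 ≤ 65 * T ^ 400 := by
    have h3 : |x0 + t| ≤ 8 * T ^ 200 := by
      refine (abs_add_le _ _).trans ?_
      rw [abs_of_nonneg ht0]
      linarith
    have h4 : (x0 + t) ^ 2 ≤ (8 * T ^ 200) ^ 2 := sq_le_sq' (by linarith [(abs_le.1 h3).1])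
      (abs_le.1 h3).2
    have h5 : y ^ 2 ≤ (T ^ 200) ^ 2 := sq_le_sq' (by linarith [(abs_le.1 hy2).1])
      (abs_le.1 hy2).2
    have e1 : (8 * T ^ 200) ^ 2 = 64 * T ^ 400 := by ring
    have e2 : (T ^ 200) ^ 2 = T ^ 400 := by ring
    linarith
  have hden5 : ((x0 + t) ^ 2 + y ^ 2) ^ 5 ≤ 65 ^ 5 * T ^ 2000 := by
    calc ((x0 + t) ^ 2 + y ^ 2) ^ 5 ≤ (65 * T ^ 400) ^ 5 :=
          pow_le_pow_left₀ (by positivity) hden 5
      _ = 65 ^ 5 * T ^ 2000 := by ring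
  have hnum : 5 / 4 * T ^ 994 ≤
      5 * |y| * |(x0 + t) ^ 2 - t1 * y ^ 2| * |(x0 + t) ^ 2 - t2 * y ^ 2| := by
    calc 5 / 4 * T ^ 994 = 5 * T ^ 198 * (T ^ 398 / 2) * (T ^ 398 / 2) := by ring
      _ ≤ _ := by gcongr
  have hdpos : 0 < ((x0 + t) ^ 2 + y ^ 2) ^ 5 := by positivity
  rw [le_div_iff₀ hdpos]
  have e3 : T ^ 2000 = T ^ 1006 * T ^ 994 := by rw [← pow_add]
  calc 5 / (4 * 65 ^ 5) / T ^ 1006 * ((x0 + t) ^ 2 + y ^ 2) ^ 5
      ≤ 5 / (4 * 65 ^ 5) / T ^ 1006 * (65 ^ 5 * T ^ 2000) := by gcongr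
    _ = 5 / 4 * T ^ 994 := by
        rw [e3]
        have : T ^ 1006 ≠ 0 := by positivity
        field_simp
    _ ≤ _ := hnum

/-- First derivative test after four differencing steps. Write `Π = hs.prod`, `Φ = difs hs (D phi)`.
`|Φ (n+1) - Φ n| = |D| |difs (hs ++ [1]) phi n| = |D| Π 4! |Im z^(-5)|` (`difs_append`, `difs_smul`,
`difs_phi`), `z = x0 + t + i y` with `0 ≤ t ≤ L + 4 Q + 1 ≤ 6 T^180`. As `|x0| ≤ 2 T^200`,
`|(x0+t)^2 - tj y^2| ≥ T^398 - 5 T^200 * 6 T^180 ≥ T^398 / 2`, and `|z|^2 ≤ 10 T^400`,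
`|z| ≥ |y| ≥ T^198`, so `c T^(-1006) ≤ |Im z^(-5)| ≤ T^(-990)`.
Second difference: `|D| Π 5! |Im z^(-6)| ≤ 120 |D| Π T^(-1188)`.
`kus` with `μ = 24 |D| Π c T^(-1006)`, `ν = 120 |D| Π T^(-1188)`: `L ν / μ ≤ 5/c * T^(-2) ≤ 1`, so
`ES ≤ 8 / μ`, and `|D| Π ≥ T^832 / 16` gives `8/μ ≤ C T^174 ≤ T^175`. -/
theorem seg_base : ∃ T0 : ℝ, 1 ≤ T0 ∧ ∀ T : ℝ, T0 ≤ T → ∀ D x0 y : ℝ, ∀ hs : List ℕ,
    T ^ 198 ≤ |y| → |y| ≤ T ^ 200 → |x0| ≤ 2 * T ^ 200 →
    T ^ 398 ≤ |x0 ^ 2 - t1 * y ^ 2| → T ^ 398 ≤ |x0 ^ 2 - t2 * y ^ 2| →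
    hs.length = 4 → (∀ h ∈ hs, (h : ℝ) ≤ T ^ 180) →
    T ^ 832 / 16 ≤ |D| * (hs.prod : ℕ) → |D| * (hs.prod : ℕ) ≤ T ^ 960 →
    ∀ L : ℕ, (L : ℝ) ≤ T ^ 180 →
      ES (difs hs (fun n => D * phi x0 y n)) L ≤ T ^ 175 := by
  refine ⟨4 * 65 ^ 5 * 16, by norm_num, ?_⟩
  intro T hT D x0 y hs hy1 hy2 hx0 h1 h2 hlen hh hlo hup L hL
  have hT120 : (120 : ℝ) ≤ T := le_trans (by norm_num) hT
  have hT1 : (1 : ℝ) ≤ T := by linarith
  have hTp : 0 < T := by linarith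
  have hypos : 0 < |y| := lt_of_lt_of_le (by positivity) hy1
  have hy0 : y ≠ 0 := abs_pos.1 hypos
  obtain ⟨A, hA⟩ : ∃ A : ℝ, A = |D| * (hs.prod : ℕ) := ⟨_, rfl⟩
  rw [← hA] at hlo hup
  have hApos : 0 < A := lt_of_lt_of_le (by positivity) hlo
  have hsum := wsega_sum_le hs (T ^ 180) hh
  rw [hlen, show ((4 : ℕ) : ℝ) = 4 by norm_num] at hsum
  have h180 : (1 : ℝ) ≤ T ^ 180 := one_le_pow₀ hT1
  have hF1 : ∀ n, difs hs (fun n => D * phi x0 y n) (n + 1) - difs hs (fun n => D * phi x0 y n) n =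
      D * difs (hs ++ [1]) (fun m => phi x0 y m) n := by
    intro n
    have e : difs (hs ++ [1]) (fun n : ℕ => D * phi x0 y n) n =
        difs hs (fun n => D * phi x0 y n) (n + 1) - difs hs (fun n => D * phi x0 y n) n := by
      rw [difs_append]
      rfl
    rw [← e, difs_smul D (hs ++ [1]) (fun m : ℕ => phi x0 y m)]
  have hF2 : ∀ n, difs hs (fun n => D * phi x0 y n) (n + 2) -
      2 * difs hs (fun n => D * phi x0 y n) (n + 1) + difs hs (fun n => D * phi x0 y n) n =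
      D * difs (hs ++ [1, 1]) (fun m => phi x0 y m) n := by
    intro n
    have e : difs (hs ++ [1, 1]) (fun n : ℕ => D * phi x0 y n) n =
        (difs hs (fun n => D * phi x0 y n) (n + 1 + 1) -
          difs hs (fun n => D * phi x0 y n) (n + 1)) -
        (difs hs (fun n => D * phi x0 y n) (n + 1) - difs hs (fun n => D * phi x0 y n) n) := by
      rw [difs_append]
      rfl
    have e2 := difs_smul D (hs ++ [1, 1]) (fun m : ℕ => phi x0 y m)
    rw [← congrFun e2 n, e]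
    ring
  have hkus := kus (difs hs (fun n => D * phi x0 y n)) L
    (24 * A * (5 / (4 * 65 ^ 5) / T ^ 1006)) (120 * A / T ^ 1188) (by positivity) (by positivity)
    (by
      intro n hn
      have hnL : (n : ℝ) + 1 ≤ L := by exact_mod_cast hn
      have hn0 : (0 : ℝ) ≤ n := Nat.cast_nonneg n
      rw [hF1 n]
      obtain ⟨t, ht1, ht2, ht3⟩ := difs_phi x0 y hy0 (hs ++ [1]) (by simp) n
      rw [List.sum_append, List.sum_singleton, Nat.cast_add, Nat.cast_one] at ht2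
      rw [List.prod_append, List.prod_singleton, mul_one, List.length_append, hlen,
        List.length_singleton] at ht3
      have h24 : ((4 + 1 - 1 : ℕ).factorial : ℝ) = 24 := by norm_num [Nat.factorial]
      rw [h24] at ht3
      have e : |D * difs (hs ++ [1]) (fun m => phi x0 y m) n| = 24 * A *
          |((((((x0 + t : ℝ)) : ℂ) + (y : ℂ) * Complex.I) ^ 5)⁻¹).im| := by
        rw [abs_mul, ht3, hA]
        ring
      rw [e]
      constructor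
      · exact mul_le_mul_of_nonneg_left (wsega_low T x0 y t hT120 hy1 hy2 hx0 h1 h2
          (hn0.trans ht1) (by linarith)) (by positivity)
      · have h3 := wsega_im_le (x0 + t) y 5 hy0
        have h4 : (|y| ^ 5)⁻¹ ≤ (T ^ 990)⁻¹ := by
          apply inv_anti₀ (by positivity)
          calc T ^ 990 = (T ^ 198) ^ 5 := by rw [← pow_mul]
            _ ≤ |y| ^ 5 := pow_le_pow_left₀ (by positivity) hy1 5
        calc 24 * A * |((((((x0 + t : ℝ)) : ℂ) + (y : ℂ) * Complex.I) ^ 5)⁻¹).im|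
            ≤ 24 * T ^ 960 * (T ^ 990)⁻¹ := by
              have := h3.trans h4
              gcongr
          _ = 24 / T ^ 30 := by
              have e3 : T ^ 990 = T ^ 960 * T ^ 30 := by rw [← pow_add]
              rw [e3]
              field_simp
          _ ≤ 1 := by
              rw [div_le_one (by positivity)]
              have : T ≤ T ^ 30 := le_self_pow₀ hT1 (by norm_num)
              linarith)
    (by
      intro n hn
      have hnL : (n : ℝ) + 1 + 1 ≤ L := by exact_mod_cast hn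
      have hn0 : (0 : ℝ) ≤ n := Nat.cast_nonneg n
      rw [hF2 n]
      obtain ⟨t, ht1, ht2, ht3⟩ := difs_phi x0 y hy0 (hs ++ [1, 1]) (by simp) n
      have hp : (hs ++ [1, 1]).prod = hs.prod := by simp
      have hl6 : (hs ++ [1, 1]).length = 6 := by simp [hlen]
      rw [hp, hl6] at ht3
      have h120 : ((6 - 1 : ℕ).factorial : ℝ) = 120 := by norm_num [Nat.factorial]
      rw [h120] at ht3
      rw [abs_mul, ht3]
      have h3 := wsega_im_le (x0 + t) y 6 hy0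
      have h4 : (|y| ^ 6)⁻¹ ≤ (T ^ 1188)⁻¹ := by
        apply inv_anti₀ (by positivity)
        calc T ^ 1188 = (T ^ 198) ^ 6 := by rw [← pow_mul]
          _ ≤ |y| ^ 6 := pow_le_pow_left₀ (by positivity) hy1 6
      have h5 := h3.trans h4
      calc |D| * ((hs.prod : ℕ) * 120 *
          |((((((x0 + t : ℝ)) : ℂ) + (y : ℂ) * Complex.I) ^ 6)⁻¹).im|)
          = 120 * A * |((((((x0 + t : ℝ)) : ℂ) + (y : ℂ) * Complex.I) ^ 6)⁻¹).im| := by
            rw [hA]; ring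
        _ ≤ 120 * A * (T ^ 1188)⁻¹ := by gcongr
        _ = 120 * A / T ^ 1188 := by rw [div_eq_mul_inv])
  refine hkus.trans ?_
  obtain ⟨μ, hμ⟩ : ∃ μ : ℝ, μ = 24 * A * (5 / (4 * 65 ^ 5) / T ^ 1006) := ⟨_, rfl⟩
  rw [← hμ]
  have hμpos : 0 < μ := by rw [hμ]; positivity
  have hratio : (L : ℝ) * (120 * A / T ^ 1188) ≤ μ := by
    rw [hμ]
    calc (L : ℝ) * (120 * A / T ^ 1188) ≤ T ^ 180 * (120 * A / T ^ 1188) := by gcongr
      _ = 120 * A / T ^ 1008 := by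
          have e3 : T ^ 1188 = T ^ 180 * T ^ 1008 := by rw [← pow_add]
          rw [e3]
          field_simp
      _ ≤ 24 * A * (5 / (4 * 65 ^ 5) / T ^ 1006) := by
          have e3 : T ^ 1008 = T ^ 2 * T ^ 1006 := by rw [← pow_add]
          rw [e3]
          have h6 : (4 * 65 ^ 5 : ℝ) ≤ T ^ 2 :=
            le_trans (by linarith) (le_self_pow₀ hT1 (by norm_num))
          have e4 : 24 * A * (5 / (4 * 65 ^ 5) / T ^ 1006) =
              120 * A / ((4 * 65 ^ 5) * T ^ 1006) := by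
            field_simp
            norm_num
          rw [e4]
          gcongr
  have h8 : 4 / μ + 4 * (L : ℝ) * (120 * A / T ^ 1188) / μ ^ 2 ≤ 8 / μ := by
    have e : 4 * (L : ℝ) * (120 * A / T ^ 1188) / μ ^ 2 =
        4 * ((L : ℝ) * (120 * A / T ^ 1188)) / μ ^ 2 := by ring
    rw [e]
    have h9 : 4 * ((L : ℝ) * (120 * A / T ^ 1188)) / μ ^ 2 ≤ 4 * μ / μ ^ 2 := by gcongr
    have e2 : 4 * μ / μ ^ 2 = 4 / μ := by field_simp
    rw [e2] at h9
    have e3 : (8 : ℝ) / μ = 4 / μ + 4 / μ := by ring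
    linarith
  refine h8.trans ?_
  rw [div_le_iff₀ hμpos, hμ]
  have e5 : T ^ 175 * (24 * A * (5 / (4 * 65 ^ 5) / T ^ 1006)) =
      (30 / 65 ^ 5) * A / T ^ 831 := by
    have e6 : T ^ 1006 = T ^ 175 * T ^ 831 := by rw [← pow_add]
    rw [e6]
    field_simp
    norm_num
  rw [e5, le_div_iff₀ (by positivity)]
  have e7 : T ^ 832 = T * T ^ 831 := by rw [← pow_succ']
  rw [e7] at hlo
  have h831 : 0 < T ^ 831 := by positivity
  have h10 : (30 / 65 ^ 5 : ℝ) * (T * T ^ 831 / 16) ≤ 30 / 65 ^ 5 * A := by gcongr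
  refine le_trans ?_ h10
  have e8 : (30 / 65 ^ 5 : ℝ) * (T * T ^ 831 / 16) = (30 / 65 ^ 5 / 16 * T) * T ^ 831 := by ring
  rw [e8]
  apply mul_le_mul_of_nonneg_right _ h831.le
  have : (30 / 65 ^ 5 / 16 : ℝ) * (4 * 65 ^ 5 * 16) ≤ 30 / 65 ^ 5 / 16 * T := by gcongr
  refine le_trans ?_ this
  norm_num

end Pool.Agent.NSqP
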