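import Pool.Agent.Lib.NSqP.WVdC
import Pool.Agent.Lib.NSqP.WSegA

/-!
# Group W: the segment bound
-/

set_option autoImplicit false

namespace Pool.Agent.NSqP

open Finset

private lemma prod_four (hs : List ℕ) (hlen : hs.length = 4) (u v : ℝ) (hu : 0 ≤ u)
    (h : ∀ x ∈ hs, u ≤ (x : ℝ) ∧ (x : ℝ) ≤ v) :
    u ^ 4 ≤ ((hs.prod : ℕ) : ℝ) ∧ ((hs.prod : ℕ) : ℝ) ≤ v ^ 4 := by
  match hs, hlen with
  | [a, b, c, d], _ =>
    have ha := h a (by simp)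
    have hb := h b (by simp)
    have hc := h c (by simp)
    have hd := h d (by simp)
    simp only [List.prod_cons, List.prod_nil, mul_one]
    push_cast
    have hv : 0 ≤ v := hu.trans (ha.1.trans ha.2)
    constructor
    · have e : u ^ 4 = u * (u * (u * u)) := by ring
      rw [e]
      refine mul_le_mul ha.1 ?_ (by positivity) (by positivity)
      refine mul_le_mul hb.1 ?_ (by positivity) (by positivity)
      exact mul_le_mul hc.1 hd.1 hu (by positivity)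
    · have e : v ^ 4 = v * (v * (v * v)) := by ring
      rw [e]
      refine mul_le_mul ha.2 ?_ (by positivity) hv
      refine mul_le_mul hb.2 ?_ (by positivity) hv
      exact mul_le_mul hc.2 hd.2 (by positivity) hv

private lemma seg_aux (X Y : ℝ) (hX : 1 ≤ X) (hY : 2 ≤ Y) : X ≤ 2 * (X * Y - 1) := by
  have h : X * 2 ≤ X * Y := mul_le_mul_of_nonneg_left hY (by linarith)
  linarith

private lemma exists_Qr (T D : ℝ) (hT : 1 ≤ T) (h1 : T ^ 120 ≤ |D|) (h2 : |D| ≤ T ^ 944) :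
    ∃ Qr : ℝ, T ^ 4 ≤ Qr ∧ Qr ≤ T ^ 180 ∧ T ^ 840 ≤ |D| * Qr ^ 4 ∧ |D| * Qr ^ 4 ≤ T ^ 960 := by
  have hT0 : 0 < T := by linarith
  have hD0 : 0 < |D| := lt_of_lt_of_le (by positivity) h1
  by_cases hD : |D| < T ^ 240
  · refine ⟨T ^ 180, pow_le_pow_right₀ hT (by norm_num), le_rfl, ?_, ?_⟩
    · calc T ^ 840 = T ^ 120 * (T ^ 180) ^ 4 := by ring
        _ ≤ |D| * (T ^ 180) ^ 4 := mul_le_mul_of_nonneg_right h1 (by positivity)
    · calc |D| * (T ^ 180) ^ 4 ≤ T ^ 240 * (T ^ 180) ^ 4 :=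
            mul_le_mul_of_nonneg_right hD.le (by positivity)
        _ = T ^ 960 := by ring
  · push Not at hD
    set w : ℝ := T ^ 960 / |D| with hw
    have hw0 : 0 < w := by positivity
    set Qr : ℝ := w ^ (1 / 4 : ℝ) with hQr
    have hQ4 : Qr ^ 4 = w := by
      rw [hQr, ← Real.rpow_natCast, ← Real.rpow_mul hw0.le]
      norm_num
    have hQ0 : 0 ≤ Qr := by positivity
    have hprod : |D| * Qr ^ 4 = T ^ 960 := by
      rw [hQ4, hw]; field_simp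
    refine ⟨Qr, ?_, ?_, ?_, hprod.le⟩
    · have h3 : (T ^ 4) ^ 4 ≤ Qr ^ 4 := by
        rw [hQ4, hw, le_div_iff₀ hD0]
        calc (T ^ 4) ^ 4 * |D| ≤ (T ^ 4) ^ 4 * T ^ 944 :=
              mul_le_mul_of_nonneg_left h2 (by positivity)
          _ = T ^ 960 := by ring
      exact le_of_pow_le_pow_left₀ (by norm_num) hQ0 h3
    · have h3 : Qr ^ 4 ≤ (T ^ 180) ^ 4 := by
        rw [hQ4, hw, div_le_iff₀ hD0]
        calc T ^ 960 = (T ^ 180) ^ 4 * T ^ 240 := by ring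
          _ ≤ (T ^ 180) ^ 4 * |D| := mul_le_mul_of_nonneg_left hD (by positivity)
      exact le_of_pow_le_pow_left₀ (by norm_num) (by positivity) h3
    · rw [hprod]
      exact pow_le_pow_right₀ hT (by norm_num)

/-- The segment bound. Let `H = ⌊T^180⌋₊`. If `|D| < T^240` let `Qr = T^180`, else
`Qr = (T^960 / |D|)^(1/4)`, which lies in `[T^4, T^180]`; always `T^840 ≤ |D| Qr^4 ≤ T^960`. Put
`Q = ⌊Qr⌋₊` (`≥ Qr/2`), `Q0 = ⌊Q / T^2⌋₊ + 1`, so `Q / T^2 ≤ Q0 ≤ 2 Q / T^2`, `ε = 2 / T^2`. For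
`hs` of length 4 with entries in `[Q0, Q)` the product is between `Q0^4 ≥ (Qr/(2T^2))^4` and `Qr^4`,
so `seg_base` applies and gives `≤ T^175 ≤ ε H`. Then `vdc_iter` with `r = 4`. -/
theorem seg : ∃ T0 : ℝ, 1 ≤ T0 ∧ ∀ T : ℝ, T0 ≤ T → ∀ D x0 y : ℝ,
    T ^ 120 ≤ |D| → |D| ≤ T ^ 944 →
    T ^ 198 ≤ |y| → |y| ≤ T ^ 200 → |x0| ≤ 2 * T ^ 200 →
    T ^ 398 ≤ |x0 ^ 2 - t1 * y ^ 2| → T ^ 398 ≤ |x0 ^ 2 - t2 * y ^ 2| →
    ∀ L : ℕ, (L : ℝ) ≤ T ^ 180 →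
      ES (fun n => D * phi x0 y n) L ≤ 40 * T ^ (180 - 1 / 8 : ℝ) := by
  obtain ⟨T1, hT1, hbase⟩ := seg_base
  refine ⟨max T1 2, le_max_of_le_left hT1, fun T hT D x0 y hD1 hD2 hy1 hy2 hx ht1 ht2 L hL => ?_⟩
  have hTT1 : T1 ≤ T := (le_max_left _ _).trans hT
  have hT2 : 2 ≤ T := (le_max_right _ _).trans hT
  have hT1' : 1 ≤ T := by linarith
  have hT0 : 0 < T := by linarith
  obtain ⟨Qr, hQr1, hQr2, hQr3, hQr4⟩ := exists_Qr T D hT1' hD1 hD2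
  have hT4 : (4 : ℝ) ≤ T ^ 2 := by nlinarith
  have hT16 : (16 : ℝ) ≤ T ^ 4 := by nlinarith
  have hQr0 : 16 ≤ Qr := hT16.trans hQr1
  set H : ℕ := ⌊T ^ 180⌋₊ with hH
  set Q : ℕ := ⌊Qr⌋₊ with hQ
  have hT180 : 0 ≤ T ^ 180 := by positivity
  have hHle : (H : ℝ) ≤ T ^ 180 := Nat.floor_le hT180
  have hHge : T ^ 180 - 1 < (H : ℝ) := Nat.sub_one_lt_floor _
  have hQle : (Q : ℝ) ≤ Qr := Nat.floor_le (by linarith)
  have hQge : Qr - 1 < (Q : ℝ) := Nat.sub_one_lt_floor _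
  have hQhalf : Qr / 2 ≤ (Q : ℝ) := by linarith
  set Q0 : ℕ := ⌊(Q : ℝ) / T ^ 2⌋₊ + 1 with hQ0
  have hQT : 1 ≤ (Q : ℝ) / T ^ 2 := by
    rw [le_div_iff₀ (by positivity)]
    nlinarith
  have hQ0ge : (Q : ℝ) / T ^ 2 ≤ (Q0 : ℝ) := by
    have := (Nat.lt_floor_add_one ((Q : ℝ) / T ^ 2)).le
    rw [hQ0]
    push_cast
    exact this
  have hQ0le : (Q0 : ℝ) ≤ 2 / T ^ 2 * Q := by
    have := Nat.floor_le (show (0 : ℝ) ≤ (Q : ℝ) / T ^ 2 by positivity)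
    rw [hQ0]
    push_cast
    have h3 : 2 / T ^ 2 * (Q : ℝ) = (Q : ℝ) / T ^ 2 + (Q : ℝ) / T ^ 2 := by ring
    linarith
  have hε1 : 2 / T ^ 2 ≤ 1 := by
    rw [div_le_one (by positivity)]
    linarith
  have hQ0Q : Q0 ≤ Q := by
    have h3 : (2 / T ^ 2) * (Q : ℝ) ≤ 1 * (Q : ℝ) :=
      mul_le_mul_of_nonneg_right hε1 (Nat.cast_nonneg _)
    have h4 : (Q0 : ℝ) ≤ (Q : ℝ) := by linarith
    exact_mod_cast h4
  have hQH : Q ≤ H := Nat.floor_le_floor hQr2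
  have hLH : L ≤ H := Nat.le_floor hL
  have hmain := vdc_iter H Q0 Q (2 / T ^ 2) (by rw [hQ0]; omega) hQ0Q hQH hε1 hQ0le 4
    (fun n => D * phi x0 y n) (by
      intro hs hlen hmem L' hL'
      have hp := prod_four hs hlen (Q0 : ℝ) (Q : ℝ) (Nat.cast_nonneg _) (fun x hx => by
        have := hmem x hx
        exact ⟨by exact_mod_cast this.1, by exact_mod_cast this.2.le⟩)
      have hL'' : (L' : ℝ) ≤ T ^ 180 := by
        have : (L' : ℝ) ≤ H := by exact_mod_cast hL'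
        linarith
      have hD0 : 0 ≤ |D| := abs_nonneg _
      have hlow : T ^ 832 / 16 ≤ |D| * (hs.prod : ℕ) := by
        have h3 : Qr / (2 * T ^ 2) ≤ (Q0 : ℝ) := by
          refine le_trans ?_ hQ0ge
          rw [div_le_div_iff₀ (by positivity) (by positivity)]
          nlinarith [sq_nonneg T]
        have h4 : (Qr / (2 * T ^ 2)) ^ 4 ≤ ((hs.prod : ℕ) : ℝ) :=
          (pow_le_pow_left₀ (by positivity) h3 4).trans hp.1
        calc T ^ 832 / 16 = T ^ 840 / (16 * T ^ 8) := by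
              field_simp
          _ ≤ (|D| * Qr ^ 4) / (16 * T ^ 8) := div_le_div_of_nonneg_right hQr3 (by positivity)
          _ = |D| * (Qr / (2 * T ^ 2)) ^ 4 := by
              rw [div_pow, mul_pow]
              ring
          _ ≤ |D| * (hs.prod : ℕ) := mul_le_mul_of_nonneg_left h4 hD0
      have hup : |D| * (hs.prod : ℕ) ≤ T ^ 960 := by
        have h4 : ((hs.prod : ℕ) : ℝ) ≤ Qr ^ 4 :=
          hp.2.trans (pow_le_pow_left₀ (Nat.cast_nonneg _) hQle 4)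
        exact (mul_le_mul_of_nonneg_left h4 hD0).trans hQr4
      have h5 := hbase T hTT1 D x0 y hs hy1 hy2 hx ht1 ht2 hlen (fun x hx => by
        have h6 : (x : ℝ) ≤ Q := by exact_mod_cast (hmem x hx).2.le
        linarith) hlow hup L' hL''
      refine h5.trans ?_
      have h6 : T ^ 175 ≤ 2 / T ^ 2 * (T ^ 180 - 1) := by
        have h7 : 2 / T ^ 2 * (T ^ 180 - 1) = (2 * (T ^ 180 - 1)) / T ^ 2 := by ring
        rw [h7, le_div_iff₀ (by positivity)]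
        have h8 : (1 : ℝ) ≤ T ^ 177 := one_le_pow₀ hT1'
        have h9 : T ^ 180 = T ^ 177 * T ^ 3 := by ring
        have h10 : T ^ 175 * T ^ 2 = T ^ 177 := by ring
        have h12 : (2 : ℝ) ≤ T ^ 3 := by
          calc (2 : ℝ) ≤ T := hT2
            _ = T ^ 1 := (pow_one T).symm
            _ ≤ T ^ 3 := pow_le_pow_right₀ hT1' (by norm_num)
        rw [h9, h10]
        exact seg_aux _ _ h8 h12
      have h11 : 2 / T ^ 2 * (T ^ 180 - 1) ≤ 2 / T ^ 2 * (H : ℝ) :=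
        mul_le_mul_of_nonneg_left hHge.le (by positivity)
      linarith) L hLH
  refine hmain.trans ?_
  have h1 : (2 / T ^ 2 : ℝ) ^ ((1 : ℝ) / 2 ^ 4) ≤ 2 * T ^ (-(1 / 8) : ℝ) := by
    rw [Real.div_rpow (by norm_num) (by positivity)]
    have h2 : (2 : ℝ) ^ ((1 : ℝ) / 2 ^ 4) ≤ 2 := by
      calc (2 : ℝ) ^ ((1 : ℝ) / 2 ^ 4) ≤ (2 : ℝ) ^ (1 : ℝ) :=
            Real.rpow_le_rpow_of_exponent_le (by norm_num) (by norm_num)
        _ = 2 := Real.rpow_one 2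
    have h3 : (T ^ 2 : ℝ) ^ ((1 : ℝ) / 2 ^ 4) = T ^ (1 / 8 : ℝ) := by
      rw [← Real.rpow_natCast, ← Real.rpow_mul hT0.le]
      norm_num
    rw [h3, Real.rpow_neg hT0.le, ← div_eq_mul_inv]
    exact div_le_div_of_nonneg_right h2 (by positivity)
  have h4 : (T : ℝ) ^ (180 - 1 / 8 : ℝ) = T ^ 180 * T ^ (-(1 / 8) : ℝ) := by
    rw [sub_eq_add_neg, Real.rpow_add hT0]
    congr 1
    exact_mod_cast Real.rpow_natCast T 180
  rw [h4]
  have h5 : 0 ≤ T ^ (-(1 / 8) : ℝ) := by positivity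
  calc 20 * (2 / T ^ 2 : ℝ) ^ ((1 : ℝ) / 2 ^ 4) * (H : ℝ)
      ≤ 20 * (2 * T ^ (-(1 / 8) : ℝ)) * T ^ 180 := by
        apply mul_le_mul _ hHle (Nat.cast_nonneg _) (by positivity)
        exact mul_le_mul_of_nonneg_left h1 (by norm_num)
    _ = 40 * (T ^ 180 * T ^ (-(1 / 8) : ℝ)) := by ring

end Pool.Agent.NSqP
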