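import Pool.Agent.Lib.NSqP.WBad

/-!
# Group W: preparations for small frequencies
-/

set_option autoImplicit false

namespace Pool.Agent.NSqP

open Finset

private lemma sqrt_nN (z : GaussianInt) : Real.sqrt (nN z) = ‖(z : ℂ)‖ := by
  rw [← norm_toC_sq, Real.sqrt_sq (norm_nonneg _)]

private lemma unit_lip (a c : ℂ) (ha : a ≠ 0) (hc : c ≠ 0) :
    ‖a / ((‖a‖ : ℝ) : ℂ) - c / ((‖c‖ : ℝ) : ℂ)‖ ≤ 2 * ‖a - c‖ / ‖c‖ := by
  have ha' : 0 < ‖a‖ := norm_pos_iff.2 ha
  have hc' : 0 < ‖c‖ := norm_pos_iff.2 hc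
  have haC : ((‖a‖ : ℝ) : ℂ) ≠ 0 := by exact_mod_cast ha'.ne'
  have hcC : ((‖c‖ : ℝ) : ℂ) ≠ 0 := by exact_mod_cast hc'.ne'
  have h1 : a / ((‖a‖ : ℝ) : ℂ) - c / ((‖c‖ : ℝ) : ℂ) =
      (a - c) / ((‖c‖ : ℝ) : ℂ) + a / ((‖a‖ : ℝ) : ℂ) * (((‖c‖ - ‖a‖ : ℝ) : ℂ) / ((‖c‖ : ℝ) : ℂ)) := by
    push_cast
    field_simp
    ring
  rw [h1]
  have h2 : ‖(a - c) / ((‖c‖ : ℝ) : ℂ)‖ = ‖a - c‖ / ‖c‖ := by
    rw [norm_div, Complex.norm_real, norm_norm]
  have h3 : ‖a / ((‖a‖ : ℝ) : ℂ) * (((‖c‖ - ‖a‖ : ℝ) : ℂ) / ((‖c‖ : ℝ) : ℂ))‖ ≤ ‖a - c‖ / ‖c‖ := by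
    rw [norm_mul, norm_div, norm_div, Complex.norm_real, Complex.norm_real, Complex.norm_real,
      norm_norm, norm_norm, div_self ha'.ne', one_mul]
    refine div_le_div_of_nonneg_right ?_ hc'.le
    rw [Real.norm_eq_abs]
    have := abs_norm_sub_norm_le c a
    rw [norm_sub_rev] at this
    exact this
  calc _ ≤ ‖a - c‖ / ‖c‖ + ‖a - c‖ / ‖c‖ := (norm_add_le _ _).trans (add_le_add h2.le h3)
    _ = 2 * ‖a - c‖ / ‖c‖ := by ring

private lemma pow_lip (u v : ℂ) (hu : ‖u‖ = 1) (hv : ‖v‖ = 1) (m : ℕ) :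
    ‖u ^ m - v ^ m‖ ≤ m * ‖u - v‖ := by
  induction m with
  | zero => simp
  | succ m ih =>
    have h1 : u ^ (m + 1) - v ^ (m + 1) = (u ^ m - v ^ m) * u + v ^ m * (u - v) := by ring
    rw [h1]
    calc _ ≤ ‖(u ^ m - v ^ m) * u‖ + ‖v ^ m * (u - v)‖ := norm_add_le _ _
      _ = ‖u ^ m - v ^ m‖ + ‖u - v‖ := by
          rw [norm_mul, norm_mul, norm_pow, hu, hv, one_pow, mul_one, one_mul]
      _ ≤ m * ‖u - v‖ + ‖u - v‖ := by linarith
      _ = ((m + 1 : ℕ) : ℝ) * ‖u - v‖ := by push_cast; ring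

private lemma zpow_lip (u v : ℂ) (hu : ‖u‖ = 1) (hv : ‖v‖ = 1) (d : ℤ) :
    ‖u ^ d - v ^ d‖ ≤ |(d : ℝ)| * ‖u - v‖ := by
  have hu0 : u ≠ 0 := by intro h; rw [h] at hu; simp at hu
  have hv0 : v ≠ 0 := by intro h; rw [h] at hv; simp at hv
  obtain ⟨m, rfl | rfl⟩ := Int.eq_nat_or_neg d
  · rw [zpow_natCast, zpow_natCast]
    have h := pow_lip u v hu hv m
    have h2 : |(((m : ℤ)) : ℝ)| = m := by
      push_cast
      exact abs_of_nonneg (Nat.cast_nonneg m)
    rw [h2]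
    exact h
  · rw [zpow_neg, zpow_neg, zpow_natCast, zpow_natCast]
    have h := pow_lip u v hu hv m
    have h2 : |((-(m : ℤ) : ℤ) : ℝ)| = m := by
      push_cast
      rw [abs_neg]
      exact abs_of_nonneg (Nat.cast_nonneg m)
    rw [h2]
    have h3 : (u ^ m)⁻¹ - (v ^ m)⁻¹ = -((u ^ m)⁻¹ * (u ^ m - v ^ m) * (v ^ m)⁻¹) := by
      have hum : u ^ m ≠ 0 := pow_ne_zero _ hu0
      have hvm : v ^ m ≠ 0 := pow_ne_zero _ hv0
      field_simp
      ring
    rw [h3, norm_neg, norm_mul, norm_mul, norm_inv, norm_inv, norm_pow, norm_pow, hu, hv,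
      one_pow, inv_one, one_mul, mul_one]
    exact h

/-- `ξ` is Lipschitz: `|a/|a| - c/|c|| ≤ 2 |a - c| / |c|`, and powers: `|u^d - v^d| ≤ |d| |u - v|` for
unimodular `u, v`. -/
theorem xi_lip (z w : GaussianInt) (hz : z ≠ 0) (hw : w ≠ 0) (d : ℤ) :
    ‖xi z ^ d - xi w ^ d‖ ≤ 2 * |(d : ℝ)| * Real.sqrt (nN (z - w)) / Real.sqrt (nN w) := by
  have h1 := zpow_lip (xi z) (xi w) (norm_xi hz) (norm_xi hw) d
  have h2 := unit_lip (z : ℂ) (w : ℂ) (toC_ne_zero hz) (toC_ne_zero hw)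
  rw [sqrt_nN, sqrt_nN]
  have h3 : ((z - w : GaussianInt) : ℂ) = (z : ℂ) - (w : ℂ) := by simp
  rw [h3]
  calc ‖xi z ^ d - xi w ^ d‖ ≤ |(d : ℝ)| * ‖xi z - xi w‖ := h1
    _ ≤ |(d : ℝ)| * (2 * ‖(z : ℂ) - (w : ℂ)‖ / ‖(w : ℂ)‖) :=
        mul_le_mul_of_nonneg_left h2 (abs_nonneg _)
    _ = 2 * |(d : ℝ)| * ‖(z : ℂ) - (w : ℂ)‖ / ‖(w : ℂ)‖ := by ring

/-- `∑ 1/|z|` over `0 < N z ≤ b` is at most `C sqrt b` (crude: dyadic annuli, or rows and columns:
`|z| ≥ max (|x|,|y|)`, at most `8 m` points with `max = m`). -/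
theorem sum_inv_norm (b : ℝ) (hb : 1 ≤ b) :
    ∑ z ∈ ann 0 b, 1 / Real.sqrt (nN z) ≤ 8 * Real.sqrt b := by
  classical
  set mx : GaussianInt → ℕ := fun z => max z.re.natAbs z.im.natAbs with hmx
  set M : ℕ := ⌊Real.sqrt b⌋₊ with hM
  have hb0 : 0 ≤ b := by linarith
  have hnat : ∀ x : ℤ, ((x.natAbs : ℕ) : ℝ) ^ 2 = (x : ℝ) ^ 2 := by
    intro x
    rw [Nat.cast_natAbs, Int.cast_abs, sq_abs]
  have hmx_le : ∀ z : GaussianInt, (mx z : ℝ) ≤ Real.sqrt (nN z) := by
    intro z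
    apply Real.le_sqrt_of_sq_le
    rw [nN_real, hmx]
    simp only
    rcases le_total z.re.natAbs z.im.natAbs with h | h
    · rw [max_eq_right h, hnat]
      nlinarith [sq_nonneg (z.re : ℝ)]
    · rw [max_eq_left h, hnat]
      nlinarith [sq_nonneg (z.im : ℝ)]
  have hmaps : ∀ z ∈ ann 0 b, mx z ∈ Finset.Icc 1 M := by
    intro z hz
    have hz' := (mem_ann hb0).1 hz
    rw [Finset.mem_Icc]
    constructor
    · rw [Nat.one_le_iff_ne_zero]
      intro h0
      rw [hmx] at h0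
      simp only at h0
      have h1 : z.re.natAbs = 0 := by
        have := le_max_left z.re.natAbs z.im.natAbs; omega
      have h2 : z.im.natAbs = 0 := by
        have := le_max_right z.re.natAbs z.im.natAbs; omega
      rw [Int.natAbs_eq_zero] at h1 h2
      have h3 : z = 0 := Zsqrtd.ext h1 h2
      rw [h3, nN_zero] at hz'
      simp at hz'
    · rw [hM]
      apply Nat.le_floor
      exact (hmx_le z).trans (Real.sqrt_le_sqrt hz'.2)
  rw [← Finset.sum_fiberwise_of_maps_to hmaps]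
  have hfib : ∀ m ∈ Finset.Icc 1 M, ∑ z ∈ (ann 0 b).filter (fun z => mx z = m),
      1 / Real.sqrt (nN z) ≤ 8 := by
    intro m hm
    rw [Finset.mem_Icc] at hm
    have hm1 : (1 : ℝ) ≤ m := by exact_mod_cast hm.1
    have hcard : ((ann 0 b).filter (fun z => mx z = m)).card ≤ 8 * m := by
      set B1 : Finset (ℤ × ℤ) := Finset.Icc (-(m : ℤ)) m ×ˢ Finset.Icc (-(m : ℤ)) m with hB1
      set B0 : Finset (ℤ × ℤ) := Finset.Icc (-((m : ℤ) - 1)) ((m : ℤ) - 1) ×ˢ
        Finset.Icc (-((m : ℤ) - 1)) ((m : ℤ) - 1) with hB0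
      have hsub : B0 ⊆ B1 := by
        intro p hp
        simp only [hB0, hB1, Finset.mem_product, Finset.mem_Icc] at hp ⊢
        omega
      have hc : (B1 \ B0).card = 8 * m := by
        rw [Finset.card_sdiff_of_subset hsub, hB1, hB0, Finset.card_product,
          Finset.card_product, Int.card_Icc, Int.card_Icc]
        have e1 : ((m : ℤ) + 1 - -(m : ℤ)).toNat = 2 * m + 1 := by omega
        have e2 : ((m : ℤ) - 1 + 1 - -((m : ℤ) - 1)).toNat = 2 * m - 1 := by omega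
        rw [e1, e2]
        obtain ⟨r, hr⟩ : ∃ r, m = r + 1 := ⟨m - 1, by omega⟩
        subst hr
        have e3 : 2 * (r + 1) - 1 = 2 * r + 1 := by omega
        rw [e3]
        have : (2 * (r + 1) + 1) * (2 * (r + 1) + 1) = (2 * r + 1) * (2 * r + 1) + 8 * (r + 1) := by
          ring
        omega
      rw [← hc]
      refine Finset.card_le_card_of_injOn (fun z => (z.re, z.im)) ?_ ?_
      · intro z hz
        rw [Finset.mem_coe, Finset.mem_filter] at hz
        have h2 : max z.re.natAbs z.im.natAbs = m := hz.2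
        rw [Finset.mem_coe, Finset.mem_sdiff, hB1, hB0]
        simp only [Finset.mem_product, Finset.mem_Icc]
        omega
      · intro z _ w _ h
        simp only [Prod.mk.injEq] at h
        exact Zsqrtd.ext h.1 h.2
    calc ∑ z ∈ (ann 0 b).filter (fun z => mx z = m), 1 / Real.sqrt (nN z)
        ≤ ∑ z ∈ (ann 0 b).filter (fun z => mx z = m), 1 / (m : ℝ) := by
          refine Finset.sum_le_sum fun z hz => ?_
          rw [Finset.mem_filter] at hz
          have := hmx_le z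
          rw [hz.2] at this
          exact one_div_le_one_div_of_le (by linarith) this
      _ = ((ann 0 b).filter (fun z => mx z = m)).card * (1 / (m : ℝ)) := by
          rw [Finset.sum_const, nsmul_eq_mul]
      _ ≤ (8 * m : ℝ) * (1 / (m : ℝ)) := by
          refine mul_le_mul_of_nonneg_right ?_ (by positivity)
          exact_mod_cast hcard
      _ = 8 := by field_simp
  refine (Finset.sum_le_sum hfib).trans ?_
  rw [Finset.sum_const, nsmul_eq_mul, Nat.card_Icc, Nat.add_sub_cancel]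
  have : (M : ℝ) ≤ Real.sqrt b := Nat.floor_le (Real.sqrt_nonneg b)
  linarith

/-- Points near the circle of norm `b`: at most `60 b^(3/4)` Gaussian integers `z` with
`(sqrt b - 1)^2 ≤ N z ≤ (sqrt b + 1)^2` when `b ≥ 1` (row `y`: `|x^2 - (b + 1 - y^2)| ≤ 2 sqrt b`,
`card_sq_near` with `E = 3 sqrt b`). -/
theorem card_circle (b : ℝ) (hb : 1 ≤ b) (S : Finset GaussianInt)
    (hS : ∀ z ∈ S, (Real.sqrt b - 1) ^ 2 ≤ nN z ∧ (nN z : ℝ) ≤ (Real.sqrt b + 1) ^ 2) :
    (S.card : ℝ) ≤ 60 * b ^ (3 / 4 : ℝ) := by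
  classical
  have hb0 : 0 < b := by linarith
  set s : ℝ := Real.sqrt b with hs
  have hs1 : 1 ≤ s := by
    rw [hs, Real.one_le_sqrt]; exact hb
  have hss : s * s = b := Real.mul_self_sqrt hb0.le
  set q : ℝ := Real.sqrt s with hq
  have hq1 : 1 ≤ q := by
    rw [hq, Real.one_le_sqrt]; exact hs1
  have hqq : q * q = s := Real.mul_self_sqrt (by linarith)
  have hb34 : b ^ (3 / 4 : ℝ) = q ^ 3 := by
    have h1 : q = b ^ (1 / 4 : ℝ) := by
      rw [hq, hs, Real.sqrt_eq_rpow, Real.sqrt_eq_rpow, ← Real.rpow_mul hb0.le]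
      norm_num
    rw [h1, ← Real.rpow_natCast, ← Real.rpow_mul hb0.le]
    norm_num
  rw [hb34]
  -- rows
  have hrow : ∀ y ∈ S.image (fun z : GaussianInt => z.im),
      ((S.filter (fun z => z.im = y)).card : ℝ) ≤ 7 * q := by
    intro y _
    have hinj : Set.InjOn (fun z : GaussianInt => z.re)
        (S.filter (fun z => z.im = y) : Finset GaussianInt) := by
      intro z hz w hw h
      rw [Finset.mem_coe, Finset.mem_filter] at hz hw
      exact Zsqrtd.ext h (hz.2.trans hw.2.symm)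
    have h1 := card_sq_near ((S.filter (fun z => z.im = y)).image (fun z => z.re))
      (b + 1 - (y : ℝ) ^ 2) (3 * s) (by linarith) (by
        intro x hx
        rw [Finset.mem_image] at hx
        obtain ⟨z, hz, rfl⟩ := hx
        rw [Finset.mem_filter] at hz
        have h2 := hS z hz.1
        rw [nN_real, hz.2] at h2
        rw [abs_lt]
        constructor <;> nlinarith [h2.1, h2.2])
    rw [Finset.card_image_of_injOn hinj] at h1
    refine h1.trans ?_
    have h3 : Real.sqrt (2 * (3 * s)) ≤ 5 / 2 * q := by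
      rw [Real.sqrt_le_left (by positivity)]
      nlinarith
    linarith
  have hY : ((S.image (fun z : GaussianInt => z.im)).card : ℝ) ≤ 5 * s := by
    set K : ℕ := ⌊s + 1⌋₊ with hK
    have hsub : S.image (fun z : GaussianInt => z.im) ⊆ Finset.Icc (-(K : ℤ)) K := by
      intro y hy
      rw [Finset.mem_image] at hy
      obtain ⟨z, hz, rfl⟩ := hy
      have h2 := (hS z hz).2
      rw [nN_real] at h2
      have h3 : |(z.im : ℝ)| ≤ s + 1 := by
        apply abs_le_of_sq_le_sq _ (by linarith)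
        nlinarith [sq_nonneg (z.re : ℝ)]
      have h4 : ((z.im.natAbs : ℕ) : ℝ) ≤ s + 1 := by
        rw [Nat.cast_natAbs, Int.cast_abs]
        exact h3
      have h5 : z.im.natAbs ≤ K := Nat.le_floor h4
      rw [Finset.mem_Icc]
      omega
    have h1 := Finset.card_le_card hsub
    rw [Int.card_Icc] at h1
    have h2 : ((K : ℤ) + 1 - -(K : ℤ)).toNat = 2 * K + 1 := by omega
    rw [h2] at h1
    have h3 : (K : ℝ) ≤ s + 1 := Nat.floor_le (by linarith)
    have h4 : ((S.image (fun z : GaussianInt => z.im)).card : ℝ) ≤ 2 * K + 1 := by exact_mod_cast h1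
    linarith
  have hcard := Finset.card_eq_sum_card_image (fun z : GaussianInt => z.im) S
  have h1 : (S.card : ℝ) = ∑ y ∈ S.image (fun z : GaussianInt => z.im),
      ((S.filter (fun z => z.im = y)).card : ℝ) := by
    rw [hcard]; push_cast; rfl
  rw [h1]
  refine (Finset.sum_le_sum hrow).trans ?_
  rw [Finset.sum_const, nsmul_eq_mul]
  have h2 : ((S.image (fun z : GaussianInt => z.im)).card : ℝ) * (7 * q) ≤ 5 * s * (7 * q) :=
    mul_le_mul_of_nonneg_right hY (by positivity)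
  refine h2.trans ?_
  rw [← hqq]
  nlinarith [pow_pos (show (0 : ℝ) < q by linarith) 3]

end Pool.Agent.NSqP
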