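import Pool.Agent.Lib.NSqP.WSmA

/-!
# Group W: residues
-/

set_option autoImplicit false

namespace Pool.Agent.NSqP

open Finset

private lemma sqrt_nN' (z : GaussianInt) : Real.sqrt (nN z) = ‖(z : ℂ)‖ := by
  rw [← norm_toC_sq, Real.sqrt_sq (norm_nonneg _)]

/-- `R` is a complete system of residues modulo `κ` of norms less than `N κ` -/
private def CSys (κ : GaussianInt) (R : Finset GaussianInt) : Prop :=
  (∀ r ∈ R, nN r < nN κ) ∧ (∀ w, ∃ z r, r ∈ R ∧ w = κ * z + r) ∧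
    ∀ z z' r r', r ∈ R → r' ∈ R → κ * z + r = κ * z' + r' → z = z' ∧ r = r'

private lemma div_add_mul (κ z w : GaussianInt) (hκ : κ ≠ 0) : (κ * z + w) / κ = z + w / κ := by
  have hκC : (κ : ℂ) ≠ 0 := toC_ne_zero hκ
  have h0 : (((κ * z + w : GaussianInt) : ℂ) / (κ : ℂ)) = (z : ℂ) + (w : ℂ) / (κ : ℂ) := by
    rw [GaussianInt.toComplex_add, GaussianInt.toComplex_mul]
    field_simp
  have hre : ((((κ * z + w) / κ : GaussianInt) : ℂ)).re = (((z + w / κ : GaussianInt)) : ℂ).re := by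
    rw [GaussianInt.toComplex_re_div, h0, GaussianInt.toComplex_add, Complex.add_re, Complex.add_re,
      GaussianInt.toComplex_re_div, ← GaussianInt.intCast_re, round_intCast_add]
    push_cast
    ring
  have him : ((((κ * z + w) / κ : GaussianInt) : ℂ)).im = (((z + w / κ : GaussianInt)) : ℂ).im := by
    rw [GaussianInt.toComplex_im_div, h0, GaussianInt.toComplex_add, Complex.add_im, Complex.add_im,
      GaussianInt.toComplex_im_div, ← GaussianInt.intCast_im, round_intCast_add]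
    push_cast
    ring
  apply Zsqrtd.ext
  · rw [← GaussianInt.intCast_re, ← GaussianInt.intCast_re] at hre
    exact_mod_cast hre
  · rw [← GaussianInt.intCast_im, ← GaussianInt.intCast_im] at him
    exact_mod_cast him

private lemma exists_csys (κ : GaussianInt) (hκ : κ ≠ 0) : ∃ R : Finset GaussianInt, CSys κ R := by
  classical
  refine ⟨(MP484c84Par.ballG (nN κ)).filter (fun r => r % κ = r), ?_, ?_, ?_⟩
  · intro r hr
    rw [Finset.mem_filter] at hr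
    have h := GaussianInt.natAbs_norm_mod_lt r hκ
    rw [hr.2] at h
    exact h
  · intro w
    refine ⟨w / κ, w % κ, ?_, ?_⟩
    · rw [Finset.mem_filter, MP484c84Par.mem_ballG]
      refine ⟨?_, ?_⟩
      · have h := GaussianInt.norm_mod_lt w hκ
        rw [nN_cast_int]
        exact h.le
      · have h1 : w % κ = κ * (-(w / κ)) + w := by
          rw [GaussianInt.mod_def]; ring
        rw [GaussianInt.mod_def (w % κ) κ]
        have h2 : (w % κ) / κ = 0 := by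
          rw [h1, div_add_mul κ _ _ hκ]; ring
        rw [h2]; ring
    · rw [GaussianInt.mod_def]; ring
  · intro z z' r r' hr hr' h
    rw [Finset.mem_filter] at hr hr'
    have hdiv : ∀ r : GaussianInt, r % κ = r → r / κ = 0 := by
      intro r hr
      rw [GaussianInt.mod_def] at hr
      have h1 : κ * (r / κ) = 0 := by
        have : r - κ * (r / κ) - r = 0 := by rw [hr]; ring
        linear_combination -this
      rcases mul_eq_zero.1 h1 with h2 | h2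
      · exact absurd h2 hκ
      · exact h2
    have h1 : (κ * z + r) / κ = z := by rw [div_add_mul κ _ _ hκ, hdiv r hr.2, add_zero]
    have h2 : (κ * z' + r') / κ = z' := by rw [div_add_mul κ _ _ hκ, hdiv r' hr'.2, add_zero]
    have h3 : z = z' := by rw [← h1, h, h2]
    refine ⟨h3, ?_⟩
    rw [h3] at h
    exact add_left_cancel h

private lemma csys_star (κ : GaussianInt) (R : Finset GaussianInt) (h : CSys κ R) :
    ∃ R' : Finset GaussianInt, CSys (star κ) R' ∧ R'.card = R.card := by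
  classical
  refine ⟨R.image star, ⟨?_, ?_, ?_⟩, Finset.card_image_of_injective _ star_injective⟩
  · intro r hr
    obtain ⟨r0, hr0, rfl⟩ := Finset.mem_image.1 hr
    rw [nN_star, nN_star]
    exact h.1 r0 hr0
  · intro w
    obtain ⟨z, r, hr, hw⟩ := h.2.1 (star w)
    refine ⟨star z, star r, Finset.mem_image_of_mem _ hr, ?_⟩
    have := congrArg star hw
    rw [star_star] at this
    rw [this, star_add, star_mul]
    ring
  · intro z z' r r' hr hr' he
    obtain ⟨r0, hr0, rfl⟩ := Finset.mem_image.1 hr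
    obtain ⟨r1, hr1, rfl⟩ := Finset.mem_image.1 hr'
    have h1 := congrArg star he
    rw [star_add, star_mul, star_add, star_mul, star_star, star_star, star_star] at h1
    have h2 := h.2.2 (star z) (star z') r0 r1 hr0 hr1 (by rw [mul_comm κ, mul_comm κ]; exact h1)
    refine ⟨star_injective h2.1, ?_⟩
    rw [h2.2]

private lemma main_bound (κ : GaussianInt) (hκ : κ ≠ 0) (R : Finset GaussianInt) (hR : CSys κ R)
    (d : ℤ) (b : ℝ) (hb : 1 ≤ b) :
    ‖∑ w ∈ ann 0 (nN κ * b), xi w ^ d - (R.card : ℂ) * xi κ ^ d * ∑ z ∈ ann 0 b, xi z ^ d‖ ≤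
        121 * R.card * (b ^ (3 / 4 : ℝ) + |(d : ℝ)| * Real.sqrt b) := by
  classical
  obtain ⟨hR1, hR2, hR3⟩ := hR
  have hb0 : 0 ≤ b := by linarith
  have hq : 0 < (nN κ : ℝ) := by exact_mod_cast nN_pos hκ
  have hqb : 0 ≤ (nN κ : ℝ) * b := by positivity
  choose zf rf hrf hwf using hR2
  set W := ann 0 (nN κ * b) with hW
  set Z := ann 0 b with hZ
  set P : Finset (GaussianInt × GaussianInt) := W.image (fun w => (zf w, rf w)) with hP
  set A : Finset (GaussianInt × GaussianInt) := Z ×ˢ R with hA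
  have hinj : Set.InjOn (fun w => (zf w, rf w)) (W : Set GaussianInt) := by
    intro w _ w' _ h
    simp only [Prod.mk.injEq] at h
    rw [hwf w, hwf w', h.1, h.2]
  have hsumW : ∑ w ∈ W, xi w ^ d = ∑ p ∈ P, xi (κ * p.1 + p.2) ^ d := by
    rw [hP, Finset.sum_image hinj]
    refine Finset.sum_congr rfl fun w _ => ?_
    simp only
    rw [← hwf w]
  have hsumA : (R.card : ℂ) * xi κ ^ d * ∑ z ∈ Z, xi z ^ d = ∑ p ∈ A, xi (κ * p.1) ^ d := by
    rw [hA, Finset.sum_product]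
    simp only [Finset.sum_const, nsmul_eq_mul]
    rw [← Finset.mul_sum, mul_assoc, Finset.mul_sum]
    congr 1
    refine Finset.sum_congr rfl fun z _ => ?_
    rw [xi_mul_zpow]
  have hPmem : ∀ p ∈ P, p.2 ∈ R ∧ κ * p.1 + p.2 ∈ W := by
    intro p hp
    rw [hP, Finset.mem_image] at hp
    obtain ⟨w, hw, rfl⟩ := hp
    refine ⟨hrf w, ?_⟩
    simp only
    rw [← hwf w]
    exact hw
  have hPmem' : ∀ p : GaussianInt × GaussianInt, p.2 ∈ R → κ * p.1 + p.2 ∈ W → p ∈ P := by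
    intro p hp2 hpW
    rw [hP, Finset.mem_image]
    refine ⟨κ * p.1 + p.2, hpW, ?_⟩
    have h1 := hR3 (zf (κ * p.1 + p.2)) p.1 (rf (κ * p.1 + p.2)) p.2 (hrf _) hp2 (hwf _).symm
    exact Prod.ext h1.1 h1.2
  -- norms
  have hnR : ∀ r ∈ R, ‖(r : ℂ)‖ ≤ ‖(κ : ℂ)‖ := by
    intro r hr
    rw [← sqrt_nN', ← sqrt_nN']
    exact Real.sqrt_le_sqrt (by exact_mod_cast (hR1 r hr).le)
  have hκn : 0 < ‖(κ : ℂ)‖ := norm_pos_iff.2 (toC_ne_zero hκ)
  have hcast : ∀ p : GaussianInt × GaussianInt, ((κ * p.1 + p.2 : GaussianInt) : ℂ) =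
      (κ : ℂ) * (p.1 : ℂ) + (p.2 : ℂ) := by
    intro p
    rw [GaussianInt.toComplex_add, GaussianInt.toComplex_mul]
  have hsqrtqb : Real.sqrt (nN κ * b) = ‖(κ : ℂ)‖ * Real.sqrt b := by
    rw [Real.sqrt_mul hq.le, sqrt_nN']
  have hs1 : 1 ≤ Real.sqrt b := by rw [Real.one_le_sqrt]; exact hb
  have hsplitP : ∑ p ∈ P, xi (κ * p.1 + p.2) ^ d =
      ∑ p ∈ P ∩ A, xi (κ * p.1 + p.2) ^ d + ∑ p ∈ P \ A, xi (κ * p.1 + p.2) ^ d :=
    (Finset.sum_inter_add_sum_sdiff P A _).symm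
  have hsplitA : ∑ p ∈ A, xi (κ * p.1) ^ d =
      ∑ p ∈ P ∩ A, xi (κ * p.1) ^ d + ∑ p ∈ A \ P, xi (κ * p.1) ^ d := by
    rw [Finset.inter_comm]
    exact (Finset.sum_inter_add_sum_sdiff A P _).symm
  have hterm1 : ‖∑ p ∈ P ∩ A, (xi (κ * p.1 + p.2) ^ d - xi (κ * p.1) ^ d)‖ ≤
      16 * R.card * (|(d : ℝ)| * Real.sqrt b) := by
    calc ‖∑ p ∈ P ∩ A, (xi (κ * p.1 + p.2) ^ d - xi (κ * p.1) ^ d)‖
        ≤ ∑ p ∈ P ∩ A, ‖xi (κ * p.1 + p.2) ^ d - xi (κ * p.1) ^ d‖ := norm_sum_le _ _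
      _ ≤ ∑ p ∈ P ∩ A, 2 * |(d : ℝ)| * (1 / Real.sqrt (nN p.1)) := by
          refine Finset.sum_le_sum fun p hp => ?_
          rw [Finset.mem_inter] at hp
          obtain ⟨hp2, hpW⟩ := hPmem p hp.1
          have hpZ : p.1 ∈ Z := (Finset.mem_product.1 hp.2).1
          have hp1 : p.1 ≠ 0 := ne_zero_of_mem_ann le_rfl hpZ
          have hpW0 : κ * p.1 + p.2 ≠ 0 := ne_zero_of_mem_ann le_rfl hpW
          have h1 := xi_lip (κ * p.1 + p.2) (κ * p.1) hpW0 (mul_ne_zero hκ hp1) d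
          refine h1.trans ?_
          have h2 : κ * p.1 + p.2 - κ * p.1 = p.2 := by ring
          rw [h2, sqrt_nN', sqrt_nN', sqrt_nN', GaussianInt.toComplex_mul, norm_mul]
          have h3 : 0 < ‖(p.1 : ℂ)‖ := norm_pos_iff.2 (toC_ne_zero hp1)
          have h4 := hnR p.2 hp2
          have h5 : ‖(p.2 : ℂ)‖ / (‖(κ : ℂ)‖ * ‖(p.1 : ℂ)‖) ≤ 1 / ‖(p.1 : ℂ)‖ := by
            rw [div_le_div_iff₀ (by positivity) h3]
            nlinarith
          have h6 : 0 ≤ 2 * |(d : ℝ)| := by positivity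
          calc 2 * |(d : ℝ)| * ‖(p.2 : ℂ)‖ / (‖(κ : ℂ)‖ * ‖(p.1 : ℂ)‖)
              = 2 * |(d : ℝ)| * (‖(p.2 : ℂ)‖ / (‖(κ : ℂ)‖ * ‖(p.1 : ℂ)‖)) := by ring
            _ ≤ 2 * |(d : ℝ)| * (1 / ‖(p.1 : ℂ)‖) := mul_le_mul_of_nonneg_left h5 h6
      _ ≤ ∑ p ∈ A, 2 * |(d : ℝ)| * (1 / Real.sqrt (nN p.1)) :=
          Finset.sum_le_sum_of_subset_of_nonneg Finset.inter_subset_right
            (fun p _ _ => by positivity)
      _ = R.card * (2 * |(d : ℝ)|) * ∑ z ∈ Z, 1 / Real.sqrt (nN z) := by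
          rw [hA, Finset.sum_product]
          simp only [Finset.sum_const, nsmul_eq_mul]
          rw [Finset.mul_sum]
          refine Finset.sum_congr rfl fun z _ => ?_
          ring
      _ ≤ R.card * (2 * |(d : ℝ)|) * (8 * Real.sqrt b) :=
          mul_le_mul_of_nonneg_left (sum_inv_norm b hb)
            (mul_nonneg (Nat.cast_nonneg _) (mul_nonneg zero_le_two (abs_nonneg _)))
      _ = 16 * R.card * (|(d : ℝ)| * Real.sqrt b) := by ring
  have hterm2 : ‖∑ p ∈ P \ A, xi (κ * p.1 + p.2) ^ d‖ ≤ (1 + 60 * b ^ (3 / 4 : ℝ)) * R.card := by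
    have h1 : ‖∑ p ∈ P \ A, xi (κ * p.1 + p.2) ^ d‖ ≤ ((P \ A).card : ℝ) := by
      refine (norm_sum_le _ _).trans (le_of_eq ?_)
      calc ∑ p ∈ P \ A, ‖xi (κ * p.1 + p.2) ^ d‖ = ∑ _p ∈ P \ A, (1 : ℝ) := by
            refine Finset.sum_congr rfl fun p hp => ?_
            rw [Finset.mem_sdiff] at hp
            exact norm_xi_zpow (ne_zero_of_mem_ann le_rfl (hPmem p hp.1).2) d
        _ = ((P \ A).card : ℝ) := by rw [Finset.sum_const, nsmul_eq_mul, mul_one]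
    refine h1.trans ?_
    set S1 := ((P \ A).image Prod.fst).erase 0 with hS1
    have hc1 := card_circle b hb S1 (by
      intro z hz
      rw [hS1, Finset.mem_erase, Finset.mem_image] at hz
      obtain ⟨hz0, p, hp, rfl⟩ := hz
      rw [Finset.mem_sdiff] at hp
      obtain ⟨hp2, hpW⟩ := hPmem p hp.1
      have hpZ : p.1 ∉ Z := by
        intro h
        exact hp.2 (Finset.mem_product.2 ⟨h, hp2⟩)
      have hgt : b < (nN p.1 : ℝ) := by
        by_contra hcon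
        push Not at hcon
        apply hpZ
        rw [hZ, mem_ann hb0]
        exact ⟨by exact_mod_cast nN_pos hz0, hcon⟩
      have hW' := (mem_ann hqb).1 hpW
      have h2 : ‖(κ : ℂ) * (p.1 : ℂ) + (p.2 : ℂ)‖ ≤ ‖(κ : ℂ)‖ * Real.sqrt b := by
        rw [← hcast, ← sqrt_nN', ← hsqrtqb]
        exact Real.sqrt_le_sqrt hW'.2
      have h3 : ‖(κ : ℂ)‖ * ‖(p.1 : ℂ)‖ ≤ ‖(κ : ℂ)‖ * (Real.sqrt b + 1) := by
        have h4 : ‖(κ : ℂ) * (p.1 : ℂ)‖ ≤ ‖(κ : ℂ) * (p.1 : ℂ) + (p.2 : ℂ)‖ + ‖(p.2 : ℂ)‖ := by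
          have : (κ : ℂ) * (p.1 : ℂ) = ((κ : ℂ) * (p.1 : ℂ) + (p.2 : ℂ)) - (p.2 : ℂ) := by ring
          nth_rewrite 1 [this]
          exact norm_sub_le _ _
        rw [norm_mul] at h4
        have h5 := hnR p.2 hp2
        linarith
      have h6 : ‖(p.1 : ℂ)‖ ≤ Real.sqrt b + 1 := le_of_mul_le_mul_left h3 hκn
      constructor
      · have h7 : (Real.sqrt b - 1) ^ 2 ≤ b := by
          have := Real.mul_self_sqrt hb0
          nlinarith
        linarith
      · rw [← norm_toC_sq]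
        exact pow_le_pow_left₀ (norm_nonneg _) h6 2)
    have hsub : P \ A ⊆ (insert 0 S1) ×ˢ R := by
      intro p hp
      rw [Finset.mem_product]
      have hp' := Finset.mem_sdiff.1 hp
      refine ⟨?_, (hPmem p hp'.1).1⟩
      by_cases h0 : p.1 = 0
      · rw [h0]; exact Finset.mem_insert_self _ _
      · refine Finset.mem_insert_of_mem ?_
        rw [hS1, Finset.mem_erase]
        exact ⟨h0, Finset.mem_image_of_mem _ hp⟩
    have h2 := Finset.card_le_card hsub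
    rw [Finset.card_product] at h2
    have h3 : (insert 0 S1).card ≤ S1.card + 1 := Finset.card_insert_le _ _
    have h4 : ((P \ A).card : ℝ) ≤ ((S1.card : ℝ) + 1) * R.card := by
      have : (P \ A).card ≤ (S1.card + 1) * R.card := h2.trans (Nat.mul_le_mul_right _ h3)
      exact_mod_cast this
    refine h4.trans (mul_le_mul_of_nonneg_right (by linarith) (Nat.cast_nonneg _))
  have hterm3 : ‖∑ p ∈ A \ P, xi (κ * p.1) ^ d‖ ≤ (60 * b ^ (3 / 4 : ℝ)) * R.card := by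
    have h1 : ‖∑ p ∈ A \ P, xi (κ * p.1) ^ d‖ ≤ ((A \ P).card : ℝ) := by
      refine (norm_sum_le _ _).trans (le_of_eq ?_)
      calc ∑ p ∈ A \ P, ‖xi (κ * p.1) ^ d‖ = ∑ _p ∈ A \ P, (1 : ℝ) := by
            refine Finset.sum_congr rfl fun p hp => ?_
            rw [Finset.mem_sdiff, hA, Finset.mem_product] at hp
            exact norm_xi_zpow (mul_ne_zero hκ (ne_zero_of_mem_ann le_rfl hp.1.1)) d
        _ = ((A \ P).card : ℝ) := by rw [Finset.sum_const, nsmul_eq_mul, mul_one]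
    refine h1.trans ?_
    set S2 := (A \ P).image Prod.fst with hS2
    have hc1 := card_circle b hb S2 (by
      intro z hz
      rw [hS2, Finset.mem_image] at hz
      obtain ⟨p, hp, rfl⟩ := hz
      rw [Finset.mem_sdiff, hA, Finset.mem_product] at hp
      obtain ⟨⟨hpZ, hp2⟩, hpP⟩ := hp
      have hpZ' := (mem_ann hb0).1 hpZ
      have hp1 : p.1 ≠ 0 := ne_zero_of_mem_ann le_rfl hpZ
      have hne0 : κ * p.1 + p.2 ≠ 0 := by
        intro h0
        have h2 : κ * p.1 = -p.2 := by linear_combination h0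
        have h3 : nN (κ * p.1) = nN p.2 := by
          rw [h2]; unfold nN; rw [Zsqrtd.norm_neg]
        rw [nN_mul] at h3
        have h4 := hR1 p.2 hp2
        have h5 := nN_pos hp1
        have h6 : nN κ * 1 ≤ nN κ * nN p.1 := Nat.mul_le_mul_left _ h5
        omega
      have hnW : κ * p.1 + p.2 ∉ W := fun h => hpP (hPmem' p hp2 h)
      have hgt : (nN κ : ℝ) * b < (nN (κ * p.1 + p.2) : ℝ) := by
        by_contra hcon
        push Not at hcon
        apply hnW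
        rw [hW, mem_ann hqb]
        exact ⟨by exact_mod_cast nN_pos hne0, hcon⟩
      have h2 : ‖(κ : ℂ)‖ * Real.sqrt b ≤ ‖(κ : ℂ) * (p.1 : ℂ) + (p.2 : ℂ)‖ := by
        rw [← hsqrtqb, ← hcast, ← sqrt_nN']
        exact Real.sqrt_le_sqrt hgt.le
      have h3 : ‖(κ : ℂ)‖ * (Real.sqrt b - 1) ≤ ‖(κ : ℂ)‖ * ‖(p.1 : ℂ)‖ := by
        have h4 := norm_add_le ((κ : ℂ) * (p.1 : ℂ)) (p.2 : ℂ)
        rw [norm_mul] at h4
        have h5 := hnR p.2 hp2
        linarith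
      have h6 : Real.sqrt b - 1 ≤ ‖(p.1 : ℂ)‖ := le_of_mul_le_mul_left h3 hκn
      constructor
      · rw [← norm_toC_sq]
        exact pow_le_pow_left₀ (by linarith) h6 2
      · have h7 : b ≤ (Real.sqrt b + 1) ^ 2 := by
          have := Real.mul_self_sqrt hb0
          nlinarith
        linarith [hpZ'.2])
    have hsub : A \ P ⊆ S2 ×ˢ R := by
      intro p hp
      rw [Finset.mem_product]
      have hp' := Finset.mem_sdiff.1 hp
      refine ⟨?_, (Finset.mem_product.1 hp'.1).2⟩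
      rw [hS2]
      exact Finset.mem_image_of_mem _ hp
    have h2 := Finset.card_le_card hsub
    rw [Finset.card_product] at h2
    have h4 : ((A \ P).card : ℝ) ≤ (S2.card : ℝ) * R.card := by exact_mod_cast h2
    refine h4.trans (mul_le_mul_of_nonneg_right hc1 (Nat.cast_nonneg _))
  rw [hsumW, hsumA, hsplitP, hsplitA]
  have hfin : (∑ p ∈ P ∩ A, xi (κ * p.1 + p.2) ^ d + ∑ p ∈ P \ A, xi (κ * p.1 + p.2) ^ d) -
      (∑ p ∈ P ∩ A, xi (κ * p.1) ^ d + ∑ p ∈ A \ P, xi (κ * p.1) ^ d) =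
      ∑ p ∈ P ∩ A, (xi (κ * p.1 + p.2) ^ d - xi (κ * p.1) ^ d) +
        ∑ p ∈ P \ A, xi (κ * p.1 + p.2) ^ d - ∑ p ∈ A \ P, xi (κ * p.1) ^ d := by
    rw [Finset.sum_sub_distrib]; ring
  rw [hfin]
  have hb34 : 1 ≤ b ^ (3 / 4 : ℝ) := Real.one_le_rpow hb (by norm_num)
  have hRnn : (0 : ℝ) ≤ R.card := Nat.cast_nonneg _
  have hdb : 0 ≤ |(d : ℝ)| * Real.sqrt b := by positivity
  calc ‖∑ p ∈ P ∩ A, (xi (κ * p.1 + p.2) ^ d - xi (κ * p.1) ^ d) +
        ∑ p ∈ P \ A, xi (κ * p.1 + p.2) ^ d - ∑ p ∈ A \ P, xi (κ * p.1) ^ d‖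
      ≤ ‖∑ p ∈ P ∩ A, (xi (κ * p.1 + p.2) ^ d - xi (κ * p.1) ^ d) +
        ∑ p ∈ P \ A, xi (κ * p.1 + p.2) ^ d‖ + ‖∑ p ∈ A \ P, xi (κ * p.1) ^ d‖ := norm_sub_le _ _
    _ ≤ (‖∑ p ∈ P ∩ A, (xi (κ * p.1 + p.2) ^ d - xi (κ * p.1) ^ d)‖ +
        ‖∑ p ∈ P \ A, xi (κ * p.1 + p.2) ^ d‖) + ‖∑ p ∈ A \ P, xi (κ * p.1) ^ d‖ := by
        linarith [norm_add_le (∑ p ∈ P ∩ A, (xi (κ * p.1 + p.2) ^ d - xi (κ * p.1) ^ d))
          (∑ p ∈ P \ A, xi (κ * p.1 + p.2) ^ d)]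
    _ ≤ 16 * R.card * (|(d : ℝ)| * Real.sqrt b) + (1 + 60 * b ^ (3 / 4 : ℝ)) * R.card +
        (60 * b ^ (3 / 4 : ℝ)) * R.card := by linarith
    _ ≤ 121 * R.card * (b ^ (3 / 4 : ℝ) + |(d : ℝ)| * Real.sqrt b) := by
        have h1 : 0 ≤ (R.card : ℝ) * (|(d : ℝ)| * Real.sqrt b) := mul_nonneg hRnn hdb
        have h2 : 0 ≤ (R.card : ℝ) * (b ^ (3 / 4 : ℝ) - 1) :=
          mul_nonneg hRnn (by linarith)
        nlinarith

/-- Residues. Let `κ ≠ 0`, `q = N κ`, `d ≠ 0`. Let `R` be the (finite) set of remainders `w % κ`;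
`N r < q` for `r ∈ R`, and `(z, r) ↦ κ z + r` is a bijection from `GaussianInt × R` onto
`GaussianInt` (Euclidean division; or choose any complete system of residues of norm `≤ q`). Then
`‖∑_{w ∈ ann 0 (q b)} ξ(w)^d - (#R) ξ(κ)^d ∑_{z ∈ ann 0 b} ξ(z)^d‖ ≤ C (#R) (b^(3/4) + |d| sqrt b)`:
compare `ξ(κ z + r)^d` with `ξ(κ z)^d` for `z ∈ ann 0 b`, `κ z + r ≠ 0` (`xi_lip`: error
`2 |d| sqrt q / sqrt (q N z)`), and the remaining `(z, r)`, for which either `z = 0`, or `κ z + r = 0`,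
or `N z` is within the range of `card_circle`. The number `#R` is the same for `κ` and `star κ`
(take for `star κ` the conjugate system). Statement with the same positive integer `m` for
both: -/
theorem residues : ∃ C : ℝ, 0 < C ∧ ∀ κ : GaussianInt, κ ≠ 0 → ∃ m : ℕ, 0 < m ∧
    ∀ d : ℤ, d ≠ 0 → ∀ b : ℝ, 1 ≤ b →
      ‖∑ w ∈ ann 0 (nN κ * b), xi w ^ d - (m : ℂ) * xi κ ^ d * ∑ z ∈ ann 0 b, xi z ^ d‖ ≤
        C * m * (b ^ (3 / 4 : ℝ) + |(d : ℝ)| * Real.sqrt b) ∧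
      ‖∑ w ∈ ann 0 (nN κ * b), xi w ^ d - (m : ℂ) * xi (star κ) ^ d * ∑ z ∈ ann 0 b, xi z ^ d‖ ≤
        C * m * (b ^ (3 / 4 : ℝ) + |(d : ℝ)| * Real.sqrt b) := by
  refine ⟨121, by norm_num, fun κ hκ => ?_⟩
  obtain ⟨R, hR⟩ := exists_csys κ hκ
  obtain ⟨R', hR', hcard⟩ := csys_star κ R hR
  refine ⟨R.card, ?_, fun d _ b hb => ⟨main_bound κ hκ R hR d b hb, ?_⟩⟩
  · obtain ⟨z, r, hr, -⟩ := hR.2.1 0
    exact Finset.card_pos.2 ⟨r, hr⟩
  · have h := main_bound (star κ) (star_ne_zero.2 hκ) R' hR' d b hb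
    rw [hcard, nN_star] at h
    exact h

end Pool.Agent.NSqP
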